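import Pool.Agent.Helper65.HP.JwE

/-! Module JWI: consequences of the division theorem for closed prime ideals. -/

set_option autoImplicit false

namespace Pool.Agent.Helper65.HP

open Filter Topology UpperHalfPlane

noncomputable section

theorem CPI.prod_mem {I : Set (ℍ → ℂ)} (hI : CPI I) {ι : Type} (s : Finset ι) (F : ι → ℍ → ℂ)
    (hF : ∀ i ∈ s, InH (F i)) (h : (fun z => ∏ i ∈ s, F i z) ∈ I) : ∃ i ∈ s, F i ∈ I := by
  classical
  have key : ∀ s : Finset ι, (∀ i ∈ s, InH (F i)) → (InH fun z => ∏ i ∈ s, F i z) ∧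
      ((fun z => ∏ i ∈ s, F i z) ∈ I → ∃ i ∈ s, F i ∈ I) := by
    intro s
    induction s using Finset.induction_on with
    | empty =>
      intro _
      refine ⟨?_, ?_⟩
      · simpa using InH.const 1
      · intro h
        simp only [Finset.prod_empty] at h
        exact absurd h hI.one
    | insert a s ha ih =>
      intro hF
      have ih' := ih fun i hi => hF i (Finset.mem_insert_of_mem hi)
      have h1 : (fun z => ∏ i ∈ insert a s, F i z) = fun z => F a z * ∏ i ∈ s, F i z := by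
        funext z
        rw [Finset.prod_insert ha]
      refine ⟨?_, ?_⟩
      · rw [h1]
        exact (hF a (Finset.mem_insert_self a s)).mul ih'.1
      · intro h
        rw [h1] at h
        rcases hI.prime _ _ (hF a (Finset.mem_insert_self a s)) ih'.1 h with h2 | h2
        · exact ⟨a, Finset.mem_insert_self a s, h2⟩
        · obtain ⟨i, hi, h3⟩ := ih'.2 h2
          exact ⟨i, Finset.mem_insert_of_mem hi, h3⟩
  exact (key s hF).2 h

theorem CPI.pow_mem {I : Set (ℍ → ℂ)} (hI : CPI I) {F : ℍ → ℂ} (hF : InH F) {k : ℕ}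
    (h : (fun z => F z ^ k) ∈ I) : F ∈ I := by
  obtain ⟨i, _, hi⟩ := hI.prod_mem (Finset.univ : Finset (Fin k)) (fun _ => F) (fun _ _ => hF)
    (by simpa using h)
  exact hi

theorem CPI.sum_mem {I : Set (ℍ → ℂ)} (hI : CPI I) {ι : Type} (s : Finset ι) (F : ι → ℍ → ℂ)
    (hF : ∀ i ∈ s, F i ∈ I) : (fun z => ∑ i ∈ s, F i z) ∈ I := by
  classical
  revert hF
  induction s using Finset.induction_on with
  | empty =>
    intro _
    simpa using hI.zero
  | insert a s ha ih =>
    intro hF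
    have h1 : (fun z => ∑ i ∈ insert a s, F i z) = fun z => F a z + ∑ i ∈ s, F i z := by
      funext z
      rw [Finset.sum_insert ha]
    rw [h1]
    exact hI.add _ (hF a (Finset.mem_insert_self a s)) _
      (ih fun i hi => hF i (Finset.mem_insert_of_mem hi))

/-- membership criterion -/
theorem mem_of_small {I : Set (ℍ → ℂ)} (hI : CPI I) {δ : ℝ} (hδ : 0 < δ) {G : ℍ → ℂ}
    (hG : InU G) (n : ℕ) (h : ∀ ε > 0, ∃ κ : Fin n → ℍ → ℂ, (∀ j, κ j ∈ I ∧ InU (κ j)) ∧
      ∀ z, (∀ j, ‖κ j z‖ < δ) → ‖G z‖ ≤ ε) : G ∈ I := by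
  apply hI.pow_mem hG.inH (k := 2)
  apply hI.closed _ (hG.pow 2).inH
  intro η hη
  obtain ⟨ε, hε, hj⟩ := jw n δ η hδ hη
  obtain ⟨κ, hκ, hκ'⟩ := h ε hε
  obtain ⟨α, hα, hα'⟩ := hj κ G (fun j => (hκ j).2) hG hκ'
  exact ⟨_, hI.sum_mem Finset.univ (fun j z => κ j z * α j z)
    (fun j _ => hI.mul _ (hκ j).1 _ (hα j)), hα'⟩

/-- corona theorem modulo `I` -/
theorem corona {I : Set (ℍ → ℂ)} (hI : CPI I) {δ : ℝ} (hδ : 0 < δ) {p q : ℕ}
    (a : Fin p → ℍ → ℂ) (b : Fin q → ℍ → ℂ) (ha : ∀ j, a j ∈ I ∧ InU (a j))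
    (hb : ∀ j, InU (b j)) (h : ∀ z, (∃ j, δ ≤ ‖a j z‖) ∨ ∃ j, δ ≤ ‖b j z‖) :
    ∃ α : Fin q → ℍ → ℂ, (∀ j, InH (α j)) ∧ (fun z => 1 - ∑ j, b j z * α j z) ∈ I := by
  obtain ⟨ε, hε, hj⟩ := jw (p + q) δ (1 / 2) hδ (by norm_num)
  obtain ⟨α, hα, hα'⟩ := hj (Fin.append a b) (fun _ => 1)
    (by
      intro j
      refine Fin.addCases (fun i => ?_) (fun i => ?_) j
      · rw [Fin.append_left]
        exact (ha i).2
      · rw [Fin.append_right]
        exact hb i) InU.one
    (by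
      intro z hz
      exfalso
      rcases h z with ⟨j, hj⟩ | ⟨j, hj⟩
      · have := hz (Fin.castAdd q j)
        rw [Fin.append_left] at this
        linarith
      · have := hz (Fin.natAdd p j)
        rw [Fin.append_right] at this
        linarith)
  set S : ℍ → ℂ := fun z => ∑ j, Fin.append a b j z * α j z with hS
  have hS1 : ∀ z, ‖1 - S z‖ ≤ 1 / 2 := by
    intro z
    have := hα' z
    rw [one_pow] at this
    exact this
  have hS2 : ∀ z, 1 / 2 ≤ ‖S z‖ := by
    intro z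
    have h1 : (1 : ℝ) ≤ ‖1 - S z‖ + ‖S z‖ := by
      have := norm_add_le (1 - S z) (S z)
      rw [sub_add_cancel, norm_one] at this
      exact this
    have := hS1 z
    linarith
  have hS0 : ∀ z, S z ≠ 0 := by
    intro z hz
    have := hS2 z
    rw [hz, norm_zero] at this
    norm_num at this
  have hSH : InH S := by
    apply InH.sum
    intro j _
    refine InH.mul ?_ (hα j)
    refine Fin.addCases (fun i => ?_) (fun i => ?_) j
    · rw [Fin.append_left]
      exact (ha i).2.inH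
    · rw [Fin.append_right]
      exact (hb i).inH
  have hSi : InH fun z => (S z)⁻¹ := hSH.inv (by norm_num) hS2
  have hsplit : ∀ z, S z = (∑ i, a i z * α (Fin.castAdd q i) z) +
      ∑ i, b i z * α (Fin.natAdd p i) z := by
    intro z
    rw [hS]
    simp only [Fin.sum_univ_add, Fin.append_left, Fin.append_right]
  refine ⟨fun j z => α (Fin.natAdd p j) z * (S z)⁻¹, fun j => (hα _).mul hSi, ?_⟩
  have h1 : (fun z => 1 - ∑ j, b j z * (α (Fin.natAdd p j) z * (S z)⁻¹)) =
      fun z => (∑ i, a i z * α (Fin.castAdd q i) z) * (S z)⁻¹ := by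
    funext z
    have h2 : ∑ j, b j z * (α (Fin.natAdd p j) z * (S z)⁻¹) =
        (∑ i, b i z * α (Fin.natAdd p i) z) * (S z)⁻¹ := by
      rw [Finset.sum_mul]
      exact Finset.sum_congr rfl fun i _ => by ring
    rw [h2]
    have h3 : (1 : ℂ) = S z * (S z)⁻¹ := (mul_inv_cancel₀ (hS0 z)).symm
    rw [h3, ← sub_mul]
    congr 1
    rw [hsplit z]
    ring
  show (fun z => 1 - ∑ j, b j z * (α (Fin.natAdd p j) z * (S z)⁻¹)) ∈ I
  rw [h1]
  exact hI.mul _ (hI.sum_mem Finset.univ (fun i z => a i z * α (Fin.castAdd q i) z)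
    (fun i _ => hI.mul _ (ha i).1 _ (hα _))) _ hSi

end

end Pool.Agent.Helper65.HP
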