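import Pool.Agent.Helper65.HP.Dom

/-! Module PHI: the tame function `phi θ`. -/

set_option autoImplicit false

namespace Pool.Agent.Helper65.HP

open Filter Topology UpperHalfPlane

noncomputable section

namespace PhiAux

/-- the supremum over the disc -/
def S (θ : ℍ → ℂ) (z : ℍ) : ℝ := ⨆ ζ : {ζ : ℍ // 3 / 4 ≤ g z ζ}, ‖θ ζ‖

theorem phi_eq (θ : ℍ → ℂ) (z : ℍ) : phi θ z = Real.log (1 + Real.log (1 / S θ z)) := rfl

theorem self_mem (z : ℍ) : 3 / 4 ≤ g z z := by rw [g_self]; norm_num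

instance (z : ℍ) : Nonempty {ζ : ℍ // 3 / 4 ≤ g z ζ} := ⟨⟨z, self_mem z⟩⟩

theorem bdd {θ : ℍ → ℂ} (hθ : InU θ) (z : ℍ) :
    BddAbove (Set.range fun ζ : {ζ : ℍ // 3 / 4 ≤ g z ζ} => ‖θ ζ‖) :=
  ⟨1, by rintro _ ⟨ζ, rfl⟩; exact hθ.2 _⟩

theorem le_S {θ : ℍ → ℂ} (hθ : InU θ) {z ζ : ℍ} (h : 3 / 4 ≤ g z ζ) : ‖θ ζ‖ ≤ S θ z :=
  le_ciSup (bdd hθ z) (⟨ζ, h⟩ : {ζ : ℍ // 3 / 4 ≤ g z ζ})

theorem S_le {θ : ℍ → ℂ} {z : ℍ} {c : ℝ} (h : ∀ ζ, 3 / 4 ≤ g z ζ → ‖θ ζ‖ ≤ c) : S θ z ≤ c :=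
  ciSup_le fun ζ => h _ ζ.2

theorem S_le_one {θ : ℍ → ℂ} (hθ : InU θ) (z : ℍ) : S θ z ≤ 1 := S_le fun ζ _ => hθ.2 ζ

theorem S_nonneg {θ : ℍ → ℂ} (hθ : InU θ) (z : ℍ) : 0 ≤ S θ z :=
  (norm_nonneg _).trans (le_S hθ (self_mem z))

theorem S_pos {θ : ℍ → ℂ} (hθ : InU θ) (h0 : ∃ z, θ z ≠ 0) (z : ℍ) : 0 < S θ z := by
  rcases (S_nonneg hθ z).lt_or_eq with h | h
  · exact h
  · exfalso
    obtain ⟨w, hw⟩ := h0
    apply hw
    apply hθ.1.eq_zero z
    intro ζ hζ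
    have := le_S hθ hζ
    rw [← h] at this
    exact norm_le_zero_iff.mp this

theorem log_nonneg' {θ : ℍ → ℂ} (hθ : InU θ) (z : ℍ) : 0 ≤ Real.log (1 / S θ z) := by
  rcases (S_nonneg hθ z).lt_or_eq with h | h
  · apply Real.log_nonneg
    rw [le_div_iff₀ h]; linarith [S_le_one hθ z]
  · rw [← h]; simp

theorem exp_phi {θ : ℍ → ℂ} (hθ : InU θ) (z : ℍ) :
    Real.exp (phi θ z) = 1 + Real.log (1 / S θ z) := by
  rw [phi_eq, Real.exp_log]
  linarith [log_nonneg' hθ z]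

theorem phi_nonneg {θ : ℍ → ℂ} (hθ : InU θ) (z : ℍ) : 0 ≤ phi θ z := by
  rw [phi_eq]
  apply Real.log_nonneg
  linarith [log_nonneg' hθ z]

/-- a bound for the supremum gives a lower bound for `exp phi` -/
theorem exp_phi_ge {θ : ℍ → ℂ} (hθ : InU θ) (h0 : ∃ z, θ z ≠ 0) {z : ℍ} {c : ℝ}
    (h : S θ z ≤ Real.exp (-c)) : 1 + c ≤ Real.exp (phi θ z) := by
  rw [exp_phi hθ]
  have h1 := S_pos hθ h0 z
  have h2 : Real.log (S θ z) ≤ -c := by
    rw [← Real.log_exp (-c)]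
    exact Real.log_le_log h1 h
  have h3 : Real.log (1 / S θ z) = -Real.log (S θ z) := by
    rw [one_div, Real.log_inv]
  linarith

/-- a lower bound for `exp phi` bounds the supremum -/
theorem S_le_of {θ : ℍ → ℂ} (hθ : InU θ) (h0 : ∃ z, θ z ≠ 0) {z : ℍ} {c : ℝ}
    (h : 1 + c ≤ Real.exp (phi θ z)) : S θ z ≤ Real.exp (-c) := by
  rw [exp_phi hθ] at h
  have h1 := S_pos hθ h0 z
  have h3 : Real.log (1 / S θ z) = -Real.log (S θ z) := by
    rw [one_div, Real.log_inv]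
  rw [← Real.exp_log h1]
  apply Real.exp_le_exp.mpr
  linarith

theorem logt : -Real.log (1 - 3 / 4) ≤ 2 * (3 / 4) := by
  have h : Real.log (1 - 3 / 4) = -(2 * Real.log 2) := by
    rw [show (1 - 3 / 4 : ℝ) = (2 ^ 2)⁻¹ by norm_num, Real.log_inv, Real.log_pow]
    norm_num
  rw [h]
  have := Real.log_two_lt_d9
  norm_num at this ⊢
  linarith

end PhiAux

open PhiAux

theorem phi_tame {θ : ℍ → ℂ} (hθ : InU θ) (h0 : ∃ z, θ z ≠ 0) : Tame (phi θ) := by
  refine ⟨fun z => phi_nonneg hθ z, ?_⟩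
  intro A W a hA hW ha z
  have hApos : 0 < A := by linarith
  have he : 0 < Real.exp (phi θ z - a) := Real.exp_pos _
  rcases lt_or_ge a 1 with h1 | h1
  · have h2 : Real.exp (-1) ≤ Real.exp (phi θ z - a) := by
      apply Real.exp_le_exp.mpr
      linarith [phi_nonneg hθ z]
    have h3 : (1 : ℝ) / 3 ≤ Real.exp (-1) := by
      rw [Real.exp_neg, one_div]
      apply inv_anti₀ (Real.exp_pos _)
      linarith [Real.exp_one_lt_d9]
    calc pot W z ≤ A := hW z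
      _ ≤ 20 * A * (1 / 3) := by linarith
      _ ≤ 20 * A * Real.exp (phi θ z - a) := by
        apply mul_le_mul_of_nonneg_left (h3.trans h2) (by positivity)
  · set lam := Real.exp a - 1 with hlam
    have hea : 2.7182818283 ≤ Real.exp a :=
      Real.exp_one_gt_d9.le.trans (Real.exp_le_exp.mpr h1)
    have hlp : 0 < lam := by rw [hlam]; linarith
    have hdom : ∀ ζ, ‖θ ζ‖ ≤ Real.exp (-(lam * pot W ζ / (2 * A))) := by
      intro ζ
      apply dom hθ hApos (by norm_num : (0 : ℝ) < 3 / 4) (by norm_num) logt hlp.le hW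
      intro w hw z' hz'
      rw [g_comm] at hz'
      refine (le_S hθ hz').trans (S_le_of hθ h0 ?_)
      rw [hlam]
      have := Real.exp_le_exp.mpr (ha w hw)
      linarith
    have hS : S θ z ≤ Real.exp (-(3 * lam * pot W z / (32 * A))) := by
      apply S_le
      intro ζ hζ
      refine (hdom ζ).trans (Real.exp_le_exp.mpr ?_)
      have h2 := pot_near hζ W
      apply neg_le_neg
      rw [div_le_div_iff₀ (by positivity) (by positivity)]
      have h3 : 3 * lam * pot W z ≤ 3 * lam * (16 / 3 * pot W ζ) := by gcongr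
      nlinarith
    have h4 := exp_phi_ge hθ h0 hS
    have h5 : 3 * lam * pot W z / (32 * A) ≤ Real.exp (phi θ z) := by linarith
    rw [div_le_iff₀ (by positivity)] at h5
    rw [Real.exp_sub]
    have hea0 : 0 < Real.exp a := Real.exp_pos a
    have hez : 0 < Real.exp (phi θ z) := Real.exp_pos _
    have h6 : 32 / 3 * Real.exp a ≤ 20 * lam := by rw [hlam]; linarith
    rw [mul_div_assoc', le_div_iff₀ hea0]
    by_contra hcon
    push Not at hcon
    have hpot := pot_nonneg W z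
    have h7 : 20 * A * Real.exp (phi θ z) * (3 * lam) <
        pot W z * Real.exp a * (3 * lam) := by gcongr
    have h8 : 3 * lam * pot W z * Real.exp a ≤ Real.exp (phi θ z) * (32 * A) * Real.exp a := by
      gcongr
    have h9 : Real.exp (phi θ z) * A * (32 * Real.exp a) ≤
        Real.exp (phi θ z) * A * (60 * lam) := by
      apply mul_le_mul_of_nonneg_left _ (by positivity)
      linarith
    nlinarith

theorem phi_le {θ : ℍ → ℂ} (hθ : InU θ) {z ζ : ℍ} {s : ℝ} (hs : 0 ≤ s) (h : 3 / 4 ≤ g z ζ)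
    (h1 : Real.exp (-s) ≤ ‖θ ζ‖) : phi θ z ≤ Real.log (1 + s) := by
  rw [phi_eq]
  have h2 := h1.trans (le_S hθ h)
  have h3 : 0 < S θ z := (Real.exp_pos _).trans_le h2
  have h4 : Real.log (1 / S θ z) ≤ s := by
    rw [one_div, Real.log_inv]
    have := Real.log_le_log (Real.exp_pos _) h2
    rw [Real.log_exp] at this
    linarith
  apply Real.log_le_log
  · linarith [log_nonneg' hθ z]
  · linarith

theorem phi_exists {θ : ℍ → ℂ} (hθ : InU θ) (h0 : ∃ z, θ z ≠ 0) (z : ℍ) :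
    ∃ ζ, 3 / 4 ≤ g z ζ ∧ Real.exp (-Real.exp (phi θ z)) ≤ ‖θ ζ‖ := by
  by_contra hcon
  push Not at hcon
  have h1 : S θ z ≤ Real.exp (-Real.exp (phi θ z)) := S_le fun ζ hζ => (hcon ζ hζ).le
  have h2 := exp_phi_ge hθ h0 h1
  linarith

/-- the same with a smaller disc -/
theorem phi_exists' (t : ℝ) (ht : 3 / 4 ≤ t) (ht1 : t < 1) : ∃ C > 0, ∀ θ : ℍ → ℂ, InU θ →
    (∃ z, θ z ≠ 0) → ∀ z, ∃ ζ, t ≤ g z ζ ∧ Real.exp (-(C * Real.exp (phi θ z))) ≤ ‖θ ζ‖ := by
  have htp : 0 < t := by linarith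
  have hlog : Real.log (1 - t) < 0 := Real.log_neg (by linarith) (by linarith)
  set K := -Real.log (1 - t) / t with hK
  have hKp : 0 < K := div_pos (by linarith) htp
  have hKt : -Real.log (1 - t) ≤ K * t := by
    rw [hK, div_mul_cancel₀ _ htp.ne']
  refine ⟨2 * K, by positivity, ?_⟩
  intro θ hθ h0 z
  by_contra hcon
  push Not at hcon
  set lam := 2 * K * Real.exp (phi θ z) with hlam
  have hez : 0 < Real.exp (phi θ z) := Real.exp_pos _
  have hlp : 0 ≤ lam := by positivity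
  have hdom : ∀ ζ, ‖θ ζ‖ ≤ Real.exp (-(lam * pot {z} ζ / (K * 1))) := by
    intro ζ
    apply dom hθ one_pos htp ht1 hKt hlp
    · intro w; rw [pot_singleton]; exact g_le_one _ _
    · intro w hw ζ' hζ'
      rw [Multiset.mem_singleton] at hw
      rw [hw, g_comm] at hζ'
      exact (hcon ζ' hζ').le
  have hS : S θ z ≤ Real.exp (-(3 / 2 * Real.exp (phi θ z))) := by
    apply S_le
    intro ζ hζ
    refine (hdom ζ).trans (Real.exp_le_exp.mpr (neg_le_neg ?_))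
    rw [pot_singleton, g_comm, mul_one, le_div_iff₀ hKp]
    have : lam * (3 / 4) ≤ lam * g z ζ := by gcongr
    rw [hlam] at this ⊢
    nlinarith
  have h2 := exp_phi_ge hθ h0 hS
  linarith

end

end Pool.Agent.Helper65.HP
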