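import Pool.Agent.Helper65.HP.KerC

/-! Module ULT: ultralimits of bounded analytic functions. -/

set_option autoImplicit false

namespace Pool.Agent.Helper65.HP

open UpperHalfPlane Filter Topology

noncomputable section

namespace Ult

open Metric

theorem lip {f : ℂ → ℂ} {C R : ℝ} {x y : ℂ} (hR : 0 < R) (hf : DifferentiableOn ℂ f (ball x R))
    (hC : ∀ z ∈ ball x R, ‖f z‖ ≤ C) (hy : y ∈ ball x R) :
    ‖f y - f x‖ ≤ (2 * C + 1) / R * ‖y - x‖ := by
  have h1 := Complex.dist_le_div_mul_dist_of_mapsTo_ball (R₂ := 2 * C + 1) hf (by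
    intro z hz
    have h1 := hC z hz
    have h2 := hC x (mem_ball_self hR)
    rw [mem_closedBall, dist_eq_norm]
    calc ‖f z - f x‖ ≤ ‖f z‖ + ‖f x‖ := norm_sub_le _ _
      _ ≤ _ := by linarith) hy
  rwa [dist_eq_norm, dist_eq_norm] at h1

end Ult

/-- Montel: ultralimits exist and are analytic -/
theorem exists_UL {Fn : ℕ → ℍ → ℂ} {C : ℝ} (hF : ∀ n, An (Fn n)) (hC : ∀ n z, ‖Fn n z‖ ≤ C) :
    ∃ F, An F ∧ (∀ z, ‖F z‖ ≤ C) ∧ UL Fn F := by
  have hlim : ∀ z : ℍ, ∃ c : ℂ, ‖c‖ ≤ C ∧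
      Tendsto (fun n => Fn n z) (hyperfilter ℕ : Filter ℕ) (𝓝 c) := by
    intro z
    have h1 : IsCompact (Metric.closedBall (0 : ℂ) C) := isCompact_closedBall 0 C
    obtain ⟨c, hc, hc2⟩ := h1.ultrafilter_le_nhds ((hyperfilter ℕ).map fun n => Fn n z) (by
      rw [le_principal_iff, Ultrafilter.coe_map, mem_map]
      exact Filter.univ_mem' (fun n => by simpa using hC n z))
    exact ⟨c, by simpa using hc, hc2⟩
  choose F hFC hFl using hlim
  have hC0 : 0 ≤ C := (norm_nonneg _).trans (hC 0 I)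
  have him : IsOpen {z : ℂ | 0 < z.im} := isOpen_lt continuous_const Complex.continuous_im
  refine ⟨F, ?_, hFC, hFl⟩
  refine TendstoLocallyUniformlyOn.differentiableOn (φ := (hyperfilter ℕ : Filter ℕ))
    (F := fun n (z : ℂ) => Fn n (ofComplex z)) ?_ (Eventually.of_forall fun n => hF n) him
  rw [Metric.tendstoLocallyUniformlyOn_iff]
  intro ε hε x hx
  obtain ⟨R, hR, hRs⟩ := Metric.isOpen_iff.1 him x hx
  have hL : ∀ n, ∀ y ∈ Metric.ball x R,
      ‖Fn n (ofComplex y) - Fn n (ofComplex x)‖ ≤ (2 * C + 1) / R * ‖y - x‖ := by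
    intro n y hy
    exact Ult.lip (f := fun z => Fn n (ofComplex z)) hR ((hF n).mono hRs)
      (fun z _ => hC n _) hy
  have hLF : ∀ y ∈ Metric.ball x R,
      ‖F (ofComplex y) - F (ofComplex x)‖ ≤ (2 * C + 1) / R * ‖y - x‖ := by
    intro y hy
    have h1 := ((hFl (ofComplex y)).sub (hFl (ofComplex x))).norm
    exact le_of_tendsto h1 (Eventually.of_forall fun n => hL n y hy)
  set L : ℝ := (2 * C + 1) / R with hLdef
  have hL0 : 0 < L := by positivity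
  refine ⟨Metric.ball x (min R (ε / (3 * L))), ?_, ?_⟩
  · exact mem_nhdsWithin_of_mem_nhds (Metric.ball_mem_nhds x (lt_min hR (by positivity)))
  · have h1 := Metric.tendsto_nhds.1 (hFl (ofComplex x)) (ε / 3) (by positivity)
    filter_upwards [h1] with n hn y hy
    have hyR : y ∈ Metric.ball x R := Metric.ball_subset_ball (min_le_left _ _) hy
    have hyd : ‖y - x‖ < ε / (3 * L) := by
      rw [← dist_eq_norm]
      exact lt_of_lt_of_le hy (min_le_right _ _)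
    have h2 : L * ‖y - x‖ < ε / 3 := by
      rw [lt_div_iff₀ (by positivity)] at hyd
      rw [lt_div_iff₀ (by positivity)]
      linarith
    have h3 := hLF y hyR
    have h4 := hL n y hyR
    rw [dist_eq_norm] at hn ⊢
    have h5 : F (ofComplex y) - Fn n (ofComplex y) = (F (ofComplex y) - F (ofComplex x)) -
        (Fn n (ofComplex x) - F (ofComplex x)) - (Fn n (ofComplex y) - Fn n (ofComplex x)) := by
      ring
    rw [h5]
    refine lt_of_le_of_lt ((norm_sub_le _ _).trans (add_le_add_left (norm_sub_le _ _) _)) ?_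
    linarith

theorem exists_UL_InU {Fn : ℕ → ℍ → ℂ} (hF : ∀ n, InU (Fn n)) : ∃ F, InU F ∧ UL Fn F := by
  obtain ⟨F, h1, h2, h3⟩ := exists_UL (fun n => (hF n).1) (fun n z => (hF n).2 z)
  exact ⟨F, ⟨h1, h2⟩, h3⟩

theorem UL.unique {Fn : ℕ → ℍ → ℂ} {F G : ℍ → ℂ} (hF : UL Fn F) (hG : UL Fn G) : F = G :=
  funext fun z => tendsto_nhds_unique (hF z) (hG z)

theorem UL.mul {Fn Gn : ℕ → ℍ → ℂ} {F G : ℍ → ℂ} (hF : UL Fn F) (hG : UL Gn G) :
    UL (fun n z => Fn n z * Gn n z) (fun z => F z * G z) :=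
  fun z => (hF z).mul (hG z)

theorem UL.add {Fn Gn : ℕ → ℍ → ℂ} {F G : ℍ → ℂ} (hF : UL Fn F) (hG : UL Gn G) :
    UL (fun n z => Fn n z + Gn n z) (fun z => F z + G z) :=
  fun z => (hF z).add (hG z)

theorem UL.prod {ι : Type} (s : Finset ι) {Fn : ι → ℕ → ℍ → ℂ} {F : ι → ℍ → ℂ}
    (h : ∀ i ∈ s, UL (Fn i) (F i)) :
    UL (fun n z => ∏ i ∈ s, Fn i n z) (fun z => ∏ i ∈ s, F i z) :=
  fun z => tendsto_finsetProd s fun i hi => h i hi z

theorem UL.const (F : ℍ → ℂ) : UL (fun _ => F) F := fun _ => tendsto_const_nhds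

theorem UL.congr {Fn Gn : ℕ → ℍ → ℂ} {F : ℍ → ℂ} (hF : UL Fn F)
    (h : ∀ z, ∀ᶠ n in (hyperfilter ℕ : Filter ℕ), Fn n z = Gn n z) : UL Gn F :=
  fun z => (hF z).congr' (h z)

theorem UL.norm_le {Fn : ℕ → ℍ → ℂ} {F : ℍ → ℂ} (hF : UL Fn F) {z : ℍ} {c : ℝ}
    (h : ∀ᶠ n in (hyperfilter ℕ : Filter ℕ), ‖Fn n z‖ ≤ c) : ‖F z‖ ≤ c :=
  le_of_tendsto (hF z).norm h

theorem UL.le_norm {Fn : ℕ → ℍ → ℂ} {F : ℍ → ℂ} (hF : UL Fn F) {z : ℍ} {c : ℝ}
    (h : ∀ᶠ n in (hyperfilter ℕ : Filter ℕ), c ≤ ‖Fn n z‖) : c ≤ ‖F z‖ :=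
  ge_of_tendsto (hF z).norm h

/-- statements true for all large `n` are true for almost all `n` w.r.t. the ultrafilter -/
theorem ev_hyper {P : ℕ → Prop} (h : ∀ᶠ n in atTop, P n) :
    ∀ᶠ n in (hyperfilter ℕ : Filter ℕ), P n := by
  have : (hyperfilter ℕ : Filter ℕ) ≤ atTop := by
    rw [← Nat.cofinite_eq_atTop]; exact hyperfilter_le_cofinite
  exact this h

end

end Pool.Agent.Helper65.HP
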