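import Pool.Agent.Helper65.HP.Lay
import Pool.Agent.Helper65.HP.Ult
import Pool.Agent.Helper65.HP.JwI
import Pool.Agent.Helper65.HP.Phi

/-! Module ADM: layered functions, calculus of admissible functions. -/

set_option autoImplicit false

namespace Pool.Agent.Helper65.HP

open UpperHalfPlane Filter Topology

noncomputable section

theorem layered {φ : ℍ → ℝ} (h : Tame φ) {k0 : ℝ} (hk : 0 ≤ k0) : ∃ κ, InU κ ∧
    (∀ z, ‖κ z‖ ≤ Real.exp (-(φ z - k0 - 5) / 10)) ∧ ∀ z, φ z ≤ k0 - 34 → 1 / 2 ≤ ‖κ z‖ := by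
  obtain ⟨κ, hκ, hUL⟩ := exists_UL_InU
    (Fn := fun n => Bl (ms false n (lay φ false n k0))) (fun n => Bl_InU _)
  refine ⟨κ, hκ, fun z => ?_, fun z hz => ?_⟩
  · refine hUL.norm_le (ev_hyper ?_)
    filter_upwards [lay_ge h hk false z] with n hn
    have h1 := Bl_le (ms false n (lay φ false n k0)) z
    rw [pot_ms] at h1
    have h2 : ‖Bl (ms false n (lay φ false n k0)) z‖ ^ 2 ≤
        Real.exp (-(φ z - k0 - 5) / 10) ^ 2 := by
      refine h1.trans ?_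
      rw [← Real.exp_nat_mul]
      apply Real.exp_le_exp.mpr
      push_cast
      linarith
    exact (pow_le_pow_iff_left₀ (norm_nonneg _) (Real.exp_pos _).le (by norm_num)).mp h2
  · refine hUL.le_norm (Eventually.of_forall fun n => ?_)
    obtain ⟨h1, h2⟩ := lay_small h false n (k0 := k0) (z := z) hz
    have h3 : ∀ w ∈ ms false n (lay φ false n k0), g z w ≤ 3 / 4 := by
      intro w hw
      obtain ⟨J, hJ, hJ1, rfl⟩ := mem_ms hw
      exact h2 J hJ hJ1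
    have h4 := Bl_ge34 h3
    rw [pot_ms] at h4
    have h5 : (1 / 2 : ℝ) ^ 2 ≤ ‖Bl (ms false n (lay φ false n k0)) z‖ ^ 2 := by
      refine le_trans ?_ h4
      have h6 : -(2 * pf false n (lay φ false n k0) z) + 1 ≤
          Real.exp (-(2 * pf false n (lay φ false n k0) z)) := Real.add_one_le_exp _
      refine le_trans ?_ h6
      norm_num at h1 ⊢
      linarith
    exact (pow_le_pow_iff_left₀ (by norm_num) (norm_nonneg _) (by norm_num)).mp h5

/-- (3') -/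
theorem adm_small {I : Set (ℍ → ℂ)} (hI : CPI I) {G : ℍ → ℂ} (hG : InU G)
    (h : ∀ ε > 0, ∃ ψ, Adm I ψ ∧ ∃ k : ℝ, ∀ z, k < ψ z → ‖G z‖ ≤ ε) : G ∈ I := by
  refine mem_of_small hI (δ := c0) (Real.exp_pos _) hG 1 fun ε hε => ?_
  obtain ⟨ψ, hψ, k, hk⟩ := h ε hε
  obtain ⟨κ, hκ, hκ1, hκ2⟩ := hψ.2 k
  refine ⟨fun _ => κ, fun _ => ⟨hκ, hκ1⟩, fun z hz => hk z ?_⟩
  by_contra hc
  exact absurd (hκ2 z (not_lt.mp hc)) (not_le.mpr (hz 0))

theorem c0_le_half : c0 ≤ 1 / 2 := by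
  unfold c0
  have h1 : (1101 : ℝ) ≤ Real.exp 1100 := by
    have := Real.add_one_le_exp (1100 : ℝ)
    linarith
  rw [Real.exp_neg]
  rw [one_div]
  apply inv_anti₀ (by norm_num)
  linarith

theorem adm_min {I : Set (ℍ → ℂ)} (hI : CPI I) {φ ψ : ℍ → ℝ} (h1 : Adm I φ) (h2 : Adm I ψ) :
    Adm I fun z => min (φ z) (ψ z) := by
  refine ⟨h1.1.min h2.1, fun k => ?_⟩
  have hk0 : (0 : ℝ) ≤ max k 0 + 34 := by
    have := le_max_right k 0
    linarith
  obtain ⟨κ, hκ, hκ1, hκ2⟩ := layered (h1.1.min h2.1) hk0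
  refine ⟨κ, ?_, hκ, fun z hz => ?_⟩
  · refine mem_of_small hI (δ := c0) (Real.exp_pos _) hκ 2 fun ε hε => ?_
    set K : ℝ := (max k 0 + 34) + 5 + 10 * Real.log (1 / ε) with hK
    obtain ⟨κ1, m1, u1, b1⟩ := h1.2 K
    obtain ⟨κ2, m2, u2, b2⟩ := h2.2 K
    refine ⟨![κ1, κ2], fun j => ?_, fun z hz => ?_⟩
    · fin_cases j
      · exact ⟨m1, u1⟩
      · exact ⟨m2, u2⟩
    · have e1 : K < φ z := by
        by_contra hc
        exact absurd (b1 z (not_lt.mp hc)) (not_le.mpr (hz 0))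
      have e2 : K < ψ z := by
        by_contra hc
        exact absurd (b2 z (not_lt.mp hc)) (not_le.mpr (hz 1))
      have e3 : K < min (φ z) (ψ z) := lt_min e1 e2
      refine (hκ1 z).trans ?_
      have e4 : -(min (φ z) (ψ z) - (max k 0 + 34) - 5) / 10 ≤ Real.log ε := by
        rw [hK, one_div, Real.log_inv] at e3
        linarith
      calc Real.exp (-(min (φ z) (ψ z) - (max k 0 + 34) - 5) / 10)
          ≤ Real.exp (Real.log ε) := Real.exp_le_exp.mpr e4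
        _ = ε := Real.exp_log hε
  · refine c0_le_half.trans (hκ2 z ?_)
    have := le_max_left k 0
    have hz' : min (φ z) (ψ z) ≤ k := hz
    linarith

theorem adm_sub {I : Set (ℍ → ℂ)} {φ : ℍ → ℝ} (h : Adm I φ) (c : ℝ) :
    Adm I fun z => max (φ z - c) 0 := by
  refine ⟨h.1.sub c, fun k => ?_⟩
  obtain ⟨κ, m, u, b⟩ := h.2 (k + c)
  refine ⟨κ, m, u, fun z hz => b z ?_⟩
  have hz' : max (φ z - c) 0 ≤ k := hz
  have := le_max_left (φ z - c) 0
  linarith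

theorem adm_seq {I : Set (ℍ → ℂ)} (hI : CPI I) {ψ : ℕ → ℍ → ℝ} (h : ∀ N, Adm I (ψ N)) :
    Adm I fun z => ⨅ N : ℕ, (ψ N z + N) := by
  refine ⟨Tame.iInf fun N => (h N).1.add (Nat.cast_nonneg N), fun k => ?_⟩
  have key : ∀ m : ℕ, ∃ θ, Adm I θ ∧ ∀ z, ∀ N ≤ m, θ z ≤ ψ N z := by
    intro m
    induction m with
    | zero =>
      refine ⟨ψ 0, h 0, fun z N hN => ?_⟩
      rw [Nat.le_zero.mp hN]
    | succ m ih =>
      obtain ⟨θ, hθ, hθ1⟩ := ih
      refine ⟨fun z => min (θ z) (ψ (m + 1) z), adm_min hI hθ (h (m + 1)), fun z N hN => ?_⟩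
      rcases Nat.lt_or_ge m N with hlt | hge
      · have : N = m + 1 := by omega
        rw [this]
        exact min_le_right _ _
      · exact (min_le_left _ _).trans (hθ1 z N hge)
  obtain ⟨θ, hθ, hθ1⟩ := key ⌈k + 1⌉₊
  obtain ⟨κ, m, u, b⟩ := hθ.2 (k + 1)
  refine ⟨κ, m, u, fun z hz => b z ?_⟩
  have hz' : ⨅ N : ℕ, (ψ N z + N) ≤ k := hz
  obtain ⟨N, hN⟩ := exists_lt_of_ciInf_lt (lt_of_le_of_lt hz' (lt_add_one k))
  have hp : 0 ≤ ψ N z := (h N).1.1 z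
  have hN1 : (N : ℝ) ≤ k + 1 := by linarith
  have hN2 : N ≤ ⌈k + 1⌉₊ := by
    have := hN1.trans (Nat.le_ceil (k + 1))
    exact_mod_cast this
  have hN3 : (0 : ℝ) ≤ N := Nat.cast_nonneg N
  have := hθ1 z N hN2
  linarith

end

end Pool.Agent.Helper65.HP
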