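import Pool.Agent.Helper59.DG.HinB

/-! Module ALG: the algebra `H^∞ + C` on the circle. -/

set_option autoImplicit false

namespace Pool.Agent.Helper65.HP

open MeasureTheory Filter Topology Pool.Agent.Helper59.DGA

noncomputable section

/-- classes of functions on the circle modulo equality almost everywhere -/
abbrev Cls : Type := Filter.Germ (ae mC) ℂ

/-- the class of a function -/
def mk (f : Cir → ℂ) : Cls := (f : Filter.Germ (ae mC) ℂ)

/-- the set of all functions `h + c`, `h ∈ H^∞`, `c` continuous -/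
def hcSet : Set Cls := {F | ∃ h ∈ Hinf, ∃ c : C(Cir, ℂ), F = mk (fun t => h t + c t)}

namespace Alg

open AddCircle Metric HinA

theorem neg_Hinf {f : Cir → ℂ} (hf : f ∈ Hinf) : (fun t => -f t) ∈ Hinf := by
  have h := Hinf.mul (Hinf.const (-1)) hf
  convert h using 1
  funext t
  simp

theorem sub_Hinf {f g : Cir → ℂ} (hf : f ∈ Hinf) (hg : g ∈ Hinf) :
    (fun t => f t - g t) ∈ Hinf := by
  have h := Hinf.add hf (neg_Hinf hg)
  convert h using 1
  funext t
  simp [sub_eq_add_neg]

theorem add_Hinf {f g : Cir → ℂ} (hf : f ∈ Hinf) (hg : g ∈ Hinf) :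
    (fun t => f t + g t) ∈ Hinf := Hinf.add hf hg

theorem memLp_cont (c : C(Cir, ℂ)) : MemLp (fun t => c t) ⊤ mC := by
  refine memLp_top_of_bound c.continuous.aestronglyMeasurable ‖c‖ (Eventually.of_forall fun t => ?_)
  exact c.norm_coe_le_norm t

/-- uniform limits -/
theorem closed_Hinf {F : Cir → ℂ} (hF : MemLp F ⊤ mC)
    (h : ∀ ε > 0, ∃ g ∈ Hinf, ∀ᵐ t ∂mC, ‖F t - g t‖ ≤ ε) : F ∈ Hinf := by
  refine ⟨hF, fun n hn => ?_⟩
  have key : ∀ ε > 0, ‖fourierCoeff F n‖ ≤ ε := by
    intro ε hε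
    obtain ⟨g, hg, hgb⟩ := h ε hε
    have hFi : Integrable F mC := hF.integrable le_top
    have h1 : F = (fun t => F t - g t) + g := by funext t; simp
    have h2 : fourierCoeff F n = fourierCoeff (fun t => F t - g t) n := by
      have h0 := fourierCoeff.add (f := fun t => F t - g t) (g := g) (hFi.sub (Hinf.int hg))
        (Hinf.int hg)
      rw [← h1] at h0
      rw [h0, Pi.add_apply, hg.2 n hn, add_zero]
    rw [h2]
    refine (coeff_norm_le _ n).trans ?_
    have h3 : ∫ t, ‖F t - g t‖ ∂mC ≤ ∫ t : Cir, ε ∂mC :=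
      integral_mono_of_nonneg (Eventually.of_forall fun t => norm_nonneg _) (integrable_const _) hgb
    simpa using h3
  by_contra hne
  have hpos : 0 < ‖fourierCoeff F n‖ := norm_pos_iff.2 hne
  have := key (‖fourierCoeff F n‖ / 2) (by positivity)
  linarith

/-- dilations of bounded analytic functions -/
theorem dil_Hinf {h : Cir → ℂ} (hh : h ∈ Hinf) {C : ℝ} (hC : ∀ᵐ t ∂mC, ‖h t‖ ≤ C) {r : ℝ}
    (hr0 : 0 ≤ r) (hr1 : r < 1) :
    (fun t => ext h (r * e t)) ∈ Hinf ∧ Continuous (fun t => ext h (r * e t)) := by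
  have hrn : ‖(r : ℂ)‖ = r := by rw [Complex.norm_real, Real.norm_eq_abs, abs_of_nonneg hr0]
  have hcont : Continuous (fun t => ext h (r * e t)) := by
    refine (Hinf.analytic hh).continuousOn.comp_continuous
      (continuous_const.mul continuous_e) fun t => ?_
    rw [mem_ball_zero_iff, norm_mul, norm_e, mul_one, hrn]
    exact hr1
  refine ⟨?_, hcont⟩
  have hmaps : ∀ z : ℂ, ‖z‖ ≤ 1 → (r : ℂ) * z ∈ ball (0 : ℂ) 1 := by
    intro z hz
    rw [mem_ball_zero_iff, norm_mul, hrn]
    calc r * ‖z‖ ≤ r * 1 := mul_le_mul_of_nonneg_left hz hr0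
      _ < 1 := by rw [mul_one]; exact hr1
  have hFa : AnalyticOnNhd ℂ (fun z => ext h (r * z)) (ball 0 1) := by
    intro z hz
    have h1 : AnalyticAt ℂ (ext h) (r * z) :=
      Hinf.analytic hh _ (hmaps z (mem_ball_zero_iff.1 hz).le)
    exact h1.fun_comp (analyticAt_const.mul analyticAt_id)
  obtain ⟨f, hf, -, hfe⟩ := exists_Hinf hFa (C := C) (fun z hz =>
    ext_norm_le hC (mem_ball_zero_iff.1 (hmaps z (mem_ball_zero_iff.1 hz).le)))
  obtain ⟨s, hs, hs1, h1, -⟩ := exists_seq (Hinf.int hf) (Hinf.int hf)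
  have hae : f =ᵐ[mC] (fun t => ext h (r * e t)) := by
    filter_upwards [h1] with t ht
    have h2 : ∀ k, ext f (s k * e t) = ext h (r * (s k * e t)) := by
      intro k
      apply hfe
      rw [mem_ball_zero_iff, norm_mul, norm_e, mul_one, Complex.norm_real, Real.norm_eq_abs,
        abs_of_nonneg (hs k).1.le]
      exact (hs k).2
    have h3 : Tendsto (fun k => ext h (r * (s k * e t))) atTop (𝓝 (ext h (r * e t))) := by
      have h4 : ContinuousAt (ext h) (r * e t) :=
        (Hinf.analytic hh _ (hmaps _ (norm_e t).le)).continuousAt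
      refine h4.tendsto.comp ?_
      have h5 : Tendsto (fun k => ((s k : ℝ) : ℂ)) atTop (𝓝 1) := by
        have := (Complex.continuous_ofReal.tendsto 1).comp hs1
        simpa [Function.comp_def] using this
      have h6 := (h5.mul_const (e t)).const_mul (r : ℂ)
      simpa using h6
    simp only [h2] at ht
    exact tendsto_nhds_unique ht h3
  refine ⟨hf.1.ae_eq hae, fun n hn => ?_⟩
  rw [← fourierCoeff_congr_ae hae]
  exact hf.2 n hn

theorem ext_add_aux {f g : Cir → ℂ} (hf : Integrable f mC) (hg : Integrable g mC) {z : ℂ}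
    (hz : ‖z‖ < 1) : ext (fun t => f t + g t) z = ext f z + ext g z := KerB.ext_add' hf hg hz

/-- the Poisson means of continuous functions -/
def good : Submodule ℂ C(Cir, ℂ) where
  carrier := {c | ∀ ε > 0, ∀ᶠ r : ℝ in 𝓝[<] 1, ∀ t, ‖ext (fun s => c s) (r * e t) - c t‖ ≤ ε}
  add_mem' := by
    intro a b ha hb ε hε
    filter_upwards [KerB.ev_Ico, ha (ε / 2) (by positivity), hb (ε / 2) (by positivity)]
      with r hr h1 h2 t
    have h3 : ext (fun s => (a + b) s) (r * e t) =
        ext (fun s => a s) (r * e t) + ext (fun s => b s) (r * e t) := by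
      have := ext_add_aux (f := fun s => a s) (g := fun s => b s)
        ((memLp_cont a).integrable le_top) ((memLp_cont b).integrable le_top)
        (KerB.norm_re hr.1 hr.2 t)
      simpa using this
    rw [h3, ContinuousMap.add_apply]
    have h4 : ext (fun s => a s) (r * e t) + ext (fun s => b s) (r * e t) - (a t + b t) =
        (ext (fun s => a s) (r * e t) - a t) + (ext (fun s => b s) (r * e t) - b t) := by ring
    rw [h4]
    refine (norm_add_le _ _).trans ?_
    linarith [h1 t, h2 t]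
  zero_mem' := by
    intro ε hε
    refine Eventually.of_forall fun r t => ?_
    have : ext (fun s => (0 : C(Cir, ℂ)) s) (r * e t) = 0 := by
      unfold ext; simp
    rw [this]
    simpa using hε.le
  smul_mem' := by
    intro k a ha ε hε
    filter_upwards [ha (ε / (‖k‖ + 1)) (by positivity)] with r h1 t
    have h3 : ext (fun s => (k • a) s) (r * e t) = k * ext (fun s => a s) (r * e t) :=
      KerB.ext_smul' k (fun s => a s) _
    rw [h3, ContinuousMap.smul_apply, smul_eq_mul, ← mul_sub, norm_mul]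
    have h4 : ‖k‖ * (ε / (‖k‖ + 1)) ≤ ε := by
      rw [mul_div_assoc', div_le_iff₀ (by positivity)]
      nlinarith [norm_nonneg k]
    exact (mul_le_mul_of_nonneg_left (h1 t) (norm_nonneg k)).trans h4

theorem good_fourier (n : ℤ) : fourier n ∈ good := by
  intro ε hε
  have h1 : Tendsto (fun r : ℝ => 1 - r ^ n.natAbs) (𝓝[<] 1) (𝓝 0) := by
    have h2 : Continuous fun r : ℝ => 1 - r ^ n.natAbs := by fun_prop
    have h3 := (h2.tendsto 1).mono_left (nhdsWithin_le_nhds (s := Set.Iio 1))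
    simpa using h3
  filter_upwards [KerB.ev_Ico, h1.eventually (gt_mem_nhds hε)] with r hr h2 t
  rw [KerB.ext_fourier n hr.1 hr.2 t]
  have h3 : ((r : ℂ) ^ n.natAbs * fourier n t - fourier n t) = -(((1 - r ^ n.natAbs : ℝ) : ℂ) * fourier n t) := by
    push_cast
    ring
  rw [h3, norm_neg, norm_mul, Complex.norm_real, fourier_apply, Circle.norm_coe, mul_one,
    Real.norm_eq_abs, abs_of_nonneg]
  · exact h2.le
  · have := pow_le_one₀ (n := n.natAbs) hr.1 hr.2.le
    linarith

theorem good_top : good = ⊤ := by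
  have hcl : IsClosed (good : Set C(Cir, ℂ)) := by
    rw [← isSeqClosed_iff_isClosed]
    intro G c hG hc ε hε
    obtain ⟨k, hk⟩ := ((Metric.tendsto_atTop.1 hc) (ε / 3) (by positivity))
    have hk' : ‖G k - c‖ < ε / 3 := by rw [← dist_eq_norm]; exact hk k le_rfl
    filter_upwards [KerB.ev_Ico, hG k (ε / 3) (by positivity)] with r hr h3 t
    have hz := KerB.norm_re hr.1 hr.2 t
    have h4 : ext (fun s => c s) (r * e t) = ext (fun s => G k s) (r * e t) -
        ext (fun s => (G k - c) s) (r * e t) := by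
      have h5 := ext_add_aux (f := fun s => c s) (g := fun s => (G k - c) s)
        ((memLp_cont c).integrable le_top) ((memLp_cont (G k - c)).integrable le_top) hz
      have h6 : (fun t => c t + (G k - c) t) = fun t => G k t := by
        funext t; simp
      rw [h6] at h5
      rw [h5]; ring
    have h7 : ‖ext (fun s => (G k - c) s) (r * e t)‖ ≤ ‖G k - c‖ :=
      ext_norm_le (Eventually.of_forall fun s => (G k - c).norm_coe_le_norm s) hz
    have h8 : ‖G k t - c t‖ ≤ ‖G k - c‖ := (G k - c).norm_coe_le_norm t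
    have h9 : ext (fun s => c s) (r * e t) - c t = (ext (fun s => G k s) (r * e t) - G k t) -
        ext (fun s => (G k - c) s) (r * e t) + (G k t - c t) := by rw [h4]; ring
    rw [h9]
    have h10 := norm_add_le ((ext (fun s => G k s) (r * e t) - G k t) -
        ext (fun s => (G k - c) s) (r * e t)) (G k t - c t)
    have h11 := norm_sub_le (ext (fun s => G k s) (r * e t) - G k t)
        (ext (fun s => (G k - c) s) (r * e t))
    linarith [h3 t]
  have h1 : Submodule.span ℂ (Set.range (fourier (T := 1))) ≤ good := by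
    rw [Submodule.span_le]
    rintro _ ⟨n, rfl⟩
    exact good_fourier n
  have h2 : (Submodule.span ℂ (Set.range (fourier (T := 1)))).topologicalClosure ≤ good :=
    Submodule.topologicalClosure_minimal _ h1 hcl
  have h3 := span_fourier_closure_eq_top (T := 1)
  rw [h3] at h2
  exact top_le_iff.1 h2

/-- Sarason: the distance of a continuous function to `H^∞` -/
theorem dist_cont {h : Cir → ℂ} (hh : h ∈ Hinf) (c : C(Cir, ℂ)) {ε : ℝ} (hε : 0 < ε)
    (hb : ∀ᵐ t ∂mC, ‖h t + c t‖ ≤ ε) :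
    ∃ c' : C(Cir, ℂ), ‖c'‖ ≤ 2 * ε ∧ (fun t => c t - c' t) ∈ Hinf := by
  have hc : c ∈ good := by rw [good_top]; exact Submodule.mem_top
  obtain ⟨r, hr, h1⟩ := ((KerB.ev_Ico.and (hc ε hε))).exists
  have hbd : ∀ᵐ t ∂mC, ‖h t‖ ≤ ε + ‖c‖ := by
    filter_upwards [hb] with t ht
    have : h t = (h t + c t) - c t := by ring
    rw [this]
    exact (norm_sub_le _ _).trans (add_le_add ht (c.norm_coe_le_norm t))
  obtain ⟨hK, hKc⟩ := dil_Hinf hh hbd hr.1 hr.2
  set K : C(Cir, ℂ) := ⟨fun t => ext h (r * e t), hKc⟩ with hKd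
  have hKe : ∀ t, K t = ext h (r * e t) := fun _ => rfl
  refine ⟨c + K, ?_, ?_⟩
  · rw [ContinuousMap.norm_le _ (by positivity)]
    intro t
    rw [ContinuousMap.add_apply, hKe]
    have hz := KerB.norm_re hr.1 hr.2 t
    have h2 : ext (fun s => h s + c s) (r * e t) = ext h (r * e t) + ext (fun s => c s) (r * e t) :=
      ext_add_aux (Hinf.int hh) ((memLp_cont c).integrable le_top) hz
    have h3 : ‖ext (fun s => h s + c s) (r * e t)‖ ≤ ε := ext_norm_le hb hz
    have h4 : c t + ext h (r * e t) = ext (fun s => h s + c s) (r * e t) -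
        (ext (fun s => c s) (r * e t) - c t) := by rw [h2]; ring
    rw [h4]
    have h5 := norm_sub_le (ext (fun s => h s + c s) (r * e t)) (ext (fun s => c s) (r * e t) - c t)
    linarith [h1 t]
  · have h2 := neg_Hinf hK
    convert h2 using 1
    funext t
    rw [ContinuousMap.add_apply, hKe]
    ring

end Alg

open Alg in
/-- `H^∞ + C` is closed in `L^∞` -/
theorem hc_closed {f : Cir → ℂ} (hf : MemLp f ⊤ mC)
    (h : ∀ ε > 0, ∃ h ∈ Hinf, ∃ c : C(Cir, ℂ), ∀ᵐ t ∂mC, ‖f t - (h t + c t)‖ ≤ ε) :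
    mk f ∈ hcSet := by
  have hpos : ∀ k : ℕ, (0 : ℝ) < (1 / 2) ^ k := fun k => by positivity
  choose hk hk1 ck hk2 using fun k : ℕ => h ((1 / 2) ^ k) (hpos k)
  have hd : ∀ k : ℕ, ∃ c' : C(Cir, ℂ), ‖c'‖ ≤ 4 * (1 / 2) ^ k ∧
      (fun t => (ck (k + 1) - ck k) t - c' t) ∈ Hinf := by
    intro k
    have h1 : (fun t => hk (k + 1) t - hk k t) ∈ Hinf := sub_Hinf (hk1 _) (hk1 _)
    obtain ⟨c', h2, h3⟩ := dist_cont h1 (ck (k + 1) - ck k) (ε := 2 * (1 / 2) ^ k) (by positivity)
      (by
        filter_upwards [hk2 k, hk2 (k + 1)] with t h4 h5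
        rw [ContinuousMap.sub_apply]
        have h6 : hk (k + 1) t - hk k t + (ck (k + 1) t - ck k t) =
            (f t - (hk k t + ck k t)) - (f t - (hk (k + 1) t + ck (k + 1) t)) := by ring
        rw [h6]
        have h7 := norm_sub_le (f t - (hk k t + ck k t)) (f t - (hk (k + 1) t + ck (k + 1) t))
        have h8 : ((1 : ℝ) / 2) ^ (k + 1) ≤ (1 / 2) ^ k := by
          rw [pow_succ]; linarith [hpos k]
        linarith)
    exact ⟨c', by linarith, h3⟩
  choose c' hc1 hc2 using hd
  have hsum : Summable c' := by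
    refine Summable.of_norm_bounded ((summable_geometric_of_lt_one (by norm_num)
      (by norm_num : (1 / 2 : ℝ) < 1)).mul_left 4) hc1
  set C : C(Cir, ℂ) := ck 0 + ∑' k, c' k with hC
  have hlim : Tendsto (fun n => ck 0 + ∑ k ∈ Finset.range n, c' k) atTop (𝓝 C) :=
    (hsum.hasSum.tendsto_sum_nat).const_add _
  have hpart : ∀ n : ℕ, (fun t => ck n t - (ck 0 + ∑ k ∈ Finset.range n, c' k) t) ∈ Hinf := by
    intro n
    induction n with
    | zero =>
      have := Hinf.const 0
      convert this using 1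
      funext t
      simp
    | succ n ih =>
      have := add_Hinf ih (hc2 n)
      convert this using 1
      funext t
      rw [Finset.sum_range_succ]
      simp only [ContinuousMap.add_apply, ContinuousMap.sub_apply]
      ring
  have hH : (fun t => f t - C t) ∈ Hinf := by
    refine closed_Hinf (hf.sub (memLp_cont C)) fun ε hε => ?_
    have h1 := (Metric.tendsto_atTop.1 hlim) (ε / 2) (by positivity)
    obtain ⟨N1, hN1⟩ := h1
    obtain ⟨N2, hN2⟩ := exists_pow_lt_of_lt_one (show (0 : ℝ) < ε / 2 by positivity)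
      (by norm_num : (1 / 2 : ℝ) < 1)
    set n := max N1 N2 with hn
    have h3 : ((1 : ℝ) / 2) ^ n ≤ ε / 2 :=
      (pow_le_pow_of_le_one (by norm_num) (by norm_num) (le_max_right _ _)).trans hN2.le
    have h4 := hN1 n (le_max_left _ _)
    rw [dist_eq_norm] at h4
    refine ⟨_, add_Hinf (hk1 n) (hpart n), ?_⟩
    filter_upwards [hk2 n] with t ht
    have h5 := ((ck 0 + ∑ k ∈ Finset.range n, c' k) - C).norm_coe_le_norm t
    rw [ContinuousMap.sub_apply] at h5
    have h6 : f t - C t - (hk n t + (ck n t - (ck 0 + ∑ k ∈ Finset.range n, c' k) t)) =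
        (f t - (hk n t + ck n t)) + ((ck 0 + ∑ k ∈ Finset.range n, c' k) t - C t) := by ring
    rw [h6]
    have h7 := norm_add_le (f t - (hk n t + ck n t)) ((ck 0 + ∑ k ∈ Finset.range n, c' k) t - C t)
    linarith
  refine ⟨_, hH, C, ?_⟩
  congr 1
  funext t
  ring

namespace Alg

open AddCircle Metric HinA

/-- the continuous functions `p` with `H^∞ p ⊆ H^∞ + C` -/
def mult : Submodule ℂ C(Cir, ℂ) where
  carrier := {p | ∀ h ∈ Hinf, ∃ g ∈ Hinf, ∃ c : C(Cir, ℂ), ∀ t, h t * p t = g t + c t}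
  add_mem' := by
    intro a b ha hb h hh
    obtain ⟨g1, h1, c1, e1⟩ := ha h hh
    obtain ⟨g2, h2, c2, e2⟩ := hb h hh
    refine ⟨_, add_Hinf h1 h2, c1 + c2, fun t => ?_⟩
    rw [ContinuousMap.add_apply, ContinuousMap.add_apply, mul_add, e1, e2]
    ring
  zero_mem' := by
    intro h hh
    exact ⟨_, Hinf.const 0, 0, fun t => by simp⟩
  smul_mem' := by
    intro k a ha h hh
    obtain ⟨g1, h1, c1, e1⟩ := ha h hh
    refine ⟨_, Hinf.mul (Hinf.const k) h1, k • c1, fun t => ?_⟩
    rw [ContinuousMap.smul_apply, ContinuousMap.smul_apply, smul_eq_mul, smul_eq_mul, Pi.mul_apply,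
      mul_left_comm, e1]
    ring

theorem fourier_nat_Hinf (k : ℕ) : (fun t : Cir => (fourier (k : ℤ) t : ℂ)) ∈ Hinf := by
  refine ⟨memLp_cont (fourier (k : ℤ)), fun n hn => ?_⟩
  have h := congrFun (fourierCoeff_fourier (T := (1 : ℝ)) (k : ℤ)) n
  rw [h, Pi.single_apply, if_neg (by omega)]

/-- division by the first character -/
theorem div_Hinf {h : Cir → ℂ} (hh : h ∈ Hinf) :
    (fun t => (h t - fourierCoeff h 0) * fourier (-1) t) ∈ Hinf := by
  have h1 : (fun t => h t - fourierCoeff h 0) ∈ Hinf := sub_Hinf hh (Hinf.const _)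
  refine ⟨(memLp_cont (fourier (-1))).mul h1.1, fun n hn => ?_⟩
  have h2 : fourierCoeff (fun t => (h t - fourierCoeff h 0) * fourier (-1) t) n =
      fourierCoeff (fun t => h t - fourierCoeff h 0) (n + 1) := by
    rw [fourierCoeff, fourierCoeff]
    refine integral_congr_ae (Eventually.of_forall fun t => ?_)
    simp only [smul_eq_mul]
    rw [show -(n + 1) = -n + (-1) by ring, fourier_add]
    ring
  rw [h2]
  rcases lt_or_eq_of_le (show n + 1 ≤ 0 by omega) with h3 | h3
  · exact h1.2 _ h3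
  · rw [h3]
    have h4 : (fun t => h t - fourierCoeff h 0) = h + (fun _ => -fourierCoeff h 0 * 1) := by
      funext t; simp [sub_eq_add_neg]
    rw [h4, fourierCoeff.add (Hinf.int hh) (integrable_const _), Pi.add_apply,
      fourierCoeff.const_mul, fourierCoeff_one]
    simp

theorem mult_fourier (n : ℤ) : fourier n ∈ mult := by
  obtain ⟨m, rfl | rfl⟩ := n.eq_nat_or_neg
  · intro h hh
    refine ⟨_, Hinf.mul hh (fourier_nat_Hinf m), 0, fun t => ?_⟩
    simp
  · induction m with
    | zero =>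
      intro h hh
      exact ⟨h, hh, 0, fun t => by simp⟩
    | succ m ih =>
      intro h hh
      obtain ⟨g, hg, c, hgc⟩ := ih h hh
      refine ⟨_, div_Hinf hg, (ContinuousMap.const _ (fourierCoeff g 0) + c) * fourier (-1),
        fun t => ?_⟩
      have h0 : -((m + 1 : ℕ) : ℤ) = -(m : ℤ) + (-1) := by push_cast; ring
      have h1 : (fourier (-((m + 1 : ℕ) : ℤ)) t : ℂ) = fourier (-(m : ℤ)) t * fourier (-1) t := by
        rw [h0, fourier_add]
      rw [h1, ← mul_assoc, hgc]
      simp only [ContinuousMap.mul_apply, ContinuousMap.add_apply, ContinuousMap.const_apply]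
      ring

end Alg

open Alg in
/-- `H^∞ + C` is closed under products -/
theorem hc_mul {h : Cir → ℂ} (hh : h ∈ Hinf) (c : C(Cir, ℂ)) :
    mk (fun t => h t * c t) ∈ hcSet := by
  refine hc_closed ((memLp_cont c).mul hh.1) fun ε hε => ?_
  obtain ⟨M, hM⟩ : ∃ M : ℝ, ∀ᵐ t ∂mC, ‖h t‖ ≤ M := by
    have h1 := hh.1.2
    refine ⟨(eLpNorm h ⊤ mC).toReal, ?_⟩
    have h2 := ae_le_eLpNormEssSup (f := h) (μ := mC)
    filter_upwards [h2] with t ht
    rw [← eLpNorm_exponent_top] at ht
    have h3 := ENNReal.toReal_mono h1.ne ht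
    simpa using h3
  have hc : c ∈ (Submodule.span ℂ (Set.range (fourier (T := 1)))).topologicalClosure := by
    rw [_root_.span_fourier_closure_eq_top (T := 1)]; exact Submodule.mem_top
  have hsp : Submodule.span ℂ (Set.range (fourier (T := 1))) ≤ mult := by
    rw [Submodule.span_le]
    rintro _ ⟨n, rfl⟩
    exact mult_fourier n
  have hδ : 0 < ε / (|M| + 1) := by positivity
  obtain ⟨p, hp, hpc⟩ := Metric.mem_closure_iff.1 (show c ∈ closure
    ((Submodule.span ℂ (Set.range (fourier (T := 1))) : Submodule ℂ C(Cir, ℂ)) : Set C(Cir, ℂ))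
    from hc) _ hδ
  obtain ⟨g, hg, c1, e1⟩ := hsp hp h hh
  refine ⟨g, hg, c1, ?_⟩
  filter_upwards [hM] with t ht
  rw [← e1 t, ← mul_sub, norm_mul]
  have h2 : ‖c t - p t‖ ≤ ε / (|M| + 1) := by
    have h3 := (c - p).norm_coe_le_norm t
    rw [← dist_eq_norm] at h3
    exact h3.trans hpc.le
  have h4 : ‖h t‖ ≤ |M| + 1 := by linarith [le_abs_self M]
  calc ‖h t‖ * ‖c t - p t‖ ≤ (|M| + 1) * (ε / (|M| + 1)) :=
        mul_le_mul h4 h2 (norm_nonneg _) (by positivity)
    _ = ε := by field_simp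

namespace Alg

theorem mk_add (f g : Cir → ℂ) : mk f + mk g = mk (fun t => f t + g t) := rfl

theorem mk_mul (f g : Cir → ℂ) : mk f * mk g = mk (fun t => f t * g t) := rfl

theorem mk_neg (f : Cir → ℂ) : -mk f = mk (fun t => -f t) := rfl

theorem hc_add {F G : Cls} (hF : F ∈ hcSet) (hG : G ∈ hcSet) : F + G ∈ hcSet := by
  obtain ⟨h1, hh1, c1, rfl⟩ := hF
  obtain ⟨h2, hh2, c2, rfl⟩ := hG
  refine ⟨_, add_Hinf hh1 hh2, c1 + c2, ?_⟩
  rw [mk_add]
  congr 1
  funext t
  rw [ContinuousMap.add_apply]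
  ring

theorem hc_H {h : Cir → ℂ} (hh : h ∈ Hinf) : mk h ∈ hcSet := by
  refine ⟨h, hh, 0, ?_⟩
  congr 1; funext t; simp

theorem hc_C (c : C(Cir, ℂ)) : mk (fun t => c t) ∈ hcSet := by
  refine ⟨_, Hinf.const 0, c, ?_⟩
  congr 1; funext t; simp

end Alg

/-- the ring `H^∞ + C` -/
def HC : Subring Cls where
  carrier := hcSet
  mul_mem' := by
    rintro F G ⟨h1, hh1, c1, rfl⟩ ⟨h2, hh2, c2, rfl⟩
    have e1 : mk (fun t => h1 t + c1 t) * mk (fun t => h2 t + c2 t) =
        (mk (h1 * h2) + mk (fun t => (c1 * c2) t)) +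
          (mk (fun t => h1 t * c2 t) + mk (fun t => h2 t * c1 t)) := by
      rw [Alg.mk_mul, Alg.mk_add, Alg.mk_add, Alg.mk_add]
      congr 1
      funext t
      simp only [Pi.mul_apply, ContinuousMap.mul_apply]
      ring
    rw [e1]
    exact Alg.hc_add (Alg.hc_add (Alg.hc_H (Hinf.mul hh1 hh2)) (Alg.hc_C _))
      (Alg.hc_add (hc_mul hh1 c2) (hc_mul hh2 c1))
  one_mem' := by
    have h := Alg.hc_H (Hinf.const 1)
    exact h
  add_mem' := fun hF hG => Alg.hc_add hF hG
  zero_mem' := by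
    have h := Alg.hc_H (Hinf.const 0)
    exact h
  neg_mem' := by
    rintro F ⟨h1, hh1, c1, rfl⟩
    refine ⟨_, Alg.neg_Hinf hh1, -c1, ?_⟩
    rw [Alg.mk_neg]
    congr 1
    funext t
    rw [ContinuousMap.neg_apply]
    ring

/-- bounded analytic functions as elements of the ring -/
def ofH (h : Cir → ℂ) (hh : h ∈ Hinf) : HC :=
  ⟨mk h, h, hh, 0, by congr 1; funext t; simp⟩

/-- continuous functions as elements of the ring -/
def ofC (c : C(Cir, ℂ)) : HC :=
  ⟨mk c, fun _ => 0, Hinf.const 0, c, by congr 1; funext t; simp⟩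

/-- constants -/
def cst (c : ℂ) : HC := ofC (ContinuousMap.const _ c)

/-- norm-closed ideals -/
def IsClosedIdeal (I : Ideal HC) : Prop :=
  ∀ F : HC, (∀ ε > 0, ∃ G ∈ I, ((F : Cls) - (G : Cls)).LiftPred fun w => ‖w‖ ≤ ε) → F ∈ I

/-- the maximal ideal space: the multiplicative linear functionals `x ≠ 0` -/
def MS : Set (HC →+* ℂ) := {x | ∀ c : ℂ, x (cst c) = c}

/-- the hull of an ideal -/
def hull (I : Ideal HC) : Set (HC →+* ℂ) := {x | x ∈ MS ∧ ∀ F ∈ I, x F = 0}

/-- relatively open subsets in the Gelfand topology -/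
def RelOpen (E U : Set (HC →+* ℂ)) : Prop :=
  ∃ V : Set (HC → ℂ), IsOpen V ∧ U = {x | x ∈ E ∧ (fun F => x F) ∈ V}

/-- `t`-analytic sets -/
def TAnalytic (E : Set (HC →+* ℂ)) : Prop :=
  ∀ (F : HC) (U : Set (HC →+* ℂ)), RelOpen E U → U.Nonempty → (∀ x ∈ U, x F = 0) →
    ∀ x ∈ E, x F = 0

end

end Pool.Agent.Helper65.HP
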