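import Mathlib

/-! Module BAL: balanced labelling of weighted points of the line. -/

set_option autoImplicit false

namespace Pool.Agent.Helper65.HP

noncomputable section

namespace BalA

theorem exists_pos {ι : Type} (s : Finset ι) (x : ι → ℝ) : ∃ pos : ι → ℕ,
    (∀ i ∈ s, ∀ j ∈ s, pos i = pos j → i = j) ∧
    ∀ i ∈ s, ∀ j ∈ s, pos i < pos j → x i ≤ x j := by
  classical
  refine Finset.induction_on_max_value x s ⟨fun _ => 0, by simp, by simp⟩ ?_
  rintro a s ha hmax ⟨pos, h1, h2⟩
  have hlt : ∀ i ∈ s, pos i < s.sup pos + 1 := fun i hi =>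
    Nat.lt_succ_of_le (Finset.le_sup hi)
  have hne : ∀ i ∈ s, i ≠ a := fun i hi h => ha (h ▸ hi)
  refine ⟨Function.update pos a (s.sup pos + 1), ?_, ?_⟩
  · intro i hi j hj hij
    rw [Finset.mem_insert] at hi hj
    rcases hi with hi | hi
    · rcases hj with hj | hj
      · rw [hi, hj]
      · rw [hi, Function.update_self, Function.update_of_ne (hne j hj)] at hij
        have := hlt j hj
        omega
    · rcases hj with hj | hj
      · rw [hj, Function.update_self, Function.update_of_ne (hne i hi)] at hij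
        have := hlt i hi
        omega
      · rw [Function.update_of_ne (hne i hi), Function.update_of_ne (hne j hj)] at hij
        exact h1 i hi j hj hij
  · intro i hi j hj hij
    rw [Finset.mem_insert] at hi hj
    rcases hi with hi | hi
    · rcases hj with hj | hj
      · rw [hi, hj]
      · rw [hi, Function.update_self, Function.update_of_ne (hne j hj)] at hij
        have := hlt j hj
        omega
    · rcases hj with hj | hj
      · rw [hj]
        exact hmax i hi
      · rw [Function.update_of_ne (hne i hi), Function.update_of_ne (hne j hj)] at hij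
        exact h2 i hi j hj hij

end BalA

theorem balance {ι : Type} (s : Finset ι) (x a : ι → ℝ) (A : ℝ) (N : ℕ) (hN : 0 < N)
    (hA : 0 < A) (ha : ∀ i ∈ s, 0 ≤ a i ∧ a i ≤ A) : ∃ l : ι → ℕ, (∀ i, l i < N) ∧
    ∀ (v : ℕ) (lo hi : ℝ), ∑ i ∈ s.filter (fun i => l i = v ∧ lo ≤ x i ∧ x i ≤ hi), a i ≤
      2 / N * ∑ i ∈ s.filter (fun i => lo ≤ x i ∧ x i ≤ hi), a i + 6 * A := by
  classical
  obtain ⟨pos, hinj, hmono⟩ := BalA.exists_pos s x
  let S : ℕ → ℝ := fun t => ∑ j ∈ s.filter (fun j => pos j < t), a j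
  have hS0 : ∀ t, 0 ≤ S t := fun t =>
    Finset.sum_nonneg (fun j hj => (ha j (Finset.mem_filter.1 hj).1).1)
  have hsucc : ∀ i ∈ s, S (pos i + 1) = S (pos i) + a i := by
    intro i hi
    have h1 : s.filter (fun j => pos j < pos i + 1) =
        insert i (s.filter (fun j => pos j < pos i)) := by
      ext j
      rw [Finset.mem_filter, Finset.mem_insert, Finset.mem_filter]
      constructor
      · rintro ⟨h1, h2⟩
        rcases Nat.lt_succ_iff_lt_or_eq.1 h2 with h3 | h3
        · exact Or.inr ⟨h1, h3⟩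
        · exact Or.inl (hinj j h1 i hi h3)
      · rintro (rfl | ⟨h1, h2⟩)
        · exact ⟨hi, Nat.lt_succ_self _⟩
        · exact ⟨h1, by omega⟩
    show ∑ j ∈ s.filter (fun j => pos j < pos i + 1), a j = _
    rw [h1, Finset.sum_insert (by simp)]
    ring
  have hsub : ∀ (T : Finset ι) (t1 t2 : ℕ), T ⊆ s → t1 ≤ t2 → (∀ j ∈ T, t1 ≤ pos j ∧ pos j < t2) →
      ∑ j ∈ T, a j + S t1 ≤ S t2 := by
    intro T t1 t2 hT ht h
    have hdis : Disjoint T (s.filter (fun j => pos j < t1)) := by
      rw [Finset.disjoint_left]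
      intro j hj hj'
      have h1 := (h j hj).1
      have h2 := (Finset.mem_filter.1 hj').2
      omega
    show ∑ j ∈ T, a j + ∑ j ∈ s.filter (fun j => pos j < t1), a j ≤
      ∑ j ∈ s.filter (fun j => pos j < t2), a j
    rw [← Finset.sum_union hdis]
    apply Finset.sum_le_sum_of_subset_of_nonneg
    · intro j hj
      rw [Finset.mem_filter]
      rcases Finset.mem_union.1 hj with h1 | h1
      · exact ⟨hT h1, (h j h1).2⟩
      · rw [Finset.mem_filter] at h1
        exact ⟨h1.1, by omega⟩
    · intro j hj _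
      exact (ha j (Finset.mem_filter.1 hj).1).1
  have hsup : ∀ (T : Finset ι) (t1 t2 : ℕ), T ⊆ s → (∀ j ∈ s, t1 ≤ pos j → pos j < t2 → j ∈ T) →
      S t2 ≤ ∑ j ∈ T, a j + S t1 := by
    intro T t1 t2 hT h
    calc S t2 ≤ ∑ j ∈ T ∪ s.filter (fun j => pos j < t1), a j := by
          apply Finset.sum_le_sum_of_subset_of_nonneg
          · intro j hj
            rw [Finset.mem_filter] at hj
            rw [Finset.mem_union]
            by_cases h1 : t1 ≤ pos j
            · exact Or.inl (h j hj.1 h1 hj.2)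
            · exact Or.inr (Finset.mem_filter.2 ⟨hj.1, by omega⟩)
          · intro j hj _
            rcases Finset.mem_union.1 hj with h1 | h1
            · exact (ha j (hT h1)).1
            · exact (ha j (Finset.mem_filter.1 h1).1).1
      _ ≤ ∑ j ∈ T, a j + ∑ j ∈ s.filter (fun j => pos j < t1), a j := by
          rw [← Finset.sum_union_inter]
          have : 0 ≤ ∑ j ∈ T ∩ s.filter (fun j => pos j < t1), a j :=
            Finset.sum_nonneg (fun j hj => (ha j (hT (Finset.mem_inter.1 hj).1)).1)
          linarith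
  let β : ι → ℕ := fun j => ⌊S (pos j) / A⌋₊
  have hβ1 : ∀ j, (β j : ℝ) * A ≤ S (pos j) := by
    intro j
    have := Nat.floor_le (div_nonneg (hS0 (pos j)) hA.le)
    rwa [le_div_iff₀ hA] at this
  have hβ2 : ∀ j, S (pos j) < ((β j : ℝ) + 1) * A := by
    intro j
    have := Nat.lt_floor_add_one (S (pos j) / A)
    rwa [div_lt_iff₀ hA] at this
  refine ⟨fun i => β i % N, fun i => Nat.mod_lt _ hN, ?_⟩
  intro v lo hi
  -- one bin
  have hbin : ∀ (T : Finset ι) (b : ℕ), T ⊆ s → (∀ j ∈ T, β j = b) → ∑ j ∈ T, a j ≤ 2 * A := by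
    intro T b hT hb
    rcases T.eq_empty_or_nonempty with rfl | hne
    · simp
      exact hA.le
    obtain ⟨i0, hi0, hmin⟩ := Finset.exists_min_image T pos hne
    obtain ⟨i1, hi1, hmax⟩ := Finset.exists_max_image T pos hne
    have h1 := hsub T (pos i0) (pos i1 + 1) hT (by have := hmin i1 hi1; omega) (fun j hj =>
      ⟨hmin j hj, Nat.lt_succ_of_le (hmax j hj)⟩)
    rw [hsucc i1 (hT hi1)] at h1
    have h2 := hβ1 i0
    have h3 := hβ2 i1
    rw [hb i0 hi0] at h2
    rw [hb i1 hi1] at h3
    have h4 := (ha i1 (hT hi1)).2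
    nlinarith
  let T : Finset ι := s.filter (fun i => lo ≤ x i ∧ x i ≤ hi)
  let TL : Finset ι := s.filter (fun i => β i % N = v ∧ lo ≤ x i ∧ x i ≤ hi)
  have hTs : T ⊆ s := Finset.filter_subset _ _
  have hTLs : TL ⊆ s := Finset.filter_subset _ _
  have hTLT : TL ⊆ T := by
    intro j hj
    rw [Finset.mem_filter] at hj ⊢
    exact ⟨hj.1, hj.2.2⟩
  have hW0 : 0 ≤ ∑ i ∈ T, a i := Finset.sum_nonneg (fun j hj => (ha j (hTs hj)).1)
  have hN' : (0 : ℝ) < N := by exact_mod_cast hN
  have hN1 : (1 : ℝ) ≤ N := by exact_mod_cast hN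
  show ∑ i ∈ TL, a i ≤ 2 / N * ∑ i ∈ T, a i + 6 * A
  rcases T.eq_empty_or_nonempty with hTe | hne
  · have : TL = ∅ := Finset.subset_empty.1 (hTe ▸ hTLT)
    rw [this, hTe]
    simp
    exact hA.le
  obtain ⟨p, hp, hmin⟩ := Finset.exists_min_image T pos hne
  obtain ⟨q, hq, hmax⟩ := Finset.exists_max_image T pos hne
  have hps := Finset.mem_filter.1 hp
  have hqs := Finset.mem_filter.1 hq
  have hW : S (pos q) ≤ ∑ j ∈ T, a j + S (pos p) := by
    apply hsup T _ _ hTs
    intro j hj h1 h2
    refine Finset.mem_filter.2 ⟨hj, ?_, ?_⟩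
    · rcases Nat.eq_or_lt_of_le h1 with h3 | h3
      · rw [← hinj p hps.1 j hj h3]
        exact hps.2.1
      · exact hps.2.1.trans (hmono p hps.1 j hj h3)
    · exact (hmono j hj q hqs.1 h2).trans hqs.2.2
  have hcard : (TL.image β).card ≤ β q / N - β p / N + 1 := by
    have hle : β p / N ≤ β q / N := by
      apply Nat.div_le_div_right
      apply Nat.floor_mono
      apply div_le_div_of_nonneg_right _ hA.le
      have := hsub ∅ (pos p) (pos q) (by simp) (hmin q hq) (by simp)
      simpa using this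
    have hmonoS : ∀ i ∈ s, ∀ j ∈ s, pos i ≤ pos j → β i ≤ β j := by
      intro i _ j _ h
      apply Nat.floor_mono
      apply div_le_div_of_nonneg_right _ hA.le
      have := hsub ∅ (pos i) (pos j) (by simp) h (by simp)
      simpa using this
    have h1 : (TL.image β).card ≤ (Finset.Icc (β p / N) (β q / N)).card := by
      apply Finset.card_le_card_of_injOn (fun b => b / N)
      · intro b hb
        rw [Finset.mem_coe, Finset.mem_image] at hb
        obtain ⟨j, hj, rfl⟩ := hb
        rw [Finset.mem_coe, Finset.mem_Icc]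
        exact ⟨Nat.div_le_div_right (hmonoS p hps.1 j (hTLs hj) (hmin j (hTLT hj))),
          Nat.div_le_div_right (hmonoS j (hTLs hj) q hqs.1 (hmax j (hTLT hj)))⟩
      · intro b hb c hc hbc
        rw [Finset.mem_coe, Finset.mem_image] at hb hc
        obtain ⟨j, hj, rfl⟩ := hb
        obtain ⟨k, hk, rfl⟩ := hc
        have h2 := (Finset.mem_filter.1 hj).2.1
        have h3 := (Finset.mem_filter.1 hk).2.1
        have h4 : β j / N = β k / N := hbc
        rw [← Nat.div_add_mod (β j) N, ← Nat.div_add_mod (β k) N, h2, h3, h4]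
    rw [Nat.card_Icc] at h1
    omega
  have hcard' : ((TL.image β).card : ℝ) ≤ ((∑ j ∈ T, a j) / A + 1) / N + 2 := by
    have h1 : ((TL.image β).card : ℝ) ≤ ((β q / N : ℕ) : ℝ) - ((β p / N : ℕ) : ℝ) + 1 := by
      have hle : β p / N ≤ β q / N := by
        apply Nat.div_le_div_right
        apply Nat.floor_mono
        apply div_le_div_of_nonneg_right _ hA.le
        have := hsub ∅ (pos p) (pos q) (by simp) (hmin q hq) (by simp)
        simpa using this
      have h2 : ((TL.image β).card : ℝ) ≤ ((β q / N - β p / N + 1 : ℕ) : ℝ) := by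
        exact_mod_cast hcard
      rw [Nat.cast_add, Nat.cast_sub hle, Nat.cast_one] at h2
      exact h2
    have h2 : ((β q / N : ℕ) : ℝ) ≤ (β q : ℝ) / N := Nat.cast_div_le
    have h3 : (β p : ℝ) / N ≤ ((β p / N : ℕ) : ℝ) + 1 := by
      rw [div_le_iff₀ hN']
      have h4 : β p < (β p / N + 1) * N := by
        have := Nat.div_add_mod (β p) N
        have h5 := Nat.mod_lt (β p) hN
        nlinarith
      have h5 : ((β p : ℕ) : ℝ) < (((β p / N + 1) * N : ℕ) : ℝ) := by exact_mod_cast h4
      push_cast at h5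
      exact h5.le
    have h4 : (β q : ℝ) ≤ S (pos q) / A := by
      rw [le_div_iff₀ hA]
      exact hβ1 q
    have h5 : S (pos p) / A ≤ (β p : ℝ) + 1 := by
      rw [div_le_iff₀ hA]
      exact (hβ2 p).le
    have h6 : S (pos q) / A ≤ (∑ j ∈ T, a j) / A + S (pos p) / A := by
      rw [← add_div]
      exact div_le_div_of_nonneg_right hW hA.le
    have h7 : (β q : ℝ) / N ≤ ((∑ j ∈ T, a j) / A + 1) / N + (β p : ℝ) / N := by
      rw [← add_div]
      apply div_le_div_of_nonneg_right _ hN'.le
      linarith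
    linarith
  have hsum : ∑ i ∈ TL, a i ≤ (TL.image β).card * (2 * A) := by
    rw [← Finset.sum_fiberwise_of_maps_to (fun j hj => Finset.mem_image_of_mem β hj)]
    calc ∑ b ∈ TL.image β, ∑ j ∈ TL.filter (fun j => β j = b), a j
        ≤ ∑ b ∈ TL.image β, 2 * A := by
          apply Finset.sum_le_sum
          intro b _
          apply hbin _ b
          · exact (Finset.filter_subset _ _).trans hTLs
          · intro j hj
            exact (Finset.mem_filter.1 hj).2
      _ = (TL.image β).card * (2 * A) := by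
          rw [Finset.sum_const, nsmul_eq_mul]
  calc ∑ i ∈ TL, a i ≤ (TL.image β).card * (2 * A) := hsum
    _ ≤ (((∑ j ∈ T, a j) / A + 1) / N + 2) * (2 * A) :=
        mul_le_mul_of_nonneg_right hcard' (by linarith)
    _ = 2 / N * ∑ i ∈ T, a i + (2 / N) * A + 4 * A := by
        field_simp
        ring
    _ ≤ 2 / N * ∑ i ∈ T, a i + 6 * A := by
        have : 2 / (N : ℝ) ≤ 2 := by
          rw [div_le_iff₀ hN']
          linarith
        nlinarith

open Classical in
/-- from intervals to symmetric decreasing kernels -/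
theorem kernel_of_interval {ι : Type} (s : Finset ι) (x a : ι → ℝ) (P : ι → Prop) (c E : ℝ)
    (ha : ∀ i ∈ s, 0 ≤ a i) (hE : 0 ≤ E)
    (h : ∀ lo hi : ℝ, ∑ i ∈ s.filter (fun i => P i ∧ lo ≤ x i ∧ x i ≤ hi), a i ≤
      c * ∑ i ∈ s.filter (fun i => lo ≤ x i ∧ x i ≤ hi), a i + E)
    (κ : ℝ → ℝ) (hκ : AntitoneOn κ (Set.Ici 0)) (hκ0 : ∀ d, 0 ≤ d → 0 ≤ κ d) (ξ : ℝ) :
    ∑ i ∈ s.filter P, a i * κ |x i - ξ| ≤ c * ∑ i ∈ s, a i * κ |x i - ξ| + E * κ 0 := by
  have hlayer : ∀ t : ℝ, ∑ i ∈ s.filter P, a i * (Set.Iio (κ |x i - ξ|)).indicator 1 t ≤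
      c * ∑ i ∈ s, a i * (Set.Iio (κ |x i - ξ|)).indicator 1 t + E := by
    intro t
    have e1 : ∑ i ∈ s.filter P, a i * (Set.Iio (κ |x i - ξ|)).indicator 1 t =
        ∑ i ∈ s.filter (fun i => P i ∧ t < κ |x i - ξ|), a i := by
      rw [← Finset.filter_filter, Finset.sum_filter (fun i => t < κ |x i - ξ|)]
      apply Finset.sum_congr rfl
      intro i _
      by_cases h1 : t < κ |x i - ξ| <;> simp [Set.indicator, h1]
    have e2 : ∑ i ∈ s, a i * (Set.Iio (κ |x i - ξ|)).indicator 1 t =
        ∑ i ∈ s.filter (fun i => t < κ |x i - ξ|), a i := by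
      rw [Finset.sum_filter (fun i => t < κ |x i - ξ|)]
      apply Finset.sum_congr rfl
      intro i _
      by_cases h1 : t < κ |x i - ξ| <;> simp [Set.indicator, h1]
    rw [e1, e2]
    rcases (s.filter (fun i => t < κ |x i - ξ|)).eq_empty_or_nonempty with he | hne
    · have e3 : s.filter (fun i => P i ∧ t < κ |x i - ξ|) = ∅ := by
        rw [← Finset.subset_empty, ← he]
        intro i hi
        rw [Finset.mem_filter] at hi ⊢
        exact ⟨hi.1, hi.2.2⟩
      rw [e3, he]
      simp [hE]
    · obtain ⟨j, hj, hmax⟩ := Finset.exists_max_image _ (fun i => |x i - ξ|) hne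
      have hj' := (Finset.mem_filter.1 hj).2
      have key : ∀ i ∈ s, (t < κ |x i - ξ| ↔ ξ - |x j - ξ| ≤ x i ∧ x i ≤ ξ + |x j - ξ|) := by
        intro i hi
        constructor
        · intro h1
          have h2 := hmax i (Finset.mem_filter.2 ⟨hi, h1⟩)
          have h3 := abs_le.1 h2
          constructor <;> linarith [h3.1, h3.2]
        · rintro ⟨h1, h2⟩
          have h3 : |x i - ξ| ≤ |x j - ξ| := by
            rw [abs_le]
            constructor <;> linarith
          exact hj'.trans_le (hκ (Set.mem_Ici.2 (abs_nonneg _)) (Set.mem_Ici.2 (abs_nonneg _)) h3)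
      have e4 : s.filter (fun i => P i ∧ t < κ |x i - ξ|) =
          s.filter (fun i => P i ∧ ξ - |x j - ξ| ≤ x i ∧ x i ≤ ξ + |x j - ξ|) := by
        apply Finset.filter_congr
        intro i hi
        rw [key i hi]
      have e5 : s.filter (fun i => t < κ |x i - ξ|) =
          s.filter (fun i => ξ - |x j - ξ| ≤ x i ∧ x i ≤ ξ + |x j - ξ|) := by
        apply Finset.filter_congr
        intro i hi
        rw [key i hi]
      rw [e4, e5]
      exact h _ _
  have hK : ∀ i, κ |x i - ξ| ≤ κ 0 := fun i =>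
    hκ (Set.mem_Ici.2 (le_refl _)) (Set.mem_Ici.2 (abs_nonneg _)) (abs_nonneg _)
  have hint : ∀ i, MeasureTheory.IntegrableOn
      (fun t : ℝ => (Set.Iio (κ |x i - ξ|)).indicator (1 : ℝ → ℝ) t) (Set.Ioc 0 (κ 0)) := by
    intro i
    apply MeasureTheory.Integrable.indicator
    · exact MeasureTheory.integrable_const _
    · exact measurableSet_Iio
  have hval : ∀ i, ∫ t in Set.Ioc 0 (κ 0), (Set.Iio (κ |x i - ξ|)).indicator (1 : ℝ → ℝ) t =
      κ |x i - ξ| := by
    intro i
    rw [MeasureTheory.integral_indicator_one measurableSet_Iio,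
      MeasureTheory.measureReal_restrict_apply measurableSet_Iio]
    have h1 : Set.Iio (κ |x i - ξ|) ∩ Set.Ioc 0 (κ 0) = Set.Ioo 0 (κ |x i - ξ|) := by
      ext t
      simp only [Set.mem_inter_iff, Set.mem_Iio, Set.mem_Ioc, Set.mem_Ioo]
      have := hK i
      constructor
      · rintro ⟨h1, h2, _⟩
        exact ⟨h2, h1⟩
      · rintro ⟨h1, h2⟩
        exact ⟨h2, h1, by linarith⟩
    rw [h1, Real.volume_real_Ioo_of_le (hκ0 _ (abs_nonneg _))]
    ring
  have hconst : ∫ _ in Set.Ioc 0 (κ 0), E = E * κ 0 := by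
    rw [MeasureTheory.setIntegral_const, Real.volume_real_Ioc_of_le (hκ0 0 (le_refl _)),
      smul_eq_mul]
    ring
  calc ∑ i ∈ s.filter P, a i * κ |x i - ξ|
      = ∑ i ∈ s.filter P, ∫ t in Set.Ioc 0 (κ 0),
          a i * (Set.Iio (κ |x i - ξ|)).indicator (1 : ℝ → ℝ) t := by
        apply Finset.sum_congr rfl
        intro i _
        rw [MeasureTheory.integral_const_mul, hval i]
    _ = ∫ t in Set.Ioc 0 (κ 0), ∑ i ∈ s.filter P,
          a i * (Set.Iio (κ |x i - ξ|)).indicator (1 : ℝ → ℝ) t := by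
        rw [MeasureTheory.integral_finsetSum]
        intro i _
        exact (hint i).const_mul _
    _ ≤ ∫ t in Set.Ioc 0 (κ 0), (c * ∑ i ∈ s,
          a i * (Set.Iio (κ |x i - ξ|)).indicator (1 : ℝ → ℝ) t + E) := by
        apply MeasureTheory.integral_mono
        · apply MeasureTheory.integrable_finsetSum
          intro i _
          exact (hint i).const_mul _
        · apply MeasureTheory.Integrable.add
          · apply MeasureTheory.Integrable.const_mul
            apply MeasureTheory.integrable_finsetSum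
            intro i _
            exact (hint i).const_mul _
          · exact MeasureTheory.integrable_const _
        · exact hlayer
    _ = c * ∑ i ∈ s, a i * κ |x i - ξ| + E * κ 0 := by
        rw [MeasureTheory.integral_add, MeasureTheory.integral_const_mul,
          MeasureTheory.integral_finsetSum, hconst]
        · congr 2
          apply Finset.sum_congr rfl
          intro i _
          rw [MeasureTheory.integral_const_mul, hval i]
        · intro i _
          exact (hint i).const_mul _
        · apply MeasureTheory.Integrable.const_mul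
          apply MeasureTheory.integrable_finsetSum
          intro i _
          exact (hint i).const_mul _
        · exact MeasureTheory.integrable_const _

end

end Pool.Agent.Helper65.HP
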