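import Pool.Agent.Helper65.HP.CoreC

/-! The core theorem, fourth part: the function `c`. -/

set_option autoImplicit false

namespace Pool.Agent.Helper65.HP

open UpperHalfPlane Filter Topology

noncomputable section

namespace Core

/-- the part of the cut squares of `R_M` with the chosen labels -/
def muQ (s u : ℍ → ℝ) (i : Bool) (lab : ℕ → ℕ → Sq → ℕ) (v : ℕ → ℕ) (M n : ℕ) : Sq → ℕ :=
  rst (Qf s u i n M) (fun J => ∃ S, clQ s u i n M J = St.N (some S) ∧ cls lab v M n S)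

/-- the family of zeros of `c` -/
def muC (s u : ℍ → ℝ) (i : Bool) (lab : ℕ → ℕ → Sq → ℕ) (v : ℕ → ℕ) (n : ℕ) (J : Sq) : ℕ :=
  ∑ M ∈ Finset.Icc 1 (nlev u i n), muQ s u i lab v M n J

theorem pf_muC (s u : ℍ → ℝ) (i : Bool) (lab : ℕ → ℕ → Sq → ℕ) (v : ℕ → ℕ) (n : ℕ) (z : ℍ) :
    pf i n (muC s u i lab v n) z =
      ∑ M ∈ Finset.Icc 1 (nlev u i n), pf i n (muQ s u i lab v M n) z := by
  unfold pf muC
  rw [Finset.sum_comm]
  refine Finset.sum_congr rfl fun J _ => ?_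
  push_cast
  rw [Finset.sum_mul]

theorem geom_le (C : ℝ) (hC : 0 < C) (N : ℕ) :
    ∑ M ∈ Finset.Icc 1 N, C / 4 ^ M ≤ C := by
  have h : ∀ N : ℕ, ∑ M ∈ Finset.Icc 1 N, C / 4 ^ M ≤ C * (1 - 1 / 4 ^ N) := by
    intro N
    induction N with
    | zero => simp
    | succ N ih =>
      rw [Finset.sum_Icc_succ_top (by omega)]
      have h4 : (0 : ℝ) < 4 ^ N := by positivity
      have : C / 4 ^ (N + 1) = C * (1 / 4 ^ N) / 4 := by rw [pow_succ]; field_simp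
      rw [this]
      have h5 : C * (1 - 1 / 4 ^ (N + 1)) = C - C * (1 / 4 ^ N) / 4 := by
        rw [pow_succ]; field_simp
      rw [h5]
      have h6 : 0 < C * (1 / 4 ^ N) := by positivity
      nlinarith
  refine (h N).trans ?_
  have : (0 : ℝ) < 1 / 4 ^ N := by positivity
  nlinarith

/-- `c` is bounded below on `V` -/
theorem c_lower {s u : ℍ → ℝ} (hs : Tame s) (hu : Tame u) (i : Bool) {lab : ℕ → ℕ → Sq → ℕ}
    (hlab : ∀ n, IsLab s u i n (lab n)) (v : ℕ → ℕ) {X : ℍ → ℂ}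
    (hX : UL (fun n => Bl (ms i n (muC s u i lab v n))) X) :
    ∃ c > 0, ∀ z, 400 * (u z + 1) ≤ s z → c ≤ ‖X z‖ := by
  obtain ⟨C, hC, hR5⟩ := R5
  refine ⟨Real.exp (-C), Real.exp_pos _, fun z hz => ?_⟩
  have h1 := ev_hyper (hR5 s u hs hu i z hz)
  refine hX.le_norm (h1.mono fun n hn => ?_)
  have h2 := hn (lab n) (hlab n)
  apply le_Bl'
  · rw [pot_ms, pf_muC]
    refine le_trans (Finset.sum_le_sum fun M hM => ?_) (geom_le C hC (nlev u i n))
    have hM1 : 1 ≤ M := (Finset.mem_Icc.1 hM).1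
    refine le_trans (pf_mono (fun J _ => ?_) z) ((h2 M hM1).1 (v M))
    unfold muQ rst
    by_cases hJ : ∃ S, clQ s u i n M J = St.N (some S) ∧ cls lab v M n S
    · obtain ⟨S, hS, hc⟩ := hJ
      have h3 : ∃ S, clQ s u i n M J = St.N (some S) ∧ lab n M S = v M := ⟨S, hS, hc M hM1 le_rfl⟩
      rw [if_pos ⟨S, hS, hc⟩, if_pos h3]
    · rw [if_neg hJ]; exact Nat.zero_le _
  · intro w hw
    obtain ⟨J, hJ, hne, rfl⟩ := mem_ms hw
    unfold muC at hne
    obtain ⟨M, hM, hMne⟩ := Finset.exists_ne_zero_of_sum_ne_zero hne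
    have hM1 : 1 ≤ M := (Finset.mem_Icc.1 hM).1
    refine (h2 M hM1).2 J hJ ?_
    intro h0
    apply hMne
    unfold muQ rst
    rw [h0]
    simp

/-- `f * gw * c ∈ I` -/
theorem c_mem {I : Set (ℍ → ℂ)} (hI : CPI I) (hN : ND I) (hI0 : ∃ θ ∈ I, ∃ z, θ z ≠ 0)
    {f : ℍ → ℂ} (hf : InU f) {s u : ℍ → ℝ} (hs : s = phi f) (hsT : Tame s) (hu : Adm I u)
    {i : Bool} {gw : ℍ → ℂ} (hgU : InU gw)
    (hgL : UL (fun n => Bl (ms i n (wal s u i n))) gw) {lab : ℕ → ℕ → Sq → ℕ}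
    {v : ℕ → ℕ} (hv : ∀ M, ∃ h' ∈ I, InU h' ∧ UL (fun n => Bl (ms i n (muA s u i lab v M n))) h')
    {X : ℍ → ℂ} (hXU : InU X) (hX : UL (fun n => Bl (ms i n (muC s u i lab v n))) X) :
    (fun z => f z * (gw z * X z)) ∈ I := by
  classical
  refine crit hI hf hs hgU hgL hXU fun T => ?_
  obtain ⟨Ψ, hΨ⟩ := R3 hsT hu.1 i T
  obtain ⟨K, hK, hnz⟩ := near_nonzero Ψ
  set M1 : ℕ := ⌈T⌉₊ + 16 with hM1
  set M2 : ℕ := M1 + ⌈10 * T⌉₊ with hM2
  obtain ⟨h', hh'I, hh'U, hh'L⟩ := hv M2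
  obtain ⟨ψ, hψA, hψ⟩ := admOf hI hN hI0 hh'I hh'U
  refine ⟨fun z => min (u z) (ψ z), adm_min hI hu hψA,
    max (Real.log (1 + K)) (max (8 * (M2 : ℝ) + 40) Ψ), fun z h1 h2 h3 => ?_⟩
  have k1 : Real.log (1 + K) < ψ z := lt_of_le_of_lt (le_max_left _ _)
    (lt_of_lt_of_le h3 (min_le_right _ _))
  have k2 : 8 * (M2 : ℝ) + 40 < u z := lt_of_le_of_lt ((le_max_left _ _).trans (le_max_right _ _))
    (lt_of_lt_of_le h3 (min_le_left _ _))
  have k3 : Ψ < u z := lt_of_le_of_lt ((le_max_right _ _).trans (le_max_right _ _))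
    (lt_of_lt_of_le h3 (min_le_left _ _))
  -- the potential of the zeros of `h'` is large
  have k4 : ∀ᶠ n in (hyperfilter ℕ : Filter ℕ), Ψ < pf i n (muA s u i lab v M2 n) z := by
    by_contra hcon
    rw [← Ultrafilter.eventually_not] at hcon
    have := hψ z K hK.le (hnz _ h' z hh'L (hcon.mono fun n hn => by
      rw [pot_ms]; exact not_lt.1 hn))
    linarith
  have k5 := ev_hyper (hΨ z h1)
  have hT1 : T ≤ (⌈T⌉₊ : ℝ) := Nat.le_ceil T
  have hT2 : 10 * T ≤ (⌈10 * T⌉₊ : ℝ) := Nat.le_ceil _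
  refine hX.norm_le (((k4.and h2).and k5).mono fun n hn => ?_)
  obtain ⟨⟨n1, n2⟩, n3⟩ := hn
  obtain ⟨c, c1, c2⟩ := n3 n2
  obtain ⟨J, hJ, hJg, hJs⟩ := c2 k3.le
  have c3 : ∃ S, c = some S ∧ cls lab v M2 n S := by
    by_contra hcon
    push Not at hcon
    refine absurd n1 (not_lt.2 (le_trans (pf_mono (fun J' _ => ?_) z) c1))
    unfold muA rst
    by_cases hJ' : ∃ S, sta s u i n J' = St.N (some S) ∧ cls lab v M2 n S
    · obtain ⟨S, hS, hc⟩ := hJ'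
      have hne : sta s u i n J' ≠ St.N c := by
        intro h
        rw [hS] at h
        have : c = some S := by injection h with h; exact h.symm
        exact hcon S this hc
      rw [if_pos ⟨S, hS, hc⟩, if_pos hne]
    · rw [if_neg hJ']; exact Nat.zero_le _
  obtain ⟨S, rfl, hcS⟩ := c3
  -- values at `J`
  have hg0 : 0 < g z (ctr i n J) := lt_of_lt_of_le (by norm_num) hJg
  have hlg : Real.log (1 / g z (ctr i n J)) ≤ 1 := by
    rw [one_div, Real.log_inv]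
    have : Real.log (4 / 5) ≤ Real.log (g z (ctr i n J)) := Real.log_le_log (by norm_num) hJg
    have h45 : -1 ≤ Real.log (4 / 5) := by
      rw [Real.le_log_iff_exp_le (by norm_num)]
      have := Real.exp_neg_one_lt_d9
      linarith
    linarith
  have sJ : s (ctr i n J) ≤ s z + 4 := by
    have := hsT.lip (ctr i n J) z
    rw [g_comm] at this
    linarith
  have uJ : u z ≤ u (ctr i n J) + 4 := by
    have := hu.1.lip z (ctr i n J)
    linarith
  have hM12 : (M1 : ℝ) ≤ M2 := by rw [hM2]; push_cast; linarith [Nat.cast_nonneg (α := ℝ) ⌈10 * T⌉₊]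
  have each : ∀ M, M1 ≤ M → M ≤ M2 → 1 / 5 ≤ pf i n (muQ s u i lab v M n) z := by
    intro M hMa hMb
    have hMa' : (M1 : ℝ) ≤ M := by exact_mod_cast hMa
    have hMb' : (M : ℝ) ≤ M2 := by exact_mod_cast hMb
    have hM1' : (M1 : ℝ) = ⌈T⌉₊ + 16 := by rw [hM1]; push_cast; ring
    have hsa : saQ s u i n M J := by
      refine ⟨⟨S, hJs⟩, ?_, ?_⟩
      · linarith
      · linarith
    refine le_trans (R6 hJ hsa hJs hJg) (pf_mono (fun J' _ => ?_) z)
    unfold muQ rst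
    by_cases hJ' : clQ s u i n M J' = St.N (some S)
    · have h5 : ∃ S, clQ s u i n M J' = St.N (some S) ∧ cls lab v M n S :=
        ⟨S, hJ', fun m m1 m2 => hcS m m1 (m2.trans hMb)⟩
      rw [if_pos hJ', if_pos h5]
    · rw [if_neg hJ']; exact Nat.zero_le _
  have hle : M2 ≤ nlev u i n := by
    by_contra hlt
    push Not at hlt
    have h6 := each M2 (by exact_mod_cast hM12) le_rfl
    have h7 : pf i n (muQ s u i lab v M2 n) z = 0 := by
      unfold pf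
      apply Finset.sum_eq_zero
      intro J' hJ'
      have h8 : muQ s u i lab v M2 n J' = 0 := by
        unfold muQ rst
        rw [Q_empty hu.1 hlt.le J' hJ']
        simp
      rw [h8]; simp
    rw [h7] at h6
    norm_num at h6
  apply Bl_le'
  rw [pot_ms, pf_muC]
  have hsub : Finset.Icc M1 M2 ⊆ Finset.Icc 1 (nlev u i n) := by
    intro M hM
    rw [Finset.mem_Icc] at hM ⊢
    omega
  have h9 : ∑ M ∈ Finset.Icc M1 M2, (1 / 5 : ℝ) ≤
      ∑ M ∈ Finset.Icc 1 (nlev u i n), pf i n (muQ s u i lab v M n) z := by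
    refine le_trans (Finset.sum_le_sum fun M hM => ?_)
      (Finset.sum_le_sum_of_subset_of_nonneg hsub fun M _ _ => pf_nonneg _ _ _ _)
    rw [Finset.mem_Icc] at hM
    exact each M hM.1 hM.2
  refine le_trans ?_ h9
  rw [Finset.sum_const, Nat.card_Icc, nsmul_eq_mul]
  have h10 : M2 + 1 - M1 = ⌈10 * T⌉₊ + 1 := by omega
  rw [h10]
  push_cast
  linarith

end Core

theorem core {I : Set (ℍ → ℂ)} (hI : CPI I) (hN : ND I) (hI0 : ∃ θ ∈ I, ∃ z, θ z ≠ 0) {p : ℕ}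
    (gs : Fin p → ℍ → ℂ) (hgs : ∀ j, InH (gs j))
    (hgI : ∀ α : Fin p → ℍ → ℂ, (∀ j, InH (α j)) → (fun z => 1 - ∑ j, gs j z * α j z) ∉ I)
    {f : ℍ → ℂ} (hf : InU f)
    (h : ∀ ε > 0, ∃ (q : ℕ) (θ : Fin q → ℍ → ℂ) (δ : ℝ), (∀ j, θ j ∈ I) ∧ 0 < δ ∧
      ∀ z, (∀ j, ‖gs j z‖ ≤ 1 / 2) → ε ≤ ‖f z‖ → ∃ j, δ ≤ ‖θ j z‖) : f ∈ I := by
  by_contra hfI
  have hf0 : ∃ z, f z ≠ 0 := by
    by_contra h0
    push Not at h0
    apply hfI
    have : f = fun _ => (0 : ℂ) := funext h0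
    rw [this]; exact hI.zero
  have hsT : Tame (phi f) := phi_tame hf hf0
  obtain ⟨u, hu, N1, hV⟩ := ucon hI hN hI0 gs hgs hf hf0 h
  obtain ⟨i, gw, hgU, hgL, hgwI⟩ := Core.grid hI hN hI0 hf hfI hu.1
  obtain ⟨h1, h1I, h1U, h1L⟩ := Core.class_mem hI hN hI0 gs hgs hgI hf hfI rfl hsT hu hV hgU hgL hgwI
  have hlab : ∀ n, ∃ lab, IsLab (phi f) u i n lab := fun n => exists_lab hsT hu.1 i n
  choose lab hlab using hlab
  obtain ⟨v, hv⟩ := Core.exists_labels hI (fun n M S => (hlab n M).1 S) h1I h1U h1L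
  obtain ⟨X, hXU, hXL⟩ := exists_UL_InU (Fn := fun n => Bl (ms i n (Core.muC (phi f) u i lab v n)))
    (fun n => Bl_InU _)
  have hmem := Core.c_mem hI hN hI0 hf rfl hsT hu hgU hgL hv hXU hXL
  obtain ⟨c, hc, hlow⟩ := Core.c_lower hsT hu.1 i hlab v hXL
  have hXI := Core.corona_contra hI gs hgs hgI hu hV hXU hc hlow
  rcases hI.prime _ _ hf.inH (hgU.mul hXU).inH hmem with h2 | h2
  · exact hfI h2
  · rcases hI.prime _ _ hgU.inH hXU.inH h2 with h3 | h3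
    · exact hgwI h3
    · exact hXI h3

end

end Pool.Agent.Helper65.HP
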