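import Pool.Agent.Helper65.HP.Wpk

/-! Module TAIL: tame functions on antichains of squares. -/

set_option autoImplicit false

namespace Pool.Agent.Helper65.HP

open UpperHalfPlane Filter Topology

noncomputable section

/-- parent and child values differ by less than 3.7 -/
theorem Tame.par_le {φ : ℍ → ℝ} (h : Tame φ) (i : Bool) (n : ℕ) {J : Sq} (hJ : 0 < J.1) :
    φ (ctr i n J) ≤ φ (ctr i n (par J)) + 3.7 ∧ φ (ctr i n (par J)) ≤ φ (ctr i n J) + 3.7 := by
  have h1 := g_below i (n := n) (below_par hJ)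
  have h2 : len n J / len n (par J) = 1 / 2 := by
    rw [len_par hJ]
    have := len_pos n J
    field_simp
  rw [h2] at h1
  have hg := g_pos (ctr i n (par J)) (ctr i n J)
  have h3 : Real.log (1 / g (ctr i n (par J)) (ctr i n J)) ≤ Real.log 2 := by
    apply Real.log_le_log (by positivity)
    rw [div_le_iff₀ hg]
    linarith
  have h4 := Real.log_two_lt_d9
  have h5 := h.lip (ctr i n (par J)) (ctr i n J)
  have h6 := h.lip (ctr i n J) (ctr i n (par J))
  rw [g_comm] at h6
  constructor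
  · norm_num at h4 ⊢; linarith
  · norm_num at h4 ⊢; linarith

namespace TailAx

open Classical in
/-- the indicator family of an antichain is packed -/
theorem packed_of_antichain {n : ℕ} (F : Finset Sq)
    (hd : ∀ J ∈ F, ∀ K ∈ F, Below J K → J = K) : Packed n (ind fun J => J ∈ F) 1 := by
  intro I hI
  have h1 : ∑ J ∈ dn n I, ((ind fun J => J ∈ F) J : ℝ) * len n J =
      ∑ J ∈ (dn n I).filter (fun J => J ∈ F), len n J := by
    rw [Finset.sum_filter]
    refine Finset.sum_congr rfl fun J _ => ?_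
    unfold ind
    split_ifs <;> simp
  rw [h1, one_mul]
  refine sum_disjoint_le hI _ (Finset.filter_subset _ _) ?_
  intro J hJ K hK
  exact hd J (Finset.mem_filter.1 hJ).2 K (Finset.mem_filter.1 hK).2

theorem pf_ind {i : Bool} {n : ℕ} (F : Finset Sq) (hF : F ⊆ all n) (z : ℍ) :
    pf i n (ind fun J => J ∈ F) z = ∑ J ∈ F, g z (ctr i n J) := by
  classical
  unfold pf
  have h1 : ∀ J, ((ind fun J => J ∈ F) J : ℝ) * g z (ctr i n J) =
      if J ∈ F then g z (ctr i n J) else 0 := by
    intro J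
    unfold ind
    split_ifs <;> simp
  simp only [h1]
  rw [← Finset.sum_filter]
  congr 1
  ext J
  simp only [Finset.mem_filter]
  exact ⟨fun h => h.2, fun h => ⟨hF h, h⟩⟩

end TailAx

/-- potentials of antichains -/
theorem tail_pot {φ : ℍ → ℝ} (h : Tame φ) (i : Bool) {n : ℕ} (F : Finset Sq) (hF : F ⊆ all n)
    (hd : ∀ J ∈ F, ∀ K ∈ F, Below J K → J = K) {b : ℝ} (hb : ∀ J ∈ F, b ≤ φ (ctr i n J)) (z : ℍ) :
    ∑ J ∈ F, g z (ctr i n J) ≤ 10000 * Real.exp (φ z - b) := by
  have hp := TailAx.packed_of_antichain (n := n) F hd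
  have h1 := h.fam (i := i) (n := n) (μ := ind fun J => J ∈ F) (A := 500) (a := b) (by norm_num)
    (fun z => by
      have := pf_le (i := i) zero_le_one hp z
      linarith)
    (fun J _ hne => by
      apply hb
      by_contra hJ
      apply hne
      unfold ind
      rw [if_neg hJ]) z
  rw [TailAx.pf_ind F hF] at h1
  linarith

theorem tail {φ : ℍ → ℝ} (h : Tame φ) (i : Bool) {n : ℕ} {I : Sq} (hI : I ∈ all n)
    (F : Finset Sq) (hF : F ⊆ dn n I) (hd : ∀ J ∈ F, ∀ K ∈ F, Below J K → J = K) {b : ℝ}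
    (hb : ∀ J ∈ F, b ≤ φ (ctr i n J)) :
    ∑ J ∈ F, len n J ≤ 10000 * Real.exp (φ (ctr i n I) - b) * len n I := by
  have h1 := tail_pot h i (n := n) F (fun J hJ => (mem_dn.1 (hF hJ)).1) hd hb (ctr i n I)
  have hl := len_pos n I
  have h2 : (∑ J ∈ F, len n J) / len n I ≤ ∑ J ∈ F, g (ctr i n I) (ctr i n J) := by
    rw [Finset.sum_div]
    exact Finset.sum_le_sum fun J hJ => g_below i (mem_dn.1 (hF hJ)).2
  have h3 := h2.trans h1
  rwa [div_le_iff₀ hl] at h3

end

end Pool.Agent.Helper65.HP
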