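import Pool.Agent.Helper65.HP.Mac
import Pool.Agent.Helper65.HP.Tail

/-! Module LAY: layering of a tame function (discrete part). -/

set_option autoImplicit false

namespace Pool.Agent.Helper65.HP

open UpperHalfPlane Filter Topology

noncomputable section

namespace LayAux

/-- start condition of level `k` -/
abbrev sa (φ : ℍ → ℝ) (i : Bool) (n : ℕ) (k : ℝ) : Sq → Prop := fun J => k ≤ φ (ctr i n J)

/-- stop condition of level `k` -/
abbrev so (φ : ℍ → ℝ) (i : Bool) (n : ℕ) (k : ℝ) : Sq → Prop := fun J => φ (ctr i n J) ≤ k - 10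

theorem exp_neg_ten : 10000 * Real.exp (-10) ≤ 1 / 2 := by
  have h1 : (2.7182818283 : ℝ) < Real.exp 1 := Real.exp_one_gt_d9
  have h2 : Real.exp 10 = Real.exp 1 ^ 10 := by
    rw [← Real.exp_nat_mul]; norm_num
  have h3 : (20000 : ℝ) ≤ Real.exp 10 := by
    rw [h2]
    calc (20000 : ℝ) ≤ 2.7182818283 ^ 10 := by norm_num
      _ ≤ Real.exp 1 ^ 10 := by gcongr
  rw [Real.exp_neg]
  have h4 : 0 < Real.exp 10 := Real.exp_pos _
  rw [← div_eq_mul_inv, div_le_iff₀ h4]
  linarith

theorem exp_eleven : (30000 : ℝ) ≤ Real.exp 11 := by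
  have h1 : (2.7182818283 : ℝ) < Real.exp 1 := Real.exp_one_gt_d9
  have h2 : Real.exp 11 = Real.exp 1 ^ 11 := by
    rw [← Real.exp_nat_mul]; norm_num
  rw [h2]
  calc (30000 : ℝ) ≤ 2.7182818283 ^ 11 := by norm_num
    _ ≤ Real.exp 1 ^ 11 := by gcongr

theorem not_so_of_mach {φ : ℍ → ℝ} {i : Bool} {n : ℕ} {k : ℝ} {J : Sq}
    (h : mach (sa φ i n k) (so φ i n k) J.1 J.2) : k - 10 < φ (ctr i n J) := by
  rcases Nat.eq_zero_or_pos J.1 with h0 | h0
  · rw [mach_zero _ _ h0] at h
    have : k ≤ φ (ctr i n J) := h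
    linarith
  · rw [mach_succ _ _ h0] at h
    rcases h with ⟨_, h⟩ | ⟨_, h⟩
    · exact not_le.mp h
    · have : k ≤ φ (ctr i n J) := h
      linarith

open Classical in
theorem mem_nxt' {n : ℕ} {P : Sq → Prop} {I J : Sq} : J ∈ nxt n P I ↔ J ∈ dn n I ∧ P J ∧ J ≠ I ∧
    ∀ K, Below J K → Below K I → K ≠ I → P K → K = J := by
  unfold nxt
  rw [Finset.mem_filter]

theorem cutm_of_ne {φ : ℍ → ℝ} {i : Bool} {n : ℕ} {k : ℝ} {J : Sq} (h : layk φ i n k J ≠ 0) :
    cutm (2 * n) (sa φ i n k) (so φ i n k) J := by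
  by_contra hc
  apply h
  unfold layk cutf
  exact if_neg hc

theorem layk_one {φ : ℍ → ℝ} {i : Bool} {n : ℕ} {k : ℝ} {J : Sq}
    (h : cutm (2 * n) (sa φ i n k) (so φ i n k) J) : layk φ i n k J = 1 := by
  unfold layk cutf
  exact if_pos h

end LayAux

open LayAux

theorem layk_packed {φ : ℍ → ℝ} (h : Tame φ) (i : Bool) (n : ℕ) (k : ℝ) :
    Packed n (layk φ i n k) 3 := by
  unfold layk
  apply cut_pack
  intro S hS hst
  have key := two_step (n := n) (S := S) hS (nxt n (isSt (sa φ i n k) (so φ i n k)) S)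
    (fun J hJ => (mem_nxt'.mp hJ).1)
    nxt_disjoint (fun J => φ (ctr i n J) ≤ k - 10)
    (fun J hJ => by
      obtain ⟨h1, h2, h3, _⟩ := mem_nxt'.mp hJ
      obtain ⟨K, hK1, hK2, _, _, _, hK3, _⟩ := exists_exit hst h2 (mem_dn.mp h1).2 h3
      exact ⟨K, hK1, hK2, hK3⟩) (a := 1) (b := 1 / 2) (by norm_num)
    (fun K hK hQ F' hF' hF'' => by
      have ht := tail h i (mem_dn.mp hK).1 F' hF''
        (fun J hJ K' hK' => nxt_disjoint J (hF' hJ) K' (hF' hK')) (b := k)
        (fun J hJ => by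
          obtain ⟨_, h2, _, _⟩ := mem_nxt'.mp (hF' hJ)
          exact h2.start)
      refine ht.trans ?_
      have hl := len_pos n K
      have he : Real.exp (φ (ctr i n K) - k) ≤ Real.exp (-10) :=
        Real.exp_le_exp.mpr (by linarith)
      have := exp_neg_ten
      apply mul_le_mul_of_nonneg_right _ hl.le
      linarith)
    (fun F' hF' _ hd => by
      rw [one_mul]
      exact sum_disjoint_le hS F' hF' hd)
  have hrw : (1 : ℝ) * (1 / 2) * len n S = len n S / 2 := by ring
  rw [hrw] at key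
  exact key

theorem layk_ge {φ : ℍ → ℝ} (h : Tame φ) {i : Bool} {n : ℕ} {k : ℝ} {J : Sq} (hJ : J ∈ all n)
    (h1 : layk φ i n k J ≠ 0) : k - 14 ≤ φ (ctr i n J) := by
  rcases cutm_of_ne h1 with ⟨h0, h2, _⟩ | ⟨_, h2⟩
  · have h3 := not_so_of_mach h2
    have h4 := (Tame.par_le h i n h0).2
    norm_num at h4
    linarith
  · have h3 := not_so_of_mach h2
    linarith

theorem layk_cover {φ : ℍ → ℝ} {i : Bool} {n : ℕ} {k : ℝ} {I : Sq}
    (hI : I ∈ all n) (h1 : k ≤ φ (ctr i n I)) :
    len n I ≤ ∑ J ∈ dn n I, (layk φ i n k J : ℝ) * len n J := by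
  have hm : mach (sa φ i n k) (so φ i n k) I.1 I.2 := by
    apply mach_of_start
    · intro J hJ hJ'
      have a1 : k ≤ φ (ctr i n J) := hJ
      have a2 : φ (ctr i n J) ≤ k - 10 := hJ'
      linarith
    · exact h1
  obtain ⟨F, hF, _, hs, hc⟩ := mach_cover hI hm
  rw [← hs]
  calc ∑ J ∈ F, len n J = ∑ J ∈ F, (layk φ i n k J : ℝ) * len n J := by
        apply Finset.sum_congr rfl
        intro J hJ
        rw [layk_one (hc J hJ).1]
        simp
    _ ≤ ∑ J ∈ dn n I, (layk φ i n k J : ℝ) * len n J := by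
        apply Finset.sum_le_sum_of_subset_of_nonneg hF
        intro J _ _
        exact mul_nonneg (Nat.cast_nonneg _) (len_pos n J).le

namespace LayAux

theorem layk_le_1500 {φ : ℍ → ℝ} (h : Tame φ) (i : Bool) (n : ℕ) (k : ℝ) (z : ℍ) :
    pf i n (layk φ i n k) z ≤ 1500 := by
  have := pf_le (i := i) (by norm_num : (0 : ℝ) ≤ 3) (layk_packed h i n k) z
  linarith

theorem layk_le_exp {φ : ℍ → ℝ} (h : Tame φ) (i : Bool) (n : ℕ) (k : ℝ) (z : ℍ) :
    pf i n (layk φ i n k) z ≤ Real.exp (25 + φ z - k) := by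
  have h1 := Tame.fam h (i := i) (n := n) (μ := layk φ i n k) (A := 1500) (a := k - 14)
    (by norm_num) (layk_le_1500 h i n k) (fun J hJ hJ' => layk_ge h hJ hJ') z
  refine h1.trans ?_
  have h2 : Real.exp (25 + φ z - k) = Real.exp 11 * Real.exp (φ z - (k - 14)) := by
    rw [← Real.exp_add]; congr 1; ring
  rw [h2]
  have h3 := exp_eleven
  have h4 : 0 < Real.exp (φ z - (k - 14)) := Real.exp_pos _
  nlinarith

theorem pf_lay (φ : ℍ → ℝ) (i : Bool) (n : ℕ) (k0 : ℝ) (z : ℍ) :
    pf i n (lay φ i n k0) z =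
      ∑ k ∈ Finset.range (nlev φ i n), pf i n (layk φ i n (k0 + (k + 1 : ℕ))) z := by
  unfold pf lay
  rw [Finset.sum_comm]
  apply Finset.sum_congr rfl
  intro J _
  push_cast
  rw [Finset.sum_mul]

theorem geo (N m : ℕ) : ∑ k ∈ Finset.range m, (if k < N then (0 : ℝ) else (1 / 2) ^ (k - N)) ≤
    2 - 2 * (1 / 2) ^ (m - N) := by
  induction m with
  | zero => simp
  | succ m ih =>
    rw [Finset.sum_range_succ]
    split_ifs with h
    · have h1 : m + 1 - N = 0 := by omega
      have h2 : m - N = 0 := by omega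
      rw [h2] at ih
      rw [h1]
      linarith
    · have h1 : m + 1 - N = (m - N) + 1 := by omega
      rw [h1, pow_succ]
      linarith

theorem exp_neg_nat (j : ℕ) : Real.exp (-(j : ℝ)) ≤ (1 / 2) ^ j := by
  have h1 : Real.exp (-(j : ℝ)) = (Real.exp (-1)) ^ j := by
    rw [← Real.exp_nat_mul]; congr 1; ring
  rw [h1]
  have h2 : Real.exp (-1) ≤ 1 / 2 := by
    have h3 : (2.7182818283 : ℝ) < Real.exp 1 := Real.exp_one_gt_d9
    rw [Real.exp_neg, one_div]
    exact inv_anti₀ (by norm_num) (by linarith)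
  exact pow_le_pow_left₀ (Real.exp_pos _).le h2 j

end LayAux

theorem lay_le {φ : ℍ → ℝ} (h : Tame φ) (i : Bool) (n : ℕ) (k0 : ℝ) (z : ℍ) :
    pf i n (lay φ i n k0) z ≤ 1500 * (max (φ z - k0) 0 + 26) := by
  rw [pf_lay]
  set y : ℝ := max (φ z - k0) 0 + 25 with hy
  have hy0 : 0 ≤ y := by
    have := le_max_right (φ z - k0) 0
    linarith
  have hyx : φ z - k0 + 25 ≤ y := by
    have := le_max_left (φ z - k0) 0
    linarith
  set N : ℕ := ⌊y⌋₊ with hN
  have hNy : (N : ℝ) ≤ y := Nat.floor_le hy0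
  have hyN : y < (N : ℝ) + 1 := Nat.lt_floor_add_one y
  have hterm : ∀ k ∈ Finset.range (nlev φ i n),
      pf i n (layk φ i n (k0 + (k + 1 : ℕ))) z ≤
        (if k < N then (1500 : ℝ) else 0) + (if k < N then (0 : ℝ) else (1 / 2) ^ (k - N)) := by
    intro k _
    split_ifs with hk
    · have := layk_le_1500 h i n (k0 + (k + 1 : ℕ)) z
      linarith
    · have h1 := layk_le_exp h i n (k0 + (k + 1 : ℕ)) z
      have h2 : Real.exp (25 + φ z - (k0 + (k + 1 : ℕ))) ≤ Real.exp (-((k - N : ℕ) : ℝ)) := by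
        apply Real.exp_le_exp.mpr
        rw [Nat.cast_sub (not_lt.mp hk)]
        push_cast
        linarith
      have h3 := exp_neg_nat (k - N)
      linarith
  calc ∑ k ∈ Finset.range (nlev φ i n), pf i n (layk φ i n (k0 + (k + 1 : ℕ))) z
      ≤ ∑ k ∈ Finset.range (nlev φ i n),
        ((if k < N then (1500 : ℝ) else 0) + (if k < N then (0 : ℝ) else (1 / 2) ^ (k - N))) :=
        Finset.sum_le_sum hterm
    _ = ∑ k ∈ Finset.range (nlev φ i n), (if k < N then (1500 : ℝ) else 0) +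
        ∑ k ∈ Finset.range (nlev φ i n), (if k < N then (0 : ℝ) else (1 / 2) ^ (k - N)) :=
        Finset.sum_add_distrib
    _ ≤ 1500 * N + 2 := by
        apply add_le_add
        · rw [← Finset.sum_filter, Finset.sum_const, nsmul_eq_mul]
          have hc : ((Finset.range (nlev φ i n)).filter fun k => k < N).card ≤ N := by
            calc ((Finset.range (nlev φ i n)).filter fun k => k < N).card
                ≤ (Finset.range N).card := by
                  apply Finset.card_le_card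
                  intro k hk
                  exact Finset.mem_range.mpr (Finset.mem_filter.mp hk).2
              _ = N := Finset.card_range N
          have hc' : (((Finset.range (nlev φ i n)).filter fun k => k < N).card : ℝ) ≤ N := by
            exact_mod_cast hc
          linarith
        · have := geo N (nlev φ i n)
          have hp : (0 : ℝ) ≤ (1 / 2) ^ (nlev φ i n - N) := by positivity
          linarith
    _ ≤ 1500 * (max (φ z - k0) 0 + 26) := by
        have : max (φ z - k0) 0 + 26 = y + 1 := by rw [hy]; ring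
        rw [this]
        linarith

theorem lay_ge {φ : ℍ → ℝ} (h : Tame φ) {k0 : ℝ} (hk : 0 ≤ k0) (i : Bool) (z : ℍ) :
    ∀ᶠ n in atTop, (φ z - k0 - 5) / 5 ≤ pf i n (lay φ i n k0) z := by
  filter_upwards [exists_sq i z] with n hn
  obtain ⟨I, hI, hg, _, _, _⟩ := hn
  rw [pf_lay]
  have hg0 := g_pos z (ctr i n I)
  have hlip := Tame.lip h z (ctr i n I)
  have hlog : Real.log (1 / g z (ctr i n I)) ≤ 1 / 4 := by
    have h1 := Real.log_le_sub_one_of_pos (by positivity : 0 < 1 / g z (ctr i n I))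
    have h2 : 1 / g z (ctr i n I) ≤ 5 / 4 := by
      rw [div_le_iff₀ hg0]; linarith
    linarith
  have hφI : φ z - 13 / 4 ≤ φ (ctr i n I) := by linarith
  -- each low level contributes at least 1/5
  have hlev : ∀ k : ℝ, k ≤ φ (ctr i n I) → 1 / 5 ≤ pf i n (layk φ i n k) z := by
    intro k hk'
    have hcov := layk_cover hI hk'
    have hlI := len_pos n I
    have hsub : ∑ J ∈ dn n I, (layk φ i n k J : ℝ) * g z (ctr i n J) ≤
        pf i n (layk φ i n k) z := by
      unfold pf
      apply Finset.sum_le_sum_of_subset_of_nonneg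
      · intro J hJ; exact (mem_dn.mp hJ).1
      · intro J _ _
        exact mul_nonneg (Nat.cast_nonneg _) (g_pos _ _).le
    refine le_trans ?_ hsub
    have hterm : ∑ J ∈ dn n I, (layk φ i n k J : ℝ) * (1 / 5 * (len n J / len n I)) ≤
        ∑ J ∈ dn n I, (layk φ i n k J : ℝ) * g z (ctr i n J) := by
      apply Finset.sum_le_sum
      intro J hJ
      apply mul_le_mul_of_nonneg_left _ (Nat.cast_nonneg _)
      have h1 := g_below i (n := n) (mem_dn.mp hJ).2
      have h2 := g_mul_le z (ctr i n I) (ctr i n J)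
      have h3 : 0 ≤ len n J / len n I := div_nonneg (len_pos n J).le hlI.le
      have h4 : 4 / 5 * (len n J / len n I) ≤ g z (ctr i n I) * g (ctr i n I) (ctr i n J) :=
        mul_le_mul hg h1 h3 hg0.le
      linarith
    refine le_trans ?_ hterm
    have hrw : ∑ J ∈ dn n I, (layk φ i n k J : ℝ) * (1 / 5 * (len n J / len n I)) =
        1 / 5 * ((∑ J ∈ dn n I, (layk φ i n k J : ℝ) * len n J) / len n I) := by
      rw [Finset.sum_div, Finset.mul_sum]
      apply Finset.sum_congr rfl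
      intro J _
      ring
    rw [hrw]
    have : 1 ≤ (∑ J ∈ dn n I, (layk φ i n k J : ℝ) * len n J) / len n I := by
      rw [le_div_iff₀ hlI]; linarith
    linarith
  have hnn : ∀ k : ℕ, 0 ≤ pf i n (layk φ i n (k0 + (k + 1 : ℕ))) z := fun k => pf_nonneg _ _ _ _
  rcases le_or_gt (φ (ctr i n I) - k0) 0 with hneg | hpos
  · have h1 : 0 ≤ ∑ k ∈ Finset.range (nlev φ i n), pf i n (layk φ i n (k0 + (k + 1 : ℕ))) z :=
      Finset.sum_nonneg fun k _ => hnn k
    refine le_trans ?_ h1
    linarith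
  · set M : ℕ := ⌊φ (ctr i n I) - k0⌋₊ with hM
    have hM1 : (M : ℝ) ≤ φ (ctr i n I) - k0 := Nat.floor_le hpos.le
    have hM2 : φ (ctr i n I) - k0 < (M : ℝ) + 1 := Nat.lt_floor_add_one _
    have hMn : M ≤ nlev φ i n := by
      unfold nlev
      have h1 : φ (ctr i n I) ≤ ∑ J ∈ all n, φ (ctr i n J) :=
        Finset.single_le_sum (f := fun J => φ (ctr i n J)) (fun J _ => h.1 _) hI
      have h2 := Nat.le_ceil (∑ J ∈ all n, φ (ctr i n J))
      have h3 : (M : ℝ) ≤ (⌈∑ J ∈ all n, φ (ctr i n J)⌉₊ : ℝ) := by linarith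
      have h4 : M ≤ ⌈∑ J ∈ all n, φ (ctr i n J)⌉₊ := by exact_mod_cast h3
      omega
    calc (φ z - k0 - 5) / 5 ≤ (M : ℝ) * (1 / 5) := by linarith
      _ = ∑ k ∈ Finset.range M, (1 / 5 : ℝ) := by
          rw [Finset.sum_const, Finset.card_range, nsmul_eq_mul]
      _ ≤ ∑ k ∈ Finset.range M, pf i n (layk φ i n (k0 + (k + 1 : ℕ))) z := by
          apply Finset.sum_le_sum
          intro k hk'
          apply hlev
          have h5 : k + 1 ≤ M := Finset.mem_range.mp hk'
          have h6 : ((k + 1 : ℕ) : ℝ) ≤ M := by exact_mod_cast h5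
          linarith
      _ ≤ ∑ k ∈ Finset.range (nlev φ i n), pf i n (layk φ i n (k0 + (k + 1 : ℕ))) z := by
          apply Finset.sum_le_sum_of_subset_of_nonneg
          · exact Finset.range_mono hMn
          · intro k _ _; exact hnn k

theorem lay_small {φ : ℍ → ℝ} (h : Tame φ) (i : Bool) (n : ℕ) {k0 : ℝ} {z : ℍ}
    (hz : φ z ≤ k0 - 34) : pf i n (lay φ i n k0) z ≤ 1 / 100 ∧
      ∀ J ∈ all n, lay φ i n k0 J ≠ 0 → g z (ctr i n J) ≤ 3 / 4 := by
  constructor
  · rw [pf_lay]
    have hterm : ∀ k ∈ Finset.range (nlev φ i n),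
        pf i n (layk φ i n (k0 + (k + 1 : ℕ))) z ≤ Real.exp (-10) * (1 / 2) ^ k := by
      intro k _
      have h1 := layk_le_exp h i n (k0 + (k + 1 : ℕ)) z
      have h2 : Real.exp (25 + φ z - (k0 + (k + 1 : ℕ))) ≤ Real.exp (-10) * Real.exp (-(k : ℝ)) := by
        rw [← Real.exp_add]
        apply Real.exp_le_exp.mpr
        push_cast
        linarith
      have h3 := exp_neg_nat k
      have h4 : Real.exp (-10) * Real.exp (-(k : ℝ)) ≤ Real.exp (-10) * (1 / 2) ^ k :=
        mul_le_mul_of_nonneg_left h3 (Real.exp_pos _).le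
      linarith
    have h5 := Finset.sum_le_sum hterm
    rw [← Finset.mul_sum] at h5
    have h6 : ∑ k ∈ Finset.range (nlev φ i n), (1 / 2 : ℝ) ^ k ≤ 2 := by
      have := geo 0 (nlev φ i n)
      simp only [not_lt_zero, if_false, Nat.sub_zero] at this
      have hp : (0 : ℝ) ≤ (1 / 2) ^ (nlev φ i n) := by positivity
      linarith
    have h7 := exp_neg_ten
    have h8 : 0 < Real.exp (-10) := Real.exp_pos _
    nlinarith
  · intro J hJ hne
    have : ∃ k ∈ Finset.range (nlev φ i n), layk φ i n (k0 + (k + 1 : ℕ)) J ≠ 0 := by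
      by_contra hc
      push Not at hc
      exact hne (Finset.sum_eq_zero hc)
    obtain ⟨k, _, hk⟩ := this
    have h1 := layk_ge h hJ hk
    push_cast at h1
    have hk0 : (0 : ℝ) ≤ k := Nat.cast_nonneg k
    have h2 := Tame.lip h (ctr i n J) z
    by_contra hg
    push Not at hg
    rw [g_comm] at hg
    have hg0 := g_pos (ctr i n J) z
    have h3 := Real.log_le_sub_one_of_pos (by positivity : 0 < 1 / g (ctr i n J) z)
    have h4 : 1 / g (ctr i n J) z ≤ 4 / 3 := by
      rw [div_le_iff₀ hg0]; linarith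
    linarith

end

end Pool.Agent.Helper65.HP
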