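import Pool.Agent.Helper65.HP.Exp
import Pool.Agent.Helper65.HP.Lay

/-! Module NEA: the states of squares near a point. -/

set_option autoImplicit false

namespace Pool.Agent.Helper65.HP

open UpperHalfPlane Filter Topology

noncomputable section

namespace NeaAux

theorem log_inv_le {a : ℝ} {z w : ℍ} (h : Real.exp (-a) ≤ g z w) :
    Real.log (1 / g z w) ≤ a := by
  rw [one_div, Real.log_inv]
  have := Real.log_le_log (Real.exp_pos _) h
  rw [Real.log_exp] at this
  linarith

/-- a square with `2 u + 40 ≤ s` has state `O` -/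
theorem sta_of_ge {s u : ℍ → ℝ} (hu : ∀ z, 0 ≤ u z) {i : Bool} {n : ℕ} (K : Sq)
    (h : 2 * u (ctr i n K) + 40 ≤ s (ctr i n K)) : sta s u i n K = St.O := by
  obtain ⟨m, j⟩ := K
  have h0 := hu (ctr i n (m, j))
  cases m with
  | zero =>
    show stt s u i n 0 j = St.O
    unfold stt
    rw [if_pos h]
  | succ m =>
    show stt s u i n (m + 1) j = St.O
    unfold stt
    cases stt s u i n m (j / 2) with
    | O =>
      have : ¬ s (ctr i n (m + 1, j)) < u (ctr i n (m + 1, j)) := by linarith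
      simp only [if_neg this]
    | N c => simp only [if_pos h]

end NeaAux

open NeaAux

/-- near points where `s` is bounded and `u` is large there are no `O` squares -/
theorem near_N {s u : ℍ → ℝ} (hs : Tame s) (hu : Tame u) {T : ℝ} {x : ℍ} (h1 : s x ≤ T)
    (h2 : 10 * T + 60 < u x) (i : Bool) (n : ℕ) (K : Sq)
    (hK : Real.exp (-(9 / 20 * u x)) ≤ g x (ctr i n K)) : sta s u i n K ≠ St.O := by
  intro hO
  have h3 := sta_O hu.1 hO
  have h4 := hs.lip (ctr i n K) x
  have h5 := hu.lip x (ctr i n K)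
  have h6 := log_inv_le hK
  rw [g_comm] at h4
  linarith

/-- near points where `s` is much larger than `u` all squares are `O` -/
theorem near_O {s u : ℍ → ℝ} (hs : Tame s) (hu : Tame u) {z : ℍ} (h : 400 * (u z + 1) ≤ s z)
    (i : Bool) (n : ℕ) (K : Sq) (hK : Real.exp (-(100 * (u z + 1))) ≤ g z (ctr i n K)) :
    sta s u i n K = St.O := by
  apply sta_of_ge hu.1
  have h4 := hs.lip z (ctr i n K)
  have h5 := hu.lip (ctr i n K) z
  have h6 := log_inv_le hK
  rw [g_comm] at h5
  have h7 := hu.1 z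
  linarith

namespace NeaAux

theorem ratio : 0 < Real.exp (-(39 / 40)) ∧ Real.exp (-(39 / 40)) < 1 :=
  ⟨Real.exp_pos _, by rw [Real.exp_lt_one_iff]; norm_num⟩

theorem geom_le (B : ℕ) : ∑ b ∈ Finset.range B, Real.exp (-(39 / 40)) ^ b ≤
    (1 - Real.exp (-(39 / 40)))⁻¹ := by
  rw [← tsum_geometric_of_lt_one ratio.1.le ratio.2]
  exact (summable_geometric_of_lt_one ratio.1.le ratio.2).sum_le_tsum _
    (fun b _ => pow_nonneg ratio.1.le b)

/-- sum over an antichain of entry squares -/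
theorem anti_sum {s : ℍ → ℝ} (hs : Tame s) (i : Bool) (n : ℕ) (x : ℍ) (E : Finset Sq)
    (hE : E ⊆ all n) (hd : ∀ J ∈ E, ∀ K ∈ E, Below J K → J = K) :
    ∑ R ∈ E, Real.exp (s (ctr i n R) / 40) * g x (ctr i n R) ≤
      10000 * Real.exp (1 / 40) * (1 - Real.exp (-(39 / 40)))⁻¹ * Real.exp (s x) := by
  classical
  obtain ⟨B, hB⟩ : ∃ B : ℕ, ∀ R ∈ E, ⌊s (ctr i n R)⌋₊ ∈ Finset.range B := by
    refine ⟨E.sup (fun R => ⌊s (ctr i n R)⌋₊) + 1, fun R hR => ?_⟩
    rw [Finset.mem_range, Nat.lt_succ_iff]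
    exact Finset.le_sup (f := fun R => ⌊s (ctr i n R)⌋₊) hR
  rw [← Finset.sum_fiberwise_of_maps_to hB]
  have hb : ∀ b ∈ Finset.range B, ∑ R ∈ E with ⌊s (ctr i n R)⌋₊ = b,
      Real.exp (s (ctr i n R) / 40) * g x (ctr i n R) ≤
      10000 * Real.exp (1 / 40) * Real.exp (s x) * Real.exp (-(39 / 40)) ^ b := by
    intro b _
    have h1 : ∀ R ∈ E.filter (fun R => ⌊s (ctr i n R)⌋₊ = b),
        Real.exp (s (ctr i n R) / 40) * g x (ctr i n R) ≤
          Real.exp (((b : ℝ) + 1) / 40) * g x (ctr i n R) := by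
      intro R hR
      rw [Finset.mem_filter] at hR
      have h2 : s (ctr i n R) < b + 1 := by
        rw [← hR.2]; exact Nat.lt_floor_add_one _
      have h3 := (g_pos x (ctr i n R)).le
      gcongr
    refine (Finset.sum_le_sum h1).trans ?_
    rw [← Finset.mul_sum]
    have h4 := tail_pot hs i (E.filter (fun R => ⌊s (ctr i n R)⌋₊ = b))
      ((Finset.filter_subset _ _).trans hE)
      (fun J hJ K hK => hd J (Finset.mem_filter.mp hJ).1 K (Finset.mem_filter.mp hK).1)
      (b := b) (fun J hJ => by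
        rw [← (Finset.mem_filter.mp hJ).2]
        exact Nat.floor_le (hs.1 _)) x
    calc Real.exp (((b : ℝ) + 1) / 40) *
          ∑ R ∈ E.filter (fun R => ⌊s (ctr i n R)⌋₊ = b), g x (ctr i n R)
        ≤ Real.exp (((b : ℝ) + 1) / 40) * (10000 * Real.exp (s x - b)) := by gcongr
      _ = 10000 * Real.exp (1 / 40) * Real.exp (s x) * Real.exp (-(39 / 40)) ^ b := by
        rw [← Real.exp_nat_mul]
        have e : 10000 * Real.exp (1 / 40) * Real.exp (s x) * Real.exp ((b : ℝ) * -(39 / 40)) =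
          10000 * (Real.exp (1 / 40) * Real.exp (s x) * Real.exp ((b : ℝ) * -(39 / 40))) := by ring
        rw [e, ← Real.exp_add, ← Real.exp_add, mul_left_comm, ← Real.exp_add]
        congr 2
        ring
  refine (Finset.sum_le_sum hb).trans ?_
  rw [← Finset.mul_sum]
  calc 10000 * Real.exp (1 / 40) * Real.exp (s x) * ∑ b ∈ Finset.range B, Real.exp (-(39 / 40)) ^ b
      ≤ 10000 * Real.exp (1 / 40) * Real.exp (s x) * (1 - Real.exp (-(39 / 40)))⁻¹ := by
        apply mul_le_mul_of_nonneg_left (geom_le B) (by positivity)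
    _ = _ := by ring

end NeaAux

open Classical in
/-- potential of a family below entry squares: `E` is an antichain of small squares `R` with
`2 u + 40 ≤ s`; the family `w` has mass at most `c e^{s_R / 40} |R|` below each `R ∈ E` -/
theorem entry_sum (c : ℝ) (hc : 0 ≤ c) : ∃ C, ∀ s : ℍ → ℝ, Tame s → ∀ (i : Bool) (n : ℕ) (x : ℍ)
    (E : Finset Sq) (w : Sq → ℝ), E ⊆ all n → (∀ J ∈ E, ∀ K ∈ E, Below J K → J = K) →
    (∀ R ∈ E, len n R ≤ x.im) → (∀ J, 0 ≤ w J) →
    (∀ R ∈ E, ∑ J ∈ dn n R, w J * len n J ≤ c * Real.exp (s (ctr i n R) / 40) * len n R) →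
    ∑ J ∈ (all n).filter (fun J => ∃ R ∈ E, Below J R), w J * g x (ctr i n J) ≤
      C * Real.exp (s x) := by
  refine ⟨9 / 2 * c * (10000 * Real.exp (1 / 40) * (1 - Real.exp (-(39 / 40)))⁻¹), ?_⟩
  intro s hs i n x E w hE hd hx hw hm
  have hset : (all n).filter (fun J => ∃ R ∈ E, Below J R) = E.biUnion (dn n) := by
    ext J
    simp only [Finset.mem_filter, Finset.mem_biUnion, mem_dn]
    constructor
    · rintro ⟨h1, R, hR, h2⟩; exact ⟨R, hR, h1, h2⟩
    · rintro ⟨R, hR, h1, h2⟩; exact ⟨h1, R, hR, h2⟩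
  have hdisj : (E : Set Sq).PairwiseDisjoint (dn n) := by
    intro R hR R' hR' hne
    rw [Function.onFun, Finset.disjoint_left]
    intro J hJ hJ'
    rw [mem_dn] at hJ hJ'
    apply hne
    rcases le_total R.1 R'.1 with hle | hle
    · exact (hd R' hR' R hR (Below.chain hJ.2 hJ'.2 hle)).symm
    · exact hd R hR R' hR' (Below.chain hJ'.2 hJ.2 hle)
  rw [hset, Finset.sum_biUnion hdisj]
  have h1 : ∀ R ∈ E, ∑ J ∈ dn n R, w J * g x (ctr i n J) ≤
      9 / 2 * c * (Real.exp (s (ctr i n R) / 40) * g x (ctr i n R)) := by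
    intro R hR
    have hlR := len_pos n R
    have hg := g_pos x (ctr i n R)
    have h2 : ∀ J ∈ dn n R, w J * g x (ctr i n J) ≤
        9 / 2 * (g x (ctr i n R) / len n R) * (w J * len n J) := by
      intro J hJ
      rw [mem_dn] at hJ
      calc w J * g x (ctr i n J) ≤ w J * (9 / 2 * (len n J / len n R) * g x (ctr i n R)) :=
            mul_le_mul_of_nonneg_left (g_dn_le i hJ.2 (hx R hR)) (hw J)
        _ = _ := by ring
    refine (Finset.sum_le_sum h2).trans ?_
    rw [← Finset.mul_sum]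
    calc 9 / 2 * (g x (ctr i n R) / len n R) * ∑ J ∈ dn n R, w J * len n J
        ≤ 9 / 2 * (g x (ctr i n R) / len n R) *
          (c * Real.exp (s (ctr i n R) / 40) * len n R) :=
          mul_le_mul_of_nonneg_left (hm R hR) (by positivity)
      _ = _ := by field_simp
  refine (Finset.sum_le_sum h1).trans ?_
  rw [← Finset.mul_sum]
  calc 9 / 2 * c * ∑ R ∈ E, Real.exp (s (ctr i n R) / 40) * g x (ctr i n R)
      ≤ 9 / 2 * c * (10000 * Real.exp (1 / 40) * (1 - Real.exp (-(39 / 40)))⁻¹ *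
        Real.exp (s x)) :=
        mul_le_mul_of_nonneg_left (anti_sum hs i n x E hE hd) (by positivity)
    _ = _ := by ring

end

end Pool.Agent.Helper65.HP
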