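import Pool.Agent.Helper65.HP.Qma
import Pool.Agent.Helper65.HP.Nea
import Pool.Agent.Helper65.HP.Bal

/-! Module LAB: labels and (R5). -/

set_option autoImplicit false

namespace Pool.Agent.Helper65.HP

open UpperHalfPlane Filter Topology

noncomputable section

namespace LabA

variable {s u : ℍ → ℝ} {i : Bool} {n : ℕ}

theorem wQ_nonneg (M : ℕ) (S : Sq) : 0 ≤ wQ s u i n M S := by
  unfold wQ
  exact Finset.sum_nonneg fun J _ => mul_nonneg (Nat.cast_nonneg _) (len_pos n J).le

open Classical in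
theorem wQ_eq (M : ℕ) (S : Sq) : wQ s u i n M S = ∑ J ∈ all n,
    if clQ s u i n M J = St.N (some S) then (Qf s u i n M J : ℝ) * len n J else 0 := by
  unfold wQ
  rw [Finset.sum_filter]

theorem wQ_le (hs : Tame s) (hu : Tame u) (M : ℕ) {S : Sq} (hS : S ∈ all n) :
    wQ s u i n M S ≤ 3 * len n S := by
  classical
  refine le_trans ?_ (Q_packed hs hu i n M S hS)
  rw [wQ_eq]
  unfold dn
  rw [Finset.sum_filter]
  refine Finset.sum_le_sum fun J _ => ?_
  by_cases h1 : clQ s u i n M J = St.N (some S)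
  · rw [if_pos h1]
    by_cases h2 : Qf s u i n M J = 0
    · rw [h2]; simp
    · obtain ⟨_, S', h3, h4, _⟩ := Q_cut hu h2
      rw [h1] at h3
      injection h3 with h3
      injection h3 with h3
      subst h3
      rw [if_pos h4]
  · rw [if_neg h1]
    split_ifs
    · exact mul_nonneg (Nat.cast_nonneg _) (len_pos n J).le
    · exact le_rfl

/-- sum of the small sides -/
theorem sum_len_le (n : ℕ) (X : ℝ) (hX : 0 < X) (N : ℕ) :
    ∑ m ∈ (Finset.range N).filter (fun m => (2 : ℝ) ^ n / 2 ^ m < X), (2 : ℝ) ^ n / 2 ^ m ≤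
      2 * X := by
  have key : ∀ N : ℕ, ∑ m ∈ (Finset.range N).filter (fun m => (2 : ℝ) ^ n / 2 ^ m < X),
      (2 : ℝ) ^ n / 2 ^ m ≤ max 0 (2 * X - 2 * ((2 : ℝ) ^ n / 2 ^ N)) := by
    intro N
    induction N with
    | zero => simp
    | succ N ih =>
      rw [Finset.range_add_one, Finset.filter_insert]
      have e : (2 : ℝ) ^ n / 2 ^ (N + 1) = (2 : ℝ) ^ n / 2 ^ N / 2 := by
        rw [pow_succ]; field_simp
      rw [e]
      split_ifs with h
      · rw [Finset.sum_insert (by simp)]
        have h1 : max 0 (2 * X - 2 * ((2 : ℝ) ^ n / 2 ^ N)) = 2 * X - 2 * ((2 : ℝ) ^ n / 2 ^ N) :=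
          max_eq_right (by linarith)
        rw [h1] at ih
        refine le_trans ?_ (le_max_right _ _)
        linarith
      · have h1 : max 0 (2 * X - 2 * ((2 : ℝ) ^ n / 2 ^ N)) = 0 :=
          max_eq_left (by linarith)
        rw [h1] at ih
        exact ih.trans (le_max_left _ _)
  refine (key N).trans (max_le (by linarith) ?_)
  have : (0 : ℝ) < 2 ^ n / 2 ^ N := by positivity
  linarith

theorem exp_ten : (45 / 4 : ℝ) ≤ Real.exp 10 := by
  have h1 : (10 : ℝ) + 1 ≤ Real.exp 10 := Real.add_one_le_exp 10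
  have h2 : (5 : ℝ) + 1 ≤ Real.exp 5 := Real.add_one_le_exp 5
  have h3 : Real.exp 10 = Real.exp 5 * Real.exp 5 := by rw [← Real.exp_add]; norm_num
  rw [h3]
  nlinarith

/-- the region in which all squares are `O` -/
theorem reg_O (hs : Tame s) (hu : Tame u) {z : ℍ} (hz : 400 * (u z + 1) ≤ s z) (i : Bool)
    (n : ℕ) (K : Sq) {R : ℝ} (hR : R = Real.exp (30 * (u z + 1)))
    (h1 : |z.re - (ctr i n K).re| ≤ 3 * R * z.im) (h2 : len n K ≤ 3 * R * z.im)
    (h3 : z.im / R ≤ len n K) : sta s u i n K = St.O := by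
  have hu0 : 0 ≤ u z := hu.1 z
  have hRpos : 0 < R := by rw [hR]; exact Real.exp_pos _
  have hR1 : 1 ≤ R := by rw [hR]; exact Real.one_le_exp (by positivity)
  have him : 0 < z.im := z.im_pos
  refine near_O hs hu hz i n K ?_
  have hg := g_in (R := 3 * R) (z := z) (w := ctr i n K) (by linarith) h1 (by rw [ctr_im]; exact h2)
  refine le_trans ?_ hg
  rw [ctr_im]
  have h4 : 1 / R ≤ len n K / z.im := by
    rw [div_le_div_iff₀ hRpos him]
    rw [div_le_iff₀ hRpos] at h3
    linarith
  have h5 : 4 / 5 * (1 / R) / (3 * R) ^ 2 ≤ 4 / 5 * (len n K / z.im) / (3 * R) ^ 2 := by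
    gcongr
  refine le_trans ?_ h5
  have h6 : 4 / 5 * (1 / R) / (3 * R) ^ 2 = 4 / 45 * (R ^ 3)⁻¹ := by
    field_simp; norm_num
  rw [h6]
  have h7 : (R ^ 3)⁻¹ = Real.exp (-(90 * (u z + 1))) := by
    rw [hR, ← Real.exp_nat_mul, ← Real.exp_neg]; congr 1; push_cast; ring
  rw [h7]
  have h8 : Real.exp (-(100 * (u z + 1))) =
      Real.exp (-(90 * (u z + 1))) * Real.exp (-(10 * (u z + 1))) := by
    rw [← Real.exp_add]; congr 1; ring
  rw [h8, mul_comm (4 / 45 : ℝ)]
  refine mul_le_mul_of_nonneg_left ?_ (Real.exp_pos _).le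
  have h9 : Real.exp (-(10 * (u z + 1))) ≤ Real.exp (-10) := by
    apply Real.exp_le_exp.mpr; linarith
  refine h9.trans ?_
  rw [Real.exp_neg]
  have := exp_ten
  rw [inv_le_comm₀ (Real.exp_pos _) (by norm_num)]
  norm_num
  linarith

theorem half_of_ne {n : ℕ} {S K : Sq} (h : Below S K) (hne : S ≠ K) :
    len n S ≤ len n K / 2 := by
  obtain ⟨h1, h2⟩ := Below.par_below h hne
  have h3 := Below.len_le (n := n) h2
  rw [len_par h1] at h3
  linarith

/-- the class of a cut square inside the window is small -/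
theorem inside (hs : Tame s) (hu : Tame u) {z : ℍ} (hz : 400 * (u z + 1) ≤ s z) {R : ℝ}
    (hR : R = Real.exp (30 * (u z + 1)))
    (hsize : ∀ J ∈ all n, len n J < z.im / R →
      ∃ K ∈ all n, Below J K ∧ K ≠ J ∧ z.im / R ≤ len n K ∧ len n K < 2 * (z.im / R) ∧
        ∀ L, Below J L → z.im / R ≤ len n L → Below K L) {M : ℕ} {J : Sq} (hJ : J ∈ all n)
    (hQ : Qf s u i n M J ≠ 0) (hin : |z.re - (ctr i n J).re| + len n J < R * z.im) :
    ∃ S ∈ all n, clQ s u i n M J = St.N (some S) ∧ Below J S ∧ len n S < z.im / R := by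
  have hu0 : 0 ≤ u z := hu.1 z
  have hRpos : 0 < R := by rw [hR]; exact Real.exp_pos _
  have hR1 : 1 ≤ R := by rw [hR]; exact Real.one_le_exp (by positivity)
  have him : 0 < z.im := z.im_pos
  have hRt : 0 < R * z.im := by positivity
  have htR : z.im / R ≤ R * z.im := by
    rw [div_le_iff₀ hRpos]
    nlinarith [mul_le_mul hR1 hR1 zero_le_one hRpos.le]
  obtain ⟨_, S, h1, h2, h3⟩ := Q_cut hu hQ
  refine ⟨S, anc_mem hJ h2, h1, h2, ?_⟩
  have hlJ := len_pos n J
  have habs := abs_nonneg (z.re - (ctr i n J).re)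
  -- the distance to ancestors
  have hdist : ∀ K, Below J K → |z.re - (ctr i n K).re| ≤ |z.re - (ctr i n J).re| +
      (len n K - len n J) / 2 := by
    intro K hK
    have h := below_re i (n := n) hK
    calc |z.re - (ctr i n K).re| = |(z.re - (ctr i n J).re) +
          ((ctr i n J).re - (ctr i n K).re)| := by congr 1; ring
      _ ≤ _ := abs_add_le _ _
      _ ≤ _ := by linarith
  have hlJ' : len n J < z.im / R := by
    by_contra hcon
    push Not at hcon
    have hO : sta s u i n J = St.O := reg_O hs hu hz i n J hR (by nlinarith) (by nlinarith) hcon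
    rcases h3 with ⟨h4, h5⟩ | h5
    · have hb := below_par h4
      have hlp := len_par (n := n) h4
      have hd := hdist _ hb
      have hO' : sta s u i n (par J) = St.O :=
        reg_O hs hu hz i n (par J) hR (by rw [hlp] at hd; nlinarith) (by rw [hlp]; nlinarith)
          (by rw [hlp]; linarith)
      rw [hO'] at h5
      cases h5
    · rw [hO] at h5
      cases h5
  obtain ⟨K, hK, hJK, hne, hK1, hK2, _⟩ := hsize J hJ hlJ'
  have hKO : sta s u i n K = St.O := by
    have hd := hdist K hJK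
    refine reg_O hs hu hz i n K hR ?_ ?_ hK1
    · nlinarith
    · nlinarith
  have hSK : Below S K ∧ S ≠ K := by
    rcases h3 with ⟨h4, h5⟩ | h5
    · obtain ⟨_, h6⟩ := Below.par_below hJK (Ne.symm hne)
      rcases sta_below_O h6 hKO with h7 | ⟨S', h7, h8, h9⟩
      · rw [h7] at h5; cases h5
      · rw [h7] at h5
        injection h5 with h5
        injection h5 with h5
        subst h5
        exact ⟨h8, h9⟩
    · rcases sta_below_O hJK hKO with h7 | ⟨S', h7, h8, h9⟩
      · rw [h7] at h5; cases h5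
      · rw [h7] at h5
        injection h5 with h5
        injection h5 with h5
        subst h5
        exact ⟨h8, h9⟩
  have := half_of_ne (n := n) hSK.1 hSK.2
  linarith

theorem g_le (hs : Tame s) (hu : Tame u) {z : ℍ} (hz : 400 * (u z + 1) ≤ s z) {M : ℕ} {J : Sq}
    (hQ : Qf s u i n M J ≠ 0) : g z (ctr i n J) ≤ 3 / 4 := by
  have hu0 : 0 ≤ u z := hu.1 z
  have hsm : Real.exp (-(100 * (u z + 1))) ≤ 3 / 32 := by
    have h1 : Real.exp (-(100 * (u z + 1))) ≤ Real.exp (-10) := by
      apply Real.exp_le_exp.mpr; nlinarith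
    refine h1.trans ?_
    rw [Real.exp_neg]
    have := exp_ten
    rw [inv_le_comm₀ (Real.exp_pos _) (by norm_num)]
    norm_num
    linarith
  have key : ∀ K S, sta s u i n K = St.N (some S) → g z (ctr i n K) ≤ 3 / 32 := by
    intro K S hK
    by_contra hcon
    push Not at hcon
    have := near_O hs hu hz i n K (hsm.trans hcon.le)
    rw [this] at hK
    cases hK
  obtain ⟨_, S, h1, h2, h3⟩ := Q_cut hu hQ
  rcases h3 with ⟨h4, h5⟩ | h5
  · have h6 := key _ _ h5
    have h7 := g_mul_le z (ctr i n J) (ctr i n (par J))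
    have h8 := g_below i (n := n) (below_par h4)
    rw [len_par h4] at h8
    have hl := len_pos n J
    have h9 : len n J / (2 * len n J) = 1 / 2 := by field_simp
    rw [h9, g_comm] at h8
    have h10 := g_pos z (ctr i n J)
    nlinarith
  · have := key _ _ h5
    linarith

/-- the kernel of generation `m` -/
def kap' (z : ℍ) (n m : ℕ) (d : ℝ) : ℝ := 4 * z.im / (d ^ 2 + (z.im + 2 ^ n / 2 ^ m) ^ 2)

theorem kap'_eq (z : ℍ) (i : Bool) (n : ℕ) (S : Sq) :
    g z (ctr i n S) / len n S = kap' z n S.1 |(ctr i n S).re - z.re| := by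
  unfold g kap'
  rw [ctr_im, sq_abs]
  have hl := len_pos n S
  have him := z.im_pos
  have e : (2 : ℝ) ^ n / 2 ^ S.1 = len n S := rfl
  rw [e]
  have h1 : (0 : ℝ) < (z.re - (ctr i n S).re) ^ 2 + (z.im + len n S) ^ 2 := by positivity
  have h2 : ((ctr i n S).re - z.re) ^ 2 = (z.re - (ctr i n S).re) ^ 2 := by ring
  rw [h2]
  field_simp

theorem kap'_nonneg (z : ℍ) (n m : ℕ) (d : ℝ) : 0 ≤ kap' z n m d := by
  unfold kap'
  have him := z.im_pos
  positivity

theorem kap'_anti (z : ℍ) (n m : ℕ) : AntitoneOn (kap' z n m) (Set.Ici 0) := by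
  intro a ha b hb hab
  unfold kap'
  have him := z.im_pos
  have ha' : (0 : ℝ) ≤ a := ha
  have h1 : (0 : ℝ) < 2 ^ n / 2 ^ m := by positivity
  apply div_le_div_of_nonneg_left (by positivity) (by positivity)
  gcongr

theorem kap'_zero (z : ℍ) (n m : ℕ) : kap' z n m 0 ≤ 4 / z.im := by
  unfold kap'
  have him := z.im_pos
  have h1 : (0 : ℝ) < 2 ^ n / 2 ^ m := by positivity
  rw [div_le_div_iff₀ (by positivity) him]
  nlinarith [sq_nonneg ((2 : ℝ) ^ n / 2 ^ m), mul_pos him h1]

open Classical in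
theorem sum_one_le (𝒯 : Finset Sq) (x : St) (c : ℝ) (hc : 0 ≤ c) :
    ∑ S ∈ 𝒯, (if x = St.N (some S) then c else 0) ≤ c := by
  by_cases h : ∃ S0 ∈ 𝒯, x = St.N (some S0)
  · obtain ⟨S0, h1, h2⟩ := h
    rw [Finset.sum_eq_single S0]
    · rw [if_pos h2]
    · intro S _ hne
      rw [if_neg]
      intro h3
      rw [h2] at h3
      injection h3 with h3
      injection h3 with h3
      exact hne h3.symm
    · intro h3; exact absurd h1 h3
  · push Not at h
    refine le_trans (le_of_eq (Finset.sum_eq_zero fun S hS => if_neg (h S hS))) hc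

theorem pf_Q (hs : Tame s) (hu : Tame u) (M : ℕ) (z : ℍ) : pf i n (Qf s u i n M) z ≤ 1500 := by
  have := pf_le (i := i) (by norm_num : (0 : ℝ) ≤ 3) (Q_packed hs hu i n M) z
  linarith

theorem rst_le (μ : Sq → ℕ) (P : Sq → Prop) (J : Sq) : rst μ P J ≤ μ J := by
  unfold rst
  split_ifs
  · exact le_rfl
  · exact Nat.zero_le _

/-- step F -/
theorem sum_wQ_le (hs : Tame s) (hu : Tame u) (M : ℕ) (z : ℍ) (𝒯 : Finset Sq)
    (h𝒯 : ∀ S ∈ 𝒯, S ∈ all n ∧ len n S ≤ z.im) :
    ∑ S ∈ 𝒯, wQ s u i n M S * (g z (ctr i n S) / len n S) ≤ 3000 := by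
  classical
  have h1 : ∑ S ∈ 𝒯, wQ s u i n M S * (g z (ctr i n S) / len n S) ≤
      ∑ S ∈ 𝒯, ∑ J ∈ all n, if clQ s u i n M J = St.N (some S) then
        2 * ((Qf s u i n M J : ℝ) * g z (ctr i n J)) else 0 := by
    refine Finset.sum_le_sum fun S hS => ?_
    rw [wQ_eq, Finset.sum_mul]
    refine Finset.sum_le_sum fun J _ => ?_
    split_ifs with h2
    · by_cases h3 : Qf s u i n M J = 0
      · rw [h3]; simp
      · obtain ⟨_, S', h4, h5, _⟩ := Q_cut hu h3
        rw [h2] at h4
        injection h4 with h4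
        injection h4 with h4
        subst h4
        have h6 := g_dn_ge i h5 (h𝒯 _ hS).2
        have hl := len_pos n S
        have h7 : (0 : ℝ) ≤ Qf s u i n M J := Nat.cast_nonneg _
        have h8 : (Qf s u i n M J : ℝ) * len n J * (g z (ctr i n S) / len n S) =
            2 * ((Qf s u i n M J : ℝ) * (1 / 2 * (len n J / len n S) * g z (ctr i n S))) := by
          field_simp
        rw [h8]
        gcongr
    · simp
  refine h1.trans ?_
  rw [Finset.sum_comm]
  have h2 : ∑ J ∈ all n, ∑ S ∈ 𝒯, (if clQ s u i n M J = St.N (some S) then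
        2 * ((Qf s u i n M J : ℝ) * g z (ctr i n J)) else 0) ≤
      ∑ J ∈ all n, 2 * ((Qf s u i n M J : ℝ) * g z (ctr i n J)) := by
    refine Finset.sum_le_sum fun J _ => sum_one_le 𝒯 _ _ ?_
    have := g_pos z (ctr i n J)
    positivity
  refine h2.trans ?_
  rw [← Finset.mul_sum]
  have h3 := pf_Q (i := i) (n := n) hs hu M z
  unfold pf at h3
  linarith

/-- one generation -/
theorem gen_le {lab : ℕ → Sq → ℕ} (hlab : IsLab s u i n lab) (M v : ℕ) (z : ℍ) {m : ℕ}
    (hm : m ≤ 2 * n) :
    ∑ S ∈ ((all n).filter fun S => S.1 = m).filter (fun S => lab M S = v),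
      wQ s u i n M S * kap' z n m |(ctr i n S).re - z.re| ≤
    2 / 4 ^ M * ∑ S ∈ (all n).filter (fun S => S.1 = m),
      wQ s u i n M S * kap' z n m |(ctr i n S).re - z.re| +
      18 * (2 ^ n / 2 ^ m) * (4 / z.im) := by
  classical
  have h0 : (0 : ℝ) < 2 ^ n / 2 ^ m := by positivity
  have hmain := kernel_of_interval ((all n).filter fun S => S.1 = m)
    (fun S => (ctr i n S).re) (fun S => wQ s u i n M S) (fun S => lab M S = v) (2 / 4 ^ M)
    (18 * (2 ^ n / 2 ^ m)) (fun S _ => wQ_nonneg M S) (by positivity) ?_ (kap' z n m)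
    (kap'_anti z n m) (fun d _ => kap'_nonneg z n m d) z.re
  · refine le_trans (le_of_eq ?_) (hmain.trans ?_)
    · refine Finset.sum_congr ?_ fun _ _ => rfl
      ext S
      simp only [Finset.mem_filter]
    · gcongr
      exact kap'_zero z n m
  · intro lo hi
    have h1 := (hlab M).2 m v lo hi hm
    rw [Finset.filter_filter, Finset.filter_filter]
    refine le_trans (le_of_eq ?_) (h1.trans (le_of_eq ?_))
    · refine Finset.sum_congr ?_ fun _ _ => rfl
      ext S
      simp only [Finset.mem_filter]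
    · refine congrArg₂ _ (congrArg₂ _ rfl ?_) rfl
      refine Finset.sum_congr ?_ fun _ _ => rfl
      ext S
      simp only [Finset.mem_filter]

/-- the inner part -/
theorem inner_sum (hs : Tame s) (hu : Tame u) {z : ℍ} (hz : 400 * (u z + 1) ≤ s z) {R : ℝ}
    (hR : R = Real.exp (30 * (u z + 1)))
    (hsize : ∀ J ∈ all n, len n J < z.im / R →
      ∃ K ∈ all n, Below J K ∧ K ≠ J ∧ z.im / R ≤ len n K ∧ len n K < 2 * (z.im / R) ∧
        ∀ L, Below J L → z.im / R ≤ len n L → Below K L)
    {lab : ℕ → Sq → ℕ} (hlab : IsLab s u i n lab) (M v : ℕ) (F : Finset Sq) (hF : F ⊆ all n)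
    (hin : ∀ J ∈ F, |z.re - (ctr i n J).re| + len n J < R * z.im) :
    ∑ J ∈ F, ((rst (Qf s u i n M) fun J => ∃ S, clQ s u i n M J = St.N (some S) ∧
      lab M S = v) J : ℝ) * g z (ctr i n J) ≤ 27000 / 4 ^ M + 648 / R := by
  classical
  have hu0 : 0 ≤ u z := hu.1 z
  have hRpos : 0 < R := by rw [hR]; exact Real.exp_pos _
  have hR1 : 1 ≤ R := by rw [hR]; exact Real.one_le_exp (by positivity)
  have him : 0 < z.im := z.im_pos
  have htR : z.im / R ≤ z.im := div_le_self him.le hR1
  set 𝒮 : Finset Sq := (all n).filter fun S => lab M S = v ∧ len n S < z.im / R with h𝒮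
  -- step A, B
  have hA : ∑ J ∈ F, ((rst (Qf s u i n M) fun J => ∃ S, clQ s u i n M J = St.N (some S) ∧
      lab M S = v) J : ℝ) * g z (ctr i n J) ≤
      ∑ S ∈ 𝒮, 9 / 2 * (wQ s u i n M S * (g z (ctr i n S) / len n S)) := by
    have h1 : ∀ S, 9 / 2 * (wQ s u i n M S * (g z (ctr i n S) / len n S)) =
        ∑ J ∈ all n, if clQ s u i n M J = St.N (some S) then (Qf s u i n M J : ℝ) *
          (9 / 2 * (len n J / len n S) * g z (ctr i n S)) else 0 := by
      intro S
      rw [wQ_eq, Finset.sum_mul, Finset.mul_sum]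
      refine Finset.sum_congr rfl fun J _ => ?_
      split_ifs
      · have hl := len_pos n S
        field_simp
      · simp
    simp_rw [h1]
    rw [Finset.sum_comm]
    refine le_trans ?_ (Finset.sum_le_sum_of_subset_of_nonneg hF ?_)
    · refine Finset.sum_le_sum fun J hJ => ?_
      by_cases h2 : (rst (Qf s u i n M) fun J => ∃ S, clQ s u i n M J = St.N (some S) ∧
          lab M S = v) J = 0
      · rw [h2]
        simp only [Nat.cast_zero, zero_mul]
        refine Finset.sum_nonneg fun S _ => ?_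
        split_ifs
        · have := g_pos z (ctr i n S)
          have := len_pos n S
          have := len_pos n J
          positivity
        · exact le_rfl
      · have h3 : (∃ S, clQ s u i n M J = St.N (some S) ∧ lab M S = v) ∧
            Qf s u i n M J ≠ 0 := by
          unfold rst at h2
          split_ifs at h2 with h4
          · exact ⟨h4, h2⟩
          · exact absurd rfl h2
        obtain ⟨⟨S', h4, h5⟩, h6⟩ := h3
        obtain ⟨S, h7, h8, h9, h10⟩ := inside hs hu hz hR hsize (hF hJ) h6 (hin J hJ)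
        have h11 : S' = S := by
          rw [h8] at h4
          injection h4 with h4
          injection h4 with h4
          exact h4.symm
        subst h11
        have hmem : S' ∈ 𝒮 := by
          rw [h𝒮, Finset.mem_filter]
          exact ⟨h7, h5, h10⟩
        refine le_trans ?_ (Finset.single_le_sum (f := fun S => if clQ s u i n M J =
          St.N (some S) then (Qf s u i n M J : ℝ) *
          (9 / 2 * (len n J / len n S) * g z (ctr i n S)) else 0) ?_ hmem)
        · simp only [h8, if_true]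
          have h12 := g_dn_le i h9 (h10.le.trans htR)
          have h13 : ((rst (Qf s u i n M) fun J => ∃ S, clQ s u i n M J = St.N (some S) ∧
              lab M S = v) J : ℝ) ≤ Qf s u i n M J := by exact_mod_cast rst_le _ _ J
          have h14 := g_pos z (ctr i n J)
          calc _ ≤ (Qf s u i n M J : ℝ) * g z (ctr i n J) := by gcongr
            _ ≤ _ := by gcongr
        · intro S _
          split_ifs
          · have := g_pos z (ctr i n S)
            have := len_pos n S
            have := len_pos n J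
            positivity
          · exact le_rfl
    · intro J _ _
      refine Finset.sum_nonneg fun S _ => ?_
      split_ifs
      · have := g_pos z (ctr i n S)
        have := len_pos n S
        have := len_pos n J
        positivity
      · exact le_rfl
  refine hA.trans ?_
  rw [← Finset.mul_sum]
  set 𝒢 : Finset ℕ := (Finset.range (2 * n + 1)).filter fun m => (2 : ℝ) ^ n / 2 ^ m < z.im / R
    with h𝒢
  -- step C
  have hC : ∑ S ∈ 𝒮, wQ s u i n M S * (g z (ctr i n S) / len n S) =
      ∑ m ∈ 𝒢, ∑ S ∈ ((all n).filter fun S => S.1 = m).filter (fun S => lab M S = v),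
        wQ s u i n M S * kap' z n m |(ctr i n S).re - z.re| := by
    rw [← Finset.sum_fiberwise_of_maps_to (s := 𝒮) (t := 𝒢) (g := fun S : Sq => S.1)]
    · refine Finset.sum_congr rfl fun m hm => ?_
      rw [h𝒢, Finset.mem_filter] at hm
      refine Finset.sum_congr ?_ ?_
      · ext S
        simp only [h𝒮, Finset.mem_filter]
        constructor
        · rintro ⟨⟨h1, h2, _⟩, h3⟩
          exact ⟨⟨h1, h3⟩, h2⟩
        · rintro ⟨⟨h1, h3⟩, h2⟩
          refine ⟨⟨h1, h2, ?_⟩, h3⟩
          unfold len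
          rw [h3]
          exact hm.2
      · intro S hS
        simp only [Finset.mem_filter] at hS
        rw [kap'_eq, hS.1.2]
    · intro S hS
      simp only [h𝒮, Finset.mem_filter] at hS
      rw [h𝒢, Finset.mem_filter, Finset.mem_range]
      refine ⟨?_, hS.2.2⟩
      have := (mem_all.mp hS.1).1
      show S.1 < 2 * n + 1
      omega
  -- step F
  have hFF : ∑ m ∈ 𝒢, ∑ S ∈ (all n).filter (fun S => S.1 = m),
      wQ s u i n M S * kap' z n m |(ctr i n S).re - z.re| ≤ 3000 := by
    have h1 : ∑ m ∈ 𝒢, ∑ S ∈ (all n).filter (fun S => S.1 = m),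
        wQ s u i n M S * kap' z n m |(ctr i n S).re - z.re| =
        ∑ S ∈ (all n).filter (fun S => S.1 ∈ 𝒢),
          wQ s u i n M S * (g z (ctr i n S) / len n S) := by
      rw [← Finset.sum_fiberwise_of_maps_to (s := (all n).filter (fun S => S.1 ∈ 𝒢)) (t := 𝒢)
        (g := fun S : Sq => S.1)]
      · refine Finset.sum_congr rfl fun m hm => ?_
        refine Finset.sum_congr ?_ ?_
        · ext S
          simp only [Finset.mem_filter]
          constructor
          · rintro ⟨h1, h2⟩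
            exact ⟨⟨h1, by rw [h2]; exact hm⟩, h2⟩
          · rintro ⟨⟨h1, _⟩, h2⟩
            exact ⟨h1, h2⟩
        · intro S hS
          simp only [Finset.mem_filter] at hS
          rw [kap'_eq, hS.2]
      · intro S hS
        simp only [Finset.mem_filter] at hS
        exact hS.2
    rw [h1]
    refine sum_wQ_le hs hu M z _ ?_
    intro S hS
    simp only [Finset.mem_filter, h𝒢] at hS
    exact ⟨hS.1, hS.2.2.le.trans htR⟩
  have hE : ∑ m ∈ 𝒢, 18 * ((2 : ℝ) ^ n / 2 ^ m) * (4 / z.im) ≤ 144 / R := by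
    rw [← Finset.sum_mul, ← Finset.mul_sum]
    have h1 := sum_len_le n (z.im / R) (by positivity) (2 * n + 1)
    calc (18 * ∑ m ∈ 𝒢, (2 : ℝ) ^ n / 2 ^ m) * (4 / z.im)
        ≤ (18 * (2 * (z.im / R))) * (4 / z.im) := by
          refine mul_le_mul_of_nonneg_right ?_ (by positivity)
          exact mul_le_mul_of_nonneg_left h1 (by norm_num)
      _ = 144 / R := by field_simp; norm_num
  have hD : ∑ m ∈ 𝒢, ∑ S ∈ ((all n).filter fun S => S.1 = m).filter (fun S => lab M S = v),
        wQ s u i n M S * kap' z n m |(ctr i n S).re - z.re| ≤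
      2 / 4 ^ M * 3000 + 144 / R := by
    calc _ ≤ ∑ m ∈ 𝒢, (2 / 4 ^ M * ∑ S ∈ (all n).filter (fun S => S.1 = m),
          wQ s u i n M S * kap' z n m |(ctr i n S).re - z.re| +
          18 * ((2 : ℝ) ^ n / 2 ^ m) * (4 / z.im)) := by
          refine Finset.sum_le_sum fun m hm => gen_le hlab M v z ?_
          rw [h𝒢, Finset.mem_filter, Finset.mem_range] at hm
          omega
      _ = 2 / 4 ^ M * ∑ m ∈ 𝒢, ∑ S ∈ (all n).filter (fun S => S.1 = m),
          wQ s u i n M S * kap' z n m |(ctr i n S).re - z.re| +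
          ∑ m ∈ 𝒢, 18 * ((2 : ℝ) ^ n / 2 ^ m) * (4 / z.im) := by
          rw [Finset.sum_add_distrib, Finset.mul_sum]
      _ ≤ _ := by gcongr
  rw [hC]
  calc _ ≤ 9 / 2 * (2 / 4 ^ M * 3000 + 144 / R) := by gcongr
    _ = _ := by ring

end LabA

theorem exists_lab {s u : ℍ → ℝ} (hs : Tame s) (hu : Tame u) (i : Bool) (n : ℕ) :
    ∃ lab : ℕ → Sq → ℕ, IsLab s u i n lab := by
  classical
  have hb : ∀ M m : ℕ, ∃ l : Sq → ℕ, (∀ S, l S < 4 ^ M) ∧ ∀ (v : ℕ) (lo hi : ℝ),
      ∑ S ∈ ((all n).filter fun S => S.1 = m).filter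
        (fun S => l S = v ∧ lo ≤ (ctr i n S).re ∧ (ctr i n S).re ≤ hi), wQ s u i n M S ≤
      2 / (4 ^ M : ℕ) * ∑ S ∈ ((all n).filter fun S => S.1 = m).filter
        (fun S => lo ≤ (ctr i n S).re ∧ (ctr i n S).re ≤ hi), wQ s u i n M S +
      6 * (3 * (2 ^ n / 2 ^ m)) := by
    intro M m
    refine balance ((all n).filter fun S => S.1 = m) (fun S => (ctr i n S).re)
      (fun S => wQ s u i n M S) (3 * (2 ^ n / 2 ^ m)) (4 ^ M) (by positivity) (by positivity) ?_
    intro S hS
    rw [Finset.mem_filter] at hS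
    refine ⟨LabA.wQ_nonneg M S, (LabA.wQ_le hs hu M hS.1).trans (le_of_eq ?_)⟩
    unfold len
    rw [hS.2]
  choose l hl1 hl2 using hb
  refine ⟨fun M S => l M S.1 S, fun M => ⟨fun S => hl1 M S.1 S, ?_⟩⟩
  intro m v a b _
  have h := hl2 M m v a b
  rw [Finset.filter_filter, Finset.filter_filter] at h
  push_cast at h
  have e1 : ∑ S ∈ (all n).filter (fun S => S.1 = m ∧ l M S.1 S = v ∧ a ≤ (ctr i n S).re ∧
      (ctr i n S).re ≤ b), wQ s u i n M S = ∑ S ∈ (all n).filter (fun S => S.1 = m ∧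
        (l M m S = v ∧ a ≤ (ctr i n S).re ∧ (ctr i n S).re ≤ b)), wQ s u i n M S := by
    refine Finset.sum_congr ?_ fun _ _ => rfl
    ext S
    simp only [Finset.mem_filter]
    constructor
    · rintro ⟨h1, h2, h3⟩
      rw [h2] at h3
      exact ⟨h1, h2, h3⟩
    · rintro ⟨h1, h2, h3⟩
      refine ⟨h1, h2, ?_⟩
      rw [h2]
      exact h3
  have e2 : (6 : ℝ) * (3 * (2 ^ n / 2 ^ m)) = 18 * (2 ^ n / 2 ^ m) := by ring
  rw [e2] at h
  refine le_trans (le_of_eq ?_) (h.trans (le_of_eq ?_))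
  · refine Eq.trans ?_ e1
    refine Finset.sum_congr ?_ fun _ _ => rfl
    ext S
    simp only [Finset.mem_filter]
  · have e3 : ∑ S ∈ (all n).filter (fun S => S.1 = m ∧ a ≤ (ctr i n S).re ∧
        (ctr i n S).re ≤ b), wQ s u i n M S = ∑ S ∈ (all n).filter (fun S => S.1 = m ∧
        (a ≤ (ctr i n S).re ∧ (ctr i n S).re ≤ b)), wQ s u i n M S := rfl
    refine congrArg₂ _ (congrArg₂ _ rfl ?_) rfl
    refine Finset.sum_congr ?_ fun _ _ => rfl
    ext S
    simp only [Finset.mem_filter]

/-- (R5) -/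
theorem R5 : ∃ C > 0, ∀ s u : ℍ → ℝ, Tame s → Tame u → ∀ (i : Bool) (z : ℍ),
    400 * (u z + 1) ≤ s z → ∀ᶠ n in atTop, ∀ lab : ℕ → Sq → ℕ, IsLab s u i n lab →
    ∀ M : ℕ, 1 ≤ M →
    (∀ v, pf i n (rst (Qf s u i n M) fun J => ∃ S, clQ s u i n M J = St.N (some S) ∧
      lab M S = v) z ≤ C / 4 ^ M) ∧
    ∀ J ∈ all n, Qf s u i n M J ≠ 0 → g z (ctr i n J) ≤ 3 / 4 := by
  classical
  refine ⟨50000, by norm_num, ?_⟩
  intro s u hs hu i z hz
  obtain ⟨R, hR⟩ : ∃ R, R = Real.exp (30 * (u z + 1)) := ⟨_, rfl⟩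
  have hu0 : 0 ≤ u z := hu.1 z
  have hRpos : 0 < R := by rw [hR]; exact Real.exp_pos _
  have hR1 : 1 ≤ R := by rw [hR]; exact Real.one_le_exp (by positivity)
  have him := z.im_pos
  filter_upwards [exists_size (z.im / R) (by positivity)] with n hsize
  intro lab hlab M hM
  refine ⟨fun v => ?_, fun J hJ hQ => LabA.g_le hs hu hz hQ⟩
  set μ : Sq → ℕ := rst (Qf s u i n M) fun J => ∃ S, clQ s u i n M J = St.N (some S) ∧
      lab M S = v with hμ
  have hμQ : ∀ J, μ J ≤ Qf s u i n M J := fun J => LabA.rst_le _ _ J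
  have hpf : ∀ w, pf i n μ w ≤ 1500 := fun w =>
    (pf_mono (fun J _ => hμQ J) w).trans (LabA.pf_Q hs hu M w)
  rcases le_or_gt (u z) (2 * M) with hUM | hUM
  · have h1 := Tame.fam hu (i := i) (n := n) (μ := μ) (A := 1500) (a := 4 * M + 6) (by norm_num)
      hpf (fun J _ hJ => (Q_cut hu (fun h => hJ (Nat.le_zero.mp (h ▸ hμQ J)))).1) z
    refine h1.trans ?_
    have h2 : Real.exp (u z - (4 * M + 6)) ≤ 1 / 4 ^ M := by
      have h3 : Real.exp (u z - (4 * M + 6)) ≤ Real.exp (-(2 * M)) := by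
        apply Real.exp_le_exp.mpr; linarith
      refine h3.trans ?_
      have h4 : (4 : ℝ) ≤ Real.exp 2 := by
        have h5 : (1 : ℝ) + 1 ≤ Real.exp 1 := Real.add_one_le_exp 1
        have h6 : Real.exp 2 = Real.exp 1 * Real.exp 1 := by rw [← Real.exp_add]; norm_num
        rw [h6]; nlinarith
      have h7 : Real.exp (-(2 * M)) = 1 / Real.exp 2 ^ M := by
        rw [Real.exp_neg, ← Real.exp_nat_mul, one_div, mul_comm]
      rw [h7]
      gcongr
    calc 20 * 1500 * Real.exp (u z - (4 * M + 6)) ≤ 20 * 1500 * (1 / 4 ^ M) := by gcongr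
      _ ≤ 50000 / 4 ^ M := by
        rw [mul_one_div]
        gcongr
        norm_num
  · -- the sum is split
    have hRM : (4 : ℝ) ^ M ≤ R := by
      have h4 : (4 : ℝ) ≤ Real.exp 30 := by
        have h5 : (30 : ℝ) + 1 ≤ Real.exp 30 := Real.add_one_le_exp 30
        linarith
      have hM0 : (0 : ℝ) ≤ M := Nat.cast_nonneg _
      calc (4 : ℝ) ^ M ≤ Real.exp 30 ^ M := by gcongr
        _ = Real.exp (M * 30) := by rw [← Real.exp_nat_mul]
        _ ≤ R := by
          rw [hR]
          apply Real.exp_le_exp.mpr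
          nlinarith
    obtain ⟨z', hz1, hz2⟩ : ∃ z' : ℍ, z'.re = z.re ∧ z'.im = R * z.im :=
      ⟨⟨⟨z.re, R * z.im⟩, by positivity⟩, rfl, rfl⟩
    have hsplit : pf i n μ z = ∑ J ∈ (all n).filter (fun J =>
          |z.re - (ctr i n J).re| + len n J < R * z.im), (μ J : ℝ) * g z (ctr i n J) +
        ∑ J ∈ (all n).filter (fun J => ¬ |z.re - (ctr i n J).re| + len n J < R * z.im),
          (μ J : ℝ) * g z (ctr i n J) := by
      unfold pf
      rw [Finset.sum_filter_add_sum_filter_not]
    rw [hsplit]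
    have h1 := LabA.inner_sum hs hu hz hR hsize hlab M v ((all n).filter (fun J =>
          |z.re - (ctr i n J).re| + len n J < R * z.im)) (Finset.filter_subset _ _)
          (fun J hJ => (Finset.mem_filter.mp hJ).2)
    have h2 : ∑ J ∈ (all n).filter (fun J => ¬ |z.re - (ctr i n J).re| + len n J < R * z.im),
          (μ J : ℝ) * g z (ctr i n J) ≤ 12000 / R := by
      calc _ ≤ ∑ J ∈ (all n).filter (fun J => ¬ |z.re - (ctr i n J).re| + len n J < R * z.im),
          8 / R * ((μ J : ℝ) * g z' (ctr i n J)) := by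
            refine Finset.sum_le_sum fun J hJ => ?_
            have h3 := (Finset.mem_filter.mp hJ).2
            push Not at h3
            have h4 := g_far hR1 (w := ctr i n J) (by rw [ctr_im]; exact h3) hz1 hz2
            calc (μ J : ℝ) * g z (ctr i n J) ≤ (μ J : ℝ) * (8 / R * g z' (ctr i n J)) := by
                  gcongr
              _ = _ := by ring
        _ ≤ ∑ J ∈ all n, 8 / R * ((μ J : ℝ) * g z' (ctr i n J)) := by
            refine Finset.sum_le_sum_of_subset_of_nonneg (Finset.filter_subset _ _) ?_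
            intro J _ _
            have := g_pos z' (ctr i n J)
            positivity
        _ = 8 / R * pf i n μ z' := by rw [← Finset.mul_sum]; rfl
        _ ≤ 8 / R * 1500 := by
            have := hpf z'
            gcongr
        _ = _ := by ring
    have h5 : 1 / R ≤ 1 / 4 ^ M := by gcongr
    have h6 : (648 : ℝ) / R = 648 * (1 / R) := by ring
    have h7 : (12000 : ℝ) / R = 12000 * (1 / R) := by ring
    have h8 : (27000 : ℝ) / 4 ^ M = 27000 * (1 / 4 ^ M) := by ring
    have h9 : (50000 : ℝ) / 4 ^ M = 50000 * (1 / 4 ^ M) := by ring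
    have h10 : (0 : ℝ) < 1 / 4 ^ M := by positivity
    rw [h6, h8] at h1
    rw [h7] at h2
    rw [h9]
    linarith

end

end Pool.Agent.Helper65.HP
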