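import Pool.Agent.Helper65.HP.Ult

/-! Module NZ: an ultralimit of Blaschke products with bounded potentials at `z` is not small
near `z`. -/

set_option autoImplicit false

namespace Pool.Agent.Helper65.HP

open Filter Topology UpperHalfPlane

noncomputable section

namespace Nz

/-- horizontal translates -/
def tr (z : ℍ) (s : ℝ) : ℍ := ⟨⟨z.re + s * z.im, z.im⟩, z.im_pos⟩

theorem tr_re (z : ℍ) (s : ℝ) : (tr z s).re = z.re + s * z.im := rfl

theorem tr_im (z : ℍ) (s : ℝ) : (tr z s).im = z.im := rfl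

theorem g_tr (z : ℍ) {s : ℝ} (h0 : 0 ≤ s) (h1 : s ≤ 1) : 3 / 4 ≤ g z (tr z s) := by
  have hy := z.im_pos
  unfold g
  rw [tr_re, tr_im, le_div_iff₀ (by positivity)]
  have h2 : (z.re - (z.re + s * z.im)) ^ 2 ≤ z.im ^ 2 := by
    have : z.re - (z.re + s * z.im) = -(s * z.im) := by ring
    rw [this, neg_sq]
    refine pow_le_pow_left₀ (by positivity) ?_ 2
    nlinarith
  nlinarith

/-- separation -/
theorem sep {z w : ℍ} {s s' d : ℝ} (hd : 0 < d) (hd1 : d ≤ 1 / 144)
    (h : 36 * d ≤ (s - s') ^ 2) (h1 : 1 - d < g (tr z s) w) (h2 : 1 - d < g (tr z s') w) :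
    False := by
  have hy := z.im_pos
  have hv := w.im_pos
  have key : ∀ r : ℝ, 1 - d < g (tr z r) w → (z.re + r * z.im - w.re) ^ 2 < 9 * d * z.im ^ 2 := by
    intro r hr
    unfold g at hr
    rw [tr_re, tr_im, lt_div_iff₀ (by positivity)] at hr
    set N := (z.re + r * z.im - w.re) ^ 2 with hN
    have hN0 : 0 ≤ N := by positivity
    have h3 : (1 - d) * (N + (z.im - w.im) ^ 2) < 4 * d * (z.im * w.im) := by
      nlinarith
    have h4 : (z.im - w.im) ^ 2 < z.im * w.im / 2 := by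
      have h5 : (143 / 144) * (N + (z.im - w.im) ^ 2) ≤ (1 - d) * (N + (z.im - w.im) ^ 2) :=
        mul_le_mul_of_nonneg_right (by linarith) (by positivity)
      have h6 : 4 * d * (z.im * w.im) ≤ 4 / 144 * (z.im * w.im) :=
        mul_le_mul_of_nonneg_right (by linarith) (by positivity)
      nlinarith [mul_pos hy hv]
    have h5 : w.im < 2 * z.im := by
      by_contra hcon
      push Not at hcon
      nlinarith
    have h6 : (1 - d) * N < 8 * d * z.im ^ 2 := by
      have h7 : (1 - d) * N ≤ (1 - d) * (N + (z.im - w.im) ^ 2) :=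
        mul_le_mul_of_nonneg_left (by nlinarith [sq_nonneg (z.im - w.im)]) (by linarith)
      have h8 : 4 * d * (z.im * w.im) ≤ 4 * d * (z.im * (2 * z.im)) :=
        mul_le_mul_of_nonneg_left (mul_le_mul_of_nonneg_left h5.le hy.le) (by positivity)
      nlinarith
    have h7 : (143 / 144) * N ≤ (1 - d) * N := mul_le_mul_of_nonneg_right (by linarith) hN0
    have h8 : 0 < d * z.im ^ 2 := by positivity
    nlinarith
  have k1 := key s h1
  have k2 := key s' h2
  have h3 : (s - s') ^ 2 * z.im ^ 2 ≤ 2 * (z.re + s * z.im - w.re) ^ 2 +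
      2 * (z.re + s' * z.im - w.re) ^ 2 := by
    nlinarith [sq_nonneg ((z.re + s * z.im - w.re) + (z.re + s' * z.im - w.re))]
  have h4 : 36 * d * z.im ^ 2 ≤ (s - s') ^ 2 * z.im ^ 2 :=
    mul_le_mul_of_nonneg_right h (by positivity)
  linarith

end Nz

open Nz in
theorem near_nonzero (Ψ : ℝ) : ∃ K > 0, ∀ (W : ℕ → Multiset ℍ) (F : ℍ → ℂ) (z : ℍ),
    UL (fun n => Bl (W n)) F → (∀ᶠ n in (hyperfilter ℕ : Filter ℕ), pot (W n) z ≤ Ψ) →
    ∃ ζ, 3 / 4 ≤ g z ζ ∧ Real.exp (-K) ≤ ‖F ζ‖ := by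
  classical
  set P : ℝ := max Ψ 1 with hP
  have hP1 : 1 ≤ P := le_max_right _ _
  set q : ℕ := ⌊8 * P⌋₊ with hq
  have hqR : (0 : ℝ) < (q : ℝ) + 1 := by positivity
  set d : ℝ := 1 / (144 * ((q : ℝ) + 1) ^ 2) with hd
  have hd0 : 0 < d := by positivity
  have hd1 : d ≤ 1 / 144 := by
    rw [hd]
    apply one_div_le_one_div_of_le (by norm_num)
    nlinarith [(Nat.cast_nonneg q : (0 : ℝ) ≤ q)]
  set t : ℝ := 1 - d with ht
  have ht0 : 0 < t := by rw [ht]; linarith
  have ht1 : t < 1 := by rw [ht]; linarith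
  set K' : ℝ := -Real.log (1 - t) / t with hK'
  have hK : -Real.log (1 - t) ≤ K' * t := by rw [hK', div_mul_cancel₀ _ ht0.ne']
  have hK0 : 0 ≤ K' := by
    rw [hK']
    have := Real.log_nonpos (by linarith : (0 : ℝ) ≤ 1 - t) (by linarith)
    exact div_nonneg (by linarith) ht0.le
  let s : Fin (q + 1) → ℝ := fun i => (i : ℝ) / (2 * (q + 1))
  have hs0 : ∀ i, 0 ≤ s i := fun i => by simp only [s]; positivity
  have hs1 : ∀ i, s i ≤ 1 := by
    intro i
    simp only [s]
    rw [div_le_one (by positivity)]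
    have : (i : ℝ) ≤ q := by exact_mod_cast Nat.lt_succ_iff.1 i.2
    linarith
  have hsep : ∀ i j, i ≠ j → 36 * d ≤ (s i - s j) ^ 2 := by
    intro i j hij
    have h1 : (1 : ℝ) ≤ ((i : ℝ) - (j : ℝ)) ^ 2 := by
      have h2 : ((i : ℕ) : ℤ) - ((j : ℕ) : ℤ) ≠ 0 := by
        intro h
        apply hij
        apply Fin.ext
        omega
      have h3 : (1 : ℤ) ≤ (((i : ℕ) : ℤ) - ((j : ℕ) : ℤ)) ^ 2 := by
        have := sq_pos_of_ne_zero h2
        omega
      exact_mod_cast h3
    have h4 : (s i - s j) ^ 2 = ((i : ℝ) - (j : ℝ)) ^ 2 * (36 * d) := by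
      simp only [s, hd]
      field_simp
      ring
    rw [h4]
    nlinarith
  refine ⟨K' * (16 / 3 * P) / 2 + 1, by positivity, fun W F z hU hp => ?_⟩
  have hex : ∀ᶠ n in (hyperfilter ℕ : Filter ℕ), ∃ i : Fin (q + 1),
      Real.exp (-(K' * (16 / 3 * P) / 2 + 1)) ≤ ‖Bl (W n) (tr z (s i))‖ := by
    filter_upwards [hp] with n hn
    set V := (W n).filter (fun w => 1 / 8 ≤ g z w) with hV
    have hcard : V.card ≤ q := by
      rw [hq]
      apply Nat.le_floor
      have h1 : V.card • (1 / 8 : ℝ) ≤ (V.map fun w => g z w).sum := by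
        have := Multiset.card_nsmul_le_sum (s := V.map fun w => g z w) (a := 1 / 8) (by
          intro x hx
          obtain ⟨w, hw, rfl⟩ := Multiset.mem_map.1 hx
          exact (Multiset.mem_filter.1 hw).2)
        simpa using this
      have h2 : pot V z ≤ pot (W n) z := pot_mono (Multiset.filter_le _ _) z
      unfold pot at h2
      rw [nsmul_eq_mul] at h1
      have h3 : Ψ ≤ P := le_max_left _ _
      have h4 : ((W n).map fun w => g z w).sum ≤ Ψ := hn
      linarith
    have h1 : ∃ i : Fin (q + 1), ∀ w ∈ V, g (tr z (s i)) w ≤ 1 - d := by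
      by_contra hcon
      push Not at hcon
      choose w hw hw2 using hcon
      have hinj : Function.Injective w := by
        intro i j hij
        by_contra hne
        exact sep hd0 hd1 (hsep i j hne) (hw2 i) (by rw [hij]; exact hw2 j)
      have h2 : (Finset.univ.image w).card = q + 1 := by
        rw [Finset.card_image_of_injective _ hinj]
        simp
      have h3 : Finset.univ.image w ⊆ V.toFinset := by
        intro x hx
        obtain ⟨i, -, rfl⟩ := Finset.mem_image.1 hx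
        exact Multiset.mem_toFinset.2 (hw i)
      have h4 := Finset.card_le_card h3
      have h5 := Multiset.toFinset_card_le V
      omega
    obtain ⟨i, hi⟩ := h1
    have h34 := g_tr z (hs0 i) (hs1 i)
    refine ⟨i, ?_⟩
    have hall : ∀ w ∈ W n, g (tr z (s i)) w ≤ t := by
      intro w hw
      by_cases hwV : 1 / 8 ≤ g z w
      · exact hi w (Multiset.mem_filter.2 ⟨hw, hwV⟩)
      · push Not at hwV
        have h2 := g_near (z := tr z (s i)) (z' := z) (a := 3 / 4) (by norm_num)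
          (by rw [g_comm]; exact h34) w
        have h3 : (2 : ℝ) / 3 ≤ t := by rw [ht]; linarith
        linarith
    have h2 := Bl_ge ht0 ht1 hK hall
    have h3 : pot (W n) (tr z (s i)) ≤ 16 / 3 * P := by
      have h4 := pot_near (z := tr z (s i)) (z' := z) (by rw [g_comm]; exact h34) (W n)
      have h5 : Ψ ≤ P := le_max_left _ _
      linarith
    have h4 : Real.exp (-(K' * (16 / 3 * P) / 2 + 1)) ^ 2 ≤ ‖Bl (W n) (tr z (s i))‖ ^ 2 := by
      refine le_trans ?_ h2
      rw [← Real.exp_nat_mul]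
      refine Real.exp_le_exp.2 ?_
      push_cast
      nlinarith [mul_le_mul_of_nonneg_left h3 hK0]
    exact le_of_sq_le_sq h4 (norm_nonneg _)
  have hex2 : ∃ i : Fin (q + 1), ∀ᶠ n in (hyperfilter ℕ : Filter ℕ),
      Real.exp (-(K' * (16 / 3 * P) / 2 + 1)) ≤ ‖Bl (W n) (tr z (s i))‖ := by
    by_contra hcon
    push Not at hcon
    have h1 : ∀ i : Fin (q + 1), ∀ᶠ n in (hyperfilter ℕ : Filter ℕ),
        ¬ Real.exp (-(K' * (16 / 3 * P) / 2 + 1)) ≤ ‖Bl (W n) (tr z (s i))‖ :=
      fun i => (hcon i).mono fun n hn => not_le.2 hn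
    have h2 := eventually_all.2 h1
    obtain ⟨n, hn1, hn2⟩ := (hex.and h2).exists
    obtain ⟨i, hi⟩ := hn1
    exact hn2 i hi
  obtain ⟨i, hi⟩ := hex2
  exact ⟨tr z (s i), g_tr z (hs0 i) (hs1 i), UL.le_norm hU hi⟩

end

end Pool.Agent.Helper65.HP
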