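import Pool.Agent.Helper65.HP.Nea

/-! Module RFO: the class `none` is invisible from the set where `s` is much larger than `u`. -/

set_option autoImplicit false

namespace Pool.Agent.Helper65.HP

open UpperHalfPlane Filter Topology

noncomputable section

namespace Rfo

/-- numerical bound -/
theorem exp_bound {v : ℝ} (hv : 1 ≤ v) : 12000 * (31 * v + 28) ≤ Real.exp (30 * v) := by
  have h1 : Real.exp (30 * v) = Real.exp (29 * v) * Real.exp v := by
    rw [← Real.exp_add]
    congr 1
    ring
  have h2 : (2 : ℝ) ^ 29 ≤ Real.exp (29 * v) := by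
    have h3 : (2 : ℝ) ≤ Real.exp 1 := by
      have := Real.add_one_le_exp (1 : ℝ)
      linarith
    calc (2 : ℝ) ^ 29 ≤ (Real.exp 1) ^ 29 := pow_le_pow_left₀ (by norm_num) h3 29
      _ = Real.exp 29 := by rw [← Real.exp_nat_mul]; norm_num
      _ ≤ Real.exp (29 * v) := Real.exp_le_exp.2 (by linarith)
  have h3 : v ≤ Real.exp v := by
    have := Real.add_one_le_exp v
    linarith
  rw [h1]
  have h4 : (2 : ℝ) ^ 29 * v ≤ Real.exp (29 * v) * Real.exp v :=
    mul_le_mul h2 h3 (by linarith) (Real.exp_pos _).le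
  have h5 : (2 : ℝ) ^ 29 = 536870912 := by norm_num
  rw [h5] at h4
  nlinarith

/-- squares with class `none` lie outside the window -/
theorem far {s u : ℍ → ℝ} (hs : Tame s) (hu : Tame u) (i : Bool) {z : ℍ}
    (hz : 400 * (u z + 1) ≤ s z) {n : ℕ}
    (hn : ∀ J ∈ all n, len n J < z.im / Real.exp (30 * (u z + 1)) →
      ∃ K ∈ all n, Below J K ∧ K ≠ J ∧ z.im / Real.exp (30 * (u z + 1)) ≤ len n K ∧
        len n K < 2 * (z.im / Real.exp (30 * (u z + 1))) ∧
        ∀ L, Below J L → z.im / Real.exp (30 * (u z + 1)) ≤ len n L → Below K L)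
    {J : Sq} (hJ : J ∈ all n) (hst : sta s u i n J = St.N none) :
    Real.exp (30 * (u z + 1)) * z.im ≤ |z.re - (ctr i n J).re| + (ctr i n J).im := by
  have hU : 0 ≤ u z := hu.1 z
  have ht : 0 < z.im := z.im_pos
  obtain ⟨R, hR⟩ : ∃ R, R = Real.exp (30 * (u z + 1)) := ⟨_, rfl⟩
  rw [← hR] at hn ⊢
  have hRpos : 0 < R := hR ▸ Real.exp_pos _
  have hR1 : 1 ≤ R := by
    rw [hR]
    exact Real.one_le_exp (by linarith)
  have hR3 : Real.exp (-(100 * (u z + 1))) ≤ 1 / 5 * (1 / R) / R ^ 2 := by
    have e1 : 1 / 5 * (1 / R) / R ^ 2 = 1 / 5 * Real.exp (-(90 * (u z + 1))) := by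
      have : Real.exp (-(90 * (u z + 1))) = 1 / R ^ 3 := by
        rw [hR, ← Real.exp_nat_mul, Real.exp_neg, one_div]
        congr 2
        push_cast
        ring
      rw [this]
      field_simp
    rw [e1]
    have e2 : Real.exp (-(100 * (u z + 1))) =
        Real.exp (-(10 * (u z + 1))) * Real.exp (-(90 * (u z + 1))) := by
      rw [← Real.exp_add]
      congr 1
      ring
    rw [e2]
    refine mul_le_mul_of_nonneg_right ?_ (Real.exp_pos _).le
    rw [Real.exp_neg, inv_eq_one_div]
    refine one_div_le_one_div_of_le (by norm_num) ?_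
    have := Real.add_one_le_exp (10 * (u z + 1))
    linarith
  by_contra hcon
  push Not at hcon
  have hre : |z.re - (ctr i n J).re| ≤ R * z.im := by
    have := (ctr i n J).im_pos
    linarith
  have him : (ctr i n J).im ≤ R * z.im := by
    have := abs_nonneg (z.re - (ctr i n J).re)
    linarith
  rcases le_or_gt (z.im / R) (len n J) with hlen | hlen
  · have h1 := g_in hR1 hre him
    have h2 : 1 / R ≤ (ctr i n J).im / z.im := by
      rw [ctr_im, le_div_iff₀ ht]
      calc 1 / R * z.im = z.im / R := by ring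
        _ ≤ _ := hlen
    have h3 : Real.exp (-(100 * (u z + 1))) ≤ g z (ctr i n J) := by
      refine hR3.trans (le_trans ?_ h1)
      have hR2 : 0 < R ^ 2 := by positivity
      rw [div_le_div_iff_of_pos_right hR2]
      have : 0 < 1 / R := by positivity
      linarith
    have h4 := near_O hs hu hz i n J h3
    rw [h4] at hst
    cases hst
  · obtain ⟨K, hK, hb, -, hK1, hK2, -⟩ := hn J hJ hlen
    have h0 := sta_none hst K hb
    have hJK := below_re i (n := n) hb
    have hlJ := len_pos n J
    have hdiv : z.im / R ≤ z.im := div_le_self ht.le hR1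
    have hRt : z.im ≤ R * z.im := by nlinarith
    have hre' : |z.re - (ctr i n K).re| ≤ (2 * R) * z.im := by
      have h5 : z.re - (ctr i n K).re =
        (z.re - (ctr i n J).re) + ((ctr i n J).re - (ctr i n K).re) := by ring
      rw [h5]
      refine (abs_add_le _ _).trans ?_
      linarith
    have him' : (ctr i n K).im ≤ (2 * R) * z.im := by
      rw [ctr_im]
      linarith
    have h1 := g_in (by linarith : (1 : ℝ) ≤ 2 * R) hre' him'
    have h2 : 1 / R ≤ (ctr i n K).im / z.im := by
      rw [ctr_im, le_div_iff₀ ht]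
      calc 1 / R * z.im = z.im / R := by ring
        _ ≤ _ := hK1
    have h3 : Real.exp (-(100 * (u z + 1))) ≤ g z (ctr i n K) := by
      refine hR3.trans (le_trans ?_ h1)
      have hR2 : 0 < R ^ 2 := by positivity
      rw [mul_pow, show (2 : ℝ) ^ 2 = 4 by norm_num, ← div_div]
      rw [div_le_div_iff_of_pos_right hR2]
      linarith
    have h4 := near_O hs hu hz i n K h3
    rw [h4] at h0
    cases h0

end Rfo

theorem R4 {s u : ℍ → ℝ} (hs : Tame s) (hu : Tame u) (i : Bool) {z : ℍ}
    (hz : 400 * (u z + 1) ≤ s z) : ∀ᶠ n in atTop,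
    pf i n (rst (lay u i n 0) fun J => sta s u i n J = St.N none) z ≤ 1 ∧
    ∀ J ∈ all n, lay u i n 0 J ≠ 0 → sta s u i n J = St.N none →
      g z (ctr i n J) ≤ 3 / 4 := by
  have hU : 0 ≤ u z := hu.1 z
  have ht : 0 < z.im := z.im_pos
  have hRpos : 0 < Real.exp (30 * (u z + 1)) := Real.exp_pos _
  have hR1 : 1 ≤ Real.exp (30 * (u z + 1)) := Real.one_le_exp (by linarith)
  have hbig := Rfo.exp_bound (by linarith : (1 : ℝ) ≤ u z + 1)
  filter_upwards [exists_size (z.im / Real.exp (30 * (u z + 1))) (by positivity)] with n hn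
  -- the point above `z`
  obtain ⟨z', hre, him⟩ : ∃ z' : ℍ, z'.re = z.re ∧ z'.im = Real.exp (30 * (u z + 1)) * z.im :=
    ⟨⟨⟨z.re, Real.exp (30 * (u z + 1)) * z.im⟩, mul_pos hRpos ht⟩, rfl, rfl⟩
  have hg : ∀ J ∈ all n, sta s u i n J = St.N none →
      g z (ctr i n J) ≤ 8 / Real.exp (30 * (u z + 1)) * g z' (ctr i n J) := by
    intro J hJ hst
    exact g_far hR1 (Rfo.far hs hu i hz hn hJ hst) hre him
  constructor
  · have h1 : pf i n (rst (lay u i n 0) fun J => sta s u i n J = St.N none) z ≤
        8 / Real.exp (30 * (u z + 1)) * pf i n (lay u i n 0) z' := by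
      unfold pf
      rw [Finset.mul_sum]
      refine Finset.sum_le_sum fun J hJ => ?_
      by_cases hst : sta s u i n J = St.N none
      · have h2 := hg J hJ hst
        have h3 : rst (lay u i n 0) (fun J => sta s u i n J = St.N none) J = lay u i n 0 J := by
          unfold rst
          rw [if_pos hst]
        rw [h3]
        have h4 : (0 : ℝ) ≤ (lay u i n 0 J : ℝ) := Nat.cast_nonneg _
        calc (lay u i n 0 J : ℝ) * g z (ctr i n J) ≤
            (lay u i n 0 J : ℝ) * (8 / Real.exp (30 * (u z + 1)) * g z' (ctr i n J)) :=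
              mul_le_mul_of_nonneg_left h2 h4
          _ = _ := by ring
      · have h3 : rst (lay u i n 0) (fun J => sta s u i n J = St.N none) J = 0 := by
          unfold rst
          rw [if_neg hst]
        rw [h3]
        have := g_pos z' (ctr i n J)
        simp only [Nat.cast_zero, zero_mul]
        positivity
    have h5 := lay_le hu i n 0 z'
    have h6 : u z' ≤ u z + 30 * (u z + 1) + 3 := by
      have h7 := hu.lip z' z
      have h8 := g_up hR1 hre him
      have h9 : Real.log (1 / g z' z) ≤ 30 * (u z + 1) := by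
        rw [Real.log_le_iff_le_exp (by have := g_pos z' z; positivity)]
        rw [div_le_iff₀ (g_pos z' z)]
        rw [div_le_iff₀ hRpos] at h8
        linarith
      linarith
    have h10 : max (u z' - 0) 0 ≤ u z + 30 * (u z + 1) + 3 := by
      refine max_le (by linarith) (by linarith)
    have h11 : pf i n (lay u i n 0) z' ≤ 1500 * (31 * (u z + 1) + 28) := by
      refine h5.trans ?_
      linarith
    refine h1.trans ?_
    calc 8 / Real.exp (30 * (u z + 1)) * pf i n (lay u i n 0) z' ≤
        8 / Real.exp (30 * (u z + 1)) * (1500 * (31 * (u z + 1) + 28)) :=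
          mul_le_mul_of_nonneg_left h11 (by positivity)
      _ = 12000 * (31 * (u z + 1) + 28) / Real.exp (30 * (u z + 1)) := by ring
      _ ≤ 1 := by
        rw [div_le_one hRpos]
        exact hbig
  · intro J hJ _ hst
    refine (hg J hJ hst).trans ?_
    have h1 := g_le_one z' (ctr i n J)
    have h2 : 8 / Real.exp (30 * (u z + 1)) ≤ 3 / 4 := by
      rw [div_le_iff₀ hRpos]
      linarith
    have h3 := g_pos z' (ctr i n J)
    calc 8 / Real.exp (30 * (u z + 1)) * g z' (ctr i n J) ≤ 3 / 4 * 1 :=
          mul_le_mul h2 h1 h3.le (by norm_num)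
      _ = 3 / 4 := by norm_num

end

end Pool.Agent.Helper65.HP
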