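import Pool.Agent.Helper65.HP.Wal
import Pool.Agent.Helper65.HP.Nea

/-! Module RON: one of the two walls is transparent. -/

set_option autoImplicit false

namespace Pool.Agent.Helper65.HP

open UpperHalfPlane Filter Topology

noncomputable section

namespace RonA

variable {s u : ℍ → ℝ} {i : Bool} {n : ℕ}

theorem len_pow {n : ℕ} {S I : Sq} (h : S.1 ≤ I.1) : len n S = 2 ^ (I.1 - S.1) * len n I := by
  unfold len
  have : (2 : ℝ) ^ I.1 = 2 ^ (I.1 - S.1) * 2 ^ S.1 := by rw [← pow_add]; congr 1; omega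
  rw [this]
  field_simp

theorem endpt (i : Bool) (n : ℕ) {S I : Sq} {e : ℤ} (h : S.1 ≤ I.1) (he : e = S.2 ∨ e = S.2 + 1)
    (hI : I.2 = e * 2 ^ (I.1 - S.1) ∨ I.2 + 1 = e * 2 ^ (I.1 - S.1)) :
    |(e : ℝ) * len n S + off i n - (ctr i n I).re| = len n I / 2 ∧
    |(e : ℝ) * len n S + off i n - (ctr i n S).re| = len n S / 2 := by
  constructor
  · rw [ctr_re, len_pow h]
    have hl := len_pos n I
    rcases hI with hI | hI
    · have h1 : (I.2 : ℝ) = e * 2 ^ (I.1 - S.1) := by exact_mod_cast hI
      have h2 : (e : ℝ) * (2 ^ (I.1 - S.1) * len n I) + off i n -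
          (((I.2 : ℝ) + 1 / 2) * len n I + off i n) = -(len n I / 2) := by rw [h1]; ring
      rw [h2, abs_neg, abs_of_pos (half_pos hl)]
    · have h1 : (I.2 : ℝ) + 1 = e * 2 ^ (I.1 - S.1) := by exact_mod_cast hI
      have h2 : (e : ℝ) * (2 ^ (I.1 - S.1) * len n I) + off i n -
          (((I.2 : ℝ) + 1 / 2) * len n I + off i n) = len n I / 2 := by
        have h3 : (e : ℝ) * (2 ^ (I.1 - S.1) * len n I) = ((I.2 : ℝ) + 1) * len n I := by
          rw [h1]; ring
        rw [h3]; ring
      rw [h2, abs_of_pos (half_pos hl)]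
  · rw [ctr_re]
    have hl := len_pos n S
    rcases he with he | he
    · have h2 : (e : ℝ) * len n S + off i n - (((S.2 : ℝ) + 1 / 2) * len n S + off i n) =
          -(len n S / 2) := by rw [he]; ring
      rw [h2, abs_neg, abs_of_pos (half_pos hl)]
    · have h2 : (e : ℝ) * len n S + off i n - (((S.2 : ℝ) + 1 / 2) * len n S + off i n) =
          len n S / 2 := by rw [he]; push_cast; ring
      rw [h2, abs_of_pos (half_pos hl)]

/-- end points of the two grids are far apart -/
theorem grids {n : ℕ} {S0 S1 : Sq} (e0 e1 : ℤ) {l : ℝ} (h0 : l ≤ len n S0) (h1 : l ≤ len n S1) :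
    l / 3 ≤ |((e0 : ℝ) * len n S0 + off false n) - ((e1 : ℝ) * len n S1 + off true n)| := by
  have key : ∀ (m : ℕ) (a b : ℤ), (2 : ℝ) ^ n / 2 ^ m / 3 ≤
      |((a : ℝ) * (2 ^ n / 2 ^ m) + off false n) - ((b : ℝ) * (2 ^ n / 2 ^ m) + off true n)| := by
    intro m a b
    have hL : (0 : ℝ) < 2 ^ n / 2 ^ m := by positivity
    have e : ((a : ℝ) * (2 ^ n / 2 ^ m) + off false n) - ((b : ℝ) * (2 ^ n / 2 ^ m) + off true n) =
        2 ^ n / 2 ^ m / 3 * ((3 * (a - b) - 2 ^ m : ℤ) : ℝ) := by
      unfold off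
      push_cast
      simp only [if_true]
      field_simp
      ring
    rw [e, abs_mul, abs_of_pos (by positivity : (0 : ℝ) < 2 ^ n / 2 ^ m / 3)]
    refine le_mul_of_one_le_right (by positivity) ?_
    have h2 : (3 * (a - b) - 2 ^ m : ℤ) ≠ 0 := by
      intro h3
      have h4 : (3 : ℤ) ∣ 2 ^ m := ⟨a - b, by linarith⟩
      have h5 : (3 : ℤ) ∣ 2 := Int.Prime.dvd_pow' (by norm_num) h4
      omega
    rw [← Int.cast_abs]
    exact_mod_cast Int.one_le_abs h2
  rcases le_total S0.1 S1.1 with h | h
  · have h3 := key S1.1 (e0 * 2 ^ (S1.1 - S0.1)) e1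
    have h4 : (((e0 * 2 ^ (S1.1 - S0.1) : ℤ)) : ℝ) * (2 ^ n / 2 ^ S1.1) = (e0 : ℝ) * len n S0 := by
      rw [len_pow h]
      push_cast
      unfold len
      ring
    rw [h4] at h3
    have h5 : (2 : ℝ) ^ n / 2 ^ S1.1 = len n S1 := rfl
    rw [h5] at h3
    linarith
  · have h3 := key S0.1 e0 (e1 * 2 ^ (S0.1 - S1.1))
    have h4 : (((e1 * 2 ^ (S0.1 - S1.1) : ℤ)) : ℝ) * (2 ^ n / 2 ^ S0.1) = (e1 : ℝ) * len n S1 := by
      rw [len_pow h]
      push_cast
      unfold len
      ring
    rw [h4] at h3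
    have h5 : (2 : ℝ) ^ n / 2 ^ S0.1 = len n S0 := rfl
    rw [h5] at h3
    linarith

/-- squares of moderate size near `x` are not `O` -/
theorem reg_N (hs : Tame s) (hu : Tame u) {T : ℝ} {x : ℍ} (h1 : s x ≤ T)
    (h2 : 10 * T + 60 < u x) (i : Bool) (n : ℕ) (K : Sq) {R : ℝ}
    (hR : R = 10 * Real.exp (u x / 10)) (h3 : |x.re - (ctr i n K).re| ≤ 2 * R * x.im)
    (h4 : len n K ≤ 2 * R * x.im) (h5 : x.im / R ≤ len n K) : sta s u i n K ≠ St.O := by
  have hs0 : 0 ≤ s x := hs.1 x
  have hRpos : 0 < R := by rw [hR]; have := Real.exp_pos (u x / 10); positivity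
  have hU : 60 < u x := by linarith
  have hR1 : 1 ≤ R := by
    rw [hR]
    have : 1 ≤ Real.exp (u x / 10) := Real.one_le_exp (by linarith)
    linarith
  have him : 0 < x.im := x.im_pos
  refine near_N hs hu h1 h2 i n K ?_
  have hg := g_in (R := 2 * R) (z := x) (w := ctr i n K) (by linarith) h3
    (by rw [ctr_im]; exact h4)
  refine le_trans ?_ hg
  rw [ctr_im]
  have h6 : 1 / R ≤ len n K / x.im := by
    rw [div_le_div_iff₀ hRpos him]
    rw [div_le_iff₀ hRpos] at h5
    linarith
  have h7 : 4 / 5 * (1 / R) / (2 * R) ^ 2 ≤ 4 / 5 * (len n K / x.im) / (2 * R) ^ 2 := by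
    gcongr
  refine le_trans ?_ h7
  have h8 : 4 / 5 * (1 / R) / (2 * R) ^ 2 = 1 / 5 * (R ^ 3)⁻¹ := by
    field_simp; norm_num
  rw [h8]
  have h9 : (R ^ 3)⁻¹ = 1 / 1000 * Real.exp (-(3 / 10 * u x)) := by
    rw [hR, mul_pow, ← Real.exp_nat_mul, mul_inv, ← Real.exp_neg]
    congr 1
    · norm_num
    · congr 1; push_cast; ring
  rw [h9]
  have h10 : Real.exp (-(9 / 20 * u x)) =
      Real.exp (-(3 / 10 * u x)) * Real.exp (-(3 / 20 * u x)) := by
    rw [← Real.exp_add]; congr 1; ring
  rw [h10]
  have h11 : Real.exp (-(3 / 20 * u x)) ≤ 1 / 5000 := by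
    have h12 : Real.exp (-(3 / 20 * u x)) ≤ Real.exp (-9) := by
      apply Real.exp_le_exp.mpr; linarith
    refine h12.trans ?_
    rw [Real.exp_neg]
    have h13 : (2.7 : ℝ) < Real.exp 1 := lt_trans (by norm_num) Real.exp_one_gt_d9
    have h14 : Real.exp 9 = Real.exp 1 ^ 9 := by rw [← Real.exp_nat_mul]; norm_num
    rw [inv_le_comm₀ (Real.exp_pos _) (by norm_num), h14]
    have h15 : (2.7 : ℝ) ^ 9 ≤ Real.exp 1 ^ 9 := by gcongr
    refine le_trans ?_ h15
    norm_num
  have h16 := Real.exp_pos (-(3 / 10 * u x))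
  nlinarith

/-- entry condition -/
def PP (s u : ℍ → ℝ) (i : Bool) (n : ℕ) (L : Sq) : Prop :=
  2 * u (ctr i n L) + 40 ≤ s (ctr i n L)

open Classical in
/-- maximal squares of size less than `X` with the entry condition -/
def EE (s u : ℍ → ℝ) (i : Bool) (n : ℕ) (X : ℝ) : Finset Sq :=
  (all n).filter fun L => len n L < X ∧ PP s u i n L ∧
    ∀ L', Below L L' → L' ≠ L → len n L' < X → ¬ PP s u i n L'

open Classical in
theorem mem_EE {X : ℝ} {L : Sq} : L ∈ EE s u i n X ↔ L ∈ all n ∧ len n L < X ∧ PP s u i n L ∧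
    ∀ L', Below L L' → L' ≠ L → len n L' < X → ¬ PP s u i n L' := by
  unfold EE
  exact Finset.mem_filter

theorem EE_anti {X : ℝ} : ∀ J ∈ EE s u i n X, ∀ K ∈ EE s u i n X, Below J K → J = K := by
  intro J hJ K hK h
  rw [mem_EE] at hJ hK
  by_contra hne
  exact hJ.2.2.2 K h (Ne.symm hne) hK.2.1 hK.2.2.1

theorem EE_exists {X : ℝ} {S L0 : Sq} (hS : S ∈ all n) (hb : Below S L0) (hX : len n L0 < X)
    (hP : PP s u i n L0) : ∃ L ∈ EE s u i n X, Below S L := by
  classical
  have hex : ∃ m : ℕ, ∃ L : Sq, L.1 = m ∧ Below S L ∧ len n L < X ∧ PP s u i n L :=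
    ⟨L0.1, L0, rfl, hb, hX, hP⟩
  obtain ⟨L, h1, h2, h3, h4⟩ := Nat.find_spec hex
  refine ⟨L, ?_, h2⟩
  rw [mem_EE]
  refine ⟨anc_mem hS h2, h3, h4, ?_⟩
  intro L' h5 h6 h7 h8
  have h9 := Nat.find_min' hex ⟨L', rfl, h2.trans h5, h7, h8⟩
  rw [← h1] at h9
  have h10 : L'.1 = L.1 := le_antisymm h5.1 h9
  exact h6 (h5.eq h10).symm

open Classical in
theorem EE_mass (hs : Tame s) (hu : Tame u) {C3 X : ℝ} (hC3 : 0 < C3)
    (h3 : ∀ z, ∑ S ∈ (all n).filter (fun S => isEx s u i n S), Real.exp (u (ctr i n S) / 20) *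
      g z (ctr i n S) ≤ C3 * Real.exp (u z / 20)) (w : Sq → ℝ)
    (hw : ∀ J, w J = if isEx s u i n J then Real.exp (u (ctr i n J) / 20) else 0) :
    ∀ R ∈ EE s u i n X, ∑ J ∈ dn n R, w J * len n J ≤
      C3 * Real.exp (s (ctr i n R) / 40) * len n R := by
  intro R hR
  rw [mem_EE] at hR
  have hlR := len_pos n R
  have hw0 : ∀ J, 0 ≤ w J := by
    intro J
    rw [hw]
    split_ifs
    · exact (Real.exp_pos _).le
    · exact le_rfl
  calc ∑ J ∈ dn n R, w J * len n J ≤ ∑ J ∈ dn n R, w J * (len n R * g (ctr i n R) (ctr i n J)) := by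
        refine Finset.sum_le_sum fun J hJ => ?_
        have h5 := g_below i (n := n) (mem_dn.mp hJ).2
        rw [div_le_iff₀ hlR] at h5
        have := hw0 J
        gcongr
        linarith
    _ ≤ ∑ J ∈ all n, w J * (len n R * g (ctr i n R) (ctr i n J)) := by
        refine Finset.sum_le_sum_of_subset_of_nonneg ?_ ?_
        · intro J hJ; exact (mem_dn.mp hJ).1
        · intro J _ _
          have := hw0 J
          have := g_pos (ctr i n R) (ctr i n J)
          positivity
    _ = len n R * ∑ S ∈ (all n).filter (fun S => isEx s u i n S),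
          Real.exp (u (ctr i n S) / 20) * g (ctr i n R) (ctr i n S) := by
        rw [Finset.sum_filter, Finset.mul_sum]
        refine Finset.sum_congr rfl fun J _ => ?_
        rw [hw]
        split_ifs
        · ring
        · simp
    _ ≤ len n R * (C3 * Real.exp (u (ctr i n R) / 20)) := by
        exact mul_le_mul_of_nonneg_left (h3 (ctr i n R)) hlR.le
    _ ≤ len n R * (C3 * Real.exp (s (ctr i n R) / 40)) := by
        have h6 := hR.2.2.1
        unfold PP at h6
        have h7 : Real.exp (u (ctr i n R) / 20) ≤ Real.exp (s (ctr i n R) / 40) :=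
          Real.exp_le_exp.mpr (by linarith)
        exact mul_le_mul_of_nonneg_left (mul_le_mul_of_nonneg_left h7 hC3.le) hlR.le
    _ = _ := by ring

/-- exit squares inside the window are small and below an entry square -/
theorem exit_small (hs : Tame s) (hu : Tame u) {T : ℝ} {x : ℍ} (h1 : s x ≤ T)
    (h2 : 10 * T + 60 < u x) {R : ℝ} (hR : R = 10 * Real.exp (u x / 10))
    (hsize : ∀ J ∈ all n, len n J < x.im / R →
      ∃ K ∈ all n, Below J K ∧ K ≠ J ∧ x.im / R ≤ len n K ∧ len n K < 2 * (x.im / R) ∧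
        ∀ L, Below J L → x.im / R ≤ len n L → Below K L) {S : Sq} (hS : isEx s u i n S)
    (h3 : |x.re - (ctr i n S).re| ≤ R * x.im) (h4 : len n S ≤ R * x.im) :
    len n S < x.im / R ∧ ∃ L ∈ EE s u i n (x.im / R), Below S L := by
  have hs0 : 0 ≤ s x := hs.1 x
  have hRpos : 0 < R := by rw [hR]; have := Real.exp_pos (u x / 10); positivity
  have hU : 60 < u x := by linarith
  have hR1 : 1 ≤ R := by
    rw [hR]
    have : 1 ≤ Real.exp (u x / 10) := Real.one_le_exp (by linarith)
    linarith
  have him : 0 < x.im := x.im_pos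
  have htR : x.im / R ≤ R * x.im := by
    rw [div_le_iff₀ hRpos]
    nlinarith [mul_le_mul hR1 hR1 zero_le_one hRpos.le]
  have hlS := len_pos n S
  have habs := abs_nonneg (x.re - (ctr i n S).re)
  have hdist : ∀ K, Below S K → |x.re - (ctr i n K).re| ≤ |x.re - (ctr i n S).re| +
      (len n K - len n S) / 2 := by
    intro K hK
    have h := below_re i (n := n) hK
    calc |x.re - (ctr i n K).re| = |(x.re - (ctr i n S).re) +
          ((ctr i n S).re - (ctr i n K).re)| := by congr 1; ring
      _ ≤ _ := abs_add_le _ _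
      _ ≤ _ := by linarith
  obtain ⟨h5, h6, h7⟩ := sta_exit hS.2
  have hlS' : len n S < x.im / R := by
    by_contra hcon
    push Not at hcon
    have hb := below_par h5
    have hlp := len_par (n := n) h5
    have hd := hdist _ hb
    refine reg_N hs hu h1 h2 i n (par S) hR ?_ ?_ ?_ h6
    · rw [hlp] at hd; nlinarith
    · rw [hlp]; nlinarith
    · rw [hlp]; linarith
  refine ⟨hlS', ?_⟩
  obtain ⟨K, hK, hSK, hne, hK1, hK2, hK3⟩ := hsize S hS.1 hlS'
  have hKO : sta s u i n K ≠ St.O := by
    have hd := hdist K hSK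
    refine reg_N hs hu h1 h2 i n K hR ?_ ?_ hK1
    · nlinarith
    · nlinarith
  obtain ⟨c, hc⟩ : ∃ c, sta s u i n K = St.N c := by
    cases h : sta s u i n K with
    | O => exact absurd h hKO
    | N c => exact ⟨c, rfl⟩
  obtain ⟨L0, h8, _, h10, h11, _, h13⟩ := exists_entry_exit hSK (Ne.symm hne) hc hS.2
  refine EE_exists hS.1 h8 ?_ h13
  by_contra hcon
  push Not at hcon
  exact h11 (h10.antisymm (hK3 L0 h8 hcon))

open Classical in
/-- walls of small exit squares -/
theorem small_sum (hs : Tame s) (hu : Tame u) {C2 C3 C4 : ℝ} (hC2 : 0 < C2) (hC3 : 0 < C3)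
    (h2 : ∀ (E : Finset Sq) (z : ℍ), E ⊆ all n → (∀ S ∈ E, len n S ≤ z.im) →
      ∑ I ∈ (all n).filter (fun I => isWallOf E I),
      (⌈Real.exp (u (ctr i n I) / 20)⌉₊ : ℝ) * g z (ctr i n I) ≤
      C2 * ∑ S ∈ E, Real.exp (u (ctr i n S) / 20) * g z (ctr i n S))
    (h3 : ∀ z, ∑ S ∈ (all n).filter (fun S => isEx s u i n S), Real.exp (u (ctr i n S) / 20) *
      g z (ctr i n S) ≤ C3 * Real.exp (u z / 20))
    (h4 : ∀ (x : ℍ) (E : Finset Sq) (w : Sq → ℝ), E ⊆ all n →
      (∀ J ∈ E, ∀ K ∈ E, Below J K → J = K) →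
      (∀ R ∈ E, len n R ≤ x.im) → (∀ J, 0 ≤ w J) →
      (∀ R ∈ E, ∑ J ∈ dn n R, w J * len n J ≤ C3 * Real.exp (s (ctr i n R) / 40) * len n R) →
      ∑ J ∈ (all n).filter (fun J => ∃ R ∈ E, Below J R), w J * g x (ctr i n J) ≤
        C4 * Real.exp (s x))
    {T : ℝ} {x : ℍ} (hx : s x ≤ T) (hux : 10 * T + 60 < u x) {R : ℝ}
    (hR : R = 10 * Real.exp (u x / 10))
    (hsize : ∀ J ∈ all n, len n J < x.im / R →
      ∃ K ∈ all n, Below J K ∧ K ≠ J ∧ x.im / R ≤ len n K ∧ len n K < 2 * (x.im / R) ∧
        ∀ L, Below J L → x.im / R ≤ len n L → Below K L) :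
    ∑ I ∈ (all n).filter (fun I => isWallOf ((all n).filter fun S => isEx s u i n S ∧
        |x.re - (ctr i n S).re| ≤ R * x.im ∧ len n S ≤ R * x.im) I),
      (⌈Real.exp (u (ctr i n I) / 20)⌉₊ : ℝ) * g x (ctr i n I) ≤ C2 * (|C4| * Real.exp T) := by
  have hs0 : 0 ≤ s x := hs.1 x
  have hRpos : 0 < R := by rw [hR]; have := Real.exp_pos (u x / 10); positivity
  have hU : 60 < u x := by linarith
  have hR1 : 1 ≤ R := by
    rw [hR]
    have : 1 ≤ Real.exp (u x / 10) := Real.one_le_exp (by linarith)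
    linarith
  have him : 0 < x.im := x.im_pos
  have htR : x.im / R ≤ x.im := div_le_self him.le hR1
  set E1 : Finset Sq := (all n).filter fun S => isEx s u i n S ∧
        |x.re - (ctr i n S).re| ≤ R * x.im ∧ len n S ≤ R * x.im with hE1
  have hmem : ∀ S ∈ E1, len n S < x.im / R ∧ ∃ L ∈ EE s u i n (x.im / R), Below S L := by
    intro S hS
    rw [hE1, Finset.mem_filter] at hS
    exact exit_small hs hu hx hux hR hsize hS.2.1 hS.2.2.1 hS.2.2.2
  refine (h2 E1 x (Finset.filter_subset _ _) fun S hS => ((hmem S hS).1.le.trans htR)).trans ?_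
  refine mul_le_mul_of_nonneg_left ?_ hC2.le
  set w : Sq → ℝ := fun J => if isEx s u i n J then Real.exp (u (ctr i n J) / 20) else 0 with hw
  have hw0 : ∀ J, 0 ≤ w J := by
    intro J
    rw [hw]
    dsimp only
    split_ifs
    · exact (Real.exp_pos _).le
    · exact le_rfl
  have h5 := h4 x (EE s u i n (x.im / R)) w (by
      intro L hL; exact (mem_EE.mp hL).1) EE_anti
      (fun L hL => ((mem_EE.mp hL).2.1.le.trans htR)) hw0
      (EE_mass hs hu hC3 h3 w (fun J => rfl))
  calc ∑ S ∈ E1, Real.exp (u (ctr i n S) / 20) * g x (ctr i n S)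
      = ∑ S ∈ E1, w S * g x (ctr i n S) := by
        refine Finset.sum_congr rfl fun S hS => ?_
        rw [hE1, Finset.mem_filter] at hS
        rw [hw]
        dsimp only
        rw [if_pos hS.2.1]
    _ ≤ ∑ J ∈ (all n).filter (fun J => ∃ R' ∈ EE s u i n (x.im / R), Below J R'),
          w J * g x (ctr i n J) := by
        refine Finset.sum_le_sum_of_subset_of_nonneg ?_ ?_
        · intro S hS
          rw [Finset.mem_filter]
          exact ⟨(Finset.mem_filter.mp hS).1, (hmem S hS).2⟩
        · intro J _ _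
          exact mul_nonneg (hw0 J) (g_pos _ _).le
    _ ≤ C4 * Real.exp (s x) := h5
    _ ≤ |C4| * Real.exp T := by
        have := le_abs_self C4
        gcongr

end RonA

theorem R1 {s u : ℍ → ℝ} (hs : Tame s) (hu : Tame u) (T : ℝ) : ∃ Ψ : ℝ, ∀ x, s x ≤ T →
    ∀ᶠ n in atTop, pf false n (wal s u false n) x ≤ Ψ ∨ pf true n (wal s u true n) x ≤ Ψ := by
  classical
  obtain ⟨C1, hC1, h1⟩ := wal_le
  obtain ⟨C2, hC2, h2⟩ := wal_small
  obtain ⟨C3, hC3, h3⟩ := ex_sum
  obtain ⟨C4, h4⟩ := entry_sum C3 hC3.le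
  refine ⟨C1 * Real.exp ((10 * T + 61) / 20) + (8 * Real.exp 1 * C1 +
    C2 * (|C4| * Real.exp T)), ?_⟩
  intro x hx
  have hs0 : 0 ≤ s x := hs.1 x
  have hu0 : 0 ≤ u x := hu.1 x
  have him := x.im_pos
  have hp1 : 0 ≤ C1 * Real.exp ((10 * T + 61) / 20) := by positivity
  have hp2 : 0 ≤ 8 * Real.exp 1 * C1 := by positivity
  have hp3 : 0 ≤ C2 * (|C4| * Real.exp T) := by positivity
  rcases le_or_gt (u x) (10 * T + 61) with hU | hU
  · filter_upwards with n
    left
    have h5 := h1 s u hs hu false n x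
    have h6 : C1 * Real.exp (u x / 20) ≤ C1 * Real.exp ((10 * T + 61) / 20) := by gcongr
    linarith
  · obtain ⟨R', hR'⟩ : ∃ R', R' = Real.exp (u x / 10) := ⟨_, rfl⟩
    obtain ⟨R, hR⟩ : ∃ R, R = 10 * Real.exp (u x / 10) := ⟨_, rfl⟩
    have hRR' : R = 10 * R' := by rw [hR, hR']
    have hR'1 : 1 ≤ R' := by rw [hR']; exact Real.one_le_exp (by linarith)
    have hRpos : 0 < R := by linarith
    filter_upwards [exists_size (x.im / R) (by positivity)] with n hsize
    have hgrid : ∀ i, (¬ ∃ I ∈ all n, |x.re - (ctr i n I).re| + len n I < R' * x.im ∧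
        isWall s u i n I ∧ ∀ S, isEx s u i n S → S.1 ≤ I.1 → (∃ e : ℤ, (e = S.2 ∨ e = S.2 + 1) ∧
        (I.2 = e * 2 ^ (I.1 - S.1) ∨ I.2 + 1 = e * 2 ^ (I.1 - S.1))) → R * x.im < len n S) →
        pf i n (wal s u i n) x ≤ C1 * Real.exp ((10 * T + 61) / 20) + (8 * Real.exp 1 * C1 +
          C2 * (|C4| * Real.exp T)) := by
      intro i hno
      have hsplit : pf i n (wal s u i n) x = ∑ I ∈ (all n).filter (fun J =>
          |x.re - (ctr i n J).re| + len n J < R' * x.im), (wal s u i n I : ℝ) * g x (ctr i n I) +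
        ∑ I ∈ (all n).filter (fun J => ¬ |x.re - (ctr i n J).re| + len n J < R' * x.im),
          (wal s u i n I : ℝ) * g x (ctr i n I) := by
        unfold pf
        rw [Finset.sum_filter_add_sum_filter_not]
      have hout : ∑ I ∈ (all n).filter (fun J =>
          ¬ |x.re - (ctr i n J).re| + len n J < R' * x.im),
          (wal s u i n I : ℝ) * g x (ctr i n I) ≤ 8 * Real.exp 1 * C1 := by
        obtain ⟨x', hz1, hz2⟩ : ∃ z' : ℍ, z'.re = x.re ∧ z'.im = R' * x.im :=
          ⟨⟨⟨x.re, R' * x.im⟩, by positivity⟩, rfl, rfl⟩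
        calc _ ≤ ∑ J ∈ (all n).filter (fun J =>
            ¬ |x.re - (ctr i n J).re| + len n J < R' * x.im),
            8 / R' * ((wal s u i n J : ℝ) * g x' (ctr i n J)) := by
              refine Finset.sum_le_sum fun J hJ => ?_
              have h3 := (Finset.mem_filter.mp hJ).2
              push Not at h3
              have h4 := g_far hR'1 (w := ctr i n J) (by rw [ctr_im]; exact h3) hz1 hz2
              calc (wal s u i n J : ℝ) * g x (ctr i n J) ≤
                    (wal s u i n J : ℝ) * (8 / R' * g x' (ctr i n J)) := by gcongr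
                _ = _ := by ring
          _ ≤ ∑ J ∈ all n, 8 / R' * ((wal s u i n J : ℝ) * g x' (ctr i n J)) := by
              refine Finset.sum_le_sum_of_subset_of_nonneg (Finset.filter_subset _ _) ?_
              intro J _ _
              have := g_pos x' (ctr i n J)
              positivity
          _ = 8 / R' * pf i n (wal s u i n) x' := by rw [← Finset.mul_sum]; rfl
          _ ≤ 8 / R' * (C1 * Real.exp (u x' / 20)) := by
              have := h1 s u hs hu i n x'
              gcongr
          _ ≤ 8 / R' * (C1 * (R' * Real.exp 1)) := by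
              gcongr
              have h5 := hu.lip x' x
              have h6 := g_up hR'1 hz1 hz2
              have h7 : Real.log (1 / g x' x) ≤ u x / 10 := by
                have h8 : 1 / g x' x ≤ R' := by
                  rw [div_le_iff₀ (g_pos _ _)]
                  rw [div_le_iff₀ (by linarith)] at h6
                  linarith
                calc Real.log (1 / g x' x) ≤ Real.log R' :=
                      Real.log_le_log (by have := g_pos x' x; positivity) h8
                  _ = u x / 10 := by rw [hR', Real.log_exp]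
              rw [hR', ← Real.exp_add]
              apply Real.exp_le_exp.mpr
              linarith
          _ = _ := by field_simp
      have hin : ∑ I ∈ (all n).filter (fun J =>
          |x.re - (ctr i n J).re| + len n J < R' * x.im),
          (wal s u i n I : ℝ) * g x (ctr i n I) ≤ C2 * (|C4| * Real.exp T) := by
        refine le_trans ?_ (RonA.small_sum (i := i) (n := n) hs hu hC2 hC3
          (fun E z => h2 u hu i n E z) (fun z => h3 s u hs hu i n z)
          (fun x E w => h4 s hs i n x E w) hx (by linarith) hR hsize)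
        rw [Finset.sum_filter, Finset.sum_filter]
        refine Finset.sum_le_sum fun I hI => ?_
        have hg := g_pos x (ctr i n I)
        by_cases h5 : |x.re - (ctr i n I).re| + len n I < R' * x.im
        · rw [if_pos h5]
          by_cases h6 : isWall s u i n I
          · have h7 : isWallOf ((all n).filter fun S => isEx s u i n S ∧
                |x.re - (ctr i n S).re| ≤ R * x.im ∧ len n S ≤ R * x.im) I := by
              by_contra h8
              apply hno
              refine ⟨I, hI, h5, h6, ?_⟩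
              intro S hS1 hS2 hS3
              by_contra h9
              push Not at h9
              apply h8
              refine ⟨S, ?_, hS2, hS3⟩
              rw [Finset.mem_filter]
              refine ⟨hS1.1, hS1, ?_, h9⟩
              obtain ⟨e, he1, he2⟩ := hS3
              have h10 := RonA.endpt i n hS2 he1 he2
              have h11 : |x.re - (ctr i n S).re| ≤ |x.re - (ctr i n I).re| +
                  |(e : ℝ) * len n S + off i n - (ctr i n I).re| +
                  |(e : ℝ) * len n S + off i n - (ctr i n S).re| := by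
                have e1 : x.re - (ctr i n S).re = (x.re - (ctr i n I).re) -
                    ((e : ℝ) * len n S + off i n - (ctr i n I).re) +
                    ((e : ℝ) * len n S + off i n - (ctr i n S).re) := by ring
                rw [e1]
                refine (abs_add_le _ _).trans ?_
                gcongr
                exact abs_sub _ _
              rw [h10.1, h10.2] at h11
              have hlI := len_pos n I
              nlinarith
            rw [if_pos h7]
            unfold wal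
            rw [if_pos h6]
          · unfold wal
            rw [if_neg h6]
            simp only [Nat.cast_zero, zero_mul]
            split_ifs
            · positivity
            · exact le_rfl
        · rw [if_neg h5]
          split_ifs
          · positivity
          · exact le_rfl
      rw [hsplit]
      linarith
    by_cases hbad : ∃ I ∈ all n, |x.re - (ctr false n I).re| + len n I < R' * x.im ∧
        isWall s u false n I ∧ ∀ S, isEx s u false n S → S.1 ≤ I.1 →
        (∃ e : ℤ, (e = S.2 ∨ e = S.2 + 1) ∧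
        (I.2 = e * 2 ^ (I.1 - S.1) ∨ I.2 + 1 = e * 2 ^ (I.1 - S.1))) → R * x.im < len n S
    · right
      apply hgrid true
      rintro ⟨I1, hI1, h5, ⟨S1, hS1, hS1', e1, he1, he1'⟩, h6⟩
      obtain ⟨I0, hI0, h7, ⟨S0, hS0, hS0', e0, he0, he0'⟩, h8⟩ := hbad
      have h9 := h6 S1 hS1 hS1' ⟨e1, he1, he1'⟩
      have h10 := h8 S0 hS0 hS0' ⟨e0, he0, he0'⟩
      have h11 := RonA.grids (n := n) e0 e1 h10.le h9.le
      have h12 := (RonA.endpt false n hS0' he0 he0').1
      have h13 := (RonA.endpt true n hS1' he1 he1').1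
      have hl0 := len_pos n I0
      have hl1 := len_pos n I1
      have h14 : |((e0 : ℝ) * len n S0 + off false n) - ((e1 : ℝ) * len n S1 + off true n)| ≤
          |x.re - (ctr false n I0).re| + len n I0 / 2 +
          (|x.re - (ctr true n I1).re| + len n I1 / 2) := by
        have e2 : ((e0 : ℝ) * len n S0 + off false n) - ((e1 : ℝ) * len n S1 + off true n) =
            (-(x.re - (ctr false n I0).re) +
              ((e0 : ℝ) * len n S0 + off false n - (ctr false n I0).re)) +
            ((x.re - (ctr true n I1).re) -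
              ((e1 : ℝ) * len n S1 + off true n - (ctr true n I1).re)) := by ring
        rw [e2, ← h12, ← h13]
        refine (abs_add_le _ _).trans ?_
        refine add_le_add ((abs_add_le _ _).trans ?_) (abs_sub _ _)
        rw [abs_neg]
      have hR't : 0 < R' * x.im := by positivity
      rw [hRR'] at h11
      nlinarith
    · left
      exact hgrid false hbad

end

end Pool.Agent.Helper65.HP
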