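import Pool.Agent.Helper65.HP.Rta

/-! Module RTB: (R3). -/

set_option autoImplicit false

namespace Pool.Agent.Helper65.HP

open UpperHalfPlane Filter Topology

noncomputable section

namespace Rtb

variable {s u : ℍ → ℝ}

/-- squares of the window: the region of `class_const` -/
def Reg (u : ℍ → ℝ) (i : Bool) (n : ℕ) (x : ℍ) (J : Sq) : Prop :=
  |x.re - (ctr i n J).re| ≤ 2 * Real.exp (u x / 100) * x.im ∧
    len n J ≤ 2 * Real.exp (u x / 100) * x.im ∧ Real.exp (-(u x / 100)) * x.im ≤ len n J

theorem mass_le (hu : Tame u) (i : Bool) {n : ℕ} {R : Sq} :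
    ∑ J ∈ dn n R, (lay u i n 0 J : ℝ) * len n J ≤
      1500 * (u (ctr i n R) + 26) * len n R := by
  have hlR := len_pos n R
  have h1 : ∑ J ∈ dn n R, (lay u i n 0 J : ℝ) * len n J ≤
      len n R * pf i n (lay u i n 0) (ctr i n R) := by
    unfold pf
    rw [Finset.mul_sum]
    refine le_trans (Finset.sum_le_sum (g := fun J => len n R * ((lay u i n 0 J : ℝ) *
      g (ctr i n R) (ctr i n J))) ?_) (Finset.sum_le_sum_of_subset_of_nonneg ?_ ?_)
    · intro J hJ
      have hb := (mem_dn.1 hJ).2
      have h2 := g_below i (n := n) hb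
      rw [div_le_iff₀ hlR] at h2
      have h3 : (0 : ℝ) ≤ (lay u i n 0 J : ℝ) := Nat.cast_nonneg _
      calc (lay u i n 0 J : ℝ) * len n J ≤ (lay u i n 0 J : ℝ) *
          (g (ctr i n R) (ctr i n J) * len n R) := mul_le_mul_of_nonneg_left h2 h3
        _ = _ := by ring
    · intro J hJ
      exact (mem_dn.1 hJ).1
    · intro J _ _
      have := (g_pos (ctr i n R) (ctr i n J)).le
      positivity
  have h2 := lay_le hu i n 0 (ctr i n R)
  have h3 : max (u (ctr i n R) - 0) 0 = u (ctr i n R) := by
    rw [sub_zero]; exact max_eq_left (hu.1 _)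
  rw [h3] at h2
  calc _ ≤ _ := h1
    _ ≤ len n R * (1500 * (u (ctr i n R) + 26)) := mul_le_mul_of_nonneg_left h2 hlR.le
    _ = _ := by ring

theorem mass_le' (hu : Tame u) (i : Bool) {n : ℕ} {R : Sq}
    (h : 2 * u (ctr i n R) + 40 ≤ s (ctr i n R)) :
    ∑ J ∈ dn n R, (lay u i n 0 J : ℝ) * len n J ≤
      39000 * Real.exp (s (ctr i n R) / 40) * len n R := by
  refine (mass_le hu i).trans ?_
  refine mul_le_mul_of_nonneg_right ?_ (len_pos n R).le
  have h1 := Real.add_one_le_exp (s (ctr i n R) / 40)
  have h2 := hu.1 (ctr i n R)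
  nlinarith

/-- the points outside the window -/
theorem far_le (hu : Tame u) (i : Bool) (n : ℕ) (x : ℍ) (F : Finset Sq) (hF : F ⊆ all n)
    (h : ∀ J ∈ F, Real.exp (u x / 100) * x.im ≤ |x.re - (ctr i n J).re| + len n J) :
    ∑ J ∈ F, (lay u i n 0 J : ℝ) * g x (ctr i n J) ≤ 1212000 := by
  set r : ℝ := Real.exp (u x / 100) with hr
  have hr0 : 0 < r := Real.exp_pos _
  have hux := hu.1 x
  have hr1 : 1 ≤ r := Real.one_le_exp (by positivity)
  let z' : ℍ := ⟨⟨x.re, r * x.im⟩, mul_pos hr0 x.im_pos⟩
  have hz1 : z'.re = x.re := rfl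
  have hz2 : z'.im = r * x.im := rfl
  have h1 : ∑ J ∈ F, (lay u i n 0 J : ℝ) * g x (ctr i n J) ≤
      8 / r * pf i n (lay u i n 0) z' := by
    unfold pf
    rw [Finset.mul_sum]
    refine le_trans (Finset.sum_le_sum (g := fun J => 8 / r * ((lay u i n 0 J : ℝ) *
      g z' (ctr i n J))) ?_) (Finset.sum_le_sum_of_subset_of_nonneg hF ?_)
    · intro J hJ
      have h2 := g_far (z := x) (z' := z') (w := ctr i n J) hr1 (h J hJ) hz1 hz2
      have h3 : (0 : ℝ) ≤ (lay u i n 0 J : ℝ) := Nat.cast_nonneg _
      calc (lay u i n 0 J : ℝ) * g x (ctr i n J) ≤ (lay u i n 0 J : ℝ) *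
          (8 / r * g z' (ctr i n J)) := mul_le_mul_of_nonneg_left h2 h3
        _ = _ := by ring
    · intro J _ _
      have := (g_pos z' (ctr i n J)).le
      positivity
  have h2 := lay_le hu i n 0 z'
  have h3 : max (u z' - 0) 0 = u z' := by
    rw [sub_zero]; exact max_eq_left (hu.1 _)
  rw [h3] at h2
  have h4 := hu.lip z' x
  have h5 := g_up (R := r) (z := x) (z' := z') hr1 hz1 hz2
  have h6 : Real.log (1 / g z' x) ≤ u x / 100 := by
    have h7 : 1 / g z' x ≤ r := by
      rw [div_le_iff₀ (g_pos _ _)]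
      rw [div_le_iff₀ hr0] at h5
      linarith
    calc Real.log (1 / g z' x) ≤ Real.log r :=
          Real.log_le_log (by have := g_pos z' x; positivity) h7
      _ = u x / 100 := Real.log_exp _
  have h8 : u z' + 26 ≤ 101 * r := by
    have := Real.add_one_le_exp (u x / 100)
    rw [← hr] at this
    nlinarith
  calc _ ≤ _ := h1
    _ ≤ 8 / r * (1500 * (101 * r)) := by
        refine mul_le_mul_of_nonneg_left (h2.trans ?_) (by positivity)
        exact mul_le_mul_of_nonneg_left h8 (by norm_num)
    _ = 1212000 := by field_simp; norm_num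

end Rtb

theorem R3 {s u : ℍ → ℝ} (hs : Tame s) (hu : Tame u) (i : Bool) (T : ℝ) : ∃ Ψ : ℝ, ∀ x, s x ≤ T →
    ∀ᶠ n in atTop, pf i n (wal s u i n) x ≤ T → ∃ c : Option Sq,
      pf i n (rst (lay u i n 0) fun J => sta s u i n J ≠ St.N c) x ≤ Ψ ∧
      (Ψ ≤ u x → ∃ I ∈ all n, 4 / 5 ≤ g x (ctr i n I) ∧ sta s u i n I = St.N c) := by
  classical
  obtain ⟨N0, hN0⟩ := class_const hs hu i T
  obtain ⟨C, hC⟩ := entry_sum 39000 (by norm_num)
  refine ⟨max (1500 * (max N0 0 + 26)) (1212000 + max C 0 * Real.exp T), ?_⟩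
  intro x hx
  have hux := hu.1 x
  have hxim := x.im_pos
  rcases lt_or_ge (u x) N0 with hlt | hge
  · -- small `u`
    refine Filter.Eventually.of_forall fun n _ => ⟨none, ?_, ?_⟩
    · refine le_max_of_le_left ?_
      refine le_trans (pf_mono (ν := lay u i n 0) ?_ x) (le_trans (lay_le hu i n 0 x) ?_)
      · intro J _
        unfold rst
        split_ifs <;> omega
      · have h3 : max (u x - 0) 0 ≤ max N0 0 := by
          rw [sub_zero]
          exact max_le_max hlt.le le_rfl
        linarith
    · intro h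
      exfalso
      have h1 : 1500 * (max N0 0 + 26) ≤ u x := le_trans (le_max_left _ _) h
      have h2 : N0 ≤ max N0 0 := le_max_left _ _
      have h3 : 0 ≤ max N0 0 := le_max_right _ _
      linarith
  · -- large `u`
    set r : ℝ := Real.exp (u x / 100) with hr
    have hr0 : 0 < r := Real.exp_pos _
    have hr1 : 1 ≤ r := Real.one_le_exp (by positivity)
    have hri : Real.exp (-(u x / 100)) = 1 / r := by rw [Real.exp_neg, one_div]
    have ht0 : 0 < x.im / r := by positivity
    have htr : x.im / r ≤ x.im := div_le_self hxim.le hr1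
    have hrt : x.im ≤ r * x.im := by nlinarith
    filter_upwards [hN0 x hx hge, exists_sq i x, exists_size (x.im / r) ht0] with n h1 h2 h3 hwal
    obtain ⟨c, hc⟩ := h1 hwal
    rw [hri] at hc
    have hc' : ∀ J ∈ all n, |x.re - (ctr i n J).re| ≤ 2 * r * x.im → len n J ≤ 2 * r * x.im →
        x.im / r ≤ len n J → sta s u i n J = St.N c := by
      intro J hJ a b d
      refine hc J hJ a b ?_
      rw [one_div, inv_mul_eq_div]
      exact d
    refine ⟨c, ?_, ?_⟩
    · refine le_max_of_le_right ?_
      -- the set of bad squares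
      set B : Finset Sq := (all n).filter fun J => sta s u i n J ≠ St.N c with hB
      have hpf : pf i n (rst (lay u i n 0) fun J => sta s u i n J ≠ St.N c) x =
          ∑ J ∈ B, (lay u i n 0 J : ℝ) * g x (ctr i n J) := by
        unfold pf
        rw [hB, Finset.sum_filter]
        refine Finset.sum_congr rfl fun J _ => ?_
        unfold rst
        split_ifs with h
        · rfl
        · simp
      rw [hpf]
      set Bf : Finset Sq := B.filter fun J => r * x.im ≤ |x.re - (ctr i n J).re| + len n J with hBf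
      set Bn : Finset Sq := B.filter fun J => ¬ r * x.im ≤ |x.re - (ctr i n J).re| + len n J
        with hBn
      have hsplit : ∑ J ∈ B, (lay u i n 0 J : ℝ) * g x (ctr i n J) =
          ∑ J ∈ Bf, (lay u i n 0 J : ℝ) * g x (ctr i n J) +
          ∑ J ∈ Bn, (lay u i n 0 J : ℝ) * g x (ctr i n J) := by
        rw [hBf, hBn, Finset.sum_filter_add_sum_filter_not]
      rw [hsplit]
      have hfar : ∑ J ∈ Bf, (lay u i n 0 J : ℝ) * g x (ctr i n J) ≤ 1212000 := by
        refine Rtb.far_le hu i n x Bf ?_ ?_
        · intro J hJ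
          exact (Finset.mem_filter.1 (Finset.mem_filter.1 hJ).1).1
        · intro J hJ
          exact (Finset.mem_filter.1 hJ).2
      -- entry squares
      set E : Finset Sq := (all n).filter fun R => ∃ K ∈ all n, x.im / r ≤ len n K ∧
        len n K < 2 * (x.im / r) ∧ Below R K ∧ R ≠ K ∧ sta s u i n R = St.O ∧
        2 * u (ctr i n R) + 40 ≤ s (ctr i n R) ∧
        ∀ K', Below R K' → Below K' K → K' ≠ R → sta s u i n K' = St.N c with hE
      have hEsub : E ⊆ all n := Finset.filter_subset _ _
      have hlen2 : ∀ R K : Sq, Below R K → R ≠ K → 2 * len n R ≤ len n K := by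
        intro R K hRK hne
        obtain ⟨h0, h4⟩ := hRK.par_below hne
        have h5 := h4.len_le (n := n)
        rw [len_par h0] at h5
        exact h5
      have hEanti : ∀ J ∈ E, ∀ K ∈ E, Below J K → J = K := by
        intro R1 hR1 R2 hR2 hb
        obtain ⟨hm1, K1, hK1m, hK1l, hK1u, hK1b, hK1n, hO1, hs1, hK1a⟩ := Finset.mem_filter.1 hR1
        obtain ⟨hm2, K2, hK2m, hK2l, hK2u, hK2b, hK2n, hO2, hs2, hK2a⟩ := Finset.mem_filter.1 hR2
        by_contra hne
        rcases le_total K1.1 R2.1 with h | h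
        · have h4 : Below R2 K1 := Below.chain hK1b hb h
          have h5 := hK1a R2 hb h4 (fun h => hne h.symm)
          rw [hO2] at h5
          exact absurd h5 (by simp)
        · have h4 : Below K1 R2 := Below.chain hb hK1b h
          have h5 := h4.len_le (n := n)
          have h6 := hlen2 R2 K2 hK2b hK2n
          linarith
      have hElen : ∀ R ∈ E, len n R ≤ x.im := by
        intro R hR
        obtain ⟨hm1, K1, hK1m, hK1l, hK1u, hK1b, hK1n, hO1, hs1, hK1a⟩ := Finset.mem_filter.1 hR
        have h6 := hlen2 R K1 hK1b hK1n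
        linarith
      have hEmass : ∀ R ∈ E, ∑ J ∈ dn n R, (lay u i n 0 J : ℝ) * len n J ≤
          39000 * Real.exp (s (ctr i n R) / 40) * len n R := by
        intro R hR
        obtain ⟨hm1, K1, hK1m, hK1l, hK1u, hK1b, hK1n, hO1, hs1, hK1a⟩ := Finset.mem_filter.1 hR
        exact Rtb.mass_le' hu i hs1
      have hsum := hC s hs i n x E (fun J => (lay u i n 0 J : ℝ)) hEsub hEanti hElen
        (fun J => Nat.cast_nonneg _) hEmass
      have hnear : ∑ J ∈ Bn, (lay u i n 0 J : ℝ) * g x (ctr i n J) ≤ max C 0 * Real.exp T := by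
        have hsub : Bn ⊆ (all n).filter fun J => ∃ R ∈ E, Below J R := by
          intro J hJ
          obtain ⟨hJB, hJn⟩ := Finset.mem_filter.1 hJ
          obtain ⟨hJm, hJs⟩ := Finset.mem_filter.1 hJB
          refine Finset.mem_filter.2 ⟨hJm, ?_⟩
          push Not at hJn
          have hlJ := len_pos n J
          have habs := abs_nonneg (x.re - (ctr i n J).re)
          have hJlt : len n J < x.im / r := by
            by_contra hcon
            push Not at hcon
            exact hJs (hc' J hJm (by linarith) (by linarith) hcon)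
          obtain ⟨K, hKm, hKb, hKn, hKl, hKu, _⟩ := h3 J hJm hJlt
          have hKre : |x.re - (ctr i n K).re| ≤ 2 * r * x.im := by
            have h4 := below_re i (n := n) hKb
            have h5 : |x.re - (ctr i n K).re| ≤ |x.re - (ctr i n J).re| +
                |(ctr i n J).re - (ctr i n K).re| := abs_sub_le _ _ _
            linarith
          have hKs : sta s u i n K = St.N c := hc' K hKm hKre (by linarith) hKl
          obtain ⟨R, hJR, hRK, hRne, hRO, hRs, hRa⟩ := exists_entry hKb hKs hJs
          refine ⟨R, Finset.mem_filter.2 ⟨anc_mem hJm hJR, K, hKm, hKl, hKu, hRK, hRne, hRO,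
            hRs, hRa⟩, hJR⟩
        refine le_trans (Finset.sum_le_sum_of_subset_of_nonneg hsub ?_) (le_trans hsum ?_)
        · intro J _ _
          have := (g_pos x (ctr i n J)).le
          positivity
        · refine mul_le_mul (le_max_left _ _) (Real.exp_le_exp.2 hx) (Real.exp_pos _).le
            (le_max_right _ _)
      linarith
    · intro _
      obtain ⟨I, hI, hg, hre, hl1, hl2⟩ := h2
      refine ⟨I, hI, hg, hc' I hI ?_ ?_ ?_⟩
      · linarith
      · linarith
      · linarith

end

end Pool.Agent.Helper65.HP
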