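import Pool.Agent.Helper65.HP.Uco
import Pool.Agent.Helper65.HP.Ron
import Pool.Agent.Helper65.HP.Rtb
import Pool.Agent.Helper65.HP.Rfo
import Pool.Agent.Helper65.HP.Lab
import Pool.Agent.Helper65.HP.Nz

/-! The core theorem, first part. -/

set_option autoImplicit false

namespace Pool.Agent.Helper65.HP

open UpperHalfPlane Filter Topology

noncomputable section

namespace Core

/-- an admissible function attached to an element of `I` (which may be zero) -/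
theorem admOf {I : Set (ℍ → ℂ)} (hI : CPI I) (hN : ND I) (hI0 : ∃ θ ∈ I, ∃ z, θ z ≠ 0)
    {h : ℍ → ℂ} (hh : h ∈ I) (hU : InU h) : ∃ ψ, Adm I ψ ∧ ∀ (z : ℍ) (K : ℝ), 0 ≤ K →
      (∃ ζ, 3 / 4 ≤ g z ζ ∧ Real.exp (-K) ≤ ‖h ζ‖) → ψ z ≤ Real.log (1 + K) := by
  by_cases h0 : ∃ z, h z ≠ 0
  · refine ⟨phi h, adm_phi hI hN hh hU h0, fun z K hK hζ => ?_⟩
    obtain ⟨ζ, h1, h2⟩ := hζ
    exact phi_le hU hK h1 h2
  · obtain ⟨θ, hθ, z0, hz0⟩ := hI0
    obtain ⟨C, hC, hCU⟩ := (hI.sub θ hθ).scale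
    have hθ' : (fun z => ((1 / C : ℝ) : ℂ) * θ z) ∈ I := by
      have := hI.mul θ hθ (fun _ => ((1 / C : ℝ) : ℂ)) (InH.const _)
      simpa [mul_comm] using this
    refine ⟨phi (fun z => ((1 / C : ℝ) : ℂ) * θ z), adm_phi hI hN hθ' hCU ⟨z0, ?_⟩, ?_⟩
    · refine mul_ne_zero ?_ hz0
      have : (1 / C : ℝ) ≠ 0 := by positivity
      exact_mod_cast this
    · intro z K hK hζ
      obtain ⟨ζ, h1, h2⟩ := hζ
      exfalso
      apply h0
      refine ⟨ζ, ?_⟩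
      intro h3
      rw [h3, norm_zero] at h2
      exact absurd h2 (not_le.mpr (Real.exp_pos _))

theorem phi_small {f : ℍ → ℂ} (hf : InU f) {z : ℍ} {ε : ℝ} (hε : 0 < ε) (hε1 : ε ≤ 1)
    (h : ε ≤ ‖f z‖) : phi f z ≤ Real.log (1 + Real.log (1 / ε)) := by
  have h1 : 0 ≤ Real.log (1 / ε) := Real.log_nonneg (by rw [le_div_iff₀ hε]; linarith)
  refine phi_le (ζ := z) hf h1 ?_ ?_
  · rw [g_self]; norm_num
  · rw [one_div, Real.log_inv, neg_neg, Real.exp_log hε]; exact h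

theorem pot_small {W : Multiset ℍ} {z : ℍ} {ε : ℝ} (hε : 0 < ε) (h : ε ≤ ‖Bl W z‖) :
    pot W z ≤ 2 * Real.log (1 / ε) := by
  have h1 := Bl_le W z
  have h2 : ε ^ 2 ≤ Real.exp (-pot W z) := le_trans (pow_le_pow_left₀ hε.le h 2) h1
  have h3 := Real.log_le_log (by positivity) h2
  rw [Real.log_exp, Real.log_pow] at h3
  rw [one_div, Real.log_inv]
  push_cast at h3
  linarith

/-- `|Bl W z| ≤ exp (- a)` from a lower bound for the potential -/
theorem Bl_le' {W : Multiset ℍ} {z : ℍ} {a : ℝ} (h : 2 * a ≤ pot W z) :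
    ‖Bl W z‖ ≤ Real.exp (-a) := by
  have h1 := Bl_le W z
  have h2 : ‖Bl W z‖ ^ 2 ≤ Real.exp (-a) ^ 2 := by
    refine h1.trans ?_
    rw [← Real.exp_nat_mul]
    apply Real.exp_le_exp.mpr
    push_cast
    linarith
  exact le_of_sq_le_sq h2 (Real.exp_pos _).le |> fun h => h

theorem le_Bl' {W : Multiset ℍ} {z : ℍ} {a : ℝ} (h : pot W z ≤ a) (hw : ∀ w ∈ W, g z w ≤ 3 / 4) :
    Real.exp (-a) ≤ ‖Bl W z‖ := by
  have h1 := Bl_ge34 hw
  have h2 : Real.exp (-a) ^ 2 ≤ ‖Bl W z‖ ^ 2 := by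
    refine le_trans ?_ h1
    rw [← Real.exp_nat_mul]
    apply Real.exp_le_exp.mpr
    push_cast
    linarith
  exact le_of_sq_le_sq h2 (norm_nonneg _) |> fun h => h

end Core

end

end Pool.Agent.Helper65.HP
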