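import Pool.Agent.Helper65.HP.CoreA

/-! The core theorem, second part. -/

set_option autoImplicit false

namespace Pool.Agent.Helper65.HP

open UpperHalfPlane Filter Topology

noncomputable section

namespace Core

/-- the choice of the grid -/
theorem grid {I : Set (ℍ → ℂ)} (hI : CPI I) (hN : ND I) (hI0 : ∃ θ ∈ I, ∃ z, θ z ≠ 0)
    {f : ℍ → ℂ} (hf : InU f) (hfI : f ∉ I) {u : ℍ → ℝ} (hu : Tame u) :
    ∃ (i : Bool) (gw : ℍ → ℂ), InU gw ∧ UL (fun n => Bl (ms i n (wal (phi f) u i n))) gw ∧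
      gw ∉ I := by
  classical
  by_contra hcon
  push Not at hcon
  have hf0 : ∃ z, f z ≠ 0 := by
    by_contra h0
    push Not at h0
    apply hfI
    have : f = fun _ => (0 : ℂ) := funext h0
    rw [this]; exact hI.zero
  have hs : Tame (phi f) := phi_tame hf hf0
  have hgw : ∀ i : Bool, ∃ gw : ℍ → ℂ, InU gw ∧ UL (fun n => Bl (ms i n (wal (phi f) u i n))) gw :=
    fun i => exists_UL_InU (fun n => Bl_InU _)
  choose gw hgU hgL using hgw
  have hgI : ∀ i, gw i ∈ I := fun i => hcon i (gw i) (hgU i) (hgL i)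
  have hψ := fun i => admOf hI hN hI0 (hgI i) (hgU i)
  choose ψ hψA hψ using hψ
  apply hfI
  apply adm_small hI hf
  intro ε hε
  refine ⟨fun z => min (ψ false z) (ψ true z), adm_min hI (hψA false) (hψA true), ?_⟩
  set ε' : ℝ := min ε 1 with hε'
  have hε'0 : 0 < ε' := lt_min hε one_pos
  obtain ⟨Ψ, hΨ⟩ := R1 hs hu (Real.log (1 + Real.log (1 / ε')))
  obtain ⟨K, hK, hnz⟩ := near_nonzero Ψ
  refine ⟨Real.log (1 + K), fun z hz => ?_⟩
  by_contra hlt
  push Not at hlt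
  have h1 : phi f z ≤ Real.log (1 + Real.log (1 / ε')) :=
    phi_small hf hε'0 (min_le_right _ _) ((min_le_left _ _).trans hlt.le)
  have h2 := ev_hyper (hΨ z h1)
  rw [Ultrafilter.eventually_or] at h2
  have key : ∀ i : Bool, (∀ᶠ n in (hyperfilter ℕ : Filter ℕ),
      pf i n (wal (phi f) u i n) z ≤ Ψ) → False := by
    intro i hi
    have h3 := hnz (fun n => ms i n (wal (phi f) u i n)) (gw i) z (hgL i)
      (hi.mono fun n hn => by rw [pot_ms]; exact hn)
    have h4 := hψ i z K hK.le h3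
    have h5 : Real.log (1 + K) < ψ i z := by
      cases i
      · exact lt_of_lt_of_le hz (min_le_left _ _)
      · exact lt_of_lt_of_le hz (min_le_right _ _)
    linarith
  rcases h2 with h2 | h2
  · exact key false h2
  · exact key true h2

/-- the criterion -/
theorem crit {I : Set (ℍ → ℂ)} (hI : CPI I) {f : ℍ → ℂ} (hf : InU f) {s u : ℍ → ℝ}
    (hs : s = phi f) {i : Bool} {gw : ℍ → ℂ} (hgU : InU gw)
    (hgL : UL (fun n => Bl (ms i n (wal s u i n))) gw) {X : ℍ → ℂ} (hX : InU X)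
    (h : ∀ T : ℝ, ∃ ψ, Adm I ψ ∧ ∃ k : ℝ, ∀ z, s z ≤ T →
      (∀ᶠ n in (hyperfilter ℕ : Filter ℕ), pf i n (wal s u i n) z ≤ T) → k < ψ z →
      ‖X z‖ ≤ Real.exp (-T)) : (fun z => f z * (gw z * X z)) ∈ I := by
  apply adm_small hI (hf.mul (hgU.mul hX))
  intro ε hε
  set ε' : ℝ := min ε 1 with hε'
  have hε'0 : 0 < ε' := lt_min hε one_pos
  have hε'1 : ε' ≤ 1 := min_le_right _ _
  have hlog : 0 ≤ Real.log (1 / ε') := Real.log_nonneg (by rw [le_div_iff₀ hε'0]; linarith)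
  set T : ℝ := Real.log (1 + Real.log (1 / ε')) + 2 * Real.log (1 / ε') with hT
  have hT0 : 0 ≤ Real.log (1 + Real.log (1 / ε')) := Real.log_nonneg (by linarith)
  obtain ⟨ψ, hψ, k, hk⟩ := h T
  refine ⟨ψ, hψ, k, fun z hz => ?_⟩
  by_contra hlt
  push Not at hlt
  have e1 : ε' ≤ ε := min_le_left _ _
  have n1 : ‖f z‖ ≤ 1 := hf.2 z
  have n2 : ‖gw z‖ ≤ 1 := hgU.2 z
  have n3 : ‖X z‖ ≤ 1 := hX.2 z
  rw [norm_mul, norm_mul] at hlt
  have p1 := norm_nonneg (f z)
  have p2 := norm_nonneg (gw z)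
  have p3 := norm_nonneg (X z)
  have m1 : ‖gw z‖ * ‖X z‖ ≤ 1 := by nlinarith
  have m2 : ‖f z‖ * (‖gw z‖ * ‖X z‖) ≤ ‖f z‖ := by nlinarith [mul_nonneg p2 p3]
  have m3 : ‖f z‖ * (‖gw z‖ * ‖X z‖) ≤ ‖gw z‖ * ‖X z‖ := by nlinarith [mul_nonneg p2 p3]
  have m4 : ‖gw z‖ * ‖X z‖ ≤ ‖gw z‖ := by nlinarith
  have m5 : ‖gw z‖ * ‖X z‖ ≤ ‖X z‖ := by nlinarith
  have f1 : ε' < ‖f z‖ := by linarith
  have f2 : ε' < ‖gw z‖ := by linarith
  have f3 : ε' < ‖X z‖ := by linarith
  have a1 : s z ≤ T := by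
    rw [hs]
    exact (phi_small hf hε'0 hε'1 f1.le).trans (by rw [hT]; linarith)
  have a2 : ∀ᶠ n in (hyperfilter ℕ : Filter ℕ), pf i n (wal s u i n) z ≤ T := by
    have hev : ∀ᶠ n in (hyperfilter ℕ : Filter ℕ), ε' < ‖Bl (ms i n (wal s u i n)) z‖ :=
      (hgL z).norm.eventually (lt_mem_nhds f2)
    refine hev.mono fun n hn => ?_
    have := pot_small hε'0 hn.le
    rw [pot_ms] at this
    rw [hT]; linarith
  have a3 := hk z a1 a2 hz
  have a4 : Real.exp (-T) ≤ ε' := by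
    rw [← Real.exp_log hε'0]
    apply Real.exp_le_exp.mpr
    rw [one_div, Real.log_inv] at *
    linarith
  linarith

/-- functions which are bounded below on `V` are not in `I` -/
theorem corona_contra {I : Set (ℍ → ℂ)} (hI : CPI I) {p : ℕ}
    (gs : Fin p → ℍ → ℂ) (hgs : ∀ j, InH (gs j))
    (hgI : ∀ α : Fin p → ℍ → ℂ, (∀ j, InH (α j)) → (fun z => 1 - ∑ j, gs j z * α j z) ∉ I)
    {s u : ℍ → ℝ} (hu : Adm I u) {N1 : ℝ}
    (hV : ∀ z, (∀ j, ‖gs j z‖ ≤ 1 / 4) → N1 ≤ u z → 400 * (u z + 1) ≤ s z)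
    {X : ℍ → ℂ} (hX : InU X) {c : ℝ} (hc : 0 < c)
    (h : ∀ z, 400 * (u z + 1) ≤ s z → c ≤ ‖X z‖) : X ∉ I := by
  intro hXI
  obtain ⟨κ, hκI, hκU, hκ⟩ := hu.2 N1
  choose C hC hCU using fun j => (hgs j).scale
  -- a common lower bound for the constants `1 / (4 C j)`
  obtain ⟨D, hD0, hD⟩ : ∃ D : ℝ, 0 < D ∧ ∀ j, D ≤ 1 / (4 * C j) := by
    refine ⟨1 / (4 * (1 + ∑ j, C j)), ?_, fun j => ?_⟩
    · have : 0 ≤ ∑ j, C j := Finset.sum_nonneg fun j _ => by linarith [hC j]
      positivity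
    · have h1 : C j ≤ ∑ j, C j := Finset.single_le_sum (fun j _ => by linarith [hC j])
        (Finset.mem_univ j)
      have h2 := hC j
      apply one_div_le_one_div_of_le (by linarith) (by linarith)
  set δ : ℝ := min (min c0 c) D with hδ
  have hc0 : 0 < c0 := Real.exp_pos _
  have hδ0 : 0 < δ := lt_min (lt_min hc0 hc) hD0
  obtain ⟨α, hα, hmem⟩ := corona hI hδ0 (p := 2) (q := p) ![κ, X]
    (fun j z => ((1 / C j : ℝ) : ℂ) * gs j z) (by
      intro j
      fin_cases j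
      · exact ⟨hκI, hκU⟩
      · exact ⟨hXI, hX⟩) (fun j => hCU j) (by
      intro z
      by_cases h1 : u z ≤ N1
      · left
        refine ⟨0, ?_⟩
        have := hκ z h1
        simp only [Matrix.cons_val_zero]
        exact ((min_le_left _ _).trans (min_le_left _ _)).trans this
      · push Not at h1
        by_cases h2 : ∀ j, ‖gs j z‖ ≤ 1 / 4
        · left
          refine ⟨1, ?_⟩
          have := h z (hV z h2 h1.le)
          simp only [Matrix.cons_val_one, Matrix.cons_val_zero]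
          exact ((min_le_left _ _).trans (min_le_right _ _)).trans this
        · right
          push Not at h2
          obtain ⟨j, hj⟩ := h2
          refine ⟨j, ?_⟩
          have hCj : 0 < C j := by linarith [hC j]
          rw [norm_mul, Complex.norm_real, Real.norm_of_nonneg (by positivity)]
          refine ((min_le_right _ _).trans (hD j)).trans ?_
          have : 1 / (4 * C j) = 1 / C j * (1 / 4) := by field_simp
          rw [this]
          exact mul_le_mul_of_nonneg_left hj.le (by positivity))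
  refine hgI (fun j z => ((1 / C j : ℝ) : ℂ) * α j z) (fun j => (InH.const _).mul (hα j)) ?_
  have : (fun z => 1 - ∑ j, gs j z * (((1 / C j : ℝ) : ℂ) * α j z)) =
      fun z => 1 - ∑ j, ((1 / C j : ℝ) : ℂ) * gs j z * α j z := by
    funext z
    congr 1
    apply Finset.sum_congr rfl
    intro j _
    ring
  rw [this]
  exact hmem

end Core

end

end Pool.Agent.Helper65.HP
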