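import Pool.Agent.Helper65.HP.CoreB

/-! The core theorem, third part: zeros of the layering, classes and labels. -/

set_option autoImplicit false

namespace Pool.Agent.Helper65.HP

open UpperHalfPlane Filter Topology

noncomputable section

namespace Core

/-- the layering function of `u` is in `I` -/
theorem lay_mem {I : Set (ℍ → ℂ)} (hI : CPI I) {u : ℍ → ℝ} (hu : Adm I u) {i : Bool}
    {h : ℍ → ℂ} (hU : InU h) (hL : UL (fun n => Bl (ms i n (lay u i n 0))) h) : h ∈ I := by
  apply adm_small hI hU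
  intro ε hε
  refine ⟨u, hu, 5 + 10 * Real.log (1 / ε), fun z hz => ?_⟩
  have h1 := ev_hyper (lay_ge hu.1 le_rfl i z)
  have h2 : ‖h z‖ ≤ Real.exp (-((u z - 5) / 10)) := by
    refine hL.norm_le (h1.mono fun n hn => ?_)
    apply Bl_le'
    rw [pot_ms]
    linarith
  refine h2.trans ?_
  rw [← Real.exp_log hε]
  apply Real.exp_le_exp.mpr
  rw [one_div, Real.log_inv] at hz
  linarith

/-- splitting a family along a finite partition -/
theorem split_mem {I : Set (ℍ → ℂ)} (hI : CPI I) {i : Bool} (m : ℕ) (μ : ℕ → Sq → ℕ)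
    (ν : ℕ → ℕ → Sq → ℕ) (hμ : ∀ n J, μ n J = ∑ a ∈ Finset.range m, ν n a J) {h : ℍ → ℂ}
    (hL : UL (fun n => Bl (ms i n (μ n))) h) (hh : h ∈ I) :
    ∃ a < m, ∃ h' ∈ I, InU h' ∧ UL (fun n => Bl (ms i n (ν n a))) h' := by
  have hex : ∀ a : ℕ, ∃ h' : ℍ → ℂ, InU h' ∧ UL (fun n => Bl (ms i n (ν n a))) h' :=
    fun a => exists_UL_InU (fun n => Bl_InU _)
  choose k hkU hkL using hex
  have h1 : UL (fun n z => ∏ a ∈ Finset.range m, Bl (ms i n (ν n a)) z)
      (fun z => ∏ a ∈ Finset.range m, k a z) := UL.prod _ fun a _ => hkL a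
  have h2 : (fun n z => ∏ a ∈ Finset.range m, Bl (ms i n (ν n a)) z) =
      fun n => Bl (ms i n (μ n)) := by
    funext n z
    have : ms i n (μ n) = ∑ a ∈ Finset.range m, ms i n (ν n a) := by
      unfold ms
      rw [Finset.sum_comm]
      refine Finset.sum_congr rfl fun J _ => ?_
      rw [hμ, Finset.sum_nsmul_assoc]
    rw [this, Bl_finsum]
  rw [h2] at h1
  have h3 : h = fun z => ∏ a ∈ Finset.range m, k a z := UL.unique hL h1
  rw [h3] at hh
  obtain ⟨a, ha, hmem⟩ := hI.prod_mem _ _ (fun a _ => (hkU a).inH) hh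
  exact ⟨a, Finset.mem_range.1 ha, k a, hmem, hkU a, hkL a⟩

/-- the three parts of the layering -/
theorem lay_split (μ : Sq → ℕ) (σ : Sq → St) (J : Sq) : μ J = ∑ a ∈ Finset.range 3,
    (if a = 0 then rst μ (fun J => σ J = St.O) J else
      if a = 1 then rst μ (fun J => σ J = St.N none) J else
        rst μ (fun J => ∃ S, σ J = St.N (some S)) J) := by
  rw [Finset.sum_range_succ, Finset.sum_range_succ, Finset.sum_range_one]
  rw [if_pos rfl, if_neg one_ne_zero, if_pos rfl, if_neg two_ne_zero, if_neg (by norm_num)]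
  unfold rst
  beta_reduce
  rcases σ J with _ | c
  · simp
  · rcases c with _ | S
    · simp
    · simp

/-- membership of the product over the classes -/
theorem class_mem {I : Set (ℍ → ℂ)} (hI : CPI I) (hN : ND I) (hI0 : ∃ θ ∈ I, ∃ z, θ z ≠ 0)
    {p : ℕ} (gs : Fin p → ℍ → ℂ) (hgs : ∀ j, InH (gs j))
    (hgI : ∀ α : Fin p → ℍ → ℂ, (∀ j, InH (α j)) → (fun z => 1 - ∑ j, gs j z * α j z) ∉ I)
    {f : ℍ → ℂ} (hf : InU f) (hfI : f ∉ I) {s u : ℍ → ℝ} (hs : s = phi f) (hsT : Tame s)
    (hu : Adm I u) {N1 : ℝ}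
    (hV : ∀ z, (∀ j, ‖gs j z‖ ≤ 1 / 4) → N1 ≤ u z → 400 * (u z + 1) ≤ s z)
    {i : Bool} {gw : ℍ → ℂ} (hgU : InU gw)
    (hgL : UL (fun n => Bl (ms i n (wal s u i n))) gw) (hgwI : gw ∉ I) :
    ∃ h ∈ I, InU h ∧ UL (fun n => Bl (ms i n (rst (lay u i n 0)
      (fun J => ∃ S, sta s u i n J = St.N (some S))))) h := by
  obtain ⟨h, hhU, hhL⟩ := exists_UL_InU (Fn := fun n => Bl (ms i n (lay u i n 0)))
    (fun n => Bl_InU _)
  have hhI := lay_mem hI hu hhU hhL
  obtain ⟨a, ha, h', hh'I, hh'U, hh'L⟩ := split_mem hI 3 (fun n => lay u i n 0)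
    (fun n a J => if a = 0 then rst (lay u i n 0) (fun J => sta s u i n J = St.O) J else
      if a = 1 then rst (lay u i n 0) (fun J => sta s u i n J = St.N none) J else
        rst (lay u i n 0) (fun J => ∃ S, sta s u i n J = St.N (some S)) J)
    (fun n J => lay_split _ _ J) hhL hhI
  have hcase : a = 0 ∨ a = 1 ∨ a = 2 := by omega
  rcases hcase with rfl | rfl | rfl
  · exfalso
    simp only [if_true] at hh'L
    obtain ⟨ψ, hψA, hψ⟩ := admOf hI hN hI0 hh'I hh'U
    have hmem := crit hI hf hs hgU hgL InU.one (by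
      intro T
      obtain ⟨Ψ, hΨ⟩ := R3 hsT hu.1 i T
      obtain ⟨K, hK, hnz⟩ := near_nonzero Ψ
      refine ⟨ψ, hψA, Real.log (1 + K), fun z h1 h2 h3 => ?_⟩
      exfalso
      have h4 := ev_hyper (hΨ z h1)
      have h5 := hnz _ h' z hh'L ((h4.and h2).mono fun n hn => by
        rw [pot_ms]
        obtain ⟨c, hc, -⟩ := hn.1 hn.2
        refine le_trans (pf_mono (fun J _ => ?_) z) hc
        unfold rst
        by_cases hJ : sta s u i n J = St.O
        · have hne : sta s u i n J ≠ St.N c := by rw [hJ]; exact fun h => by cases h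
          rw [if_pos hJ, if_pos hne]
        · rw [if_neg hJ]; exact Nat.zero_le _)
      have h6 := hψ z K hK.le h5
      linarith)
    simp only [mul_one] at hmem
    rcases hI.prime f gw hf.inH hgU.inH hmem with h1 | h1
    · exact hfI h1
    · exact hgwI h1
  · exfalso
    simp only [if_neg one_ne_zero, if_true] at hh'L
    refine corona_contra hI gs hgs hgI hu hV hh'U (c := Real.exp (-1)) (Real.exp_pos _) ?_ hh'I
    intro z hz
    have h4 := ev_hyper (R4 hsT hu.1 i hz)
    refine hh'L.le_norm (h4.mono fun n hn => ?_)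
    apply le_Bl'
    · rw [pot_ms]; exact hn.1
    · intro w hw
      obtain ⟨J, hJ, hne, rfl⟩ := mem_ms hw
      have : sta s u i n J = St.N none := by
        by_contra hcon
        apply hne
        show rst (lay u i n 0) (fun J => sta s u i n J = St.N none) J = 0
        unfold rst
        rw [if_neg hcon]
      refine hn.2 J hJ ?_ this
      intro h0
      apply hne
      show rst (lay u i n 0) (fun J => sta s u i n J = St.N none) J = 0
      unfold rst
      rw [if_pos this, h0]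
  · refine ⟨h', hh'I, hh'U, ?_⟩
    simpa using hh'L

/-- the squares with prescribed labels up to level `M` -/
def cls (lab : ℕ → ℕ → Sq → ℕ) (v : ℕ → ℕ) (M n : ℕ) (S : Sq) : Prop :=
  ∀ m, 1 ≤ m → m ≤ M → lab n m S = v m

/-- the zeros with these labels -/
def muA (s u : ℍ → ℝ) (i : Bool) (lab : ℕ → ℕ → Sq → ℕ) (v : ℕ → ℕ) (M n : ℕ) : Sq → ℕ :=
  rst (lay u i n 0) (fun J => ∃ S, sta s u i n J = St.N (some S) ∧ cls lab v M n S)

theorem muA_zero (s u : ℍ → ℝ) (i : Bool) (lab : ℕ → ℕ → Sq → ℕ) (v : ℕ → ℕ) (n : ℕ) :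
    muA s u i lab v 0 n = rst (lay u i n 0) (fun J => ∃ S, sta s u i n J = St.N (some S)) := by
  unfold muA
  congr 1
  funext J
  simp only [eq_iff_iff]
  constructor
  · rintro ⟨S, h, -⟩; exact ⟨S, h⟩
  · rintro ⟨S, h⟩; exact ⟨S, h, fun m h1 h2 => by omega⟩

theorem cls_congr {lab : ℕ → ℕ → Sq → ℕ} {v v' : ℕ → ℕ} {M : ℕ} (h : ∀ m, 1 ≤ m → m ≤ M → v m = v' m)
    (n : ℕ) (S : Sq) : cls lab v M n S ↔ cls lab v' M n S := by
  unfold cls
  constructor
  · intro hh m h1 h2; rw [hh m h1 h2, h m h1 h2]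
  · intro hh m h1 h2; rw [hh m h1 h2, h m h1 h2]

theorem muA_congr {s u : ℍ → ℝ} {i : Bool} {lab : ℕ → ℕ → Sq → ℕ} {v v' : ℕ → ℕ} {M : ℕ}
    (h : ∀ m, 1 ≤ m → m ≤ M → v m = v' m) (n : ℕ) :
    muA s u i lab v M n = muA s u i lab v' M n := by
  unfold muA
  congr 1
  funext J
  simp only [cls_congr h]

theorem muA_succ {s u : ℍ → ℝ} {i : Bool} {lab : ℕ → ℕ → Sq → ℕ}
    (hlab : ∀ n M S, lab n M S < 4 ^ M) (v : ℕ → ℕ) (M n : ℕ) (J : Sq) :
    muA s u i lab v M n J = ∑ a ∈ Finset.range (4 ^ (M + 1)),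
      muA s u i lab (Function.update v (M + 1) a) (M + 1) n J := by
  classical
  have hup : ∀ (a : ℕ) (S : Sq), cls lab (Function.update v (M + 1) a) (M + 1) n S ↔
      cls lab v M n S ∧ lab n (M + 1) S = a := by
    intro a S
    unfold cls
    constructor
    · intro h
      refine ⟨fun m h1 h2 => ?_, ?_⟩
      · rw [h m h1 (by omega), Function.update_of_ne (by omega)]
      · rw [h (M + 1) (by omega) le_rfl, Function.update_self]
    · rintro ⟨h, h'⟩ m h1 h2
      rcases Nat.lt_or_ge m (M + 1) with h3 | h3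
      · rw [h m h1 (by omega), Function.update_of_ne (by omega)]
      · have : m = M + 1 := by omega
        subst this
        rw [h', Function.update_self]
  unfold muA rst
  by_cases hJ : ∃ S, sta s u i n J = St.N (some S) ∧ cls lab v M n S
  · obtain ⟨S, hS, hc⟩ := hJ
    rw [if_pos ⟨S, hS, hc⟩, Finset.sum_eq_single_of_mem (lab n (M + 1) S)
      (Finset.mem_range.2 (hlab n (M + 1) S))]
    · rw [if_pos ⟨S, hS, (hup _ _).2 ⟨hc, rfl⟩⟩]
    · intro b _ hb
      rw [if_neg]
      rintro ⟨S', hS', hc'⟩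
      rw [hS] at hS'
      have : S = S' := by injection hS' with h1; injection h1
      subst this
      exact hb ((hup b S).1 hc').2.symm
  · rw [if_neg hJ]
    symm
    apply Finset.sum_eq_zero
    intro b _
    rw [if_neg]
    rintro ⟨S', hS', hc'⟩
    exact hJ ⟨S', hS', ((hup b S').1 hc').1⟩

/-- choice of the labels -/
theorem exists_labels {I : Set (ℍ → ℂ)} (hI : CPI I) {s u : ℍ → ℝ} {i : Bool}
    {lab : ℕ → ℕ → Sq → ℕ} (hlab : ∀ n M S, lab n M S < 4 ^ M) {h : ℍ → ℂ} (hh : h ∈ I)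
    (hU : InU h) (hL : UL (fun n => Bl (ms i n (rst (lay u i n 0)
      (fun J => ∃ S, sta s u i n J = St.N (some S))))) h) :
    ∃ v : ℕ → ℕ, ∀ M, ∃ h' ∈ I, InU h' ∧ UL (fun n => Bl (ms i n (muA s u i lab v M n))) h' := by
  let P : ℕ → (ℕ → ℕ) → Prop := fun M v =>
    ∃ h' ∈ I, InU h' ∧ UL (fun n => Bl (ms i n (muA s u i lab v M n))) h'
  have h0 : P 0 (fun _ => 0) := ⟨h, hh, hU, by simpa only [muA_zero] using hL⟩
  have hstep : ∀ M v, P M v → ∃ a, P (M + 1) (Function.update v (M + 1) a) := by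
    rintro M v ⟨h', hh', -, hL'⟩
    obtain ⟨a, -, h'', k1, k2, k3⟩ := split_mem hI (4 ^ (M + 1)) (fun n => muA s u i lab v M n)
      (fun n a => muA s u i lab (Function.update v (M + 1) a) (M + 1) n)
      (fun n J => muA_succ hlab v M n J) hL' hh'
    exact ⟨a, h'', k1, k2, k3⟩
  classical
  let nx : ℕ → (ℕ → ℕ) → (ℕ → ℕ) := fun M v =>
    if hP : P M v then Function.update v (M + 1) (hstep M v hP).choose else v
  let V : ℕ → (ℕ → ℕ) := fun M => Nat.rec (fun _ => 0) nx M
  have hV : ∀ M, P M (V M) := by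
    intro M
    induction M with
    | zero => exact h0
    | succ M ih =>
      have : V (M + 1) = Function.update (V M) (M + 1) (hstep M (V M) ih).choose := by
        show nx M (V M) = _
        simp only [nx, dif_pos ih]
      rw [this]
      exact (hstep M (V M) ih).choose_spec
  have hag : ∀ M m, m ≤ M → V M m = V m m := by
    intro M
    induction M with
    | zero => intro m hm; have : m = 0 := by omega
              subst this; rfl
    | succ M ih =>
      intro m hm
      rcases Nat.lt_or_ge m (M + 1) with h3 | h3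
      · have : V (M + 1) = Function.update (V M) (M + 1) (hstep M (V M) (hV M)).choose := by
          show nx M (V M) = _
          simp only [nx, dif_pos (hV M)]
        rw [this, Function.update_of_ne (by omega), ih m (by omega)]
      · have : m = M + 1 := by omega
        subst this; rfl
  refine ⟨fun m => V m m, fun M => ?_⟩
  obtain ⟨h', k1, k2, k3⟩ := hV M
  refine ⟨h', k1, k2, ?_⟩
  have : (fun n => Bl (ms i n (muA s u i lab (fun m => V m m) M n))) =
      fun n => Bl (ms i n (muA s u i lab (V M) M n)) := by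
    funext n
    rw [muA_congr (v := fun m => V m m) (v' := V M) (fun m _ h2 => (hag M m h2).symm)]
  rw [this]
  exact k3

end Core

end

end Pool.Agent.Helper65.HP
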