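import Pool.Agent.Helper59.DG.Def

/-!
# Hulls of closed prime ideals: definitions
-/

set_option autoImplicit false

namespace Pool.Agent.Helper65.HP

open UpperHalfPlane Filter Topology

noncomputable section

/-! ## kernels, potentials, Blaschke products on the upper half plane -/

/-- the kernel `1 - |b_w(z)|^2` -/
def g (z w : ℍ) : ℝ := 4 * z.im * w.im / ((z.re - w.re) ^ 2 + (z.im + w.im) ^ 2)

/-- the Blaschke factor `b_w(z)` -/
def bf (w z : ℍ) : ℂ := ((z : ℂ) - (w : ℂ)) / ((z : ℂ) - starRingEnd ℂ (w : ℂ))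

/-- the potential of a finite multiset -/
def pot (W : Multiset ℍ) (z : ℍ) : ℝ := (W.map fun w => g z w).sum

/-- the finite Blaschke product -/
def Bl (W : Multiset ℍ) (z : ℍ) : ℂ := (W.map fun w => bf w z).prod

/-- analytic functions on the upper half plane -/
def An (F : ℍ → ℂ) : Prop := DifferentiableOn ℂ (fun z : ℂ => F (ofComplex z)) {z : ℂ | 0 < z.im}

/-- the closed unit ball of `H^∞` -/
def InU (F : ℍ → ℂ) : Prop := An F ∧ ∀ z, ‖F z‖ ≤ 1

/-- bounded analytic functions -/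
def InH (F : ℍ → ℂ) : Prop := An F ∧ ∃ C : ℝ, ∀ z, ‖F z‖ ≤ C

/-- pointwise limit along the fixed nonprincipal ultrafilter on `ℕ` -/
def UL (Fn : ℕ → ℍ → ℂ) (F : ℍ → ℂ) : Prop :=
  ∀ z, Tendsto (fun n => Fn n z) (hyperfilter ℕ : Filter ℕ) (𝓝 (F z))

/-- the Cayley transform and its inverse -/
def cay (z : ℍ) : ℂ := ((z : ℂ) - Complex.I) / ((z : ℂ) + Complex.I)

/-- functions on the disc -> functions on the half plane -/
def toH (G : ℂ → ℂ) (z : ℍ) : ℂ := G (cay z)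

/-- functions on the half plane -> functions on the disc -/
def toD (F : ℍ → ℂ) (ζ : ℂ) : ℂ := F (ofComplex (Complex.I * (1 + ζ) / (1 - ζ)))

/-! ## closed prime ideals -/

/-- closed prime ideals of `H^∞` of the half plane -/
structure CPI (I : Set (ℍ → ℂ)) : Prop where
  sub : ∀ F ∈ I, InH F
  zero : (fun _ => (0 : ℂ)) ∈ I
  add : ∀ F ∈ I, ∀ G ∈ I, (fun z => F z + G z) ∈ I
  mul : ∀ F ∈ I, ∀ G, InH G → (fun z => F z * G z) ∈ I
  closed : ∀ F, InH F → (∀ ε > 0, ∃ G ∈ I, ∀ z, ‖F z - G z‖ ≤ ε) → F ∈ I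
  one : (fun _ => (1 : ℂ)) ∉ I
  prime : ∀ F G, InH F → InH G → (fun z => F z * G z) ∈ I → F ∈ I ∨ G ∈ I

/-- the hull of `I` has at least two points -/
def ND (I : Set (ℍ → ℂ)) : Prop := ∃ G, InH G ∧ (∀ α, InH α → (fun z => 1 - G z * α z) ∉ I) ∧
  ∀ α, InH α → (fun z => 1 - (1 - G z) * α z) ∉ I

/-! ## tame functions -/

/-- tame functions -/
def Tame (φ : ℍ → ℝ) : Prop := (∀ z, 0 ≤ φ z) ∧ ∀ (A : ℝ) (W : Multiset ℍ) (a : ℝ), 1 ≤ A →
  (∀ z, pot W z ≤ A) → (∀ w ∈ W, a ≤ φ w) → ∀ z, pot W z ≤ 20 * A * Real.exp (φ z - a)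

/-- the tame function of `θ`: `log (1 + inf of log 1/|θ| over a hyperbolic disc)` -/
def phi (θ : ℍ → ℂ) (z : ℍ) : ℝ :=
  Real.log (1 + Real.log (1 / ⨆ ζ : {ζ : ℍ // 3 / 4 ≤ g z ζ}, ‖θ ζ‖))

/-- the absolute constant in admissibility -/
def c0 : ℝ := Real.exp (-1100)

/-- admissible tame functions for an ideal -/
def Adm (I : Set (ℍ → ℂ)) (φ : ℍ → ℝ) : Prop :=
  Tame φ ∧ ∀ k : ℝ, ∃ κ ∈ I, InU κ ∧ ∀ z, φ z ≤ k → c0 ≤ ‖κ z‖

/-! ## dyadic squares

`(m, j)` is the square of generation `m` with index `j`; its side is `2^n / 2^m`; it lies over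
`[j * side + off, (j + 1) * side + off)`, and its centre has height `side`. -/

/-- squares -/
abbrev Sq : Type := ℕ × ℤ

/-- `J ⊆ I` -/
def Below (J I : Sq) : Prop := I.1 ≤ J.1 ∧ J.2 / 2 ^ (J.1 - I.1) = I.2

/-- the parent -/
def par (J : Sq) : Sq := (J.1 - 1, J.2 / 2)

/-- the squares of the `n`-th structure: generations `0, ..., 2 n`, two roots -/
def all (n : ℕ) : Finset Sq :=
  (Finset.range (2 * n + 1)).biUnion fun m =>
    (Finset.Ico (-(2 : ℤ) ^ m) (2 ^ m)).image fun j => (m, j)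

/-- the side of a square -/
def len (n : ℕ) (J : Sq) : ℝ := 2 ^ n / 2 ^ J.1

theorem len_pos (n : ℕ) (J : Sq) : 0 < len n J := by unfold len; positivity

/-- the offset of the two grids -/
def off (i : Bool) (n : ℕ) : ℝ := if i then 2 ^ n / 3 else 0

/-- the centre of a square -/
def ctr (i : Bool) (n : ℕ) (J : Sq) : ℍ :=
  ⟨⟨((J.2 : ℝ) + 1 / 2) * len n J + off i n, len n J⟩, len_pos n J⟩

/-- the potential of a family of squares with multiplicities -/
def pf (i : Bool) (n : ℕ) (μ : Sq → ℕ) (z : ℍ) : ℝ := ∑ J ∈ all n, (μ J : ℝ) * g z (ctr i n J)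

/-- the multiset of centres of a family of squares -/
def ms (i : Bool) (n : ℕ) (μ : Sq → ℕ) : Multiset ℍ := ∑ J ∈ all n, μ J • {ctr i n J}

open Classical in
/-- the squares of the `n`-th structure contained in `I` -/
def dn (n : ℕ) (I : Sq) : Finset Sq := (all n).filter fun J => Below J I

/-- packing condition with constant `A` -/
def Packed (n : ℕ) (μ : Sq → ℕ) (A : ℝ) : Prop :=
  ∀ I ∈ all n, ∑ J ∈ dn n I, (μ J : ℝ) * len n J ≤ A * len n I

open Classical in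
/-- restriction of a family to the squares with a property -/
def rst (μ : Sq → ℕ) (P : Sq → Prop) (J : Sq) : ℕ := if P J then μ J else 0

/-! ## start/stop machines -/

/-- the in-state of the machine with start condition `sa` and stop condition `so` -/
def mach (sa so : Sq → Prop) : ℕ → ℤ → Prop
  | 0, j => sa (0, j)
  | m + 1, j => (mach sa so m (j / 2) ∧ ¬ so (m + 1, j)) ∨
      (¬ mach sa so m (j / 2) ∧ sa (m + 1, j))

/-- the exit squares, and the in-state squares of the last generation `D` -/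
def cutm (D : ℕ) (sa so : Sq → Prop) (J : Sq) : Prop :=
  (0 < J.1 ∧ mach sa so (par J).1 (par J).2 ∧ so J) ∨ (J.1 = D ∧ mach sa so J.1 J.2)

open Classical in
/-- multiplicity one on the cut squares -/
def cutf (D : ℕ) (sa so : Sq → Prop) (J : Sq) : ℕ := if cutm D sa so J then 1 else 0

/-! ## layering of a tame function -/

/-- the zeros of level `k` -/
def layk (φ : ℍ → ℝ) (i : Bool) (n : ℕ) (k : ℝ) : Sq → ℕ :=
  cutf (2 * n) (fun J => k ≤ φ (ctr i n J)) (fun J => φ (ctr i n J) ≤ k - 10)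

/-- number of levels -/
def nlev (φ : ℍ → ℝ) (i : Bool) (n : ℕ) : ℕ := ⌈∑ J ∈ all n, φ (ctr i n J)⌉₊ + 1

/-- all zeros of the levels `k0 + 1, k0 + 2, ...` -/
def lay (φ : ℍ → ℝ) (i : Bool) (n : ℕ) (k0 : ℝ) (J : Sq) : ℕ :=
  ∑ k ∈ Finset.range (nlev φ i n), layk φ i n (k0 + (k + 1 : ℕ)) J

/-! ## states -/

/-- states of squares: `O`, or `N c` with `c` the last exit square (if any) -/
inductive St : Type
  | O : St
  | N : Option Sq → St

open Classical in
/-- the state of the square `(m, j)` -/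
def stt (s u : ℍ → ℝ) (i : Bool) (n : ℕ) : ℕ → ℤ → St
  | 0, j => if 2 * u (ctr i n (0, j)) + 40 ≤ s (ctr i n (0, j)) then St.O else St.N none
  | m + 1, j => match stt s u i n m (j / 2) with
    | St.O => if s (ctr i n (m + 1, j)) < u (ctr i n (m + 1, j)) then St.N (some (m + 1, j))
        else St.O
    | St.N c => if 2 * u (ctr i n (m + 1, j)) + 40 ≤ s (ctr i n (m + 1, j)) then St.O
        else St.N c

/-- the state of a square -/
def sta (s u : ℍ → ℝ) (i : Bool) (n : ℕ) (J : Sq) : St := stt s u i n J.1 J.2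

/-- exit squares -/
def isEx (s u : ℍ → ℝ) (i : Bool) (n : ℕ) (J : Sq) : Prop :=
  J ∈ all n ∧ sta s u i n J = St.N (some J)

/-! ## walls -/

/-- `I` has an end point in common with an exit square `S` which is not smaller -/
def isWall (s u : ℍ → ℝ) (i : Bool) (n : ℕ) (I : Sq) : Prop :=
  ∃ S, isEx s u i n S ∧ S.1 ≤ I.1 ∧ ∃ e : ℤ, (e = S.2 ∨ e = S.2 + 1) ∧
    (I.2 = e * 2 ^ (I.1 - S.1) ∨ I.2 + 1 = e * 2 ^ (I.1 - S.1))

open Classical in
/-- the wall family -/
def wal (s u : ℍ → ℝ) (i : Bool) (n : ℕ) (I : Sq) : ℕ :=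
  if isWall s u i n I then ⌈Real.exp (u (ctr i n I) / 20)⌉₊ else 0

/-! ## the machines `R_M` -/

/-- start condition -/
def saQ (s u : ℍ → ℝ) (i : Bool) (n : ℕ) (M : ℕ) (J : Sq) : Prop :=
  (∃ S, sta s u i n J = St.N (some S)) ∧ s (ctr i n J) ≤ M ∧ 8 * (M : ℝ) + 24 ≤ u (ctr i n J)

/-- stop condition -/
def soQ (s u : ℍ → ℝ) (i : Bool) (n : ℕ) (M : ℕ) (J : Sq) : Prop :=
  sta s u i n J = St.O ∨ (M : ℝ) + 12 < s (ctr i n J) ∨ u (ctr i n J) < 4 * (M : ℝ) + 10

/-- the family of cut squares of `R_M` -/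
def Qf (s u : ℍ → ℝ) (i : Bool) (n : ℕ) (M : ℕ) : Sq → ℕ :=
  cutf (2 * n) (saQ s u i n M) (soQ s u i n M)

open Classical in
/-- the state attached to a cut square of `R_M`: the own state for in-state squares, else the
state of the parent -/
def clQ (s u : ℍ → ℝ) (i : Bool) (n : ℕ) (M : ℕ) (J : Sq) : St :=
  if mach (saQ s u i n M) (soQ s u i n M) J.1 J.2 then sta s u i n J else sta s u i n (par J)

open Classical in
/-- the weight of an exit square `S` in `R_M` -/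
def wQ (s u : ℍ → ℝ) (i : Bool) (n : ℕ) (M : ℕ) (S : Sq) : ℝ :=
  ∑ J ∈ (all n).filter (fun J => clQ s u i n M J = St.N (some S)), (Qf s u i n M J : ℝ) * len n J

/-- balanced labels -/
def IsLab (s u : ℍ → ℝ) (i : Bool) (n : ℕ) (lab : ℕ → Sq → ℕ) : Prop :=
  ∀ M, (∀ S, lab M S < 4 ^ M) ∧ ∀ (m : ℕ) (v : ℕ) (a b : ℝ), m ≤ 2 * n →
    ∑ S ∈ (all n).filter (fun S => S.1 = m ∧ lab M S = v ∧ a ≤ (ctr i n S).re ∧
        (ctr i n S).re ≤ b), wQ s u i n M S ≤
      2 / 4 ^ M * ∑ S ∈ (all n).filter (fun S => S.1 = m ∧ a ≤ (ctr i n S).re ∧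
        (ctr i n S).re ≤ b), wQ s u i n M S + 18 * (2 ^ n / 2 ^ m)

end

end Pool.Agent.Helper65.HP
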