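import Pool.Agent.Helper65.HP.KerC

/-! Module DOM: domination by the maximum principle. -/

set_option autoImplicit false

namespace Pool.Agent.Helper65.HP

open Filter Topology UpperHalfPlane

noncomputable section

namespace Dom

theorem continuous_pot (W : Multiset ℍ) : Continuous fun z => pot W z := by
  induction W using Multiset.induction with
  | empty => simpa [pot] using continuous_const
  | cons a W ih =>
    have h1 : (fun z => pot (a ::ₘ W) z) = fun z => g z a + pot W z := by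
      funext z
      simp [pot]
    rw [h1]
    exact (continuous_g a).add ih

theorem exists_of_pot {W : Multiset ℍ} {η : ℝ} (hη : 0 < η) {z : ℍ} (h : η ≤ pot W z) :
    ∃ w ∈ W, η / (W.card + 1) ≤ g z w := by
  by_contra hcon
  push Not at hcon
  have h1 : pot W z ≤ W.card • (η / (W.card + 1)) := by
    unfold pot
    have := Multiset.sum_le_card_nsmul (W.map fun w => g z w) (η / (W.card + 1)) (by
      intro x hx
      obtain ⟨w, hw, rfl⟩ := Multiset.mem_map.1 hx
      exact (hcon w hw).le)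
    simpa using this
  rw [nsmul_eq_mul] at h1
  have h2 : (0 : ℝ) < W.card + 1 := by positivity
  have h3 : (W.card : ℝ) * (η / (W.card + 1)) < η := by
    rw [mul_div_assoc', div_lt_iff₀ h2]
    nlinarith
  linarith

theorem isCompact_pot (W : Multiset ℍ) {η : ℝ} (hη : 0 < η) :
    IsCompact {z : ℍ | η ≤ pot W z} := by
  classical
  have h2 : (0 : ℝ) < W.card + 1 := by positivity
  have h1 : IsCompact (⋃ w ∈ W.toFinset, {z : ℍ | η / (W.card + 1) ≤ g z w}) :=
    W.toFinset.isCompact_biUnion fun w _ => isCompact_g w (div_pos hη h2)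
  refine h1.of_isClosed_subset (isClosed_le continuous_const (continuous_pot W)) ?_
  intro z hz
  obtain ⟨w, hw, hwz⟩ := exists_of_pot hη hz
  simp only [Set.mem_iUnion]
  exact ⟨w, by simpa using hw, hwz⟩

/-- the open set used in the maximum principle -/
def OO (W : Multiset ℍ) (t η : ℝ) : Set ℍ := {z | (∀ w ∈ W, g z w < t) ∧ η < pot W z}

theorem isOpen_OO (W : Multiset ℍ) (t η : ℝ) : IsOpen (OO W t η) := by
  classical
  have h1 : OO W t η = (⋂ w ∈ W.toFinset, {z : ℍ | g z w < t}) ∩ {z | η < pot W z} := by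
    ext z
    simp [OO]
  rw [h1]
  refine IsOpen.inter ?_ (isOpen_lt continuous_const (continuous_pot W))
  exact isOpen_biInter_finset fun w _ => isOpen_lt (continuous_g w) continuous_const

theorem norm_Bl_pos {W : Multiset ℍ} {t : ℝ} (ht1 : t < 1) {z : ℍ}
    (h : ∀ w ∈ W, g z w ≤ t) : Bl W z ≠ 0 := by
  unfold Bl
  intro h0
  rw [Multiset.prod_eq_zero_iff, Multiset.mem_map] at h0
  obtain ⟨w, hw, hw0⟩ := h0
  have h1 := norm_bf_sq w z
  rw [hw0, norm_zero] at h1
  have := h w hw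
  norm_num at h1
  linarith

/-- the maximum principle -/
theorem mp {F : ℍ → ℂ} (hF : An F) (hF1 : ∀ z, ‖F z‖ ≤ 1) {W : Multiset ℍ} {t M : ℝ} {q : ℕ}
    (ht : 0 < t) (ht1 : t < 1) (hM : 1 ≤ M)
    (hb : ∀ z, (∀ w ∈ W, g z w ≤ t) → (∃ w ∈ W, t ≤ g z w) → ‖F z‖ ≤ M * ‖Bl W z‖ ^ q)
    (z : ℍ) (hz : ∀ w ∈ W, g z w ≤ t) : ‖F z‖ ≤ M * ‖Bl W z‖ ^ q := by
  classical
  by_cases hex : ∃ w ∈ W, t ≤ g z w
  · exact hb z hz hex
  push Not at hex
  set K : ℝ := -Real.log (1 - t) / t with hKdef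
  have hK : -Real.log (1 - t) ≤ K * t := by rw [hKdef, div_mul_cancel₀ _ ht.ne']
  have hK0 : 0 ≤ K := by
    rw [hKdef]
    have := Real.log_nonpos (by linarith : (0 : ℝ) ≤ 1 - t) (by linarith)
    exact div_nonneg (by linarith) ht.le
  have hsmall : ∀ (η : ℝ) (z : ℍ), (∀ w ∈ W, g z w ≤ t) → pot W z ≤ η →
      ‖F z‖ ≤ Real.exp (q * (K * η) / 2) * ‖Bl W z‖ ^ q := by
    intro η z hz hpot
    have h1 := Bl_ge ht ht1 hK hz
    have h2 : Real.exp (-(K * η) / 2) ≤ ‖Bl W z‖ := by
      have h3 : Real.exp (-(K * η) / 2) ^ 2 ≤ ‖Bl W z‖ ^ 2 := by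
        refine le_trans ?_ h1
        rw [← Real.exp_nat_mul]
        refine Real.exp_le_exp.2 ?_
        push_cast
        nlinarith [mul_le_mul_of_nonneg_left hpot hK0]
      exact le_of_sq_le_sq h3 (norm_nonneg _)
    have h4 : Real.exp (-(K * η) / 2) ^ q ≤ ‖Bl W z‖ ^ q :=
      pow_le_pow_left₀ (Real.exp_pos _).le h2 q
    have h5 : 1 ≤ Real.exp (q * (K * η) / 2) * ‖Bl W z‖ ^ q := by
      calc (1 : ℝ) = Real.exp (q * (K * η) / 2) * Real.exp (-(K * η) / 2) ^ q := by
            rw [← Real.exp_nat_mul, ← Real.exp_add]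
            symm
            rw [Real.exp_eq_one_iff]
            ring
        _ ≤ _ := mul_le_mul_of_nonneg_left h4 (Real.exp_pos _).le
    exact (hF1 z).trans h5
  have key : ∀ η : ℝ, 0 < η →
      ‖F z‖ ≤ max M (Real.exp (q * (K * η) / 2)) * ‖Bl W z‖ ^ q := by
    intro η hη
    by_cases hpz : pot W z ≤ η
    · refine (hsmall η z hz hpz).trans ?_
      exact mul_le_mul_of_nonneg_right (le_max_right _ _) (by positivity)
    push Not at hpz
    set U : Set ℂ := (fun z : ℍ => (z : ℂ)) '' OO W t η with hU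
    have hKc : IsCompact ((fun z : ℍ => (z : ℂ)) '' {z : ℍ | η ≤ pot W z}) :=
      (isCompact_pot W hη).image continuous_coe
    have hUK : U ⊆ (fun z : ℍ => (z : ℂ)) '' {z : ℍ | η ≤ pot W z} :=
      Set.image_mono fun z hz => hz.2.le
    have hUo : IsOpen U := isOpenEmbedding_coe.isOpenMap _ (isOpen_OO W t η)
    have hUc : closure U ⊆ (fun z : ℍ => (z : ℂ)) '' {z : ℍ | η ≤ pot W z} :=
      closure_minimal hUK hKc.isClosed
    have hcl : ∀ x ∈ closure U, ∃ y : ℍ, (y : ℂ) = x ∧ η ≤ pot W y ∧ ∀ w ∈ W, g y w ≤ t := by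
      intro x hx
      obtain ⟨y, hy, hyx⟩ := hUc hx
      refine ⟨y, hyx, hy, ?_⟩
      have h1 : y ∈ closure (OO W t η) := by
        rw [isOpenEmbedding_coe.isInducing.closure_eq_preimage_closure_image]
        show (y : ℂ) ∈ closure U
        have hyx' : (y : ℂ) = x := hyx
        rw [hyx']
        exact hx
      have h2 : IsClosed {z : ℍ | ∀ w ∈ W, g z w ≤ t} := by
        have : {z : ℍ | ∀ w ∈ W, g z w ≤ t} = ⋂ w ∈ W.toFinset, {z : ℍ | g z w ≤ t} := by
          ext z
          simp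
        rw [this]
        exact isClosed_biInter fun w _ => isClosed_le (continuous_g w) continuous_const
      have h3 : closure (OO W t η) ⊆ {z : ℍ | ∀ w ∈ W, g z w ≤ t} :=
        closure_minimal (fun z hz w hw => (hz.1 w hw).le) h2
      exact h3 h1
    set f : ℂ → ℂ := fun x => F (ofComplex x) / Bl W (ofComplex x) ^ q with hf
    have him : IsOpen {z : ℂ | 0 < z.im} := isOpen_lt continuous_const Complex.continuous_im
    have hfd : DifferentiableOn ℂ f (closure U) := by
      intro x hx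
      obtain ⟨y, hyx, -, hyt⟩ := hcl x hx
      have hx1 : x ∈ {z : ℂ | 0 < z.im} := by
        show 0 < x.im
        rw [← hyx]
        exact y.im_pos
      have h1 : DifferentiableAt ℂ (fun z : ℂ => F (ofComplex z)) x :=
        (hF x hx1).differentiableAt (him.mem_nhds hx1)
      have h2 : DifferentiableAt ℂ (fun z : ℂ => Bl W (ofComplex z)) x :=
        ((Bl_InU W).1 x hx1).differentiableAt (him.mem_nhds hx1)
      have h3 : Bl W (ofComplex x) ≠ 0 := by
        rw [← hyx, ofComplex_apply]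
        exact norm_Bl_pos ht1 hyt
      exact (h1.div (h2.pow q) (pow_ne_zero _ h3)).differentiableWithinAt
    have hfr : ∀ x ∈ frontier U, ‖f x‖ ≤ max M (Real.exp (q * (K * η) / 2)) := by
      intro x hx
      rw [hUo.frontier_eq] at hx
      obtain ⟨y, hyx, hyp, hyt⟩ := hcl x hx.1
      have hyn : y ∉ OO W t η := fun h => hx.2 ⟨y, h, hyx⟩
      have hB : 0 < ‖Bl W y‖ := norm_pos_iff.2 (norm_Bl_pos ht1 hyt)
      rw [hf, ← hyx]
      simp only [ofComplex_apply]
      rw [norm_div, norm_pow, div_le_iff₀ (by positivity)]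
      by_cases hey : ∃ w ∈ W, t ≤ g y w
      · refine (hb y hyt hey).trans ?_
        exact mul_le_mul_of_nonneg_right (le_max_left _ _) (by positivity)
      · push Not at hey
        have hpy : pot W y ≤ η := by
          by_contra hcon
          push Not at hcon
          exact hyn ⟨hey, hcon⟩
        refine (hsmall η y hyt hpy).trans ?_
        exact mul_le_mul_of_nonneg_right (le_max_right _ _) (by positivity)
    have hzU : (z : ℂ) ∈ closure U := subset_closure ⟨z, ⟨hex, hpz⟩, rfl⟩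
    have hmax := Complex.norm_le_of_forall_mem_frontier_norm_le
      (hKc.isBounded.subset hUK) hfd.diffContOnCl hfr hzU
    have hB : 0 < ‖Bl W z‖ := norm_pos_iff.2 (norm_Bl_pos ht1 hz)
    rw [hf] at hmax
    simp only [ofComplex_apply] at hmax
    rwa [norm_div, norm_pow, div_le_iff₀ (by positivity)] at hmax
  have hlim : Tendsto (fun η : ℝ => max M (Real.exp (q * (K * η) / 2)) * ‖Bl W z‖ ^ q)
      (𝓝[>] 0) (𝓝 (max M (Real.exp (q * (K * 0) / 2)) * ‖Bl W z‖ ^ q)) := by
    refine Tendsto.mono_left ?_ nhdsWithin_le_nhds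
    refine Continuous.tendsto ?_ 0
    fun_prop
  have h1 : ‖F z‖ ≤ max M (Real.exp (q * (K * 0) / 2)) * ‖Bl W z‖ ^ q := by
    refine ge_of_tendsto hlim ?_
    filter_upwards [self_mem_nhdsWithin] with η hη using key η hη
  simpa [max_eq_left hM] using h1

end Dom

/-- domination lemma -/
theorem dom {θ : ℍ → ℂ} (hθ : InU θ) {W : Multiset ℍ} {A t K lam : ℝ} (hA : 0 < A) (ht : 0 < t)
    (ht1 : t < 1) (hK : -Real.log (1 - t) ≤ K * t) (hlam : 0 ≤ lam) (hW : ∀ z, pot W z ≤ A)
    (h : ∀ w ∈ W, ∀ z, t ≤ g z w → ‖θ z‖ ≤ Real.exp (-lam)) (z : ℍ) :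
    ‖θ z‖ ≤ Real.exp (-(lam * pot W z / (K * A))) := by
  have hK1 : 1 ≤ K := by
    have h1 : Real.log (1 - t) ≤ -t := by
      have := Real.log_le_sub_one_of_pos (by linarith : (0 : ℝ) < 1 - t)
      linarith
    have h2 : t ≤ K * t := by linarith
    by_contra hcon
    push Not at hcon
    nlinarith
  have hKA : 0 < K * A := by positivity
  by_cases hex : ∃ w ∈ W, t ≤ g z w
  · obtain ⟨w, hw, hwz⟩ := hex
    refine (h w hw z hwz).trans (Real.exp_le_exp.2 (neg_le_neg ?_))
    rw [div_le_iff₀ hKA]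
    have h1 := hW z
    have h2 : pot W z ≤ K * A := by nlinarith
    exact mul_le_mul_of_nonneg_left h2 hlam
  push Not at hex
  have hz : ∀ w ∈ W, g z w ≤ t := fun w hw => (hex w hw).le
  have key : ∀ m q : ℕ, (q : ℝ) * (K * A) ≤ 2 * lam * m → ‖θ z‖ ^ m ≤ ‖Bl W z‖ ^ q := by
    intro m q hmq
    have h1 := Dom.mp (F := fun z => θ z ^ m) (hθ.pow m).1 (hθ.pow m).2 (W := W) (t := t)
      (M := 1) (q := q) ht ht1 le_rfl (by
        intro y hy hey
        obtain ⟨w, hw, hwy⟩ := hey
        have h2 := h w hw y hwy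
        have h3 := Bl_ge ht ht1 hK hy
        have h4 : Real.exp (-(K * A) / 2) ≤ ‖Bl W y‖ := by
          have h5 : Real.exp (-(K * A) / 2) ^ 2 ≤ ‖Bl W y‖ ^ 2 := by
            refine le_trans ?_ h3
            rw [← Real.exp_nat_mul]
            refine Real.exp_le_exp.2 ?_
            push_cast
            nlinarith [mul_le_mul_of_nonneg_left (hW y) (by linarith : (0 : ℝ) ≤ K)]
          exact le_of_sq_le_sq h5 (norm_nonneg _)
        rw [norm_pow, one_mul]
        calc ‖θ y‖ ^ m ≤ Real.exp (-lam) ^ m := pow_le_pow_left₀ (norm_nonneg _) h2 m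
          _ ≤ Real.exp (-(K * A) / 2) ^ q := by
            rw [← Real.exp_nat_mul, ← Real.exp_nat_mul]
            refine Real.exp_le_exp.2 ?_
            nlinarith
          _ ≤ ‖Bl W y‖ ^ q := pow_le_pow_left₀ (Real.exp_pos _).le h4 q) z hz
    rwa [norm_pow, one_mul] at h1
  rcases eq_or_ne (θ z) 0 with h0 | h0
  · rw [h0, norm_zero]; exact (Real.exp_pos _).le
  have hpos : 0 < ‖θ z‖ := norm_pos_iff.2 h0
  rw [← Real.log_le_iff_le_exp hpos]
  -- log ‖θ z‖ ≤ -(q/m) pot / 2
  have hp0 := pot_nonneg W z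
  have h1 : ∀ m : ℕ, 0 < m →
      Real.log ‖θ z‖ ≤ -((2 * lam / (K * A) - 1 / m) * pot W z / 2) := by
    intro m hm
    have hm' : (0 : ℝ) < m := by exact_mod_cast hm
    set q : ℕ := ⌊2 * lam * m / (K * A)⌋₊ with hq
    have hq1 : (q : ℝ) ≤ 2 * lam * m / (K * A) := Nat.floor_le (by positivity)
    have hq2 : 2 * lam * m / (K * A) < q + 1 := Nat.lt_floor_add_one _
    have h2 := key m q (by rwa [le_div_iff₀ hKA] at hq1)
    have h3 := Bl_le W z
    have h4 : ‖Bl W z‖ ≤ Real.exp (-pot W z / 2) := by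
      have h5 : ‖Bl W z‖ ^ 2 ≤ Real.exp (-pot W z / 2) ^ 2 := by
        refine h3.trans ?_
        rw [← Real.exp_nat_mul]
        refine Real.exp_le_exp.2 ?_
        push_cast
        linarith
      exact le_of_sq_le_sq h5 (Real.exp_pos _).le
    have h5 : ‖θ z‖ ^ m ≤ Real.exp (-pot W z / 2) ^ q :=
      h2.trans (pow_le_pow_left₀ (norm_nonneg _) h4 q)
    rw [← Real.exp_nat_mul] at h5
    have h6 := Real.log_le_log (by positivity) h5
    rw [Real.log_exp, Real.log_pow] at h6
    have h7 : Real.log ‖θ z‖ ≤ -((q : ℝ) / m * pot W z / 2) := by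
      rw [le_neg, ← sub_nonneg]
      have : -Real.log ‖θ z‖ - (q : ℝ) / m * pot W z / 2 =
          (-(m * Real.log ‖θ z‖) - q * pot W z / 2) / m := by
        field_simp
      rw [this]
      apply div_nonneg _ hm'.le
      linarith
    refine h7.trans (neg_le_neg ?_)
    have h8 : 2 * lam / (K * A) - 1 / m ≤ q / m := by
      rw [sub_le_iff_le_add, ← add_div, le_div_iff₀ hm']
      calc 2 * lam / (K * A) * m = 2 * lam * m / (K * A) := by ring
        _ ≤ _ := hq2.le
    have := mul_le_mul_of_nonneg_right h8 hp0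
    linarith
  have hlim : Tendsto (fun m : ℕ => -((2 * lam / (K * A) - 1 / m) * pot W z / 2)) atTop
      (𝓝 (-((2 * lam / (K * A) - 0) * pot W z / 2))) := by
    have h2 := tendsto_one_div_atTop_nhds_zero_nat (𝕜 := ℝ)
    exact (((tendsto_const_nhds.sub h2).mul_const _).div_const _).neg
  have h2 := ge_of_tendsto hlim (Filter.eventually_atTop.2 ⟨1, fun m hm => h1 m hm⟩)
  refine h2.trans (le_of_eq ?_)
  rw [sub_zero]
  ring

/-- maximum principle for potentials -/
theorem pot_max {W : Multiset ℍ} {C : ℝ} (hC : 0 ≤ C) (h : ∀ w ∈ W, pot W w ≤ C) (z : ℍ) :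
    pot W z ≤ 32 / 3 * C := by
  have hin : ∀ y : ℍ, (∃ w ∈ W, 3 / 4 ≤ g y w) → pot W y ≤ 16 / 3 * C := by
    rintro y ⟨w, hw, hwy⟩
    have h1 := pot_near hwy W
    have h2 := h w hw
    linarith
  by_cases hex : ∃ w ∈ W, 3 / 4 ≤ g z w
  · have := hin z hex
    linarith
  push Not at hex
  have hz : ∀ w ∈ W, g z w ≤ 3 / 4 := fun w hw => (hex w hw).le
  have h1 := Dom.mp (F := fun _ => (1 : ℂ)) (An.const 1) (by simp) (W := W) (t := 3 / 4)
    (M := Real.exp (16 / 3 * C)) (q := 1) (by norm_num) (by norm_num)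
    (Real.one_le_exp (by positivity)) (by
      intro y hy hey
      have h2 := hin y hey
      have h3 := Bl_ge34 hy
      have h4 : Real.exp (-(16 / 3 * C)) ≤ ‖Bl W y‖ := by
        have h5 : Real.exp (-(16 / 3 * C)) ^ 2 ≤ ‖Bl W y‖ ^ 2 := by
          refine le_trans ?_ h3
          rw [← Real.exp_nat_mul]
          refine Real.exp_le_exp.2 ?_
          push_cast
          linarith
        exact le_of_sq_le_sq h5 (norm_nonneg _)
      rw [norm_one, pow_one]
      calc (1 : ℝ) = Real.exp (16 / 3 * C) * Real.exp (-(16 / 3 * C)) := by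
            rw [← Real.exp_add]; simp
        _ ≤ _ := mul_le_mul_of_nonneg_left h4 (Real.exp_pos _).le) z hz
  rw [norm_one, pow_one] at h1
  have h2 := Bl_le W z
  have h3 : (1 : ℝ) ≤ (Real.exp (16 / 3 * C)) ^ 2 * ‖Bl W z‖ ^ 2 := by
    rw [← mul_pow]
    exact one_le_pow₀ h1
  have h4 : (1 : ℝ) ≤ Real.exp (32 / 3 * C) * Real.exp (-pot W z) := by
    refine h3.trans ?_
    rw [← Real.exp_nat_mul]
    have h5 : ((2 : ℕ) : ℝ) * (16 / 3 * C) = 32 / 3 * C := by push_cast; ring
    rw [h5]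
    exact mul_le_mul_of_nonneg_left h2 (Real.exp_pos _).le
  rw [← Real.exp_add] at h4
  have h5 := Real.one_le_exp_iff.1 h4
  linarith

end

end Pool.Agent.Helper65.HP
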