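import Pool.Agent.Helper65.HP.Stt

/-! Module EXP: packing of the exit squares. -/

set_option autoImplicit false

namespace Pool.Agent.Helper65.HP

open UpperHalfPlane Filter Topology

noncomputable section

namespace ExpA

theorem exp_bd : 10000 * Real.exp (-19) + 10000 * Real.exp (-20) ≤ (1 / 2 : ℝ) := by
  have h1 : (2.7 : ℝ) < Real.exp 1 := lt_trans (by norm_num) Real.exp_one_gt_d9
  have h2 : Real.exp 19 = Real.exp 1 ^ 19 := by
    rw [← Real.exp_nat_mul]
    norm_num
  have h3 : (40000 : ℝ) ≤ Real.exp 19 := by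
    rw [h2]
    calc (40000 : ℝ) ≤ 2.7 ^ 19 := by norm_num
      _ ≤ Real.exp 1 ^ 19 := pow_le_pow_left₀ (by norm_num) h1.le 19
  have h4 : Real.exp (-19) ≤ 1 / 40000 := by
    rw [Real.exp_neg, ← one_div]
    exact one_div_le_one_div_of_le (by norm_num) h3
  have h5 : Real.exp (-20) ≤ Real.exp (-19) := Real.exp_le_exp.2 (by norm_num)
  linarith

theorem geo {r : ℝ} (h0 : 0 < r) (h1 : r < 1) (N : ℕ) :
    ∑ j ∈ Finset.range N, r ^ j ≤ 1 / (1 - r) := by
  rw [le_div_iff₀ (by linarith), mul_comm, mul_neg_geom_sum]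
  have := pow_pos h0 N
  linarith

theorem geo2 {r : ℝ} (h0 : 0 < r) (h1 : r < 1) (m N : ℕ) :
    ∑ k ∈ Finset.range N, r ^ ((k - m) + (m - k)) ≤ 2 / (1 - r) := by
  calc ∑ k ∈ Finset.range N, r ^ ((k - m) + (m - k))
      ≤ ∑ k ∈ Finset.range (m + N), r ^ ((k - m) + (m - k)) := by
        apply Finset.sum_le_sum_of_subset_of_nonneg
        · intro k hk
          rw [Finset.mem_range] at hk ⊢
          omega
        · intro k _ _
          positivity
    _ = ∑ k ∈ Finset.range m, r ^ ((k - m) + (m - k)) +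
          ∑ k ∈ Finset.range N, r ^ ((m + k - m) + (m - (m + k))) := by
        rw [Finset.sum_range_add]
    _ ≤ 1 / (1 - r) + 1 / (1 - r) := by
        apply add_le_add
        · calc ∑ k ∈ Finset.range m, r ^ ((k - m) + (m - k))
              ≤ ∑ k ∈ Finset.range m, r ^ (m - 1 - k) := by
                apply Finset.sum_le_sum
                intro k hk
                rw [Finset.mem_range] at hk
                exact pow_le_pow_of_le_one h0.le h1.le (by omega)
            _ = ∑ k ∈ Finset.range m, r ^ k := Finset.sum_range_reflect (fun k => r ^ k) m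
            _ ≤ 1 / (1 - r) := geo h0 h1 m
        · calc ∑ k ∈ Finset.range N, r ^ ((m + k - m) + (m - (m + k)))
              = ∑ k ∈ Finset.range N, r ^ k := by
                apply Finset.sum_congr rfl
                intro k _
                congr 1
                omega
            _ ≤ 1 / (1 - r) := geo h0 h1 N
    _ = 2 / (1 - r) := by ring

end ExpA

theorem ex_packed {s u : ℍ → ℝ} (hs : Tame s) (hu : Tame u) (i : Bool) (n : ℕ) (k : ℕ) :
    Packed n (ind fun S => isEx s u i n S ∧ (k : ℝ) ≤ u (ctr i n S) ∧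
      u (ctr i n S) < k + 1) 2 := by
  classical
  apply pack_of_half
  intro S hS hP
  let P : Sq → Prop := fun S => isEx s u i n S ∧ (k : ℝ) ≤ u (ctr i n S) ∧
      u (ctr i n S) < k + 1
  have hF : nxt n P S ⊆ dn n S := fun J hJ => mem_dn.2 (SqcA.mem_nxt.1 hJ).1
  have hFP : ∀ J ∈ nxt n P S, P J ∧ J ≠ S := fun J hJ =>
    ⟨(SqcA.mem_nxt.1 hJ).2.1, (SqcA.mem_nxt.1 hJ).2.2.1⟩
  have hd : ∀ J ∈ nxt n P S, ∀ K ∈ nxt n P S, Below J K → J = K := nxt_disjoint
  have hsS : s (ctr i n S) < k + 1 := (sta_exit hP.1.2).2.2.trans hP.2.2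
  have hwit : ∀ J ∈ nxt n P S, ∃ R, Below J R ∧ Below R S ∧
      2 * u (ctr i n R) + 40 ≤ s (ctr i n R) := by
    intro J hJ
    obtain ⟨hJP, hJS⟩ := hFP J hJ
    obtain ⟨R, h1, _, h3, _, _, h6⟩ := exists_entry_exit (mem_dn.1 (hF hJ)).2 hJS hP.1.2
      hJP.1.2
    exact ⟨R, h1, h3, h6⟩
  let Q1 : Sq → Prop := fun K => (k : ℝ) + 20 ≤ s (ctr i n K)
  let Q2 : Sq → Prop := fun K => u (ctr i n K) < (k : ℝ) / 2 - 10
  let F1 := (nxt n P S).filter (fun J => ∃ K, Below J K ∧ Below K S ∧ Q1 K)
  let F2 := (nxt n P S).filter (fun J => ¬ ∃ K, Below J K ∧ Below K S ∧ Q1 K)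
  have hF1 : F1 ⊆ nxt n P S := Finset.filter_subset _ _
  have hF2 : F2 ⊆ nxt n P S := Finset.filter_subset _ _
  have hlen := len_pos n S
  have e1 : ∑ J ∈ F1, len n J ≤ (10000 * Real.exp (-19)) * 1 * len n S := by
    apply two_step hS F1 (hF1.trans hF) (fun J hJ K hK => hd J (hF1 hJ) K (hF1 hK)) Q1
    · intro J hJ
      exact (Finset.mem_filter.1 hJ).2
    · norm_num
    · intro K hK _ F' hF' hF'K
      rw [one_mul]
      exact sum_disjoint_le (mem_dn.1 hK).1 F' hF'K
        (fun J hJ L hL => hd J (hF1 (hF' hJ)) L (hF1 (hF' hL)))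
    · intro F' hF' hQ hd'
      calc ∑ J ∈ F', len n J
          ≤ 10000 * Real.exp (s (ctr i n S) - ((k : ℝ) + 20)) * len n S :=
            tail hs i hS F' hF' hd' hQ
        _ ≤ 10000 * Real.exp (-19) * len n S := by
            apply mul_le_mul_of_nonneg_right _ hlen.le
            apply mul_le_mul_of_nonneg_left _ (by norm_num)
            exact Real.exp_le_exp.2 (by linarith)
  have e2 : ∑ J ∈ F2, len n J ≤ 1 * (10000 * Real.exp (-20)) * len n S := by
    apply two_step hS F2 (hF2.trans hF) (fun J hJ K hK => hd J (hF2 hJ) K (hF2 hK)) Q2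
    · intro J hJ
      obtain ⟨hJ1, hJ2⟩ := Finset.mem_filter.1 hJ
      obtain ⟨R, h1, h2, h3⟩ := hwit J hJ1
      refine ⟨R, h1, h2, ?_⟩
      by_contra hcon
      have hcon' : (k : ℝ) / 2 - 10 ≤ u (ctr i n R) := not_lt.1 hcon
      apply hJ2
      refine ⟨R, h1, h2, ?_⟩
      show (k : ℝ) + 20 ≤ s (ctr i n R)
      linarith
    · positivity
    · intro K hK hQ F' hF' hF'K
      have hK' : u (ctr i n K) < (k : ℝ) / 2 - 10 := hQ
      have hu0 := hu.1 (ctr i n K)
      calc ∑ J ∈ F', len n J
          ≤ 10000 * Real.exp (u (ctr i n K) - (k : ℝ)) * len n K :=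
            tail hu i (mem_dn.1 hK).1 F' hF'K
              (fun J hJ L hL => hd J (hF2 (hF' hJ)) L (hF2 (hF' hL)))
              (fun J hJ => (hFP J (hF2 (hF' hJ))).1.2.1)
        _ ≤ 10000 * Real.exp (-20) * len n K := by
            apply mul_le_mul_of_nonneg_right _ (len_pos n K).le
            apply mul_le_mul_of_nonneg_left _ (by norm_num)
            exact Real.exp_le_exp.2 (by linarith)
    · intro F' hF' _ hd'
      rw [one_mul]
      exact sum_disjoint_le hS F' hF' hd'
  have e3 : ∑ J ∈ nxt n P S, len n J = ∑ J ∈ F1, len n J + ∑ J ∈ F2, len n J :=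
    (Finset.sum_filter_add_sum_filter_not _ _ _).symm
  show ∑ J ∈ nxt n P S, len n J ≤ len n S / 2
  rw [e3]
  have e4 := ExpA.exp_bd
  nlinarith

open Classical in
theorem ex_sum : ∃ C > 0, ∀ s u : ℍ → ℝ, Tame s → Tame u → ∀ (i : Bool) (n : ℕ) (z : ℍ),
    ∑ S ∈ (all n).filter (fun S => isEx s u i n S), Real.exp (u (ctr i n S) / 20) *
      g z (ctr i n S) ≤ C * Real.exp (u z / 20) := by
  let r : ℝ := Real.exp (-(1 / 20))
  have hr0 : 0 < r := Real.exp_pos _
  have hr1 : r < 1 := by
    rw [← Real.exp_zero]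
    exact Real.exp_lt_exp.2 (by norm_num)
  refine ⟨20000 * Real.exp (1 / 10) * (2 / (1 - r)), by
    have : 0 < 1 - r := by linarith
    positivity, ?_⟩
  intro s u hs hu i n z
  let A := (all n).filter (fun S => isEx s u i n S)
  let f : Sq → ℕ := fun S => ⌊u (ctr i n S)⌋₊
  let N := A.sup f + 1
  have hmaps : ∀ S ∈ A, f S ∈ Finset.range N := fun S hS =>
    Finset.mem_range.2 (Nat.lt_succ_of_le (Finset.le_sup (f := f) hS))
  have hU := hu.1 z
  let m := ⌊u z⌋₊
  have hm1 : (m : ℝ) ≤ u z := Nat.floor_le hU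
  have hm2 : u z < m + 1 := Nat.lt_floor_add_one _
  have hfib : ∀ k : ℕ, ∑ S ∈ A.filter (fun S => f S = k), Real.exp (u (ctr i n S) / 20) *
      g z (ctr i n S) ≤ 20000 * Real.exp (1 / 10) * Real.exp (u z / 20) *
        r ^ ((k - m) + (m - k)) := by
    intro k
    let P : Sq → Prop := fun S => isEx s u i n S ∧ (k : ℝ) ≤ u (ctr i n S) ∧
      u (ctr i n S) < k + 1
    have hpack := ex_packed hs hu i n k
    have h1 : pf i n (ind P) z ≤ 1000 := by
      have := pf_le (i := i) (by norm_num) hpack z
      linarith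
    have h1' : ∀ z, pf i n (ind P) z ≤ 1000 := by
      intro z
      have := pf_le (i := i) (by norm_num) hpack z
      linarith
    have h2 : pf i n (ind P) z ≤ 20 * 1000 * Real.exp (u z - k) := by
      apply Tame.fam hu (by norm_num) h1'
      intro J _ hJ
      have : P J := by
        by_contra hcon
        exact hJ (by simp [ind, hcon])
      exact this.2.1
    have h3 : ∑ S ∈ A.filter (fun S => f S = k), Real.exp (u (ctr i n S) / 20) *
        g z (ctr i n S) ≤ Real.exp (((k : ℝ) + 1) / 20) * pf i n (ind P) z := by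
      have e1 : pf i n (ind P) z = ∑ S ∈ (all n).filter P, g z (ctr i n S) := by
        unfold pf
        rw [Finset.sum_filter]
        apply Finset.sum_congr rfl
        intro J _
        by_cases hJ : P J
        · have h9 : ind P J = 1 := if_pos hJ
          rw [h9, if_pos hJ, Nat.cast_one, one_mul]
        · have h9 : ind P J = 0 := if_neg hJ
          rw [h9, if_neg hJ, Nat.cast_zero, zero_mul]
      rw [e1, Finset.mul_sum]
      calc ∑ S ∈ A.filter (fun S => f S = k), Real.exp (u (ctr i n S) / 20) * g z (ctr i n S)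
          ≤ ∑ S ∈ A.filter (fun S => f S = k), Real.exp (((k : ℝ) + 1) / 20) *
              g z (ctr i n S) := by
            apply Finset.sum_le_sum
            intro S hS
            apply mul_le_mul_of_nonneg_right _ (g_pos _ _).le
            apply Real.exp_le_exp.2
            have h5 := (Finset.mem_filter.1 hS).2
            have h6 : u (ctr i n S) < k + 1 := by
              rw [← h5]
              exact Nat.lt_floor_add_one _
            linarith
        _ ≤ ∑ S ∈ (all n).filter P, Real.exp (((k : ℝ) + 1) / 20) * g z (ctr i n S) := by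
            apply Finset.sum_le_sum_of_subset_of_nonneg
            · intro S hS
              obtain ⟨h4, h5⟩ := Finset.mem_filter.1 hS
              obtain ⟨h6, h7⟩ := Finset.mem_filter.1 h4
              refine Finset.mem_filter.2 ⟨h6, h7, ?_, ?_⟩
              · rw [← h5]
                exact Nat.floor_le (hu.1 _)
              · rw [← h5]
                exact Nat.lt_floor_add_one _
            · intro S _ _
              exact mul_nonneg (Real.exp_pos _).le (g_pos _ _).le
    refine h3.trans ?_
    rcases le_or_gt k m with hk | hk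
    · have e1 : (k - m) + (m - k) = m - k := by omega
      have e2 : r ^ (m - k) = Real.exp (-(1 / 20) * ((m : ℝ) - k)) := by
        rw [← Real.exp_nat_mul, Nat.cast_sub hk]
        ring_nf
      rw [e1, e2]
      calc Real.exp (((k : ℝ) + 1) / 20) * pf i n (ind P) z
          ≤ Real.exp (((k : ℝ) + 1) / 20) * 20000 :=
            mul_le_mul_of_nonneg_left (by linarith) (Real.exp_pos _).le
        _ ≤ 20000 * (Real.exp (1 / 10 + u z / 20 + -(1 / 20) * ((m : ℝ) - k))) := by
            rw [mul_comm]
            apply mul_le_mul_of_nonneg_left _ (by norm_num)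
            apply Real.exp_le_exp.2
            linarith
        _ = 20000 * Real.exp (1 / 10) * Real.exp (u z / 20) *
              Real.exp (-(1 / 20) * ((m : ℝ) - k)) := by
            rw [Real.exp_add, Real.exp_add]
            ring
    · have e1 : (k - m) + (m - k) = k - m := by omega
      have e2 : r ^ (k - m) = Real.exp (-(1 / 20) * ((k : ℝ) - m)) := by
        rw [← Real.exp_nat_mul, Nat.cast_sub hk.le]
        ring_nf
      rw [e1, e2]
      have hk' : (m : ℝ) + 1 ≤ k := by exact_mod_cast hk
      calc Real.exp (((k : ℝ) + 1) / 20) * pf i n (ind P) z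
          ≤ Real.exp (((k : ℝ) + 1) / 20) * (20 * 1000 * Real.exp (u z - k)) :=
            mul_le_mul_of_nonneg_left h2 (Real.exp_pos _).le
        _ = 20000 * Real.exp (((k : ℝ) + 1) / 20 + (u z - k)) := by
            rw [Real.exp_add]
            ring
        _ ≤ 20000 * (Real.exp (1 / 10 + u z / 20 + -(1 / 20) * ((k : ℝ) - m))) := by
            apply mul_le_mul_of_nonneg_left _ (by norm_num)
            apply Real.exp_le_exp.2
            linarith
        _ = 20000 * Real.exp (1 / 10) * Real.exp (u z / 20) *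
              Real.exp (-(1 / 20) * ((k : ℝ) - m)) := by
            rw [Real.exp_add, Real.exp_add]
            ring
  calc ∑ S ∈ A, Real.exp (u (ctr i n S) / 20) * g z (ctr i n S)
      = ∑ k ∈ Finset.range N, ∑ S ∈ A.filter (fun S => f S = k),
          Real.exp (u (ctr i n S) / 20) * g z (ctr i n S) :=
        (Finset.sum_fiberwise_of_maps_to hmaps _).symm
    _ ≤ ∑ k ∈ Finset.range N, 20000 * Real.exp (1 / 10) * Real.exp (u z / 20) *
        r ^ ((k - m) + (m - k)) := Finset.sum_le_sum (fun k _ => hfib k)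
    _ = 20000 * Real.exp (1 / 10) * Real.exp (u z / 20) *
        ∑ k ∈ Finset.range N, r ^ ((k - m) + (m - k)) := by rw [Finset.mul_sum]
    _ ≤ 20000 * Real.exp (1 / 10) * Real.exp (u z / 20) * (2 / (1 - r)) :=
        mul_le_mul_of_nonneg_left (ExpA.geo2 hr0 hr1 m N) (by positivity)
    _ = 20000 * Real.exp (1 / 10) * (2 / (1 - r)) * Real.exp (u z / 20) := by ring

end

end Pool.Agent.Helper65.HP
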