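import Pool.Agent.Helper65.HP.Tra
import Pool.Agent.Helper65.HP.Ult
import Pool.Agent.Helper59.DG.Herg

/-! Module FAC: factorisation of bounded analytic functions, with roots and Harnack. -/

set_option autoImplicit false

namespace Pool.Agent.Helper65.HP

open Filter Topology UpperHalfPlane Pool.Agent.Helper59.DGA

noncomputable section

namespace Fac

open Metric

/-- a zero free analytic function on the disc has a logarithm -/
theorem exists_log {G : ℂ → ℂ} (hG : AnalyticOnNhd ℂ G (ball 0 1))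
    (h0 : ∀ z ∈ ball (0 : ℂ) 1, G z ≠ 0) :
    ∃ h : ℂ → ℂ, AnalyticOnNhd ℂ h (ball 0 1) ∧
      ∀ z ∈ ball (0 : ℂ) 1, G z = Complex.exp (h z) := by
  have hharm : InnerProductSpace.HarmonicOnNhd (fun z => Real.log ‖G z‖) (ball (0 : ℂ) 1) :=
    fun z hz => (hG z hz).harmonicAt_log_norm (h0 z hz)
  obtain ⟨h, hh, hre⟩ := hharm.exists_analyticOnNhd_ball_re_eq
  have hz0 : (0 : ℂ) ∈ ball (0 : ℂ) 1 := by simp
  let k : ℂ → ℂ := fun z => G z * Complex.exp (-(h z))
  have hk : AnalyticOnNhd ℂ k (ball 0 1) := fun z hz =>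
    (hG z hz).mul ((hh z hz).neg.cexp)
  have hk1 : ∀ z ∈ ball (0 : ℂ) 1, ‖k z‖ = 1 := by
    intro z hz
    have h1 : (h z).re = Real.log ‖G z‖ := hre hz
    have h2 : 0 < ‖G z‖ := norm_pos_iff.2 (h0 z hz)
    simp only [k]
    rw [norm_mul, Complex.norm_exp, Complex.neg_re, h1, Real.exp_neg, Real.exp_log h2]
    exact mul_inv_cancel₀ h2.ne'
  have h5 : Set.EqOn k (Function.const ℂ (k 0)) (ball 0 1) := by
    refine Complex.eqOn_of_isPreconnected_of_isMaxOn_norm
      (convex_ball (0 : ℂ) 1).isPreconnected isOpen_ball hk.differentiableOn hz0 ?_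
    intro z hz
    show ‖k z‖ ≤ ‖k 0‖
    rw [hk1 z hz, hk1 0 hz0]
  have hk0 : k 0 ≠ 0 := by
    rw [← norm_pos_iff, hk1 0 hz0]; exact one_pos
  refine ⟨fun z => h z + Complex.log (k 0), fun z hz => (hh z hz).add analyticAt_const,
    fun z hz => ?_⟩
  have h6 : G z * Complex.exp (-(h z)) = k 0 := h5 hz
  rw [Complex.exp_add, Complex.exp_log hk0, ← h6, mul_comm (G z), ← mul_assoc, ← Complex.exp_add]
  simp

/-- the Harnack inequality -/
theorem harnack {h : ℂ → ℂ} (hh : AnalyticOnNhd ℂ h (ball 0 1))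
    (hre : ∀ z ∈ ball (0 : ℂ) 1, (h z).re ≤ 0) {z ζ : ℂ} (hz : z ∈ ball (0 : ℂ) 1)
    (hζ : ζ ∈ ball (0 : ℂ) 1) (hphi : ‖Bla.phi ζ z‖ ^ 2 ≤ 1 / 4) :
    3 * (h ζ).re ≤ (h z).re := by
  have key : ∀ ε : ℝ, 0 < ε → -(h z).re + ε ≤ 3 * (-(h ζ).re + ε) := by
    intro ε hε
    let u : ℂ → ℂ := fun w => -(h w) + ε
    have hu : ∀ w ∈ ball (0 : ℂ) 1, 0 < (u w).re := by
      intro w hw
      have := hre w hw
      simp only [u, Complex.add_re, Complex.neg_re, Complex.ofReal_re]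
      linarith
    have hua : AnalyticOnNhd ℂ u (ball 0 1) := fun w hw => (hh w hw).neg.add analyticAt_const
    have hden : ∀ w ∈ ball (0 : ℂ) 1, u w + starRingEnd ℂ (u ζ) ≠ 0 := by
      intro w hw h0
      have h1 := congrArg Complex.re h0
      simp only [Complex.add_re, Complex.conj_re, Complex.zero_re] at h1
      have := hu w hw
      have := hu ζ hζ
      linarith
    have hns : ∀ w ∈ ball (0 : ℂ) 1, ‖u w - u ζ‖ ^ 2 ≤ ‖u w + starRingEnd ℂ (u ζ)‖ ^ 2 := by
      intro w hw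
      rw [← Complex.normSq_eq_norm_sq, ← Complex.normSq_eq_norm_sq, Complex.normSq_apply,
        Complex.normSq_apply]
      simp only [Complex.add_re, Complex.conj_re, Complex.sub_re, Complex.sub_im, Complex.add_im,
        Complex.conj_im]
      have := hu w hw
      have := hu ζ hζ
      nlinarith [mul_pos (hu w hw) (hu ζ hζ)]
    let k : ℂ → ℂ := fun w => (u w - u ζ) / (u w + starRingEnd ℂ (u ζ))
    have hk : Bla.Sch k := by
      refine ⟨fun w hw => ?_, fun w hw => ?_⟩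
      · exact ((hua w hw).sub analyticAt_const).div ((hua w hw).add analyticAt_const) (hden w hw)
      · simp only [k]
        rw [norm_div]
        refine div_le_one_of_le₀ ?_ (norm_nonneg _)
        exact le_of_sq_le_sq (hns w hw) (norm_nonneg _)
    have h1 := Bla.schwarz_pick hk (a := ζ) (by simpa using hζ) (by simp [k]) (z := z)
      (by simpa using hz)
    have h2 : ‖k z‖ ^ 2 ≤ 1 / 4 := by
      have := norm_nonneg (k z)
      nlinarith
    simp only [k] at h2
    have hpos : 0 < ‖u z + starRingEnd ℂ (u ζ)‖ ^ 2 := by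
      have := norm_pos_iff.2 (hden z hz)
      positivity
    rw [norm_div, div_pow, div_le_iff₀ hpos, ← Complex.normSq_eq_norm_sq,
      ← Complex.normSq_eq_norm_sq, Complex.normSq_apply, Complex.normSq_apply] at h2
    simp only [Complex.add_re, Complex.conj_re, Complex.sub_re, Complex.sub_im, Complex.add_im,
      Complex.conj_im] at h2
    have ha := hu z hz
    have hb := hu ζ hζ
    have h3 : 4 * ((u z).re - (u ζ).re) ^ 2 ≤ ((u z).re + (u ζ).re) ^ 2 := by
      nlinarith [sq_nonneg ((u z).im + -(u ζ).im)]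
    have h4 : (u z).re ≤ 3 * (u ζ).re := by
      by_contra hcon
      push Not at hcon
      nlinarith
    simpa [u] using h4
  have h1 : ∀ ε : ℝ, 0 < ε → 3 * (h ζ).re ≤ (h z).re + ε := by
    intro ε hε
    have := key (ε / 2) (by positivity)
    linarith
  exact le_of_forall_pos_le_add h1

theorem le_of_sq_le_sq' {a b : ℝ} (h : a ^ 2 ≤ b ^ 2) (hb : 0 ≤ b) : a ≤ b := by
  nlinarith [abs_nonneg a]

/-- unimodular sequences converge along the ultrafilter -/
theorem exists_lim {C : ℕ → ℂ} (hC : ∀ n, ‖C n‖ = 1) :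
    ∃ c : ℂ, ‖c‖ = 1 ∧ Tendsto C (hyperfilter ℕ : Filter ℕ) (𝓝 c) := by
  have h1 : IsCompact (sphere (0 : ℂ) 1) := isCompact_sphere 0 1
  have h2 := h1.ultrafilter_le_nhds ((hyperfilter ℕ).map C) (by
    rw [le_principal_iff, Ultrafilter.coe_map, mem_map]
    exact Filter.univ_mem' (fun n => by simpa using hC n))
  obtain ⟨c, hc, hc2⟩ := h2
  exact ⟨c, by simpa using hc, hc2⟩

end Fac

open Fac Metric in
theorem fac {θ : ℍ → ℂ} (hθ : InU θ) (h0 : ∃ z, θ z ≠ 0) (m : ℕ) (hm : 0 < m) :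
    ∃ (Z : ℕ → Multiset ℍ) (G : ℍ → ℂ), InU G ∧
      (∀ z ζ, 3 / 4 ≤ g z ζ → ‖G ζ‖ ^ 3 ≤ ‖G z‖) ∧
      UL (fun n z => Bl (Z n) z * G z ^ m) θ := by
  have hmR : (0 : ℝ) < m := by exact_mod_cast hm
  have hmC : (m : ℂ) ≠ 0 := by exact_mod_cast hm.ne'
  have hF : Bla.Sch (toD θ) := toD_Sch hθ
  have hcay : ∀ z : ℍ, cay z ∈ ball (0 : ℂ) 1 := fun z => by simpa using norm_cay z
  obtain ⟨z0, hz0⟩ := h0
  obtain ⟨ι, hι, a, G, ha, hs, hG, hG2, hfac⟩ := Bla.factor hF
    ⟨cay z0, hcay z0, by rwa [toD_cay]⟩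
  obtain ⟨h, hh, hexp⟩ := exists_log hG (fun z hz => (hG2 z hz).1)
  have hre : ∀ z ∈ ball (0 : ℂ) 1, (h z).re ≤ 0 := by
    intro z hz
    have h1 := (hG2 z hz).2
    rw [hexp z hz, Complex.norm_exp] at h1
    exact Real.exp_le_one_iff.1 h1
  choose w hw using fun i => cay_surj (ha i)
  choose c hc hc2 using fun i => bfac_cay (w i)
  obtain ⟨s, hs⟩ := exists_seq_tendsto (atTop : Filter (Finset ι))
  let Z : ℕ → Multiset ℍ := fun n => (s n).val.map w
  let C : ℕ → ℂ := fun n => ∏ i ∈ s n, c i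
  have hC : ∀ n, ‖C n‖ = 1 := by
    intro n
    simp only [C]
    rw [norm_prod]
    exact Finset.prod_eq_one (fun i _ => hc i)
  obtain ⟨c0', hc0, hlim⟩ := exists_lim hC
  obtain ⟨c1, hc1⟩ := IsAlgClosed.exists_pow_nat_eq c0' hm
  have hc1n : ‖c1‖ = 1 := by
    have h1 : ‖c1‖ ^ m = 1 := by rw [← norm_pow, hc1, hc0]
    exact (pow_eq_one_iff_of_nonneg (norm_nonneg _) hm.ne').1 h1
  have hc0ne : c0' ≠ 0 := by
    intro h; rw [h, norm_zero] at hc0; exact zero_ne_one hc0
  let R : ℂ → ℂ := fun z => c1 * Complex.exp (h z / m)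
  have hRn : ∀ z, ‖R z‖ = Real.exp ((h z).re / m) := by
    intro z
    simp only [R]
    rw [norm_mul, hc1n, one_mul, Complex.norm_exp]
    congr 1
    have : (h z / (m : ℂ)) = h z / ((m : ℝ) : ℂ) := by push_cast; rfl
    rw [this, Complex.div_ofReal_re]
  have hR : Bla.Sch R := by
    refine ⟨fun z hz => analyticAt_const.mul ((hh z hz).div analyticAt_const hmC).cexp,
      fun z hz => ?_⟩
    rw [hRn]
    refine Real.exp_le_one_iff.2 ?_
    exact div_nonpos_of_nonpos_of_nonneg (hre z hz) hmR.le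
  refine ⟨Z, toH R, toH_InU hR, ?_, ?_⟩
  · intro z ζ hzζ
    simp only [toH]
    rw [hRn, hRn, ← Real.exp_nat_mul]
    refine Real.exp_le_exp.2 ?_
    have hphi : ‖Bla.phi (cay ζ) (cay z)‖ ^ 2 ≤ 1 / 4 := by
      obtain ⟨c', hc', hc'2⟩ := bfac_cay ζ
      rw [← Bla.norm_bfac, hc'2 z, norm_mul, hc', one_mul, norm_bf_sq]
      linarith
    have h1 := harnack hh hre (hcay z) (hcay ζ) hphi
    push_cast
    rw [← mul_div_assoc]
    exact div_le_div_of_nonneg_right h1 hmR.le
  · intro z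
    obtain ⟨b, hb, -, hb2⟩ := hfac (cay z) (hcay z)
    rw [toD_cay] at hb2
    have h1 : Tendsto (fun n => ∏ i ∈ s n, bfac (a i) (cay z)) (hyperfilter ℕ : Filter ℕ)
        (𝓝 b) := by
      have h2 : Tendsto (fun n => ∏ i ∈ s n, bfac (a i) (cay z)) atTop (𝓝 b) := hb.comp hs
      refine h2.mono_left ?_
      rw [← Nat.cofinite_eq_atTop]; exact hyperfilter_le_cofinite
    have h3 : ∀ n, ∏ i ∈ s n, bfac (a i) (cay z) = C n * Bl (Z n) z := by
      intro n
      have h4 : Bl (Z n) z = ∏ i ∈ s n, bf (w i) z := by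
        simp only [Bl, Z, Multiset.map_map, Finset.prod]
        rfl
      rw [h4]
      simp only [C]
      rw [← Finset.prod_mul_distrib]
      refine Finset.prod_congr rfl (fun i _ => ?_)
      rw [← hc2 i z, hw i]
    have h5 : ∀ n, Bl (Z n) z = (C n)⁻¹ * ∏ i ∈ s n, bfac (a i) (cay z) := by
      intro n
      have : C n ≠ 0 := by
        intro h; have := hC n; rw [h, norm_zero] at this; exact zero_ne_one this
      rw [h3 n, inv_mul_cancel_left₀ this]
    have h6 : toH R z ^ m = c0' * G (cay z) := by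
      simp only [toH, R]
      rw [mul_pow, hc1, ← Complex.exp_nat_mul, mul_div_cancel₀ _ hmC, hexp _ (hcay z)]
    have h7 : θ z = c0'⁻¹ * b * (c0' * G (cay z)) := by
      rw [hb2]
      field_simp
    rw [h7]
    simp only [h6, h5]
    exact ((hlim.inv₀ hc0ne).mul h1).mul tendsto_const_nhds

end

end Pool.Agent.Helper65.HP
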