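import Pool.Agent.Helper65.HP.Tri

/-! Module TRJ: transfer of closed prime ideals of `H^∞ + C` to the half plane. -/

set_option autoImplicit false

namespace Pool.Agent.Helper65.HP

open MeasureTheory Filter Topology Pool.Agent.Helper59.DGA UpperHalfPlane

noncomputable section

/-- the corresponding set of functions on the half plane -/
def I0 (I : Ideal HC) : Set (ℍ → ℂ) := {F | ∃ (h : Cir → ℂ) (hh : h ∈ Hinf), ofH h hh ∈ I ∧
  F = toH (ext h)}

namespace Trj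

theorem bound {f : Cir → ℂ} (hf : MemLp f ⊤ mC) : ∃ C : ℝ, 0 ≤ C ∧ ∀ᵐ t ∂mC, ‖f t‖ ≤ C := by
  refine ⟨(eLpNormEssSup f mC).toReal, ENNReal.toReal_nonneg, ?_⟩
  have h1 : eLpNormEssSup f mC ≠ ⊤ := by
    have := hf.eLpNorm_ne_top
    rwa [eLpNorm_exponent_top] at this
  filter_upwards [ae_le_eLpNormEssSup (f := f) (μ := mC)] with t ht
  have h2 := ENNReal.toReal_mono h1 ht
  simpa using h2

theorem ext_add {f g : Cir → ℂ} (hf : f ∈ Hinf) (hg : g ∈ Hinf) (z : ℍ) :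
    ext (f + g) (cay z) = ext f (cay z) + ext g (cay z) :=
  KerB.ext_add' (Hinf.int hf) (Hinf.int hg) (norm_cay z)

theorem ext_const (c : ℂ) (z : ℍ) : ext (fun _ => c) (cay z) = c := by
  unfold ext
  rw [integral_mul_const, integral_complex_ofReal, integral_P (norm_cay z), Complex.ofReal_one,
    one_mul]

theorem ext_mul {f g : Cir → ℂ} (hf : f ∈ Hinf) (hg : g ∈ Hinf) (z : ℍ) :
    ext (f * g) (cay z) = ext f (cay z) * ext g (cay z) :=
  Hinf.ext_mul hf hg (norm_cay z)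

theorem Hinf_sub {f g : Cir → ℂ} (hf : f ∈ Hinf) (hg : g ∈ Hinf) : f - g ∈ Hinf := by
  have h : f - g = f + (fun _ => (-1 : ℂ)) * g := by
    funext t
    simp only [Pi.sub_apply, Pi.add_apply, Pi.mul_apply]
    ring
  rw [h]
  exact Hinf.add hf (Hinf.mul (Hinf.const _) hg)

theorem ext_sub {f g : Cir → ℂ} (hf : f ∈ Hinf) (hg : g ∈ Hinf) (z : ℍ) :
    ext (f - g) (cay z) = ext f (cay z) - ext g (cay z) :=
  Pool.Agent.Helper59.DGA.ext_sub (Hinf.int hf) (Hinf.int hg) (norm_cay z)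

/-- functions with close extensions are close -/
theorem near {f g : Cir → ℂ} (hf : f ∈ Hinf) (hg : g ∈ Hinf) {ε : ℝ}
    (h : ∀ z, ‖toH (ext f) z - toH (ext g) z‖ ≤ ε) : ∀ᵐ t ∂mC, ‖f t - g t‖ ≤ ε := by
  refine Hinf.norm_le (f := f - g) (Hinf_sub hf hg) fun ζ hζ => ?_
  obtain ⟨z, rfl⟩ := cay_surj (mem_ball_zero_iff.1 hζ)
  rw [ext_sub hf hg]
  exact h z

/-- uniqueness of boundary values -/
theorem uniq {f g : Cir → ℂ} (hf : f ∈ Hinf) (hg : g ∈ Hinf)
    (h : toH (ext f) = toH (ext g)) : f =ᵐ[mC] g := by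
  filter_upwards [near hf hg (ε := 0) (fun z => by rw [h, sub_self, norm_zero])] with t ht
  rwa [norm_le_zero_iff, sub_eq_zero] at ht

theorem ofH_eq {f g : Cir → ℂ} (hf : f ∈ Hinf) (hg : g ∈ Hinf) (h : f =ᵐ[mC] g) :
    ofH f hf = ofH g hg := Subtype.ext (Filter.Germ.coe_eq.2 h)

theorem ofH_eq' {f g : Cir → ℂ} (hf : f ∈ Hinf) (hg : g ∈ Hinf)
    (h : toH (ext f) = toH (ext g)) : ofH f hf = ofH g hg := ofH_eq hf hg (uniq hf hg h)

theorem ofH_add {f g : Cir → ℂ} (hf : f ∈ Hinf) (hg : g ∈ Hinf) :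
    ofH (f + g) (Hinf.add hf hg) = ofH f hf + ofH g hg := Subtype.ext rfl

theorem ofH_mul {f g : Cir → ℂ} (hf : f ∈ Hinf) (hg : g ∈ Hinf) :
    ofH (f * g) (Hinf.mul hf hg) = ofH f hf * ofH g hg := Subtype.ext rfl

theorem ofH_sub {f g : Cir → ℂ} (hf : f ∈ Hinf) (hg : g ∈ Hinf) :
    ofH (f - g) (Hinf_sub hf hg) = ofH f hf - ofH g hg := Subtype.ext rfl

theorem ofH_const (c : ℂ) : ofH (fun _ => c) (Hinf.const c) = cst c := Subtype.ext rfl

theorem ofH_one : ofH (fun _ => 1) (Hinf.const 1) = 1 := Subtype.ext rfl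

theorem ofH_zero : ofH (fun _ => 0) (Hinf.const 0) = 0 := Subtype.ext rfl

theorem toH_const (c : ℂ) : toH (ext fun _ => c) = fun _ => c := by
  funext z
  exact ext_const c z

theorem toH_add {f g : Cir → ℂ} (hf : f ∈ Hinf) (hg : g ∈ Hinf) :
    toH (ext (f + g)) = fun z => toH (ext f) z + toH (ext g) z := by
  funext z
  exact ext_add hf hg z

theorem toH_mul {f g : Cir → ℂ} (hf : f ∈ Hinf) (hg : g ∈ Hinf) :
    toH (ext (f * g)) = fun z => toH (ext f) z * toH (ext g) z := by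
  funext z
  exact ext_mul hf hg z

end Trj

open Trj

theorem toH_ext_InH {h : Cir → ℂ} (hh : h ∈ Hinf) : InH (toH (ext h)) := by
  refine ⟨toH_An (Hinf.analytic hh), ?_⟩
  obtain ⟨C, -, hC⟩ := bound hh.1
  exact ⟨C, fun z => ext_norm_le hC (norm_cay z)⟩

theorem exists_ext {F : ℍ → ℂ} (hF : InH F) : ∃ h ∈ Hinf, F = toH (ext h) := by
  obtain ⟨hA, C, hC⟩ := hF
  obtain ⟨h, hh, -, he⟩ := exists_Hinf (toD_analytic hA) (C := C) (fun ζ _ => hC _)
  refine ⟨h, hh, ?_⟩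
  funext z
  have h1 := he (cay z) (mem_ball_zero_iff.2 (norm_cay z))
  rw [toD_cay] at h1
  exact h1.symm

theorem I0_mem {I : Ideal HC} {h : Cir → ℂ} (hh : h ∈ Hinf) (h0 : toH (ext h) ∈ I0 I) :
    ofH h hh ∈ I := by
  obtain ⟨h', hh', hI, he⟩ := h0
  rw [ofH_eq' hh hh' he]
  exact hI

theorem I0_cpi {I : Ideal HC} (hp : I.IsPrime) (hc : IsClosedIdeal I) : CPI (I0 I) := by
  constructor
  · rintro F ⟨h, hh, hI, rfl⟩
    exact toH_ext_InH hh
  · refine ⟨fun _ => 0, Hinf.const 0, ?_, (toH_const 0).symm⟩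
    rw [ofH_zero]
    exact I.zero_mem
  · rintro F ⟨f, hf, hfI, rfl⟩ G ⟨g, hg, hgI, rfl⟩
    refine ⟨f + g, Hinf.add hf hg, ?_, (toH_add hf hg).symm⟩
    rw [ofH_add hf hg]
    exact I.add_mem hfI hgI
  · rintro F ⟨f, hf, hfI, rfl⟩ G hG
    obtain ⟨g, hg, rfl⟩ := exists_ext hG
    refine ⟨f * g, Hinf.mul hf hg, ?_, (toH_mul hf hg).symm⟩
    rw [ofH_mul hf hg]
    exact I.mul_mem_right _ hfI
  · intro F hF h
    obtain ⟨f, hf, rfl⟩ := exists_ext hF
    refine ⟨f, hf, ?_, rfl⟩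
    refine hc _ fun ε hε => ?_
    obtain ⟨G, ⟨g, hg, hgI, rfl⟩, hG⟩ := h ε hε
    refine ⟨ofH g hg, hgI, ?_⟩
    have h1 := near hf hg hG
    exact Filter.Germ.liftPred_coe.2 h1
  · rintro ⟨f, hf, hfI, he⟩
    rw [← toH_const 1] at he
    rw [← ofH_eq' (Hinf.const 1) hf he, ofH_one] at hfI
    exact hp.ne_top ((Ideal.eq_top_iff_one _).2 hfI)
  · intro F G hF hG h
    obtain ⟨f, hf, rfl⟩ := exists_ext hF
    obtain ⟨g, hg, rfl⟩ := exists_ext hG
    rw [← toH_mul hf hg] at h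
    have h1 := I0_mem (Hinf.mul hf hg) h
    rw [ofH_mul hf hg] at h1
    rcases hp.mem_or_mem h1 with h2 | h2
    · exact Or.inl ⟨f, hf, h2, rfl⟩
    · exact Or.inr ⟨g, hg, h2, rfl⟩

namespace Trj

theorem e_mem (t0 : Cir) : (fun t => e t - e t0) ∈ Hinf := by
  have h1 : (fun t : Cir => e t) ∈ Hinf := by
    refine ⟨?_, fun n hn => ?_⟩
    · refine MemLp.of_bound (μ := mC) continuous_e.aestronglyMeasurable 1 ?_
      exact Eventually.of_forall fun t => (norm_e t).le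
    · have h := congrFun (fourierCoeff_fourier (T := (1 : ℝ)) 1) n
      have h2 : (fun t : Cir => e t) = (fourier (1 : ℤ) : Cir → ℂ) := by
        ext t; rw [HinA.fourier_eq, zpow_one]
      rw [h2, h]
      have h3 : n ≠ 1 := by omega
      simp [h3]
  exact Hinf_sub h1 (Hinf.const (e t0))

theorem ext_e (t0 : Cir) (z : ℍ) : ext (fun t => e t - e t0) (cay z) = cay z - e t0 := by
  have h1 : Integrable (fun t : Cir => e t) mC :=
    continuous_e.integrable_of_hasCompactSupport (HasCompactSupport.of_compactSpace _)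
  have h2 := Pool.Agent.Helper59.DGA.ext_sub h1 (integrable_const (e t0)) (norm_cay z)
  have h3 : ext (fun t => e t) (cay z) = cay z := by
    have := KerB.ext_pow 1 (norm_cay z)
    simpa using this
  have h4 := ext_const (e t0) z
  rw [h3, h4] at h2
  exact h2

end Trj

theorem I0_ne {I : Ideal HC} (hp : I.IsPrime) (hc : IsClosedIdeal I) :
    ∃ θ ∈ I0 I, ∃ z, θ z ≠ 0 := by
  obtain ⟨t0, ht0⟩ := exists_point hp hc
  refine ⟨_, ⟨fun t => e t - e t0, e_mem t0, ?_, rfl⟩, UpperHalfPlane.I, ?_⟩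
  · have h1 := ht0 ⟨fun t => e t - e t0, continuous_e.sub continuous_const⟩ (sub_self _)
    have h2 : ofH (fun t => e t - e t0) (e_mem t0) =
        ofC ⟨fun t => e t - e t0, continuous_e.sub continuous_const⟩ := Subtype.ext rfl
    rw [h2]
    exact h1
  · show ext (fun t => e t - e t0) (cay UpperHalfPlane.I) ≠ 0
    rw [ext_e]
    intro h
    have h1 := norm_cay UpperHalfPlane.I
    rw [sub_eq_zero.1 h, norm_e] at h1
    exact lt_irrefl _ h1

/-- characters in the hull as functionals on `H^∞` of the half plane -/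
theorem char_restrict {I : Ideal HC} (hp : I.IsPrime) (hc : IsClosedIdeal I) (x : HC →+* ℂ)
    (hx : x ∈ hull I) : ∃ χ : (ℍ → ℂ) → ℂ,
    (∀ (h : Cir → ℂ) (hh : h ∈ Hinf), χ (toH (ext h)) = x (ofH h hh)) ∧
    (∀ c : ℂ, χ (fun _ => c) = c) ∧
    (∀ F G, InH F → InH G → χ (fun z => F z + G z) = χ F + χ G) ∧
    (∀ F G, InH F → InH G → χ (fun z => F z * G z) = χ F * χ G) ∧
    ∀ F ∈ I0 I, χ F = 0 := by
  classical
  have key : ∃ χ : (ℍ → ℂ) → ℂ,
      ∀ (h : Cir → ℂ) (hh : h ∈ Hinf), χ (toH (ext h)) = x (ofH h hh) := by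
    refine ⟨fun F => if hF : InH F then
      x (ofH (exists_ext hF).choose (exists_ext hF).choose_spec.1) else 0, fun h hh => ?_⟩
    have h1 := toH_ext_InH hh
    simp only [dif_pos h1]
    rw [ofH_eq' (exists_ext h1).choose_spec.1 hh (exists_ext h1).choose_spec.2.symm]
  obtain ⟨χ, hχ⟩ := key
  refine ⟨χ, hχ, fun c => ?_, fun F G hF hG => ?_, fun F G hF hG => ?_, ?_⟩
  · rw [← toH_const c, hχ _ (Hinf.const c), ofH_const]
    exact hx.1 c
  · obtain ⟨f, hf, rfl⟩ := exists_ext hF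
    obtain ⟨g, hg, rfl⟩ := exists_ext hG
    rw [← toH_add hf hg, hχ _ (Hinf.add hf hg), hχ _ hf, hχ _ hg, ofH_add, map_add]
  · obtain ⟨f, hf, rfl⟩ := exists_ext hF
    obtain ⟨g, hg, rfl⟩ := exists_ext hG
    rw [← toH_mul hf hg, hχ _ (Hinf.mul hf hg), hχ _ hf, hχ _ hg, ofH_mul, map_mul]
  · rintro F ⟨f, hf, hfI, rfl⟩
    rw [hχ _ hf]
    exact hx.2 _ hfI

/-- characters of `H^∞` of the half plane vanishing on `I0` extend -/
theorem extend_char {I : Ideal HC} (hp : I.IsPrime) (hc : IsClosedIdeal I) (χ : (ℍ → ℂ) → ℂ)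
    (h1 : ∀ c : ℂ, χ (fun _ => c) = c)
    (hadd : ∀ F G, InH F → InH G → χ (fun z => F z + G z) = χ F + χ G)
    (hmul : ∀ F G, InH F → InH G → χ (fun z => F z * G z) = χ F * χ G)
    (h0 : ∀ F ∈ I0 I, χ F = 0) :
    ∃ x ∈ hull I, ∀ (h : Cir → ℂ) (hh : h ∈ Hinf), x (ofH h hh) = χ (toH (ext h)) := by
  classical
  -- well defined
  have wd : ∀ (f : Cir → ℂ) (hf : f ∈ Hinf) (g : Cir → ℂ) (hg : g ∈ Hinf),
      ofH f hf - ofH g hg ∈ I → χ (toH (ext f)) = χ (toH (ext g)) := by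
    intro f hf g hg hI
    have hs := Hinf_sub hf hg
    have e1 : toH (ext f) = fun z => toH (ext (f - g)) z + toH (ext g) z := by
      rw [← toH_add hs hg, sub_add_cancel]
    have e2 : toH (ext (f - g)) ∈ I0 I := ⟨_, hs, by rw [ofH_sub hf hg]; exact hI, rfl⟩
    rw [e1, hadd _ _ (toH_ext_InH hs) (toH_ext_InH hg), h0 _ e2, zero_add]
  have hrep : ∀ F : HC, ∃ (h : Cir → ℂ) (hh : h ∈ Hinf), F - ofH h hh ∈ I :=
    fun F => exists_rep hp hc F
  choose r hr hrI using hrep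
  have val : ∀ (F : HC) (f : Cir → ℂ) (hf : f ∈ Hinf), F - ofH f hf ∈ I →
      χ (toH (ext (r F))) = χ (toH (ext f)) := by
    intro F f hf hI
    refine wd _ (hr F) _ hf ?_
    have e1 : ofH (r F) (hr F) - ofH f hf = (F - ofH f hf) - (F - ofH (r F) (hr F)) := by ring
    rw [e1]
    exact I.sub_mem hI (hrI F)
  let x : HC →+* ℂ :=
    { toFun := fun F => χ (toH (ext (r F)))
      map_one' := by
        rw [val 1 (fun _ => 1) (Hinf.const 1) (by rw [ofH_one, sub_self]; exact I.zero_mem),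
          toH_const, h1]
      map_zero' := by
        rw [val 0 (fun _ => 0) (Hinf.const 0) (by rw [ofH_zero, sub_self]; exact I.zero_mem),
          toH_const, h1]
      map_mul' := by
        intro F G
        rw [val (F * G) (r F * r G) (Hinf.mul (hr F) (hr G)) ?_, toH_mul (hr F) (hr G),
          hmul _ _ (toH_ext_InH (hr F)) (toH_ext_InH (hr G))]
        have e1 : F * G - ofH (r F * r G) (Hinf.mul (hr F) (hr G)) =
            F * (G - ofH (r G) (hr G)) + (F - ofH (r F) (hr F)) * ofH (r G) (hr G) := by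
          rw [ofH_mul (hr F) (hr G)]; ring
        rw [e1]
        exact I.add_mem (I.mul_mem_left _ (hrI G)) (I.mul_mem_right _ (hrI F))
      map_add' := by
        intro F G
        rw [val (F + G) (r F + r G) (Hinf.add (hr F) (hr G)) ?_, toH_add (hr F) (hr G),
          hadd _ _ (toH_ext_InH (hr F)) (toH_ext_InH (hr G))]
        have e1 : F + G - ofH (r F + r G) (Hinf.add (hr F) (hr G)) =
            (F - ofH (r F) (hr F)) + (G - ofH (r G) (hr G)) := by
          rw [ofH_add (hr F) (hr G)]; ring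
        rw [e1]
        exact I.add_mem (hrI F) (hrI G) }
  have hx : ∀ (F : HC) (f : Cir → ℂ) (hf : f ∈ Hinf), F - ofH f hf ∈ I →
      x F = χ (toH (ext f)) := val
  refine ⟨x, ⟨fun c => ?_, fun F hF => ?_⟩, fun h hh => ?_⟩
  · rw [hx (cst c) (fun _ => c) (Hinf.const c) (by rw [ofH_const, sub_self]; exact I.zero_mem),
      toH_const, h1]
  · rw [hx F (fun _ => 0) (Hinf.const 0) (by rw [ofH_zero, sub_zero]; exact hF),
      toH_const, h1]
  · exact hx _ h hh (by rw [sub_self]; exact I.zero_mem)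

end

end Pool.Agent.Helper65.HP
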