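import Pool.Agent.Helper65.HP.Core
import Pool.Agent.Helper65.HP.Trj

/-! The final theorem. -/

set_option autoImplicit false

namespace Pool.Agent.Helper65.HP

open UpperHalfPlane Filter Topology Pool.Agent.Helper59.DGA

noncomputable section

namespace Fin'

/-- functionals on `H^∞` with the properties of characters -/
structure IsChi (I : Ideal HC) (χ : (ℍ → ℂ) → ℂ) : Prop where
  cst : ∀ c : ℂ, χ (fun _ => c) = c
  add : ∀ F G, InH F → InH G → χ (fun z => F z + G z) = χ F + χ G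
  mul : ∀ F G, InH F → InH G → χ (fun z => F z * G z) = χ F * χ G
  zero : ∀ F ∈ I0 I, χ F = 0

theorem IsChi.smul {I : Ideal HC} {χ : (ℍ → ℂ) → ℂ} (h : IsChi I χ) (c : ℂ) {F : ℍ → ℂ}
    (hF : InH F) : χ (fun z => c * F z) = c * χ F := by
  rw [h.mul _ _ (InH.const c) hF, h.cst]

theorem IsChi.sub {I : Ideal HC} {χ : (ℍ → ℂ) → ℂ} (h : IsChi I χ) {F G : ℍ → ℂ}
    (hF : InH F) (hG : InH G) : χ (fun z => F z - G z) = χ F - χ G := by
  have h1 : (fun z => F z - G z) = fun z => F z + (-1) * G z := by funext z; ring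
  rw [h1, h.add _ _ hF ((InH.const _).mul hG), h.smul _ hG]
  ring

theorem IsChi.sum {I : Ideal HC} {χ : (ℍ → ℂ) → ℂ} (h : IsChi I χ) {ι : Type} (s : Finset ι)
    {F : ι → ℍ → ℂ} (hF : ∀ i ∈ s, InH (F i)) : χ (fun z => ∑ i ∈ s, F i z) = ∑ i ∈ s, χ (F i) := by
  classical
  induction s using Finset.induction_on with
  | empty => simpa using h.cst 0
  | insert a s ha ih =>
    have h1 : (fun z => ∑ i ∈ insert a s, F i z) = fun z => F a z + ∑ i ∈ s, F i z := by
      funext z; rw [Finset.sum_insert ha]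
    rw [h1, h.add _ _ (hF a (Finset.mem_insert_self _ _))
      (InH.sum s fun i hi => hF i (Finset.mem_insert_of_mem hi)), Finset.sum_insert ha,
      ih fun i hi => hF i (Finset.mem_insert_of_mem hi)]

theorem IsChi.not_mem {I : Ideal HC} {χ : (ℍ → ℂ) → ℂ} (h : IsChi I χ) {p : ℕ}
    {G α : Fin p → ℍ → ℂ} (hG : ∀ j, InH (G j)) (hα : ∀ j, InH (α j)) (h0 : ∀ j, χ (G j) = 0) :
    (fun z => 1 - ∑ j, G j z * α j z) ∉ I0 I := by
  intro hmem
  have h1 := h.zero _ hmem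
  rw [h.sub (InH.const 1) (InH.sum _ fun j _ => (hG j).mul (hα j)), h.cst,
    h.sum _ (fun j _ => (hG j).mul (hα j))] at h1
  have h2 : ∑ j, χ (fun z => G j z * α j z) = 0 := by
    apply Finset.sum_eq_zero
    intro j _
    rw [h.mul _ _ (hG j) (hα j), h0 j, zero_mul]
  rw [h2] at h1
  norm_num at h1

/-- two different characters: the ideal is nondegenerate -/
theorem nd_of_ne {I : Ideal HC} {χ₁ χ₂ : (ℍ → ℂ) → ℂ} (h₁ : IsChi I χ₁) (h₂ : IsChi I χ₂)
    {F : ℍ → ℂ} (hF : InH F) (hne : χ₁ F ≠ χ₂ F) : ND (I0 I) := by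
  have hd : χ₂ F - χ₁ F ≠ 0 := sub_ne_zero.2 (Ne.symm hne)
  set G : ℍ → ℂ := fun z => (χ₂ F - χ₁ F)⁻¹ * (F z - χ₁ F) with hG
  have hsub : InH fun z => F z - χ₁ F := hF.sub (InH.const _)
  have hGH : InH G := (InH.const _).mul hsub
  have g1 : χ₁ G = 0 := by
    rw [hG, h₁.smul _ hsub, h₁.sub hF (InH.const _), h₁.cst, sub_self, mul_zero]
  have g2 : χ₂ G = 1 := by
    rw [hG, h₂.smul _ hsub, h₂.sub hF (InH.const _), h₂.cst]
    exact inv_mul_cancel₀ hd
  have hG1 : InH fun z => 1 - G z := (InH.const 1).sub hGH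
  have g3 : χ₂ (fun z => 1 - G z) = 0 := by
    rw [h₂.sub (InH.const 1) hGH, h₂.cst, g2, sub_self]
  refine ⟨G, hGH, fun α hα => ?_, fun α hα => ?_⟩
  · have := h₁.not_mem (p := 1) (G := fun _ => G) (α := fun _ => α) (fun _ => hGH) (fun _ => hα)
      (fun _ => g1)
    simpa using this
  · have := h₂.not_mem (p := 1) (G := fun _ z => 1 - G z) (α := fun _ => α) (fun _ => hG1)
      (fun _ => hα) (fun _ => g3)
    simpa using this

/-- limits of evaluations along an ultrafilter -/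
theorem exists_limit {ι : Type} (U : Ultrafilter ι) (zs : ι → ℍ) : ∃ χ : (ℍ → ℂ) → ℂ,
    ∀ F, InH F → Tendsto (fun k => F (zs k)) (U : Filter ι) (𝓝 (χ F)) := by
  classical
  have hex : ∀ F : ℍ → ℂ, InH F → ∃ a, Tendsto (fun k => F (zs k)) (U : Filter ι) (𝓝 a) := by
    intro F hF
    obtain ⟨C, hC⟩ := hF.2
    have hcomp := isCompact_closedBall (0 : ℂ) C
    have hle : (U.map fun k => F (zs k) : Filter ℂ) ≤ 𝓟 (Metric.closedBall 0 C) := by
      rw [le_principal_iff]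
      show (fun k => F (zs k)) ⁻¹' Metric.closedBall 0 C ∈ (U : Filter ι)
      refine Filter.univ_mem' fun k => ?_
      simpa using hC (zs k)
    obtain ⟨a, -, ha⟩ := hcomp.ultrafilter_le_nhds (U.map fun k => F (zs k)) hle
    exact ⟨a, ha⟩
  refine ⟨fun F => if h : InH F then (hex F h).choose else 0, fun F hF => ?_⟩
  simp only [dif_pos hF]
  exact (hex F hF).choose_spec

end Fin'

open Fin'

theorem hull_tanalytic (I : Ideal HC) (hp : I.IsPrime) (hc : IsClosedIdeal I) :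
    TAnalytic (hull I) := by
  classical
  intro F U hU hUne hzero x hx
  obtain ⟨V, hVo, rfl⟩ := hU
  obtain ⟨y, hyE, hyV⟩ := hUne
  by_cases hall : ∀ x' ∈ hull I, x' = y
  · rw [hall x hx]; exact hzero y ⟨hyE, hyV⟩
  push Not at hall
  obtain ⟨x1, hx1, hne⟩ := hall
  have hcpi := I0_cpi hp hc
  have hI0 := I0_ne hp hc
  obtain ⟨χ₁, e1, c1, a1, m1, z1⟩ := char_restrict hp hc x1 hx1
  obtain ⟨χy, ey, cy, ay, my, zy⟩ := char_restrict hp hc y hyE
  have hχ₁ : IsChi I χ₁ := ⟨c1, a1, m1, z1⟩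
  have hχy : IsChi I χy := ⟨cy, ay, my, zy⟩
  -- representatives
  have hrep : ∀ a : HC, ∃ (h : Cir → ℂ) (hh : h ∈ Hinf), a - ofH h hh ∈ I :=
    fun a => exists_rep hp hc a
  have hval : ∀ (a : HC) (h : Cir → ℂ) (hh : h ∈ Hinf), a - ofH h hh ∈ I →
      ∀ x' ∈ hull I, x' a = x' (ofH h hh) := by
    intro a h hh hmem x' hx'
    have := hx'.2 _ hmem
    rw [map_sub, sub_eq_zero] at this
    exact this
  -- nondegeneracy
  have hND : ND (I0 I) := by
    have : ∃ a : HC, x1 a ≠ y a := by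
      by_contra hcon
      push Not at hcon
      exact hne (RingHom.ext hcon)
    obtain ⟨a, ha⟩ := this
    obtain ⟨h, hh, hmem⟩ := hrep a
    refine nd_of_ne hχ₁ hχy (toH_ext_InH hh) ?_
    rw [e1 h hh, ey h hh, ← hval a h hh hmem x1 hx1, ← hval a h hh hmem y hyE]
    exact ha
  -- a basic neighbourhood
  obtain ⟨s, w, hw, hsub⟩ := isOpen_pi_iff.1 hVo _ hyV
  have hball : ∀ a ∈ s, ∃ ε > 0, Metric.ball (y a) ε ⊆ w a := fun a ha =>
    Metric.isOpen_iff.1 (hw a ha).1 _ (hw a ha).2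
  choose! ε hε hεw using hball
  obtain ⟨e, he0, he⟩ : ∃ e > 0, ∀ a ∈ s, e ≤ ε a := by
    by_cases hs : s.Nonempty
    · refine ⟨s.inf' hs ε, ?_, fun a ha => Finset.inf'_le _ ha⟩
      rw [gt_iff_lt, Finset.lt_inf'_iff]
      exact fun a ha => hε a ha
    · refine ⟨1, one_pos, fun a ha => ?_⟩
      exact absurd ⟨a, ha⟩ hs
  choose hr hhr hrI using hrep
  set as : Fin s.card → HC := fun j => (s.equivFin.symm j : HC) with has
  set gs : Fin s.card → ℍ → ℂ := fun j z =>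
    ((1 / e : ℝ) : ℂ) * (toH (ext (hr (as j))) z - χy (toH (ext (hr (as j))))) with hgs
  have hsubH : ∀ j, InH fun z => toH (ext (hr (as j))) z - χy (toH (ext (hr (as j)))) :=
    fun j => (toH_ext_InH (hhr _)).sub (InH.const _)
  have hgsH : ∀ j, InH (gs j) := fun j => (InH.const _).mul (hsubH j)
  have hgs_val : ∀ (χ : (ℍ → ℂ) → ℂ), IsChi I χ → ∀ j, χ (gs j) =
      ((1 / e : ℝ) : ℂ) * (χ (toH (ext (hr (as j)))) - χy (toH (ext (hr (as j))))) := by
    intro χ hχ j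
    show χ (fun z => ((1 / e : ℝ) : ℂ) *
      (toH (ext (hr (as j))) z - χy (toH (ext (hr (as j)))))) = _
    rw [hχ.smul _ (hsubH j), hχ.sub (toH_ext_InH (hhr _)) (InH.const _), hχ.cst]
  have hgI : ∀ α : Fin s.card → ℍ → ℂ, (∀ j, InH (α j)) →
      (fun z => 1 - ∑ j, gs j z * α j z) ∉ I0 I := by
    intro α hα
    refine hχy.not_mem hgsH hα fun j => ?_
    rw [hgs_val χy hχy j, sub_self, mul_zero]
  -- the function
  obtain ⟨C, hC, hfU⟩ := (toH_ext_InH (hhr F)).scale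
  have hC0 : (1 / C : ℝ) ≠ 0 := by positivity
  set f : ℍ → ℂ := fun z => ((1 / C : ℝ) : ℂ) * toH (ext (hr F)) z with hf
  have hmem : f ∈ I0 I := by
    refine core hcpi hND hI0 gs hgsH hgI hfU ?_
    by_contra hcon
    push Not at hcon
    obtain ⟨η, hη, hcon⟩ := hcon
    -- points
    have hpt : ∀ k : Finset (I0 I) × ℕ, ∃ z : ℍ, (∀ j, ‖gs j z‖ ≤ 1 / 2) ∧ η ≤ ‖f z‖ ∧
        ∀ θ ∈ k.1, ‖(θ : ℍ → ℂ) z‖ < 1 / ((k.2 : ℝ) + 1) := by
      intro k
      obtain ⟨z, k1, k2, k3⟩ := hcon k.1.card (fun j => ((k.1.equivFin.symm j : I0 I) : ℍ → ℂ))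
        (1 / ((k.2 : ℝ) + 1)) (fun j => (k.1.equivFin.symm j : I0 I).2) (by positivity)
      refine ⟨z, k1, k2, fun θ hθ => ?_⟩
      have := k3 (k.1.equivFin ⟨θ, hθ⟩)
      simpa using this
    choose zs hz1 hz2 hz3 using hpt
    have : Nonempty (Finset (I0 I) × ℕ) := ⟨(∅, 0)⟩
    let W : Ultrafilter (Finset (I0 I) × ℕ) := Ultrafilter.of atTop
    have hW : (W : Filter (Finset (I0 I) × ℕ)) ≤ atTop := Ultrafilter.of_le _
    obtain ⟨χ, hχ⟩ := exists_limit W zs
    have hχc : ∀ c : ℂ, χ (fun _ => c) = c := fun c =>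
      tendsto_nhds_unique (hχ _ (InH.const c)) tendsto_const_nhds
    have hχa : ∀ F G, InH F → InH G → χ (fun z => F z + G z) = χ F + χ G := fun F G hF hG =>
      tendsto_nhds_unique (hχ _ (hF.add hG)) ((hχ F hF).add (hχ G hG))
    have hχm : ∀ F G, InH F → InH G → χ (fun z => F z * G z) = χ F * χ G := fun F G hF hG =>
      tendsto_nhds_unique (hχ _ (hF.mul hG)) ((hχ F hF).mul (hχ G hG))
    have hχ0 : ∀ F ∈ I0 I, χ F = 0 := by
      intro F' hF'
      refine tendsto_nhds_unique (hχ _ (hcpi.sub F' hF')) ?_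
      rw [tendsto_zero_iff_norm_tendsto_zero]
      have hev : ∀ᶠ k in (W : Filter (Finset (I0 I) × ℕ)), ‖F' (zs k)‖ ≤ 1 / ((k.2 : ℝ) + 1) := by
        apply hW
        filter_upwards [eventually_ge_atTop (({⟨F', hF'⟩} : Finset (I0 I)), 0)] with k hk
        have : (⟨F', hF'⟩ : I0 I) ∈ k.1 := hk.1 (Finset.mem_singleton_self _)
        exact (hz3 k _ this).le
      refine squeeze_zero' (Filter.Eventually.of_forall fun _ => norm_nonneg _) hev ?_
      have h2 : Tendsto (fun k : Finset (I0 I) × ℕ => k.2) atTop atTop := by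
        rw [← prod_atTop_atTop_eq]; exact tendsto_snd
      exact (tendsto_one_div_add_atTop_nhds_zero_nat.comp h2).mono_left hW
    have hχI : IsChi I χ := ⟨hχc, hχa, hχm, hχ0⟩
    obtain ⟨x2, hx2, hx2v⟩ := extend_char hp hc χ hχc hχa hχm hχ0
    -- `x2` is in the neighbourhood
    have hx2V : (fun G => x2 G) ∈ V := by
      apply hsub
      intro a ha
      have ha' : a ∈ s := ha
      apply hεw a ha'
      rw [Metric.mem_ball, dist_eq_norm]
      obtain ⟨j, hj⟩ : ∃ j, as j = a := ⟨s.equivFin ⟨a, ha'⟩, by simp [has]⟩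
      have h1 : ‖χ (gs j)‖ ≤ 1 / 2 :=
        le_of_tendsto (hχ _ (hgsH j)).norm (Filter.Eventually.of_forall fun k => hz1 k j)
      rw [hgs_val χ hχI j, hj, norm_mul, Complex.norm_real, Real.norm_of_nonneg (by positivity)] at h1
      have h2 : ‖χ (toH (ext (hr a))) - χy (toH (ext (hr a)))‖ ≤ e / 2 := by
        have h3 : 1 / e * ‖χ (toH (ext (hr a))) - χy (toH (ext (hr a)))‖ ≤ 1 / 2 := h1
        rw [one_div, inv_mul_le_iff₀ he0] at h3
        linarith
      beta_reduce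
      rw [hval a _ (hhr a) (hrI a) x2 hx2, hval a _ (hhr a) (hrI a) y hyE, hx2v _ (hhr a),
        ← ey _ (hhr a)]
      have := he a ha'
      linarith
    have h5 := hzero x2 ⟨hx2, hx2V⟩
    rw [hval F _ (hhr F) (hrI F) x2 hx2, hx2v _ (hhr F)] at h5
    have h6 : η ≤ ‖χ f‖ :=
      ge_of_tendsto (hχ _ hfU.inH).norm (Filter.Eventually.of_forall fun k => hz2 k)
    have h7 : χ f = 0 := by
      show χ (fun z => ((1 / C : ℝ) : ℂ) * toH (ext (hr F)) z) = 0
      rw [hχI.smul _ (toH_ext_InH (hhr F)), h5, mul_zero]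
    rw [h7, norm_zero] at h6
    linarith
  -- conclusion
  have hmem2 : toH (ext (hr F)) ∈ I0 I := by
    have h1 := hcpi.mul f hmem (fun _ => (C : ℂ)) (InH.const _)
    have h2 : (fun z => f z * (C : ℂ)) = toH (ext (hr F)) := by
      funext z
      have hC' : (C : ℂ) ≠ 0 := by
        have : C ≠ 0 := by linarith
        exact_mod_cast this
      show ((1 / C : ℝ) : ℂ) * toH (ext (hr F)) z * (C : ℂ) = _
      push_cast
      field_simp
    rw [h2] at h1
    exact h1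
  have h3 := I0_mem (hhr F) hmem2
  rw [hval F _ (hhr F) (hrI F) x hx]
  exact hx.2 _ h3

end

end Pool.Agent.Helper65.HP
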