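import Pool.Agent.Helper65.HP.Defs
import Pool.Agent.Helper59.DG.LP
import Pool.Agent.Helper59.DG.Neh

/-! Module JWA: Green formula for polynomials in `z, conj z`; the duality. -/

set_option autoImplicit false

namespace Pool.Agent.Helper65.HP

open MeasureTheory Metric Filter Topology Pool.Agent.Helper59.DGA MvPolynomial

noncomputable section

/-- polynomials in `z` (variable 0) and `conj z` (variable 1) -/
abbrev R2 : Type := MvPolynomial (Fin 2) ℂ

/-- evaluation at `(z, conj z)` -/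
def ev (Φ : R2) (z : ℂ) : ℂ := MvPolynomial.eval ![z, starRingEnd ℂ z] Φ

namespace JwA

theorem ev_cont (Φ : R2) : Continuous (ev Φ) := by
  unfold ev
  apply (MvPolynomial.continuous_eval Φ).comp
  apply continuous_pi
  intro i
  fin_cases i
  · exact continuous_id
  · exact Complex.continuous_conj

theorem ev_add (Φ Ψ : R2) (z : ℂ) : ev (Φ + Ψ) z = ev Φ z + ev Ψ z := by
  simp [ev]

theorem LL_congr {r : ℝ} (hr : 0 < r) {ψ φ : ℂ → ℂ}
    (h : ∀ z ∈ closedBall (0 : ℂ) r, ψ z = φ z) : LL r ψ = LL r φ := by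
  unfold LL
  apply intervalIntegral.integral_congr
  intro s hs
  rw [Set.uIcc_of_le hr.le] at hs
  simp only
  congr 1
  apply Real.circleAverage_congr_sphere
  intro z hz
  apply h
  rw [abs_of_nonneg hs.1] at hz
  exact (sphere_subset_closedBall.trans (closedBall_subset_closedBall hs.2)) hz

theorem ev_X0 (z : ℂ) : ev (X 0) z = z := by simp [ev]

theorem ev_X1 (z : ℂ) : ev (X 1) z = starRingEnd ℂ z := by simp [ev]

theorem ev_C (c : ℂ) (z : ℂ) : ev (C c) z = c := by simp [ev]

theorem ev_mul (Φ Ψ : R2) (z : ℂ) : ev (Φ * Ψ) z = ev Φ z * ev Ψ z := by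
  simp [ev]

theorem ev_pow (Φ : R2) (n : ℕ) (z : ℂ) : ev (Φ ^ n) z = ev Φ z ^ n := by
  simp [ev]

theorem ev_natCast (n : ℕ) (z : ℂ) : ev (n : R2) z = n := by
  simp [ev]

/-- the case of a monomial -/
theorem green_mono {u : ℂ → ℂ} (hu : AnalyticOnNhd ℂ u (ball 0 1)) (c : ℂ) (m n : ℕ) {r : ℝ}
    (hr : 0 < r) (hr1 : r < 1) :
    Real.circleAverage (fun z => u z * (c * z ^ m * starRingEnd ℂ z ^ n)) 0 r =
      u 0 * (c * 0 ^ m * 0 ^ n) + LL r (fun z =>
        deriv u z * (c * z ^ m * (n * starRingEnd ℂ z ^ (n - 1))) +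
        u z * (c * (m * z ^ (m - 1)) * (n * starRingEnd ℂ z ^ (n - 1)))) := by
  have hU : AnalyticOnNhd ℂ (fun z => u z * (c * z ^ m)) (ball 0 1) := by
    intro z hz
    have := hu z hz
    fun_prop
  have hv : AnalyticOnNhd ℂ (fun z : ℂ => z ^ n) (ball 0 1) := by
    intro z hz
    fun_prop
  have key := lp_identity hU hv hr hr1
  have e1 : (fun z => starRingEnd ℂ ((fun z : ℂ => z ^ n) z) * (fun z => u z * (c * z ^ m)) z) =
      fun z => u z * (c * z ^ m * starRingEnd ℂ z ^ n) := by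
    funext z
    simp only [map_pow]
    ring
  rw [e1] at key
  rw [key]
  congr 1
  · simp only [map_pow, map_zero]
    ring
  · apply LL_congr hr
    intro z hz
    have hz' : z ∈ ball (0 : ℂ) 1 := by
      rw [mem_closedBall_zero_iff] at hz
      rw [mem_ball_zero_iff]
      linarith
    have hd := (hu z hz').differentiableAt
    have d1 : deriv (fun z : ℂ => z ^ n) z = n * z ^ (n - 1) := by
      simp
    have d2 : deriv (fun z => u z * (c * z ^ m)) z =
        deriv u z * (c * z ^ m) + u z * (c * (m * z ^ (m - 1))) := by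
      have h1 : HasDerivAt (fun z : ℂ => c * z ^ m) (c * (m * z ^ (m - 1))) z :=
        (hasDerivAt_pow m z).const_mul c
      exact (hd.hasDerivAt.mul h1).deriv
    rw [d1, d2]
    simp only [map_mul, map_pow, Complex.conj_natCast]
    ring

theorem deriv_cont {u : ℂ → ℂ} (hu : AnalyticOnNhd ℂ u (ball 0 1)) {r : ℝ} (hr1 : r < 1) :
    ContinuousOn u (closedBall 0 r) ∧ ContinuousOn (deriv u) (closedBall 0 r) :=
  ⟨hu.continuousOn.mono (closedBall_subset_ball hr1),
    hu.deriv.continuousOn.mono (closedBall_subset_ball hr1)⟩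

end JwA

open JwA

/-- Green's formula -/
theorem green {u : ℂ → ℂ} (hu : AnalyticOnNhd ℂ u (ball 0 1)) (Φ : R2) {r : ℝ} (hr : 0 < r)
    (hr1 : r < 1) :
    Real.circleAverage (fun z => u z * ev Φ z) 0 r =
      u 0 * ev Φ 0 + LL r (fun z => deriv u z * ev (pderiv 1 Φ) z +
        u z * ev (pderiv 0 (pderiv 1 Φ)) z) := by
  obtain ⟨hc, hc'⟩ := deriv_cont hu hr1
  induction Φ using MvPolynomial.induction_on' with
  | monomial s a =>
    have hs : (monomial s a : R2) = C a * X 0 ^ s 0 * X 1 ^ s 1 := by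
      rw [monomial_eq, Finsupp.prod_fintype _ _ (fun i => by simp), Fin.prod_univ_two, mul_assoc]
    have h1 : pderiv 1 (monomial s a : R2) =
        C a * X 0 ^ s 0 * (((s 1 : ℕ) : R2) * X 1 ^ (s 1 - 1)) := by
      rw [hs, pderiv_mul, pderiv_mul, pderiv_C, pderiv_pow, pderiv_pow,
        pderiv_X_of_ne (by decide), pderiv_X_self]
      ring
    have h0 : pderiv 0 (pderiv 1 (monomial s a : R2)) =
        C a * (((s 0 : ℕ) : R2) * X 0 ^ (s 0 - 1)) * (((s 1 : ℕ) : R2) * X 1 ^ (s 1 - 1)) := by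
      rw [h1, pderiv_mul, pderiv_mul, pderiv_C, pderiv_pow, pderiv_mul, pderiv_pow,
        pderiv_X_of_ne (by decide : (1 : Fin 2) ≠ 0), pderiv_X_self]
      have : pderiv 0 ((s 1 : ℕ) : R2) = 0 := by
        have : ((s 1 : ℕ) : R2) = C ((s 1 : ℕ) : ℂ) := by simp
        rw [this, pderiv_C]
      rw [this]
      ring
    have key := green_mono hu a (s 0) (s 1) hr hr1
    have e1 : (fun z => u z * ev (monomial s a) z) =
        fun z => u z * (a * z ^ s 0 * starRingEnd ℂ z ^ s 1) := by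
      funext z
      rw [hs, ev_mul, ev_mul, ev_C, ev_pow, ev_pow, ev_X0, ev_X1]
    have e2 : (fun z => deriv u z * ev (pderiv 1 (monomial s a)) z +
        u z * ev (pderiv 0 (pderiv 1 (monomial s a))) z) = fun z =>
        deriv u z * (a * z ^ s 0 * (s 1 * starRingEnd ℂ z ^ (s 1 - 1))) +
        u z * (a * (s 0 * z ^ (s 0 - 1)) * (s 1 * starRingEnd ℂ z ^ (s 1 - 1))) := by
      funext z
      rw [h0, h1]
      simp only [ev_mul, ev_C, ev_pow, ev_X0, ev_X1, ev_natCast]
    rw [e1, e2, key]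
    congr 1
    rw [hs, ev_mul, ev_mul, ev_C, ev_pow, ev_pow, ev_X0, ev_X1, map_zero (starRingEnd ℂ)]
  | add p q hp hq =>
    have hI : ∀ Φ : R2, CircleIntegrable (fun z => u z * ev Φ z) 0 r := by
      intro Φ
      apply ContinuousOn.circleIntegrable hr.le
      exact (hc.mono sphere_subset_closedBall).mul (ev_cont Φ).continuousOn
    have hL : ∀ Φ : R2, ContinuousOn (fun z => deriv u z * ev (pderiv 1 Φ) z +
        u z * ev (pderiv 0 (pderiv 1 Φ)) z) (closedBall 0 r) := by
      intro Φ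
      exact (hc'.mul (ev_cont _).continuousOn).add (hc.mul (ev_cont _).continuousOn)
    have e1 : (fun z => u z * ev (p + q) z) = fun z => u z * ev p z + u z * ev q z := by
      funext z; rw [ev_add]; ring
    have e2 : (fun z => deriv u z * ev (pderiv 1 (p + q)) z +
        u z * ev (pderiv 0 (pderiv 1 (p + q))) z) = fun z =>
        (deriv u z * ev (pderiv 1 p) z + u z * ev (pderiv 0 (pderiv 1 p)) z) +
        (deriv u z * ev (pderiv 1 q) z + u z * ev (pderiv 0 (pderiv 1 q)) z) := by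
      funext z
      rw [map_add, map_add, ev_add, ev_add]; ring
    rw [e1, e2, Real.circleAverage_fun_add (hI p) (hI q), LL_add_complex hr (hL p) (hL q), hp, hq,
      ev_add]
    ring

/-- a functional on polynomials which is bounded for the `L^1` norm on the circle is given by a
bounded function -/
theorem dual_poly (Λ : Polynomial ℂ →ₗ[ℂ] ℂ) (C : ℝ) (hC : 0 ≤ C)
    (h : ∀ p : Polynomial ℂ, ‖Λ p‖ ≤ C * ∫ t, ‖p.eval (e t)‖ ∂mC) :
    ∃ w : Cir → ℂ, MemLp w ⊤ mC ∧ (∀ᵐ t ∂mC, ‖w t‖ ≤ C) ∧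
      ∀ p : Polynomial ℂ, Λ p = ∫ t, w t * p.eval (e t) ∂mC := by
  let S : Submodule ℂ (Lp ℂ 1 mC) :=
    { carrier := {f | ∃ p : Polynomial ℂ, f =ᵐ[mC] fun t => p.eval (e t)}
      add_mem' := by
        rintro f g ⟨p, hpf⟩ ⟨q, hqg⟩
        refine ⟨p + q, ?_⟩
        filter_upwards [Lp.coeFn_add f g, hpf, hqg] with t a b c
        rw [a, Pi.add_apply, b, c, Polynomial.eval_add]
      zero_mem' := by
        refine ⟨0, ?_⟩
        filter_upwards [Lp.coeFn_zero ℂ 1 mC] with t a
        rw [a]; simp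
      smul_mem' := by
        rintro c f ⟨p, hpf⟩
        refine ⟨c • p, ?_⟩
        filter_upwards [Lp.coeFn_smul c f, hpf] with t a b
        rw [a, Pi.smul_apply, b, Polynomial.eval_smul] }
  have hwd : ∀ p q : Polynomial ℂ,
      ((fun t => p.eval (e t)) =ᵐ[mC] fun t => q.eval (e t)) → Λ p = Λ q := by
    intro p q hpq
    have h1 := h (p - q)
    have h2 : ∫ t, ‖(p - q).eval (e t)‖ ∂mC = 0 := by
      rw [integral_eq_zero_iff_of_nonneg_ae (Eventually.of_forall fun t => norm_nonneg _)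
        (memLp_one_iff_integrable.1 (NehB.memLp_poly (p - q) 1)).norm]
      filter_upwards [hpq] with t ht
      simp [Polynomial.eval_sub, ht]
    rw [h2, mul_zero, map_sub] at h1
    exact sub_eq_zero.mp (norm_le_zero_iff.mp h1)
  let L0 : S →ₗ[ℂ] ℂ :=
    { toFun := fun f => Λ f.2.choose
      map_add' := by
        intro f g
        rw [← map_add]
        apply hwd
        filter_upwards [Lp.coeFn_add (f : Lp ℂ 1 mC) g, f.2.choose_spec, g.2.choose_spec,
          (f + g).2.choose_spec] with t a b c d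
        rw [← d, Submodule.coe_add, a, Pi.add_apply, b, c, Polynomial.eval_add]
      map_smul' := by
        intro c f
        rw [RingHom.id_apply, ← map_smul]
        apply hwd
        filter_upwards [Lp.coeFn_smul c (f : Lp ℂ 1 mC), f.2.choose_spec,
          (c • f).2.choose_spec] with t a b d
        rw [← d, Submodule.coe_smul, a, Pi.smul_apply, b, Polynomial.eval_smul] }
  have hL0 : ∀ f : S, ‖L0 f‖ ≤ C * ‖f‖ := by
    intro f
    have e2 : ‖f‖ = ∫ t, ‖f.2.choose.eval (e t)‖ ∂mC := by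
      show ‖(f : Lp ℂ 1 mC)‖ = _
      rw [L1.norm_eq_integral_norm]
      refine integral_congr_ae ?_
      filter_upwards [f.2.choose_spec] with t a
      rw [a]
    rw [e2]
    exact h _
  obtain ⟨Λ', hΛ1, hΛ2⟩ := exists_extension_norm_eq S (L0.mkContinuous C hL0)
  obtain ⟨ψ, hψ1, hψ2, hψ3⟩ := NehB.dual Λ' C (hΛ2 ▸ L0.mkContinuous_norm_le hC hL0)
  refine ⟨ψ, hψ1, hψ2, fun p => ?_⟩
  have h1 := NehB.memLp_poly p 1
  have h2 := NehB.memLp_poly p 2
  have e1 := hψ3 _ h2 h1
  have hmem : h1.toLp _ ∈ S := ⟨p, h1.coeFn_toLp⟩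
  have e2 := hΛ1 ⟨_, hmem⟩
  rw [← e1]
  have e3 : (L0.mkContinuous C hL0) ⟨_, hmem⟩ = Λ p := by
    show Λ hmem.choose = _
    apply hwd
    filter_upwards [hmem.choose_spec, h1.coeFn_toLp] with t a b
    rw [← a, b]
  rw [← e3, ← e2]

end

end Pool.Agent.Helper65.HP
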