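import Pool.Agent.Helper65.HP.JwA

/-! Module JWB: the Koszul data of Wolff's proof, with polynomial cut-offs. -/

set_option autoImplicit false

namespace Pool.Agent.Helper65.HP

open MeasureTheory Metric Filter Topology Pool.Agent.Helper59.DGA MvPolynomial

noncomputable section

/-- a polynomial in `z` -/
def em (p : Polynomial ℂ) : R2 := Polynomial.aeval (X 0 : R2) p

/-- the conjugate polynomial, in `conj z` -/
def ec (p : Polynomial ℂ) : R2 := Polynomial.aeval (X 1 : R2) (p.map (starRingEnd ℂ))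

variable {n : ℕ}

/-- `|κ|²` (normalised) -/
def TT (κ : Fin n → Polynomial ℂ) : R2 := C ((1 : ℂ) / n) * ∑ j, em (κ j) * ec (κ j)

/-- the functions `κ_0 = 1, κ_1, ..., κ_n` -/
def kap (κ : Fin n → Polynomial ℂ) : Option (Fin n) → R2
  | none => 1
  | some j => em (κ j)

/-- the functions `ψ_0 = (1 - T)^N`, `ψ_j = conj κ_j (1 - (1 - T)^N) / (n T)` -/
def psi (N : ℕ) (κ : Fin n → Polynomial ℂ) : Option (Fin n) → R2
  | none => (1 - TT κ) ^ N
  | some j => C ((1 : ℂ) / n) * ec (κ j) * ∑ i ∈ Finset.range N, (1 - TT κ) ^ i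

/-- the Koszul forms -/
def AA (N : ℕ) (κ : Fin n → Polynomial ℂ) (G : Polynomial ℂ) (j k : Option (Fin n)) : R2 :=
  em G ^ 2 * (psi N κ j * pderiv 1 (psi N κ k) - psi N κ k * pderiv 1 (psi N κ j))

/-- the size of the derivatives -/
def HH (κ : Fin n → Polynomial ℂ) (G : Polynomial ℂ) (z : ℂ) : ℝ :=
  ‖G.derivative.eval z‖ + ∑ j, ‖(κ j).derivative.eval z‖

namespace JwB

/-- evaluation as a ring homomorphism -/
def evh (z : ℂ) : R2 →+* ℂ := MvPolynomial.eval ![z, starRingEnd ℂ z]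

theorem ev_eq (Φ : R2) (z : ℂ) : ev Φ z = evh z Φ := rfl

theorem evh_em (p : Polynomial ℂ) (z : ℂ) : evh z (em p) = p.eval z := by
  unfold em
  induction p using Polynomial.induction_on' with
  | add p q hp hq => simp only [map_add, hp, hq, Polynomial.eval_add]
  | monomial m c =>
    simp [evh, Polynomial.aeval_monomial, MvPolynomial.algebraMap_eq]

theorem evh_ec (p : Polynomial ℂ) (z : ℂ) : evh z (ec p) = starRingEnd ℂ (p.eval z) := by
  unfold ec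
  induction p using Polynomial.induction_on' with
  | add p q hp hq => simp only [map_add, hp, hq, Polynomial.eval_add, Polynomial.map_add]
  | monomial m c =>
    simp [evh, Polynomial.aeval_monomial, MvPolynomial.algebraMap_eq]

theorem d0_em (p : Polynomial ℂ) : pderiv 0 (em p) = em p.derivative := by
  unfold em
  rw [Derivation.map_aeval, pderiv_X_self, smul_eq_mul, mul_one]

theorem d1_em (p : Polynomial ℂ) : pderiv 1 (em p) = 0 := by
  unfold em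
  rw [Derivation.map_aeval, pderiv_X_of_ne (by decide), smul_zero]

theorem d1_ec (p : Polynomial ℂ) : pderiv 1 (ec p) = ec p.derivative := by
  unfold ec
  rw [Derivation.map_aeval, pderiv_X_self, smul_eq_mul, mul_one, Polynomial.derivative_map]

theorem d0_ec (p : Polynomial ℂ) : pderiv 0 (ec p) = 0 := by
  unfold ec
  rw [Derivation.map_aeval, pderiv_X_of_ne (by decide), smul_zero]

end JwB

open JwB

theorem ev_em (p : Polynomial ℂ) (z : ℂ) : ev (em p) z = p.eval z := evh_em p z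

theorem ev_ec (p : Polynomial ℂ) (z : ℂ) : ev (ec p) z = starRingEnd ℂ (p.eval z) := evh_ec p z

theorem AA_anti (N : ℕ) (κ : Fin n → Polynomial ℂ) (G : Polynomial ℂ) (j k : Option (Fin n)) :
    AA N κ G j k = -AA N κ G k j := by unfold AA; ring

/-- partition of unity -/
theorem sum_kap_psi (hn : 0 < n) (N : ℕ) (κ : Fin n → Polynomial ℂ) :
    ∑ j, kap κ j * psi N κ j = 1 := by
  rw [Fintype.sum_option]
  have h1 : ∑ j, kap κ (some j) * psi N κ (some j) =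
      TT κ * ∑ i ∈ Finset.range N, (1 - TT κ) ^ i := by
    have : ∀ j, kap κ (some j) * psi N κ (some j) =
        (C ((1 : ℂ) / n) * (em (κ j) * ec (κ j))) * ∑ i ∈ Finset.range N, (1 - TT κ) ^ i := by
      intro j
      simp only [kap, psi]
      ring
    rw [Finset.sum_congr rfl (fun j _ => this j), ← Finset.sum_mul, ← Finset.mul_sum]
    rfl
  rw [h1]
  have h2 := mul_neg_geom_sum (1 - TT κ) N
  rw [sub_sub_cancel] at h2
  rw [h2]
  simp only [kap, psi]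
  ring

/-- Koszul identity -/
theorem sum_kap_AA (hn : 0 < n) (N : ℕ) (κ : Fin n → Polynomial ℂ) (G : Polynomial ℂ)
    (j : Option (Fin n)) :
    ∑ k, kap κ k * AA N κ G j k = -(em G ^ 2 * pderiv 1 (psi N κ j)) := by
  have h1 := sum_kap_psi hn N κ
  have h2 : ∑ k, kap κ k * pderiv 1 (psi N κ k) = 0 := by
    have h3 := congrArg (pderiv 1) h1
    rw [map_sum, pderiv_one] at h3
    rw [← h3]
    refine Finset.sum_congr rfl fun k _ => ?_
    rw [pderiv_mul]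
    have : pderiv 1 (kap κ k) = 0 := by
      cases k with
      | none => exact pderiv_one
      | some k => exact d1_em _
    rw [this]
    ring
  have h3 : ∀ k, kap κ k * AA N κ G j k =
      em G ^ 2 * psi N κ j * (kap κ k * pderiv 1 (psi N κ k)) -
        em G ^ 2 * pderiv 1 (psi N κ j) * (kap κ k * psi N κ k) := by
    intro k
    unfold AA
    ring
  rw [Finset.sum_congr rfl (fun k _ => h3 k), Finset.sum_sub_distrib, ← Finset.mul_sum,
    ← Finset.mul_sum, h1, h2]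
  ring

namespace JwB

/-- pointwise bounds for a polynomial and its derivatives -/
structure Bd (f : R2) (z : ℂ) (a b0 b1 c : ℝ) : Prop where
  h0 : ‖evh z f‖ ≤ a
  h1 : ‖evh z (pderiv 0 f)‖ ≤ b0
  h2 : ‖evh z (pderiv 1 f)‖ ≤ b1
  h3 : ‖evh z (pderiv 0 (pderiv 1 f))‖ ≤ c

theorem Bd.mono {f : R2} {z : ℂ} {a b0 b1 c a' b0' b1' c' : ℝ} (h : Bd f z a b0 b1 c)
    (ha : a ≤ a') (hb0 : b0 ≤ b0') (hb1 : b1 ≤ b1') (hc : c ≤ c') : Bd f z a' b0' b1' c' :=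
  ⟨h.h0.trans ha, h.h1.trans hb0, h.h2.trans hb1, h.h3.trans hc⟩

theorem Bd.add {f g : R2} {z : ℂ} {a b0 b1 c a' b0' b1' c' : ℝ} (h : Bd f z a b0 b1 c)
    (h' : Bd g z a' b0' b1' c') : Bd (f + g) z (a + a') (b0 + b0') (b1 + b1') (c + c') := by
  refine ⟨?_, ?_, ?_, ?_⟩
  · rw [map_add]; exact (norm_add_le _ _).trans (add_le_add h.h0 h'.h0)
  · rw [map_add, map_add]; exact (norm_add_le _ _).trans (add_le_add h.h1 h'.h1)
  · rw [map_add, map_add]; exact (norm_add_le _ _).trans (add_le_add h.h2 h'.h2)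
  · rw [map_add, map_add, map_add]; exact (norm_add_le _ _).trans (add_le_add h.h3 h'.h3)

theorem Bd.zero (z : ℂ) : Bd (0 : R2) z 0 0 0 0 := by
  constructor <;> simp

theorem Bd.const (c : ℂ) (z : ℂ) : Bd (C c : R2) z ‖c‖ 0 0 0 := by
  constructor <;> simp [evh]

theorem Bd.one (z : ℂ) : Bd (1 : R2) z 1 0 0 0 := by
  constructor <;> simp

theorem Bd.mul {f g : R2} {z : ℂ} {a b0 b1 c a' b0' b1' c' : ℝ} (h : Bd f z a b0 b1 c)
    (h' : Bd g z a' b0' b1' c') :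
    Bd (f * g) z (a * a') (b0 * a' + a * b0') (b1 * a' + a * b1')
      (c * a' + b1 * b0' + (b0 * b1' + a * c')) := by
  have na := (norm_nonneg _).trans h.h0
  have nb0 := (norm_nonneg _).trans h.h1
  have nb1 := (norm_nonneg _).trans h.h2
  have nc := (norm_nonneg _).trans h.h3
  have mulle : ∀ {x y : ℂ} {p q : ℝ}, ‖x‖ ≤ p → ‖y‖ ≤ q → 0 ≤ p → ‖x * y‖ ≤ p * q := by
    intro x y p q hx hy hp
    rw [norm_mul]
    exact mul_le_mul hx hy (norm_nonneg _) hp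
  refine ⟨?_, ?_, ?_, ?_⟩
  · rw [map_mul]; exact mulle h.h0 h'.h0 na
  · rw [pderiv_mul, map_add, map_mul, map_mul]
    exact (norm_add_le _ _).trans (add_le_add (mulle h.h1 h'.h0 nb0) (mulle h.h0 h'.h1 na))
  · rw [pderiv_mul, map_add, map_mul, map_mul]
    exact (norm_add_le _ _).trans (add_le_add (mulle h.h2 h'.h0 nb1) (mulle h.h0 h'.h2 na))
  · rw [pderiv_mul, map_add, pderiv_mul, pderiv_mul, map_add, map_add, map_add, map_mul, map_mul,
      map_mul, map_mul]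
    refine (norm_add_le _ _).trans (add_le_add ?_ ?_)
    · exact (norm_add_le _ _).trans (add_le_add (mulle h.h3 h'.h0 nc) (mulle h.h2 h'.h1 nb1))
    · exact (norm_add_le _ _).trans (add_le_add (mulle h.h1 h'.h2 nb0) (mulle h.h0 h'.h3 na))

theorem Bd.sum {ι : Type} (s : Finset ι) (f : ι → R2) (z : ℂ) (a b0 b1 c : ι → ℝ)
    (h : ∀ i ∈ s, Bd (f i) z (a i) (b0 i) (b1 i) (c i)) :
    Bd (∑ i ∈ s, f i) z (∑ i ∈ s, a i) (∑ i ∈ s, b0 i) (∑ i ∈ s, b1 i) (∑ i ∈ s, c i) := by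
  classical
  induction s using Finset.induction_on with
  | empty => simpa using Bd.zero z
  | insert i s hi ih =>
    rw [Finset.sum_insert hi, Finset.sum_insert hi, Finset.sum_insert hi, Finset.sum_insert hi,
      Finset.sum_insert hi]
    exact (h i (Finset.mem_insert_self i s)).add
      (ih fun k hk => h k (Finset.mem_insert_of_mem hk))

theorem bd_em {p : Polynomial ℂ} {z : ℂ} (h : ‖p.eval z‖ ≤ 1) :
    Bd (em p) z 1 ‖p.derivative.eval z‖ 0 0 := by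
  refine ⟨?_, ?_, ?_, ?_⟩
  · rw [evh_em]; exact h
  · rw [d0_em, evh_em]
  · rw [d1_em, map_zero, norm_zero]
  · rw [d1_em, map_zero, map_zero, norm_zero]

theorem bd_ec {p : Polynomial ℂ} {z : ℂ} (h : ‖p.eval z‖ ≤ 1) :
    Bd (ec p) z 1 0 ‖p.derivative.eval z‖ 0 := by
  refine ⟨?_, ?_, ?_, ?_⟩
  · rw [evh_ec, RCLike.norm_conj]; exact h
  · rw [d0_ec, map_zero, norm_zero]
  · rw [d1_ec, evh_ec, RCLike.norm_conj]
  · rw [d1_ec, d0_ec, map_zero, norm_zero]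

/-- sum of the derivatives -/
def EE (κ : Fin n → Polynomial ℂ) (z : ℂ) : ℝ := ∑ j, ‖(κ j).derivative.eval z‖

theorem EE_nonneg (κ : Fin n → Polynomial ℂ) (z : ℂ) : 0 ≤ EE κ z :=
  Finset.sum_nonneg fun _ _ => norm_nonneg _

theorem le_EE (κ : Fin n → Polynomial ℂ) (z : ℂ) (j : Fin n) :
    ‖(κ j).derivative.eval z‖ ≤ EE κ z :=
  Finset.single_le_sum (f := fun j => ‖(κ j).derivative.eval z‖) (fun _ _ => norm_nonneg _)
    (Finset.mem_univ j)

theorem norm_inv_n_le : ‖(1 : ℂ) / n‖ ≤ 1 := by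
  rcases Nat.eq_zero_or_pos n with h | h
  · subst h; simp
  · rw [norm_div, norm_one, Complex.norm_natCast, div_le_one (by exact_mod_cast h)]
    exact_mod_cast h

theorem evh_TT (κ : Fin n → Polynomial ℂ) (z : ℂ) :
    evh z (TT κ) = (((∑ j, ‖(κ j).eval z‖ ^ 2) / n : ℝ) : ℂ) := by
  unfold TT
  rw [map_mul, map_sum]
  have h1 : evh z (C ((1 : ℂ) / n)) = (1 : ℂ) / n := by simp [evh]
  rw [h1]
  have h2 : ∀ j, evh z (em (κ j) * ec (κ j)) = ((‖(κ j).eval z‖ ^ 2 : ℝ) : ℂ) := by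
    intro j
    rw [map_mul, evh_em, evh_ec, Complex.mul_conj, Complex.normSq_eq_norm_sq]
  rw [Finset.sum_congr rfl fun j _ => h2 j]
  push_cast
  ring

theorem t_nonneg (κ : Fin n → Polynomial ℂ) (z : ℂ) : 0 ≤ (∑ j, ‖(κ j).eval z‖ ^ 2) / n :=
  div_nonneg (Finset.sum_nonneg fun _ _ => by positivity) (Nat.cast_nonneg _)

theorem t_le {κ : Fin n → Polynomial ℂ} {z : ℂ} (hκ : ∀ j, ‖(κ j).eval z‖ ≤ 1) :
    (∑ j, ‖(κ j).eval z‖ ^ 2) / n ≤ 1 := by
  rcases Nat.eq_zero_or_pos n with h | h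
  · subst h; simp
  · rw [div_le_one (by exact_mod_cast h)]
    calc ∑ j, ‖(κ j).eval z‖ ^ 2 ≤ ∑ j : Fin n, (1 : ℝ) :=
          Finset.sum_le_sum fun j _ => pow_le_one₀ (norm_nonneg _) (hκ j)
      _ = n := by simp

theorem evh_oneSub (κ : Fin n → Polynomial ℂ) (z : ℂ) :
    evh z (1 - TT κ) = ((1 - (∑ j, ‖(κ j).eval z‖ ^ 2) / n : ℝ) : ℂ) := by
  rw [map_sub, map_one, evh_TT]
  push_cast
  ring

theorem norm_evh_oneSub {κ : Fin n → Polynomial ℂ} {z : ℂ} (hκ : ∀ j, ‖(κ j).eval z‖ ≤ 1) :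
    ‖evh z (1 - TT κ)‖ = 1 - (∑ j, ‖(κ j).eval z‖ ^ 2) / n := by
  rw [evh_oneSub, Complex.norm_real, Real.norm_eq_abs, abs_of_nonneg]
  linarith [t_le hκ]

theorem bd_TT {κ : Fin n → Polynomial ℂ} {z : ℂ} (hκ : ∀ j, ‖(κ j).eval z‖ ≤ 1) :
    ‖evh z (pderiv 0 (TT κ))‖ ≤ EE κ z ∧ ‖evh z (pderiv 1 (TT κ))‖ ≤ EE κ z ∧
      ‖evh z (pderiv 0 (pderiv 1 (TT κ)))‖ ≤ EE κ z ^ 2 := by
  have hs : Bd (∑ j, em (κ j) * ec (κ j)) z (∑ _j : Fin n, (1 : ℝ)) (EE κ z) (EE κ z)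
      (∑ j, ‖(κ j).derivative.eval z‖ ^ 2) := by
    refine Bd.sum _ _ _ _ _ _ _ fun j _ => ?_
    refine ((bd_em (hκ j)).mul (bd_ec (hκ j))).mono ?_ ?_ ?_ ?_
    · simp
    · simp
    · simp
    · apply le_of_eq; ring
  have hT := (Bd.const ((1 : ℂ) / n) z).mul hs
  have hn := norm_inv_n_le (n := n)
  have hE := EE_nonneg κ z
  have hsq : ∑ j, ‖(κ j).derivative.eval z‖ ^ 2 ≤ EE κ z ^ 2 := by
    have : ∀ j ∈ (Finset.univ : Finset (Fin n)), ‖(κ j).derivative.eval z‖ ^ 2 ≤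
        ‖(κ j).derivative.eval z‖ * EE κ z := by
      intro j _
      rw [sq]
      exact mul_le_mul_of_nonneg_left (le_EE κ z j) (norm_nonneg _)
    calc ∑ j, ‖(κ j).derivative.eval z‖ ^ 2 ≤ ∑ j, ‖(κ j).derivative.eval z‖ * EE κ z :=
          Finset.sum_le_sum this
      _ = EE κ z ^ 2 := by rw [← Finset.sum_mul, sq]; rfl
  have hsq0 : 0 ≤ ∑ j, ‖(κ j).derivative.eval z‖ ^ 2 :=
    Finset.sum_nonneg fun _ _ => by positivity
  refine ⟨hT.h1.trans ?_, hT.h2.trans ?_, hT.h3.trans ?_⟩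
  · nlinarith
  · nlinarith
  · nlinarith

theorem bd_pow {κ : Fin n → Polynomial ℂ} {z : ℂ} (hκ : ∀ j, ‖(κ j).eval z‖ ≤ 1) (i : ℕ) :
    Bd ((1 - TT κ) ^ i) z 1 (i * EE κ z) (i * EE κ z) (i ^ 2 * EE κ z ^ 2) := by
  obtain ⟨h1, h2, h3⟩ := bd_TT hκ
  have hb : Bd (1 - TT κ) z 1 (EE κ z) (EE κ z) (EE κ z ^ 2) := by
    refine ⟨?_, ?_, ?_, ?_⟩
    · rw [norm_evh_oneSub hκ]; linarith [t_nonneg κ z]
    · rw [map_sub, pderiv_one, zero_sub, map_neg, norm_neg]; exact h1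
    · rw [map_sub, pderiv_one, zero_sub, map_neg, norm_neg]; exact h2
    · rw [map_sub, pderiv_one, zero_sub, map_neg, map_neg, norm_neg]; exact h3
  induction i with
  | zero =>
    rw [pow_zero]
    refine (Bd.one z).mono ?_ ?_ ?_ ?_ <;> simp
  | succ i ih =>
    rw [pow_succ]
    refine (ih.mul hb).mono ?_ ?_ ?_ ?_
    · simp
    · push_cast; apply le_of_eq; ring
    · push_cast; apply le_of_eq; ring
    · push_cast; apply le_of_eq; ring

theorem bd_geom {κ : Fin n → Polynomial ℂ} {z : ℂ} (hκ : ∀ j, ‖(κ j).eval z‖ ≤ 1) (N : ℕ) :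
    Bd (∑ i ∈ Finset.range N, (1 - TT κ) ^ i) z N (N ^ 2 * EE κ z) (N ^ 2 * EE κ z)
      (N ^ 3 * EE κ z ^ 2) := by
  have hE := EE_nonneg κ z
  have hs := Bd.sum (Finset.range N) (fun i => (1 - TT κ) ^ i) z _ _ _ _
    (fun i _ => bd_pow hκ i)
  have hle1 : ∑ i ∈ Finset.range N, ((i : ℝ) * EE κ z) ≤ N ^ 2 * EE κ z := by
    calc ∑ i ∈ Finset.range N, ((i : ℝ) * EE κ z) ≤ ∑ i ∈ Finset.range N, ((N : ℝ) * EE κ z) := by
          refine Finset.sum_le_sum fun i hi => ?_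
          have : (i : ℝ) ≤ N := by exact_mod_cast (Finset.mem_range.mp hi).le
          exact mul_le_mul_of_nonneg_right this hE
      _ = N ^ 2 * EE κ z := by
          rw [Finset.sum_const, Finset.card_range, nsmul_eq_mul]; ring
  refine hs.mono ?_ hle1 hle1 ?_
  · simp
  · calc ∑ i ∈ Finset.range N, ((i : ℝ) ^ 2 * EE κ z ^ 2)
        ≤ ∑ i ∈ Finset.range N, ((N : ℝ) ^ 2 * EE κ z ^ 2) := by
          refine Finset.sum_le_sum fun i hi => ?_
          have : (i : ℝ) ≤ N := by exact_mod_cast (Finset.mem_range.mp hi).le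
          gcongr
      _ = N ^ 3 * EE κ z ^ 2 := by
          rw [Finset.sum_const, Finset.card_range, nsmul_eq_mul]; ring

theorem bd_psi_some {N : ℕ} (hN : 1 ≤ N) {κ : Fin n → Polynomial ℂ} {z : ℂ}
    (hκ : ∀ j, ‖(κ j).eval z‖ ≤ 1) (j : Fin n) :
    Bd (psi N κ (some j)) z N (N ^ 2 * EE κ z) (2 * N ^ 2 * EE κ z) (2 * N ^ 3 * EE κ z ^ 2) := by
  have hE := EE_nonneg κ z
  have hN' : (1 : ℝ) ≤ N := by exact_mod_cast hN
  have h1 : Bd (C ((1 : ℂ) / n) * ec (κ j)) z 1 0 (EE κ z) 0 := by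
    refine ((Bd.const ((1 : ℂ) / n) z).mul (bd_ec (hκ j))).mono ?_ ?_ ?_ ?_
    · rw [mul_one]; exact norm_inv_n_le
    · simp
    · have := mul_le_mul (norm_inv_n_le (n := n)) (le_EE κ z j) (norm_nonneg _) zero_le_one
      rw [zero_mul, zero_add]
      linarith
    · simp
  refine (h1.mul (bd_geom hκ N)).mono ?_ ?_ ?_ ?_
  · simp
  · simp
  · have : (N : ℝ) * EE κ z ≤ N ^ 2 * EE κ z := by
      apply mul_le_mul_of_nonneg_right _ hE
      nlinarith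
    nlinarith
  · have h2 : (N : ℝ) ^ 2 ≤ N ^ 3 := pow_le_pow_right₀ hN' (by norm_num)
    have h3 : (N : ℝ) ^ 2 * EE κ z ^ 2 ≤ N ^ 3 * EE κ z ^ 2 :=
      mul_le_mul_of_nonneg_right h2 (sq_nonneg _)
    nlinarith

theorem bd_psi {N : ℕ} (hN : 1 ≤ N) {κ : Fin n → Polynomial ℂ} {z : ℂ}
    (hκ : ∀ j, ‖(κ j).eval z‖ ≤ 1) (j : Option (Fin n)) :
    Bd (psi N κ j) z N (N ^ 2 * EE κ z) (2 * N ^ 2 * EE κ z) (2 * N ^ 3 * EE κ z ^ 2) := by
  cases j with
  | some j => exact bd_psi_some hN hκ j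
  | none =>
    have hE := EE_nonneg κ z
    have hN' : (1 : ℝ) ≤ N := by exact_mod_cast hN
    have h2 : (N : ℝ) ≤ N ^ 2 := by nlinarith
    have h3 : (N : ℝ) ^ 2 ≤ N ^ 3 := pow_le_pow_right₀ hN' (by norm_num)
    have h4 : (N : ℝ) * EE κ z ≤ N ^ 2 * EE κ z := mul_le_mul_of_nonneg_right h2 hE
    have h5 : (N : ℝ) ^ 2 * EE κ z ^ 2 ≤ N ^ 3 * EE κ z ^ 2 :=
      mul_le_mul_of_nonneg_right h3 (sq_nonneg _)
    have h6 : 0 ≤ (N : ℝ) ^ 2 * EE κ z := by positivity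
    have h7 : 0 ≤ (N : ℝ) ^ 3 * EE κ z ^ 2 := by positivity
    refine (bd_pow hκ N).mono hN' h4 ?_ ?_
    · linarith
    · linarith

theorem EE_le_HH (κ : Fin n → Polynomial ℂ) (G : Polynomial ℂ) (z : ℂ) : EE κ z ≤ HH κ G z := by
  unfold EE HH
  linarith [norm_nonneg (G.derivative.eval z)]

theorem HH_eq (κ : Fin n → Polynomial ℂ) (G : Polynomial ℂ) (z : ℂ) :
    HH κ G z = ‖G.derivative.eval z‖ + EE κ z := rfl

theorem evh_mul_le {f g : R2} {z : ℂ} {p q : ℝ} (hf : ‖evh z f‖ ≤ p) (hg : ‖evh z g‖ ≤ q) :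
    ‖evh z (f * g)‖ ≤ p * q := by
  rw [map_mul, norm_mul]
  exact mul_le_mul hf hg (norm_nonneg _) ((norm_nonneg _).trans hf)

theorem evh_add_le {f g : R2} {z : ℂ} {p q : ℝ} (hf : ‖evh z f‖ ≤ p) (hg : ‖evh z g‖ ≤ q) :
    ‖evh z (f + g)‖ ≤ p + q := by
  rw [map_add]
  exact (norm_add_le _ _).trans (add_le_add hf hg)

theorem evh_sub_le {f g : R2} {z : ℂ} {p q : ℝ} (hf : ‖evh z f‖ ≤ p) (hg : ‖evh z g‖ ≤ q) :
    ‖evh z (f - g)‖ ≤ p + q := by
  rw [map_sub]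
  exact (norm_sub_le _ _).trans (add_le_add hf hg)

theorem evh_neg_le {f : R2} {z : ℂ} {p : ℝ} (hf : ‖evh z f‖ ≤ p) :
    ‖evh z (-f)‖ ≤ p := by
  rw [map_neg, norm_neg]
  exact hf

end JwB

/-- pointwise bounds, general indices -/
theorem AA_bound {N : ℕ} (hN : 3 ≤ N) {κ : Fin n → Polynomial ℂ} {G : Polynomial ℂ}
    {z : ℂ} (hκ : ∀ j, ‖(κ j).eval z‖ ≤ 1) (hG : ‖G.eval z‖ ≤ 1) (j k : Option (Fin n)) :
    ‖ev (AA N κ G j k) z‖ ≤ 20 * N ^ 4 * HH κ G z ∧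
      ‖ev (pderiv 0 (AA N κ G j k)) z‖ ≤ 20 * N ^ 4 * HH κ G z ^ 2 := by
  have hN1 : 1 ≤ N := by omega
  have hN' : (1 : ℝ) ≤ N := by exact_mod_cast hN1
  have bj := bd_psi hN1 hκ j
  have bk := bd_psi hN1 hκ k
  have hE := EE_nonneg κ z
  have hG' := norm_nonneg (G.derivative.eval z)
  have hEH := EE_le_HH κ G z
  have hN34 : (N : ℝ) ^ 3 ≤ N ^ 4 := pow_le_pow_right₀ hN' (by norm_num)
  have hN4 : (0 : ℝ) ≤ (N : ℝ) ^ 4 := by positivity
  have hbG : Bd (em G ^ 2) z 1 (2 * ‖G.derivative.eval z‖) 0 0 := by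
    rw [sq]
    refine ((bd_em hG).mul (bd_em hG)).mono ?_ ?_ ?_ ?_
    · simp
    · apply le_of_eq; ring
    · simp
    · simp
  set E := EE κ z with hEdef
  set g' := ‖G.derivative.eval z‖ with hg'
  have hHH : HH κ G z = g' + E := rfl
  have k1 : ‖evh z (psi N κ j * pderiv 1 (psi N κ k) - psi N κ k * pderiv 1 (psi N κ j))‖ ≤
      N * (2 * N ^ 2 * E) + N * (2 * N ^ 2 * E) :=
    evh_sub_le (evh_mul_le bj.h0 bk.h2) (evh_mul_le bk.h0 bj.h2)
  have k2 : ‖evh z (pderiv 0 (psi N κ j * pderiv 1 (psi N κ k) -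
      psi N κ k * pderiv 1 (psi N κ j)))‖ ≤
      ((N ^ 2 * E) * (2 * N ^ 2 * E) + N * (2 * N ^ 3 * E ^ 2)) +
        ((N ^ 2 * E) * (2 * N ^ 2 * E) + N * (2 * N ^ 3 * E ^ 2)) := by
    rw [(pderiv 0).map_sub, pderiv_mul, pderiv_mul]
    exact evh_sub_le (evh_add_le (evh_mul_le bj.h1 bk.h2) (evh_mul_le bj.h0 bk.h3))
      (evh_add_le (evh_mul_le bk.h1 bj.h2) (evh_mul_le bk.h0 bj.h3))
  constructor
  · rw [ev_eq]
    refine (evh_mul_le hbG.h0 k1).trans ?_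
    rw [hHH]
    calc 1 * (N * (2 * N ^ 2 * E) + N * (2 * N ^ 2 * E)) = 4 * N ^ 3 * E := by ring
      _ ≤ 4 * N ^ 4 * E := by gcongr
      _ ≤ 20 * N ^ 4 * (g' + E) := by nlinarith [mul_nonneg hN4 hE, mul_nonneg hN4 hG']
  · rw [ev_eq]
    unfold AA
    rw [pderiv_mul]
    refine (evh_add_le (evh_mul_le hbG.h1 k1) (evh_mul_le hbG.h0 k2)).trans ?_
    rw [hHH]
    calc 2 * g' * (N * (2 * N ^ 2 * E) + N * (2 * N ^ 2 * E)) +
          1 * ((N ^ 2 * E) * (2 * N ^ 2 * E) + N * (2 * N ^ 3 * E ^ 2) +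
            ((N ^ 2 * E) * (2 * N ^ 2 * E) + N * (2 * N ^ 3 * E ^ 2)))
        = 8 * N ^ 3 * (g' * E) + 8 * N ^ 4 * E ^ 2 := by ring
      _ ≤ 8 * N ^ 4 * (g' * E) + 8 * N ^ 4 * E ^ 2 := by
          have : 0 ≤ g' * E := mul_nonneg hG' hE
          gcongr
      _ ≤ 20 * N ^ 4 * (g' + E) ^ 2 := by
          nlinarith [mul_nonneg hN4 (mul_nonneg hG' hE), mul_nonneg hN4 (sq_nonneg g'),
            mul_nonneg hN4 (sq_nonneg E)]

/-- pointwise bounds, one of the indices is `0` -/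
theorem AA_bound0 {N : ℕ} (hN : 3 ≤ N) {κ : Fin n → Polynomial ℂ} {G : Polynomial ℂ}
    {z : ℂ} (hκ : ∀ j, ‖(κ j).eval z‖ ≤ 1) (hG : ‖G.eval z‖ ≤ 1) {ε : ℝ} (hε : 0 ≤ ε)
    (h : ‖G.eval z‖ * (1 - (∑ j, ‖(κ j).eval z‖ ^ 2) / n) ^ (N - 2) ≤ ε) (k : Option (Fin n)) :
    ‖ev (AA N κ G none k) z‖ ≤ ε * (20 * N ^ 4) * HH κ G z ∧
      ‖ev (pderiv 0 (AA N κ G none k)) z‖ ≤ ε * (20 * N ^ 4) * HH κ G z ^ 2 := by
  have hE := EE_nonneg κ z
  have hG' := norm_nonneg (G.derivative.eval z)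
  have hH : 0 ≤ HH κ G z := hE.trans (EE_le_HH κ G z)
  cases k with
  | none =>
    have h0 : AA N κ G none none = 0 := by unfold AA; ring
    rw [h0, map_zero, ev_eq, map_zero, norm_zero]
    constructor <;> positivity
  | some k =>
    obtain ⟨M, rfl⟩ : ∃ M, N = M + 2 := ⟨N - 2, by omega⟩
    rw [Nat.add_sub_cancel] at h
    have hN1 : 1 ≤ M + 2 := by omega
    obtain ⟨t1, t2, t3⟩ := bd_TT hκ
    have bk := bd_psi_some hN1 hκ k
    have hnS := norm_evh_oneSub hκ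
    set t : ℝ := 1 - (∑ j, ‖(κ j).eval z‖ ^ 2) / n with ht
    have ht0 : 0 ≤ t := by rw [ht]; linarith [t_le hκ]
    have ht1 : t ≤ 1 := by rw [ht]; linarith [t_nonneg κ z]
    set S : R2 := 1 - TT κ with hS
    have dS0 : pderiv 0 S = -pderiv 0 (TT κ) := by
      rw [hS, map_sub, pderiv_one, zero_sub]
    have dS1 : pderiv 1 S = -pderiv 1 (TT κ) := by
      rw [hS, map_sub, pderiv_one, zero_sub]
    set Y : R2 := S * pderiv 1 (psi (M + 2) κ (some k)) +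
      C ((M + 2 : ℕ) : ℂ) * (psi (M + 2) κ (some k) * pderiv 1 (TT κ)) with hY
    have hA : AA (M + 2) κ G none (some k) = em G ^ 2 * (S ^ (M + 1) * Y) := by
      unfold AA
      have hp : pderiv 1 (psi (M + 2) κ none) =
          -(C ((M + 2 : ℕ) : ℂ) * (S ^ (M + 1) * pderiv 1 (TT κ))) := by
        change pderiv 1 (S ^ (M + 2)) = _
        rw [pderiv_pow, dS1]
        rw [show (C ((M + 2 : ℕ) : ℂ) : R2) = ((M + 2 : ℕ) : R2) from by
          rw [map_natCast]]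
        have : M + 2 - 1 = M + 1 := rfl
        rw [this]
        ring
      rw [hp, hY]
      change em G ^ 2 * (S ^ (M + 2) * _ - _) = _
      ring
    have hYd : pderiv 0 Y = -(pderiv 0 (TT κ)) * pderiv 1 (psi (M + 2) κ (some k)) +
        S * pderiv 0 (pderiv 1 (psi (M + 2) κ (some k))) +
        C ((M + 2 : ℕ) : ℂ) * (pderiv 0 (psi (M + 2) κ (some k)) * pderiv 1 (TT κ) +
          psi (M + 2) κ (some k) * pderiv 0 (pderiv 1 (TT κ))) := by
      rw [hY, map_add, pderiv_mul, dS0, pderiv_C_mul, pderiv_mul]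
    have hSn : ‖evh z S‖ ≤ 1 := by rw [hnS]; exact ht1
    have hCn : ‖evh z (C ((M + 2 : ℕ) : ℂ))‖ ≤ ((M + 2 : ℕ) : ℝ) := by
      have : evh z (C ((M + 2 : ℕ) : ℂ)) = ((M + 2 : ℕ) : ℂ) := by simp [evh]
      rw [this, Complex.norm_natCast]
    set E := EE κ z with hEdef
    set g' := ‖G.derivative.eval z‖ with hg'
    have hHH : HH κ G z = g' + E := rfl
    set L : ℝ := ((M + 2 : ℕ) : ℝ) with hL
    have hL1 : 1 ≤ L := by rw [hL]; exact_mod_cast hN1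
    have hL2 : 2 ≤ L := by rw [hL]; push_cast; linarith [(Nat.cast_nonneg M : (0 : ℝ) ≤ M)]
    have y0 : ‖evh z Y‖ ≤ 3 * L ^ 2 * E := by
      refine (evh_add_le (evh_mul_le hSn bk.h2)
        (evh_mul_le hCn (evh_mul_le bk.h0 t2))).trans (le_of_eq ?_)
      ring
    have y1 : ‖evh z (pderiv 0 Y)‖ ≤ 6 * L ^ 3 * E ^ 2 := by
      rw [hYd]
      refine (evh_add_le (evh_add_le (evh_mul_le (evh_neg_le t1) bk.h2) (evh_mul_le hSn bk.h3))
        (evh_mul_le hCn (evh_add_le (evh_mul_le bk.h1 t2) (evh_mul_le bk.h0 t3)))).trans ?_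
      have : L ^ 2 ≤ L ^ 3 := pow_le_pow_right₀ hL1 (by norm_num)
      have h1 : L ^ 2 * E ^ 2 ≤ L ^ 3 * E ^ 2 := mul_le_mul_of_nonneg_right this (sq_nonneg _)
      calc E * (2 * L ^ 2 * E) + 1 * (2 * L ^ 3 * E ^ 2) +
            L * (L ^ 2 * E * E + L * E ^ 2) = 3 * (L ^ 2 * E ^ 2) + 3 * (L ^ 3 * E ^ 2) := by ring
        _ ≤ 6 * L ^ 3 * E ^ 2 := by linarith
    -- the small factor
    have hsm : ∀ i : ℕ, M ≤ i → ‖G.eval z‖ * ‖evh z (S ^ i)‖ ≤ ε := by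
      intro i hi
      rw [map_pow, norm_pow, hnS]
      refine le_trans ?_ h
      exact mul_le_mul_of_nonneg_left (pow_le_pow_of_le_one ht0 ht1 hi) (norm_nonneg _)
    have hGe : ‖evh z (em G)‖ = ‖G.eval z‖ := by rw [evh_em]
    have hGS : ∀ i : ℕ, M ≤ i → ‖evh z (em G * S ^ i)‖ ≤ ε := by
      intro i hi
      rw [map_mul, norm_mul, hGe]
      exact hsm i hi
    have hG1 : ‖evh z (em G)‖ ≤ 1 := by rw [hGe]; exact hG
    have hL4 : L ^ 3 ≤ L ^ 4 := pow_le_pow_right₀ hL1 (by norm_num)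
    have hL24 : L ^ 2 ≤ L ^ 4 := pow_le_pow_right₀ hL1 (by norm_num)
    have hεL : 0 ≤ ε * L ^ 4 := by positivity
    constructor
    · rw [ev_eq, hA]
      have : em G ^ 2 * (S ^ (M + 1) * Y) = em G * (em G * S ^ (M + 1)) * Y := by ring
      rw [this]
      refine (evh_mul_le (evh_mul_le hG1 (hGS (M + 1) (Nat.le_succ M))) y0).trans ?_
      rw [hHH]
      calc 1 * ε * (3 * L ^ 2 * E) = 3 * ε * L ^ 2 * E := by ring
        _ ≤ 3 * ε * L ^ 4 * E := by gcongr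
        _ ≤ ε * (20 * L ^ 4) * (g' + E) := by
            nlinarith [mul_nonneg hεL hE, mul_nonneg hεL hG']
    · rw [ev_eq, hA]
      have hd : pderiv 0 (em G ^ 2 * (S ^ (M + 1) * Y)) =
          C ((2 : ℕ) : ℂ) * (em G.derivative * (em G * S ^ (M + 1)) * Y) +
          (-(C ((M + 1 : ℕ) : ℂ) * (em G * (em G * S ^ M) * pderiv 0 (TT κ)) * Y) +
            em G * (em G * S ^ (M + 1)) * pderiv 0 Y) := by
        rw [pderiv_mul, pderiv_mul, pderiv_pow, pderiv_pow, dS0, d0_em]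
        rw [show (C ((M + 1 : ℕ) : ℂ) : R2) = ((M + 1 : ℕ) : R2) from by
          rw [map_natCast]]
        rw [show (C ((2 : ℕ) : ℂ) : R2) = ((2 : ℕ) : R2) from by
          rw [map_natCast]]
        have h1 : M + 1 - 1 = M := rfl
        have h2 : 2 - 1 = 1 := rfl
        rw [h1, h2]
        ring
      rw [hd]
      have hC2 : ‖evh z (C ((2 : ℕ) : ℂ))‖ ≤ 2 := by
        have : evh z (C ((2 : ℕ) : ℂ)) = ((2 : ℕ) : ℂ) := by simp [evh]
        rw [this, Complex.norm_natCast]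
        norm_num
      have hCM : ‖evh z (C ((M + 1 : ℕ) : ℂ))‖ ≤ L := by
        have : evh z (C ((M + 1 : ℕ) : ℂ)) = ((M + 1 : ℕ) : ℂ) := by simp [evh]
        rw [this, Complex.norm_natCast, hL]
        push_cast
        linarith
      have hGd : ‖evh z (em G.derivative)‖ ≤ g' := by rw [evh_em]
      refine (evh_add_le (evh_mul_le hC2 (evh_mul_le (evh_mul_le hGd
        (hGS (M + 1) (Nat.le_succ M))) y0))
        (evh_add_le (evh_neg_le (evh_mul_le (evh_mul_le hCM (evh_mul_le (evh_mul_le hG1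
          (hGS M le_rfl)) t1)) y0))
          (evh_mul_le (evh_mul_le hG1 (hGS (M + 1) (Nat.le_succ M))) y1))).trans ?_
      rw [hHH]
      have hgE : 0 ≤ g' * E := mul_nonneg hG' hE
      calc 2 * (g' * ε * (3 * L ^ 2 * E)) + (L * (1 * ε * E) * (3 * L ^ 2 * E) +
            1 * ε * (6 * L ^ 3 * E ^ 2))
          = 6 * ε * L ^ 2 * (g' * E) + 9 * ε * L ^ 3 * E ^ 2 := by ring
        _ ≤ 6 * ε * L ^ 4 * (g' * E) + 9 * ε * L ^ 4 * E ^ 2 := by gcongr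
        _ ≤ ε * (20 * L ^ 4) * (g' + E) ^ 2 := by
            nlinarith [mul_nonneg hεL hgE, mul_nonneg hεL (sq_nonneg g'),
              mul_nonneg hεL (sq_nonneg E)]

/-- bounds for `ψ` -/
theorem psi_bound {N : ℕ} {κ : Fin n → Polynomial ℂ} {z : ℂ} (hκ : ∀ j, ‖(κ j).eval z‖ ≤ 1)
    (j : Fin n) : ‖ev (psi N κ (some j)) z‖ ≤ N := by
  have h1 := ((Bd.const ((1 : ℂ) / n) z).mul (bd_ec (hκ j))).mul (bd_geom hκ N)
  refine h1.h0.trans ?_
  have h2 := norm_inv_n_le (n := n)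
  rw [mul_one]
  calc ‖(1 : ℂ) / n‖ * (N : ℝ) ≤ 1 * N := mul_le_mul_of_nonneg_right h2 (Nat.cast_nonneg _)
    _ = N := one_mul _

theorem psi_none (N : ℕ) (κ : Fin n → Polynomial ℂ) (z : ℂ) : ev (psi N κ none) z =
    ((1 - (∑ j, ‖(κ j).eval z‖ ^ 2) / n : ℝ) : ℂ) ^ N := by
  change evh z ((1 - TT κ) ^ N) = _
  rw [map_pow, evh_oneSub]

end

end Pool.Agent.Helper65.HP
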