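import Pool.Agent.Helper65.HP.JwB
import Pool.Agent.Helper59.DG.Est

/-! Module JWC: the main estimate for polynomials. -/

set_option autoImplicit false

namespace Pool.Agent.Helper65.HP

open MeasureTheory Metric Filter Topology Pool.Agent.Helper59.DGA MvPolynomial

noncomputable section

variable {n : ℕ}

namespace JwC

theorem avg_continuous {E : Type} [NormedAddCommGroup E] [NormedSpace ℝ E] {ψ : ℂ → E}
    (hψ : Continuous ψ) : Continuous fun R : ℝ => Real.circleAverage ψ 0 R := by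
  unfold Real.circleAverage
  apply Continuous.const_smul
  apply intervalIntegral.continuous_parametric_intervalIntegral_of_continuous'
  have : (Function.uncurry fun (R : ℝ) (θ : ℝ) => ψ (circleMap 0 R θ)) =
      fun p : ℝ × ℝ => ψ (circleMap 0 p.1 p.2) := rfl
  rw [this]
  apply hψ.comp
  unfold circleMap
  fun_prop

theorem LL_scale {ψ : ℂ → ℂ} {r : ℝ} (hr : 0 < r) :
    LL r ψ = (r * r) • ∫ s in (0 : ℝ)..1, (4 * s * Real.log (1 / s)) •
      Real.circleAverage ψ 0 (r * s) := by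
  unfold LL
  have h := intervalIntegral.integral_comp_mul_left (a := 0) (b := 1)
    (fun s : ℝ => (4 * s * Real.log (r / s)) • Real.circleAverage ψ 0 s) hr.ne'
  rw [mul_zero, mul_one] at h
  have h2 : ∫ s in (0 : ℝ)..r, (4 * s * Real.log (r / s)) • Real.circleAverage ψ 0 s =
      r • ∫ x in (0 : ℝ)..1, (4 * (r * x) * Real.log (r / (r * x))) •
        Real.circleAverage ψ 0 (r * x) := by
    rw [h, smul_smul, mul_inv_cancel₀ hr.ne', one_smul]
  rw [h2, mul_smul]
  congr 1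
  rw [← intervalIntegral.integral_smul]
  apply intervalIntegral.integral_congr
  intro s _
  simp only
  rw [smul_smul]
  congr 1
  rcases eq_or_ne s 0 with h0 | h0
  · simp [h0]
  · rw [show r / (r * s) = 1 / s by field_simp]
    ring

theorem LL_tendsto {ψ : ℂ → ℂ} (hψ : Continuous ψ) :
    Tendsto (fun r : ℝ => LL r ψ) (𝓝[<] 1) (𝓝 (LL 1 ψ)) := by
  have hc : Continuous fun r : ℝ => (r * r) • ∫ s in (0 : ℝ)..1, (4 * s * Real.log (1 / s)) •
      Real.circleAverage ψ 0 (r * s) := by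
    have h0 : Continuous fun r : ℝ => ∫ s in (0 : ℝ)..1, (4 * s * Real.log (1 / s)) •
        Real.circleAverage ψ 0 (r * s) := by
      apply intervalIntegral.continuous_parametric_intervalIntegral_of_continuous'
      have h1 := avg_continuous hψ
      have h2 := LPaux.weight_cont (r := 1) one_pos
      exact (h2.comp continuous_snd).smul (h1.comp (continuous_fst.mul continuous_snd))
    exact (continuous_id.mul continuous_id).smul h0
  have h1 : LL 1 ψ = ((1 : ℝ) * 1) • ∫ s in (0 : ℝ)..1, (4 * s * Real.log (1 / s)) •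
      Real.circleAverage ψ 0 (1 * s) := LL_scale one_pos
  rw [h1]
  refine ((hc.tendsto 1).mono_left nhdsWithin_le_nhds).congr' ?_
  have : ∀ᶠ r : ℝ in 𝓝[<] 1, 0 < r :=
    (eventually_gt_nhds (by norm_num : (0 : ℝ) < 1)).filter_mono nhdsWithin_le_nhds
  filter_upwards [this] with r hr
  exact (LL_scale hr).symm

theorem LL_sum {ι : Type} {r : ℝ} (hr : 0 < r) (s : Finset ι) (ψ : ι → ℂ → ℝ)
    (h : ∀ i ∈ s, ContinuousOn (ψ i) (closedBall 0 r)) :
    LL r (fun z => ∑ i ∈ s, ψ i z) = ∑ i ∈ s, LL r (ψ i) := by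
  classical
  induction s using Finset.induction_on with
  | empty =>
    simp only [Finset.sum_empty]
    unfold LL
    simp [Real.circleAverage]
  | insert i s hi ih =>
    rw [Finset.sum_insert hi, ← ih fun k hk => h k (Finset.mem_insert_of_mem hk)]
    have h1 : (fun z => ∑ k ∈ insert i s, ψ k z) = fun z => ψ i z + ∑ k ∈ s, ψ k z := by
      funext z
      rw [Finset.sum_insert hi]
    rw [h1]
    exact LL_add hr (h i (Finset.mem_insert_self i s))
      (continuousOn_finsetSum _ fun k hk => h k (Finset.mem_insert_of_mem hk))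

theorem ev_cont (Φ : R2) : Continuous (ev Φ) := by
  unfold ev
  induction Φ using MvPolynomial.induction_on with
  | C a => simpa using continuous_const
  | add p q hp hq =>
    simp only [map_add]
    exact hp.add hq
  | mul_X p i hp =>
    simp only [map_mul, eval_X]
    apply hp.mul
    fin_cases i
    · exact continuous_id
    · exact Complex.continuous_conj

theorem poly_an (p : Polynomial ℂ) : AnalyticOnNhd ℂ (fun z => p.eval z) (ball 0 1) :=
  (p.differentiable.differentiableOn).analyticOnNhd isOpen_ball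

theorem poly_deriv (p : Polynomial ℂ) (z : ℂ) :
    deriv (fun z => p.eval z) z = p.derivative.eval z := p.deriv

theorem HH_sq (κ : Fin n → Polynomial ℂ) (G : Polynomial ℂ) (z : ℂ) :
    HH κ G z ^ 2 ≤ (n + 1) * (‖G.derivative.eval z‖ ^ 2 + ∑ j, ‖(κ j).derivative.eval z‖ ^ 2) := by
  have h2 := Finset.sum_mul_sq_le_sq_mul_sq (Finset.univ : Finset (Option (Fin n)))
    (fun _ => (1 : ℝ)) (fun k => match k with
      | none => ‖G.derivative.eval z‖
      | some j => ‖(κ j).derivative.eval z‖)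
  simp only [Fintype.sum_option, one_mul, one_pow, Finset.sum_const, Finset.card_univ,
    Fintype.card_option, Fintype.card_fin, nsmul_eq_mul, mul_one] at h2
  unfold HH
  push_cast at h2
  linarith

/-- the bound for the quadratic terms -/
theorem quad_bound {κ : Fin n → Polynomial ℂ} {G : Polynomial ℂ}
    (hκ : ∀ j, ∀ z ∈ closedBall (0 : ℂ) 1, ‖(κ j).eval z‖ ≤ 1)
    (hG : ∀ z ∈ closedBall (0 : ℂ) 1, ‖G.eval z‖ ≤ 1) {f : ℂ → ℂ}
    (hf : AnalyticOnNhd ℂ f (ball 0 1)) {r : ℝ} (hr : 0 < r) (hr1 : r < 1) :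
    LL r (fun z => ‖G.derivative.eval z * f z‖ ^ 2 + ∑ j, ‖(κ j).derivative.eval z * f z‖ ^ 2) ≤
      (n + 1) * (4 * Real.circleAverage (fun z => ‖f z‖ ^ 2) 0 r) := by
  have key : ∀ p : Polynomial ℂ, (∀ z ∈ closedBall (0 : ℂ) 1, ‖p.eval z‖ ≤ 1) →
      LL r (fun z => ‖p.derivative.eval z * f z‖ ^ 2) ≤
        4 * Real.circleAverage (fun z => ‖f z‖ ^ 2) 0 r := by
    intro p hp
    have h := EstAux.lp_prod (poly_an p) hf (fun z hz => hp z (ball_subset_closedBall hz)) hr hr1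
    simpa only [poly_deriv] using h
  have cc : ∀ p : Polynomial ℂ, ContinuousOn (fun z => ‖p.derivative.eval z * f z‖ ^ 2)
      (closedBall 0 r) := fun p =>
    ((p.derivative.continuous.continuousOn.mul (EstAux.contOn hf hr1)).norm).pow 2
  have h1 : LL r (fun z => ‖G.derivative.eval z * f z‖ ^ 2 +
      ∑ j, ‖(κ j).derivative.eval z * f z‖ ^ 2) =
      LL r (fun z => ‖G.derivative.eval z * f z‖ ^ 2) +
        ∑ j, LL r (fun z => ‖(κ j).derivative.eval z * f z‖ ^ 2) := by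
    rw [← LL_sum hr Finset.univ (fun j z => ‖(κ j).derivative.eval z * f z‖ ^ 2)
      (fun j _ => cc (κ j))]
    exact LL_add hr (cc G) (continuousOn_finsetSum _ fun j _ => cc (κ j))
  rw [h1]
  calc LL r (fun z => ‖G.derivative.eval z * f z‖ ^ 2) +
        ∑ j, LL r (fun z => ‖(κ j).derivative.eval z * f z‖ ^ 2)
      ≤ 4 * Real.circleAverage (fun z => ‖f z‖ ^ 2) 0 r +
        ∑ _j : Fin n, 4 * Real.circleAverage (fun z => ‖f z‖ ^ 2) 0 r :=
        add_le_add (key G hG) (Finset.sum_le_sum fun j _ => key (κ j) (hκ j))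
    _ = (n + 1) * (4 * Real.circleAverage (fun z => ‖f z‖ ^ 2) 0 r) := by
        rw [Finset.sum_const, Finset.card_univ, Fintype.card_fin, nsmul_eq_mul]
        ring

theorem pt {K H q' q f g f' g' : ℝ} (hK : 0 ≤ K) (hH : 0 ≤ H) (hf : 0 ≤ f) (hg : 0 ≤ g)
    (hq : q = f * g) (hq' : q' ≤ f' * g + f * g') :
    q' * (K * H) + q * (K * H ^ 2) ≤
      K * ((f' ^ 2 + g' ^ 2) / 2 + (H ^ 2 * f ^ 2 + H ^ 2 * g ^ 2)) := by
  subst hq
  have hKH : 0 ≤ K * H := mul_nonneg hK hH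
  have h1 : q' * (K * H) ≤ (f' * g + f * g') * (K * H) := mul_le_mul_of_nonneg_right hq' hKH
  have h2 : 0 ≤ K * (f' - H * g) ^ 2 := mul_nonneg hK (sq_nonneg _)
  have h3 : 0 ≤ K * (g' - H * f) ^ 2 := mul_nonneg hK (sq_nonneg _)
  have h4 : 0 ≤ K * (H * f - H * g) ^ 2 := mul_nonneg hK (sq_nonneg _)
  nlinarith

theorem bound_r {κ : Fin n → Polynomial ℂ} {G : Polynomial ℂ}
    (hκ : ∀ j, ∀ z ∈ closedBall (0 : ℂ) 1, ‖(κ j).eval z‖ ≤ 1)
    (hG : ∀ z ∈ closedBall (0 : ℂ) 1, ‖G.eval z‖ ≤ 1) (A : R2) {K : ℝ} (hK : 0 ≤ K)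
    (h : ∀ z ∈ closedBall (0 : ℂ) 1, ‖ev A z‖ ≤ K * HH κ G z ∧
      ‖ev (pderiv 0 A) z‖ ≤ K * HH κ G z ^ 2) (q : Polynomial ℂ) {f g : ℂ → ℂ}
    (hf : AnalyticOnNhd ℂ f (ball 0 1)) (hg : AnalyticOnNhd ℂ g (ball 0 1))
    (hq : ∀ z ∈ closedBall (0 : ℂ) 1, q.eval z = f z * g z) {r : ℝ} (hr : 0 < r) (hr1 : r < 1) :
    ‖LL r (fun z => q.derivative.eval z * ev A z + q.eval z * ev (pderiv 0 A) z)‖ ≤
      5 * (n + 1) ^ 2 * K * (Real.circleAverage (fun z => ‖f z‖ ^ 2) 0 r +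
        Real.circleAverage (fun z => ‖g z‖ ^ 2) 0 r) := by
  have hsub : closedBall (0 : ℂ) r ⊆ ball 0 1 := closedBall_subset_ball hr1
  have cψ : Continuous fun z => q.derivative.eval z * ev A z + q.eval z * ev (pderiv 0 A) z :=
    (q.derivative.continuous.mul (ev_cont A)).add (q.continuous.mul (ev_cont _))
  refine (LL_norm_le hr cψ.continuousOn).trans ?_
  -- the majorant
  set F1 : ℂ → ℝ := fun z => ‖deriv f z‖ ^ 2 with hF1
  set F2 : ℂ → ℝ := fun z => ‖deriv g z‖ ^ 2 with hF2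
  set F3 : ℂ → ℝ := fun z => ‖G.derivative.eval z * f z‖ ^ 2 +
    ∑ j, ‖(κ j).derivative.eval z * f z‖ ^ 2 with hF3
  set F4 : ℂ → ℝ := fun z => ‖G.derivative.eval z * g z‖ ^ 2 +
    ∑ j, ‖(κ j).derivative.eval z * g z‖ ^ 2 with hF4
  have c1 : ContinuousOn F1 (closedBall 0 r) := ((EstAux.contOn hf.deriv hr1).norm).pow 2
  have c2 : ContinuousOn F2 (closedBall 0 r) := ((EstAux.contOn hg.deriv hr1).norm).pow 2
  have cc : ∀ {f : ℂ → ℂ}, AnalyticOnNhd ℂ f (ball 0 1) → ∀ p : Polynomial ℂ,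
      ContinuousOn (fun z => ‖p.derivative.eval z * f z‖ ^ 2) (closedBall 0 r) := fun hf p =>
    ((p.derivative.continuous.continuousOn.mul (EstAux.contOn hf hr1)).norm).pow 2
  have c3 : ContinuousOn F3 (closedBall 0 r) :=
    (cc hf G).add (continuousOn_finsetSum _ fun j _ => cc hf (κ j))
  have c4 : ContinuousOn F4 (closedBall 0 r) :=
    (cc hg G).add (continuousOn_finsetSum _ fun j _ => cc hg (κ j))
  have hmaj : ∀ z ∈ closedBall (0 : ℂ) r,
      ‖q.derivative.eval z * ev A z + q.eval z * ev (pderiv 0 A) z‖ ≤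
      (K * (1 / 2)) * (F1 z + F2 z) + (K * (n + 1)) * (F3 z + F4 z) := by
    intro z hz
    have hz1 : z ∈ ball (0 : ℂ) 1 := hsub hz
    have hz2 : z ∈ closedBall (0 : ℂ) 1 := ball_subset_closedBall hz1
    have hH : 0 ≤ HH κ G z := by unfold HH; positivity
    have hd : q.derivative.eval z = deriv f z * g z + f z * deriv g z := by
      rw [← poly_deriv]
      have : (fun z => q.eval z) =ᶠ[𝓝 z] fun z => f z * g z := by
        filter_upwards [isOpen_ball.mem_nhds hz1] with w hw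
        exact hq w (ball_subset_closedBall hw)
      rw [this.deriv_eq]
      exact deriv_fun_mul (hf z hz1).differentiableAt (hg z hz1).differentiableAt
    have h1 : ‖q.derivative.eval z‖ ≤ ‖deriv f z‖ * ‖g z‖ + ‖f z‖ * ‖deriv g z‖ := by
      rw [hd]
      refine (norm_add_le _ _).trans ?_
      rw [norm_mul, norm_mul]
    have h2 : ‖q.eval z‖ = ‖f z‖ * ‖g z‖ := by rw [hq z hz2, norm_mul]
    have h3 := pt hK hH (norm_nonneg (f z)) (norm_nonneg (g z)) h2 h1
    have h4 : ‖q.derivative.eval z * ev A z + q.eval z * ev (pderiv 0 A) z‖ ≤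
        ‖q.derivative.eval z‖ * (K * HH κ G z) + ‖q.eval z‖ * (K * HH κ G z ^ 2) := by
      refine (norm_add_le _ _).trans ?_
      rw [norm_mul, norm_mul]
      exact add_le_add (mul_le_mul_of_nonneg_left (h z hz2).1 (norm_nonneg _))
        (mul_le_mul_of_nonneg_left (h z hz2).2 (norm_nonneg _))
    have h5 := HH_sq κ G z
    have h6 : ∀ w : ℂ, HH κ G z ^ 2 * ‖w‖ ^ 2 ≤ (n + 1) * (‖G.derivative.eval z * w‖ ^ 2 +
        ∑ j, ‖(κ j).derivative.eval z * w‖ ^ 2) := by
      intro w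
      have : ∑ j, ‖(κ j).derivative.eval z * w‖ ^ 2 =
          (∑ j, ‖(κ j).derivative.eval z‖ ^ 2) * ‖w‖ ^ 2 := by
        rw [Finset.sum_mul]
        exact Finset.sum_congr rfl fun j _ => by rw [norm_mul, mul_pow]
      rw [this, norm_mul, mul_pow]
      calc HH κ G z ^ 2 * ‖w‖ ^ 2 ≤ ((n + 1) * (‖G.derivative.eval z‖ ^ 2 +
            ∑ j, ‖(κ j).derivative.eval z‖ ^ 2)) * ‖w‖ ^ 2 :=
            mul_le_mul_of_nonneg_right h5 (sq_nonneg _)
        _ = _ := by ring
    have h7 := h6 (f z)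
    have h8 := h6 (g z)
    refine h4.trans (h3.trans ?_)
    have h9 : HH κ G z ^ 2 * ‖f z‖ ^ 2 + HH κ G z ^ 2 * ‖g z‖ ^ 2 ≤
        (n + 1) * (F3 z + F4 z) := by
      simp only [hF3, hF4]
      linarith
    calc K * ((‖deriv f z‖ ^ 2 + ‖deriv g z‖ ^ 2) / 2 +
          (HH κ G z ^ 2 * ‖f z‖ ^ 2 + HH κ G z ^ 2 * ‖g z‖ ^ 2))
        ≤ K * ((‖deriv f z‖ ^ 2 + ‖deriv g z‖ ^ 2) / 2 + (n + 1) * (F3 z + F4 z)) := by
          apply mul_le_mul_of_nonneg_left _ hK
          linarith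
      _ = (K * (1 / 2)) * (F1 z + F2 z) + (K * (n + 1)) * (F3 z + F4 z) := by
          simp only [hF1, hF2]
          ring
  have c12 : ContinuousOn (fun z => F1 z + F2 z) (closedBall 0 r) := c1.add c2
  have c34 : ContinuousOn (fun z => F3 z + F4 z) (closedBall 0 r) := c3.add c4
  refine (LL_mono hr cψ.continuousOn.norm ((c12.const_mul (K * (1 / 2))).add
    (c34.const_mul (K * (n + 1)))) hmaj).trans ?_
  have e1 : LL r (fun z => (K * (1 / 2)) * (F1 z + F2 z) + (K * (n + 1)) * (F3 z + F4 z)) =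
      (K * (1 / 2)) * (LL r F1 + LL r F2) + (K * (n + 1)) * (LL r F3 + LL r F4) := by
    rw [LL_add hr (c12.const_mul (K * (1 / 2))) (c34.const_mul (K * (n + 1)))]
    rw [LL_const_mul, LL_const_mul, LL_add hr c1 c2, LL_add hr c3 c4]
  have e2 : LL r (fun z => (K * (1 / 2)) * (F1 z + F2 z) + (K * (n + 1)) * (F3 z + F4 z)) ≤
      5 * (n + 1) ^ 2 * K * (Real.circleAverage (fun z => ‖f z‖ ^ 2) 0 r +
        Real.circleAverage (fun z => ‖g z‖ ^ 2) 0 r) := by
    rw [e1]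
    have l1 := lp_sq hf hr hr1
    have l2 := lp_sq hg hr hr1
    have l3 := quad_bound hκ hG hf hr hr1
    have l4 := quad_bound hκ hG hg hr hr1
    have p1 : 0 ≤ Real.circleAverage (fun z => ‖f z‖ ^ 2) 0 r :=
      Real.circleAverage_nonneg_of_nonneg fun z _ => by positivity
    have p2 : 0 ≤ Real.circleAverage (fun z => ‖g z‖ ^ 2) 0 r :=
      Real.circleAverage_nonneg_of_nonneg fun z _ => by positivity
    set a := Real.circleAverage (fun z => ‖f z‖ ^ 2) 0 r
    set b := Real.circleAverage (fun z => ‖g z‖ ^ 2) 0 r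
    have hn0 : (0 : ℝ) ≤ n := Nat.cast_nonneg n
    have hKn : 0 ≤ K * ((n : ℝ) + 1) := by positivity
    calc K * (1 / 2) * (LL r F1 + LL r F2) + K * (n + 1) * (LL r F3 + LL r F4)
        ≤ K * (1 / 2) * (a + b) + K * (n + 1) * ((n + 1) * (4 * a) + (n + 1) * (4 * b)) := by
          apply add_le_add
          · exact mul_le_mul_of_nonneg_left (add_le_add l1 l2) (by positivity)
          · exact mul_le_mul_of_nonneg_left (add_le_add l3 l4) hKn
      _ = K * (a + b) * (1 / 2 + 4 * (n + 1) ^ 2) := by ring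
      _ ≤ K * (a + b) * (5 * (n + 1) ^ 2) := by
          apply mul_le_mul_of_nonneg_left _ (mul_nonneg hK (add_nonneg p1 p2))
          nlinarith
      _ = 5 * (n + 1) ^ 2 * K * (a + b) := by ring
  exact e2

end JwC

open JwC

/-- the functional `q ↦ LL (∂ (A q))` is bounded for the `L^1` norm -/
theorem functional_bound {κ : Fin n → Polynomial ℂ} {G : Polynomial ℂ}
    (hκ : ∀ j, ∀ z ∈ closedBall (0 : ℂ) 1, ‖(κ j).eval z‖ ≤ 1)
    (hG : ∀ z ∈ closedBall (0 : ℂ) 1, ‖G.eval z‖ ≤ 1) (A : R2) {K : ℝ} (hK : 0 ≤ K)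
    (h : ∀ z ∈ closedBall (0 : ℂ) 1, ‖ev A z‖ ≤ K * HH κ G z ∧
      ‖ev (pderiv 0 A) z‖ ≤ K * HH κ G z ^ 2) (q : Polynomial ℂ) :
    ‖LL 1 (fun z => q.derivative.eval z * ev A z + q.eval z * ev (pderiv 0 A) z)‖ ≤
      10 * (n + 1) ^ 2 * K * ∫ t, ‖q.eval (e t)‖ ∂mC := by
  obtain ⟨f, g, hf, hg, hq, h1, h2⟩ := factor q
  have hfa : AnalyticOnNhd ℂ f (ball 0 1) := hf.differentiableOn.analyticOnNhd isOpen_ball
  have hga : AnalyticOnNhd ℂ g (ball 0 1) := hg.differentiableOn.analyticOnNhd isOpen_ball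
  have cψ : Continuous fun z => q.derivative.eval z * ev A z + q.eval z * ev (pderiv 0 A) z :=
    (q.derivative.continuous.mul (ev_cont A)).add (q.continuous.mul (ev_cont _))
  have t1 := (LL_tendsto cψ).norm
  have av : ∀ {f : ℂ → ℂ}, DiffContOnCl ℂ f (ball 0 1) →
      (∀ t, ‖f (e t)‖ ^ 2 = ‖q.eval (e t)‖) →
      Tendsto (fun r : ℝ => Real.circleAverage (fun z => ‖f z‖ ^ 2) 0 r) (𝓝[<] 1)
        (𝓝 (∫ t, ‖q.eval (e t)‖ ∂mC)) := by
    intro f hf hf2
    have hc : ContinuousOn (fun z => ‖f z‖ ^ 2) (closedBall (0 : ℂ) 1) := by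
      have := hf.continuousOn
      rw [closure_ball (0 : ℂ) one_ne_zero] at this
      exact (this.norm).pow 2
    have hca := LPaux.avg_cont hc
    have h3 : Real.circleAverage (fun z => ‖f z‖ ^ 2) 0 1 = ∫ t, ‖q.eval (e t)‖ ∂mC := by
      rw [← integral_circleAverage_real]
      refine integral_congr_ae (Eventually.of_forall fun t => ?_)
      simp only [Complex.ofReal_one, one_mul]
      exact hf2 t
    rw [← h3]
    have h4 := hca 1 ⟨zero_le_one, le_rfl⟩
    refine h4.tendsto.mono_left ?_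
    rw [nhdsWithin_le_iff]
    have : Set.Ioo (0 : ℝ) 2 ∈ 𝓝 (1 : ℝ) := Ioo_mem_nhds (by norm_num) (by norm_num)
    filter_upwards [mem_nhdsWithin_of_mem_nhds this, self_mem_nhdsWithin] with r hr1 hr2
    exact ⟨hr1.1.le, le_of_lt hr2⟩
  have t2 := ((av hf h1).add (av hg h2)).const_mul (5 * ((n : ℝ) + 1) ^ 2 * K)
  have h5 : ∀ᶠ r : ℝ in 𝓝[<] 1, ‖LL r (fun z => q.derivative.eval z * ev A z +
      q.eval z * ev (pderiv 0 A) z)‖ ≤
      5 * (n + 1) ^ 2 * K * (Real.circleAverage (fun z => ‖f z‖ ^ 2) 0 r +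
        Real.circleAverage (fun z => ‖g z‖ ^ 2) 0 r) := by
    have : ∀ᶠ r : ℝ in 𝓝[<] 1, 0 < r :=
      (eventually_gt_nhds (by norm_num : (0 : ℝ) < 1)).filter_mono nhdsWithin_le_nhds
    filter_upwards [this, self_mem_nhdsWithin] with r hr hr1
    exact bound_r hκ hG A hK h q hfa hga hq hr hr1
  refine (le_of_tendsto_of_tendsto t1 t2 h5).trans (le_of_eq ?_)
  ring

end

end Pool.Agent.Helper65.HP
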