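import Pool.Agent.Helper65.HP.JwC
import Pool.Agent.Helper59.DG.Hin
import Pool.Agent.Helper59.DG.Ker

/-! Module JWD: division for polynomials. -/

set_option autoImplicit false

namespace Pool.Agent.Helper65.HP

open MeasureTheory Metric Filter Topology Pool.Agent.Helper59.DGA MvPolynomial

noncomputable section

namespace JwDAux

theorem ev_add (A B : R2) (z : ℂ) : ev (A + B) z = ev A z + ev B z := by simp [ev]
theorem ev_mul (A B : R2) (z : ℂ) : ev (A * B) z = ev A z * ev B z := by simp [ev]
theorem ev_neg (A : R2) (z : ℂ) : ev (-A) z = -ev A z := by simp [ev]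
theorem ev_pow (A : R2) (k : ℕ) (z : ℂ) : ev (A ^ k) z = ev A z ^ k := by simp [ev]
theorem ev_one (z : ℂ) : ev 1 z = 1 := by simp [ev]
theorem ev_sum {ι : Type} (s : Finset ι) (A : ι → R2) (z : ℂ) :
    ev (∑ i ∈ s, A i) z = ∑ i ∈ s, ev (A i) z := by simp [ev, map_sum]

theorem continuous_ev (A : R2) : Continuous (ev A) := by
  unfold ev
  have h1 : Continuous fun z : ℂ => (![z, starRingEnd ℂ z] : Fin 2 → ℂ) := by
    apply continuous_pi
    intro i
    fin_cases i
    · exact continuous_id
    · exact Complex.continuous_conj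
  exact (MvPolynomial.continuous_eval A).comp h1

theorem ev_monomial (s : Fin 2 →₀ ℕ) (a z : ℂ) :
    ev (monomial s a) z = a * (z ^ s 0 * (starRingEnd ℂ z) ^ s 1) := by
  simp [ev, MvPolynomial.eval_monomial, Finsupp.prod_fintype, Fin.prod_univ_two]

theorem pderiv_em (p : Polynomial ℂ) : pderiv 0 (em p) = em (Polynomial.derivative p) := by
  unfold em
  rw [Derivation.map_aeval]
  simp

theorem pderiv1_em (p : Polynomial ℂ) : pderiv 1 (em p) = 0 := by
  unfold em
  rw [Derivation.map_aeval]
  simp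

theorem em_mul (p q : Polynomial ℂ) : em (p * q) = em p * em q := by simp [em]

theorem em_one : em 1 = 1 := by simp [em]

theorem LL_smul {r : ℝ} (c : ℂ) (ψ : ℂ → ℂ) :
    LL r (fun z => c * ψ z) = c * LL r ψ := by
  unfold LL
  rw [← intervalIntegral.integral_const_mul]
  apply intervalIntegral.integral_congr
  intro s _
  have : Real.circleAverage (fun z => c * ψ z) 0 s = c * Real.circleAverage ψ 0 s := by
    have := Real.circleAverage_fun_smul (c := (0 : ℂ)) (R := s) (a := c) (f := ψ)
    simpa [smul_eq_mul] using this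
  simp only [this, Complex.real_smul]
  ring

theorem LL_sum {ι : Type} (s : Finset ι) (ψ : ι → ℂ → ℂ) (h : ∀ i ∈ s, Continuous (ψ i)) :
    LL 1 (fun z => ∑ i ∈ s, ψ i z) = ∑ i ∈ s, LL 1 (ψ i) := by
  classical
  induction s using Finset.induction_on with
  | empty =>
    simp only [Finset.sum_empty]
    have := LL_smul (r := 1) 0 (fun _ => (0 : ℂ))
    simpa using this
  | insert a s ha ih =>
    simp_rw [Finset.sum_insert ha]
    rw [LL_add_complex one_pos (h a (Finset.mem_insert_self a s)).continuousOn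
      (continuous_finsetSum s (fun i hi => h i (Finset.mem_insert_of_mem hi))).continuousOn,
      ih (fun i hi => h i (Finset.mem_insert_of_mem hi))]

theorem avg_add {F G : ℂ → ℂ} (hF : Continuous F) (hG : Continuous G) (s : ℝ) (hs : 0 ≤ s):
    Real.circleAverage (fun z => F z + G z) 0 s =
      Real.circleAverage F 0 s + Real.circleAverage G 0 s :=
  Real.circleAverage_fun_add (hF.continuousOn.circleIntegrable hs)
    (hG.continuousOn.circleIntegrable hs)

theorem avg_smul (c : ℂ) (ψ : ℂ → ℂ) (s : ℝ) :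
    Real.circleAverage (fun z => c * ψ z) 0 s = c * Real.circleAverage ψ 0 s := by
  have := Real.circleAverage_fun_smul (c := (0 : ℂ)) (R := s) (a := c) (f := ψ)
  simpa [smul_eq_mul] using this

theorem avg_mono2 (s : ℝ) (m n : ℕ) :
    Real.circleAverage (fun z : ℂ => z ^ m * (starRingEnd ℂ z) ^ n) 0 s =
      if m = n then ((s : ℂ)) ^ (2 * n) else 0 := by
  have h := LPaux.avg_monomial s n m
  have h1 : (fun z : ℂ => (starRingEnd ℂ z) ^ n * z ^ m) =
      fun z : ℂ => z ^ m * (starRingEnd ℂ z) ^ n := by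
    funext z; ring
  rw [h1] at h
  rw [h]
  by_cases hmn : m = n
  · subst hmn; simp
  · rw [if_neg hmn, if_neg (Ne.symm hmn)]

theorem LL_mono2 (m n : ℕ) :
    LL 1 (fun z : ℂ => z ^ m * (starRingEnd ℂ z) ^ n) =
      if m = n then 1 / ((n : ℂ) + 1) ^ 2 else 0 := by
  unfold LL
  simp_rw [avg_mono2]
  by_cases hmn : m = n
  · subst hmn
    simp only [if_true]
    have h := LPaux.int_weight (r := 1) one_pos m
    have h2 : ∀ s : ℝ, (4 * s * Real.log (1 / s)) • ((s : ℂ)) ^ (2 * m) =
        (((4 * s * Real.log (1 / s)) * s ^ (2 * m) : ℝ) : ℂ) := by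
      intro s
      rw [Complex.real_smul]
      push_cast
      ring
    simp_rw [h2]
    rw [intervalIntegral.integral_ofReal, h]
    push_cast
    simp
  · simp [hmn]

/-- Green's formula on the unit circle for polynomials in `z, conj z` -/
theorem green1 (F : R2) : Real.circleAverage (ev F) 0 1 =
    ev F 0 + LL 1 (ev (pderiv 0 (pderiv 1 F))) := by
  induction F using MvPolynomial.induction_on' with
  | monomial u a =>
    have h1 : ev (monomial u a) = fun z => a * (z ^ u 0 * (starRingEnd ℂ z) ^ u 1) := by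
      funext z; exact ev_monomial u a z
    have h2 : ev (pderiv 0 (pderiv 1 (monomial u a))) =
        fun z => (a * u 1 * u 0) * (z ^ (u 0 - 1) * (starRingEnd ℂ z) ^ (u 1 - 1)) := by
      funext z
      rw [pderiv_monomial, pderiv_monomial, ev_monomial]
      simp
    rw [h2, LL_smul, LL_mono2, h1, avg_smul, avg_mono2]
    rcases Nat.eq_zero_or_pos (u 0) with h0 | h0
    · rcases Nat.eq_zero_or_pos (u 1) with h3 | h3
      · simp [h0, h3]
      · simp [h0, h3.ne, h3.ne']
    · rcases Nat.eq_zero_or_pos (u 1) with h3 | h3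
      · simp [h3, h0.ne']
      · by_cases h4 : u 0 = u 1
        · rw [h4]
          obtain ⟨k, hk⟩ : ∃ k, u 1 = k + 1 := ⟨u 1 - 1, by omega⟩
          rw [hk]
          have : ((k : ℂ) + 1) ≠ 0 := Nat.cast_add_one_ne_zero k
          simp
          field_simp
        · have h5 : u 0 - 1 ≠ u 1 - 1 := by omega
          simp [h4, h5, h0.ne']
  | add p q hp hq =>
    have h1 : ev (p + q) = fun z => ev p z + ev q z := by funext z; exact ev_add p q z
    have h2 : ev (pderiv 0 (pderiv 1 (p + q))) = fun z => ev (pderiv 0 (pderiv 1 p)) z +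
        ev (pderiv 0 (pderiv 1 q)) z := by
      funext z; rw [map_add, map_add]; exact ev_add _ _ z
    rw [h2, LL_add_complex one_pos (continuous_ev _).continuousOn (continuous_ev _).continuousOn,
      h1, avg_add (continuous_ev p) (continuous_ev q) 1 zero_le_one, hp, hq]
    ring


variable {n : ℕ}

/-- the functions `κ_0 = 1, κ_1, ..., κ_n` as polynomials -/
def kapP (κ : Fin n → Polynomial ℂ) : Option (Fin n) → Polynomial ℂ
  | none => 1
  | some j => κ j

theorem kap_eq (κ : Fin n → Polynomial ℂ) (k : Option (Fin n)) : kap κ k = em (kapP κ k) := by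
  cases k with
  | none => exact em_one.symm
  | some j => rfl

theorem kapP_le {κ : Fin n → Polynomial ℂ} {z : ℂ} (h : ∀ j, ‖(κ j).eval z‖ ≤ 1)
    (k : Option (Fin n)) : ‖(kapP κ k).eval z‖ ≤ 1 := by
  cases k with
  | none => simp [kapP]
  | some j => exact h j

/-- the functional attached to a Koszul form -/
def Lam (A : R2) : Polynomial ℂ →ₗ[ℂ] ℂ where
  toFun q := LL 1 (fun z => q.derivative.eval z * ev A z + q.eval z * ev (pderiv 0 A) z)
  map_add' p q := by
    have h : (fun z => (p + q).derivative.eval z * ev A z + (p + q).eval z * ev (pderiv 0 A) z) =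
        fun z => (p.derivative.eval z * ev A z + p.eval z * ev (pderiv 0 A) z) +
          (q.derivative.eval z * ev A z + q.eval z * ev (pderiv 0 A) z) := by
      funext z
      simp only [Polynomial.derivative_add, Polynomial.eval_add]
      ring
    have hc : ∀ p : Polynomial ℂ, Continuous
        fun z => p.derivative.eval z * ev A z + p.eval z * ev (pderiv 0 A) z := fun p =>
      (p.derivative.continuous.mul (continuous_ev A)).add (p.continuous.mul (continuous_ev _))
    rw [h, LL_add_complex one_pos (hc p).continuousOn (hc q).continuousOn]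
  map_smul' c p := by
    have h : (fun z => (c • p).derivative.eval z * ev A z + (c • p).eval z * ev (pderiv 0 A) z) =
        fun z => c * (p.derivative.eval z * ev A z + p.eval z * ev (pderiv 0 A) z) := by
      funext z
      simp only [Polynomial.derivative_smul, Polynomial.eval_smul, smul_eq_mul]
      ring
    rw [h, LL_smul]
    rfl

theorem Lam_apply (A : R2) (q : Polynomial ℂ) : Lam A q =
    LL 1 (fun z => q.derivative.eval z * ev A z + q.eval z * ev (pderiv 0 A) z) := rfl

theorem Lam_neg (A : R2) (q : Polynomial ℂ) : Lam (-A) q = -Lam A q := by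
  rw [Lam_apply, Lam_apply]
  have h : (fun z => q.derivative.eval z * ev (-A) z + q.eval z * ev (pderiv 0 (-A)) z) =
      fun z => (-1) * (q.derivative.eval z * ev A z + q.eval z * ev (pderiv 0 A) z) := by
    funext z
    rw [map_neg, ev_neg, ev_neg]
    ring
  rw [h, LL_smul]
  ring

theorem int_ev (F : R2) : ∫ t, ev F (e t) ∂mC = Real.circleAverage (ev F) 0 1 := by
  rw [← integral_circleAverage]
  simp

/-- the main cancellation -/
theorem cancel (hn : 0 < n) (N : ℕ) (κ : Fin n → Polynomial ℂ) (G : Polynomial ℂ)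
    (j : Option (Fin n)) (q : Polynomial ℂ) (hq : q.eval 0 = 0) :
    (∫ t, ev (em G ^ 2 * psi N κ j) (e t) * q.eval (e t) ∂mC) +
      ∑ k, Lam (AA N κ G j k) (kapP κ k * q) = 0 := by
  have h1 : ∀ t : Cir, ev (em G ^ 2 * psi N κ j) (e t) * q.eval (e t) =
      ev (em q * (em G ^ 2 * psi N κ j)) (e t) := by
    intro t
    rw [ev_mul (em q), ev_em]
    ring
  simp_rw [h1]
  rw [int_ev, green1, ev_mul (em q), ev_em, hq, zero_mul, zero_add]
  simp_rw [Lam_apply]
  rw [← LL_sum]
  · rw [← LL_add_complex one_pos (continuous_ev _).continuousOn]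
    · have h2 : (fun z => ev (pderiv 0 (pderiv 1 (em q * (em G ^ 2 * psi N κ j)))) z +
          ∑ k, ((kapP κ k * q).derivative.eval z * ev (AA N κ G j k) z +
            (kapP κ k * q).eval z * ev (pderiv 0 (AA N κ G j k)) z)) = fun z => (0 : ℂ) * 0 := by
        funext z
        have h3 : ∑ k, ((kapP κ k * q).derivative.eval z * ev (AA N κ G j k) z +
            (kapP κ k * q).eval z * ev (pderiv 0 (AA N κ G j k)) z) =
            ev (pderiv 0 (em q * ∑ k, kap κ k * AA N κ G j k)) z := by
          rw [Finset.mul_sum, map_sum, ev_sum]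
          apply Finset.sum_congr rfl
          intro k _
          rw [kap_eq, ← mul_assoc, ← em_mul, pderiv_mul, pderiv_em, ev_add, ev_mul, ev_mul,
            ev_em, ev_em, mul_comm q]
        have h4 : pderiv 1 (em q * (em G ^ 2 * psi N κ j)) =
            -(em q * ∑ k, kap κ k * AA N κ G j k) := by
          rw [sum_kap_AA hn]
          rw [pderiv_mul, pderiv_mul, Derivation.leibniz_pow, pderiv1_em, pderiv1_em]
          simp
        rw [h3, h4, map_neg, ev_neg]
        ring
      rw [h2, LL_smul]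
      ring
    · apply Continuous.continuousOn
      apply continuous_finsetSum
      intro k _
      exact (Polynomial.continuous _).mul (continuous_ev _) |>.add
        ((Polynomial.continuous _).mul (continuous_ev _))
  · intro k _
    exact (Polynomial.continuous _).mul (continuous_ev _) |>.add
      ((Polynomial.continuous _).mul (continuous_ev _))

theorem continuous_poly_e (p : Polynomial ℂ) : Continuous fun t : Cir => p.eval (e t) :=
  p.continuous.comp NehB.continuous_e

theorem memLp_cont {f : Cir → ℂ} (hf : Continuous f) : MemLp f ⊤ mC := by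
  obtain ⟨C, hC⟩ := (isCompact_range hf).isBounded.exists_norm_le
  exact memLp_top_of_bound hf.aestronglyMeasurable C (Eventually.of_forall fun t => hC _ ⟨t, rfl⟩)

theorem ext_poly (p : Polynomial ℂ) {z : ℂ} (hz : ‖z‖ < 1) :
    ext (fun t => p.eval (e t)) z = p.eval z := by
  induction p using Polynomial.induction_on' with
  | add p q hp hq =>
    have h1 : (fun t : Cir => (p + q).eval (e t)) =
        (fun t => p.eval (e t)) + fun t => q.eval (e t) := by
      funext t; simp
    rw [h1, KerB.ext_add' ((memLp_cont (continuous_poly_e p)).integrable le_top)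
      ((memLp_cont (continuous_poly_e q)).integrable le_top) hz, hp, hq, Polynomial.eval_add]
  | monomial k a =>
    have h1 : (fun t : Cir => (Polynomial.monomial k a).eval (e t)) = a • fun t : Cir => e t ^ k := by
      funext t; simp
    rw [h1, KerB.ext_smul', KerB.ext_pow k hz, Polynomial.eval_monomial]

theorem int_poly (p : Polynomial ℂ) : ∫ t, p.eval (e t) ∂mC = p.eval 0 := by
  have h := ext_poly p (z := 0) (by simp)
  rw [← h]
  unfold Helper59.DGA.ext
  simp [P_zero]

theorem fourier_neg (f : Cir → ℂ) (m : ℤ) (hm : m < 0) : ∃ k : ℕ, fourierCoeff f m =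
    ∫ t, f t * (Polynomial.X ^ (k + 1) : Polynomial ℂ).eval (e t) ∂mC := by
  obtain ⟨k, hk⟩ : ∃ k : ℕ, -m = ((k + 1 : ℕ) : ℤ) := ⟨(-m - 1).toNat, by omega⟩
  refine ⟨k, ?_⟩
  unfold fourierCoeff
  rw [hk]
  refine integral_congr_ae (Eventually.of_forall fun t => ?_)
  simp only
  rw [NehB.fourier_nat, smul_eq_mul, Polynomial.eval_pow, Polynomial.eval_X]
  ring

theorem poly_Hinf (p : Polynomial ℂ) : (fun t => p.eval (e t)) ∈ Hinf := by
  refine ⟨memLp_cont (continuous_poly_e p), fun m hm => ?_⟩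
  obtain ⟨k, hk⟩ := fourier_neg (fun t => p.eval (e t)) m hm
  rw [hk]
  have h1 : ∀ t : Cir, p.eval (e t) * (Polynomial.X ^ (k + 1) : Polynomial ℂ).eval (e t) =
      (p * Polynomial.X ^ (k + 1)).eval (e t) := by
    intro t; simp
  simp_rw [h1]
  rw [int_poly]
  simp

/-- antisymmetric boundary functions representing the functionals -/
theorem exists_W {N : ℕ} (hN : 3 ≤ N) {κ : Fin n → Polynomial ℂ}
    {G : Polynomial ℂ} (hκ : ∀ j, ∀ z ∈ closedBall (0 : ℂ) 1, ‖(κ j).eval z‖ ≤ 1)
    (hG : ∀ z ∈ closedBall (0 : ℂ) 1, ‖G.eval z‖ ≤ 1) {ε : ℝ} (hε : 0 ≤ ε)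
    (h : ∀ z ∈ closedBall (0 : ℂ) 1,
      ‖G.eval z‖ * (1 - (∑ j, ‖(κ j).eval z‖ ^ 2) / n) ^ (N - 2) ≤ ε) :
    ∃ W : Option (Fin n) → Option (Fin n) → Cir → ℂ, (∀ j k, MemLp (W j k) ⊤ mC) ∧
      (∀ j k t, W j k t = -W k j t) ∧
      (∀ j k (p : Polynomial ℂ), Lam (AA N κ G j k) p = ∫ t, W j k t * p.eval (e t) ∂mC) ∧
      (∀ j k, ∀ᵐ t ∂mC, ‖W j k t‖ ≤ 10 * (n + 1) ^ 2 * (20 * N ^ 4)) ∧
      (∀ k, ∀ᵐ t ∂mC, ‖W none k t‖ ≤ 10 * (n + 1) ^ 2 * (ε * (20 * N ^ 4))) := by
  classical
  -- a generic representation with a good constant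
  set K : Option (Fin n) → Option (Fin n) → ℝ := fun j k =>
    if j = none ∨ k = none then min (20 * (N : ℝ) ^ 4) (ε * (20 * N ^ 4)) else 20 * N ^ 4 with hK
  have hKs : ∀ j k, K j k = K k j := by
    intro j k
    simp only [hK]
    simp only [or_comm]
  have hK0 : ∀ j k, 0 ≤ K j k := by
    intro j k
    simp only [hK]
    split_ifs <;> positivity
  have hAB : ∀ j k, ∀ z ∈ closedBall (0 : ℂ) 1, ‖ev (AA N κ G j k) z‖ ≤ K j k * HH κ G z ∧
      ‖ev (pderiv 0 (AA N κ G j k)) z‖ ≤ K j k * HH κ G z ^ 2 := by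
    intro j k z hz
    have hH : 0 ≤ HH κ G z := by unfold HH; positivity
    have h1 := AA_bound (N := N) hN (κ := κ) (G := G) (z := z) (fun j => hκ j z hz) (hG z hz) j k
    have hmin : ∀ {x y : ℝ}, 0 ≤ y → x ≤ 20 * (N : ℝ) ^ 4 * y → x ≤ ε * (20 * (N : ℝ) ^ 4) * y →
        x ≤ min (20 * (N : ℝ) ^ 4) (ε * (20 * N ^ 4)) * y := by
      intro x y hy hx1 hx2
      rcases min_choice (20 * (N : ℝ) ^ 4) (ε * (20 * N ^ 4)) with h3 | h3 <;> rw [h3] <;> assumption
    by_cases hj : j = none
    · subst hj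
      have h2 := AA_bound0 (N := N) hN (κ := κ) (G := G) (z := z) (fun j => hκ j z hz) (hG z hz)
        hε (h z hz) k
      simp only [hK, true_or, if_true]
      exact ⟨hmin hH h1.1 h2.1, hmin (by positivity) h1.2 h2.2⟩
    · by_cases hk : k = none
      · subst hk
        have h2 := AA_bound0 (N := N) hN (κ := κ) (G := G) (z := z) (fun j => hκ j z hz) (hG z hz)
          hε (h z hz) j
        simp only [hK, or_true, if_true]
        rw [AA_anti, map_neg, ev_neg, ev_neg, norm_neg, norm_neg]
        rw [AA_anti, map_neg, ev_neg, ev_neg, norm_neg, norm_neg] at h1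
        exact ⟨hmin hH h1.1 h2.1, hmin (by positivity) h1.2 h2.2⟩
      · simp only [hK, hj, hk, or_self, if_false]
        exact h1
  have hrep : ∀ j k, ∃ w : Cir → ℂ, MemLp w ⊤ mC ∧
      (∀ᵐ t ∂mC, ‖w t‖ ≤ 10 * (n + 1) ^ 2 * K j k) ∧
      ∀ p : Polynomial ℂ, Lam (AA N κ G j k) p = ∫ t, w t * p.eval (e t) ∂mC := by
    intro j k
    exact dual_poly (Lam (AA N κ G j k)) _ (by have := hK0 j k; positivity) (fun q =>
      functional_bound hκ hG (AA N κ G j k) (hK0 j k) (hAB j k) q)
  choose w hw1 hw2 hw3 using hrep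
  have hWb : ∀ j k, ∀ᵐ t ∂mC, ‖(w j k t - w k j t) / 2‖ ≤ 10 * (n + 1) ^ 2 * K j k := by
    intro j k
    filter_upwards [hw2 j k, hw2 k j] with t h1 h2
    rw [hKs k j] at h2
    rw [norm_div, Complex.norm_ofNat]
    have h3 := norm_sub_le (w j k t) (w k j t)
    linarith
  refine ⟨fun j k t => (w j k t - w k j t) / 2, ?_, ?_, ?_, ?_, ?_⟩
  · intro j k
    have h1 := ((hw1 j k).sub (hw1 k j)).const_mul (1 / 2 : ℂ)
    refine h1.congr_norm ?_ (Eventually.of_forall fun t => ?_)
    · have h2 := h1.1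
      refine h2.congr (Eventually.of_forall fun t => ?_)
      simp only [Pi.sub_apply]
      ring
    · simp only [Pi.sub_apply]
      congr 1
      ring
  · intro j k t
    simp only
    ring
  · intro j k p
    have hp : Integrable (fun t => p.eval (e t)) mC :=
      (memLp_cont (continuous_poly_e p)).integrable le_top
    have h1 : ∀ t : Cir, (w j k t - w k j t) / 2 * p.eval (e t) =
        (1 / 2 : ℂ) * (w j k t * p.eval (e t) - w k j t * p.eval (e t)) := by
      intro t; ring
    simp_rw [h1]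
    rw [integral_const_mul, integral_sub
      (show Integrable (fun t => w j k t * p.eval (e t)) mC from hp.mul_of_top_right (hw1 j k))
      (show Integrable (fun t => w k j t * p.eval (e t)) mC from hp.mul_of_top_right (hw1 k j)),
      ← hw3, ← hw3, AA_anti N κ G k j, Lam_neg]
    ring
  · intro j k
    filter_upwards [hWb j k] with t ht
    refine ht.trans ?_
    apply mul_le_mul_of_nonneg_left _ (by positivity)
    simp only [hK]
    split_ifs
    · exact min_le_left _ _
    · exact le_rfl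
  · intro k
    filter_upwards [hWb none k] with t ht
    refine ht.trans ?_
    apply mul_le_mul_of_nonneg_left _ (by positivity)
    simp only [hK, true_or, if_true]
    exact min_le_right _ _

end JwDAux

open JwDAux in
theorem jw_poly {n : ℕ} (hn : 0 < n) {N : ℕ} (hN : 3 ≤ N) (κ : Fin n → Polynomial ℂ)
    (G : Polynomial ℂ) (hκ : ∀ j, ∀ z ∈ closedBall (0 : ℂ) 1, ‖(κ j).eval z‖ ≤ 1)
    (hG : ∀ z ∈ closedBall (0 : ℂ) 1, ‖G.eval z‖ ≤ 1) {ε : ℝ} (hε : 0 ≤ ε) (hε1 : ε ≤ 1)
    (h : ∀ z ∈ closedBall (0 : ℂ) 1,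
      ‖G.eval z‖ * (1 - (∑ j, ‖(κ j).eval z‖ ^ 2) / n) ^ (N - 2) ≤ ε) :
    ∃ (a0 : ℂ → ℂ) (a : Fin n → ℂ → ℂ), AnalyticOnNhd ℂ a0 (ball 0 1) ∧
      (∀ j, AnalyticOnNhd ℂ (a j) (ball 0 1)) ∧
      (∀ z ∈ ball (0 : ℂ) 1, ‖a0 z‖ ≤ 1000 * (n + 1) ^ 3 * N ^ 4 * ε) ∧
      (∀ j, ∀ z ∈ ball (0 : ℂ) 1, ‖a j z‖ ≤ 1000 * (n + 1) ^ 3 * N ^ 4) ∧
      ∀ z ∈ ball (0 : ℂ) 1, G.eval z ^ 2 = a0 z + ∑ j, (κ j).eval z * a j z := by
  classical
  obtain ⟨W, hW1, hW2, hW3, hW4, hW5⟩ := exists_W hN hκ hG hε h
  have he : ∀ t : Cir, e t ∈ closedBall (0 : ℂ) 1 := fun t => by simp [norm_e]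
  have hN1 : (1 : ℝ) ≤ N := by exact_mod_cast (by omega : 1 ≤ N)
  have hn0 : (0 : ℝ) ≤ n := Nat.cast_nonneg n
  -- the boundary functions
  set b : Option (Fin n) → Cir → ℂ := fun j t =>
    ev (em G ^ 2 * psi N κ j) (e t) + ∑ k, W j k t * (kapP κ k).eval (e t) with hb
  have hcont : ∀ F : R2, Continuous fun t : Cir => ev F (e t) := fun F =>
    (continuous_ev F).comp NehB.continuous_e
  have hWk : ∀ j k, MemLp (fun t => W j k t * (kapP κ k).eval (e t)) ⊤ mC := by
    intro j k
    exact (memLp_cont (continuous_poly_e (kapP κ k))).mul' (hW1 j k)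
  have hbL : ∀ j, MemLp (b j) ⊤ mC := by
    intro j
    exact (memLp_cont (hcont _)).add (memLp_finsetSum _ fun k _ => hWk j k)
  have hbH : ∀ j, b j ∈ Hinf := by
    intro j
    refine ⟨hbL j, fun m hm => ?_⟩
    obtain ⟨k, hk⟩ := fourier_neg (b j) m hm
    rw [hk]
    set q : Polynomial ℂ := Polynomial.X ^ (k + 1) with hq
    have hq0 : q.eval 0 = 0 := by simp [hq]
    have hqi : Integrable (fun t => q.eval (e t)) mC :=
      (memLp_cont (continuous_poly_e q)).integrable le_top
    have h1 : ∀ t : Cir, b j t * q.eval (e t) =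
        ev (em G ^ 2 * psi N κ j) (e t) * q.eval (e t) +
          ∑ k, W j k t * (kapP κ k * q).eval (e t) := by
      intro t
      simp only [hb]
      rw [add_mul, Finset.sum_mul]
      congr 1
      apply Finset.sum_congr rfl
      intro k _
      rw [Polynomial.eval_mul]
      ring
    simp_rw [h1]
    have h2 : ∀ k, Integrable (fun t => W j k t * (kapP κ k * q).eval (e t)) mC := fun k =>
      ((memLp_cont (continuous_poly_e (kapP κ k * q))).integrable le_top).mul_of_top_right
        (hW1 j k)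
    rw [integral_add (show Integrable (fun t => ev (em G ^ 2 * psi N κ j) (e t) * q.eval (e t)) mC
      from hqi.mul_of_top_right (memLp_cont (hcont _)))
      (integrable_finsetSum _ fun k _ => h2 k), integral_finsetSum _ fun k _ => h2 k]
    have h3 := cancel hn N κ G j q hq0
    rw [← h3]
    congr 1
    apply Finset.sum_congr rfl
    intro k _
    exact (hW3 j k _).symm
  -- the algebraic identity
  have hsum : ∀ t : Cir, ∑ j, (kapP κ j).eval (e t) * b j t = G.eval (e t) ^ 2 := by
    intro t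
    have h1 : ∑ j, (kapP κ j).eval (e t) * b j t =
        ev (em G ^ 2 * ∑ j, kap κ j * psi N κ j) (e t) +
          ∑ j, ∑ k, (kapP κ j).eval (e t) * (W j k t * (kapP κ k).eval (e t)) := by
      simp only [hb, mul_add, Finset.sum_add_distrib, Finset.mul_sum]
      congr 1
      rw [ev_sum]
      apply Finset.sum_congr rfl
      intro j _
      rw [ev_mul, ev_mul, ev_mul, kap_eq, ev_em]
      ring
    have h2 : ∑ j, ∑ k, (kapP κ j).eval (e t) * (W j k t * (kapP κ k).eval (e t)) = 0 := by
      have h3 : ∑ j, ∑ k, (kapP κ j).eval (e t) * (W j k t * (kapP κ k).eval (e t)) =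
          -∑ j, ∑ k, (kapP κ j).eval (e t) * (W j k t * (kapP κ k).eval (e t)) := by
        conv_lhs => rw [Finset.sum_comm]
        rw [← Finset.sum_neg_distrib]
        apply Finset.sum_congr rfl
        intro j _
        rw [← Finset.sum_neg_distrib]
        apply Finset.sum_congr rfl
        intro k _
        rw [hW2 k j t]
        ring
      exact self_eq_neg.1 h3
    rw [h1, h2, sum_kap_psi hn, mul_one, ev_pow, ev_em, add_zero]
  have hanal : ∀ j, AnalyticOnNhd ℂ (Helper59.DGA.ext (b j)) (ball 0 1) :=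
    fun j => Hinf.analytic (hbH j)
  refine ⟨Helper59.DGA.ext (b none), fun j => Helper59.DGA.ext (b (some j)), hanal none,
    fun j => hanal (some j), ?_, ?_, ?_⟩
  · intro z hz
    refine ext_norm_le ?_ (by simpa using hz)
    filter_upwards [ae_all_iff.2 hW5] with t ht
    have h1 : ‖ev (em G ^ 2 * psi N κ none) (e t)‖ ≤ ε := by
      rw [ev_mul, ev_pow, ev_em, psi_none]
      set T : ℝ := (∑ j, ‖(κ j).eval (e t)‖ ^ 2) / n with hT
      have hT0 : 0 ≤ T := by positivity
      have hT1 : T ≤ 1 := by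
        rw [hT, div_le_one (by exact_mod_cast hn)]
        calc ∑ j, ‖(κ j).eval (e t)‖ ^ 2 ≤ ∑ j : Fin n, (1 : ℝ) := by
              apply Finset.sum_le_sum
              intro j _
              exact pow_le_one₀ (norm_nonneg _) (hκ j _ (he t))
          _ = n := by simp
      have h2 := h (e t) (he t)
      rw [norm_mul, norm_pow, norm_pow, Complex.norm_real, Real.norm_of_nonneg (by linarith)]
      have h3 : (1 - T) ^ N ≤ (1 - T) ^ (N - 2) :=
        pow_le_pow_of_le_one (by linarith) (by linarith) (by omega)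
      have h4 : ‖G.eval (e t)‖ ^ 2 ≤ ‖G.eval (e t)‖ := by
        have := hG _ (he t)
        nlinarith [norm_nonneg (G.eval (e t))]
      calc ‖G.eval (e t)‖ ^ 2 * (1 - T) ^ N ≤ ‖G.eval (e t)‖ * (1 - T) ^ (N - 2) :=
            mul_le_mul h4 h3 (pow_nonneg (by linarith) _) (norm_nonneg _)
        _ ≤ ε := h2
    have h2 : ‖∑ k, W none k t * (kapP κ k).eval (e t)‖ ≤
        (n + 1) * (10 * (n + 1) ^ 2 * (ε * (20 * N ^ 4))) := by
      refine (norm_sum_le _ _).trans ?_
      calc ∑ k, ‖W none k t * (kapP κ k).eval (e t)‖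
          ≤ ∑ k : Option (Fin n), 10 * ((n : ℝ) + 1) ^ 2 * (ε * (20 * N ^ 4)) := by
            apply Finset.sum_le_sum
            intro k _
            rw [norm_mul]
            have h3 := kapP_le (κ := κ) (z := e t) (fun j => hκ j _ (he t)) k
            calc ‖W none k t‖ * ‖(kapP κ k).eval (e t)‖ ≤ ‖W none k t‖ * 1 :=
                  mul_le_mul_of_nonneg_left h3 (norm_nonneg _)
              _ ≤ _ := by rw [mul_one]; exact ht k
        _ = _ := by
            rw [Finset.sum_const, Finset.card_univ, Fintype.card_option, Fintype.card_fin,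
              nsmul_eq_mul]
            push_cast
            ring
    have h3 := norm_add_le (ev (em G ^ 2 * psi N κ none) (e t))
      (∑ k, W none k t * (kapP κ k).eval (e t))
    have h4 : (1 : ℝ) ≤ ((n : ℝ) + 1) ^ 3 * N ^ 4 := by
      have h5 : (1 : ℝ) ≤ ((n : ℝ) + 1) ^ 3 := one_le_pow₀ (by linarith)
      have h6 : (1 : ℝ) ≤ (N : ℝ) ^ 4 := one_le_pow₀ hN1
      nlinarith
    have h5 : ε ≤ ((n : ℝ) + 1) ^ 3 * N ^ 4 * ε := le_mul_of_one_le_left hε h4
    show ‖ev (em G ^ 2 * psi N κ none) (e t) + ∑ k, W none k t * (kapP κ k).eval (e t)‖ ≤ _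
    nlinarith
  · intro j z hz
    refine ext_norm_le ?_ (by simpa using hz)
    filter_upwards [ae_all_iff.2 (hW4 (some j))] with t ht
    have h1 : ‖ev (em G ^ 2 * psi N κ (some j)) (e t)‖ ≤ N := by
      rw [ev_mul, ev_pow, ev_em, norm_mul, norm_pow]
      have h3 := psi_bound (N := N) (κ := κ) (z := e t) (fun j => hκ j _ (he t)) j
      have h4 : ‖G.eval (e t)‖ ^ 2 ≤ 1 := pow_le_one₀ (norm_nonneg _) (hG _ (he t))
      calc ‖G.eval (e t)‖ ^ 2 * ‖ev (psi N κ (some j)) (e t)‖ ≤ 1 * N :=
            mul_le_mul h4 h3 (norm_nonneg _) zero_le_one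
        _ = N := one_mul _
    have h2 : ‖∑ k, W (some j) k t * (kapP κ k).eval (e t)‖ ≤
        (n + 1) * (10 * (n + 1) ^ 2 * (20 * N ^ 4)) := by
      refine (norm_sum_le _ _).trans ?_
      calc ∑ k, ‖W (some j) k t * (kapP κ k).eval (e t)‖
          ≤ ∑ k : Option (Fin n), 10 * ((n : ℝ) + 1) ^ 2 * (20 * N ^ 4) := by
            apply Finset.sum_le_sum
            intro k _
            rw [norm_mul]
            have h3 := kapP_le (κ := κ) (z := e t) (fun j => hκ j _ (he t)) k
            calc ‖W (some j) k t‖ * ‖(kapP κ k).eval (e t)‖ ≤ ‖W (some j) k t‖ * 1 :=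
                  mul_le_mul_of_nonneg_left h3 (norm_nonneg _)
              _ ≤ _ := by rw [mul_one]; exact ht k
        _ = _ := by
            rw [Finset.sum_const, Finset.card_univ, Fintype.card_option, Fintype.card_fin,
              nsmul_eq_mul]
            push_cast
            ring
    have h3 := norm_add_le (ev (em G ^ 2 * psi N κ (some j)) (e t))
      (∑ k, W (some j) k t * (kapP κ k).eval (e t))
    have h4 : (N : ℝ) ≤ ((n : ℝ) + 1) ^ 3 * N ^ 4 := by
      have h5 : (1 : ℝ) ≤ ((n : ℝ) + 1) ^ 3 := one_le_pow₀ (by linarith)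
      have h6 : (N : ℝ) ≤ (N : ℝ) ^ 4 := le_self_pow₀ hN1 (by norm_num)
      nlinarith [pow_nonneg (le_trans zero_le_one hN1) 4]
    show ‖ev (em G ^ 2 * psi N κ (some j)) (e t) + ∑ k, W (some j) k t * (kapP κ k).eval (e t)‖ ≤ _
    nlinarith
  · intro z hz
    have hz1 : ‖z‖ < 1 := by simpa using hz
    have h1 : Helper59.DGA.ext (fun t => (G ^ 2).eval (e t)) z = G.eval z ^ 2 := by
      rw [ext_poly _ hz1, Polynomial.eval_pow]
    have h2 : (fun t : Cir => (G ^ 2).eval (e t)) =
        ∑ j, (fun t => (kapP κ j).eval (e t)) * b j := by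
      funext t
      rw [Finset.sum_apply, Polynomial.eval_pow, ← hsum t]
      rfl
    have hint : ∀ j, (fun t => (kapP κ j).eval (e t)) * b j ∈ Hinf := fun j =>
      Hinf.mul (poly_Hinf _) (hbH j)
    have hadd : ∀ s : Finset (Option (Fin n)),
        (∑ j ∈ s, (fun t : Cir => (kapP κ j).eval (e t)) * b j) ∈ Hinf ∧
        Helper59.DGA.ext (∑ j ∈ s, (fun t : Cir => (kapP κ j).eval (e t)) * b j) z =
          ∑ j ∈ s, (kapP κ j).eval z * Helper59.DGA.ext (b j) z := by
      intro s
      induction s using Finset.induction_on with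
      | empty =>
        refine ⟨Hinf.const 0, ?_⟩
        simp [Helper59.DGA.ext]
      | insert a s ha ih =>
        rw [Finset.sum_insert ha, Finset.sum_insert ha]
        refine ⟨Hinf.add (hint a) ih.1, ?_⟩
        rw [KerB.ext_add' (Hinf.int (hint a)) (Hinf.int ih.1) hz1, ih.2, Hinf.ext_mul (poly_Hinf _) (hbH a) hz1,
          ext_poly _ hz1]
    rw [← h1, h2, (hadd Finset.univ).2, Fintype.sum_option]
    simp [kapP]

end

end Pool.Agent.Helper65.HP
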