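import Pool.Agent.Helper65.HP.KerC
import Pool.Agent.Helper59.DG.BlaC

/-! Module TRA: transfer between the disc and the half plane. -/

set_option autoImplicit false

namespace Pool.Agent.Helper65.HP

open UpperHalfPlane Filter Topology Metric Pool.Agent.Helper59.DGA

noncomputable section

namespace TraP

theorem add_I_ne (z : ℍ) : (z : ℂ) + Complex.I ≠ 0 := by
  intro h
  have h1 := congrArg Complex.im h
  simp only [Complex.add_im, Complex.I_im, Complex.zero_im] at h1
  have h2 := z.im_pos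
  change (z : ℂ).im + 1 = 0 at h1
  have h3 : (z : ℂ).im = z.im := rfl
  linarith

theorem one_sub_ne {ζ : ℂ} (h : ‖ζ‖ < 1) : 1 - ζ ≠ 0 := by
  intro h1
  have h2 : ζ = 1 := (sub_eq_zero.1 h1).symm
  rw [h2, norm_one] at h
  exact lt_irrefl _ h

theorem inv_im {ζ : ℂ} (h : ‖ζ‖ < 1) : 0 < (Complex.I * (1 + ζ) / (1 - ζ)).im := by
  have h1 := one_sub_ne h
  have h2 : Complex.I * (1 + ζ) / (1 - ζ) =
      Complex.I * ((1 + ζ) * starRingEnd ℂ (1 - ζ)) * ((Complex.normSq (1 - ζ))⁻¹ : ℝ) := by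
    rw [div_eq_mul_inv, Complex.inv_def]
    push_cast
    ring
  rw [h2, Complex.im_mul_ofReal]
  apply mul_pos _ (inv_pos.2 (Complex.normSq_pos.2 h1))
  have h3 : ζ.re ^ 2 + ζ.im ^ 2 < 1 := by
    have h4 : ‖ζ‖ ^ 2 < 1 := by
      have := norm_nonneg ζ
      nlinarith
    rw [← Complex.normSq_eq_norm_sq, Complex.normSq_apply] at h4
    nlinarith
  simp only [map_sub, map_one, Complex.mul_im, Complex.mul_re, Complex.I_re, Complex.I_im,
    Complex.add_re, Complex.one_re, Complex.sub_re, Complex.conj_re, Complex.sub_im,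
    Complex.one_im, Complex.conj_im, Complex.add_im]
  nlinarith

theorem cay_inv {ζ : ℂ} (h : ‖ζ‖ < 1) : cay ⟨Complex.I * (1 + ζ) / (1 - ζ), inv_im h⟩ = ζ := by
  have h1 := one_sub_ne h
  have h2 : Complex.I * (1 + ζ) / (1 - ζ) + Complex.I ≠ 0 :=
    add_I_ne ⟨Complex.I * (1 + ζ) / (1 - ζ), inv_im h⟩
  show (Complex.I * (1 + ζ) / (1 - ζ) - Complex.I) /
    (Complex.I * (1 + ζ) / (1 - ζ) + Complex.I) = ζ
  rw [div_eq_iff h2]
  field_simp
  ring

theorem inv_cay (z : ℍ) : Complex.I * (1 + cay z) / (1 - cay z) = (z : ℂ) := by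
  have h1 := add_I_ne z
  have h2 : 1 - cay z = 2 * Complex.I / ((z : ℂ) + Complex.I) := by
    unfold cay
    rw [eq_div_iff h1, sub_mul, div_mul_cancel₀ _ h1]
    ring
  have h3 : 1 + cay z = 2 * z / ((z : ℂ) + Complex.I) := by
    unfold cay
    rw [eq_div_iff h1, add_mul, div_mul_cancel₀ _ h1]
    ring
  rw [h2, h3]
  have hI := Complex.I_ne_zero
  field_simp

end TraP

open TraP

theorem norm_cay (z : ℍ) : ‖cay z‖ < 1 := by
  unfold cay
  rw [norm_div, div_lt_one (norm_pos_iff.2 (add_I_ne z))]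
  apply lt_of_pow_lt_pow_left₀ 2 (norm_nonneg _)
  rw [← Complex.normSq_eq_norm_sq, ← Complex.normSq_eq_norm_sq, Complex.normSq_apply,
    Complex.normSq_apply]
  simp only [Complex.sub_re, Complex.sub_im, Complex.add_re, Complex.add_im, Complex.I_re,
    Complex.I_im]
  have h2 : 0 < (z : ℂ).im := z.im_pos
  nlinarith

theorem cay_surj {ζ : ℂ} (h : ‖ζ‖ < 1) : ∃ z : ℍ, cay z = ζ := ⟨_, cay_inv h⟩

theorem toD_cay (F : ℍ → ℂ) (z : ℍ) : toD F (cay z) = F z := by
  unfold toD
  rw [inv_cay, ofComplex_apply]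

theorem toH_toD (F : ℍ → ℂ) : toH (toD F) = F := by
  funext z
  exact toD_cay F z

theorem toD_toH (G : ℂ → ℂ) {ζ : ℂ} (h : ‖ζ‖ < 1) : toD (toH G) ζ = G ζ := by
  unfold toD toH
  rw [ofComplex_apply_of_im_pos (inv_im h), cay_inv h]

theorem toD_analytic {F : ℍ → ℂ} (hF : An F) : AnalyticOnNhd ℂ (toD F) (ball 0 1) := by
  apply DifferentiableOn.analyticOnNhd _ isOpen_ball
  have h1 : DifferentiableOn ℂ (fun ζ : ℂ => Complex.I * (1 + ζ) / (1 - ζ)) (ball 0 1) := by
    intro ζ hζ
    have hζ' : ‖ζ‖ < 1 := by simpa using hζ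
    apply DifferentiableAt.differentiableWithinAt
    apply DifferentiableAt.div _ _ (one_sub_ne hζ')
    · exact (differentiableAt_const _).mul ((differentiableAt_const _).add differentiableAt_id)
    · exact (differentiableAt_const _).sub differentiableAt_id
  have h2 : Set.MapsTo (fun ζ : ℂ => Complex.I * (1 + ζ) / (1 - ζ)) (ball 0 1)
      {z : ℂ | 0 < z.im} := by
    intro ζ hζ
    exact inv_im (by simpa using hζ)
  exact DifferentiableOn.comp (g := fun z : ℂ => F (ofComplex z)) hF h1 h2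

theorem toH_An {G : ℂ → ℂ} (hG : AnalyticOnNhd ℂ G (ball 0 1)) : An (toH G) := by
  unfold An
  have h1 : DifferentiableOn ℂ (fun z : ℂ => (z - Complex.I) / (z + Complex.I))
      {z : ℂ | 0 < z.im} := by
    intro z hz
    apply DifferentiableAt.differentiableWithinAt
    have h3 : z + Complex.I ≠ 0 := add_I_ne ⟨z, hz⟩
    exact DifferentiableAt.div (differentiableAt_id.sub (differentiableAt_const _))
      (differentiableAt_id.add (differentiableAt_const _)) h3
  have h2 : Set.MapsTo (fun z : ℂ => (z - Complex.I) / (z + Complex.I))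
      {z : ℂ | 0 < z.im} (ball 0 1) := by
    intro z hz
    have := norm_cay ⟨z, hz⟩
    simpa [cay] using this
  refine (DifferentiableOn.comp hG.differentiableOn h1 h2).congr ?_
  intro z hz
  show toH G (ofComplex z) = _
  rw [ofComplex_apply_of_im_pos hz]
  rfl

theorem toD_Sch {F : ℍ → ℂ} (hF : InU F) : Bla.Sch (toD F) :=
  ⟨toD_analytic hF.1, fun _ _ => hF.2 _⟩

theorem toH_InU {G : ℂ → ℂ} (hG : Bla.Sch G) : InU (toH G) :=
  ⟨toH_An hG.1, fun z => hG.2 _ (by simpa using norm_cay z)⟩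

/-- Blaschke factors correspond, up to unimodular constants -/
theorem bfac_cay (w : ℍ) : ∃ c : ℂ, ‖c‖ = 1 ∧ ∀ z : ℍ, bfac (cay w) (cay z) = c * bf w z := by
  have hw := add_I_ne w
  by_cases h0 : cay w = 0
  · have h1 : (w : ℂ) = Complex.I := by
      unfold cay at h0
      rw [div_eq_zero_iff] at h0
      rcases h0 with h | h
      · exact sub_eq_zero.1 h
      · exact absurd h hw
    refine ⟨1, norm_one, fun z => ?_⟩
    rw [bfac, if_pos h0, one_mul, bf, h1, Complex.conj_I, sub_neg_eq_add]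
    rfl
  · have hcw : starRingEnd ℂ (w : ℂ) - Complex.I ≠ 0 := by
      intro h
      apply hw
      have h1 := congrArg (starRingEnd ℂ) h
      rw [map_sub, Complex.conj_conj, Complex.conj_I, sub_neg_eq_add, map_zero] at h1
      exact h1
    refine ⟨(‖cay w‖ / cay w : ℂ) *
      ((starRingEnd ℂ (w : ℂ) - Complex.I) / ((w : ℂ) + Complex.I)), ?_, fun z => ?_⟩
    · have h1 : ‖(‖cay w‖ / cay w : ℂ)‖ = 1 := by
        rw [norm_div, Complex.norm_real, norm_norm, div_self (norm_ne_zero_iff.2 h0)]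
      have h2 : ‖(starRingEnd ℂ (w : ℂ) - Complex.I)‖ = ‖(w : ℂ) + Complex.I‖ := by
        rw [← Complex.norm_conj ((w : ℂ) + Complex.I), map_add, Complex.conj_I, ← sub_eq_add_neg]
      rw [norm_mul, h1, norm_div, h2, div_self (norm_ne_zero_iff.2 hw), one_mul]
    · have hz := add_I_ne z
      have hzw : (z : ℂ) - starRingEnd ℂ (w : ℂ) ≠ 0 := by
        intro h
        have h1 := congrArg Complex.im h
        simp only [Complex.sub_im, Complex.conj_im, Complex.zero_im] at h1
        have h2 : 0 < (z : ℂ).im := z.im_pos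
        have h3 : 0 < (w : ℂ).im := w.im_pos
        linarith
      rw [bfac, if_neg h0]
      have e1 : cay w - cay z = 2 * Complex.I * ((w : ℂ) - z) /
          (((w : ℂ) + Complex.I) * ((z : ℂ) + Complex.I)) := by
        unfold cay
        rw [div_sub_div _ _ hw hz]
        congr 1
        ring
      have e2 : 1 - starRingEnd ℂ (cay w) * cay z = 2 * Complex.I *
          (starRingEnd ℂ (w : ℂ) - z) /
          ((starRingEnd ℂ (w : ℂ) - Complex.I) * ((z : ℂ) + Complex.I)) := by
        unfold cay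
        rw [map_div₀, map_sub, map_add, Complex.conj_I, sub_neg_eq_add, ← sub_eq_add_neg,
          div_mul_div_comm, eq_div_iff (mul_ne_zero hcw hz), sub_mul,
          div_mul_cancel₀ _ (mul_ne_zero hcw hz)]
        ring
      have hzw' : starRingEnd ℂ (w : ℂ) - (z : ℂ) ≠ 0 := by
        intro h
        apply hzw
        rw [← neg_sub, h, neg_zero]
      have hI := Complex.I_ne_zero
      have e3 : (cay w - cay z) / (1 - starRingEnd ℂ (cay w) * cay z) =
          (starRingEnd ℂ (w : ℂ) - Complex.I) / ((w : ℂ) + Complex.I) * bf w z := by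
        rw [e1, e2, bf, ← neg_sub (starRingEnd ℂ (w : ℂ)) (z : ℂ), ← neg_sub (w : ℂ) (z : ℂ),
          neg_div_neg_eq]
        field_simp
      rw [e3, mul_assoc]

end

end Pool.Agent.Helper65.HP
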