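import Pool.Agent.Helper65.HP.JwD
import Pool.Agent.Helper65.HP.Tra
import Pool.Agent.Helper65.HP.Ult

/-! Module JWE: the division theorem on the half plane. -/

set_option autoImplicit false

namespace Pool.Agent.Helper65.HP

open MeasureTheory Metric Filter Topology UpperHalfPlane Pool.Agent.Helper59.DGA

noncomputable section

namespace JwE

/-- polynomial approximation of a dilated analytic function on the closed disc -/
theorem poly_approx {f : ℂ → ℂ} (hf : AnalyticOnNhd ℂ f (ball 0 1)) {r s : ℝ} (hr : 0 ≤ r)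
    (hr1 : r < 1) (hs : 0 < s) :
    ∃ p : Polynomial ℂ, ∀ z ∈ closedBall (0 : ℂ) 1, ‖p.eval z - f (r * z)‖ ≤ s := by
  obtain ⟨R, hrR, hR1⟩ := exists_between hr1
  have hR0 : 0 < R := lt_of_le_of_lt hr hrR
  obtain ⟨R', hrR', hR'⟩ := exists_between hrR
  have hR'0 : 0 < R' := lt_of_le_of_lt hr hrR'
  have hd : DifferentiableOn ℂ f (closedBall 0 R) :=
    (hf.differentiableOn).mono (closedBall_subset_ball hR1)
  lift R to NNReal using hR0.le
  lift R' to NNReal using hR'0.le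
  have hps := hd.hasFPowerSeriesOnBall (by exact_mod_cast hR0)
  have hu := hps.tendstoUniformlyOn (r' := R') (by exact_mod_cast hR')
  have hu2 := Metric.tendstoUniformlyOn_iff.1 hu s hs
  obtain ⟨m, hm⟩ := hu2.exists
  refine ⟨∑ k ∈ Finset.range m, Polynomial.C ((cauchyPowerSeries f 0 R).coeff k * (r : ℂ) ^ k) *
    Polynomial.X ^ k, fun z hz => ?_⟩
  have hz1 : ‖z‖ ≤ 1 := by simpa using hz
  have hmem : (r : ℂ) * z ∈ ball (0 : ℂ) R' := by
    rw [mem_ball_zero_iff, norm_mul, Complex.norm_real, Real.norm_of_nonneg hr]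
    calc r * ‖z‖ ≤ r * 1 := by gcongr
      _ < R' := by simpa using hrR'
  have h := hm _ hmem
  rw [dist_comm, dist_eq_norm, zero_add] at h
  refine le_trans (le_of_eq ?_) h.le
  congr 2
  rw [FormalMultilinearSeries.partialSum, Polynomial.eval_finsetSum]
  refine Finset.sum_congr rfl fun k _ => ?_
  rw [FormalMultilinearSeries.apply_eq_pow_smul_coeff]
  simp only [Polynomial.eval_mul, Polynomial.eval_C, Polynomial.eval_pow, Polynomial.eval_X,
    smul_eq_mul, mul_pow]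
  ring

/-- the same, with the polynomial bounded by one -/
theorem poly_approx_one {f : ℂ → ℂ} (hf : AnalyticOnNhd ℂ f (ball 0 1))
    (hf1 : ∀ z ∈ ball (0 : ℂ) 1, ‖f z‖ ≤ 1) {r s : ℝ} (hr : 0 ≤ r)
    (hr1 : r < 1) (hs : 0 < s) :
    ∃ p : Polynomial ℂ, (∀ z ∈ closedBall (0 : ℂ) 1, ‖p.eval z‖ ≤ 1) ∧
      ∀ z ∈ closedBall (0 : ℂ) 1, ‖p.eval z - f (r * z)‖ ≤ s := by
  obtain ⟨p, hp⟩ := poly_approx hf hr hr1 (half_pos hs)
  have hmem : ∀ z ∈ closedBall (0 : ℂ) 1, (r : ℂ) * z ∈ ball (0 : ℂ) 1 := by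
    intro z hz
    have hz1 : ‖z‖ ≤ 1 := by simpa using hz
    rw [mem_ball_zero_iff, norm_mul, Complex.norm_real, Real.norm_of_nonneg hr]
    calc r * ‖z‖ ≤ r * 1 := by gcongr
      _ < 1 := by simpa using hr1
  have hpn : ∀ z ∈ closedBall (0 : ℂ) 1, ‖p.eval z‖ ≤ 1 + s / 2 := by
    intro z hz
    calc ‖p.eval z‖ = ‖(p.eval z - f (r * z)) + f (r * z)‖ := by rw [sub_add_cancel]
      _ ≤ ‖p.eval z - f (r * z)‖ + ‖f (r * z)‖ := norm_add_le _ _
      _ ≤ s / 2 + 1 := add_le_add (hp z hz) (hf1 _ (hmem z hz))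
      _ = 1 + s / 2 := add_comm _ _
  have hs1 : 0 < 1 + s / 2 := by positivity
  refine ⟨Polynomial.C (((1 + s / 2 : ℝ) : ℂ)⁻¹) * p, fun z hz => ?_, fun z hz => ?_⟩
  · rw [Polynomial.eval_mul, Polynomial.eval_C, norm_mul, norm_inv, Complex.norm_real,
      Real.norm_of_nonneg hs1.le]
    rw [inv_mul_le_iff₀ hs1, mul_one]
    exact hpn z hz
  · rw [Polynomial.eval_mul, Polynomial.eval_C]
    have h1 : ‖((1 + s / 2 : ℝ) : ℂ)⁻¹ * p.eval z - p.eval z‖ ≤ s / 2 := by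
      have : ((1 + s / 2 : ℝ) : ℂ)⁻¹ * p.eval z - p.eval z =
          ((((1 + s / 2)⁻¹ - 1 : ℝ)) : ℂ) * p.eval z := by push_cast; ring
      rw [this, norm_mul, Complex.norm_real, Real.norm_eq_abs]
      have h2 : |(1 + s / 2)⁻¹ - 1| = (s / 2) * (1 + s / 2)⁻¹ := by
        rw [abs_sub_comm, abs_of_nonneg]
        · field_simp; ring
        · rw [sub_nonneg]; exact inv_le_one_of_one_le₀ (by linarith)
      rw [h2, mul_assoc]
      calc s / 2 * ((1 + s / 2)⁻¹ * ‖p.eval z‖) ≤ s / 2 * 1 := by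
            gcongr
            rw [inv_mul_le_iff₀ hs1, mul_one]
            exact hpn z hz
        _ = s / 2 := mul_one _
    calc ‖((1 + s / 2 : ℝ) : ℂ)⁻¹ * p.eval z - f (r * z)‖
        = ‖(((1 + s / 2 : ℝ) : ℂ)⁻¹ * p.eval z - p.eval z) + (p.eval z - f (r * z))‖ := by
          congr 1; ring
      _ ≤ _ := norm_add_le _ _
      _ ≤ s / 2 + s / 2 := add_le_add h1 (hp z hz)
      _ = s := by ring

/-- choice of the exponent -/
theorem exists_N (C η d : ℝ) (hη : 0 < η) (hd : 0 < d) (hd1 : d < 1) :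
    ∃ N : ℕ, 3 ≤ N ∧ C * (N : ℝ) ^ 4 * (1 - d) ^ (N - 2) ≤ η := by
  have h1 : Tendsto (fun n : ℕ => (n : ℝ) ^ 4 * (1 - d) ^ n) atTop (𝓝 0) :=
    tendsto_pow_const_mul_const_pow_of_lt_one 4 (by linarith) (by linarith)
  have h2 : Tendsto (fun n : ℕ => (C * (1 - d)⁻¹ ^ 2) * ((n : ℝ) ^ 4 * (1 - d) ^ n)) atTop
      (𝓝 ((C * (1 - d)⁻¹ ^ 2) * 0)) := h1.const_mul _
  rw [mul_zero] at h2
  have h3 := (h2.eventually (gt_mem_nhds hη)).and (eventually_ge_atTop 3)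
  obtain ⟨N, hN, hN3⟩ := h3.exists
  refine ⟨N, hN3, ?_⟩
  have hd' : (0 : ℝ) < 1 - d := by linarith
  have : C * (N : ℝ) ^ 4 * (1 - d) ^ (N - 2) =
      C * (1 - d)⁻¹ ^ 2 * ((N : ℝ) ^ 4 * (1 - d) ^ N) := by
    have h4 : (1 - d) ^ N = (1 - d) ^ (N - 2) * (1 - d) ^ 2 := by
      rw [← pow_add]; congr 1; omega
    rw [h4, inv_pow]
    field_simp
  rw [this]
  exact hN.le

/-- the zero generator case -/
theorem jw_zero (η : ℝ) (hη : 0 < η) : ∃ ε > 0, ∀ (κ : Fin 0 → ℍ → ℂ)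
    (G : ℍ → ℂ), (∀ j, InU (κ j)) → InU G → (∀ z, (∀ j, ‖κ j z‖ < (1 : ℝ)) → ‖G z‖ ≤ ε) →
    ∀ z, ‖G z ^ 2‖ ≤ η := by
  refine ⟨min 1 η, lt_min one_pos hη, fun κ G _ hG h z => ?_⟩
  have h1 := h z (fun j => j.elim0)
  rw [norm_pow]
  have h2 := hG.2 z
  calc ‖G z‖ ^ 2 = ‖G z‖ * ‖G z‖ := sq _
    _ ≤ 1 * η := mul_le_mul h2 (h1.trans (min_le_right _ _)) (norm_nonneg _) zero_le_one
    _ = η := one_mul _

theorem jw_pos (n : ℕ) (hn : 0 < n) (δ η : ℝ) (hδ : 0 < δ) (hδ1 : δ ≤ 1) (hη : 0 < η) :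
    ∃ ε > 0, ∀ (κ : Fin n → ℍ → ℂ)
    (G : ℍ → ℂ), (∀ j, InU (κ j)) → InU G → (∀ z, (∀ j, ‖κ j z‖ < δ) → ‖G z‖ ≤ ε) →
    ∃ α : Fin n → ℍ → ℂ, (∀ j, InH (α j)) ∧ ∀ z, ‖G z ^ 2 - ∑ j, κ j z * α j z‖ ≤ η := by
  have hn' : (0 : ℝ) < n := by exact_mod_cast hn
  have hn1 : (1 : ℝ) ≤ n := by exact_mod_cast hn
  set d : ℝ := δ ^ 2 / (4 * n) with hd
  have hd0 : 0 < d := by positivity
  have hd1 : d < 1 := by
    rw [hd, div_lt_one (by positivity)]
    nlinarith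
  obtain ⟨N, hN3, hN⟩ := exists_N (1000 * ((n : ℝ) + 1) ^ 3) η d hη hd0 hd1
  set ep : ℝ := (1 - d) ^ (N - 2) with hep
  have hep0 : 0 < ep := pow_pos (by linarith) _
  have hep1 : ep ≤ 1 := pow_le_one₀ (by linarith) (by linarith)
  refine ⟨ep / 2, by positivity, fun κ G hκ hG h => ?_⟩
  set m : ℝ := min (δ / 2) (ep / 2) with hm
  have hm0 : 0 < m := lt_min (by positivity) (by positivity)
  obtain ⟨i0, hi0⟩ := exists_nat_gt (1 / m)
  -- radii and errors
  set s : ℕ → ℝ := fun i => 1 / ((i : ℝ) + i0 + 2) with hs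
  have hspos : ∀ i, 0 < s i := fun i => by rw [hs]; positivity
  have hs2 : ∀ i, s i ≤ 1 / 2 := fun i => by
    rw [hs]
    apply one_div_le_one_div_of_le (by norm_num)
    have : (0 : ℝ) ≤ (i : ℝ) + i0 := by positivity
    linarith
  have hsm : ∀ i, s i < m := fun i => by
    rw [hs]
    simp only
    rw [div_lt_iff₀ (by positivity)]
    rw [div_lt_iff₀ hm0] at hi0
    have : (0 : ℝ) ≤ (i : ℝ) := by positivity
    nlinarith
  have hst : Tendsto s atTop (𝓝 0) := by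
    have h1 : Tendsto (fun i : ℕ => (i : ℝ) + (i0 + 2)) atTop atTop :=
      tendsto_atTop_add_const_right _ _ tendsto_natCast_atTop_atTop
    have h2 := h1.inv_tendsto_atTop
    refine h2.congr fun i => ?_
    simp only [hs, Pi.inv_apply, one_div, add_assoc]
  have hk : ∀ j, Bla.Sch (toD (κ j)) := fun j => toD_Sch (hκ j)
  have hg : Bla.Sch (toD G) := toD_Sch hG
  have hr0 : ∀ i, 0 ≤ 1 - s i := fun i => by linarith [hs2 i]
  have hr1 : ∀ i, 1 - s i < 1 := fun i => by linarith [hspos i]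
  choose K hK1 hK2 using fun (i : ℕ) (j : Fin n) =>
    poly_approx_one (hk j).1 (hk j).2 (hr0 i) (hr1 i) (hspos i)
  choose Gp hG1 hG2 using fun (i : ℕ) =>
    poly_approx_one hg.1 hg.2 (hr0 i) (hr1 i) (hspos i)
  have hkey : ∀ i, ∀ z ∈ closedBall (0 : ℂ) 1,
      ‖(Gp i).eval z‖ * (1 - (∑ j, ‖(K i j).eval z‖ ^ 2) / n) ^ (N - 2) ≤ ep := by
    intro i z hz
    set t : ℝ := (∑ j, ‖(K i j).eval z‖ ^ 2) / n with ht
    have ht0 : 0 ≤ t := by rw [ht]; positivity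
    have ht1 : t ≤ 1 := by
      rw [ht, div_le_one hn']
      calc ∑ j, ‖(K i j).eval z‖ ^ 2 ≤ ∑ _j : Fin n, (1 : ℝ) :=
            Finset.sum_le_sum fun j _ => pow_le_one₀ (norm_nonneg _) (hK1 i j z hz)
        _ = n := by simp
    rcases le_or_gt d t with hdt | hdt
    · calc ‖(Gp i).eval z‖ * (1 - t) ^ (N - 2) ≤ 1 * (1 - d) ^ (N - 2) := by
            apply mul_le_mul (hG1 i z hz) _ (pow_nonneg (by linarith) _) zero_le_one
            exact pow_le_pow_left₀ (by linarith) (by linarith) _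
        _ = ep := one_mul _
    · -- small case
      have hz1 : ‖z‖ ≤ 1 := by simpa using hz
      have hmem : (((1 - s i : ℝ)) : ℂ) * z ∈ ball (0 : ℂ) 1 := by
        rw [mem_ball_zero_iff, norm_mul, Complex.norm_real, Real.norm_of_nonneg (hr0 i)]
        calc (1 - s i) * ‖z‖ ≤ (1 - s i) * 1 := by
              apply mul_le_mul_of_nonneg_left hz1 (hr0 i)
          _ < 1 := by linarith [hspos i]
      obtain ⟨w, hw⟩ := cay_surj (ζ := ((1 - s i : ℝ) : ℂ) * z) (by simpa using hmem)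
      have hkw : ∀ j, ‖κ j w‖ < δ := by
        intro j
        have h1 : ‖(K i j).eval z‖ ^ 2 ≤ ∑ j, ‖(K i j).eval z‖ ^ 2 :=
          Finset.single_le_sum (f := fun j => ‖(K i j).eval z‖ ^ 2)
            (fun _ _ => by positivity) (Finset.mem_univ j)
        have h2 : ∑ j, ‖(K i j).eval z‖ ^ 2 < d * n := by
          rwa [ht, div_lt_iff₀ hn'] at hdt
        have h3 : d * n = (δ / 2) ^ 2 := by rw [hd]; field_simp; ring
        have h4 : ‖(K i j).eval z‖ < δ / 2 := by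
          apply lt_of_pow_lt_pow_left₀ 2 (by positivity)
          linarith
        have h5 := hK2 i j z hz
        rw [← hw, toD_cay] at h5
        have h6 : ‖κ j w‖ ≤ ‖(K i j).eval z‖ + s i := by
          calc ‖κ j w‖ = ‖(K i j).eval z - ((K i j).eval z - κ j w)‖ := by congr 1; ring
            _ ≤ ‖(K i j).eval z‖ + ‖(K i j).eval z - κ j w‖ := norm_sub_le _ _
            _ ≤ _ := by linarith
        have h7 := hsm i
        have h8 : m ≤ δ / 2 := min_le_left _ _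
        linarith
      have hGw := h w hkw
      have h5 := hG2 i z hz
      rw [← hw, toD_cay] at h5
      have h6 : ‖(Gp i).eval z‖ ≤ ep := by
        calc ‖(Gp i).eval z‖ = ‖((Gp i).eval z - G w) + G w‖ := by congr 1; ring
          _ ≤ ‖(Gp i).eval z - G w‖ + ‖G w‖ := norm_add_le _ _
          _ ≤ s i + ep / 2 := add_le_add h5 hGw
          _ ≤ ep := by
            have h7 := hsm i
            have h8 : m ≤ ep / 2 := min_le_right _ _
            linarith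
      calc ‖(Gp i).eval z‖ * (1 - t) ^ (N - 2) ≤ ep * 1 := by
            apply mul_le_mul h6 _ (pow_nonneg (by linarith) _) hep0.le
            exact pow_le_one₀ (by linarith) (by linarith)
        _ = ep := mul_one _
  choose a0 a ha0 ha hb0 hb hsum using fun i =>
    jw_poly hn hN3 (K i) (Gp i) (hK1 i) (hG1 i) hep0.le hep1 (hkey i)
  -- ultralimits
  obtain ⟨A0, -, hA0b, hA0⟩ := exists_UL (Fn := fun i => toH (a0 i))
    (C := 1000 * (n + 1) ^ 3 * N ^ 4 * ep) (fun i => toH_An (ha0 i))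
    (fun i z => hb0 i _ (by simpa using norm_cay z))
  have hex : ∀ j, ∃ F, An F ∧ (∀ z, ‖F z‖ ≤ 1000 * (n + 1) ^ 3 * N ^ 4) ∧
      UL (fun i => toH (a i j)) F := fun j =>
    exists_UL (fun i => toH_An (ha i j)) (fun i z => hb i j _ (by simpa using norm_cay z))
  choose α hα1 hα2 hα3 using hex
  refine ⟨α, fun j => ⟨hα1 j, _, hα2 j⟩, fun z => ?_⟩
  -- pointwise convergence of the polynomials
  have hsh : Tendsto s (hyperfilter ℕ : Filter ℕ) (𝓝 0) := by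
    refine hst.mono_left ?_
    rw [← Nat.cofinite_eq_atTop]; exact hyperfilter_le_cofinite
  have hc : cay z ∈ closedBall (0 : ℂ) 1 := by
    simpa using (norm_cay z).le
  have hcb : cay z ∈ ball (0 : ℂ) 1 := by simpa using norm_cay z
  have hconv : ∀ {f : ℂ → ℂ} (_ : AnalyticOnNhd ℂ f (ball 0 1)) (p : ℕ → Polynomial ℂ)
      (_ : ∀ i, ∀ z ∈ closedBall (0 : ℂ) 1, ‖(p i).eval z - f (((1 - s i : ℝ) : ℂ) * z)‖ ≤ s i),
      Tendsto (fun i => (p i).eval (cay z)) (hyperfilter ℕ : Filter ℕ) (𝓝 (f (cay z))) := by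
    intro f hf p hp
    have h1 : Tendsto (fun i => f (((1 - s i : ℝ) : ℂ) * cay z)) (hyperfilter ℕ : Filter ℕ)
        (𝓝 (f (cay z))) := by
      have hcont : ContinuousAt f (cay z) := (hf _ hcb).continuousAt
      have h2 : Tendsto (fun i => ((1 - s i : ℝ) : ℂ) * cay z) (hyperfilter ℕ : Filter ℕ)
          (𝓝 (cay z)) := by
        have h3 : Tendsto (fun i => ((1 - s i : ℝ) : ℂ)) (hyperfilter ℕ : Filter ℕ)
            (𝓝 ((1 - 0 : ℝ) : ℂ)) :=
          (Complex.continuous_ofReal.tendsto _).comp (hsh.const_sub 1)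
        simpa using h3.mul_const (cay z)
      exact hcont.tendsto.comp h2
    have h4 : Tendsto (fun i => (p i).eval (cay z) - f (((1 - s i : ℝ) : ℂ) * cay z))
        (hyperfilter ℕ : Filter ℕ) (𝓝 0) :=
      squeeze_zero_norm (fun i => hp i _ hc) hsh
    have h5 := h4.add h1
    simpa using h5
  have hGt : Tendsto (fun i => (Gp i).eval (cay z)) (hyperfilter ℕ : Filter ℕ) (𝓝 (G z)) := by
    have := hconv hg.1 Gp hG2
    rwa [toD_cay] at this
  have hKt : ∀ j, Tendsto (fun i => (K i j).eval (cay z)) (hyperfilter ℕ : Filter ℕ)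
      (𝓝 (κ j z)) := fun j => by
    have := hconv (hk j).1 (fun i => K i j) (fun i => hK2 i j)
    rwa [toD_cay] at this
  have hlim : Tendsto (fun i => (Gp i).eval (cay z) ^ 2 -
      ∑ j, (K i j).eval (cay z) * toH (a i j) z) (hyperfilter ℕ : Filter ℕ)
      (𝓝 (G z ^ 2 - ∑ j, κ j z * α j z)) :=
    (hGt.pow 2).sub (tendsto_finsetSum _ fun j _ => (hKt j).mul (hα3 j z))
  have heq : ∀ i, (Gp i).eval (cay z) ^ 2 - ∑ j, (K i j).eval (cay z) * toH (a i j) z =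
      toH (a0 i) z := by
    intro i
    rw [hsum i _ hcb]
    simp only [toH]
    ring
  have hlim2 : Tendsto (fun i => toH (a0 i) z) (hyperfilter ℕ : Filter ℕ)
      (𝓝 (G z ^ 2 - ∑ j, κ j z * α j z)) := hlim.congr heq
  have hfin : G z ^ 2 - ∑ j, κ j z * α j z = A0 z := tendsto_nhds_unique hlim2 (hA0 z)
  rw [hfin]
  calc ‖A0 z‖ ≤ 1000 * (n + 1) ^ 3 * N ^ 4 * ep := hA0b z
    _ ≤ η := hN

end JwE

/-- division theorem (Wolff) -/
theorem jw (n : ℕ) (δ η : ℝ) (hδ : 0 < δ) (hη : 0 < η) : ∃ ε > 0, ∀ (κ : Fin n → ℍ → ℂ)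
    (G : ℍ → ℂ), (∀ j, InU (κ j)) → InU G → (∀ z, (∀ j, ‖κ j z‖ < δ) → ‖G z‖ ≤ ε) →
    ∃ α : Fin n → ℍ → ℂ, (∀ j, InH (α j)) ∧ ∀ z, ‖G z ^ 2 - ∑ j, κ j z * α j z‖ ≤ η := by
  rcases Nat.eq_zero_or_pos n with rfl | hn
  · obtain ⟨ε, hε, h⟩ := JwE.jw_zero η hη
    refine ⟨ε, hε, fun κ G hκ hG h1 => ⟨fun j => j.elim0, fun j => j.elim0, fun z => ?_⟩⟩
    have := h κ G hκ hG (fun w _ => h1 w (fun j => j.elim0)) z
    simpa using this
  · obtain ⟨ε, hε, h⟩ := JwE.jw_pos n hn (min δ 1) η (lt_min hδ one_pos) (min_le_right _ _) hη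
    refine ⟨ε, hε, fun κ G hκ hG h1 => h κ G hκ hG fun z hz => h1 z fun j => ?_⟩
    exact lt_of_lt_of_le (hz j) (min_le_left _ _)

end

end Pool.Agent.Helper65.HP
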