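import Pool.Agent.Helper65.HP.Defs

/-! Module KERA: the kernel `g` (elementary inequalities). -/

set_option autoImplicit false

namespace Pool.Agent.Helper65.HP

open UpperHalfPlane Filter Topology

noncomputable section

namespace KerA

theorem den_pos (z w : ℍ) : 0 < (z.re - w.re) ^ 2 + (z.im + w.im) ^ 2 := by
  have h1 := z.im_pos
  have h2 := w.im_pos
  positivity

end KerA

theorem g_pos (z w : ℍ) : 0 < g z w := by
  have h1 := z.im_pos
  have h2 := w.im_pos
  unfold g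
  exact div_pos (by positivity) (KerA.den_pos z w)

theorem g_le_one (z w : ℍ) : g z w ≤ 1 := by
  unfold g
  rw [div_le_one (KerA.den_pos z w)]
  nlinarith [sq_nonneg (z.re - w.re), sq_nonneg (z.im - w.im)]

theorem g_self (z : ℍ) : g z z = 1 := by
  have h1 := z.im_pos
  unfold g
  rw [div_eq_one_iff_eq (KerA.den_pos z z).ne']
  ring

theorem g_comm (z w : ℍ) : g z w = g w z := by
  unfold g
  congr 1 <;> ring

theorem KerA.key (p q a b c : ℝ) (ha : 0 < a) (hb : 0 < b) (hc : 0 < c) :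
    b ^ 2 * ((p + q) ^ 2 + (a + c) ^ 2) ≤ (p ^ 2 + (a + b) ^ 2) * (q ^ 2 + (b + c) ^ 2) := by
  have h1 : 0 ≤ (p * q - b ^ 2) ^ 2 := sq_nonneg _
  have h2 : 0 ≤ p ^ 2 * ((b + c) ^ 2 - b ^ 2) := by
    apply mul_nonneg (sq_nonneg _)
    nlinarith
  have h3 : 0 ≤ q ^ 2 * ((a + b) ^ 2 - b ^ 2) := by
    apply mul_nonneg (sq_nonneg _)
    nlinarith
  have h4 : b ^ 2 * (a + c) ^ 2 + b ^ 4 ≤ (a + b) ^ 2 * (b + c) ^ 2 := by
    have h5 : (a + b) * (b + c) = b * (a + c) + b ^ 2 + a * c := by ring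
    have h6 : (a + b) ^ 2 * (b + c) ^ 2 = (b * (a + c) + b ^ 2 + a * c) ^ 2 := by
      rw [← h5]; ring
    rw [h6]
    have h7 : 0 < a * c := mul_pos ha hc
    have h8 : 0 < b * (a + c) := by positivity
    have h9 : 0 < b ^ 2 := by positivity
    nlinarith [mul_pos h8 h9, mul_pos h7 h8, mul_pos h7 h9]
  nlinarith

/-- (K1) -/
theorem g_mul_le (z v w : ℍ) : g z v * g v w ≤ 4 * g z w := by
  have h1 := z.im_pos
  have h2 := w.im_pos
  have h3 := v.im_pos
  have d1 := KerA.den_pos z v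
  have d2 := KerA.den_pos v w
  have d3 := KerA.den_pos z w
  have key := KerA.key (z.re - v.re) (v.re - w.re) z.im v.im w.im h1 h3 h2
  have h4 : z.re - v.re + (v.re - w.re) = z.re - w.re := by ring
  rw [h4] at key
  unfold g
  rw [div_mul_div_comm, ← mul_div_assoc, div_le_div_iff₀ (mul_pos d1 d2) d3]
  have h5 : 0 < 16 * z.im * w.im := by positivity
  nlinarith [mul_le_mul_of_nonneg_left key h5.le]

/-- (K2) -/
theorem g_near {z z' : ℍ} {a : ℝ} (ha : 0 < a) (h : a ≤ g z z') (w : ℍ) :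
    g z w ≤ 4 / a * g z' w := by
  have h1 := g_mul_le z' z w
  rw [g_comm z' z] at h1
  have h2 := mul_le_mul_of_nonneg_right h (g_pos z w).le
  rw [div_mul_eq_mul_div, le_div_iff₀ ha]
  nlinarith

/-- (K4) points outside the window of size `R` -/
theorem g_far {R : ℝ} {z z' w : ℍ} (hR : 1 ≤ R) (h : R * z.im ≤ |z.re - w.re| + w.im)
    (h1 : z'.re = z.re) (h2 : z'.im = R * z.im) : g z w ≤ 8 / R * g z' w := by
  have hz := z.im_pos
  have hw := w.im_pos
  have hR0 : 0 < R := by linarith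
  have hD : 0 < (z.re - w.re) ^ 2 + (R * z.im + w.im) ^ 2 := by positivity
  have key : (z.re - w.re) ^ 2 + (R * z.im + w.im) ^ 2 ≤
      8 * ((z.re - w.re) ^ 2 + (z.im + w.im) ^ 2) := by
    have h3 : (R * z.im) ^ 2 ≤ (|z.re - w.re| + w.im) ^ 2 :=
      pow_le_pow_left₀ (by positivity) h 2
    have h4 : (|z.re - w.re| + w.im) ^ 2 ≤ 2 * (z.re - w.re) ^ 2 + 2 * w.im ^ 2 := by
      have := sq_abs (z.re - w.re)
      nlinarith [sq_nonneg (|z.re - w.re| - w.im)]
    nlinarith [sq_nonneg (R * z.im - w.im), mul_pos hz hw, sq_nonneg (z.re - w.re)]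
  have e : 8 / R * g z' w =
      32 * z.im * w.im / ((z.re - w.re) ^ 2 + (R * z.im + w.im) ^ 2) := by
    unfold g
    rw [h1, h2]
    field_simp
    ring
  rw [e]
  unfold g
  rw [div_le_div_iff₀ (KerA.den_pos z w) hD]
  have h5 : 0 < 4 * z.im * w.im := by positivity
  nlinarith [mul_le_mul_of_nonneg_left key h5.le]

/-- (K5) points inside the window of size `R` -/
theorem g_in {R : ℝ} {z w : ℍ} (hR : 1 ≤ R) (h1 : |z.re - w.re| ≤ R * z.im)
    (h2 : w.im ≤ R * z.im) : 4 / 5 * (w.im / z.im) / R ^ 2 ≤ g z w := by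
  have hz := z.im_pos
  have hw := w.im_pos
  have hR0 : 0 < R := by linarith
  have h3 : (z.re - w.re) ^ 2 ≤ (R * z.im) ^ 2 := by
    rw [← sq_abs (z.re - w.re)]
    exact pow_le_pow_left₀ (abs_nonneg _) h1 2
  have h4 : (z.im + w.im) ^ 2 ≤ 4 * (R * z.im) ^ 2 := by
    have h5 : z.im + w.im ≤ 2 * (R * z.im) := by nlinarith
    have := pow_le_pow_left₀ (by positivity) h5 2
    nlinarith
  have e : 4 / 5 * (w.im / z.im) / R ^ 2 = 4 * z.im * w.im / (5 * (R * z.im) ^ 2) := by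
    field_simp
  rw [e]
  unfold g
  rw [div_le_div_iff₀ (by positivity) (KerA.den_pos z w)]
  have h5 : 0 < 4 * z.im * w.im := by positivity
  apply mul_le_mul_of_nonneg_left _ h5.le
  nlinarith

/-- vertical translation upwards -/
theorem g_up {R : ℝ} {z z' : ℍ} (hR : 1 ≤ R) (h1 : z'.re = z.re) (h2 : z'.im = R * z.im) :
    1 / R ≤ g z' z := by
  have hz := z.im_pos
  have hR0 : 0 < R := by linarith
  have e : g z' z = 4 * R / (R + 1) ^ 2 := by
    unfold g
    rw [h1, h2, sub_self]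
    have : (0 : ℝ) ^ 2 + (R * z.im + z.im) ^ 2 = (R + 1) ^ 2 * z.im ^ 2 := by ring
    rw [this]
    field_simp
  rw [e, div_le_div_iff₀ hR0 (by positivity)]
  nlinarith

theorem norm_bf_sq (w z : ℍ) : ‖bf w z‖ ^ 2 = 1 - g z w := by
  have h1 := z.im_pos
  have h2 := w.im_pos
  have e1 : ‖(z : ℂ) - (w : ℂ)‖ ^ 2 = (z.re - w.re) ^ 2 + (z.im - w.im) ^ 2 := by
    rw [← Complex.normSq_eq_norm_sq, Complex.normSq_apply]
    simp only [Complex.sub_re, Complex.sub_im, coe_re, coe_im]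
    ring
  have e2 : ‖(z : ℂ) - starRingEnd ℂ (w : ℂ)‖ ^ 2 = (z.re - w.re) ^ 2 + (z.im + w.im) ^ 2 := by
    rw [← Complex.normSq_eq_norm_sq, Complex.normSq_apply]
    simp only [Complex.sub_re, Complex.sub_im, coe_re, coe_im, Complex.conj_re, Complex.conj_im]
    ring
  unfold bf g
  rw [norm_div, div_pow, e1, e2, eq_sub_iff_add_eq, ← add_div,
    div_eq_one_iff_eq (KerA.den_pos z w).ne']
  ring

theorem continuous_g (w : ℍ) : Continuous fun z : ℍ => g z w := by
  unfold g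
  refine Continuous.div ?_ ?_ fun z => (KerA.den_pos z w).ne'
  · exact (continuous_const.mul continuous_im).mul continuous_const
  · exact ((continuous_re.sub continuous_const).pow 2).add
      ((continuous_im.add continuous_const).pow 2)

theorem continuous_g' (z : ℍ) : Continuous fun w : ℍ => g z w := by
  have : (fun w : ℍ => g z w) = fun w => g w z := by
    funext w; exact g_comm z w
  rw [this]
  exact continuous_g z

/-- the discs are compact -/
theorem isCompact_g (w : ℍ) {ε : ℝ} (hε : 0 < ε) : IsCompact {z : ℍ | ε ≤ g z w} := by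
  have hw := w.im_pos
  let K : Set ℂ := Set.Icc (w.re - 4 * w.im / ε) (w.re + 4 * w.im / ε) ×ℂ
    Set.Icc (ε * w.im / 4) (4 * w.im / ε)
  have hK : IsCompact K := isCompact_Icc.reProdIm isCompact_Icc
  have hsub : K ⊆ Set.range ((↑) : ℍ → ℂ) := by
    intro c hc
    have hc' : 0 < c.im := by
      have h1 : ε * w.im / 4 ≤ c.im := (Complex.mem_reProdIm.1 hc).2.1
      have : 0 < ε * w.im / 4 := by positivity
      linarith
    exact ⟨⟨c, hc'⟩, rfl⟩
  have hcomp : IsCompact (((↑) : ℍ → ℂ) ⁻¹' K) :=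
    (isEmbedding_coe.isInducing.isCompact_preimage_iff hsub).2 hK
  refine hcomp.of_isClosed_subset (isClosed_le continuous_const (continuous_g w)) ?_
  intro z hz
  have hz' : ε ≤ g z w := hz
  have hz0 := z.im_pos
  have hD := KerA.den_pos z w
  have h1 : ε * ((z.re - w.re) ^ 2 + (z.im + w.im) ^ 2) ≤ 4 * z.im * w.im := by
    unfold g at hz'
    rwa [le_div_iff₀ hD] at hz'
  have h2 : ε * w.im ≤ 4 * z.im := by
    have h3 : ε * (w.im * w.im) ≤ 4 * z.im * w.im := by
      refine le_trans ?_ h1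
      apply mul_le_mul_of_nonneg_left _ hε.le
      nlinarith [sq_nonneg (z.re - w.re), mul_pos hz0 hw]
    nlinarith
  have h4 : ε * z.im ≤ 4 * w.im := by
    have h3 : ε * (z.im * z.im) ≤ 4 * z.im * w.im := by
      refine le_trans ?_ h1
      apply mul_le_mul_of_nonneg_left _ hε.le
      nlinarith [sq_nonneg (z.re - w.re), mul_pos hz0 hw]
    nlinarith
  have h5 : (ε * |z.re - w.re|) ^ 2 ≤ (4 * w.im) ^ 2 := by
    have h6 : ε * (z.re - w.re) ^ 2 ≤ 4 * z.im * w.im := by
      refine le_trans ?_ h1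
      apply mul_le_mul_of_nonneg_left _ hε.le
      nlinarith [sq_nonneg (z.im + w.im)]
    rw [mul_pow, sq_abs]
    nlinarith [mul_le_mul_of_nonneg_left h6 hε.le]
  have h6 : ε * |z.re - w.re| ≤ 4 * w.im := le_of_sq_le_sq h5 (by positivity) |> fun h => h
  have h7 : |z.re - w.re| ≤ 4 * w.im / ε := by rw [le_div_iff₀ hε]; linarith
  show (z : ℂ) ∈ K
  rw [Complex.mem_reProdIm, coe_re, coe_im]
  rw [abs_le] at h7
  refine ⟨⟨by linarith [h7.1], by linarith [h7.2]⟩, ?_, ?_⟩
  · rw [div_le_iff₀ (by norm_num)]; linarith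
  · rw [le_div_iff₀ hε]; linarith

end

end Pool.Agent.Helper65.HP
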