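import Pool.Agent.Helper65.HP.KerA

/-! Module KERB: API for `An`, `InU`, `InH`. -/

set_option autoImplicit false

namespace Pool.Agent.Helper65.HP

open UpperHalfPlane Filter Topology

noncomputable section

theorem An.const (c : ℂ) : An fun _ => c := by
  unfold An
  exact differentiableOn_const c

theorem An.add {F G : ℍ → ℂ} (hF : An F) (hG : An G) : An fun z => F z + G z := by
  unfold An at *
  exact DifferentiableOn.fun_add hF hG

theorem An.sub {F G : ℍ → ℂ} (hF : An F) (hG : An G) : An fun z => F z - G z := by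
  unfold An at *
  exact DifferentiableOn.fun_sub hF hG

theorem An.mul {F G : ℍ → ℂ} (hF : An F) (hG : An G) : An fun z => F z * G z := by
  unfold An at *
  exact DifferentiableOn.fun_mul hF hG

theorem An.pow {F : ℍ → ℂ} (hF : An F) (k : ℕ) : An fun z => F z ^ k := by
  unfold An at *
  exact DifferentiableOn.fun_pow hF k

theorem An.sum {ι : Type} (s : Finset ι) {F : ι → ℍ → ℂ} (hF : ∀ i ∈ s, An (F i)) :
    An fun z => ∑ i ∈ s, F i z := by
  classical
  induction s using Finset.induction_on with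
  | empty => simpa using An.const 0
  | insert a s ha ih =>
    have h1 : An (F a) := hF a (Finset.mem_insert_self a s)
    have h2 : An fun z => ∑ i ∈ s, F i z := ih fun i hi => hF i (Finset.mem_insert_of_mem hi)
    have h3 : (fun z => ∑ i ∈ insert a s, F i z) = fun z => F a z + ∑ i ∈ s, F i z := by
      funext z
      rw [Finset.sum_insert ha]
    rw [h3]
    exact An.add h1 h2

theorem An.prod {ι : Type} (s : Finset ι) {F : ι → ℍ → ℂ} (hF : ∀ i ∈ s, An (F i)) :
    An fun z => ∏ i ∈ s, F i z := by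
  classical
  induction s using Finset.induction_on with
  | empty => simpa using An.const 1
  | insert a s ha ih =>
    have h1 : An (F a) := hF a (Finset.mem_insert_self a s)
    have h2 : An fun z => ∏ i ∈ s, F i z := ih fun i hi => hF i (Finset.mem_insert_of_mem hi)
    have h3 : (fun z => ∏ i ∈ insert a s, F i z) = fun z => F a z * ∏ i ∈ s, F i z := by
      funext z
      rw [Finset.prod_insert ha]
    rw [h3]
    exact An.mul h1 h2

theorem An.inv {F : ℍ → ℂ} (hF : An F) (h : ∀ z, F z ≠ 0) : An fun z => (F z)⁻¹ := by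
  unfold An at *
  exact DifferentiableOn.fun_inv hF fun z _ => h _

theorem An.continuous {F : ℍ → ℂ} (hF : An F) : Continuous F := by
  unfold An at hF
  have h1 : ContinuousOn (fun z : ℂ => F (ofComplex z)) {z : ℂ | 0 < z.im} := hF.continuousOn
  have h2 : Continuous fun z : ℍ => (fun z : ℂ => F (ofComplex z)) (z : ℂ) :=
    h1.comp_continuous UpperHalfPlane.continuous_coe fun z => z.im_pos
  refine h2.congr fun z => ?_
  simp [ofComplex_apply]

/-- identity theorem: a function vanishing on a disc vanishes -/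
theorem An.eq_zero {F : ℍ → ℂ} (hF : An F) (z : ℍ) (h : ∀ ζ, 3 / 4 ≤ g z ζ → F ζ = 0) :
    ∀ ζ, F ζ = 0 := by
  have hopen : IsOpen {z : ℂ | 0 < z.im} := isOpen_lt continuous_const Complex.continuous_im
  have han : AnalyticOnNhd ℂ (fun z : ℂ => F (ofComplex z)) {z : ℂ | 0 < z.im} :=
    DifferentiableOn.analyticOnNhd hF hopen
  have hpre : IsPreconnected {z : ℂ | 0 < z.im} := (convex_halfSpace_im_gt 0).isPreconnected
  have hev : ∀ᶠ ζ : ℍ in 𝓝 z, F ζ = 0 := by
    have h1 : ∀ᶠ ζ : ℍ in 𝓝 z, 3 / 4 < g z ζ := by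
      have h2 := (continuous_g' z).continuousAt (x := z)
      refine h2.eventually (lt_mem_nhds ?_)
      change 3 / 4 < g z z
      rw [g_self]
      norm_num
    exact h1.mono fun ζ hζ => h ζ hζ.le
  have hev2 : (fun z : ℂ => F (ofComplex z)) =ᶠ[𝓝 (z : ℂ)] 0 := by
    have h3 : Filter.map (fun w : ℍ => (w : ℂ)) (𝓝 z) = 𝓝 (z : ℂ) :=
      UpperHalfPlane.isOpenEmbedding_coe.map_nhds_eq z
    rw [← h3]
    change ∀ᶠ x in Filter.map (fun w : ℍ => (w : ℂ)) (𝓝 z), F (ofComplex x) = 0
    rw [Filter.eventually_map]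
    refine hev.mono fun ζ hζ => ?_
    rw [ofComplex_apply]
    exact hζ
  have hall := han.eqOn_zero_of_preconnected_of_eventuallyEq_zero hpre z.im_pos hev2
  intro ζ
  have h4 := hall ζ.im_pos
  simpa [ofComplex_apply] using h4

theorem InU.inH {F : ℍ → ℂ} (hF : InU F) : InH F := ⟨hF.1, 1, hF.2⟩

theorem InU.one : InU fun _ => (1 : ℂ) := ⟨An.const 1, fun _ => by simp⟩

theorem InU.mul {F G : ℍ → ℂ} (hF : InU F) (hG : InU G) : InU fun z => F z * G z := by
  refine ⟨An.mul hF.1 hG.1, fun z => ?_⟩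
  rw [norm_mul]
  exact mul_le_one₀ (hF.2 z) (norm_nonneg _) (hG.2 z)

theorem InU.pow {F : ℍ → ℂ} (hF : InU F) (k : ℕ) : InU fun z => F z ^ k := by
  refine ⟨An.pow hF.1 k, fun z => ?_⟩
  rw [norm_pow]
  exact pow_le_one₀ (norm_nonneg _) (hF.2 z)

theorem InU.prod {ι : Type} (s : Finset ι) {F : ι → ℍ → ℂ} (hF : ∀ i ∈ s, InU (F i)) :
    InU fun z => ∏ i ∈ s, F i z := by
  refine ⟨An.prod s fun i hi => (hF i hi).1, fun z => ?_⟩
  rw [norm_prod]
  exact Finset.prod_le_one (fun i _ => norm_nonneg _) fun i hi => (hF i hi).2 z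

theorem InH.const (c : ℂ) : InH fun _ => c := ⟨An.const c, ‖c‖, fun _ => le_rfl⟩

theorem InH.add {F G : ℍ → ℂ} (hF : InH F) (hG : InH G) : InH fun z => F z + G z := by
  obtain ⟨h1, C1, hC1⟩ := hF
  obtain ⟨h2, C2, hC2⟩ := hG
  exact ⟨An.add h1 h2, C1 + C2, fun z => (norm_add_le _ _).trans (add_le_add (hC1 z) (hC2 z))⟩

theorem InH.sub {F G : ℍ → ℂ} (hF : InH F) (hG : InH G) : InH fun z => F z - G z := by
  obtain ⟨h1, C1, hC1⟩ := hF
  obtain ⟨h2, C2, hC2⟩ := hG
  exact ⟨An.sub h1 h2, C1 + C2, fun z => (norm_sub_le _ _).trans (add_le_add (hC1 z) (hC2 z))⟩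

theorem InH.mul {F G : ℍ → ℂ} (hF : InH F) (hG : InH G) : InH fun z => F z * G z := by
  obtain ⟨h1, C1, hC1⟩ := hF
  obtain ⟨h2, C2, hC2⟩ := hG
  refine ⟨An.mul h1 h2, C1 * C2, fun z => ?_⟩
  rw [norm_mul]
  exact mul_le_mul (hC1 z) (hC2 z) (norm_nonneg _) ((norm_nonneg _).trans (hC1 z))

theorem InH.sum {ι : Type} (s : Finset ι) {F : ι → ℍ → ℂ} (hF : ∀ i ∈ s, InH (F i)) :
    InH fun z => ∑ i ∈ s, F i z := by
  classical
  induction s using Finset.induction_on with
  | empty => simpa using InH.const 0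
  | insert a s ha ih =>
    have h1 : InH (F a) := hF a (Finset.mem_insert_self a s)
    have h2 : InH fun z => ∑ i ∈ s, F i z := ih fun i hi => hF i (Finset.mem_insert_of_mem hi)
    have h3 : (fun z => ∑ i ∈ insert a s, F i z) = fun z => F a z + ∑ i ∈ s, F i z := by
      funext z
      rw [Finset.sum_insert ha]
    rw [h3]
    exact InH.add h1 h2

/-- a bounded function is a constant multiple of a function in the unit ball -/
theorem InH.scale {F : ℍ → ℂ} (hF : InH F) :
    ∃ C : ℝ, 1 ≤ C ∧ InU fun z => ((1 / C : ℝ) : ℂ) * F z := by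
  obtain ⟨h1, C1, hC1⟩ := hF
  have hpos : (0 : ℝ) < max C1 1 := lt_of_lt_of_le one_pos (le_max_right _ _)
  refine ⟨max C1 1, le_max_right _ _, An.mul (An.const _) h1, fun z => ?_⟩
  rw [norm_mul, Complex.norm_real, Real.norm_eq_abs, abs_of_pos (by positivity), one_div,
    inv_mul_le_iff₀ hpos, mul_one]
  exact (hC1 z).trans (le_max_left _ _)

theorem InH.inv {F : ℍ → ℂ} (hF : InH F) {c : ℝ} (hc : 0 < c) (h : ∀ z, c ≤ ‖F z‖) :
    InH fun z => (F z)⁻¹ := by
  refine ⟨An.inv hF.1 fun z hz => ?_, c⁻¹, fun z => ?_⟩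
  · have := h z
    rw [hz, norm_zero] at this
    linarith
  · rw [norm_inv]
    exact inv_anti₀ hc (h z)

/-- the inverse Cayley transform based at `w` maps the disc to the upper half plane -/
theorem cayInv_im_pos (w : ℍ) {ζ : ℂ} (hζ : ‖ζ‖ < 1) :
    0 < (((w : ℂ) - starRingEnd ℂ (w : ℂ) * ζ) / (1 - ζ)).im := by
  have hne : (1 : ℂ) - ζ ≠ 0 := by
    intro h0
    have h1 : ζ = 1 := by linear_combination -h0
    rw [h1, norm_one] at hζ
    exact lt_irrefl _ hζ
  have hns : 0 < Complex.normSq (1 - ζ) := Complex.normSq_pos.mpr hne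
  have hz2 : ζ.re ^ 2 + ζ.im ^ 2 < 1 := by
    have h1 : ‖ζ‖ ^ 2 < 1 := by
      have := norm_nonneg ζ
      nlinarith
    rw [Complex.sq_norm, Complex.normSq_apply] at h1
    nlinarith
  have hw : 0 < (w : ℂ).im := w.im_pos
  have key : (((w : ℂ) - starRingEnd ℂ (w : ℂ) * ζ) / (1 - ζ)).im
      = (w : ℂ).im * (1 - (ζ.re ^ 2 + ζ.im ^ 2)) / Complex.normSq (1 - ζ) := by
    rw [Complex.div_im]
    simp only [Complex.sub_im, Complex.sub_re, Complex.mul_im, Complex.mul_re, Complex.conj_re,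
      Complex.conj_im, Complex.one_re, Complex.one_im]
    field_simp
    ring
  rw [key]
  exact div_pos (mul_pos hw (by linarith)) hns

/-- Lipschitz estimate -/
theorem InU.lip {F : ℍ → ℂ} (hF : InU F) (z w : ℍ) :
    ‖F z - F w‖ ≤ 2 * Real.sqrt (1 - g z w) := by
  set T : ℂ → ℂ := fun ζ => ((w : ℂ) - starRingEnd ℂ (w : ℂ) * ζ) / (1 - ζ) with hT
  set H : ℂ → ℂ := fun ζ => F (ofComplex (T ζ)) with hH
  have hTd : DifferentiableOn ℂ T (Metric.ball 0 1) := by
    intro ζ hζ
    rw [Metric.mem_ball, dist_zero_right] at hζ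
    have hne : (1 : ℂ) - ζ ≠ 0 := by
      intro h0
      have h1 : ζ = 1 := by linear_combination -h0
      rw [h1, norm_one] at hζ
      exact lt_irrefl _ hζ
    refine DifferentiableAt.differentiableWithinAt ?_
    refine DifferentiableAt.fun_div ?_ ?_ hne
    · exact (differentiableAt_const _).sub ((differentiableAt_const _).mul differentiableAt_id)
    · exact (differentiableAt_const _).sub differentiableAt_id
  have hTm : Set.MapsTo T (Metric.ball 0 1) {z : ℂ | 0 < z.im} := by
    intro ζ hζ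
    rw [Metric.mem_ball, dist_zero_right] at hζ
    exact cayInv_im_pos w hζ
  have hFd : DifferentiableOn ℂ (fun z : ℂ => F (ofComplex z)) {z : ℂ | 0 < z.im} := hF.1
  have hHd : DifferentiableOn ℂ H (Metric.ball 0 1) :=
    DifferentiableOn.comp (g := fun z : ℂ => F (ofComplex z)) hFd hTd hTm
  have hb : (z : ℂ) - starRingEnd ℂ (w : ℂ) ≠ 0 := by
    intro h0
    have h1 := congrArg Complex.im h0
    simp only [Complex.sub_im, Complex.conj_im, Complex.zero_im] at h1
    have h2 : 0 < (z : ℂ).im := z.im_pos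
    have h3 : 0 < (w : ℂ).im := w.im_pos
    linarith
  have hw0 : (w : ℂ) - starRingEnd ℂ (w : ℂ) ≠ 0 := by
    intro h0
    have h1 := congrArg Complex.im h0
    simp only [Complex.sub_im, Complex.conj_im, Complex.zero_im] at h1
    have h3 : 0 < (w : ℂ).im := w.im_pos
    linarith
  have hnorm : ‖bf w z‖ = Real.sqrt (1 - g z w) := by
    rw [← norm_bf_sq, Real.sqrt_sq (norm_nonneg _)]
  have hlt : ‖bf w z‖ < 1 := by
    have h1 : ‖bf w z‖ ^ 2 < 1 := by
      rw [norm_bf_sq]
      linarith [g_pos z w]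
    have h2 := norm_nonneg (bf w z)
    nlinarith
  have hTb : T (bf w z) = (z : ℂ) := by
    have hden : (1 : ℂ) - bf w z ≠ 0 := by
      intro h0
      have h1 : bf w z = 1 := by linear_combination -h0
      rw [h1, norm_one] at hlt
      exact lt_irrefl _ hlt
    change ((w : ℂ) - starRingEnd ℂ (w : ℂ) * bf w z) / (1 - bf w z) = z
    rw [div_eq_iff hden]
    unfold bf
    field_simp
    ring
  have hT0 : T 0 = (w : ℂ) := by
    simp [hT]
  have hHb : H (bf w z) = F z := by
    change F (ofComplex (T (bf w z))) = F z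
    rw [hTb, ofComplex_apply]
  have hH0 : H 0 = F w := by
    change F (ofComplex (T 0)) = F w
    rw [hT0, ofComplex_apply]
  have hmaps : Set.MapsTo H (Metric.ball 0 1) (Metric.closedBall (H 0) 2) := by
    intro ζ _
    rw [Metric.mem_closedBall, dist_eq_norm]
    have h1 : ‖H ζ‖ ≤ 1 := hF.2 _
    have h2 : ‖H 0‖ ≤ 1 := hF.2 _
    have h3 := norm_sub_le (H ζ) (H 0)
    linarith
  have hz : bf w z ∈ Metric.ball (0 : ℂ) 1 := by
    rw [Metric.mem_ball, dist_zero_right]
    exact hlt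
  have h4 := Complex.dist_le_div_mul_dist_of_mapsTo_ball hHd hmaps hz
  rw [dist_eq_norm, dist_zero_right, hHb, hH0, div_one] at h4
  rw [← hnorm]
  exact h4

end

end Pool.Agent.Helper65.HP
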