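import Pool.Agent.Helper65.HP.KerB

/-! Module KERC: API for `pot`, `Bl` and families of squares. -/

set_option autoImplicit false

namespace Pool.Agent.Helper65.HP

open UpperHalfPlane Filter Topology

noncomputable section

theorem bf_InU (w : ℍ) : InU (bf w) := by
  constructor
  · unfold An
    have h : ∀ z ∈ {z : ℂ | 0 < z.im}, bf w (ofComplex z) =
        (z - (w : ℂ)) / (z - starRingEnd ℂ (w : ℂ)) := by
      intro z hz
      unfold bf
      rw [ofComplex_apply_of_im_pos hz]
    refine DifferentiableOn.congr ?_ h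
    refine DifferentiableOn.div (by fun_prop) (by fun_prop) ?_
    intro z hz h0
    have h1 : (z - starRingEnd ℂ (w : ℂ)).im = 0 := by rw [h0]; rfl
    rw [Complex.sub_im, Complex.conj_im, coe_im] at h1
    have h2 := w.im_pos
    have h3 : 0 < z.im := hz
    linarith
  · intro z
    have h1 := norm_bf_sq w z
    have h2 := g_pos z w
    have h3 := norm_nonneg (bf w z)
    nlinarith

theorem Bl_zero (z : ℍ) : Bl 0 z = 1 := by
  simp [Bl]

theorem Bl_add (W V : Multiset ℍ) (z : ℍ) : Bl (W + V) z = Bl W z * Bl V z := by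
  simp [Bl]

theorem KerC.Bl_cons (w : ℍ) (W : Multiset ℍ) (z : ℍ) : Bl (w ::ₘ W) z = bf w z * Bl W z := by
  simp [Bl]

theorem KerC.pot_cons (w : ℍ) (W : Multiset ℍ) (z : ℍ) : pot (w ::ₘ W) z = g z w + pot W z := by
  simp [pot]

theorem Bl_InU (W : Multiset ℍ) : InU (Bl W) := by
  induction W using Multiset.induction_on with
  | empty =>
    constructor
    · unfold An
      simp only [Bl_zero]
      exact differentiableOn_const _
    · intro z
      rw [Bl_zero]
      simp
  | cons w W ih =>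
    obtain ⟨h1, h2⟩ := bf_InU w
    constructor
    · unfold An at *
      simp only [KerC.Bl_cons]
      exact h1.mul ih.1
    · intro z
      rw [KerC.Bl_cons, norm_mul]
      exact mul_le_one₀ (h2 z) (norm_nonneg _) (ih.2 z)

theorem pot_nonneg (W : Multiset ℍ) (z : ℍ) : 0 ≤ pot W z := by
  induction W using Multiset.induction_on with
  | empty => simp [pot]
  | cons w W ih =>
    rw [KerC.pot_cons]
    have := g_pos z w
    linarith

theorem pot_zero (z : ℍ) : pot 0 z = 0 := by simp [pot]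

theorem pot_singleton (w z : ℍ) : pot {w} z = g z w := by simp [pot]

theorem pot_add (W V : Multiset ℍ) (z : ℍ) : pot (W + V) z = pot W z + pot V z := by simp [pot]

theorem pot_mono {W V : Multiset ℍ} (h : W ≤ V) (z : ℍ) : pot W z ≤ pot V z := by
  obtain ⟨U, rfl⟩ := Multiset.le_iff_exists_add.1 h
  rw [pot_add]
  have := pot_nonneg U z
  linarith

theorem Bl_finsum {ι : Type} (s : Finset ι) (W : ι → Multiset ℍ) (z : ℍ) :
    Bl (∑ i ∈ s, W i) z = ∏ i ∈ s, Bl (W i) z := by
  classical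
  induction s using Finset.induction_on with
  | empty => rw [Finset.sum_empty, Finset.prod_empty, Bl_zero]
  | insert a s ha ih => rw [Finset.sum_insert ha, Finset.prod_insert ha, Bl_add, ih]

theorem pot_near {z z' : ℍ} (h : 3 / 4 ≤ g z z') (W : Multiset ℍ) :
    pot W z ≤ 16 / 3 * pot W z' := by
  induction W using Multiset.induction_on with
  | empty => simp [pot]
  | cons w W ih =>
    rw [KerC.pot_cons, KerC.pot_cons]
    have h1 := g_near (by norm_num : (0 : ℝ) < 3 / 4) h w
    have h2 : (4 : ℝ) / (3 / 4) = 16 / 3 := by norm_num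
    rw [h2] at h1
    linarith

/-- (K3) upper bound -/
theorem Bl_le (W : Multiset ℍ) (z : ℍ) : ‖Bl W z‖ ^ 2 ≤ Real.exp (-pot W z) := by
  induction W using Multiset.induction_on with
  | empty => simp [pot, Bl]
  | cons w W ih =>
    rw [KerC.pot_cons, KerC.Bl_cons, norm_mul, mul_pow, norm_bf_sq, neg_add, Real.exp_add]
    apply mul_le_mul _ ih (by positivity) (Real.exp_nonneg _)
    have := Real.add_one_le_exp (-g z w)
    linarith

theorem KerC.one_sub_ge {t K x : ℝ} (ht : 0 < t) (ht1 : t < 1)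
    (hK : -Real.log (1 - t) ≤ K * t) (hx0 : 0 ≤ x) (hx : x ≤ t) :
    Real.exp (-(K * x)) ≤ 1 - x := by
  -- concavity: `1 - x` is a convex combination in the logarithm
  have hconc := strictConcaveOn_log_Ioi.concaveOn.2 (show (1 : ℝ) ∈ Set.Ioi 0 by simp)
    (show (1 - t) ∈ Set.Ioi (0 : ℝ) by simp [ht1]) (show 0 ≤ 1 - x / t by
      rw [sub_nonneg, div_le_one ht]; exact hx) (show 0 ≤ x / t by positivity) (by ring)
  simp only [smul_eq_mul, Real.log_one, mul_zero, zero_add, mul_one] at hconc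
  have e : 1 - x / t + x / t * (1 - t) = 1 - x := by
    field_simp
    ring
  rw [e] at hconc
  have hpos : 0 < 1 - x := by linarith
  rw [← Real.le_log_iff_exp_le hpos]
  have h1 : x / t * -Real.log (1 - t) ≤ x / t * (K * t) :=
    mul_le_mul_of_nonneg_left hK (by positivity)
  have h2 : x / t * (K * t) = K * x := by field_simp
  rw [h2] at h1
  linarith

/-- (K3) lower bound, general radius -/
theorem Bl_ge {W : Multiset ℍ} {z : ℍ} {t K : ℝ} (ht : 0 < t) (ht1 : t < 1)
    (hK : -Real.log (1 - t) ≤ K * t) (h : ∀ w ∈ W, g z w ≤ t) :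
    Real.exp (-(K * pot W z)) ≤ ‖Bl W z‖ ^ 2 := by
  induction W using Multiset.induction_on with
  | empty => simp [pot, Bl]
  | cons w W ih =>
    rw [KerC.pot_cons, KerC.Bl_cons, norm_mul, mul_pow, norm_bf_sq, mul_add, neg_add,
      Real.exp_add]
    have h1 := ih fun v hv => h v (Multiset.mem_cons_of_mem hv)
    have h2 := KerC.one_sub_ge ht ht1 hK (g_pos z w).le (h w (Multiset.mem_cons_self w W))
    exact mul_le_mul h2 h1 (Real.exp_nonneg _) (by
      have := g_le_one z w
      linarith)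

/-- (K3) lower bound -/
theorem Bl_ge34 {W : Multiset ℍ} {z : ℍ} (h : ∀ w ∈ W, g z w ≤ 3 / 4) :
    Real.exp (-(2 * pot W z)) ≤ ‖Bl W z‖ ^ 2 := by
  refine Bl_ge (by norm_num) (by norm_num) ?_ h
  have h1 : (1 : ℝ) - 3 / 4 = (2 ^ 2)⁻¹ := by norm_num
  rw [h1, Real.log_inv, Real.log_pow]
  have := Real.log_two_lt_d9
  push_cast
  linarith

/-! ### families of squares -/

theorem pot_ms (i : Bool) (n : ℕ) (μ : Sq → ℕ) (z : ℍ) : pot (ms i n μ) z = pf i n μ z := by
  unfold pot ms pf
  rw [← Multiset.coe_mapAddMonoidHom, map_sum, ← Multiset.coe_sumAddMonoidHom, map_sum]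
  refine Finset.sum_congr rfl fun J _ => ?_
  rw [map_nsmul, map_nsmul]
  simp

theorem mem_ms {i : Bool} {n : ℕ} {μ : Sq → ℕ} {w : ℍ} (h : w ∈ ms i n μ) :
    ∃ J ∈ all n, μ J ≠ 0 ∧ w = ctr i n J := by
  unfold ms at h
  rw [Multiset.mem_sum] at h
  obtain ⟨J, hJ, h1⟩ := h
  refine ⟨J, hJ, ?_, ?_⟩
  · intro h0
    rw [h0, zero_smul] at h1
    exact Multiset.notMem_zero _ h1
  · have h2 := Multiset.mem_of_mem_nsmul h1
    exact Multiset.mem_singleton.1 h2

theorem ms_add (i : Bool) (n : ℕ) (μ ν : Sq → ℕ) :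
    ms i n (fun J => μ J + ν J) = ms i n μ + ms i n ν := by
  unfold ms
  rw [← Finset.sum_add_distrib]
  refine Finset.sum_congr rfl fun J _ => ?_
  rw [add_smul]

theorem pf_mono {i : Bool} {n : ℕ} {μ ν : Sq → ℕ} (h : ∀ J ∈ all n, μ J ≤ ν J) (z : ℍ) :
    pf i n μ z ≤ pf i n ν z := by
  unfold pf
  refine Finset.sum_le_sum fun J hJ => ?_
  apply mul_le_mul_of_nonneg_right _ (g_pos _ _).le
  exact_mod_cast h J hJ

theorem pf_nonneg (i : Bool) (n : ℕ) (μ : Sq → ℕ) (z : ℍ) : 0 ≤ pf i n μ z := by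
  unfold pf
  refine Finset.sum_nonneg fun J _ => ?_
  exact mul_nonneg (by positivity) (g_pos _ _).le

end

end Pool.Agent.Helper65.HP
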