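import Pool.Agent.Helper65.HP.Sqc

/-! Module MAC: start/stop machines. -/

set_option autoImplicit false

namespace Pool.Agent.Helper65.HP

noncomputable section

/-- start squares of a machine -/
def isSt (sa so : Sq → Prop) (J : Sq) : Prop :=
  mach sa so J.1 J.2 ∧ (J.1 = 0 ∨ ¬ mach sa so (par J).1 (par J).2)

theorem mach_zero (sa so : Sq → Prop) {J : Sq} (h : J.1 = 0) :
    mach sa so J.1 J.2 ↔ sa J := by
  obtain ⟨m, j⟩ := J
  simp only at h
  subst h
  exact Iff.rfl

theorem mach_succ (sa so : Sq → Prop) {J : Sq} (h : 0 < J.1) : mach sa so J.1 J.2 ↔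
    (mach sa so (par J).1 (par J).2 ∧ ¬ so J) ∨ (¬ mach sa so (par J).1 (par J).2 ∧ sa J) := by
  obtain ⟨m, j⟩ := J
  cases m with
  | zero => exact absurd h (lt_irrefl _)
  | succ m => exact Iff.rfl

theorem isSt.start {sa so : Sq → Prop} {J : Sq} (h : isSt sa so J) : sa J := by
  rcases Nat.eq_zero_or_pos J.1 with h0 | h0
  · exact (mach_zero sa so h0).1 h.1
  · have h1 : ¬ mach sa so (par J).1 (par J).2 := by
      rcases h.2 with h2 | h2
      · omega
      · exact h2
    rcases (mach_succ sa so h0).1 h.1 with h3 | h3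
    · exact absurd h3.1 h1
    · exact h3.2

/-- if start squares never satisfy the stop condition, start conditions imply the in-state -/
theorem mach_of_start {sa so : Sq → Prop} (h : ∀ J, sa J → ¬ so J) {J : Sq} (hJ : sa J) :
    mach sa so J.1 J.2 := by
  rcases Nat.eq_zero_or_pos J.1 with h0 | h0
  · exact (mach_zero sa so h0).2 hJ
  · rw [mach_succ sa so h0]
    by_cases h1 : mach sa so (par J).1 (par J).2
    · exact Or.inl ⟨h1, h J hJ⟩
    · exact Or.inr ⟨h1, hJ⟩

namespace Mac

theorem not_both {J I : Sq} (h1 : Below J (I.1 + 1, 2 * I.2))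
    (h2 : Below J (I.1 + 1, 2 * I.2 + 1)) : False := by
  have h3 := h1.chain h2 le_rfl
  have h4 := h3.eq rfl
  have h5 : 2 * I.2 + 1 = 2 * I.2 := congrArg Prod.snd h4
  omega

/-- one child -/
theorem child {n : ℕ} {sa so : Sq → Prop} {I c : Sq} (hI : mach sa so I.1 I.2)
    (hc0 : 0 < c.1) (hp : par c = I) (hcm : c ∈ all n)
    (ih : mach sa so c.1 c.2 → ∃ F ⊆ dn n c, (∀ J ∈ F, ∀ K ∈ F, Below J K → J = K) ∧
      ∑ J ∈ F, len n J = len n c ∧ ∀ J ∈ F, cutm (2 * n) sa so J ∧
        ∀ K, Below J K → Below K c → K ≠ J → mach sa so K.1 K.2) :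
    ∃ F ⊆ dn n c, (∀ J ∈ F, ∀ K ∈ F, Below J K → J = K) ∧
      ∑ J ∈ F, len n J = len n c ∧ ∀ J ∈ F, cutm (2 * n) sa so J ∧
        ∀ K, Below J K → Below K c → K ≠ J → mach sa so K.1 K.2 := by
  by_cases hc : mach sa so c.1 c.2
  · exact ih hc
  · have hso : so c := by
      by_contra hso
      apply hc
      rw [mach_succ sa so hc0, hp]
      exact Or.inl ⟨hI, hso⟩
    refine ⟨{c}, ?_, ?_, ?_, ?_⟩
    · intro J hJ
      rw [Finset.mem_singleton] at hJ
      rw [hJ, mem_dn]
      exact ⟨hcm, below_refl c⟩
    · intro J hJ K hK _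
      rw [Finset.mem_singleton] at hJ hK
      rw [hJ, hK]
    · simp
    · intro J hJ
      rw [Finset.mem_singleton] at hJ
      subst hJ
      refine ⟨Or.inl ⟨hc0, by rw [hp]; exact hI, hso⟩, fun K h1 h2 h3 => ?_⟩
      exact absurd (h2.antisymm h1) h3

end Mac

/-- the first generation of cut squares below an in-state square covers it: there is a family of
disjoint cut squares such that everything between is in-state -/
theorem mach_cover {n : ℕ} {sa so : Sq → Prop} {I : Sq} (hI : I ∈ all n)
    (h : mach sa so I.1 I.2) : ∃ F ⊆ dn n I, (∀ J ∈ F, ∀ K ∈ F, Below J K → J = K) ∧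
      ∑ J ∈ F, len n J = len n I ∧ ∀ J ∈ F, cutm (2 * n) sa so J ∧
        ∀ K, Below J K → Below K I → K ≠ J → mach sa so K.1 K.2 := by
  classical
  revert h
  refine all_induction (n := n) (P := fun I => mach sa so I.1 I.2 → ∃ F ⊆ dn n I,
    (∀ J ∈ F, ∀ K ∈ F, Below J K → J = K) ∧ ∑ J ∈ F, len n J = len n I ∧
      ∀ J ∈ F, cutm (2 * n) sa so J ∧
        ∀ K, Below J K → Below K I → K ≠ J → mach sa so K.1 K.2) ?_ ?_ I hI
  · intro I hI hl hm
    refine ⟨{I}, ?_, ?_, ?_, ?_⟩
    · intro J hJ
      rw [Finset.mem_singleton] at hJ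
      rw [hJ, mem_dn]
      exact ⟨hI, below_refl I⟩
    · intro J hJ K hK _
      rw [Finset.mem_singleton] at hJ hK
      rw [hJ, hK]
    · simp
    · intro J hJ
      rw [Finset.mem_singleton] at hJ
      subst hJ
      refine ⟨Or.inr ⟨hl, hm⟩, fun K h1 h2 h3 => ?_⟩
      exact absurd (h2.antisymm h1) h3
  · intro I hI hl ih1 ih2 hm
    obtain ⟨hc1, hc2⟩ := child_mem hI hl
    obtain ⟨hp1, hp2⟩ := par_child I
    obtain ⟨F1, a1, b1, s1, p1⟩ := Mac.child hm (Nat.succ_pos _) hp1 hc1 ih1
    obtain ⟨F2, a2, b2, s2, p2⟩ := Mac.child hm (Nat.succ_pos _) hp2 hc2 ih2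
    have k1 : Below (I.1 + 1, 2 * I.2) I := by
      have := below_par (J := (I.1 + 1, 2 * I.2)) (Nat.succ_pos _)
      rwa [hp1] at this
    have k2 : Below (I.1 + 1, 2 * I.2 + 1) I := by
      have := below_par (J := (I.1 + 1, 2 * I.2 + 1)) (Nat.succ_pos _)
      rwa [hp2] at this
    have m1 : ∀ J ∈ F1, Below J (I.1 + 1, 2 * I.2) := fun J hJ => (mem_dn.1 (a1 hJ)).2
    have m2 : ∀ J ∈ F2, Below J (I.1 + 1, 2 * I.2 + 1) := fun J hJ => (mem_dn.1 (a2 hJ)).2
    have hdis : Disjoint F1 F2 := by
      rw [Finset.disjoint_left]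
      intro J h1 h2
      exact Mac.not_both (m1 J h1) (m2 J h2)
    refine ⟨F1 ∪ F2, ?_, ?_, ?_, ?_⟩
    · intro J hJ
      rw [Finset.mem_union] at hJ
      rw [mem_dn]
      rcases hJ with hJ | hJ
      · exact ⟨(mem_dn.1 (a1 hJ)).1, (m1 J hJ).trans k1⟩
      · exact ⟨(mem_dn.1 (a2 hJ)).1, (m2 J hJ).trans k2⟩
    · intro J hJ K hK hb
      rw [Finset.mem_union] at hJ hK
      rcases hJ with hJ | hJ <;> rcases hK with hK | hK
      · exact b1 J hJ K hK hb
      · exact (Mac.not_both (m1 J hJ) (hb.trans (m2 K hK))).elim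
      · exact (Mac.not_both (hb.trans (m1 K hK)) (m2 J hJ)).elim
      · exact b2 J hJ K hK hb
    · rw [Finset.sum_union hdis, s1, s2, (len_child n I).1, (len_child n I).2]
      ring
    · intro J hJ
      rw [Finset.mem_union] at hJ
      rcases hJ with hJ | hJ
      · refine ⟨(p1 J hJ).1, fun K h1 h2 h3 => ?_⟩
        by_cases hKI : K = I
        · rw [hKI]; exact hm
        · rcases h2.cases hKI with h4 | h4
          · exact (p1 J hJ).2 K h1 h4 h3
          · exact (Mac.not_both (m1 J hJ) (h1.trans h4)).elim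
      · refine ⟨(p2 J hJ).1, fun K h1 h2 h3 => ?_⟩
        by_cases hKI : K = I
        · rw [hKI]; exact hm
        · rcases h2.cases hKI with h4 | h4
          · exact (Mac.not_both (h1.trans h4) (m2 J hJ)).elim
          · exact (p2 J hJ).2 K h1 h4 h3

/-- between two nested start squares there is an exit square: -/
theorem exists_exit {sa so : Sq → Prop} {S J : Sq} (hS : isSt sa so S)
    (hJ : isSt sa so J) (hb : Below J S) (hne : J ≠ S) :
    ∃ K, Below J K ∧ Below K S ∧ K ≠ S ∧ K ≠ J ∧ mach sa so (par K).1 (par K).2 ∧ so K ∧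
      ∀ L, Below K L → Below L S → L ≠ K → mach sa so L.1 L.2 := by
  classical
  obtain ⟨hJ0, hpS⟩ := hb.par_below hne
  have hpJ : ¬ mach sa so (par J).1 (par J).2 := by
    rcases hJ.2 with h | h
    · omega
    · exact h
  have hex : ∃ m, ∃ K : Sq, K.1 = m ∧ Below J K ∧ Below K S ∧ ¬ mach sa so K.1 K.2 :=
    ⟨_, par J, rfl, below_par hJ0, hpS, hpJ⟩
  obtain ⟨K, k1, k2, k3, k4⟩ := Nat.find_spec hex
  have hmin : ∀ L : Sq, L.1 < K.1 → Below J L → Below L S → mach sa so L.1 L.2 := by
    intro L h1 h2 h3
    by_contra h4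
    rw [k1] at h1
    exact Nat.find_min hex h1 ⟨L, rfl, h2, h3, h4⟩
  have hKS : K ≠ S := by
    intro h
    rw [h] at k4
    exact k4 hS.1
  obtain ⟨hK0, hpK⟩ := k3.par_below hKS
  have hmp : mach sa so (par K).1 (par K).2 := by
    refine hmin (par K) ?_ (k2.trans (below_par hK0)) hpK
    show K.1 - 1 < K.1
    omega
  have hso : so K := by
    by_contra h
    exact k4 ((mach_succ sa so hK0).2 (Or.inl ⟨hmp, h⟩))
  refine ⟨K, k2, k3, hKS, ?_, hmp, hso, fun L h1 h2 h3 => ?_⟩
  · intro h
    rw [h] at k4
    exact k4 hJ.1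
  · refine hmin L ?_ (k2.trans h1) h2
    rcases Nat.lt_or_ge L.1 K.1 with h4 | h4
    · exact h4
    · exfalso
      have h5 : L.1 = K.1 := le_antisymm h1.1 h4
      exact h3 (h1.eq h5).symm

/-- packing for the cut squares from the half property of the start squares -/
theorem cut_pack {n : ℕ} {sa so : Sq → Prop}
    (h : ∀ S ∈ all n, isSt sa so S → ∑ J ∈ nxt n (isSt sa so) S, len n J ≤ len n S / 2) :
    Packed n (cutf (2 * n) sa so) 3 := by
  classical
  have hW := pack_of_half h
  -- the extra term
  let e : Sq → ℝ := fun I => if 0 < I.1 ∧ mach sa so (par I).1 (par I).2 then 1 else 0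
  have he0 : ∀ I, 0 ≤ e I := fun I => by simp only [e]; split_ifs <;> norm_num
  have he1 : ∀ I, e I ≤ 1 := fun I => by simp only [e]; split_ifs <;> norm_num
  have key : ∀ I ∈ all n, ∑ J ∈ dn n I, (cutf (2 * n) sa so J : ℝ) * len n J ≤
      ∑ J ∈ dn n I, (ind (isSt sa so) J : ℝ) * len n J + e I * len n I := by
    apply all_induction
    · intro I hI hl
      rw [dn_last hI hl, Finset.sum_singleton, Finset.sum_singleton]
      have hlen := (len_pos n I).le
      by_cases hc : cutm (2 * n) sa so I
      · have h1 : (cutf (2 * n) sa so I : ℝ) = 1 := by unfold cutf; rw [if_pos hc]; simp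
        rw [h1, one_mul]
        by_cases hp : 0 < I.1 ∧ mach sa so (par I).1 (par I).2
        · have : e I = 1 := by simp only [e]; rw [if_pos hp]
          rw [this, one_mul]
          have : (0 : ℝ) ≤ (ind (isSt sa so) I : ℝ) * len n I := by positivity
          linarith
        · have hm : mach sa so I.1 I.2 := by
            rcases hc with h1 | h1
            · exact absurd ⟨h1.1, h1.2.1⟩ hp
            · exact h1.2
          have hst : isSt sa so I := by
            refine ⟨hm, ?_⟩
            rcases Nat.eq_zero_or_pos I.1 with h0 | h0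
            · exact Or.inl h0
            · exact Or.inr fun h2 => hp ⟨h0, h2⟩
          have : (ind (isSt sa so) I : ℝ) = 1 := by unfold ind; rw [if_pos hst]; simp
          rw [this, one_mul]
          have := mul_nonneg (he0 I) hlen
          linarith
      · have h1 : (cutf (2 * n) sa so I : ℝ) = 0 := by unfold cutf; rw [if_neg hc]; simp
        rw [h1, zero_mul]
        have h2 := mul_nonneg (he0 I) hlen
        have h3 : (0 : ℝ) ≤ (ind (isSt sa so) I : ℝ) * len n I := by positivity
        linarith
    · intro I hI hl ih1 ih2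
      rw [sum_dn hI hl, sum_dn hI hl]
      have hlen := (len_pos n I).le
      obtain ⟨hp1, hp2⟩ := par_child I
      obtain ⟨l1, l2⟩ := len_child n I
      rw [l1] at ih1
      rw [l2] at ih2
      by_cases hm : mach sa so I.1 I.2
      · have e1 := he1 (I.1 + 1, 2 * I.2)
        have e2 := he1 (I.1 + 1, 2 * I.2 + 1)
        have hc0 : (cutf (2 * n) sa so I : ℝ) = 0 := by
          unfold cutf
          rw [if_neg]
          · simp
          · rintro (h1 | h1)
            · rcases (mach_succ sa so h1.1).1 hm with h2 | h2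
              · exact h2.2 h1.2.2
              · exact h2.1 h1.2.1
            · omega
        rw [hc0, zero_mul, zero_add]
        have h5 : len n I ≤ (ind (isSt sa so) I : ℝ) * len n I + e I * len n I := by
          by_cases hst : isSt sa so I
          · have : (ind (isSt sa so) I : ℝ) = 1 := by unfold ind; rw [if_pos hst]; simp
            rw [this, one_mul]
            have := mul_nonneg (he0 I) hlen
            linarith
          · have h0 : 0 < I.1 := by
              rcases Nat.eq_zero_or_pos I.1 with h0 | h0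
              · exact absurd ⟨hm, Or.inl h0⟩ hst
              · exact h0
            have h1 : mach sa so (par I).1 (par I).2 := by
              by_contra h1
              exact hst ⟨hm, Or.inr h1⟩
            have : e I = 1 := by simp only [e]; rw [if_pos ⟨h0, h1⟩]
            rw [this, one_mul]
            have : (0 : ℝ) ≤ (ind (isSt sa so) I : ℝ) * len n I := by positivity
            linarith
        nlinarith
      · have e1 : e (I.1 + 1, 2 * I.2) = 0 := by
          simp only [e]
          rw [if_neg]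
          rintro ⟨-, h1⟩
          rw [hp1] at h1
          exact hm h1
        have e2 : e (I.1 + 1, 2 * I.2 + 1) = 0 := by
          simp only [e]
          rw [if_neg]
          rintro ⟨-, h1⟩
          rw [hp2] at h1
          exact hm h1
        rw [e1, zero_mul, add_zero] at ih1
        rw [e2, zero_mul, add_zero] at ih2
        have h5 : (cutf (2 * n) sa so I : ℝ) * len n I ≤ e I * len n I := by
          by_cases hc : cutm (2 * n) sa so I
          · have h6 : 0 < I.1 ∧ mach sa so (par I).1 (par I).2 := by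
              rcases hc with h1 | h1
              · exact ⟨h1.1, h1.2.1⟩
              · exact absurd h1.2 hm
            have h7 : e I = 1 := by simp only [e]; rw [if_pos h6]
            have h1 : (cutf (2 * n) sa so I : ℝ) = 1 := by unfold cutf; rw [if_pos hc]; simp
            rw [h7, h1]
          · have h1 : (cutf (2 * n) sa so I : ℝ) = 0 := by unfold cutf; rw [if_neg hc]; simp
            rw [h1, zero_mul]
            exact mul_nonneg (he0 I) hlen
        have h3 : (0 : ℝ) ≤ (ind (isSt sa so) I : ℝ) * len n I := by positivity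
        linarith
  intro I hI
  have h1 := key I hI
  have h2 := hW I hI
  have h3 : e I * len n I ≤ len n I := by
    have := mul_le_mul_of_nonneg_right (he1 I) (len_pos n I).le
    linarith
  linarith

end

end Pool.Agent.Helper65.HP
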