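import Pool.Agent.Helper65.HP.JwI

/-! Module NIL: Blaschke products with bounded potentials are not in `I`. -/

set_option autoImplicit false

namespace Pool.Agent.Helper65.HP

open Filter Topology UpperHalfPlane

noncomputable section

namespace Nil

theorem aux {I : Set (ℍ → ℂ)} (hI : CPI I) {C : ℝ} {V : ℕ → Multiset ℍ}
    (hV : ∀ n z, pot (V n) z ≤ C) {H : ℍ → ℂ} (hH : InH H) (hw : ∀ n, ∀ w ∈ V n, 1 / 2 ≤ ‖H w‖)
    {b : ℍ → ℂ} (hbU : InU b) (hb : UL (fun n => Bl (V n)) b) (hbI : b ∈ I) :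
    ∃ α, InH α ∧ (fun z => 1 - H z * α z) ∈ I := by
  obtain ⟨M, hM, hHU⟩ := hH.scale
  have hM0 : 0 < M := by linarith
  set r : ℝ := (1 / (8 * M)) ^ 2 with hr
  have hr0 : 0 < r := by positivity
  have hr1 : r < 1 := by
    have h1 : 1 / (8 * M) ≤ 1 / 8 := by
      apply one_div_le_one_div_of_le <;> linarith
    have h2 : 0 < 1 / (8 * M) := by positivity
    rw [hr]
    nlinarith
  set t : ℝ := 1 - r with ht
  have ht0 : 0 < t := by linarith
  have ht1 : t < 1 := by linarith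
  set K : ℝ := -Real.log (1 - t) / t with hK
  have hKt : -Real.log (1 - t) ≤ K * t := by
    rw [hK, div_mul_cancel₀ _ ht0.ne']
  have hK0 : 0 ≤ K := by
    rw [hK]
    apply div_nonneg _ ht0.le
    have : Real.log (1 - t) ≤ 0 := by
      apply Real.log_nonpos <;> linarith
    linarith
  set δ : ℝ := min (Real.exp (-(K * C / 2))) (1 / (4 * M)) with hδ
  have hδ0 : 0 < δ := lt_min (Real.exp_pos _) (by positivity)
  have key : ∀ z, (∃ j : Fin 1, δ ≤ ‖(fun _ : Fin 1 => b) j z‖) ∨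
      ∃ j : Fin 1, δ ≤ ‖(fun _ : Fin 1 => fun z => ((1 / M : ℝ) : ℂ) * H z) j z‖ := by
    intro z
    by_cases hc : ∀ᶠ n in (hyperfilter ℕ : Filter ℕ), ∀ w ∈ V n, g z w ≤ t
    · left
      refine ⟨0, ?_⟩
      refine le_trans (min_le_left _ _) ?_
      apply hb.le_norm
      filter_upwards [hc] with n hn
      have h1 := Bl_ge ht0 ht1 hKt hn
      have h2 : Real.exp (-(K * C)) ≤ ‖Bl (V n) z‖ ^ 2 := by
        refine le_trans (Real.exp_le_exp.2 ?_) h1
        have := mul_le_mul_of_nonneg_left (hV n z) hK0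
        linarith
      have h3 : Real.exp (-(K * C)) = Real.exp (-(K * C / 2)) ^ 2 := by
        rw [← Real.exp_nat_mul]
        congr 1
        push_cast
        ring
      rw [h3] at h2
      exact (pow_le_pow_iff_left₀ (Real.exp_pos _).le (norm_nonneg _) two_ne_zero).1 h2
    · right
      refine ⟨0, ?_⟩
      refine le_trans (min_le_right _ _) ?_
      rw [Ultrafilter.eventually_not.symm] at hc
      obtain ⟨n, hn⟩ := hc.exists
      push Not at hn
      obtain ⟨w, hwV, hwt⟩ := hn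
      have h1 := hHU.lip z w
      have h2 : Real.sqrt (1 - g z w) ≤ 1 / (8 * M) := by
        rw [Real.sqrt_le_left (by positivity)]
        rw [← hr]
        linarith
      have h3 : ‖((1 / M : ℝ) : ℂ) * H z - ((1 / M : ℝ) : ℂ) * H w‖ = 1 / M * ‖H z - H w‖ := by
        rw [← mul_sub, norm_mul, Complex.norm_real, Real.norm_of_nonneg (by positivity)]
      rw [h3] at h1
      have h4 : ‖H z - H w‖ ≤ 1 / 4 := by
        have h5 : 1 / M * ‖H z - H w‖ ≤ 1 / M * (1 / 4) := by
          calc 1 / M * ‖H z - H w‖ ≤ 2 * Real.sqrt (1 - g z w) := h1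
            _ ≤ 2 * (1 / (8 * M)) := by linarith
            _ = 1 / M * (1 / 4) := by field_simp; norm_num
        exact le_of_mul_le_mul_left h5 (by positivity)
      have h5 : ‖H w‖ ≤ ‖H z‖ + ‖H z - H w‖ := by
        have := norm_sub_le (H z) (H z - H w)
        rw [sub_sub_cancel] at this
        exact this
      have h6 := hw n w hwV
      have h7 : 1 / 4 ≤ ‖H z‖ := by linarith
      show 1 / (4 * M) ≤ ‖((1 / M : ℝ) : ℂ) * H z‖
      rw [norm_mul, Complex.norm_real, Real.norm_of_nonneg (by positivity)]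
      calc 1 / (4 * M) = 1 / M * (1 / 4) := by field_simp
        _ ≤ 1 / M * ‖H z‖ := by
          apply mul_le_mul_of_nonneg_left h7 (by positivity)
  obtain ⟨α, hα, hαI⟩ := corona hI hδ0 (fun _ : Fin 1 => b)
    (fun _ : Fin 1 => fun z => ((1 / M : ℝ) : ℂ) * H z) (fun _ => ⟨hbI, hbU⟩) (fun _ => hHU) key
  refine ⟨fun z => ((1 / M : ℝ) : ℂ) * α 0 z, (InH.const _).mul (hα 0), ?_⟩
  have h1 : (fun z => 1 - ∑ j : Fin 1, ((1 / M : ℝ) : ℂ) * H z * α j z) =
      fun z => 1 - H z * (((1 / M : ℝ) : ℂ) * α 0 z) := by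
    funext z
    rw [Fin.sum_univ_one]
    ring
  rw [← h1]
  exact hαI

end Nil

theorem ni {I : Set (ℍ → ℂ)} (hI : CPI I) (hN : ND I) {C : ℝ} {W : ℕ → Multiset ℍ}
    (hW : ∀ n z, pot (W n) z ≤ C) {b : ℍ → ℂ} (hb : UL (fun n => Bl (W n)) b) : b ∉ I := by
  classical
  intro hbI
  obtain ⟨G, hG, h1, h2⟩ := hN
  set V1 : ℕ → Multiset ℍ := fun n => (W n).filter fun w => 1 / 2 ≤ ‖G w‖ with hV1
  set V2 : ℕ → Multiset ℍ := fun n => (W n).filter fun w => ¬ (1 / 2 ≤ ‖G w‖) with hV2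
  have hsum : ∀ n, V1 n + V2 n = W n := fun n => Multiset.filter_add_not _ _
  obtain ⟨b1, hb1U, hb1⟩ := exists_UL_InU (Fn := fun n => Bl (V1 n)) (fun n => Bl_InU _)
  obtain ⟨b2, hb2U, hb2⟩ := exists_UL_InU (Fn := fun n => Bl (V2 n)) (fun n => Bl_InU _)
  have hbe : b = fun z => b1 z * b2 z := by
    apply hb.unique
    refine (hb1.mul hb2).congr fun z => Eventually.of_forall fun n => ?_
    show Bl (V1 n) z * Bl (V2 n) z = Bl (W n) z
    rw [← Bl_add, hsum]
  rw [hbe] at hbI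
  have hV1C : ∀ n z, pot (V1 n) z ≤ C := fun n z =>
    (pot_mono (Multiset.filter_le _ _) z).trans (hW n z)
  have hV2C : ∀ n z, pot (V2 n) z ≤ C := fun n z =>
    (pot_mono (Multiset.filter_le _ _) z).trans (hW n z)
  rcases hI.prime _ _ hb1U.inH hb2U.inH hbI with h | h
  · obtain ⟨α, hα, hαI⟩ := Nil.aux hI hV1C hG
      (fun n w hw => (Multiset.mem_filter.1 hw).2) hb1U hb1 h
    exact h1 α hα hαI
  · obtain ⟨α, hα, hαI⟩ := Nil.aux hI hV2C (H := fun z => 1 - G z) ((InH.const 1).sub hG)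
      (fun n w hw => by
        have h3 := (Multiset.mem_filter.1 hw).2
        push Not at h3
        have h4 : (1 : ℝ) ≤ ‖1 - G w‖ + ‖G w‖ := by
          have := norm_add_le (1 - G w) (G w)
          rw [sub_add_cancel, norm_one] at this
          exact this
        show 1 / 2 ≤ ‖1 - G w‖
        linarith) hb2U hb2 h
    exact h2 α hα hαI

end

end Pool.Agent.Helper65.HP
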