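import Pool.Agent.Helper65.HP.Stt
import Pool.Agent.Helper65.HP.Mac

/-! Module QMA: the machines `R_M`. -/

set_option autoImplicit false

namespace Pool.Agent.Helper65.HP

open UpperHalfPlane Filter Topology

noncomputable section

variable {s u : ℍ → ℝ}

namespace Qma

theorem excl {i : Bool} {n M : ℕ} (J : Sq) (h : saQ s u i n M J) : ¬ soQ s u i n M J := by
  obtain ⟨⟨S, hS⟩, h1, h2⟩ := h
  rintro (h3 | h3 | h3)
  · rw [hS] at h3
    exact St.noConfusion h3
  · linarith
  · have : (0 : ℝ) ≤ M := Nat.cast_nonneg M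
    linarith

theorem step {i : Bool} {n : ℕ} {J : Sq} {c : Option Sq} (hJ : 0 < J.1)
    (h : sta s u i n (par J) = St.N c) :
    (sta s u i n J = St.O ∧ 2 * u (ctr i n J) + 40 ≤ s (ctr i n J)) ∨ sta s u i n J = St.N c := by
  obtain ⟨m, j⟩ := J
  cases m with
  | zero => exact absurd hJ (lt_irrefl _)
  | succ m =>
    have h' : stt s u i n m (j / 2) = St.N c := h
    have e : sta s u i n (m + 1, j) =
        if 2 * u (ctr i n (m + 1, j)) + 40 ≤ s (ctr i n (m + 1, j)) then St.O else St.N c := by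
      unfold sta
      simp only [stt, h']
    rw [e]
    split_ifs with hc
    · exact Or.inl ⟨rfl, hc⟩
    · exact Or.inr rfl

end Qma

/-- in-state squares -/
theorem Q_in {i : Bool} {n M : ℕ} {J : Sq}
    (h : mach (saQ s u i n M) (soQ s u i n M) J.1 J.2) :
    (∃ S, sta s u i n J = St.N (some S)) ∧ s (ctr i n J) ≤ M + 12 ∧
      4 * (M : ℝ) + 10 ≤ u (ctr i n J) := by
  obtain ⟨m, j⟩ := J
  have hM : (0 : ℝ) ≤ M := Nat.cast_nonneg M
  induction m generalizing j with
  | zero =>
    have h' : saQ s u i n M (0, j) := h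
    obtain ⟨h1, h2, h3⟩ := h'
    exact ⟨h1, by linarith, by linarith⟩
  | succ m ih =>
    have h' : (mach (saQ s u i n M) (soQ s u i n M) m (j / 2) ∧ ¬ soQ s u i n M (m + 1, j)) ∨
      (¬ mach (saQ s u i n M) (soQ s u i n M) m (j / 2) ∧ saQ s u i n M (m + 1, j)) := h
    rcases h' with ⟨h1, h2⟩ | ⟨-, h2⟩
    · obtain ⟨⟨S, hS⟩, -, -⟩ := ih (j / 2) h1
      have h3 : sta s u i n (m + 1, j) ≠ St.O := fun h => h2 (Or.inl h)
      have h4 : s (ctr i n (m + 1, j)) ≤ M + 12 := by
        by_contra hc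
        exact h2 (Or.inr (Or.inl (not_le.1 hc)))
      have h5 : 4 * (M : ℝ) + 10 ≤ u (ctr i n (m + 1, j)) := by
        by_contra hc
        exact h2 (Or.inr (Or.inr (not_le.1 hc)))
      refine ⟨?_, h4, h5⟩
      rcases Qma.step (J := (m + 1, j)) (Nat.succ_pos m) hS with h6 | h6
      · exact absurd h6.1 h3
      · exact ⟨S, h6⟩
    · obtain ⟨h1, h2, h3⟩ := h2
      exact ⟨h1, by linarith, by linarith⟩

theorem Q_packed (hs : Tame s) (hu : Tame u) (i : Bool) (n M : ℕ) :
    Packed n (Qf s u i n M) 3 := by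
  classical
  refine cut_pack fun S hS hst => ?_
  have hM : (0 : ℝ) ≤ M := Nat.cast_nonneg M
  obtain ⟨-, hS1, hS2⟩ := hst.start
  set F := nxt n (isSt (saQ s u i n M) (soQ s u i n M)) S with hF
  have hFd : F ⊆ dn n S := by
    intro J hJ
    rw [hF] at hJ
    exact (Finset.mem_filter.1 hJ).1
  have hFst : ∀ J ∈ F, isSt (saQ s u i n M) (soQ s u i n M) J ∧ J ≠ S := by
    intro J hJ
    rw [hF] at hJ
    have := (Finset.mem_filter.1 hJ).2
    exact ⟨this.1, this.2.1⟩
  have hFdis : ∀ J ∈ F, ∀ K ∈ F, Below J K → J = K := nxt_disjoint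
  have hkey : ∀ J ∈ F, (∃ K, Below J K ∧ Below K S ∧ (M : ℝ) + 12 < s (ctr i n K)) ∨
      ∃ K, Below J K ∧ Below K S ∧ u (ctr i n K) < 4 * (M : ℝ) + 10 := by
    intro J hJ
    obtain ⟨hJ1, hJ2⟩ := hFst J hJ
    obtain ⟨K, hK1, hK2, hK3, hK4, hK5, hK6, hK7⟩ :=
      exists_exit hst hJ1 (mem_dn.1 (hFd hJ)).2 hJ2
    rcases hK6 with h | h | h
    · left
      refine ⟨K, hK1, hK2, ?_⟩
      obtain ⟨hK0, -⟩ := hK2.par_below hK3
      obtain ⟨⟨S', hS'⟩, -, h5⟩ := Q_in hK5
      rcases Qma.step hK0 hS' with h6 | h6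
      · have h7 := (hu.par_le i n hK0).2
        linarith [h6.2]
      · rw [h] at h6
        exact St.noConfusion h6
    · exact Or.inl ⟨K, hK1, hK2, h⟩
    · exact Or.inr ⟨K, hK1, hK2, h⟩
  have e1 : (2.7 : ℝ) ≤ Real.exp 1 := by
    have := Real.exp_one_gt_d9
    linarith
  have e12 : Real.exp (-12) ≤ 1 / 100000 := by
    have h1 : Real.exp 12 = Real.exp 1 ^ 12 := by
      rw [← Real.exp_nat_mul]
      norm_num
    have h2 : (100000 : ℝ) ≤ Real.exp 12 := by
      rw [h1]
      calc (100000 : ℝ) ≤ 2.7 ^ 12 := by norm_num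
        _ ≤ Real.exp 1 ^ 12 := by gcongr
    rw [Real.exp_neg, inv_eq_one_div]
    gcongr
  have e14 : Real.exp (-14) ≤ 1 / 100000 := by
    refine le_trans (Real.exp_le_exp.2 (by norm_num)) e12
  let F1 := F.filter fun J => ∃ K, Below J K ∧ Below K S ∧ (M : ℝ) + 12 < s (ctr i n K)
  let F2 := F.filter fun J => ¬ ∃ K, Below J K ∧ Below K S ∧ (M : ℝ) + 12 < s (ctr i n K)
  have hsum : ∑ J ∈ F1, len n J + ∑ J ∈ F2, len n J = ∑ J ∈ F, len n J :=
    Finset.sum_filter_add_sum_filter_not F _ _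
  have hlen : 0 < len n S := len_pos n S
  have h1 : ∑ J ∈ F1, len n J ≤ (1 / 10) * 1 * len n S := by
    refine two_step hS F1 ((Finset.filter_subset _ _).trans hFd)
      (fun J hJ K hK => hFdis J (Finset.mem_filter.1 hJ).1 K (Finset.mem_filter.1 hK).1)
      (fun K => (M : ℝ) + 12 < s (ctr i n K)) (fun J hJ => (Finset.mem_filter.1 hJ).2)
      zero_le_one ?_ ?_
    · intro K hK _ F' hF' hF'K
      have := sum_disjoint_le (mem_dn.1 hK).1 F' hF'K (fun J hJ L hL =>
        hFdis J (Finset.mem_filter.1 (hF' hJ)).1 L (Finset.mem_filter.1 (hF' hL)).1)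
      linarith
    · intro F' hF' hQ hd
      have h3 := tail hs i hS F' hF' hd (b := (M : ℝ) + 12) (fun J hJ => (hQ J hJ).le)
      have h4 : Real.exp (s (ctr i n S) - ((M : ℝ) + 12)) ≤ 1 / 100000 :=
        le_trans (Real.exp_le_exp.2 (by linarith)) e12
      calc ∑ J ∈ F', len n J ≤ 10000 * Real.exp (s (ctr i n S) - ((M : ℝ) + 12)) * len n S := h3
        _ ≤ 10000 * (1 / 100000) * len n S := by gcongr
        _ = 1 / 10 * len n S := by ring
  have h2 : ∑ J ∈ F2, len n J ≤ 1 * (1 / 10) * len n S := by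
    refine two_step hS F2 ((Finset.filter_subset _ _).trans hFd)
      (fun J hJ K hK => hFdis J (Finset.mem_filter.1 hJ).1 K (Finset.mem_filter.1 hK).1)
      (fun K => u (ctr i n K) < 4 * (M : ℝ) + 10) (fun J hJ => ?_)
      (by norm_num) ?_ ?_
    · rcases hkey J (Finset.mem_filter.1 hJ).1 with h | h
      · exact absurd h (Finset.mem_filter.1 hJ).2
      · exact h
    · intro K hK hQ F' hF' hF'K
      have h3 := tail hu i (mem_dn.1 hK).1 F' hF'K (fun J hJ L hL =>
        hFdis J (Finset.mem_filter.1 (hF' hJ)).1 L (Finset.mem_filter.1 (hF' hL)).1)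
        (b := 8 * (M : ℝ) + 24)
        (fun J hJ => (hFst J (Finset.mem_filter.1 (hF' hJ)).1).1.start.2.2)
      have h4 : Real.exp (u (ctr i n K) - (8 * (M : ℝ) + 24)) ≤ 1 / 100000 :=
        le_trans (Real.exp_le_exp.2 (by linarith)) e14
      have hK0 : 0 < len n K := len_pos n K
      calc ∑ J ∈ F', len n J ≤ 10000 * Real.exp (u (ctr i n K) - (8 * (M : ℝ) + 24)) * len n K := h3
        _ ≤ 10000 * (1 / 100000) * len n K := by gcongr
        _ = 1 / 10 * len n K := by ring
    · intro F' hF' hQ hd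
      have := sum_disjoint_le hS F' hF' hd
      linarith
  linarith

/-- cut squares -/
theorem Q_cut (hu : Tame u) {i : Bool} {n M : ℕ} {J : Sq} (h : Qf s u i n M J ≠ 0) :
    4 * (M : ℝ) + 6 ≤ u (ctr i n J) ∧ ∃ S, clQ s u i n M J = St.N (some S) ∧ Below J S ∧
      ((0 < J.1 ∧ sta s u i n (par J) = St.N (some S)) ∨
        sta s u i n J = St.N (some S)) := by
  classical
  have hc : cutm (2 * n) (saQ s u i n M) (soQ s u i n M) J := by
    by_contra hc
    apply h
    unfold Qf cutf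
    rw [if_neg hc]
  rcases hc with ⟨h0, h1, h2⟩ | ⟨h0, h1⟩
  · obtain ⟨⟨S, hS⟩, -, h5⟩ := Q_in h1
    have h7 := (hu.par_le i n h0).2
    refine ⟨by linarith, S, ?_, ?_, Or.inl ⟨h0, hS⟩⟩
    · unfold clQ
      rw [if_neg, hS]
      rw [mach_succ _ _ h0]
      rintro (h3 | h3)
      · exact h3.2 h2
      · exact h3.1 h1
    · exact (below_par h0).trans (sta_class hS).1
  · obtain ⟨⟨S, hS⟩, -, h5⟩ := Q_in h1
    refine ⟨by linarith, S, ?_, (sta_class hS).1, Or.inr hS⟩
    unfold clQ
    rw [if_pos h1, hS]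

/-- an in-state square of class `S` is covered by cut squares of class `S` -/
theorem Q_cover {i : Bool} {n M : ℕ} {I S : Sq} (hI : I ∈ all n)
    (h : mach (saQ s u i n M) (soQ s u i n M) I.1 I.2) (hS : sta s u i n I = St.N (some S)) :
    len n I ≤ ∑ J ∈ dn n I, (rst (Qf s u i n M)
      (fun J => clQ s u i n M J = St.N (some S)) J : ℝ) * len n J := by
  classical
  obtain ⟨F, hF, hd, hsum, hcut⟩ := mach_cover hI h
  have hne : ∀ L, mach (saQ s u i n M) (soQ s u i n M) L.1 L.2 → sta s u i n L ≠ St.O := by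
    intro L hL h0
    obtain ⟨⟨S', hS'⟩, -⟩ := Q_in hL
    rw [hS'] at h0
    exact St.noConfusion h0
  have hcont : ∀ L, Below L I → (∀ K, Below L K → Below K I →
      mach (saQ s u i n M) (soQ s u i n M) K.1 K.2) → sta s u i n L = St.N (some S) := by
    intro L hL hK
    by_contra hc
    obtain ⟨R, hR1, hR2, hR3, hR4, -⟩ := exists_entry hL hS hc
    exact hne R (hK R hR1 hR2) hR4
  have hval : ∀ J ∈ F, rst (Qf s u i n M) (fun J => clQ s u i n M J = St.N (some S)) J = 1 := by
    intro J hJ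
    obtain ⟨hc, hK⟩ := hcut J hJ
    have hb : Below J I := (mem_dn.1 (hF hJ)).2
    have hcl : clQ s u i n M J = St.N (some S) := by
      unfold clQ
      split_ifs with hm
      · apply hcont J hb
        intro K hK1 hK2
        by_cases hKJ : K = J
        · rw [hKJ]; exact hm
        · exact hK K hK1 hK2 hKJ
      · have hJI : J ≠ I := by
          rintro rfl
          exact hm h
        obtain ⟨h0, hp⟩ := hb.par_below hJI
        apply hcont (par J) hp
        intro K hK1 hK2
        apply hK K ((below_par h0).trans hK1) hK2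
        rintro rfl
        have h3 : K.1 ≤ (par K).1 := hK1.1
        have h4 : (par K).1 = K.1 - 1 := rfl
        omega
    unfold rst
    rw [if_pos hcl]
    unfold Qf cutf
    rw [if_pos hc]
  rw [← hsum]
  calc ∑ J ∈ F, len n J = ∑ J ∈ F, (rst (Qf s u i n M)
      (fun J => clQ s u i n M J = St.N (some S)) J : ℝ) * len n J := by
        refine Finset.sum_congr rfl fun J hJ => ?_
        rw [hval J hJ]
        simp
    _ ≤ _ := by
        refine Finset.sum_le_sum_of_subset_of_nonneg hF fun J _ _ => ?_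
        have := len_pos n J
        positivity

/-- (R6) -/
theorem R6 {i : Bool} {n M : ℕ} {I S : Sq} (hI : I ∈ all n) (h : saQ s u i n M I)
    (hS : sta s u i n I = St.N (some S)) {z : ℍ} (hz : 4 / 5 ≤ g z (ctr i n I)) :
    1 / 5 ≤ pf i n (rst (Qf s u i n M) fun J => clQ s u i n M J = St.N (some S)) z := by
  classical
  have hm := mach_of_start (fun J hJ => Qma.excl J hJ) h
  have hc := Q_cover hI hm hS
  have hlen : 0 < len n I := len_pos n I
  unfold pf
  calc (1 / 5 : ℝ) = 1 / (5 * len n I) * len n I := by field_simp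
    _ ≤ 1 / (5 * len n I) * ∑ J ∈ dn n I, (rst (Qf s u i n M)
      (fun J => clQ s u i n M J = St.N (some S)) J : ℝ) * len n J := by gcongr
    _ = ∑ J ∈ dn n I, (rst (Qf s u i n M)
      (fun J => clQ s u i n M J = St.N (some S)) J : ℝ) * (len n J / (5 * len n I)) := by
        rw [Finset.mul_sum]
        refine Finset.sum_congr rfl fun J _ => ?_
        ring
    _ ≤ ∑ J ∈ dn n I, (rst (Qf s u i n M)
      (fun J => clQ s u i n M J = St.N (some S)) J : ℝ) * g z (ctr i n J) := by
        refine Finset.sum_le_sum fun J hJ => ?_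
        refine mul_le_mul_of_nonneg_left ?_ (Nat.cast_nonneg _)
        have h1 := g_mul_le z (ctr i n I) (ctr i n J)
        have h2 := g_below i (n := n) (mem_dn.1 hJ).2
        have h3 : 4 / 5 * (len n J / len n I) ≤ g z (ctr i n I) * g (ctr i n I) (ctr i n J) := by
          have h4 : 0 ≤ len n J / len n I := by
            have := len_pos n J
            positivity
          exact mul_le_mul hz h2 h4 (le_trans (by norm_num) hz)
        have h5 : len n J / (5 * len n I) = (4 / 5 * (len n J / len n I)) / 4 := by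
          field_simp
        rw [h5]
        linarith
    _ ≤ _ := by
        refine Finset.sum_le_sum_of_subset_of_nonneg (fun J hJ => (mem_dn.1 hJ).1)
          fun J _ _ => ?_
        exact mul_nonneg (Nat.cast_nonneg _) (g_pos _ _).le

/-- large `M`: the machine is empty -/
theorem Q_empty (hu : Tame u) {i : Bool} {n M : ℕ} (hM : nlev u i n ≤ M) (J : Sq)
    (hJ : J ∈ all n) : Qf s u i n M J = 0 := by
  by_contra hc
  obtain ⟨h1, -⟩ := Q_cut hu hc
  have h2 : u (ctr i n J) ≤ ∑ K ∈ all n, u (ctr i n K) :=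
    Finset.single_le_sum (f := fun K => u (ctr i n K)) (fun K _ => hu.1 _) hJ
  have h3 : ∑ K ∈ all n, u (ctr i n K) ≤ (⌈∑ K ∈ all n, u (ctr i n K)⌉₊ : ℝ) := Nat.le_ceil _
  have h4 : ((nlev u i n : ℕ) : ℝ) = (⌈∑ K ∈ all n, u (ctr i n K)⌉₊ : ℝ) + 1 := by
    unfold nlev
    push_cast
    ring
  have h5 : ((nlev u i n : ℕ) : ℝ) ≤ M := by exact_mod_cast hM
  have h6 : (0 : ℝ) ≤ M := Nat.cast_nonneg M
  linarith

end

end Pool.Agent.Helper65.HP
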