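import Pool.Agent.Helper65.HP.Bal
import Pool.Agent.Helper65.HP.KerC

/-! Module SPL: balanced splitting of a finite multiset. -/

set_option autoImplicit false

namespace Pool.Agent.Helper65.HP

open Filter Topology UpperHalfPlane

noncomputable section

namespace Spl

/-- the level of a point -/
def lev (w : ℍ) : ℤ := Int.log 2 w.im

theorem lev_le (w : ℍ) : (2 : ℝ) ^ lev w ≤ w.im := by
  have := Int.zpow_log_le_self (b := 2) (r := w.im) (by norm_num) w.im_pos
  exact_mod_cast this

theorem lt_lev (w : ℍ) : w.im < 2 * (2 : ℝ) ^ lev w := by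
  have := Int.lt_zpow_succ_log_self (b := 2) (by norm_num) w.im
  rw [zpow_add_one₀ (by norm_num), mul_comm] at this
  exact_mod_cast this

/-- the kernel of level `k` -/
def ker (z : ℍ) (k : ℤ) (d : ℝ) : ℝ := 4 * z.im * 2 ^ k / (d ^ 2 + (z.im + 2 ^ k) ^ 2)

theorem two_zpow_pos (k : ℤ) : (0 : ℝ) < 2 ^ k := by positivity

theorem ker_nonneg (z : ℍ) (k : ℤ) (d : ℝ) : 0 ≤ ker z k d := by
  unfold ker
  have := z.im_pos
  have := two_zpow_pos k
  positivity

theorem ker_anti (z : ℍ) (k : ℤ) : AntitoneOn (ker z k) (Set.Ici 0) := by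
  intro a ha b hb hab
  rw [Set.mem_Ici] at ha hb
  unfold ker
  have h1 := z.im_pos
  have h2 := two_zpow_pos k
  apply div_le_div_of_nonneg_left (by positivity) (by positivity)
  have : a ^ 2 ≤ b ^ 2 := by nlinarith
  linarith

theorem g_le_ker (z w : ℍ) : g z w ≤ 2 * ker z (lev w) |w.re - z.re| := by
  unfold g ker
  have h1 := z.im_pos
  have h2 := w.im_pos
  have h3 := two_zpow_pos (lev w)
  have h4 := lev_le w
  have h5 := lt_lev w
  rw [sq_abs, ← mul_div_assoc]
  rw [div_le_div_iff₀ (by positivity) (by positivity)]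
  have h6 : (w.re - z.re) ^ 2 + (z.im + 2 ^ lev w) ^ 2 ≤
      (z.re - w.re) ^ 2 + (z.im + w.im) ^ 2 := by nlinarith
  have h7 : 4 * z.im * w.im ≤ 2 * (4 * z.im * 2 ^ lev w) := by nlinarith
  calc 4 * z.im * w.im * ((w.re - z.re) ^ 2 + (z.im + 2 ^ lev w) ^ 2)
      ≤ 2 * (4 * z.im * 2 ^ lev w) * ((w.re - z.re) ^ 2 + (z.im + 2 ^ lev w) ^ 2) := by
        apply mul_le_mul_of_nonneg_right h7
        positivity
    _ ≤ _ := by
        apply mul_le_mul_of_nonneg_left h6
        positivity

theorem ker_le_g (z w : ℍ) : ker z (lev w) |w.re - z.re| ≤ 4 * g z w := by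
  unfold g ker
  have h1 := z.im_pos
  have h2 := w.im_pos
  have h3 := two_zpow_pos (lev w)
  have h4 := lev_le w
  have h5 := lt_lev w
  rw [sq_abs, ← mul_div_assoc]
  rw [div_le_div_iff₀ (by positivity) (by positivity)]
  have h6 : (z.re - w.re) ^ 2 + (z.im + w.im) ^ 2 ≤
      4 * ((w.re - z.re) ^ 2 + (z.im + 2 ^ lev w) ^ 2) := by nlinarith [sq_nonneg (z.re - w.re)]
  calc 4 * z.im * 2 ^ lev w * ((z.re - w.re) ^ 2 + (z.im + w.im) ^ 2)
      ≤ 4 * z.im * 2 ^ lev w * (4 * ((w.re - z.re) ^ 2 + (z.im + 2 ^ lev w) ^ 2)) := by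
        apply mul_le_mul_of_nonneg_left h6
        positivity
    _ ≤ 4 * z.im * w.im * (4 * ((w.re - z.re) ^ 2 + (z.im + 2 ^ lev w) ^ 2)) := by
        apply mul_le_mul_of_nonneg_right _ (by positivity)
        apply mul_le_mul_of_nonneg_left h4
        positivity
    _ = _ := by ring

theorem ker_zero_low (z : ℍ) {k : ℤ} (h : k ≤ lev z) :
    ker z k 0 ≤ 4 * (1 / 2) ^ (lev z - k).toNat := by
  have h1 := z.im_pos
  have h2 := two_zpow_pos k
  have h4 := lev_le z
  have h5 : (2 : ℝ) ^ k = 2 ^ lev z * (1 / 2) ^ (lev z - k).toNat := by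
    have h6 : ((lev z - k).toNat : ℤ) = lev z - k := Int.toNat_of_nonneg (by omega)
    rw [← zpow_natCast (1 / 2 : ℝ), h6, one_div, inv_zpow', ← zpow_add₀ (by norm_num)]
    congr 1
    ring
  unfold ker
  rw [div_le_iff₀ (by positivity)]
  have h7 : (0 : ℝ) < (1 / 2) ^ (lev z - k).toNat := by positivity
  have h8 : (2 : ℝ) ^ k ≤ z.im * (1 / 2) ^ (lev z - k).toNat := by
    rw [h5]
    exact mul_le_mul_of_nonneg_right h4 h7.le
  calc 4 * z.im * 2 ^ k ≤ 4 * z.im * (z.im * (1 / 2) ^ (lev z - k).toNat) :=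
        mul_le_mul_of_nonneg_left h8 (by positivity)
    _ = 4 * (1 / 2) ^ (lev z - k).toNat * z.im ^ 2 := by ring
    _ ≤ 4 * (1 / 2) ^ (lev z - k).toNat * (0 ^ 2 + (z.im + 2 ^ k) ^ 2) := by
        apply mul_le_mul_of_nonneg_left _ (by positivity)
        nlinarith

theorem ker_zero_high (z : ℍ) {k : ℤ} (h : lev z < k) :
    ker z k 0 ≤ 4 * (1 / 2) ^ (k - lev z - 1).toNat := by
  have h1 := z.im_pos
  have h2 := two_zpow_pos k
  have h4 := lt_lev z
  have h5 : 2 * (2 : ℝ) ^ lev z = 2 ^ k * (1 / 2) ^ (k - lev z - 1).toNat := by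
    have h6 : ((k - lev z - 1).toNat : ℤ) = k - lev z - 1 := Int.toNat_of_nonneg (by omega)
    rw [← zpow_natCast (1 / 2 : ℝ), h6, one_div, inv_zpow', ← zpow_add₀ (by norm_num),
      ← zpow_one_add₀ (by norm_num)]
    congr 1
    ring
  unfold ker
  rw [div_le_iff₀ (by positivity)]
  have h7 : (0 : ℝ) < (1 / 2) ^ (k - lev z - 1).toNat := by positivity
  have h8 : z.im ≤ 2 ^ k * (1 / 2) ^ (k - lev z - 1).toNat := by
    rw [← h5]
    exact h4.le
  calc 4 * z.im * 2 ^ k ≤ 4 * (2 ^ k * (1 / 2) ^ (k - lev z - 1).toNat) * 2 ^ k := by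
        apply mul_le_mul_of_nonneg_right _ h2.le
        exact mul_le_mul_of_nonneg_left h8 (by norm_num)
    _ = 4 * (1 / 2) ^ (k - lev z - 1).toNat * (2 ^ k) ^ 2 := by ring
    _ ≤ 4 * (1 / 2) ^ (k - lev z - 1).toNat * (0 ^ 2 + (z.im + 2 ^ k) ^ 2) := by
        apply mul_le_mul_of_nonneg_left _ (by positivity)
        nlinarith

theorem geom_le {κ : Type} (S : Finset κ) (φ : κ → ℕ) (hφ : Set.InjOn φ S) :
    ∑ k ∈ S, (1 / 2 : ℝ) ^ φ k ≤ 2 := by
  classical
  rw [← Finset.sum_image (f := fun n => (1 / 2 : ℝ) ^ n) hφ]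
  have h := summable_geometric_two.sum_le_tsum (S.image φ) (fun _ _ => by positivity)
  rw [tsum_geometric_two] at h
  exact h

theorem sum_ker_zero (z : ℍ) (S : Finset ℤ) : ∑ k ∈ S, ker z k 0 ≤ 16 := by
  classical
  rw [← Finset.sum_filter_add_sum_filter_not S (fun k => k ≤ lev z)]
  have h1 : ∑ k ∈ S.filter (fun k => k ≤ lev z), ker z k 0 ≤ 8 := by
    calc ∑ k ∈ S.filter (fun k => k ≤ lev z), ker z k 0
        ≤ ∑ k ∈ S.filter (fun k => k ≤ lev z), 4 * (1 / 2) ^ (lev z - k).toNat :=
          Finset.sum_le_sum fun k hk => ker_zero_low z (Finset.mem_filter.1 hk).2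
      _ = 4 * ∑ k ∈ S.filter (fun k => k ≤ lev z), (1 / 2) ^ (lev z - k).toNat := by
          rw [Finset.mul_sum]
      _ ≤ 4 * 2 := by
          apply mul_le_mul_of_nonneg_left _ (by norm_num)
          apply geom_le
          intro a ha b hb hab
          rw [Finset.mem_coe, Finset.mem_filter] at ha hb
          simp only at hab
          omega
      _ = 8 := by norm_num
  have h2 : ∑ k ∈ S.filter (fun k => ¬ k ≤ lev z), ker z k 0 ≤ 8 := by
    calc ∑ k ∈ S.filter (fun k => ¬ k ≤ lev z), ker z k 0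
        ≤ ∑ k ∈ S.filter (fun k => ¬ k ≤ lev z), 4 * (1 / 2) ^ (k - lev z - 1).toNat :=
          Finset.sum_le_sum fun k hk => ker_zero_high z (by
            have := (Finset.mem_filter.1 hk).2
            omega)
      _ = 4 * ∑ k ∈ S.filter (fun k => ¬ k ≤ lev z), (1 / 2) ^ (k - lev z - 1).toNat := by
          rw [Finset.mul_sum]
      _ ≤ 4 * 2 := by
          apply mul_le_mul_of_nonneg_left _ (by norm_num)
          apply geom_le
          intro a ha b hb hab
          rw [Finset.mem_coe, Finset.mem_filter] at ha hb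
          simp only at hab
          omega
      _ = 8 := by norm_num
  linarith

theorem exists_index (Z : Multiset ℍ) : ∃ (r : ℕ) (w : Fin r → ℍ), Z = Finset.univ.val.map w := by
  induction Z using Quotient.inductionOn with
  | h l =>
    refine ⟨l.length, l.get, ?_⟩
    rw [Fin.univ_val_map, List.ofFn_get]
    rfl

end Spl

open Spl

theorem split (Z : Multiset ℍ) (m : ℕ) (hm : 0 < m) : ∃ P : Fin m → Multiset ℍ,
    ∑ i, P i = Z ∧ ∀ i z, pot (P i) z ≤ 16 / m * pot Z z + 200 := by
  classical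
  obtain ⟨r, w, rfl⟩ := exists_index Z
  have hbal : ∀ k : ℤ, ∃ l : Fin r → ℕ, (∀ i, l i < m) ∧ ∀ (v : ℕ) (lo hi : ℝ),
      ∑ i ∈ (Finset.univ.filter (fun i => lev (w i) = k)).filter
        (fun i => l i = v ∧ lo ≤ (w i).re ∧ (w i).re ≤ hi), (1 : ℝ) ≤
      2 / m * ∑ i ∈ (Finset.univ.filter (fun i => lev (w i) = k)).filter
        (fun i => lo ≤ (w i).re ∧ (w i).re ≤ hi), (1 : ℝ) + 6 * 1 := by
    intro k
    exact balance _ (fun i => (w i).re) (fun _ => 1) 1 m hm one_pos
      (fun _ _ => ⟨zero_le_one, le_rfl⟩)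
  choose l hl hl2 using hbal
  let L : Fin r → Fin m := fun i => ⟨l (lev (w i)) i, hl _ _⟩
  refine ⟨fun v => (Finset.univ.filter (fun i => L i = v)).val.map w, ?_, ?_⟩
  · have h1 : (Finset.univ : Finset (Fin r)).val =
        ∑ v : Fin m, (Finset.univ.filter (fun i => L i = v)).val := by
      refine Multiset.ext.2 fun a => ?_
      rw [Multiset.count_sum', Multiset.count_eq_one_of_mem (Finset.nodup _)
        (Finset.mem_univ_val a), Finset.sum_eq_single (L a)]
      · rw [Multiset.count_eq_one_of_mem (Finset.nodup _)]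
        show a ∈ Finset.univ.filter (fun i => L i = L a)
        exact Finset.mem_filter.2 ⟨Finset.mem_univ a, rfl⟩
      · intro v _ hv
        rw [Multiset.count_eq_zero]
        intro h
        have h1 : a ∈ Finset.univ.filter (fun i => L i = v) := h
        have h2 : L a = v := (Finset.mem_filter.1 h1).2
        exact hv h2.symm
      · intro h
        exact absurd (Finset.mem_univ _) h
    rw [h1, ← Multiset.coe_mapAddMonoidHom, map_sum]
  · intro v z
    have hpot : ∀ S : Finset (Fin r), pot (S.val.map w) z = ∑ i ∈ S, g z (w i) := by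
      intro S
      unfold pot
      rw [Multiset.map_map]
      rfl
    rw [hpot, hpot]
    let Ks : Finset ℤ := Finset.univ.image fun i => lev (w i)
    have hmem : ∀ S : Finset (Fin r), ∀ i ∈ S, lev (w i) ∈ Ks := fun S i _ =>
      Finset.mem_image_of_mem _ (Finset.mem_univ i)
    have hlev : ∀ k ∈ Ks, ∑ i ∈ (Finset.univ.filter (fun i => L i = v)).filter
        (fun i => lev (w i) = k), ker z k |(w i).re - z.re| ≤
        2 / m * ∑ i ∈ Finset.univ.filter (fun i => lev (w i) = k), ker z k |(w i).re - z.re| +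
          6 * ker z k 0 := by
      intro k _
      have h := kernel_of_interval (Finset.univ.filter (fun i => lev (w i) = k))
        (fun i => (w i).re) (fun _ => 1) (fun i => l k i = v) (2 / m) (6 * 1)
        (fun _ _ => zero_le_one) (by norm_num) (fun lo hi => by
          have := hl2 k v lo hi
          convert this) (ker z k) (ker_anti z k) (fun d _ => ker_nonneg z k d) z.re
      simp only [one_mul, mul_one] at h
      refine le_trans (le_of_eq ?_) h
      refine Finset.sum_congr ?_ fun _ _ => rfl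
      ext i
      simp only [Finset.mem_filter, Finset.mem_univ, true_and, L]
      constructor
      · rintro ⟨h1, h2⟩
        refine ⟨h2, ?_⟩
        rw [← h1]
        simp [h2]
      · rintro ⟨h1, h2⟩
        refine ⟨?_, h1⟩
        apply Fin.ext
        simp [h1, h2]
    have h1 : ∑ i ∈ Finset.univ.filter (fun i => L i = v), g z (w i) ≤
        2 * ∑ k ∈ Ks, (2 / m * ∑ i ∈ Finset.univ.filter (fun i => lev (w i) = k),
          ker z k |(w i).re - z.re| + 6 * ker z k 0) := by
      calc ∑ i ∈ Finset.univ.filter (fun i => L i = v), g z (w i)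
          ≤ ∑ i ∈ Finset.univ.filter (fun i => L i = v),
              2 * ker z (lev (w i)) |(w i).re - z.re| :=
            Finset.sum_le_sum fun i _ => g_le_ker z (w i)
        _ = 2 * ∑ i ∈ Finset.univ.filter (fun i => L i = v),
              ker z (lev (w i)) |(w i).re - z.re| := by rw [Finset.mul_sum]
        _ = 2 * ∑ k ∈ Ks, ∑ i ∈ (Finset.univ.filter (fun i => L i = v)).filter
              (fun i => lev (w i) = k), ker z k |(w i).re - z.re| := by
            congr 1
            rw [← Finset.sum_fiberwise_of_maps_to (hmem _)]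
            refine Finset.sum_congr rfl fun k _ => Finset.sum_congr rfl fun i hi => ?_
            rw [(Finset.mem_filter.1 hi).2]
        _ ≤ _ := by
            apply mul_le_mul_of_nonneg_left _ (by norm_num)
            exact Finset.sum_le_sum hlev
    have h2 : ∑ k ∈ Ks, ∑ i ∈ Finset.univ.filter (fun i => lev (w i) = k),
        ker z k |(w i).re - z.re| ≤ 4 * ∑ i, g z (w i) := by
      rw [Finset.mul_sum, ← Finset.sum_fiberwise_of_maps_to (hmem Finset.univ)]
      refine Finset.sum_le_sum fun k _ => Finset.sum_le_sum fun i hi => ?_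
      rw [← (Finset.mem_filter.1 hi).2]
      exact ker_le_g z (w i)
    have h3 := sum_ker_zero z Ks
    rw [Finset.sum_add_distrib, ← Finset.mul_sum, ← Finset.mul_sum] at h1
    have hm' : (0 : ℝ) < m := by exact_mod_cast hm
    have h4 : 2 / (m : ℝ) * ∑ k ∈ Ks, ∑ i ∈ Finset.univ.filter (fun i => lev (w i) = k),
        ker z k |(w i).re - z.re| ≤ 2 / m * (4 * ∑ i, g z (w i)) :=
      mul_le_mul_of_nonneg_left h2 (by positivity)
    have h5 : 16 / (m : ℝ) * ∑ i, g z (w i) = 2 * (2 / m * (4 * ∑ i, g z (w i))) := by ring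
    linarith

end

end Pool.Agent.Helper65.HP
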