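import Pool.Agent.Helper65.HP.Fac
import Pool.Agent.Helper65.HP.Nil
import Pool.Agent.Helper65.HP.Spl
import Pool.Agent.Helper65.HP.Phi

/-! Module RSP: `phi θ` is admissible for `θ ∈ I`. -/

set_option autoImplicit false

namespace Pool.Agent.Helper65.HP

open Filter Topology UpperHalfPlane

noncomputable section

namespace Rsp

/-- pointwise lower bound: Blaschke products with the zeros of large potential -/
theorem low {P : Multiset ℍ} {z : ℍ} (hp : pot P z ≤ 1072) (p : ℍ → Prop) [DecidablePred p]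
    (hpp : ∀ w, p w → 5800 < pot P w) :
    Real.exp (-1072) ≤ ‖Bl (P.filter p) z‖ := by
  have h1 : ∀ w ∈ P.filter p, g z w ≤ 3 / 4 := by
    intro w hw
    rw [Multiset.mem_filter] at hw
    by_contra hlt
    push Not at hlt
    have h2 : 3 / 4 ≤ g w z := by rw [g_comm]; exact hlt.le
    have h3 := pot_near h2 P
    have h4 := hpp w hw.2
    linarith
  have h2 := Bl_ge34 h1
  have h3 : pot (P.filter p) z ≤ 1072 := (pot_mono (Multiset.filter_le p P) z).trans hp
  have h4 : Real.exp (-1072) ^ 2 ≤ ‖Bl (P.filter p) z‖ ^ 2 := by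
    refine le_trans ?_ h2
    rw [← Real.exp_nat_mul]
    apply Real.exp_le_exp.mpr
    push_cast
    linarith
  exact le_of_sq_le_sq h4 (norm_nonneg _)

end Rsp

theorem adm_phi {I : Set (ℍ → ℂ)} (hI : CPI I) (hN : ND I) {θ : ℍ → ℂ} (hθI : θ ∈ I)
    (hθ : InU θ) (h0 : ∃ z, θ z ≠ 0) : Adm I (phi θ) := by
  classical
  refine ⟨phi_tame hθ h0, ?_⟩
  intro k
  rcases lt_or_ge k 0 with hk | hk
  · refine ⟨θ, hθI, hθ, ?_⟩
    intro z hz
    have := (phi_tame hθ h0).1 z
    exact absurd hz (by linarith)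
  set m : ℕ := ⌈64 * Real.exp k⌉₊ with hm_def
  have hmge : 64 * Real.exp k ≤ m := Nat.le_ceil _
  have hexp1 : 1 ≤ Real.exp k := Real.one_le_exp hk
  have hmpos' : (0 : ℝ) < m := by linarith
  have hm : 0 < m := by exact_mod_cast hmpos'
  obtain ⟨Z, G, hG, hHar, hUL⟩ := fac hθ h0 m hm
  choose P hPsum hPpot using fun n => split (Z n) m hm
  -- ultralimits of the parts
  choose B hBU hBL using fun i : Fin m =>
    exists_UL_InU (Fn := fun n => Bl (P n i)) (fun n => Bl_InU (P n i))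
  have hθprod : θ = fun z => ∏ i : Fin m, (B i z * G z) := by
    have h1 : UL (fun n z => ∏ i : Fin m, (Bl (P n i) z * G z))
        (fun z => ∏ i : Fin m, (B i z * G z)) :=
      UL.prod (Finset.univ) (Fn := fun i n z => Bl (P n i) z * G z)
        (F := fun i z => B i z * G z) (fun i _ => (hBL i).mul (UL.const G))
    have h2 : (fun (n : ℕ) (z : ℍ) => ∏ i : Fin m, (Bl (P n i) z * G z)) =
        fun n z => Bl (Z n) z * G z ^ m := by
      funext n z
      rw [Finset.prod_mul_distrib, Finset.prod_const, Finset.card_univ, Fintype.card_fin,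
        ← Bl_finsum, hPsum]
    rw [h2] at h1
    exact hUL.unique h1
  obtain ⟨i, -, hi⟩ := hI.prod_mem Finset.univ (fun i z => B i z * G z)
    (fun i _ => ((hBU i).mul hG).inH) (by rw [← hθprod]; exact hθI)
  -- splitting of the part
  let p : ℕ → ℍ → Prop := fun n w => 5800 < pot (P n i) w
  obtain ⟨b1, hb1U, hb1L⟩ := exists_UL_InU (Fn := fun n => Bl ((P n i).filter (p n)))
    (fun n => Bl_InU _)
  obtain ⟨b2, hb2U, hb2L⟩ := exists_UL_InU (Fn := fun n => Bl ((P n i).filter (fun w => ¬ p n w)))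
    (fun n => Bl_InU _)
  have hb2 : b2 ∉ I := by
    refine ni hI hN (C := 32 / 3 * 5800) (W := fun n => (P n i).filter (fun w => ¬ p n w)) ?_ hb2L
    intro n z
    refine pot_max (by norm_num) ?_ z
    intro w hw
    rw [Multiset.mem_filter] at hw
    have h1 : pot (P n i) w ≤ 5800 := not_lt.mp hw.2
    exact (pot_mono (Multiset.filter_le _ _) w).trans h1
  have hB : B i = fun z => b1 z * b2 z := by
    have h1 := hb1L.mul hb2L
    have h2 : (fun (n : ℕ) (z : ℍ) => Bl ((P n i).filter (p n)) z *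
        Bl ((P n i).filter (fun w => ¬ p n w)) z) = fun n => Bl (P n i) := by
      funext n z
      rw [← Bl_add, Multiset.filter_add_not]
    rw [h2] at h1
    exact (hBL i).unique h1
  have hκ : (fun z => b1 z * G z) ∈ I := by
    have h1 : (fun z => (b1 z * G z) * b2 z) ∈ I := by
      have h2 : (fun z => (b1 z * G z) * b2 z) = fun z => B i z * G z := by
        funext z
        rw [hB]
        ring
      rw [h2]
      exact hi
    rcases hI.prime _ _ (hb1U.mul hG).inH hb2U.inH h1 with h | h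
    · exact h
    · exact absurd h hb2
  refine ⟨_, hκ, hb1U.mul hG, ?_⟩
  intro z hz
  obtain ⟨ζ, hζ, hθζ⟩ := phi_exists hθ h0 z
  have hphi : Real.exp (phi θ z) ≤ Real.exp k := Real.exp_le_exp.mpr hz
  have hlt : Real.exp (-(2 * Real.exp k)) < ‖θ ζ‖ := by
    refine lt_of_lt_of_le ?_ hθζ
    apply Real.exp_lt_exp.mpr
    linarith
  have hev : ∀ᶠ n in (hyperfilter ℕ : Filter ℕ),
      Real.exp (-(2 * Real.exp k)) < ‖Bl (Z n) ζ * G ζ ^ m‖ :=
    (hUL ζ).norm.eventually (lt_mem_nhds hlt)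
  have hGζ1 : ‖G ζ‖ ≤ 1 := hG.2 ζ
  -- lower bound for G
  have hGm : Real.exp (-(2 * Real.exp k)) ≤ ‖G ζ‖ ^ m := by
    obtain ⟨n, hn⟩ := hev.exists
    rw [norm_mul, norm_pow] at hn
    have h1 : ‖Bl (Z n) ζ‖ ≤ 1 := (Bl_InU _).2 ζ
    have h2 : 0 ≤ ‖G ζ‖ ^ m := by positivity
    nlinarith
  have hGζ : Real.exp (-(1 / 32)) ≤ ‖G ζ‖ := by
    by_contra hcon
    push Not at hcon
    have h1 : ‖G ζ‖ ^ m < Real.exp (-(1 / 32)) ^ m :=
      pow_lt_pow_left₀ hcon (norm_nonneg _) hm.ne'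
    rw [← Real.exp_nat_mul] at h1
    have h2 : Real.exp (↑m * -(1 / 32)) ≤ Real.exp (-(2 * Real.exp k)) := by
      apply Real.exp_le_exp.mpr
      nlinarith
    linarith
  have hGz : Real.exp (-1) ≤ ‖G z‖ := by
    refine le_trans ?_ (hHar z ζ hζ)
    have h1 : Real.exp (-(1 / 32)) ^ 3 ≤ ‖G ζ‖ ^ 3 :=
      pow_le_pow_left₀ (Real.exp_pos _).le hGζ 3
    refine le_trans ?_ h1
    rw [← Real.exp_nat_mul]
    apply Real.exp_le_exp.mpr
    push_cast
    norm_num
  -- lower bound for the Blaschke products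
  have hb1z : Real.exp (-1072) ≤ ‖b1 z‖ := by
    refine hb1L.le_norm (hev.mono ?_)
    intro n hn
    rw [norm_mul, norm_pow] at hn
    have h2 : ‖G ζ‖ ^ m ≤ 1 := pow_le_one₀ (norm_nonneg _) hGζ1
    have h3 : 0 ≤ ‖Bl (Z n) ζ‖ := norm_nonneg _
    have h4 : Real.exp (-(2 * Real.exp k)) ≤ ‖Bl (Z n) ζ‖ := by nlinarith
    have h5 := Bl_le (Z n) ζ
    have h6 : Real.exp (-(2 * Real.exp k)) ^ 2 ≤ ‖Bl (Z n) ζ‖ ^ 2 :=
      pow_le_pow_left₀ (Real.exp_pos _).le h4 2
    rw [← Real.exp_nat_mul] at h6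
    have h7 : pot (Z n) ζ ≤ 4 * Real.exp k := by
      have := Real.exp_le_exp.mp (h6.trans h5)
      push_cast at this
      linarith
    have h8 : pot (P n i) ζ ≤ 201 := by
      have h9 := hPpot n i ζ
      have h10 : 16 / (m : ℝ) * pot (Z n) ζ ≤ 1 := by
        have h11 : 16 / (m : ℝ) * pot (Z n) ζ ≤ 16 / (m : ℝ) * (4 * Real.exp k) :=
          mul_le_mul_of_nonneg_left h7 (by positivity)
        have h12 : 16 / (m : ℝ) * (4 * Real.exp k) = 64 * Real.exp k / m := by ring
        have h13 : 64 * Real.exp k / m ≤ 1 := by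
          rw [div_le_one hmpos']
          exact hmge
        linarith
      linarith
    have h14 : pot (P n i) z ≤ 1072 := by
      have := pot_near hζ (P n i)
      linarith
    exact Rsp.low h14 (p n) (fun w hw => hw)
  rw [norm_mul]
  have h1 : Real.exp (-1072) * Real.exp (-1) ≤ ‖b1 z‖ * ‖G z‖ :=
    mul_le_mul hb1z hGz (Real.exp_pos _).le (norm_nonneg _)
  refine le_trans ?_ h1
  unfold c0
  rw [← Real.exp_add]
  apply Real.exp_le_exp.mpr
  norm_num

end

end Pool.Agent.Helper65.HP
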