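import Pool.Agent.Helper65.HP.Nea

/-! Module RTA: walls make the class locally constant. -/

set_option autoImplicit false

namespace Pool.Agent.Helper65.HP

open UpperHalfPlane Filter Topology

noncomputable section

namespace RtaAux

/-- two adjacent squares of different classes are separated by an end point of an exit square -/
theorem sep {s u : ℍ → ℝ} {i : Bool} {n m : ℕ} {j : ℤ} (h1 : (m, j) ∈ all n)
    (h2 : (m, j + 1) ∈ all n) {c1 c2 : Option Sq} (s1 : sta s u i n (m, j) = St.N c1)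
    (s2 : sta s u i n (m, j + 1) = St.N c2) (hne : c1 ≠ c2) :
    ∃ S, isEx s u i n S ∧ S.1 ≤ m ∧ ∃ e : ℤ, (e = S.2 ∨ e = S.2 + 1) ∧
      j + 1 = e * 2 ^ (m - S.1) := by
  have caseA : ∀ S : Sq, Below (m, j) S → ¬ Below (m, j + 1) S → S.1 ≤ m ∧
      ∃ e : ℤ, (e = S.2 ∨ e = S.2 + 1) ∧ j + 1 = e * 2 ^ (m - S.1) := by
    intro S hb hnb
    obtain ⟨hb1, hb2⟩ := hb
    refine ⟨hb1, S.2 + 1, Or.inr rfl, ?_⟩
    have hd : (0 : ℤ) < 2 ^ (m - S.1) := by positivity
    simp only at hb1 hb2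
    have hq1 : S.2 * 2 ^ (m - S.1) ≤ j := (Int.le_ediv_iff_mul_le hd).1 hb2.ge
    have hq2 : j < (S.2 + 1) * 2 ^ (m - S.1) := (Int.ediv_lt_iff_lt_mul hd).1 (by omega)
    by_contra hcon
    apply hnb
    refine ⟨hb1, ?_⟩
    simp only
    have hlt : j + 1 < (S.2 + 1) * 2 ^ (m - S.1) := by
      rcases lt_or_eq_of_le (show j + 1 ≤ (S.2 + 1) * 2 ^ (m - S.1) by omega) with h | h
      · exact h
      · exact absurd h hcon
    have e1 : S.2 ≤ (j + 1) / 2 ^ (m - S.1) := (Int.le_ediv_iff_mul_le hd).2 (by omega)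
    have e2 : (j + 1) / 2 ^ (m - S.1) < S.2 + 1 := (Int.ediv_lt_iff_lt_mul hd).2 hlt
    omega
  have caseB : ∀ S : Sq, Below (m, j + 1) S → ¬ Below (m, j) S → S.1 ≤ m ∧
      ∃ e : ℤ, (e = S.2 ∨ e = S.2 + 1) ∧ j + 1 = e * 2 ^ (m - S.1) := by
    intro S hb hnb
    obtain ⟨hb1, hb2⟩ := hb
    refine ⟨hb1, S.2, Or.inl rfl, ?_⟩
    have hd : (0 : ℤ) < 2 ^ (m - S.1) := by positivity
    simp only at hb1 hb2
    have hq1 : S.2 * 2 ^ (m - S.1) ≤ j + 1 := (Int.le_ediv_iff_mul_le hd).1 hb2.ge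
    have hq2 : j + 1 < (S.2 + 1) * 2 ^ (m - S.1) := (Int.ediv_lt_iff_lt_mul hd).1 (by omega)
    by_contra hcon
    apply hnb
    refine ⟨hb1, ?_⟩
    simp only
    have e1 : S.2 ≤ j / 2 ^ (m - S.1) := (Int.le_ediv_iff_mul_le hd).2 (by omega)
    have e2 : j / 2 ^ (m - S.1) < S.2 + 1 := (Int.ediv_lt_iff_lt_mul hd).2 (by omega)
    omega
  -- find the exit square
  have hfin : ∀ S : Sq, (sta s u i n S = St.N (some S)) →
      ((Below (m, j) S ∧ ¬ Below (m, j + 1) S) ∨ (Below (m, j + 1) S ∧ ¬ Below (m, j) S)) →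
      ∃ S, isEx s u i n S ∧ S.1 ≤ m ∧ ∃ e : ℤ, (e = S.2 ∨ e = S.2 + 1) ∧
      j + 1 = e * 2 ^ (m - S.1) := by
    intro S hS h
    rcases h with ⟨ha, hb⟩ | ⟨ha, hb⟩
    · obtain ⟨h3, h4⟩ := caseA S ha hb
      exact ⟨S, ⟨anc_mem h1 ha, hS⟩, h3, h4⟩
    · obtain ⟨h3, h4⟩ := caseB S ha hb
      exact ⟨S, ⟨anc_mem h2 ha, hS⟩, h3, h4⟩
  cases c1 with
  | none =>
    cases c2 with
    | none => exact absurd rfl hne
    | some S2 =>
      obtain ⟨b2, e2, -⟩ := sta_class s2
      refine hfin S2 e2 (Or.inr ⟨b2, fun hb => ?_⟩)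
      have := sta_none s1 S2 hb
      rw [e2] at this
      simp at this
  | some S1 =>
    obtain ⟨b1, e1, k1⟩ := sta_class s1
    by_cases hb : Below (m, j + 1) S1
    · cases c2 with
      | none =>
        have := sta_none s2 S1 hb
        rw [e1] at this
        simp at this
      | some S2 =>
        obtain ⟨b2, e2, k2⟩ := sta_class s2
        have hS : S1 ≠ S2 := fun h => hne (by rw [h])
        rcases le_total S2.1 S1.1 with hle | hle
        · have hb12 : Below S1 S2 := Below.chain b2 hb hle |> fun h => h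
          have := k2 S1 hb hb12
          rw [e1] at this
          simp only [St.N.injEq, Option.some.injEq] at this
          exact absurd this hS
        · have hb21 : Below S2 S1 := Below.chain hb b2 hle
          refine hfin S2 e2 (Or.inr ⟨b2, fun hb' => ?_⟩)
          have := k1 S2 hb' hb21
          rw [e2] at this
          simp only [St.N.injEq, Option.some.injEq] at this
          exact absurd this.symm hS
    · exact hfin S1 e1 (Or.inl ⟨b1, hb⟩)

/-- a generation of size comparable to `τ` -/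
theorem exists_gen (τ : ℝ) (hτ : 0 < τ) : ∀ᶠ n : ℕ in atTop, ∃ m ≤ 2 * n,
    τ ≤ 2 ^ n / 2 ^ m ∧ (2 : ℝ) ^ n / 2 ^ m < 2 * τ := by
  have h1 : ∀ᶠ n : ℕ in atTop, τ ≤ (2 : ℝ) ^ n :=
    (tendsto_pow_atTop_atTop_of_one_lt (by norm_num : (1 : ℝ) < 2)).eventually_ge_atTop τ
  have h2 : ∀ᶠ n : ℕ in atTop, τ⁻¹ < (2 : ℝ) ^ n :=
    (tendsto_pow_atTop_atTop_of_one_lt (by norm_num : (1 : ℝ) < 2)).eventually_gt_atTop τ⁻¹
  filter_upwards [h1, h2] with n hn1 hn2
  classical
  let P : ℕ → Prop := fun m => τ ≤ (2 : ℝ) ^ n / 2 ^ m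
  have hP0 : P 0 := by simp only [P, pow_zero, div_one]; exact hn1
  have hm := Nat.findGreatest_spec (P := P) (Nat.zero_le (2 * n)) hP0
  have hmle := Nat.findGreatest_le (P := P) (2 * n)
  set m := Nat.findGreatest P (2 * n) with hmdef
  have hlast : ¬ P (2 * n) := by
    simp only [P, not_le]
    have hpos : (0 : ℝ) < 2 ^ n := by positivity
    have : (2 : ℝ) ^ n / 2 ^ (2 * n) = (2 ^ n)⁻¹ := by
      rw [two_mul, pow_add]; field_simp
    rw [this]
    rw [inv_lt_comm₀ hpos hτ]
    exact hn2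
  have hmne : m ≠ 2 * n := fun h => hlast (h ▸ hm)
  have hmlt : m < 2 * n := lt_of_le_of_ne hmle hmne
  refine ⟨m, hmle, hm, ?_⟩
  have hnot : ¬ P (m + 1) := Nat.findGreatest_is_greatest (Nat.lt_succ_self m) hmlt
  simp only [P, not_le] at hnot
  rw [pow_succ] at hnot
  have hp : (0 : ℝ) < 2 ^ m := by positivity
  have : (2 : ℝ) ^ n / (2 ^ m * 2) = (2 ^ n / 2 ^ m) / 2 := by field_simp
  rw [this] at hnot
  linarith

end RtaAux

namespace RtaAux

/-- squares in the window are not in state `O` -/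
theorem notO {s u : ℍ → ℝ} (hs : Tame s) (hu : Tame u) (i : Bool) {T : ℝ} {x : ℍ}
    (h1 : s x ≤ T) (hN : 500 * |T| + 500 ≤ u x) (n : ℕ) (K : Sq)
    (hre : |x.re - (ctr i n K).re| ≤ 2 * Real.exp (u x / 100) * x.im + len n K)
    (hlo : Real.exp (-(u x / 100)) * x.im ≤ len n K)
    (hhi : len n K ≤ 2 * (Real.exp (u x / 10) * x.im)) : sta s u i n K ≠ St.O := by
  have habs : T ≤ |T| := le_abs_self T
  have habs0 : 0 ≤ |T| := abs_nonneg T
  refine near_N hs hu h1 (by linarith) i n K ?_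
  have ht := x.im_pos
  have hE : 0 < Real.exp (u x / 10) := Real.exp_pos _
  have hE1 : 1 ≤ Real.exp (u x / 10) := Real.one_le_exp (by linarith)
  have hr : Real.exp (u x / 100) ≤ Real.exp (u x / 10) := Real.exp_le_exp.2 (by linarith)
  have hg := g_in (R := 4 * Real.exp (u x / 10)) (z := x) (w := ctr i n K) (by linarith)
    (by
      refine hre.trans ?_
      nlinarith [mul_le_mul_of_nonneg_right hr ht.le])
    (by
      rw [ctr_im]
      nlinarith [mul_pos hE ht])
  refine le_trans ?_ hg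
  rw [ctr_im]
  have hratio : Real.exp (-(u x / 100)) ≤ len n K / x.im := by
    rw [le_div_iff₀ ht]; exact hlo
  have hkey : Real.exp (-(9 / 20 * u x)) ≤
      4 / 5 * Real.exp (-(u x / 100)) / (4 * Real.exp (u x / 10)) ^ 2 := by
    rw [le_div_iff₀ (by positivity)]
    have e1 : (4 * Real.exp (u x / 10)) ^ 2 = 16 * Real.exp (u x / 5) := by
      rw [mul_pow, ← Real.exp_nat_mul]
      norm_num
      ring_nf
    rw [e1]
    have e2 : Real.exp (-(9 / 20 * u x)) * (16 * Real.exp (u x / 5)) =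
        16 * Real.exp (-(u x / 4)) := by
      rw [mul_left_comm, ← Real.exp_add]
      ring_nf
    rw [e2]
    have e3 : Real.exp (-(u x / 100)) = Real.exp (-(u x / 4)) * Real.exp (6 / 25 * u x) := by
      rw [← Real.exp_add]; ring_nf
    rw [e3]
    have e4 : 20 ≤ Real.exp (6 / 25 * u x) := by
      have := Real.add_one_le_exp (6 / 25 * u x)
      linarith
    have e5 : 0 < Real.exp (-(u x / 4)) := Real.exp_pos _
    nlinarith
  refine hkey.trans ?_
  gcongr

/-- all squares of the region have the state of an ancestor of large size -/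
theorem anc_state {s u : ℍ → ℝ} (hs : Tame s) (hu : Tame u) (i : Bool) {T : ℝ} {x : ℍ}
    (h1 : s x ≤ T) (hN : 500 * |T| + 500 ≤ u x) {n : ℕ} {J K : Sq}
    (hb : Below J K)
    (hre : |x.re - (ctr i n J).re| ≤ 2 * Real.exp (u x / 100) * x.im)
    (hlo : Real.exp (-(u x / 100)) * x.im ≤ len n J)
    (hhi : len n K ≤ 2 * (Real.exp (u x / 10) * x.im)) :
    ∃ c, sta s u i n K = St.N c ∧ sta s u i n J = St.N c := by
  have hno : ∀ L, Below J L → Below L K → sta s u i n L ≠ St.O := by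
    intro L hJL hLK
    refine notO hs hu i h1 hN n L ?_ (hlo.trans hJL.len_le) (hLK.len_le.trans hhi)
    have h2 := below_re i (n := n) hJL
    have h3 := len_pos n J
    have h4 := len_pos n L
    have h5 : |x.re - (ctr i n L).re| ≤ |x.re - (ctr i n J).re| +
      |(ctr i n J).re - (ctr i n L).re| := abs_sub_le _ _ _
    linarith
  rcases hK : sta s u i n K with _ | c
  · exact absurd hK (hno K hb (below_refl K))
  · refine ⟨c, rfl, ?_⟩
    by_contra hcon
    obtain ⟨R, hR1, hR2, -, hR3, -⟩ := exists_entry hb hK hcon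
    exact hno R hR1 hR2 hR3

/-- squares with sides in a dyadic window have the same generation -/
theorem gen_eq {n : ℕ} {J K : Sq} {τ : ℝ} (h1 : τ ≤ len n J) (h2 : len n J < 2 * τ)
    (h3 : τ ≤ len n K) (h4 : len n K < 2 * τ) : J.1 = K.1 := by
  have key : ∀ A B : Sq, τ ≤ len n A → len n B < 2 * τ → A.1 ≤ B.1 := by
    intro A B a1 b2
    by_contra hcon
    push Not at hcon
    have : 2 * len n A ≤ len n B := by
      unfold len
      have hp : (2 : ℝ) ^ (B.1 + 1) ≤ 2 ^ A.1 := pow_le_pow_right₀ (by norm_num) hcon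
      have hn : (0 : ℝ) < 2 ^ n := by positivity
      have hB : (0 : ℝ) < 2 ^ B.1 := by positivity
      have hA : (0 : ℝ) < 2 ^ A.1 := by positivity
      rw [mul_div_assoc', div_le_div_iff₀ hA hB]
      rw [pow_succ] at hp
      nlinarith
    linarith
  exact le_antisymm (key J K h1 h4) (key K J h3 h2)

/-- a wall near `x` of size comparable to `e^{u/100}` gives a large potential -/
theorem wall_big {s u : ℍ → ℝ} (hu : Tame u) (i : Bool) {T : ℝ} {x : ℍ}
    (hN : 500 * |T| + 500 ≤ u x) {n : ℕ} {I : Sq} (hImem : I ∈ all n) (hIw : isWall s u i n I)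
    (hIx : |x.re - (ctr i n I).re| ≤ 3 * Real.exp (u x / 100) * x.im)
    (hq1 : Real.exp (u x / 100) * x.im ≤ len n I)
    (hq2 : len n I < 2 * (Real.exp (u x / 100) * x.im)) : T < pf i n (wal s u i n) x := by
  have habs : T ≤ |T| := le_abs_self T
  have habs0 : 0 ≤ |T| := abs_nonneg T
  have ht := x.im_pos
  have hr0 : 0 < Real.exp (u x / 100) := Real.exp_pos _
  have hr1 : 1 ≤ Real.exp (u x / 100) := Real.one_le_exp (by linarith)
  have hgI : 4 / 45 * Real.exp (-(u x / 100)) ≤ g x (ctr i n I) := by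
    have h8 := g_in (R := 3 * Real.exp (u x / 100)) (z := x) (w := ctr i n I) (by linarith) hIx
      (by rw [ctr_im]; nlinarith [mul_pos hr0 ht])
    refine le_trans ?_ h8
    rw [ctr_im]
    have h9 : Real.exp (u x / 100) ≤ len n I / x.im := by
      rw [le_div_iff₀ ht]; exact hq1
    have h10 : 4 / 45 * Real.exp (-(u x / 100)) =
        4 / 5 * Real.exp (u x / 100) / (3 * Real.exp (u x / 100)) ^ 2 := by
      rw [Real.exp_neg]
      field_simp
      norm_num
    rw [h10]
    gcongr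
  have huI : 99 / 100 * u x - 11 / 2 ≤ u (ctr i n I) := by
    have h8 := hu.lip x (ctr i n I)
    have h9 : Real.log (1 / g x (ctr i n I)) ≤ u x / 100 + 5 / 2 := by
      rw [Real.log_le_iff_le_exp (by have := g_pos x (ctr i n I); positivity)]
      rw [div_le_iff₀ (g_pos _ _)]
      have h10 : 45 / 4 ≤ Real.exp (5 / 2) := by
        have := Real.exp_one_gt_d9
        have h11 : Real.exp (5 / 2) = Real.exp 1 * Real.exp 1 * Real.exp (1 / 2) := by
          rw [← Real.exp_add, ← Real.exp_add]; norm_num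
        have h12 : 1.6 ≤ Real.exp (1 / 2) := by
          have h13 : Real.exp 1 = Real.exp (1 / 2) * Real.exp (1 / 2) := by
            rw [← Real.exp_add]; norm_num
          have h14 := Real.exp_pos (1 / 2)
          nlinarith
        rw [h11]
        nlinarith
      have h11 : Real.exp (u x / 100 + 5 / 2) * (4 / 45 * Real.exp (-(u x / 100))) =
          4 / 45 * Real.exp (5 / 2) := by
        rw [mul_left_comm, ← Real.exp_add]
        ring_nf
      have h12 : Real.exp (u x / 100 + 5 / 2) * (4 / 45 * Real.exp (-(u x / 100))) ≤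
          Real.exp (u x / 100 + 5 / 2) * g x (ctr i n I) :=
        mul_le_mul_of_nonneg_left hgI (Real.exp_pos _).le
      linarith
    linarith
  -- lower bound of the wall potential
  have hterm : (wal s u i n I : ℝ) * g x (ctr i n I) ≤ pf i n (wal s u i n) x := by
    unfold pf
    exact Finset.single_le_sum (f := fun J => (wal s u i n J : ℝ) * g x (ctr i n J))
      (fun J _ => mul_nonneg (Nat.cast_nonneg _) (g_pos _ _).le) hImem
  have hwal : Real.exp ((99 / 100 * u x - 11 / 2) / 20) ≤ (wal s u i n I : ℝ) := by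
    unfold wal
    rw [if_pos hIw]
    refine le_trans (Real.exp_le_exp.2 ?_) (Nat.le_ceil _)
    linarith
  have hfin : T < Real.exp ((99 / 100 * u x - 11 / 2) / 20) *
      (4 / 45 * Real.exp (-(u x / 100))) := by
    rw [mul_left_comm, ← Real.exp_add]
    have h13 := Real.add_one_le_exp ((99 / 100 * u x - 11 / 2) / 20 + -(u x / 100))
    nlinarith
  have hge : Real.exp ((99 / 100 * u x - 11 / 2) / 20) *
      (4 / 45 * Real.exp (-(u x / 100))) ≤ (wal s u i n I : ℝ) * g x (ctr i n I) := by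
    gcongr
  linarith

end RtaAux

/-- the state is a constant `N c` in a neighbourhood of `x` -/
theorem class_const {s u : ℍ → ℝ} (hs : Tame s) (hu : Tame u) (i : Bool) (T : ℝ) :
    ∃ N0 : ℝ, ∀ x, s x ≤ T → N0 ≤ u x → ∀ᶠ n in atTop, pf i n (wal s u i n) x ≤ T →
      ∃ c : Option Sq, ∀ J ∈ all n, |x.re - (ctr i n J).re| ≤ 2 * Real.exp (u x / 100) * x.im →
        len n J ≤ 2 * Real.exp (u x / 100) * x.im → Real.exp (-(u x / 100)) * x.im ≤ len n J →
        sta s u i n J = St.N c := by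
  refine ⟨500 * |T| + 500, fun x h1 hN => ?_⟩
  have habs : T ≤ |T| := le_abs_self T
  have habs0 : 0 ≤ |T| := abs_nonneg T
  have ht := x.im_pos
  have hE : 0 < Real.exp (u x / 10) := Real.exp_pos _
  have hr0 : 0 < Real.exp (u x / 100) := Real.exp_pos _
  have hr1 : 1 ≤ Real.exp (u x / 100) := Real.one_le_exp (by linarith)
  have hrE : 5 * Real.exp (u x / 100) ≤ Real.exp (u x / 10) := by
    have e1 : Real.exp (u x / 10) = Real.exp (u x / 100) * Real.exp (9 / 100 * u x) := by
      rw [← Real.exp_add]; ring_nf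
    have e2 : 5 ≤ Real.exp (9 / 100 * u x) := by
      have := Real.add_one_le_exp (9 / 100 * u x)
      linarith
    rw [e1]
    nlinarith
  filter_upwards [exists_size (Real.exp (u x / 10) * x.im) (by positivity),
    RtaAux.exists_gen (Real.exp (u x / 100) * x.im) (by positivity)] with n hn1 hn2 hpf
  -- the region
  set Reg : Sq → Prop := fun J => J ∈ all n ∧
    |x.re - (ctr i n J).re| ≤ 2 * Real.exp (u x / 100) * x.im ∧
        len n J ≤ 2 * Real.exp (u x / 100) * x.im ∧
        Real.exp (-(u x / 100)) * x.im ≤ len n J with hReg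
  have hanc : ∀ J, Reg J → ∃ K ∈ all n, ∃ c, Below J K ∧
      Real.exp (u x / 10) * x.im ≤ len n K ∧ len n K < 2 * (Real.exp (u x / 10) * x.im) ∧
      sta s u i n K = St.N c ∧ sta s u i n J = St.N c := by
    rintro J ⟨hJ, hre, hhi, hlo⟩
    obtain ⟨K, hK, hbK, -, hK1, hK2, -⟩ := hn1 J hJ (by nlinarith [mul_pos hr0 ht])
    obtain ⟨c, hc1, hc2⟩ := RtaAux.anc_state hs hu i h1 hN hbK hre hlo hK2.le
    exact ⟨K, hK, c, hbK, hK1, hK2, hc1, hc2⟩
  -- the main contradiction
  have main : ∀ J1 J2 K1 K2 c1 c2, Reg J1 → Reg J2 → K1 ∈ all n → K2 ∈ all n →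
      Below J1 K1 → Below J2 K2 → Real.exp (u x / 10) * x.im ≤ len n K1 →
      K1.1 = K2.1 → K1.2 < K2.2 → sta s u i n K1 = St.N c1 → sta s u i n K2 = St.N c2 →
      c1 = c2 := by
    intro J1 J2 K1 K2 c1 c2 hJ1 hJ2 hK1 hK2 b1 b2 hlen hgen hlt s1 s2
    by_contra hne
    obtain ⟨m, j⟩ := K1
    obtain ⟨m', j'⟩ := K2
    simp only at hgen hlt
    subst hgen
    have hcr1 := below_re i (n := n) b1
    have hcr2 := below_re i (n := n) b2
    have hll : len n (m, j') = len n (m, j) := rfl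
    rw [ctr_re i n (m, j)] at hcr1
    rw [ctr_re i n (m, j')] at hcr2
    rw [hll] at hcr2
    simp only at hcr1 hcr2
    have hp1 := len_pos n J1
    have hp2 := len_pos n J2
    have hpm := len_pos n (m, j)
    rw [abs_le] at hcr1 hcr2
    have hr1' := abs_le.1 hJ1.2.1
    have hr2' := abs_le.1 hJ2.2.1
    have hj : j' = j + 1 := by
      by_contra hcon
      have hj2 : (j : ℝ) + 2 ≤ j' := by
        have : j + 2 ≤ j' := by omega
        exact_mod_cast this
      have hmul : ((j : ℝ) + 2) * len n (m, j) ≤ (j' : ℝ) * len n (m, j) :=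
        mul_le_mul_of_nonneg_right hj2 hpm.le
      have h4 : 4 * (Real.exp (u x / 100) * x.im) < len n (m, j) := by
        refine lt_of_lt_of_le ?_ hlen
        nlinarith [mul_pos hr0 ht]
      linarith [hcr1.1, hcr1.2, hcr2.1, hcr2.2, hr1'.1, hr1'.2, hr2'.1, hr2'.2]
    subst hj
    obtain ⟨S, hS, hSm, e, he, hje⟩ := RtaAux.sep hK1 hK2 s1 s2 hne
    obtain ⟨q, hq, hq1, hq2⟩ := hn2
    -- the wall
    have hmq : m < q := by
      by_contra hcon
      push Not at hcon
      have : len n (m, j) ≤ 2 ^ n / 2 ^ q := by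
        unfold len
        simp only
        exact div_le_div_of_nonneg_left (by positivity) (by positivity)
          (pow_le_pow_right₀ (by norm_num) hcon)
      nlinarith [mul_pos hr0 ht]
    set I : Sq := (q, (j + 1) * 2 ^ (q - m)) with hI
    have hImem : I ∈ all n := by
      rw [mem_all] at hK2 ⊢
      simp only [hI]
      obtain ⟨_, h5, h6⟩ := hK2
      simp only at h5 h6
      have hsplit : (2 : ℤ) ^ q = 2 ^ m * 2 ^ (q - m) := by
        rw [← pow_add]; congr 1; omega
      have hpp : (0 : ℤ) < 2 ^ (q - m) := by positivity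
      refine ⟨hq, ?_, ?_⟩
      · rw [hsplit]; nlinarith
      · rw [hsplit]; nlinarith
    have hIw : isWall s u i n I := by
      refine ⟨S, hS, ?_, e, he, Or.inl ?_⟩
      · simp only [hI]; omega
      · simp only [hI]
        rw [hje, mul_assoc, ← pow_add]
        congr 2
        omega
    have hIlen : len n I = 2 ^ n / 2 ^ q := rfl
    have hIre : (ctr i n I).re = ((j : ℝ) + 1) * len n (m, j) + off i n + len n I / 2 := by
      rw [ctr_re]
      simp only [hI]
      push_cast
      have h7 : (2 : ℝ) ^ (q - m) * len n (q, (j + 1) * 2 ^ (q - m)) = len n (m, j) := by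
        unfold len
        simp only
        have : (2 : ℝ) ^ q = 2 ^ m * 2 ^ (q - m) := by
          rw [← pow_add]; congr 1; omega
        rw [this]
        field_simp
      rw [← h7]
      ring
    have hIx : |x.re - (ctr i n I).re| ≤ 3 * Real.exp (u x / 100) * x.im := by
      rw [hIre, abs_le]
      rw [← hIlen] at hq1 hq2
      push_cast at hcr2
      constructor
      · linarith [hcr1.1, hcr1.2, hcr2.1, hcr2.2, hr1'.1, hr1'.2, hr2'.1, hr2'.2]
      · linarith [hcr1.1, hcr1.2, hcr2.1, hcr2.2, hr1'.1, hr1'.2, hr2'.1, hr2'.2]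
    have hbig := RtaAux.wall_big hu i hN hImem hIw hIx (hIlen ▸ hq1) (hIlen ▸ hq2)
    linarith
  by_cases hex : ∃ J1, Reg J1
  · obtain ⟨J1, hJ1⟩ := hex
    obtain ⟨K1, hK1, c1, b1, l1, l1', s1, t1⟩ := hanc J1 hJ1
    refine ⟨c1, fun J hJ ha hb hc => ?_⟩
    have hRJ : Reg J := ⟨hJ, ha, hb, hc⟩
    obtain ⟨K2, hK2, c2, b2, l2, l2', s2, t2⟩ := hanc J hRJ
    rw [t2]
    congr 1
    have hg := RtaAux.gen_eq l1 l1' l2 l2'
    rcases lt_trichotomy K1.2 K2.2 with h | h | h
    · exact (main J1 J K1 K2 c1 c2 hJ1 hRJ hK1 hK2 b1 b2 l1 hg h s1 s2).symm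
    · have : K1 = K2 := Prod.ext hg h
      rw [this, s2] at s1
      injection s1
    · exact main J J1 K2 K1 c2 c1 hRJ hJ1 hK2 hK1 b2 b1 l2 hg.symm h s2 s1
  · refine ⟨none, fun J hJ ha hb hc => ?_⟩
    exact absurd ⟨J, hJ, ha, hb, hc⟩ hex

end

end Pool.Agent.Helper65.HP
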