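import Pool.Agent.Helper65.HP.Defs

/-! Module SQB: combinatorics of dyadic squares. -/

set_option autoImplicit false

namespace Pool.Agent.Helper65.HP

noncomputable section

theorem mem_all {n : ℕ} {J : Sq} :
    J ∈ all n ↔ J.1 ≤ 2 * n ∧ -(2 : ℤ) ^ J.1 ≤ J.2 ∧ J.2 < 2 ^ J.1 := by
  unfold all
  rw [Finset.mem_biUnion]
  constructor
  · rintro ⟨m, hm, hJ⟩
    rw [Finset.mem_image] at hJ
    obtain ⟨j, hj, rfl⟩ := hJ
    rw [Finset.mem_Ico] at hj
    rw [Finset.mem_range] at hm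
    exact ⟨by simpa using Nat.lt_succ_iff.1 hm, hj.1, hj.2⟩
  · rintro ⟨h1, h2, h3⟩
    refine ⟨J.1, Finset.mem_range.2 (Nat.lt_succ_iff.2 h1), ?_⟩
    rw [Finset.mem_image]
    exact ⟨J.2, Finset.mem_Ico.2 ⟨h2, h3⟩, rfl⟩

theorem below_refl (J : Sq) : Below J J := by
  simp [Below]

theorem SqbA.ediv2 (j : ℤ) (a b : ℕ) : j / 2 ^ a / 2 ^ b = j / 2 ^ (a + b) := by
  rw [Int.ediv_ediv_of_nonneg (by positivity), ← pow_add]

theorem Below.trans {J K I : Sq} (h : Below J K) (h' : Below K I) : Below J I := by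
  obtain ⟨h1, h2⟩ := h
  obtain ⟨h3, h4⟩ := h'
  refine ⟨h3.trans h1, ?_⟩
  rw [← h4, ← h2, SqbA.ediv2]
  congr 2
  omega

theorem Below.eq {J I : Sq} (h : Below J I) (h' : I.1 = J.1) : J = I := by
  obtain ⟨h1, h2⟩ := h
  rw [h', Nat.sub_self, pow_zero, Int.ediv_one] at h2
  exact Prod.ext h'.symm h2

theorem Below.antisymm {J I : Sq} (h : Below J I) (h' : Below I J) : J = I :=
  h.eq (le_antisymm h.1 h'.1)

/-- the squares containing `J` form a chain -/
theorem Below.chain {J I I' : Sq} (h : Below J I) (h' : Below J I') (hle : I.1 ≤ I'.1) :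
    Below I' I := by
  obtain ⟨h1, h2⟩ := h
  obtain ⟨h3, h4⟩ := h'
  refine ⟨hle, ?_⟩
  rw [← h4, ← h2, SqbA.ediv2]
  congr 2
  omega

theorem exists_anc (J : Sq) {m : ℕ} (h : m ≤ J.1) : ∃ I : Sq, I.1 = m ∧ Below J I :=
  ⟨(m, J.2 / 2 ^ (J.1 - m)), rfl, h, rfl⟩

theorem below_par {J : Sq} (h : 0 < J.1) : Below J (par J) := by
  refine ⟨Nat.sub_le _ _, ?_⟩
  have : J.1 - (par J).1 = 1 := by
    show J.1 - (J.1 - 1) = 1
    omega
  rw [this, pow_one]
  rfl

/-- a proper ancestor contains the parent -/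
theorem Below.par_below {J I : Sq} (h : Below J I) (hne : J ≠ I) :
    0 < J.1 ∧ Below (par J) I := by
  have h1 : I.1 < J.1 := by
    rcases Nat.lt_or_ge I.1 J.1 with h2 | h2
    · exact h2
    · exact absurd (h.eq (le_antisymm h.1 h2)) hne
  have h2 : 0 < J.1 := by omega
  refine ⟨h2, Below.chain h (below_par h2) ?_⟩
  show I.1 ≤ J.1 - 1
  omega

theorem anc_mem {n : ℕ} {J I : Sq} (h : J ∈ all n) (hb : Below J I) : I ∈ all n := by
  rw [mem_all] at h ⊢
  obtain ⟨h1, h2, h3⟩ := h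
  obtain ⟨h4, h5⟩ := hb
  have h6 : (2 : ℤ) ^ J.1 = 2 ^ I.1 * 2 ^ (J.1 - I.1) := by
    rw [← pow_add]
    congr 1
    omega
  have h7 : (0 : ℤ) < 2 ^ (J.1 - I.1) := by positivity
  refine ⟨h4.trans h1, ?_, ?_⟩
  · rw [← h5, Int.le_ediv_iff_mul_le h7]
    rw [h6] at h2
    linarith
  · rw [← h5, Int.ediv_lt_iff_lt_mul h7]
    rw [h6] at h3
    exact h3

theorem mem_dn {n : ℕ} {I J : Sq} : J ∈ dn n I ↔ J ∈ all n ∧ Below J I := by
  unfold dn; simp

theorem par_child (I : Sq) : par (I.1 + 1, 2 * I.2) = I ∧ par (I.1 + 1, 2 * I.2 + 1) = I := by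
  constructor
  · refine Prod.ext ?_ ?_
    · show I.1 + 1 - 1 = I.1
      omega
    · show 2 * I.2 / 2 = I.2
      omega
  · refine Prod.ext ?_ ?_
    · show I.1 + 1 - 1 = I.1
      omega
    · show (2 * I.2 + 1) / 2 = I.2
      omega

theorem dn_last {n : ℕ} {I : Sq} (hI : I ∈ all n) (h : I.1 = 2 * n) : dn n I = {I} := by
  ext J
  rw [mem_dn, Finset.mem_singleton]
  constructor
  · rintro ⟨h1, h2⟩
    have h3 := (mem_all.1 h1).1
    have h4 := h2.1
    exact h2.eq (by omega)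
  · rintro rfl
    exact ⟨hI, below_refl _⟩

theorem SqbA.below_child (I : Sq) :
    Below (I.1 + 1, 2 * I.2) I ∧ Below (I.1 + 1, 2 * I.2 + 1) I := by
  have h1 := below_par (J := (I.1 + 1, 2 * I.2)) (by simp)
  have h2 := below_par (J := (I.1 + 1, 2 * I.2 + 1)) (by simp)
  rw [(par_child I).1] at h1
  rw [(par_child I).2] at h2
  exact ⟨h1, h2⟩

theorem child_mem {n : ℕ} {I : Sq} (hI : I ∈ all n) (h : I.1 < 2 * n) :
    (I.1 + 1, 2 * I.2) ∈ all n ∧ (I.1 + 1, 2 * I.2 + 1) ∈ all n := by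
  rw [mem_all] at hI
  rw [mem_all, mem_all]
  obtain ⟨_, h2, h3⟩ := hI
  have h4 : (2 : ℤ) ^ (I.1 + 1) = 2 * 2 ^ I.1 := by ring
  refine ⟨⟨by simpa using h, ?_, ?_⟩, ⟨by simpa using h, ?_, ?_⟩⟩ <;> simp only [h4] <;> omega

/-- a proper descendant is below one of the two children -/
theorem Below.cases {J I : Sq} (h : Below J I) (hne : J ≠ I) :
    Below J (I.1 + 1, 2 * I.2) ∨ Below J (I.1 + 1, 2 * I.2 + 1) := by
  have h1 : I.1 < J.1 := by
    rcases Nat.lt_or_ge I.1 J.1 with h2 | h2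
    · exact h2
    · exact absurd (h.eq (le_antisymm h.1 h2)) hne
  obtain ⟨_, h2⟩ := h
  have h3 : J.1 - I.1 = (J.1 - (I.1 + 1)) + 1 := by omega
  rw [h3, ← SqbA.ediv2, pow_one] at h2
  have h4 : J.2 / 2 ^ (J.1 - (I.1 + 1)) = 2 * I.2 ∨
      J.2 / 2 ^ (J.1 - (I.1 + 1)) = 2 * I.2 + 1 := by omega
  rcases h4 with h4 | h4
  · exact Or.inl ⟨h1, h4⟩
  · exact Or.inr ⟨h1, h4⟩

theorem sum_dn {n : ℕ} {I : Sq} (hI : I ∈ all n) (h : I.1 < 2 * n) (f : Sq → ℝ) :
    ∑ J ∈ dn n I, f J = f I + ∑ J ∈ dn n (I.1 + 1, 2 * I.2), f J +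
      ∑ J ∈ dn n (I.1 + 1, 2 * I.2 + 1), f J := by
  classical
  have hd12 : Disjoint (dn n (I.1 + 1, 2 * I.2)) (dn n (I.1 + 1, 2 * I.2 + 1)) := by
    rw [Finset.disjoint_left]
    intro J h1 h2
    have e1 := Below.chain (mem_dn.1 h1).2 (mem_dn.1 h2).2 (le_refl _)
    have e2 := e1.eq rfl
    have e3 := congrArg Prod.snd e2
    simp at e3
  have hd0 : Disjoint {I} (dn n (I.1 + 1, 2 * I.2) ∪ dn n (I.1 + 1, 2 * I.2 + 1)) := by
    rw [Finset.disjoint_singleton_left, Finset.mem_union]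
    rintro (h1 | h1)
    · have := (mem_dn.1 h1).2.1
      simp at this
    · have := (mem_dn.1 h1).2.1
      simp at this
  have hU : dn n I = {I} ∪ (dn n (I.1 + 1, 2 * I.2) ∪ dn n (I.1 + 1, 2 * I.2 + 1)) := by
    ext J
    rw [Finset.mem_union, Finset.mem_union, Finset.mem_singleton, mem_dn, mem_dn, mem_dn]
    constructor
    · rintro ⟨h1, h2⟩
      by_cases hJ : J = I
      · exact Or.inl hJ
      · rcases h2.cases hJ with h3 | h3
        · exact Or.inr (Or.inl ⟨h1, h3⟩)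
        · exact Or.inr (Or.inr ⟨h1, h3⟩)
    · rintro (rfl | ⟨h1, h2⟩ | ⟨h1, h2⟩)
      · exact ⟨hI, below_refl _⟩
      · exact ⟨h1, h2.trans (SqbA.below_child I).1⟩
      · exact ⟨h1, h2.trans (SqbA.below_child I).2⟩
  rw [hU, Finset.sum_union hd0, Finset.sum_union hd12, Finset.sum_singleton]
  ring

theorem len_child (n : ℕ) (I : Sq) : len n (I.1 + 1, 2 * I.2) = len n I / 2 ∧
    len n (I.1 + 1, 2 * I.2 + 1) = len n I / 2 := by
  unfold len
  constructor <;> simp only [pow_succ] <;> field_simp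

theorem len_par {n : ℕ} {J : Sq} (h : 0 < J.1) : len n (par J) = 2 * len n J := by
  unfold len par
  obtain ⟨k, hk⟩ : ∃ k, J.1 = k + 1 := ⟨J.1 - 1, by omega⟩
  simp only [hk, Nat.add_sub_cancel, pow_succ]
  field_simp

theorem Below.len_le {n : ℕ} {J I : Sq} (h : Below J I) : len n J ≤ len n I := by
  unfold len
  apply div_le_div_of_nonneg_left (by positivity) (by positivity)
  exact pow_le_pow_right₀ (by norm_num) h.1

/-- induction from the last generation upwards -/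
theorem all_induction {n : ℕ} {P : Sq → Prop}
    (h0 : ∀ I ∈ all n, I.1 = 2 * n → P I)
    (h1 : ∀ I ∈ all n, I.1 < 2 * n → P (I.1 + 1, 2 * I.2) → P (I.1 + 1, 2 * I.2 + 1) → P I) :
    ∀ I ∈ all n, P I := by
  have key : ∀ k : ℕ, ∀ I ∈ all n, 2 * n - I.1 = k → P I := by
    intro k
    induction k with
    | zero =>
      intro I hI hk
      have := (mem_all.1 hI).1
      exact h0 I hI (by omega)
    | succ k ih =>
      intro I hI hk
      have hlt : I.1 < 2 * n := by omega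
      obtain ⟨m1, m2⟩ := child_mem hI hlt
      refine h1 I hI hlt (ih _ m1 ?_) (ih _ m2 ?_)
      · show 2 * n - (I.1 + 1) = k
        omega
      · show 2 * n - (I.1 + 1) = k
        omega
  intro I hI
  exact key _ I hI rfl

end

end Pool.Agent.Helper65.HP
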