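import Pool.Agent.Helper65.HP.Sqb

/-! Module SQC: antichains and packing of dyadic squares. -/

set_option autoImplicit false

namespace Pool.Agent.Helper65.HP

noncomputable section

theorem SqcA.below_child (I : Sq) :
    Below (I.1 + 1, 2 * I.2) I ∧ Below (I.1 + 1, 2 * I.2 + 1) I := by
  have h1 := below_par (J := (I.1 + 1, 2 * I.2)) (by simp)
  have h2 := below_par (J := (I.1 + 1, 2 * I.2 + 1)) (by simp)
  rw [(par_child I).1] at h1
  rw [(par_child I).2] at h2
  exact ⟨h1, h2⟩

/-- disjoint squares in `I` have total length at most `len I` -/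
theorem sum_disjoint_le {n : ℕ} {I : Sq} (hI : I ∈ all n) (F : Finset Sq) (hF : F ⊆ dn n I)
    (hd : ∀ J ∈ F, ∀ K ∈ F, Below J K → J = K) : ∑ J ∈ F, len n J ≤ len n I := by
  classical
  have key : ∀ I ∈ all n, ∀ F : Finset Sq, F ⊆ dn n I →
      (∀ J ∈ F, ∀ K ∈ F, Below J K → J = K) → ∑ J ∈ F, len n J ≤ len n I := by
    apply all_induction
    · intro I hI h F hF _
      rw [dn_last hI h] at hF
      calc ∑ J ∈ F, len n J ≤ ∑ J ∈ ({I} : Finset Sq), len n J :=
            Finset.sum_le_sum_of_subset_of_nonneg hF (fun J _ _ => (len_pos n J).le)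
        _ = len n I := by simp
    · intro I hI h ih1 ih2 F hF hd
      by_cases hIF : I ∈ F
      · have : F ⊆ {I} := by
          intro J hJ
          rw [Finset.mem_singleton]
          exact hd J hJ I hIF (mem_dn.1 (hF hJ)).2
        calc ∑ J ∈ F, len n J ≤ ∑ J ∈ ({I} : Finset Sq), len n J :=
              Finset.sum_le_sum_of_subset_of_nonneg this (fun J _ _ => (len_pos n J).le)
          _ = len n I := by simp
      · rw [← Finset.sum_filter_add_sum_filter_not F (fun J => Below J (I.1 + 1, 2 * I.2))]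
        have e1 := ih1 (F.filter (fun J => Below J (I.1 + 1, 2 * I.2))) (by
          intro J hJ
          rw [Finset.mem_filter] at hJ
          exact mem_dn.2 ⟨(mem_dn.1 (hF hJ.1)).1, hJ.2⟩) (by
          intro J hJ K hK
          exact hd J (Finset.mem_filter.1 hJ).1 K (Finset.mem_filter.1 hK).1)
        have e2 := ih2 (F.filter (fun J => ¬ Below J (I.1 + 1, 2 * I.2))) (by
          intro J hJ
          rw [Finset.mem_filter] at hJ
          have hJ' := mem_dn.1 (hF hJ.1)
          have hne : J ≠ I := fun h => hIF (h ▸ hJ.1)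
          rcases Below.cases hJ'.2 hne with h | h
          · exact absurd h hJ.2
          · exact mem_dn.2 ⟨hJ'.1, h⟩) (by
          intro J hJ K hK
          exact hd J (Finset.mem_filter.1 hJ).1 K (Finset.mem_filter.1 hK).1)
        have e3 := len_child n I
        rw [e3.1] at e1
        rw [e3.2] at e2
        linarith
  exact key I hI F hF hd

open Classical in
/-- the maximal squares with property `P` strictly below `I` -/
def nxt (n : ℕ) (P : Sq → Prop) (I : Sq) : Finset Sq :=
  (dn n I).filter fun J => P J ∧ J ≠ I ∧ ∀ K, Below J K → Below K I → K ≠ I → P K → K = J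

theorem SqcA.mem_nxt {n : ℕ} {P : Sq → Prop} {I J : Sq} : J ∈ nxt n P I ↔ (J ∈ all n ∧ Below J I) ∧
    P J ∧ J ≠ I ∧ ∀ K, Below J K → Below K I → K ≠ I → P K → K = J := by
  classical
  unfold nxt
  rw [Finset.mem_filter, mem_dn]

theorem nxt_disjoint {n : ℕ} {P : Sq → Prop} {I : Sq} :
    ∀ J ∈ nxt n P I, ∀ K ∈ nxt n P I, Below J K → J = K := by
  intro J hJ K hK h
  rw [SqcA.mem_nxt] at hJ hK
  exact (hJ.2.2.2 K h hK.1.2 hK.2.2.1 hK.2.1).symm

theorem exists_nxt {n : ℕ} {P : Sq → Prop} {I J : Sq} (hJ : J ∈ dn n I) (hP : P J)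
    (hne : J ≠ I) : ∃ K ∈ nxt n P I, Below J K := by
  classical
  have hne' : ((dn n I).filter (fun K => Below J K ∧ P K ∧ K ≠ I)).Nonempty :=
    ⟨J, Finset.mem_filter.2 ⟨hJ, below_refl J, hP, hne⟩⟩
  obtain ⟨K, hK, hmin⟩ := Finset.exists_min_image _ (fun K : Sq => K.1) hne'
  rw [Finset.mem_filter, mem_dn] at hK
  refine ⟨K, SqcA.mem_nxt.2 ⟨hK.1, hK.2.2.1, hK.2.2.2, ?_⟩, hK.2.1⟩
  intro K' h1 h2 h3 h4
  have h5 : K' ∈ (dn n I).filter (fun K => Below J K ∧ P K ∧ K ≠ I) := by
    rw [Finset.mem_filter, mem_dn]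
    exact ⟨⟨anc_mem hK.1.1 h1, h2⟩, hK.2.1.trans h1, h4, h3⟩
  have h6 := hmin K' h5
  have h7 : K'.1 = K.1 := le_antisymm h1.1 h6
  exact (h1.eq h7).symm

open Classical in
/-- indicator family -/
def ind (P : Sq → Prop) (J : Sq) : ℕ := if P J then 1 else 0

/-- packing from the half property -/
theorem pack_of_half {n : ℕ} {P : Sq → Prop}
    (h : ∀ S ∈ all n, P S → ∑ J ∈ nxt n P S, len n J ≤ len n S / 2) : Packed n (ind P) 2 := by
  classical
  let M : Sq → ℝ := fun I => if P I then len n I else ∑ J ∈ nxt n P I, len n J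
  have hM : ∀ I ∈ all n, M I ≤ len n I := by
    intro I hI
    by_cases hP : P I
    · simp [M, hP]
    · simp only [M, hP, if_false]
      exact sum_disjoint_le hI _ (by
        intro J hJ
        rw [SqcA.mem_nxt] at hJ
        exact mem_dn.2 hJ.1) nxt_disjoint
  have hM0 : ∀ I, 0 ≤ ∑ J ∈ nxt n P I, len n J := fun I =>
    Finset.sum_nonneg (fun J _ => (len_pos n J).le)
  have key : ∀ I ∈ all n, ∑ J ∈ dn n I, (ind P J : ℝ) * len n J ≤ 2 * M I := by
    apply all_induction
    · intro I hI hl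
      rw [dn_last hI hl, Finset.sum_singleton]
      by_cases hP : P I
      · simp only [ind, M, hP, if_true]
        have := len_pos n I
        push_cast
        linarith
      · simp only [ind, M, hP, if_false]
        have := hM0 I
        push_cast
        linarith
    · intro I hI hl ih1 ih2
      rw [sum_dn hI hl (fun J => (ind P J : ℝ) * len n J)]
      obtain ⟨b1, b2⟩ := SqcA.below_child I
      obtain ⟨m1, m2⟩ := child_mem hI hl
      -- the part of a child
      have hpart : ∀ c : Sq, c.1 = I.1 + 1 → Below c I → c ∈ all n →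
          ∀ J, (if P c then J ∈ ({c} : Finset Sq) else J ∈ nxt n P c) →
            J ∈ nxt n P I ∧ Below J c := by
        intro c hc hcI hcm J hJ
        have hgen : ∀ K, Below K I → K ≠ I → c.1 ≤ K.1 := by
          intro K hK hne
          have h1 := hK.1
          rcases Nat.lt_or_ge I.1 K.1 with h2 | h2
          · omega
          · exact absurd (hK.eq (le_antisymm h1 h2)) hne
        by_cases hP : P c
        · rw [if_pos hP, Finset.mem_singleton] at hJ
          subst hJ
          refine ⟨SqcA.mem_nxt.2 ⟨⟨hcm, hcI⟩, hP, ?_, ?_⟩, below_refl _⟩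
          · intro h
            rw [h] at hc
            omega
          · intro K h1 h2 h3 _
            exact (h1.eq (le_antisymm h1.1 (hgen K h2 h3))).symm
        · rw [if_neg hP, SqcA.mem_nxt] at hJ
          obtain ⟨⟨hJ1, hJ2⟩, hJ3, hJ4, hJ5⟩ := hJ
          refine ⟨SqcA.mem_nxt.2 ⟨⟨hJ1, hJ2.trans hcI⟩, hJ3, ?_, ?_⟩, hJ2⟩
          · intro h
            have := hJ2.1
            rw [h] at this
            omega
          · intro K h1 h2 h3 h4
            have h5 : Below K c := Below.chain hJ2 h1 (hgen K h2 h3)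
            by_cases hKc : K = c
            · exact absurd (hKc ▸ h4) hP
            · exact hJ5 K h1 h5 hKc h4
      let part : Sq → Finset Sq := fun c => if P c then {c} else nxt n P c
      have hpm : ∀ c J, J ∈ part c ↔ (if P c then J ∈ ({c} : Finset Sq) else J ∈ nxt n P c) := by
        intro c J
        by_cases hP : P c <;> simp [part, hP]
      have hMp : ∀ c, M c = ∑ J ∈ part c, len n J := by
        intro c
        by_cases hP : P c <;> simp [part, M, hP]
      have hdis : Disjoint (part (I.1 + 1, 2 * I.2)) (part (I.1 + 1, 2 * I.2 + 1)) := by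
        rw [Finset.disjoint_left]
        intro J h1 h2
        have e1 := (hpart _ rfl b1 m1 J ((hpm _ _).1 h1)).2
        have e2 := (hpart _ rfl b2 m2 J ((hpm _ _).1 h2)).2
        have e3 := Below.chain e1 e2 (le_refl _)
        have e4 := e3.eq rfl
        have e5 := congrArg Prod.snd e4
        simp at e5
      have hsum : M (I.1 + 1, 2 * I.2) + M (I.1 + 1, 2 * I.2 + 1) ≤ ∑ J ∈ nxt n P I, len n J := by
        rw [hMp, hMp, ← Finset.sum_union hdis]
        apply Finset.sum_le_sum_of_subset_of_nonneg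
        · intro J hJ
          rcases Finset.mem_union.1 hJ with h1 | h1
          · exact (hpart _ rfl b1 m1 J ((hpm _ _).1 h1)).1
          · exact (hpart _ rfl b2 m2 J ((hpm _ _).1 h1)).1
        · intro J _ _
          exact (len_pos n J).le
      by_cases hP : P I
      · have h3 := h I hI hP
        have h4 : M I = len n I := by simp [M, hP]
        have h5 : (ind P I : ℝ) = 1 := by simp [ind, hP]
        rw [h4, h5]
        linarith
      · have h4 : M I = ∑ J ∈ nxt n P I, len n J := by simp [M, hP]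
        have h5 : (ind P I : ℝ) = 0 := by simp [ind, hP]
        rw [h4, h5]
        linarith
  intro I hI
  have h1 := key I hI
  have h2 := hM I hI
  linarith

/-- two step estimate -/
theorem two_step {n : ℕ} {S : Sq} (hS : S ∈ all n) (F : Finset Sq) (hF : F ⊆ dn n S)
    (hd : ∀ J ∈ F, ∀ K ∈ F, Below J K → J = K) (Q : Sq → Prop)
    (hQ : ∀ J ∈ F, ∃ K, Below J K ∧ Below K S ∧ Q K) {a b : ℝ} (hb0 : 0 ≤ b)
    (hb : ∀ K ∈ dn n S, Q K → ∀ F' ⊆ F, F' ⊆ dn n K → ∑ J ∈ F', len n J ≤ b * len n K)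
    (ha : ∀ F' ⊆ dn n S, (∀ J ∈ F', Q J) → (∀ J ∈ F', ∀ K ∈ F', Below J K → J = K) →
      ∑ J ∈ F', len n J ≤ a * len n S) :
    ∑ J ∈ F, len n J ≤ a * b * len n S := by
  classical
  have hex : ∀ J : Sq, ∃ K : Sq, J ∈ F → (Below J K ∧ Below K S ∧ Q K ∧
      ∀ K', Below J K' → Below K' S → Q K' → K.1 ≤ K'.1) := by
    intro J
    by_cases hJ : J ∈ F
    · have hne : ((dn n S).filter (fun K => Below J K ∧ Q K)).Nonempty := by
        obtain ⟨K, h1, h2, h3⟩ := hQ J hJ
        refine ⟨K, Finset.mem_filter.2 ⟨mem_dn.2 ⟨anc_mem (mem_dn.1 (hF hJ)).1 h1, h2⟩, h1, h3⟩⟩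
      obtain ⟨K, hK, hmin⟩ := Finset.exists_min_image _ (fun K : Sq => K.1) hne
      rw [Finset.mem_filter, mem_dn] at hK
      refine ⟨K, fun _ => ⟨hK.2.1, hK.1.2, hK.2.2, ?_⟩⟩
      intro K' h1 h2 h3
      exact hmin K' (Finset.mem_filter.2 ⟨mem_dn.2 ⟨anc_mem (mem_dn.1 (hF hJ)).1 h1, h2⟩, h1, h3⟩)
    · exact ⟨J, fun h => absurd h hJ⟩
  choose κ hκ using hex
  have hmaps : ∀ J ∈ F, κ J ∈ F.image κ := fun J hJ => Finset.mem_image_of_mem κ hJ
  rw [← Finset.sum_fiberwise_of_maps_to hmaps]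
  have hdn : ∀ J ∈ F, κ J ∈ dn n S := fun J hJ =>
    mem_dn.2 ⟨anc_mem (mem_dn.1 (hF hJ)).1 (hκ J hJ).1, (hκ J hJ).2.1⟩
  have step1 : ∀ K ∈ F.image κ, ∑ J ∈ F.filter (fun J => κ J = K), len n J ≤ b * len n K := by
    intro K hK
    obtain ⟨J, hJ, rfl⟩ := Finset.mem_image.1 hK
    apply hb _ (hdn J hJ) (hκ J hJ).2.2.1 _ (Finset.filter_subset _ _)
    intro J' hJ'
    rw [Finset.mem_filter] at hJ'
    refine mem_dn.2 ⟨(mem_dn.1 (hF hJ'.1)).1, ?_⟩
    rw [← hJ'.2]
    exact (hκ J' hJ'.1).1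
  have step2 : ∑ K ∈ F.image κ, len n K ≤ a * len n S := by
    apply ha
    · intro K hK
      obtain ⟨J, hJ, rfl⟩ := Finset.mem_image.1 hK
      exact hdn J hJ
    · intro K hK
      obtain ⟨J, hJ, rfl⟩ := Finset.mem_image.1 hK
      exact (hκ J hJ).2.2.1
    · intro K hK K' hK' hb'
      obtain ⟨J, hJ, rfl⟩ := Finset.mem_image.1 hK
      obtain ⟨J', hJ', rfl⟩ := Finset.mem_image.1 hK'
      have h1 := (hκ J hJ).2.2.2 (κ J') ((hκ J hJ).1.trans hb') (hκ J' hJ').2.1 (hκ J' hJ').2.2.1
      exact hb'.eq (le_antisymm hb'.1 h1)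
  calc ∑ K ∈ F.image κ, ∑ J ∈ F.filter (fun J => κ J = K), len n J
      ≤ ∑ K ∈ F.image κ, b * len n K := Finset.sum_le_sum step1
    _ = b * ∑ K ∈ F.image κ, len n K := by rw [Finset.mul_sum]
    _ ≤ b * (a * len n S) := mul_le_mul_of_nonneg_left step2 hb0
    _ = a * b * len n S := by ring

end

end Pool.Agent.Helper65.HP
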