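import Pool.Agent.Helper65.HP.KerC

/-! Module TAM: tame functions. -/

set_option autoImplicit false

namespace Pool.Agent.Helper65.HP

open UpperHalfPlane Filter Topology

noncomputable section

theorem Tame.lip {φ : ℍ → ℝ} (h : Tame φ) (z w : ℍ) :
    φ z ≤ φ w + Real.log (1 / g z w) + 3 := by
  have h1 := h.2 1 {z} (φ z) le_rfl (fun x => by rw [pot_singleton]; exact g_le_one _ _)
    (fun x hx => by rw [Multiset.mem_singleton] at hx; rw [hx]) w
  rw [pot_singleton, g_comm, mul_one] at h1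
  have hg := g_pos z w
  have h2 := Real.log_le_log hg h1
  rw [Real.log_mul (by norm_num) (Real.exp_pos _).ne', Real.log_exp] at h2
  have h3 : Real.log 20 < 3 := by
    rw [Real.log_lt_iff_lt_exp (by norm_num)]
    have h4 := Real.exp_one_gt_d9
    have h5 : Real.exp 3 = Real.exp 1 ^ 3 := by rw [← Real.exp_nat_mul]; norm_num
    rw [h5]
    have h6 : (2.7182818283 : ℝ) ^ 3 ≤ Real.exp 1 ^ 3 := pow_le_pow_left₀ (by norm_num) h4.le 3
    have h7 : (20 : ℝ) < 2.7182818283 ^ 3 := by norm_num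
    linarith
  rw [one_div, Real.log_inv]
  linarith

theorem Tame.min {φ ψ : ℍ → ℝ} (h : Tame φ) (h' : Tame ψ) :
    Tame fun z => min (φ z) (ψ z) := by
  refine ⟨fun z => le_min (h.1 z) (h'.1 z), fun A W a hA hW ha z => ?_⟩
  rcases le_total (φ z) (ψ z) with h1 | h1
  · simp only [min_eq_left h1]
    exact h.2 A W a hA hW (fun w hw => (ha w hw).trans (min_le_left _ _)) z
  · simp only [min_eq_right h1]
    exact h'.2 A W a hA hW (fun w hw => (ha w hw).trans (min_le_right _ _)) z

theorem Tame.iInf {φ : ℕ → ℍ → ℝ} (h : ∀ N, Tame (φ N)) : Tame fun z => ⨅ N, φ N z := by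
  have hbdd : ∀ z, BddBelow (Set.range fun N => φ N z) := fun z =>
    ⟨0, by rintro _ ⟨N, rfl⟩; exact (h N).1 z⟩
  refine ⟨fun z => le_ciInf fun N => (h N).1 z, fun A W a hA hW ha z => ?_⟩
  have h1 : ∀ N, pot W z ≤ 20 * A * Real.exp (φ N z - a) := fun N =>
    (h N).2 A W a hA hW (fun w hw => (ha w hw).trans (ciInf_le (hbdd w) N)) z
  rcases (pot_nonneg W z).eq_or_lt with h0 | h0
  · rw [← h0]; positivity
  · have h2 : ∀ N, Real.log (pot W z / (20 * A)) + a ≤ φ N z := by
      intro N
      have h3 : pot W z / (20 * A) ≤ Real.exp (φ N z - a) := by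
        rw [div_le_iff₀ (by positivity)]
        linarith [h1 N]
      have h4 := Real.log_le_log (by positivity) h3
      rw [Real.log_exp] at h4
      linarith
    have h3 : Real.log (pot W z / (20 * A)) + a ≤ ⨅ N, φ N z := le_ciInf h2
    have h4 : pot W z / (20 * A) ≤ Real.exp ((⨅ N, φ N z) - a) := by
      rw [← Real.log_le_iff_le_exp (by positivity)]
      linarith
    rw [div_le_iff₀ (by positivity)] at h4
    linarith

theorem Tame.add {φ : ℍ → ℝ} (h : Tame φ) {c : ℝ} (hc : 0 ≤ c) : Tame fun z => φ z + c := by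
  refine ⟨fun z => add_nonneg (h.1 z) hc, fun A W a hA hW ha z => ?_⟩
  have := h.2 A W (a - c) hA hW (fun w hw => by linarith [ha w hw]) z
  have e : φ z + c - a = φ z - (a - c) := by ring
  rw [e]
  exact this

theorem Tame.sub {φ : ℍ → ℝ} (h : Tame φ) (c : ℝ) : Tame fun z => max (φ z - c) 0 := by
  refine ⟨fun z => le_max_right _ _, fun A W a hA hW ha z => ?_⟩
  rcases le_or_gt a 0 with h0 | h0
  · have h1 : (1 : ℝ) ≤ Real.exp (max (φ z - c) 0 - a) := by
      apply Real.one_le_exp
      have := le_max_right (φ z - c) 0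
      linarith
    have h2 := hW z
    nlinarith
  · have h1 := h.2 A W (a + c) hA hW (fun w hw => by
      have h2 : a ≤ max (φ w - c) 0 := ha w hw
      rcases le_total (φ w - c) 0 with h3 | h3
      · rw [max_eq_right h3] at h2; linarith
      · rw [max_eq_left h3] at h2; linarith) z
    refine h1.trans ?_
    apply mul_le_mul_of_nonneg_left _ (by positivity)
    apply Real.exp_le_exp.mpr
    have := le_max_left (φ z - c) 0
    linarith

/-- tameness for families of squares -/
theorem Tame.fam {φ : ℍ → ℝ} (h : Tame φ) {i : Bool} {n : ℕ} {μ : Sq → ℕ} {A a : ℝ}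
    (hA : 1 ≤ A) (h1 : ∀ z, pf i n μ z ≤ A) (h2 : ∀ J ∈ all n, μ J ≠ 0 → a ≤ φ (ctr i n J))
    (z : ℍ) : pf i n μ z ≤ 20 * A * Real.exp (φ z - a) := by
  have := h.2 A (ms i n μ) a hA (fun z => by rw [pot_ms]; exact h1 z) (fun w hw => by
    obtain ⟨J, hJ, hne, rfl⟩ := mem_ms hw
    exact h2 J hJ hne) z
  rw [pot_ms] at this
  exact this

end

end Pool.Agent.Helper65.HP
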