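import Pool.Agent.Helper65.HP.Sqc
import Pool.Agent.Helper65.HP.Tam

/-! Module SQG: geometry of dyadic squares. -/

set_option autoImplicit false

namespace Pool.Agent.Helper65.HP

open UpperHalfPlane Filter Topology

noncomputable section

theorem ctr_im (i : Bool) (n : ℕ) (J : Sq) : (ctr i n J).im = len n J := rfl

theorem ctr_re (i : Bool) (n : ℕ) (J : Sq) :
    (ctr i n J).re = ((J.2 : ℝ) + 1 / 2) * len n J + off i n := rfl

namespace SqgAux

theorem len_eq {n : ℕ} {J I : Sq} (h : I.1 ≤ J.1) :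
    len n I = 2 ^ (J.1 - I.1) * len n J := by
  unfold len
  have e : (2 : ℝ) ^ J.1 = 2 ^ (J.1 - I.1) * 2 ^ I.1 := by
    rw [← pow_add]; congr 1; omega
  rw [e]
  have h1 : (2 : ℝ) ^ (J.1 - I.1) ≠ 0 := by positivity
  have h2 : (2 : ℝ) ^ I.1 ≠ 0 := by positivity
  field_simp

/-- the common denominator -/
theorem D_pos (z w : ℍ) : 0 < (z.re - w.re) ^ 2 + (z.im + w.im) ^ 2 := by
  have h1 := z.im_pos
  have h2 := w.im_pos
  positivity

end SqgAux

open SqgAux

/-- a square contained in `I` has its centre over `I` -/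
theorem below_re (i : Bool) {n : ℕ} {J I : Sq} (h : Below J I) :
    |(ctr i n J).re - (ctr i n I).re| ≤ (len n I - len n J) / 2 := by
  obtain ⟨h1, h2⟩ := h
  have hl := len_pos n J
  rw [ctr_re, ctr_re, len_eq h1]
  set k := J.1 - I.1
  have hp : (0 : ℤ) < 2 ^ k := by positivity
  have e1 : J.2 = 2 ^ k * I.2 + J.2 % 2 ^ k := by
    rw [← h2]; exact (Int.mul_ediv_add_emod _ _).symm
  have e2 : 0 ≤ J.2 % 2 ^ k := Int.emod_nonneg _ hp.ne'
  have e3 : J.2 % 2 ^ k + 1 ≤ 2 ^ k := Int.emod_lt_of_pos _ hp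
  have e1' : (J.2 : ℝ) = 2 ^ k * (I.2 : ℝ) + ((J.2 % 2 ^ k : ℤ) : ℝ) := by exact_mod_cast e1
  have e2' : (0 : ℝ) ≤ ((J.2 % 2 ^ k : ℤ) : ℝ) := by exact_mod_cast e2
  have e3' : ((J.2 % 2 ^ k : ℤ) : ℝ) + 1 ≤ 2 ^ k := by exact_mod_cast e3
  generalize ((J.2 % 2 ^ k : ℤ) : ℝ) = r at e1' e2' e3'
  rw [e1']
  generalize len n J = l at *
  generalize (2 : ℝ) ^ k = p at *
  have e : (p * (I.2 : ℝ) + r + 1 / 2) * l + off i n - (((I.2 : ℝ) + 1 / 2) * (p * l) + off i n) =
      (r + 1 / 2 - p / 2) * l := by ring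
  rw [e, abs_mul, abs_of_pos hl]
  have : |r + 1 / 2 - p / 2| ≤ (p - 1) / 2 := by
    rw [abs_le]; constructor <;> linarith
  calc |r + 1 / 2 - p / 2| * l ≤ (p - 1) / 2 * l := by gcongr
    _ = (p * l - l) / 2 := by ring

namespace SqgAux

theorem re_sq (i : Bool) {n : ℕ} {J I : Sq} (h : Below J I) :
    ((ctr i n J).re - (ctr i n I).re) ^ 2 ≤ (len n I) ^ 2 / 4 := by
  have h1 := below_re i (n := n) h
  have h2 := len_pos n J
  have h3 := len_pos n I
  have h4 : |(ctr i n J).re - (ctr i n I).re| ≤ len n I / 2 := by linarith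
  have h5 := abs_le.mp h4
  nlinarith [h5.1, h5.2]

end SqgAux

/-- (q1) -/
theorem g_below (i : Bool) {n : ℕ} {J I : Sq} (h : Below J I) :
    len n J / len n I ≤ g (ctr i n I) (ctr i n J) := by
  have h1 := below_re i (n := n) h
  have hJ := len_pos n J
  have hI := len_pos n I
  have hle : len n J ≤ len n I := h.len_le
  have h5 := abs_le.mp h1
  unfold g
  have hD := D_pos (ctr i n I) (ctr i n J)
  rw [div_le_div_iff₀ hI hD]
  rw [ctr_im, ctr_im] at *
  set d := (ctr i n I).re - (ctr i n J).re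
  have hd : d ^ 2 ≤ ((len n I - len n J) / 2) ^ 2 := by
    apply sq_le_sq'
    · simp only [d]; linarith [h5.2]
    · simp only [d]; linarith [h5.1]
  have hD4 : d ^ 2 + (len n I + len n J) ^ 2 ≤ 4 * len n I ^ 2 := by nlinarith
  calc len n J * (d ^ 2 + (len n I + len n J) ^ 2) ≤ len n J * (4 * len n I ^ 2) := by gcongr
    _ = 4 * len n I * len n J * len n I := by ring

/-- (q1') small squares seen from a higher point, upper bound -/
theorem g_dn_le (i : Bool) {n : ℕ} {J I : Sq} (h : Below J I) {z : ℍ} (hz : len n I ≤ z.im) :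
    g z (ctr i n J) ≤ 9 / 2 * (len n J / len n I) * g z (ctr i n I) := by
  have hsq := re_sq i (n := n) h
  have hJ := len_pos n J
  have hI := len_pos n I
  have hzp := z.im_pos
  unfold g
  have hD1 := D_pos z (ctr i n J)
  have hD2 := D_pos z (ctr i n I)
  rw [ctr_im, ctr_im] at *
  have key : (z.re - (ctr i n I).re) ^ 2 + (z.im + len n I) ^ 2 ≤
      9 / 2 * ((z.re - (ctr i n J).re) ^ 2 + (z.im + len n J) ^ 2) := by
    nlinarith [sq_nonneg (z.re - (ctr i n J).re - ((ctr i n J).re - (ctr i n I).re)),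
      sq_nonneg (z.re - (ctr i n J).re), mul_pos hzp hJ]
  have e : 9 / 2 * (len n J / len n I) *
      (4 * z.im * len n I / ((z.re - (ctr i n I).re) ^ 2 + (z.im + len n I) ^ 2)) =
      9 / 2 * (4 * z.im * len n J) / ((z.re - (ctr i n I).re) ^ 2 + (z.im + len n I) ^ 2) := by
    field_simp
  rw [e, div_le_div_iff₀ hD1 hD2]
  have : 0 < 4 * z.im * len n J := by positivity
  nlinarith

/-- (q1'') lower bound -/
theorem g_dn_ge (i : Bool) {n : ℕ} {J I : Sq} (h : Below J I) {z : ℍ} (hz : len n I ≤ z.im) :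
    1 / 2 * (len n J / len n I) * g z (ctr i n I) ≤ g z (ctr i n J) := by
  have hsq := re_sq i (n := n) h
  have hJ := len_pos n J
  have hI := len_pos n I
  have hle : len n J ≤ len n I := h.len_le
  have hzp := z.im_pos
  unfold g
  have hD1 := D_pos z (ctr i n J)
  have hD2 := D_pos z (ctr i n I)
  rw [ctr_im, ctr_im] at *
  have hs : (z.im + len n J) ^ 2 ≤ (z.im + len n I) ^ 2 := by gcongr
  have key : (z.re - (ctr i n J).re) ^ 2 + (z.im + len n J) ^ 2 ≤
      2 * ((z.re - (ctr i n I).re) ^ 2 + (z.im + len n I) ^ 2) := by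
    nlinarith [sq_nonneg (z.re - (ctr i n I).re + ((ctr i n J).re - (ctr i n I).re)),
      sq_nonneg (z.re - (ctr i n I).re), mul_pos hzp hI]
  have e : 1 / 2 * (len n J / len n I) *
      (4 * z.im * len n I / ((z.re - (ctr i n I).re) ^ 2 + (z.im + len n I) ^ 2)) =
      1 / 2 * (4 * z.im * len n J) / ((z.re - (ctr i n I).re) ^ 2 + (z.im + len n I) ^ 2) := by
    field_simp
  rw [e, div_le_div_iff₀ hD2 hD1]
  have : 0 < 4 * z.im * len n J := by positivity
  nlinarith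

namespace SqgAux

theorem eventually_pow (a : ℝ) : ∀ᶠ n : ℕ in atTop, a ≤ (2 : ℝ) ^ n :=
  (tendsto_pow_atTop_atTop_of_one_lt (by norm_num : (1 : ℝ) < 2)).eventually_ge_atTop a

/-- the last generation with side at least `t` -/
theorem exists_gen {n : ℕ} {t : ℝ} (ht : 0 < t) (h : t ≤ 2 ^ n) :
    ∃ m : ℕ, t ≤ 2 ^ n / 2 ^ m ∧ (2 : ℝ) ^ n / 2 ^ m < 2 * t := by
  have h1 : 1 ≤ (2 : ℝ) ^ n / t := by rwa [one_le_div ht]
  obtain ⟨m, hm1, hm2⟩ := exists_nat_pow_near h1 (by norm_num : (1 : ℝ) < 2)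
  refine ⟨m, ?_, ?_⟩
  · rw [le_div_iff₀ ht] at hm1
    rw [le_div_iff₀ (by positivity)]
    linarith [mul_comm t ((2 : ℝ) ^ m)]
  · rw [div_lt_iff₀ ht] at hm2
    rw [div_lt_iff₀ (by positivity)]
    calc (2 : ℝ) ^ n < 2 ^ (m + 1) * t := hm2
      _ = 2 * t * 2 ^ m := by ring

theorem abs_off_le (i : Bool) (n : ℕ) : 0 ≤ off i n ∧ off i n ≤ 2 ^ n / 3 := by
  unfold off
  have : (0 : ℝ) < 2 ^ n := by positivity
  have h3 : (0 : ℝ) ≤ 2 ^ n / 3 := by positivity
  cases i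
  · exact ⟨by simp, by simpa using h3⟩
  · exact ⟨by simpa using h3, by simp⟩

end SqgAux

/-- the square containing `z` -/
theorem exists_sq (i : Bool) (z : ℍ) : ∀ᶠ n in atTop, ∃ I ∈ all n, 4 / 5 ≤ g z (ctr i n I) ∧
    |z.re - (ctr i n I).re| ≤ len n I / 2 ∧ len n I / 2 < z.im ∧ z.im ≤ len n I := by
  have hy := z.im_pos
  filter_upwards [eventually_pow z.im, eventually_pow (1 / z.im), eventually_pow (3 * |z.re|)]
    with n hn1 hn2 hn3
  obtain ⟨m, hm1, hm2⟩ := exists_gen hy hn1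
  set s : ℝ := 2 ^ n / 2 ^ m with hs
  have hspos : 0 < s := by positivity
  have hsm : s * 2 ^ m = 2 ^ n := by
    rw [hs]; field_simp
  set j : ℤ := ⌊(z.re - off i n) / s⌋ with hj
  have hj1 : (j : ℝ) ≤ (z.re - off i n) / s := Int.floor_le _
  have hj2 : (z.re - off i n) / s < j + 1 := Int.lt_floor_add_one _
  rw [le_div_iff₀ hspos] at hj1
  rw [div_lt_iff₀ hspos] at hj2
  obtain ⟨ho1, ho2⟩ := abs_off_le i n
  have hz := abs_le.mp (show |z.re| ≤ 2 ^ n / 3 by linarith)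
  have hpn : (0 : ℝ) < 2 ^ n := by positivity
  have hpm : (0 : ℝ) < 2 ^ m := by positivity
  have hlen : len n (m, j) = s := rfl
  have him : (ctr i n (m, j)).im = s := rfl
  have hre : (ctr i n (m, j)).re = ((j : ℝ) + 1 / 2) * s + off i n := rfl
  have hab : |z.re - (ctr i n (m, j)).re| ≤ s / 2 := by
    rw [hre, abs_le]; constructor <;> linarith
  refine ⟨(m, j), ?_, ?_, ?_, ?_, ?_⟩
  · rw [mem_all]
    refine ⟨?_, ?_, ?_⟩
    · show m ≤ 2 * n
      have h1 : (2 : ℝ) ^ m ≤ 2 ^ (2 * n) := by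
        have h2 : z.im * 2 ^ m ≤ 2 ^ n := by rwa [le_div_iff₀ hpm] at hm1
        have h3 : 1 ≤ z.im * 2 ^ n := by
          rw [div_le_iff₀ hy] at hn2; linarith [mul_comm z.im ((2 : ℝ) ^ n)]
        calc (2 : ℝ) ^ m ≤ (z.im * 2 ^ n) * 2 ^ m := le_mul_of_one_le_left hpm.le h3
          _ = (z.im * 2 ^ m) * 2 ^ n := by ring
          _ ≤ 2 ^ n * 2 ^ n := by gcongr
          _ = 2 ^ (2 * n) := by rw [two_mul, pow_add]
      exact (pow_le_pow_iff_right₀ (by norm_num : (1 : ℝ) < 2)).mp h1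
    · show -(2 : ℤ) ^ m ≤ j
      rw [hj, Int.le_floor]
      push_cast
      rw [le_div_iff₀ hspos]
      nlinarith [hz.1]
    · show j < (2 : ℤ) ^ m
      rw [hj, Int.floor_lt]
      push_cast
      rw [div_lt_iff₀ hspos]
      nlinarith [hz.2]
  · unfold g
    rw [him, div_le_div_iff₀ (by norm_num) (by positivity)]
    have h5 := abs_le.mp hab
    have h6 : (z.re - (ctr i n (m, j)).re) ^ 2 ≤ s ^ 2 / 4 := by nlinarith [h5.1, h5.2]
    have h7 : s ≤ 2 * z.im := hm2.le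
    nlinarith [mul_nonneg (sub_nonneg.mpr h7) (show 0 ≤ 5 * s - 2 * z.im by linarith)]
  · rw [hlen]; exact hab
  · rw [hlen]; linarith
  · rw [hlen]; exact hm1

/-- every square smaller than `t` has an ancestor of size comparable to `t`, for large `n` -/
theorem exists_size (t : ℝ) (ht : 0 < t) : ∀ᶠ n in atTop, ∀ J ∈ all n, len n J < t →
    ∃ K ∈ all n, Below J K ∧ K ≠ J ∧ t ≤ len n K ∧ len n K < 2 * t ∧
      ∀ L, Below J L → t ≤ len n L → Below K L := by
  filter_upwards [eventually_pow t] with n hn J hJ hlt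
  obtain ⟨m, hm1, hm2⟩ := exists_gen ht hn
  have hpn : (0 : ℝ) < 2 ^ n := by positivity
  have hmJ : m ≤ J.1 := by
    by_contra hcon
    push Not at hcon
    have : (2 : ℝ) ^ n / 2 ^ m ≤ 2 ^ n / 2 ^ J.1 := by
      apply div_le_div_of_nonneg_left hpn.le (by positivity)
      exact pow_le_pow_right₀ (by norm_num) hcon.le
    have h2 : len n J = 2 ^ n / 2 ^ J.1 := rfl
    linarith
  obtain ⟨K, hK1, hK2⟩ := exists_anc J hmJ
  have hlK : len n K = 2 ^ n / 2 ^ m := by unfold len; rw [hK1]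
  refine ⟨K, anc_mem hJ hK2, hK2, ?_, ?_, ?_, ?_⟩
  · rintro rfl
    linarith
  · rw [hlK]; exact hm1
  · rw [hlK]; exact hm2
  · intro L hL hLt
    apply Below.chain hL hK2
    rw [hK1]
    by_contra hcon
    push Not at hcon
    have h1 : len n L ≤ 2 ^ n / 2 ^ (m + 1) := by
      unfold len
      apply div_le_div_of_nonneg_left hpn.le (by positivity)
      exact pow_le_pow_right₀ (by norm_num) hcon
    have h2 : (2 : ℝ) ^ n / 2 ^ (m + 1) = 2 ^ n / 2 ^ m / 2 := by
      rw [pow_succ]; field_simp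
    linarith

end

end Pool.Agent.Helper65.HP
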