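import Pool.Agent.Helper65.HP.Tail

/-! Module STT: the state machine. -/

set_option autoImplicit false

namespace Pool.Agent.Helper65.HP

open UpperHalfPlane Filter Topology

noncomputable section

variable {s u : ℍ → ℝ} {i : Bool} {n : ℕ}

namespace SttA

theorem sta_zero {J : Sq} (h : J.1 = 0) : sta s u i n J =
    if 2 * u (ctr i n J) + 40 ≤ s (ctr i n J) then St.O else St.N none := by
  obtain ⟨m, j⟩ := J
  simp only at h
  subst h
  simp only [sta, stt]

theorem sta_of_O {J : Sq} (h : 0 < J.1) (hp : sta s u i n (par J) = St.O) : sta s u i n J =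
    if s (ctr i n J) < u (ctr i n J) then St.N (some J) else St.O := by
  obtain ⟨m, j⟩ := J
  obtain ⟨m, rfl⟩ : ∃ m', m = m' + 1 := ⟨m - 1, by simp only at h; omega⟩
  have hp' : stt s u i n m (j / 2) = St.O := hp
  simp only [sta, stt, hp']

theorem sta_of_N {J : Sq} {c : Option Sq} (h : 0 < J.1) (hp : sta s u i n (par J) = St.N c) :
    sta s u i n J = if 2 * u (ctr i n J) + 40 ≤ s (ctr i n J) then St.O else St.N c := by
  obtain ⟨m, j⟩ := J
  obtain ⟨m, rfl⟩ : ∃ m', m = m' + 1 := ⟨m - 1, by simp only at h; omega⟩
  have hp' : stt s u i n m (j / 2) = St.N c := hp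
  simp only [sta, stt, hp']

theorem par_fst (J : Sq) : (par J).1 = J.1 - 1 := rfl

theorem St_cases (x : St) : x = St.O ∨ ∃ c, x = St.N c := by
  cases x with
  | O => exact Or.inl rfl
  | N c => exact Or.inr ⟨c, rfl⟩

/-- induction along parents -/
theorem par_induction {P : Sq → Prop} (h0 : ∀ J : Sq, J.1 = 0 → P J)
    (h1 : ∀ J : Sq, 0 < J.1 → P (par J) → P J) : ∀ J, P J := by
  intro J
  obtain ⟨m, hm⟩ : ∃ m, J.1 = m := ⟨_, rfl⟩
  induction m generalizing J with
  | zero => exact h0 J hm
  | succ m ih =>
    apply h1 J (by omega)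
    apply ih
    rw [par_fst]; omega

end SttA

open SttA

theorem sta_O {J : Sq} (hu : ∀ z, 0 ≤ u z) (h : sta s u i n J = St.O) :
    u (ctr i n J) ≤ s (ctr i n J) := by
  have hu' := hu (ctr i n J)
  rcases Nat.eq_zero_or_pos J.1 with h0 | h0
  · rw [sta_zero h0] at h
    by_contra hcon
    rw [if_neg (by linarith)] at h
    cases h
  · rcases St_cases (sta s u i n (par J)) with hp | ⟨c, hp⟩
    · rw [sta_of_O h0 hp] at h
      by_contra hcon
      rw [if_pos (by linarith)] at h
      cases h
    · rw [sta_of_N h0 hp] at h
      by_contra hcon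
      rw [if_neg (by linarith)] at h
      cases h

theorem sta_N {J : Sq} {c : Option Sq} (hu : ∀ z, 0 ≤ u z) (h : sta s u i n J = St.N c) :
    s (ctr i n J) < 2 * u (ctr i n J) + 40 := by
  have hu' := hu (ctr i n J)
  by_contra hcon
  rcases Nat.eq_zero_or_pos J.1 with h0 | h0
  · rw [sta_zero h0, if_pos (by linarith)] at h
    cases h
  · rcases St_cases (sta s u i n (par J)) with hp | ⟨c, hp⟩
    · rw [sta_of_O h0 hp, if_neg (by linarith)] at h
      cases h
    · rw [sta_of_N h0 hp, if_pos (by linarith)] at h
      cases h

/-- the class of a square is an exit square containing it -/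
theorem sta_class {J S : Sq} (h : sta s u i n J = St.N (some S)) :
    Below J S ∧ sta s u i n S = St.N (some S) ∧
      ∀ K, Below J K → Below K S → sta s u i n K = St.N (some S) := by
  revert h
  refine par_induction (P := fun J => sta s u i n J = St.N (some S) → Below J S ∧
    sta s u i n S = St.N (some S) ∧
      ∀ K, Below J K → Below K S → sta s u i n K = St.N (some S)) ?_ ?_ J
  · intro J h0 h
    rw [sta_zero h0] at h
    split_ifs at h
    injection h with h
    cases h
  · intro J h0 ih h
    rcases St_cases (sta s u i n (par J)) with hp | ⟨c, hp⟩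
    · have h' := h
      rw [sta_of_O h0 hp] at h'
      split_ifs at h'
      injection h' with h'
      injection h' with h'
      subst h'
      refine ⟨below_refl J, h, fun K hK1 hK2 => ?_⟩
      rw [hK2.antisymm hK1]
      exact h
    · have h' := h
      rw [sta_of_N h0 hp] at h'
      split_ifs at h'
      injection h' with h'
      subst h'
      obtain ⟨h1, h2, h3⟩ := ih hp
      refine ⟨(below_par h0).trans h1, h2, fun K hK1 hK2 => ?_⟩
      by_cases hne : J = K
      · rw [← hne]; exact h
      · exact h3 K (hK1.par_below hne).2 hK2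

/-- exit squares -/
theorem sta_exit {S : Sq} (h : sta s u i n S = St.N (some S)) :
    0 < S.1 ∧ sta s u i n (par S) = St.O ∧ s (ctr i n S) < u (ctr i n S) := by
  rcases Nat.eq_zero_or_pos S.1 with h0 | h0
  · rw [sta_zero h0] at h
    split_ifs at h
    injection h with h
    cases h
  · refine ⟨h0, ?_⟩
    rcases St_cases (sta s u i n (par S)) with hp | ⟨c, hp⟩
    · refine ⟨hp, ?_⟩
      rw [sta_of_O h0 hp] at h
      split_ifs at h with h1
      exact h1
    · exfalso
      rw [sta_of_N h0 hp] at h
      split_ifs at h
      injection h with h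
      subst h
      have h1 := (sta_class hp).1.1
      rw [par_fst] at h1
      omega

/-- class `none`: no ancestor has state `O` -/
theorem sta_none {J : Sq} (h : sta s u i n J = St.N none) :
    ∀ K, Below J K → sta s u i n K = St.N none := by
  revert h
  refine par_induction (P := fun J => sta s u i n J = St.N none →
    ∀ K, Below J K → sta s u i n K = St.N none) ?_ ?_ J
  · intro J h0 h K hK
    have h1 := hK.1
    rw [← hK.eq (by omega)]
    exact h
  · intro J h0 ih h K hK
    by_cases hne : J = K
    · rw [← hne]; exact h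
    · rcases St_cases (sta s u i n (par J)) with hp | ⟨c, hp⟩
      · rw [sta_of_O h0 hp] at h
        split_ifs at h
        injection h with h
        cases h
      · rw [sta_of_N h0 hp] at h
        split_ifs at h
        injection h with h
        subst h
        exact ih hp K (hK.par_below hne).2

/-- after a square with state `O` the class is not `none` and is a square strictly below it -/
theorem sta_below_O {J K : Sq} (hb : Below J K) (hK : sta s u i n K = St.O) :
    sta s u i n J = St.O ∨ ∃ S, sta s u i n J = St.N (some S) ∧ Below S K ∧ S ≠ K := by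
  revert hb
  refine par_induction (P := fun J => Below J K → sta s u i n J = St.O ∨
    ∃ S, sta s u i n J = St.N (some S) ∧ Below S K ∧ S ≠ K) ?_ ?_ J
  · intro J h0 hb
    have h1 := hb.1
    rw [hb.eq (by omega)]
    exact Or.inl hK
  · intro J h0 ih hb
    by_cases hne : J = K
    · rw [hne]; exact Or.inl hK
    · rcases ih (hb.par_below hne).2 with hp | ⟨S, hp, hS1, hS2⟩
      · rw [sta_of_O h0 hp]
        split_ifs
        · exact Or.inr ⟨J, rfl, hb, hne⟩
        · exact Or.inl rfl
      · rw [sta_of_N h0 hp]
        split_ifs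
        · exact Or.inl rfl
        · exact Or.inr ⟨S, rfl, hS1, hS2⟩

/-- leaving the state `N c`: there is a first square with state `O` -/
theorem exists_entry {J I : Sq} {c : Option Sq} (hb : Below J I) (hI : sta s u i n I = St.N c)
    (hJ : sta s u i n J ≠ St.N c) : ∃ R, Below J R ∧ Below R I ∧ R ≠ I ∧
      sta s u i n R = St.O ∧ 2 * u (ctr i n R) + 40 ≤ s (ctr i n R) ∧
      ∀ K, Below R K → Below K I → K ≠ R → sta s u i n K = St.N c := by
  have key : ∀ J : Sq, Below J I →
      (∀ K, Below J K → Below K I → sta s u i n K = St.N c) ∨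
      ∃ R, Below J R ∧ Below R I ∧ R ≠ I ∧
      sta s u i n R = St.O ∧ 2 * u (ctr i n R) + 40 ≤ s (ctr i n R) ∧
      ∀ K, Below R K → Below K I → K ≠ R → sta s u i n K = St.N c := by
    refine par_induction ?_ ?_
    · intro J h0 hb
      left
      intro K hK1 hK2
      have h1 := hb.1
      have h2 := hK1.1
      rw [← hK1.eq (by omega), hb.eq (by omega)]
      exact hI
    · intro J h0 ih hb
      by_cases hne : J = I
      · left
        intro K hK1 hK2
        rw [hne] at hK1
        rw [hK2.antisymm hK1]
        exact hI
      · rcases ih (hb.par_below hne).2 with h1 | ⟨R, hR1, hR2⟩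
        · have hp := h1 (par J) (below_refl _) (hb.par_below hne).2
          have hs := sta_of_N h0 hp
          have hbet : ∀ K, Below J K → Below K I → K ≠ J → sta s u i n K = St.N c := by
            intro K hK1 hK2 hKJ
            exact h1 K (hK1.par_below (Ne.symm hKJ)).2 hK2
          by_cases hcase : 2 * u (ctr i n J) + 40 ≤ s (ctr i n J)
          · right
            rw [if_pos hcase] at hs
            exact ⟨J, below_refl J, hb, hne, hs, hcase, hbet⟩
          · left
            rw [if_neg hcase] at hs
            intro K hK1 hK2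
            by_cases hKJ : K = J
            · rw [hKJ]; exact hs
            · exact hbet K hK1 hK2 hKJ
        · right
          exact ⟨R, (below_par h0).trans hR1, hR2⟩
  rcases key J hb with h1 | h1
  · exact absurd (h1 J (below_refl J) hb) hJ
  · exact h1

/-- an exit square strictly below `I`, where `I` is in a state `N`, is preceded by an entry -/
theorem exists_entry_exit {S I : Sq} {c : Option Sq} (hb : Below S I) (hne : S ≠ I)
    (hI : sta s u i n I = St.N c) (hS : sta s u i n S = St.N (some S)) :
    ∃ R, Below S R ∧ R ≠ S ∧ Below R I ∧ R ≠ I ∧ sta s u i n R = St.O ∧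
      2 * u (ctr i n R) + 40 ≤ s (ctr i n R) := by
  obtain ⟨h0, hp, _⟩ := sta_exit hS
  obtain ⟨R, hR1, hR2, hR3, hR4, hR5, _⟩ := exists_entry (hb.par_below hne).2 hI
    (by rw [hp]; intro h; cases h)
  refine ⟨R, (below_par h0).trans hR1, ?_, hR2, hR3, hR4, hR5⟩
  intro h
  have h1 := hR1.1
  rw [par_fst, h] at h1
  omega

end

end Pool.Agent.Helper65.HP
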