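import Pool.Agent.Helper65.HP.Alg
import Pool.Agent.Helper65.HP.Tra

/-! Module TRI: closed prime ideals of `H^∞ + C` contain the functions vanishing at a point. -/

set_option autoImplicit false

namespace Pool.Agent.Helper65.HP

open MeasureTheory Filter Topology Pool.Agent.Helper59.DGA UpperHalfPlane

noncomputable section

namespace TriA

theorem mk_add (f g : Cir → ℂ) : mk f + mk g = mk (fun t => f t + g t) := rfl

theorem mk_mul (f g : Cir → ℂ) : mk f * mk g = mk (fun t => f t * g t) := rfl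

theorem mk_sub (f g : Cir → ℂ) : mk f - mk g = mk (fun t => f t - g t) := rfl

/-- continuous functions as a ring homomorphism -/
def ofCHom : C(Cir, ℂ) →+* HC where
  toFun := ofC
  map_one' := Subtype.ext rfl
  map_mul' _ _ := Subtype.ext rfl
  map_zero' := Subtype.ext rfl
  map_add' _ _ := Subtype.ext rfl

theorem ofCHom_apply (c : C(Cir, ℂ)) : ofCHom c = ofC c := rfl

theorem isClosed_comap {I : Ideal HC} (hc : IsClosedIdeal I) :
    IsClosed ((I.comap ofCHom : Ideal C(Cir, ℂ)) : Set C(Cir, ℂ)) := by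
  rw [← isSeqClosed_iff_isClosed]
  intro x c hx hlim
  show ofC c ∈ I
  apply hc
  intro ε hε
  have h1 := (Metric.tendsto_atTop.1 hlim) ε hε
  obtain ⟨N, hN⟩ := h1
  refine ⟨ofC (x N), hx N, ?_⟩
  have h2 : ((ofC c : HC) : Cls) - ((ofC (x N) : HC) : Cls) = mk (fun t => c t - (x N) t) := rfl
  rw [h2]
  show ((fun t => c t - (x N) t : Cir → ℂ) : Filter.Germ (ae mC) ℂ).LiftPred _
  rw [Filter.Germ.liftPred_coe]
  refine Filter.Eventually.of_forall (fun t => ?_)
  have h3 := hN N le_rfl
  have h4 : dist ((x N) t) (c t) ≤ dist (x N) c := ContinuousMap.dist_apply_le_dist t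
  rw [dist_comm, dist_eq_norm] at h4
  exact h4.trans h3.le

end TriA

open TriA in
/-- a closed prime ideal contains all continuous functions vanishing at some point -/
theorem exists_point {I : Ideal HC} (hp : I.IsPrime) (hc : IsClosedIdeal I) :
    ∃ t0 : Cir, ∀ c : C(Cir, ℂ), c t0 = 0 → ofC c ∈ I := by
  set J : Ideal C(Cir, ℂ) := I.comap ofCHom with hJ
  have hJp : J.IsPrime := Ideal.comap_isPrime ofCHom I
  have hJc : IsClosed (J : Set C(Cir, ℂ)) := isClosed_comap hc
  have hJeq := ContinuousMap.idealOfSet_ofIdeal_isClosed (𝕜 := ℂ) hJc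
  -- the zero set is nonempty
  have hne : ∃ t0 : Cir, t0 ∉ ContinuousMap.setOfIdeal J := by
    by_contra hcon
    push Not at hcon
    apply hJp.ne_top
    rw [← hJeq]
    rw [Ideal.eq_top_iff_one, ContinuousMap.mem_idealOfSet]
    intro x hx
    exact absurd (hcon x) hx
  obtain ⟨t0, ht0⟩ := hne
  refine ⟨t0, fun c hct => ?_⟩
  show c ∈ J
  rw [← hJeq, ContinuousMap.mem_idealOfSet]
  intro x hx
  by_cases hxt : x = t0
  · rw [hxt]; exact hct
  exfalso
  -- two functions with product zero
  have hd : 0 < dist x t0 := dist_pos.2 hxt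
  set c1 : C(Cir, ℂ) := ⟨fun t => ((max 0 (dist x t0 / 2 - dist t x) : ℝ) : ℂ), by fun_prop⟩ with hc1
  set c2 : C(Cir, ℂ) := ⟨fun t => ((max 0 (dist x t0 / 2 - dist t t0) : ℝ) : ℂ), by fun_prop⟩ with hc2
  have hprod : c1 * c2 = 0 := by
    ext t
    simp only [hc1, hc2, ContinuousMap.mul_apply, ContinuousMap.coe_mk, ContinuousMap.zero_apply]
    have h3 : dist x t0 ≤ dist t x + dist t t0 := by
      have := dist_triangle x t t0
      rw [dist_comm x t] at this
      exact this
    rcases le_total (dist x t0 / 2) (dist t x) with h4 | h4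
    · rw [max_eq_left (by linarith)]; simp
    · rw [max_eq_left (a := (0 : ℝ)) (b := dist x t0 / 2 - dist t t0) (by linarith)]; simp
  have h5 : c1 * c2 ∈ J := by rw [hprod]; exact J.zero_mem
  rcases hJp.mem_or_mem h5 with h6 | h6
  · rw [← hJeq, ContinuousMap.mem_idealOfSet] at h6
    have h7 := h6 hx
    simp only [hc1, ContinuousMap.coe_mk, dist_self, sub_zero] at h7
    have h8 : max 0 (dist x t0 / 2) = 0 := by exact_mod_cast h7
    have h9 := le_max_right 0 (dist x t0 / 2)
    linarith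
  · rw [← hJeq, ContinuousMap.mem_idealOfSet] at h6
    have h7 := h6 ht0
    simp only [hc2, ContinuousMap.coe_mk, dist_self, sub_zero] at h7
    have h8 : max 0 (dist x t0 / 2) = 0 := by exact_mod_cast h7
    have h9 := le_max_right 0 (dist x t0 / 2)
    linarith

/-- `H^∞ + C = H^∞ + I` -/
theorem exists_rep {I : Ideal HC} (hp : I.IsPrime) (hc : IsClosedIdeal I) (F : HC) :
    ∃ (h : Cir → ℂ) (hh : h ∈ Hinf), F - ofH h hh ∈ I := by
  obtain ⟨t0, ht0⟩ := exists_point hp hc
  obtain ⟨F, hF⟩ := F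
  have hF' : F ∈ hcSet := hF
  obtain ⟨h, hh, c, hFe⟩ := hF'
  refine ⟨h + fun _ => c t0, Hinf.add hh (Hinf.const _), ?_⟩
  have h1 := ht0 (c - ContinuousMap.const _ (c t0)) (by simp)
  convert h1 using 1
  apply Subtype.ext
  show F - mk (h + fun _ => c t0) = mk (c - ContinuousMap.const _ (c t0) : C(Cir, ℂ))
  rw [hFe, TriA.mk_sub]
  congr 1
  funext t
  simp only [Pi.add_apply, ContinuousMap.sub_apply, ContinuousMap.const_apply]
  ring

end

end Pool.Agent.Helper65.HP
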