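import Pool.Agent.Helper65.HP.Adm
import Pool.Agent.Helper65.HP.Rsp

/-! Module UCO: construction of `u`. -/

set_option autoImplicit false

namespace Pool.Agent.Helper65.HP

open UpperHalfPlane Filter Topology

noncomputable section

namespace Uco

theorem finite_family {I : Set (ℍ → ℂ)} (hI : CPI I) (hN : ND I)
    (hI0 : ∃ θ ∈ I, ∃ z, θ z ≠ 0) {δ : ℝ} (hδ : 0 < δ) :
    ∀ (q : ℕ) (θ : Fin q → ℍ → ℂ), (∀ j, θ j ∈ I) →
      ∃ ψ, Adm I ψ ∧ ∃ c : ℝ, ∀ z, (∃ j, δ ≤ ‖θ j z‖) → ψ z ≤ c := by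
  have scaled : ∀ θ : ℍ → ℂ, θ ∈ I → (∃ z, θ z ≠ 0) → ∃ C : ℝ, 1 ≤ C ∧
      InU (fun z => ((1 / C : ℝ) : ℂ) * θ z) ∧ Adm I (phi fun z => ((1 / C : ℝ) : ℂ) * θ z) := by
    intro θ hθ h0
    obtain ⟨C, hC, hU⟩ := (hI.sub θ hθ).scale
    refine ⟨C, hC, hU, ?_⟩
    have hmem : (fun z => ((1 / C : ℝ) : ℂ) * θ z) ∈ I := by
      have h1 := hI.mul θ hθ (fun _ => ((1 / C : ℝ) : ℂ)) (InH.const _)
      have h2 : (fun z => ((1 / C : ℝ) : ℂ) * θ z) = fun z => θ z * ((1 / C : ℝ) : ℂ) := by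
        funext z
        ring
      rw [h2]
      exact h1
    obtain ⟨z, hz⟩ := h0
    have hC0 : ((1 / C : ℝ) : ℂ) ≠ 0 := by
      have : (1 / C : ℝ) ≠ 0 := by positivity
      exact_mod_cast this
    exact adm_phi hI hN hmem hU ⟨z, mul_ne_zero hC0 hz⟩
  intro q
  induction q with
  | zero =>
    intro θ _
    obtain ⟨θ0, h0, hz0⟩ := hI0
    obtain ⟨C, _, _, h⟩ := scaled θ0 h0 hz0
    refine ⟨_, h, 0, ?_⟩
    rintro z ⟨j, _⟩
    exact j.elim0
  | succ q ih =>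
    intro θ hθ
    obtain ⟨ψ, hψ, c, hc⟩ := ih (fun j => θ j.succ) (fun j => hθ _)
    by_cases h0 : ∃ z, θ 0 z ≠ 0
    · obtain ⟨C, hC, hU, hA⟩ := scaled (θ 0) (hθ 0) h0
      have hCpos : 0 < C := by linarith
      refine ⟨_, adm_min hI hψ hA, max c (Real.log (1 + max 0 (Real.log (C / δ)))), ?_⟩
      intro z hz
      rw [Fin.exists_fin_succ] at hz
      rcases hz with hz | hz
      · refine le_trans (min_le_right _ _) (le_trans ?_ (le_max_right _ _))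
        apply phi_le hU (le_max_left _ _) (ζ := z)
        · rw [g_self]; norm_num
        · have h1 : Real.exp (-max 0 (Real.log (C / δ))) ≤ Real.exp (-Real.log (C / δ)) := by
            apply Real.exp_le_exp.2
            have := le_max_right 0 (Real.log (C / δ))
            linarith
          refine h1.trans ?_
          rw [Real.exp_neg, Real.exp_log (by positivity)]
          rw [norm_mul, Complex.norm_real, Real.norm_of_nonneg (by positivity)]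
          rw [inv_div, div_eq_inv_mul, one_div]
          gcongr
      · refine le_trans (min_le_left _ _) (le_trans ?_ (le_max_left _ _))
        exact hc z hz
    · push Not at h0
      refine ⟨ψ, hψ, c, ?_⟩
      intro z hz
      rw [Fin.exists_fin_succ] at hz
      rcases hz with hz | hz
      · rw [h0 z, norm_zero] at hz
        linarith
      · exact hc z hz

end Uco

theorem ucon {I : Set (ℍ → ℂ)} (hI : CPI I) (hN : ND I) (hI0 : ∃ θ ∈ I, ∃ z, θ z ≠ 0) {p : ℕ}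
    (gs : Fin p → ℍ → ℂ) (hgs : ∀ j, InH (gs j)) {f : ℍ → ℂ} (hf : InU f) (hf0 : ∃ z, f z ≠ 0)
    (h : ∀ ε > 0, ∃ (q : ℕ) (θ : Fin q → ℍ → ℂ) (δ : ℝ), (∀ j, θ j ∈ I) ∧ 0 < δ ∧
      ∀ z, (∀ j, ‖gs j z‖ ≤ 1 / 2) → ε ≤ ‖f z‖ → ∃ j, δ ≤ ‖θ j z‖) :
    ∃ u, Adm I u ∧ ∃ N1 : ℝ, ∀ z, (∀ j, ‖gs j z‖ ≤ 1 / 4) → N1 ≤ u z →
      400 * (u z + 1) ≤ phi f z := by
  choose Cs hCs hCU using fun j => (hgs j).scale
  set M : ℝ := 1 + ∑ j, Cs j with hM
  have hCnn : ∀ j, 0 ≤ Cs j := fun j => le_trans zero_le_one (hCs j)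
  have hsum : 0 ≤ ∑ j, Cs j := Finset.sum_nonneg fun j _ => hCnn j
  have hM1 : 1 ≤ M := by linarith
  have hCM : ∀ j, Cs j ≤ M := by
    intro j
    have := Finset.single_le_sum (f := Cs) (fun j _ => hCnn j) (Finset.mem_univ j)
    linarith
  have hMpos : 0 < M := by linarith
  set t : ℝ := 1 - (1 / (16 * M)) ^ 2 with ht
  have hr : (0 : ℝ) < 1 / (16 * M) := by positivity
  have hr1 : 1 / (16 * M) ≤ 1 / 16 := by
    apply one_div_le_one_div_of_le (by norm_num)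
    linarith
  have ht34 : 3 / 4 ≤ t := by rw [ht]; nlinarith
  have ht1 : t < 1 := by rw [ht]; nlinarith
  obtain ⟨C, hC, hphi⟩ := phi_exists' t ht34 ht1
  set ep : ℕ → ℝ := fun N => Real.exp (-(C * Real.exp (400 * ((N : ℝ) + 6)))) with hep
  have key : ∀ N : ℕ, ∃ ψ, Adm I ψ ∧ ∃ c : ℝ, ∀ z, (∀ j, ‖gs j z‖ ≤ 1 / 2) → ep N ≤ ‖f z‖ →
      ψ z ≤ c := by
    intro N
    obtain ⟨q, θ, δ, h1, h2, h3⟩ := h (ep N) (Real.exp_pos _)
    obtain ⟨ψ, hψ, c, hc⟩ := Uco.finite_family hI hN hI0 h2 q θ h1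
    exact ⟨ψ, hψ, c, fun z hz1 hz2 => hc z (h3 z hz1 hz2)⟩
  choose ψ hψ c hc using key
  refine ⟨fun z => ⨅ N : ℕ, (max (ψ N z - c N) 0 + N),
    adm_seq hI (ψ := fun N z => max (ψ N z - c N) 0) (fun N => adm_sub (hψ N) (c N)), 6, ?_⟩
  set u : ℍ → ℝ := fun z => ⨅ N : ℕ, (max (ψ N z - c N) 0 + N) with hu
  have hTame : Tame u :=
    (adm_seq hI (ψ := fun N z => max (ψ N z - c N) 0) (fun N => adm_sub (hψ N) (c N))).1
  have hule : ∀ (ζ : ℍ) (N : ℕ), (∀ j, ‖gs j ζ‖ ≤ 1 / 2) → ep N ≤ ‖f ζ‖ → u ζ ≤ N := by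
    intro ζ N h1 h2
    have h3 := hc N ζ h1 h2
    have h4 : u ζ ≤ max (ψ N ζ - c N) 0 + N := by
      apply ciInf_le
      refine ⟨0, ?_⟩
      rintro _ ⟨N', rfl⟩
      have := le_max_right (ψ N' ζ - c N') 0
      positivity
    have h5 : max (ψ N ζ - c N) 0 = 0 := max_eq_right (by linarith)
    linarith
  intro z hz hz6
  change 6 ≤ u z at hz6
  by_contra hcon
  push Not at hcon
  obtain ⟨ζ, hζ, hζf⟩ := hphi f hf hf0 z
  set N : ℕ := ⌊u z⌋₊ - 4 with hNdef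
  have hfl : 6 ≤ ⌊u z⌋₊ := Nat.le_floor (by exact_mod_cast hz6)
  have hfl1 : ((⌊u z⌋₊ : ℕ) : ℝ) ≤ u z := Nat.floor_le (by linarith)
  have hfl2 : u z < (⌊u z⌋₊ : ℕ) + 1 := Nat.lt_floor_add_one _
  have hNr : (N : ℝ) = (⌊u z⌋₊ : ℕ) - 4 := by
    rw [hNdef, Nat.cast_sub (by omega)]
    norm_num
  have hgs2 : ∀ j, ‖gs j ζ‖ ≤ 1 / 2 := by
    intro j
    have h1 := (hCU j).lip ζ z
    have hCj : (0 : ℝ) < Cs j := lt_of_lt_of_le zero_lt_one (hCs j)
    have h2 : ‖((1 / Cs j : ℝ) : ℂ) * gs j ζ - ((1 / Cs j : ℝ) : ℂ) * gs j z‖ =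
        1 / Cs j * ‖gs j ζ - gs j z‖ := by
      rw [← mul_sub, norm_mul, Complex.norm_real, Real.norm_of_nonneg (by positivity)]
    rw [h2] at h1
    have h3 : Real.sqrt (1 - g ζ z) ≤ 1 / (16 * M) := by
      apply Real.sqrt_le_iff.2
      refine ⟨hr.le, ?_⟩
      rw [g_comm]
      linarith
    have h4 : 1 / Cs j * ‖gs j ζ - gs j z‖ ≤ 2 * (1 / (16 * M)) := by linarith
    have h5 : ‖gs j ζ - gs j z‖ ≤ 1 / 8 := by
      rw [one_div, inv_mul_le_iff₀ hCj] at h4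
      refine h4.trans ?_
      have h6 : Cs j * (2 * (1 / (16 * M))) ≤ M * (2 * (1 / (16 * M))) := by
        apply mul_le_mul_of_nonneg_right (hCM j)
        positivity
      refine h6.trans (le_of_eq ?_)
      field_simp
      norm_num
    have h7 : ‖gs j ζ‖ ≤ ‖gs j ζ - gs j z‖ + ‖gs j z‖ := by
      have := norm_add_le (gs j ζ - gs j z) (gs j z)
      simpa using this
    have h8 := hz j
    linarith
  have hepN : ep N ≤ ‖f ζ‖ := by
    refine le_trans ?_ hζf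
    apply Real.exp_le_exp.2
    apply neg_le_neg
    apply mul_le_mul_of_nonneg_left _ hC.le
    apply Real.exp_le_exp.2
    rw [hNr]
    linarith
  have huN := hule ζ N hgs2 hepN
  have hlip := hTame.lip z ζ
  have hg34 : 3 / 4 ≤ g z ζ := ht34.trans hζ
  have hlog : Real.log (1 / g z ζ) ≤ 1 / 3 := by
    have h1 : 1 / g z ζ ≤ 4 / 3 := by
      rw [div_le_div_iff₀ (by linarith) (by norm_num)]
      linarith
    have h2 := Real.log_le_sub_one_of_pos (x := 1 / g z ζ) (by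
      have : 0 < g z ζ := by linarith
      positivity)
    linarith
  rw [hNr] at huN
  linarith

end

end Pool.Agent.Helper65.HP
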