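import Pool.Agent.Helper65.HP.Exp

/-! Module WAL: bounds for the wall families. -/

set_option autoImplicit false

namespace Pool.Agent.Helper65.HP

open UpperHalfPlane Filter Topology

noncomputable section

/-- walls with a witness in the set `E` of exit squares -/
def isWallOf (E : Finset Sq) (I : Sq) : Prop :=
  ∃ S ∈ E, S.1 ≤ I.1 ∧ ∃ e : ℤ, (e = S.2 ∨ e = S.2 + 1) ∧
    (I.2 = e * 2 ^ (I.1 - S.1) ∨ I.2 + 1 = e * 2 ^ (I.1 - S.1))

namespace Wal

/-- the (at most four) squares of generation `S.1 + k` adjacent to an end point of `S` -/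
def cand (S : Sq) (k : ℕ) : Finset Sq :=
  {(S.1 + k, S.2 * 2 ^ k), (S.1 + k, S.2 * 2 ^ k - 1), (S.1 + k, (S.2 + 1) * 2 ^ k),
    (S.1 + k, (S.2 + 1) * 2 ^ k - 1)}

theorem card_cand (S : Sq) (k : ℕ) : (cand S k).card ≤ 4 := by
  unfold cand; exact Finset.card_le_four

theorem mem_cand_of {S I : Sq} (h : S.1 ≤ I.1) {e : ℤ} (he : e = S.2 ∨ e = S.2 + 1)
    (hI : I.2 = e * 2 ^ (I.1 - S.1) ∨ I.2 + 1 = e * 2 ^ (I.1 - S.1)) :
    I ∈ cand S (I.1 - S.1) := by
  have h1 : S.1 + (I.1 - S.1) = I.1 := by omega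
  unfold cand
  simp only [Finset.mem_insert, Finset.mem_singleton, Prod.ext_iff, h1, true_and]
  rcases he with rfl | rfl <;> rcases hI with h | h
  · left; exact h
  · right; left; omega
  · right; right; left; exact h
  · right; right; right; omega

theorem len_cand {n : ℕ} {S I : Sq} {k : ℕ} (h : I ∈ cand S k) :
    len n S = 2 ^ k * len n I := by
  have h1 : I.1 = S.1 + k := by
    unfold cand at h
    simp only [Finset.mem_insert, Finset.mem_singleton] at h
    rcases h with rfl | rfl | rfl | rfl <;> rfl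
  unfold len
  rw [h1, pow_add]
  field_simp

theorem re_cand (i : Bool) {n : ℕ} {S I : Sq} {k : ℕ} (h : I ∈ cand S k) :
    |(ctr i n I).re - (ctr i n S).re| ≤ (len n S + len n I) / 2 := by
  have hl := len_cand (n := n) h
  have hI := len_pos n I
  have hS := len_pos n S
  rw [ctr_re, ctr_re]
  unfold cand at h
  simp only [Finset.mem_insert, Finset.mem_singleton] at h
  have key : ((I.2 : ℝ) * len n I = S.2 * len n S ∨ ((I.2 : ℝ) + 1) * len n I = S.2 * len n S) ∨
      ((I.2 : ℝ) * len n I = (S.2 + 1) * len n S ∨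
        ((I.2 : ℝ) + 1) * len n I = (S.2 + 1) * len n S) := by
    have e1 : (I.2 = S.2 * 2 ^ k ∨ I.2 = S.2 * 2 ^ k - 1) ∨
        (I.2 = (S.2 + 1) * 2 ^ k ∨ I.2 = (S.2 + 1) * 2 ^ k - 1) := by
      rcases h with h | h | h | h
      · left; left; rw [h]
      · left; right; rw [h]
      · right; left; rw [h]
      · right; right; rw [h]
    rcases e1 with (h | h) | (h | h)
    · left; left; rw [h, hl]; push_cast; ring
    · left; right; rw [h, hl]; push_cast; ring
    · right; left; rw [h, hl]; push_cast; ring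
    · right; right; rw [h, hl]; push_cast; ring
  rw [abs_le]
  rcases key with (h | h) | (h | h)
  · constructor <;> nlinarith
  · constructor <;> nlinarith
  · constructor <;> nlinarith
  · constructor <;> nlinarith

theorem len_cand_le {n : ℕ} {S I : Sq} {k : ℕ} (h : I ∈ cand S k) : len n I ≤ len n S := by
  rw [len_cand (n := n) h]
  have hI := len_pos n I
  have : (1 : ℝ) ≤ 2 ^ k := one_le_pow₀ (by norm_num)
  nlinarith

theorem g_cand (i : Bool) {n : ℕ} {S I : Sq} {k : ℕ} (h : I ∈ cand S k) :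
    4 / 5 / 2 ^ k ≤ g (ctr i n I) (ctr i n S) := by
  have hl := len_cand (n := n) h
  have hle := len_cand_le (n := n) h
  have hI := len_pos n I
  have hS := len_pos n S
  have hre := re_cand i (n := n) h
  have hk : (0 : ℝ) < 2 ^ k := by positivity
  unfold g
  rw [ctr_im, ctr_im]
  rw [div_div, div_le_div_iff₀ (by positivity) (by positivity)]
  have h2 : ((ctr i n I).re - (ctr i n S).re) ^ 2 ≤ ((len n S + len n I) / 2) ^ 2 := by
    rw [← sq_abs]
    exact pow_le_pow_left₀ (abs_nonneg _) hre 2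
  have h3 : (len n I + len n S) ^ 2 ≤ 4 * len n S ^ 2 := by nlinarith
  have h4 : ((ctr i n I).re - (ctr i n S).re) ^ 2 + (len n I + len n S) ^ 2 ≤
      5 * len n S ^ 2 := by nlinarith
  have h5 : 4 * len n I * len n S * (5 * 2 ^ k) = 20 * len n S ^ 2 := by
    rw [hl]; ring
  nlinarith

theorem u_cand {u : ℍ → ℝ} (hu : Tame u) (i : Bool) {n : ℕ} {S I : Sq} {k : ℕ}
    (h : I ∈ cand S k) : u (ctr i n I) ≤ u (ctr i n S) + 13 / 4 + 7 / 10 * k := by
  have h1 := hu.lip (ctr i n I) (ctr i n S)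
  have h2 := g_cand i (n := n) h
  have hk : (0 : ℝ) < 4 / 5 / 2 ^ k := by positivity
  have h3 : Real.log (1 / g (ctr i n I) (ctr i n S)) ≤ Real.log (5 / 4 * 2 ^ k) := by
    apply Real.log_le_log
    · exact one_div_pos.mpr (g_pos _ _)
    · rw [div_le_iff₀ (g_pos _ _)]
      have : 5 / 4 * (2 : ℝ) ^ k * (4 / 5 / 2 ^ k) = 1 := by field_simp
      calc (1 : ℝ) = 5 / 4 * (2 : ℝ) ^ k * (4 / 5 / 2 ^ k) := this.symm
        _ ≤ _ := by gcongr
  have h4 : Real.log (5 / 4 * 2 ^ k) = Real.log (5 / 4) + k * Real.log 2 := by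
    rw [Real.log_mul (by norm_num) (by positivity), Real.log_pow]
  have h5 : Real.log (5 / 4) ≤ 1 / 4 := by
    have := Real.log_le_sub_one_of_pos (show (0 : ℝ) < 5 / 4 by norm_num)
    linarith
  have h6 : Real.log 2 ≤ 7 / 10 := by
    have := Real.log_two_lt_d9
    linarith
  have h7 : (k : ℝ) * Real.log 2 ≤ k * (7 / 10) := by gcongr
  linarith

theorem ceil_cand {u : ℍ → ℝ} (hu : Tame u) (i : Bool) {n : ℕ} {S I : Sq} {k : ℕ}
    (h : I ∈ cand S k) : (⌈Real.exp (u (ctr i n I) / 20)⌉₊ : ℝ) ≤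
      4 * Real.exp (u (ctr i n S) / 20) * (3 / 2) ^ k := by
  have h1 := u_cand hu i (n := n) h
  have h0 : 1 ≤ Real.exp (u (ctr i n I) / 20) := by
    apply Real.one_le_exp
    have := hu.1 (ctr i n I)
    positivity
  have h2 : (⌈Real.exp (u (ctr i n I) / 20)⌉₊ : ℝ) ≤ 2 * Real.exp (u (ctr i n I) / 20) := by
    have := Nat.ceil_lt_add_one (Real.exp_pos (u (ctr i n I) / 20)).le
    linarith
  have h3 : Real.exp (u (ctr i n I) / 20) ≤
      Real.exp (u (ctr i n S) / 20) * (Real.exp (13 / 80) * Real.exp (7 / 200) ^ k) := by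
    rw [← Real.exp_nat_mul, ← Real.exp_add, ← Real.exp_add]
    apply Real.exp_le_exp.mpr
    linarith
  have h4 : Real.exp (13 / 80) ≤ 2 := by
    have h := Real.exp_one_lt_d9
    have h' : Real.exp (13 / 80 : ℝ) ≤ Real.exp (1 / 2) := Real.exp_le_exp.mpr (by norm_num)
    have h'' : Real.exp (1 / 2 : ℝ) ^ 2 = Real.exp 1 := by
      rw [← Real.exp_nat_mul]; norm_num
    have : Real.exp (1 / 2 : ℝ) ≤ 2 := by
      by_contra hc
      push Not at hc
      have := Real.exp_pos (1 / 2 : ℝ)
      nlinarith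
    linarith
  have h5 : Real.exp (7 / 200) ≤ 3 / 2 := by
    have h := Real.exp_one_lt_d9
    have h' : Real.exp (7 / 200 : ℝ) ≤ Real.exp (1 / 4) := Real.exp_le_exp.mpr (by norm_num)
    have h'' : Real.exp (1 / 4 : ℝ) ^ 4 = Real.exp 1 := by
      rw [← Real.exp_nat_mul]; norm_num
    have : Real.exp (1 / 4 : ℝ) ≤ 3 / 2 := by
      by_contra hc
      push Not at hc
      have h7 : (3 / 2 : ℝ) ^ 4 ≤ Real.exp (1 / 4 : ℝ) ^ 4 := by
        apply pow_le_pow_left₀ (by norm_num) hc.le
      rw [h''] at h7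
      norm_num at h7
      linarith
    linarith
  have h6 : Real.exp (7 / 200) ^ k ≤ (3 / 2 : ℝ) ^ k :=
    pow_le_pow_left₀ (Real.exp_pos _).le h5 k
  calc (⌈Real.exp (u (ctr i n I) / 20)⌉₊ : ℝ) ≤ 2 * Real.exp (u (ctr i n I) / 20) := h2
    _ ≤ 2 * (Real.exp (u (ctr i n S) / 20) * (Real.exp (13 / 80) * Real.exp (7 / 200) ^ k)) := by
        gcongr
    _ ≤ 2 * (Real.exp (u (ctr i n S) / 20) * (2 * (3 / 2) ^ k)) := by
        gcongr
    _ = _ := by ring

theorem gz_cand (i : Bool) {n : ℕ} {S I : Sq} {k : ℕ} (h : I ∈ cand S k) {z : ℍ}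
    (hz : len n S ≤ z.im) : g z (ctr i n I) ≤ 6 * g z (ctr i n S) / 2 ^ k := by
  have hl := len_cand (n := n) h
  have hle := len_cand_le (n := n) h
  have hI := len_pos n I
  have hS := len_pos n S
  have hre := re_cand i (n := n) h
  have hk : (0 : ℝ) < 2 ^ k := by positivity
  have hzp := z.im_pos
  unfold g
  rw [ctr_im, ctr_im]
  have h2 : ((ctr i n I).re - (ctr i n S).re) ^ 2 ≤ len n S ^ 2 := by
    rw [← sq_abs]
    exact pow_le_pow_left₀ (abs_nonneg _) (hre.trans (by linarith)) 2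
  have h3 : (z.re - (ctr i n S).re) ^ 2 + (z.im + len n S) ^ 2 ≤
      6 * ((z.re - (ctr i n I).re) ^ 2 + (z.im + len n I) ^ 2) := by
    have h4 : (z.re - (ctr i n S).re) ^ 2 ≤ 2 * (z.re - (ctr i n I).re) ^ 2 +
        2 * ((ctr i n I).re - (ctr i n S).re) ^ 2 := by
      nlinarith [sq_nonneg ((z.re - (ctr i n I).re) - ((ctr i n I).re - (ctr i n S).re))]
    have h5 : len n S ^ 2 ≤ z.im ^ 2 := pow_le_pow_left₀ hS.le hz 2
    have h6 : (z.im + len n S) ^ 2 ≤ 4 * z.im ^ 2 := by nlinarith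
    have h7 : z.im ^ 2 ≤ (z.im + len n I) ^ 2 := by nlinarith
    nlinarith [sq_nonneg (z.re - (ctr i n I).re)]
  have hD : 0 < (z.re - (ctr i n I).re) ^ 2 + (z.im + len n I) ^ 2 := by positivity
  have hD' : 0 < (z.re - (ctr i n S).re) ^ 2 + (z.im + len n S) ^ 2 := by positivity
  rw [hl] at *
  rw [← mul_div_assoc, div_div, div_le_div_iff₀ hD (by positivity)]
  have h8 : 0 < 4 * z.im * len n I := by positivity
  calc 4 * z.im * len n I * (((z.re - (ctr i n S).re) ^ 2 + (z.im + 2 ^ k * len n I) ^ 2) * 2 ^ k)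
      ≤ 4 * z.im * len n I * ((6 * ((z.re - (ctr i n I).re) ^ 2 + (z.im + len n I) ^ 2)) *
        2 ^ k) := by gcongr
    _ = _ := by ring

/-- summation over walls -/
theorem sum_walls (W E : Finset Sq) (N : ℕ) (f : Sq → ℝ) (hf : ∀ I, 0 ≤ f I)
    (hW : ∀ I ∈ W, ∃ S ∈ E, ∃ k ∈ Finset.range N, I ∈ cand S k) {B : Sq → ℝ}
    (hB : ∀ S ∈ E, 0 ≤ B S)
    (hfB : ∀ S ∈ E, ∀ k, ∀ I ∈ cand S k, f I ≤ B S * (3 / 4) ^ k) :
    ∑ I ∈ W, f I ≤ 16 * ∑ S ∈ E, B S := by
  classical
  have h1 : ∑ I ∈ W, f I ≤ ∑ I ∈ W, ∑ S ∈ E, ∑ k ∈ Finset.range N,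
      (if I ∈ cand S k then f I else 0) := by
    apply Finset.sum_le_sum
    intro I hI
    obtain ⟨S, hS, k, hk, hc⟩ := hW I hI
    have h2 : f I ≤ ∑ k ∈ Finset.range N, (if I ∈ cand S k then f I else 0) := by
      have := Finset.single_le_sum (f := fun k => if I ∈ cand S k then f I else 0)
        (fun k _ => by split_ifs <;> [exact hf I; exact le_rfl]) hk
      simpa only [hc, if_true] using this
    refine h2.trans ?_
    apply Finset.single_le_sum (f := fun S => ∑ k ∈ Finset.range N,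
      (if I ∈ cand S k then f I else 0)) (fun S _ => ?_) hS
    apply Finset.sum_nonneg
    intro k _
    split_ifs <;> [exact hf I; exact le_rfl]
  refine h1.trans ?_
  rw [Finset.sum_comm, Finset.mul_sum]
  apply Finset.sum_le_sum
  intro S hS
  rw [Finset.sum_comm]
  have h3 : ∀ k ∈ Finset.range N, ∑ I ∈ W, (if I ∈ cand S k then f I else 0) ≤
      4 * B S * (3 / 4) ^ k := by
    intro k _
    rw [← Finset.sum_filter]
    have hsub : W.filter (fun I => I ∈ cand S k) ⊆ cand S k := fun I hI =>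
      (Finset.mem_filter.mp hI).2
    have hb : 0 ≤ B S * (3 / 4) ^ k := mul_nonneg (hB S hS) (by positivity)
    calc ∑ I ∈ W.filter (fun I => I ∈ cand S k), f I ≤ ∑ I ∈ cand S k, f I :=
          Finset.sum_le_sum_of_subset_of_nonneg hsub (fun I _ _ => hf I)
      _ ≤ ∑ _I ∈ cand S k, B S * (3 / 4) ^ k := Finset.sum_le_sum (hfB S hS k)
      _ = (cand S k).card * (B S * (3 / 4) ^ k) := by rw [Finset.sum_const, nsmul_eq_mul]
      _ ≤ 4 * (B S * (3 / 4) ^ k) := by
          have : ((cand S k).card : ℝ) ≤ 4 := by exact_mod_cast card_cand S k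
          gcongr
      _ = _ := by ring
  refine (Finset.sum_le_sum h3).trans ?_
  rw [← Finset.mul_sum]
  have h4 : ∑ k ∈ Finset.range N, (3 / 4 : ℝ) ^ k ≤ 4 := by
    rw [geom_sum_eq (by norm_num)]
    have : (0 : ℝ) ≤ (3 / 4) ^ N := by positivity
    rw [div_le_iff_of_neg (by norm_num)]
    linarith
  have := hB S hS
  nlinarith

theorem isWallOf_cand {n : ℕ} {E : Finset Sq} {I : Sq} (hI : I ∈ all n) (h : isWallOf E I) :
    ∃ S ∈ E, ∃ k ∈ Finset.range (2 * n + 1), I ∈ cand S k := by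
  obtain ⟨S, hS, hle, e, he, hIe⟩ := h
  refine ⟨S, hS, I.1 - S.1, ?_, mem_cand_of hle he hIe⟩
  rw [Finset.mem_range]
  have := (mem_all.mp hI).1
  omega

/-- end points of squares not below `K` -/
theorem adj_of_not_below {S I K : Sq} (hIK : Below I K) (hSK : ¬ Below S K) (hle : S.1 ≤ I.1)
    {e : ℤ} (he : e = S.2 ∨ e = S.2 + 1)
    (hI : I.2 = e * 2 ^ (I.1 - S.1) ∨ I.2 + 1 = e * 2 ^ (I.1 - S.1)) :
    I ∈ cand K (I.1 - K.1) := by
  obtain ⟨hK1, hK2⟩ := hIK
  have hp : ∀ m : ℕ, (0 : ℤ) < 2 ^ m := fun m => by positivity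
  have hlo : K.2 * 2 ^ (I.1 - K.1) ≤ I.2 := by
    rw [← hK2]; exact Int.ediv_mul_le _ (hp _).ne'
  have hhi : I.2 < (K.2 + 1) * 2 ^ (I.1 - K.1) := by
    rw [← hK2]; exact Int.lt_ediv_add_one_mul_self _ (hp _)
  have goal : (I.2 = K.2 * 2 ^ (I.1 - K.1)) ∨ (I.2 + 1 = (K.2 + 1) * 2 ^ (I.1 - K.1)) := by
    by_cases hc : S.1 ≤ K.1
    · -- the end point is a multiple of the side of `K`
      have e1 : (2 : ℤ) ^ (I.1 - S.1) = 2 ^ (K.1 - S.1) * 2 ^ (I.1 - K.1) := by
        rw [← pow_add]; congr 1; omega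
      have hb := hp (I.1 - K.1)
      rw [e1, ← mul_assoc] at hI
      set m := e * 2 ^ (K.1 - S.1) with hm
      rcases hI with hI | hI
      · left
        rw [hI] at hlo hhi ⊢
        have h1 : K.2 ≤ m := le_of_mul_le_mul_right hlo hb
        have h2 : m < K.2 + 1 := lt_of_mul_lt_mul_right hhi hb.le
        have : m = K.2 := by omega
        rw [this]
      · right
        rw [hI]
        have h1 : K.2 < m := by
          apply lt_of_mul_lt_mul_right _ hb.le
          rw [← hI]; omega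
        have h2 : m ≤ K.2 + 1 := by
          apply le_of_mul_le_mul_right _ hb
          rw [← hI]; omega
        have : m = K.2 + 1 := by omega
        rw [this]
    · push Not at hc
      have e1 : (2 : ℤ) ^ (I.1 - K.1) = 2 ^ (S.1 - K.1) * 2 ^ (I.1 - S.1) := by
        rw [← pow_add]; congr 1; omega
      have hne : S.2 / 2 ^ (S.1 - K.1) ≠ K.2 := fun h => hSK ⟨hc.le, h⟩
      have ha := hp (I.1 - S.1)
      have hc' := hp (S.1 - K.1)
      rcases lt_or_gt_of_ne hne with h | h
      · -- `S` is to the left of `K`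
        have h1 : S.2 < K.2 * 2 ^ (S.1 - K.1) := by
          have := Int.lt_ediv_add_one_mul_self S.2 hc'
          have h3 : (S.2 / 2 ^ (S.1 - K.1) + 1) * 2 ^ (S.1 - K.1) ≤ K.2 * 2 ^ (S.1 - K.1) := by
            apply mul_le_mul_of_nonneg_right _ hc'.le
            omega
          linarith
        have h2 : e ≤ K.2 * 2 ^ (S.1 - K.1) := by rcases he with rfl | rfl <;> omega
        have h3 : e * 2 ^ (I.1 - S.1) ≤ K.2 * 2 ^ (I.1 - K.1) := by
          rw [e1, ← mul_assoc]
          exact mul_le_mul_of_nonneg_right h2 ha.le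
        rcases hI with hI | hI
        · left; omega
        · exfalso; omega
      · have h1 : (K.2 + 1) * 2 ^ (S.1 - K.1) ≤ S.2 := by
          have h4 := Int.ediv_mul_le S.2 hc'.ne'
          have h3 : (K.2 + 1) * 2 ^ (S.1 - K.1) ≤ (S.2 / 2 ^ (S.1 - K.1)) * 2 ^ (S.1 - K.1) := by
            apply mul_le_mul_of_nonneg_right _ hc'.le
            omega
          linarith
        have h2 : (K.2 + 1) * 2 ^ (S.1 - K.1) ≤ e := by rcases he with rfl | rfl <;> omega
        have h3 : (K.2 + 1) * 2 ^ (I.1 - K.1) ≤ e * 2 ^ (I.1 - S.1) := by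
          rw [e1, ← mul_assoc]
          exact mul_le_mul_of_nonneg_right h2 ha.le
        rcases hI with hI | hI
        · exfalso; omega
        · right; omega
  rcases goal with h | h
  · exact mem_cand_of hK1 (Or.inl rfl) (Or.inl h)
  · exact mem_cand_of hK1 (Or.inr rfl) (Or.inr h)

end Wal

open Wal

open Classical in
/-- walls of exit squares not larger than the height of the point -/
theorem wal_small : ∃ C > 0, ∀ u : ℍ → ℝ, Tame u → ∀ (i : Bool) (n : ℕ) (E : Finset Sq) (z : ℍ),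
    E ⊆ all n → (∀ S ∈ E, len n S ≤ z.im) →
    ∑ I ∈ (all n).filter (fun I => isWallOf E I),
      (⌈Real.exp (u (ctr i n I) / 20)⌉₊ : ℝ) * g z (ctr i n I) ≤
      C * ∑ S ∈ E, Real.exp (u (ctr i n S) / 20) * g z (ctr i n S) := by
  refine ⟨384, by norm_num, ?_⟩
  intro u hu i n E z hE hz
  have := sum_walls ((all n).filter (fun I => isWallOf E I)) E (2 * n + 1)
    (fun I => (⌈Real.exp (u (ctr i n I) / 20)⌉₊ : ℝ) * g z (ctr i n I))
    (fun I => mul_nonneg (Nat.cast_nonneg _) (g_pos _ _).le)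
    (fun I hI => isWallOf_cand (Finset.mem_filter.mp hI).1 (Finset.mem_filter.mp hI).2)
    (B := fun S => 24 * (Real.exp (u (ctr i n S) / 20) * g z (ctr i n S)))
    (fun S _ => by have := g_pos z (ctr i n S); positivity)
    (fun S hS k I hI => by
      have h1 := ceil_cand hu i (n := n) hI
      have h2 := gz_cand i (n := n) hI (hz S hS)
      have h3 := (g_pos z (ctr i n I)).le
      have h4 := g_pos z (ctr i n S)
      calc (⌈Real.exp (u (ctr i n I) / 20)⌉₊ : ℝ) * g z (ctr i n I)
          ≤ (4 * Real.exp (u (ctr i n S) / 20) * (3 / 2) ^ k) *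
            (6 * g z (ctr i n S) / 2 ^ k) := by gcongr
        _ = 24 * (Real.exp (u (ctr i n S) / 20) * g z (ctr i n S)) * ((3 / 2) ^ k / 2 ^ k) := by
            ring
        _ = _ := by rw [← div_pow]; norm_num)
  refine this.trans (le_of_eq ?_)
  rw [← Finset.mul_sum]
  ring

/-- general bound -/
theorem wal_le : ∃ C > 0, ∀ s u : ℍ → ℝ, Tame s → Tame u → ∀ (i : Bool) (n : ℕ) (z : ℍ),
    pf i n (wal s u i n) z ≤ C * Real.exp (u z / 20) := by
  classical
  obtain ⟨C1, hC1, hex⟩ := ex_sum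
  obtain ⟨C2, hC2, hwp⟩ := wpack
  refine ⟨C2 * (64 * C1 + 64), by positivity, ?_⟩
  intro s u hs hu i n z
  unfold pf
  apply hwp u hu i n (fun J => (wal s u i n J : ℝ)) (64 * C1 + 64) (fun J => Nat.cast_nonneg _)
  intro K hK
  have hwal : ∀ I, (wal s u i n I : ℝ) * len n I ≤
      (⌈Real.exp (u (ctr i n I) / 20)⌉₊ : ℝ) * len n I := by
    intro I
    unfold wal
    split_ifs
    · exact le_rfl
    · simp only [Nat.cast_zero, zero_mul]
      exact mul_nonneg (Nat.cast_nonneg _) (len_pos n I).le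
  set f : Sq → ℝ := fun I => (⌈Real.exp (u (ctr i n I) / 20)⌉₊ : ℝ) * len n I with hf
  have hf0 : ∀ I, 0 ≤ f I := fun I => mul_nonneg (Nat.cast_nonneg _) (len_pos n I).le
  have hfc : ∀ S k, ∀ I ∈ cand S k,
      f I ≤ 4 * (Real.exp (u (ctr i n S) / 20) * len n S) * (3 / 4) ^ k := by
    intro S k I hI
    have h1 := ceil_cand hu i (n := n) hI
    have h2 := len_cand (n := n) hI
    have hk : (0 : ℝ) < 2 ^ k := by positivity
    have h3 : len n I = len n S / 2 ^ k := by rw [h2]; field_simp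
    rw [hf]
    dsimp only
    rw [h3]
    have := len_pos n S
    calc (⌈Real.exp (u (ctr i n I) / 20)⌉₊ : ℝ) * (len n S / 2 ^ k)
        ≤ (4 * Real.exp (u (ctr i n S) / 20) * (3 / 2) ^ k) * (len n S / 2 ^ k) := by gcongr
      _ = 4 * (Real.exp (u (ctr i n S) / 20) * len n S) * ((3 / 2) ^ k / 2 ^ k) := by ring
      _ = _ := by rw [← div_pow]; norm_num
  -- the two kinds of walls below `K`
  set E : Finset Sq := (dn n K).filter (fun S => isEx s u i n S) with hE
  set W1 : Finset Sq := (dn n K).filter (fun I => isWallOf E I) with hW1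
  set W2 : Finset Sq := (dn n K).filter (fun I => isWall s u i n I ∧ ¬ isWallOf E I) with hW2
  have hsum : ∑ J ∈ dn n K, (wal s u i n J : ℝ) * len n J ≤ ∑ J ∈ W1, f J + ∑ J ∈ W2, f J := by
    have h1 : ∑ J ∈ dn n K, (wal s u i n J : ℝ) * len n J ≤
        ∑ J ∈ dn n K, ((if isWallOf E J then f J else 0) +
          (if isWall s u i n J ∧ ¬ isWallOf E J then f J else 0)) := by
      apply Finset.sum_le_sum
      intro J _
      by_cases h1 : isWallOf E J
      · simp only [h1, if_true, not_true_eq_false, and_false, if_false, add_zero]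
        exact hwal J
      · by_cases h2 : isWall s u i n J
        · simp only [h1, h2, if_true, if_false, not_false_eq_true, and_true, zero_add]
          exact hwal J
        · simp only [h1, h2, if_false, false_and, add_zero]
          unfold wal
          rw [if_neg h2]
          simp
    rw [Finset.sum_add_distrib, ← Finset.sum_filter, ← Finset.sum_filter] at h1
    exact h1
  have hs1 : ∑ J ∈ W1, f J ≤ 64 * C1 * Real.exp (u (ctr i n K) / 20) * len n K := by
    have h1 := sum_walls W1 E (2 * n + 1) f hf0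
      (fun I hI => isWallOf_cand (mem_dn.mp (Finset.mem_filter.mp hI).1).1
        (Finset.mem_filter.mp hI).2)
      (B := fun S => 4 * (Real.exp (u (ctr i n S) / 20) * len n S))
      (fun S _ => by have := len_pos n S; positivity)
      (fun S _ k I hI => hfc S k I hI)
    have h2 : ∑ S ∈ E, 4 * (Real.exp (u (ctr i n S) / 20) * len n S) ≤
        4 * (C1 * Real.exp (u (ctr i n K) / 20) * len n K) := by
      rw [← Finset.mul_sum]
      have hK0 := len_pos n K
      have h3 : ∑ S ∈ E, Real.exp (u (ctr i n S) / 20) * len n S ≤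
          (∑ S ∈ (all n).filter (fun S => isEx s u i n S), Real.exp (u (ctr i n S) / 20) *
            g (ctr i n K) (ctr i n S)) * len n K := by
        rw [Finset.sum_mul]
        calc ∑ S ∈ E, Real.exp (u (ctr i n S) / 20) * len n S
            ≤ ∑ S ∈ E, Real.exp (u (ctr i n S) / 20) * g (ctr i n K) (ctr i n S) * len n K := by
              apply Finset.sum_le_sum
              intro S hS
              have hb : Below S K := (mem_dn.mp (Finset.mem_filter.mp hS).1).2
              have := g_below i (n := n) hb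
              rw [div_le_iff₀ hK0] at this
              rw [mul_assoc]
              gcongr
          _ ≤ _ := by
              apply Finset.sum_le_sum_of_subset_of_nonneg
              · intro S hS
                rw [Finset.mem_filter] at hS ⊢
                exact ⟨(mem_dn.mp hS.1).1, hS.2⟩
              · intro S _ _
                have := g_pos (ctr i n K) (ctr i n S)
                positivity
      have h4 := hex s u hs hu i n (ctr i n K)
      have h5 := mul_le_mul_of_nonneg_right h4 hK0.le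
      linarith
    linarith
  have hs2 : ∑ J ∈ W2, f J ≤ 64 * Real.exp (u (ctr i n K) / 20) * len n K := by
    have h1 := sum_walls W2 {K} (2 * n + 1) f hf0
      (fun I hI => by
        obtain ⟨hI1, ⟨S, hS, hle, e, he, hIe⟩, hI3⟩ := Finset.mem_filter.mp hI
        obtain ⟨hI4, hI5⟩ := mem_dn.mp hI1
        refine ⟨K, Finset.mem_singleton_self K, I.1 - K.1, ?_, ?_⟩
        · rw [Finset.mem_range]
          have := (mem_all.mp hI4).1
          omega
        · refine adj_of_not_below hI5 ?_ hle he hIe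
          intro hSK
          apply hI3
          refine ⟨S, ?_, hle, e, he, hIe⟩
          rw [hE, Finset.mem_filter, mem_dn]
          exact ⟨⟨hS.1, hSK⟩, hS⟩)
      (B := fun S => 4 * (Real.exp (u (ctr i n S) / 20) * len n S))
      (fun S _ => by have := len_pos n S; positivity)
      (fun S _ k I hI => hfc S k I hI)
    rw [Finset.sum_singleton] at h1
    linarith
  calc ∑ J ∈ dn n K, (wal s u i n J : ℝ) * len n J ≤ ∑ J ∈ W1, f J + ∑ J ∈ W2, f J := hsum
    _ ≤ 64 * C1 * Real.exp (u (ctr i n K) / 20) * len n K +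
        64 * Real.exp (u (ctr i n K) / 20) * len n K := add_le_add hs1 hs2
    _ = _ := by ring

end

end Pool.Agent.Helper65.HP
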