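import Pool.Agent.Helper65.HP.Sqg

/-! Module WPK: packed families have bounded potentials. -/

set_option autoImplicit false

namespace Pool.Agent.Helper65.HP

open UpperHalfPlane Filter Topology

noncomputable section

namespace Wpk

theorem floor_sum {S : Finset ℤ} {ξ : ℝ} {f : ℕ → ℝ} (hf : ∀ k, 0 ≤ f k) (hs : Summable f) :
    ∑ j ∈ S, f ⌊|ξ - j|⌋₊ ≤ 2 * ∑' k, f k := by
  classical
  have key : ∀ (S' : Finset ℤ), Set.InjOn (fun j : ℤ => ⌊|ξ - j|⌋₊) S' →
      ∑ j ∈ S', f ⌊|ξ - j|⌋₊ ≤ ∑' k, f k := by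
    intro S' h
    have h1 := Finset.sum_image (f := f) h
    rw [← h1]
    exact hs.sum_le_tsum _ fun k _ => hf k
  rw [← Finset.sum_filter_add_sum_filter_not S (fun j : ℤ => (j : ℝ) ≤ ξ), two_mul]
  apply add_le_add
  · apply key
    intro j hj j' hj' h
    have h1 := (Finset.mem_filter.1 (Finset.mem_coe.1 hj)).2
    have h1' := (Finset.mem_filter.1 (Finset.mem_coe.1 hj')).2
    have h2 : ⌊|ξ - j|⌋₊ = ⌊|ξ - j'|⌋₊ := h
    rw [abs_of_nonneg (sub_nonneg.2 h1), abs_of_nonneg (sub_nonneg.2 h1')] at h2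
    have h3 : (⌊ξ - j⌋₊ : ℤ) = ⌊ξ - j⌋ := Int.natCast_floor_eq_floor (sub_nonneg.2 h1)
    have h4 : (⌊ξ - j'⌋₊ : ℤ) = ⌊ξ - j'⌋ := Int.natCast_floor_eq_floor (sub_nonneg.2 h1')
    rw [Int.floor_sub_intCast] at h3 h4
    have h5 : (⌊ξ - j⌋₊ : ℤ) = (⌊ξ - j'⌋₊ : ℤ) := by rw [h2]
    omega
  · apply key
    intro j hj j' hj' h
    have h1 := (Finset.mem_filter.1 (Finset.mem_coe.1 hj)).2
    have h1' := (Finset.mem_filter.1 (Finset.mem_coe.1 hj')).2
    push Not at h1 h1'
    have h2 : ⌊|ξ - j|⌋₊ = ⌊|ξ - j'|⌋₊ := h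
    rw [abs_of_neg (sub_neg.2 h1), abs_of_neg (sub_neg.2 h1'), neg_sub, neg_sub] at h2
    have h3 : (⌊(j : ℝ) - ξ⌋₊ : ℤ) = ⌊(j : ℝ) - ξ⌋ :=
      Int.natCast_floor_eq_floor (sub_nonneg.2 h1.le)
    have h4 : (⌊(j' : ℝ) - ξ⌋₊ : ℤ) = ⌊(j' : ℝ) - ξ⌋ :=
      Int.natCast_floor_eq_floor (sub_nonneg.2 h1'.le)
    rw [sub_eq_neg_add, Int.floor_add_intCast] at h3 h4
    have h5 : (⌊-ξ + (j : ℝ)⌋₊ : ℤ) = (⌊-ξ + (j' : ℝ)⌋₊ : ℤ) := by
      rw [← sub_eq_neg_add, ← sub_eq_neg_add, h2]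
    omega

/-- the series -/
def T (α : ℝ) : ℝ := ∑' k : ℕ, (1 / ((k : ℝ) ^ 2 + 1)) ^ α

theorem summable_T {α : ℝ} (h : 1 / 2 < α) : Summable fun k : ℕ => (1 / ((k : ℝ) ^ 2 + 1)) ^ α := by
  have h1 : Summable fun k : ℕ => 1 / ((k : ℝ)) ^ (2 * α) :=
    Real.summable_one_div_nat_rpow.2 (by linarith)
  have h2 := ((summable_nat_add_iff 1).2 h1).mul_left (2 ^ α : ℝ)
  refine Summable.of_nonneg_of_le (fun k => by positivity) (fun k => ?_) h2
  have h3 : (1 / ((k : ℝ) ^ 2 + 1)) ≤ 2 * (1 / ((k : ℝ) + 1) ^ (2 : ℝ)) := by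
    rw [Real.rpow_two, mul_one_div, div_le_div_iff₀ (by positivity) (by positivity)]
    nlinarith [sq_nonneg ((k : ℝ) - 1)]
  refine (Real.rpow_le_rpow (by positivity) h3 (by linarith)).trans (le_of_eq ?_)
  rw [Real.mul_rpow (by norm_num) (by positivity), Real.div_rpow (by norm_num) (by positivity),
    Real.one_rpow, ← Real.rpow_mul (by positivity)]
  push_cast
  rfl

theorem T_nonneg (α : ℝ) : 0 ≤ T α := tsum_nonneg fun k => by positivity

theorem T_one : T 1 ≤ 3 := by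
  have h1 := summable_T (α := 1) (by norm_num)
  unfold T
  simp only [Real.rpow_one] at h1 ⊢
  rw [h1.tsum_eq_zero_add]
  have h2 := hasSum_zeta_two
  have h3 : Summable fun k : ℕ => 1 / (((k + 1 : ℕ) : ℝ)) ^ 2 :=
    (summable_nat_add_iff 1).2 h2.summable
  have h4 : ∑' k : ℕ, 1 / ((((k + 1 : ℕ) : ℝ)) ^ 2 + 1) ≤ ∑' k : ℕ, 1 / (((k + 1 : ℕ) : ℝ)) ^ 2 := by
    apply Summable.tsum_le_tsum _ ((summable_nat_add_iff 1).2 h1) h3
    intro k
    apply one_div_le_one_div_of_le (by positivity)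
    linarith
  have h5 : ∑' k : ℕ, 1 / (((k + 1 : ℕ) : ℝ)) ^ 2 = Real.pi ^ 2 / 6 := by
    have h6 := h2.tsum_eq
    rw [h2.summable.tsum_eq_zero_add] at h6
    simpa using h6
  have h7 : Real.pi ^ 2 / 6 ≤ 2 := by
    have := Real.pi_lt_d2
    have := Real.pi_pos
    nlinarith
  have h8 : (1 : ℝ) / (((0 : ℕ) : ℝ) ^ 2 + 1) = 1 := by norm_num
  rw [h8]
  linarith

theorem g_row (i : Bool) (n : ℕ) (z : ℍ) (J : Sq) : g z (ctr i n J) ≤
    4 * (z.im / len n J) *
      (1 / ((⌊|(z.re - off i n) / len n J - 1 / 2 - J.2|⌋₊ : ℝ) ^ 2 + 1)) := by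
  have hl := len_pos n J
  have hy := z.im_pos
  set l := len n J with hldef
  set ξ : ℝ := (z.re - off i n) / l - 1 / 2 with hξ
  have h1 : z.re - (ctr i n J).re = (ξ - J.2) * l := by
    rw [ctr_re, ← hldef, hξ]
    field_simp
    ring
  have h2 : (⌊|ξ - J.2|⌋₊ : ℝ) ^ 2 ≤ (ξ - J.2) ^ 2 := by
    rw [← sq_abs (ξ - J.2)]
    exact pow_le_pow_left₀ (by positivity) (Nat.floor_le (abs_nonneg _)) 2
  unfold g
  rw [h1, ctr_im, ← hldef]
  have h3 : (0 : ℝ) < (⌊|ξ - J.2|⌋₊ : ℝ) ^ 2 + 1 := by positivity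
  have h4 : 4 * (z.im / l) * (1 / ((⌊|ξ - J.2|⌋₊ : ℝ) ^ 2 + 1)) =
      4 * z.im * l / (((⌊|ξ - J.2|⌋₊ : ℝ) ^ 2 + 1) * l ^ 2) := by
    field_simp
  rw [h4]
  apply div_le_div_of_nonneg_left (by positivity) (by positivity)
  have h5 : ((⌊|ξ - J.2|⌋₊ : ℝ) ^ 2) * l ^ 2 ≤ (ξ - J.2) ^ 2 * l ^ 2 :=
    mul_le_mul_of_nonneg_right h2 (by positivity)
  nlinarith [mul_pos hy hl, sq_nonneg z.im]

open Classical in
theorem row_sum {α : ℝ} (hα : 1 / 2 < α) (i : Bool) (n : ℕ) (z : ℍ) (m : ℕ) :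
    ∑ J ∈ (all n).filter (fun J => J.1 = m), g z (ctr i n J) ^ α ≤
      (4 * (z.im / (2 ^ n / 2 ^ m))) ^ α * (2 * T α) := by
  have hy := z.im_pos
  set ξ : ℝ := (z.re - off i n) / (2 ^ n / 2 ^ m) - 1 / 2 with hξ
  have h1 : ∀ J ∈ (all n).filter (fun J => J.1 = m), g z (ctr i n J) ^ α ≤
      (4 * (z.im / (2 ^ n / 2 ^ m))) ^ α *
        (1 / ((⌊|ξ - J.2|⌋₊ : ℝ) ^ 2 + 1)) ^ α := by
    intro J hJ
    have h2 := g_row i n z J
    have h3 : len n J = 2 ^ n / 2 ^ m := by
      unfold len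
      rw [(Finset.mem_filter.1 hJ).2]
    rw [h3, ← hξ] at h2
    rw [← Real.mul_rpow (by positivity) (by positivity)]
    exact Real.rpow_le_rpow (g_pos _ _).le h2 (by linarith)
  refine (Finset.sum_le_sum h1).trans ?_
  rw [← Finset.mul_sum]
  apply mul_le_mul_of_nonneg_left _ (by positivity)
  have hinj : Set.InjOn (fun J : Sq => J.2) ((all n).filter (fun J => J.1 = m) : Finset Sq) := by
    intro J hJ J' hJ' h
    have h2 := (Finset.mem_filter.1 (Finset.mem_coe.1 hJ)).2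
    have h3 := (Finset.mem_filter.1 (Finset.mem_coe.1 hJ')).2
    exact Prod.ext (h2.trans h3.symm) h
  have h4 := Finset.sum_image (f := fun j : ℤ => (1 / ((⌊|ξ - j|⌋₊ : ℝ) ^ 2 + 1)) ^ α) hinj
  rw [← h4]
  exact floor_sum (f := fun k : ℕ => (1 / ((k : ℝ) ^ 2 + 1)) ^ α) (fun k => by positivity)
    (summable_T hα)

theorem geo {α c : ℝ} (hα : 0 < α) (hc : 0 < c) (N : ℕ) :
    ∑ m ∈ (Finset.range N).filter (fun m => c * 2 ^ m < 1), (c * 2 ^ m) ^ α ≤
      1 / (1 - 2 ^ (-α)) * min 1 ((c * 2 ^ N / 2) ^ α) := by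
  have hr : (2 : ℝ) ^ (-α) < 1 := Real.rpow_lt_one_of_one_lt_of_neg (by norm_num) (by linarith)
  have hr0 : 0 < 1 - (2 : ℝ) ^ (-α) := by linarith
  induction N with
  | zero =>
    simp only [Finset.range_zero, Finset.filter_empty, Finset.sum_empty]
    have : 0 ≤ min 1 ((c * 2 ^ 0 / 2) ^ α) := le_min (by norm_num) (by positivity)
    positivity
  | succ N ih =>
    rw [Finset.range_add_one, Finset.filter_insert]
    have e1 : c * 2 ^ (N + 1) / 2 = c * 2 ^ N := by
      rw [pow_succ]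
      ring
    rw [e1]
    split_ifs with h
    · rw [Finset.sum_insert (by simp)]
      have h1 : (c * 2 ^ N) ^ α ≤ 1 := Real.rpow_le_one (by positivity) h.le hα.le
      rw [min_eq_right h1]
      have h2 : (c * 2 ^ N / 2) ^ α = (c * 2 ^ N) ^ α * 2 ^ (-α) := by
        rw [Real.div_rpow (by positivity) (by norm_num), Real.rpow_neg (by norm_num)]
        rfl
      have h3 : ∑ m ∈ (Finset.range N).filter (fun m => c * 2 ^ m < 1), (c * 2 ^ m) ^ α ≤
          1 / (1 - 2 ^ (-α)) * ((c * 2 ^ N) ^ α * 2 ^ (-α)) := by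
        rw [← h2]
        exact ih.trans (mul_le_mul_of_nonneg_left (min_le_right _ _) (by positivity))
      have h4 : (c * 2 ^ N) ^ α + 1 / (1 - 2 ^ (-α)) * ((c * 2 ^ N) ^ α * 2 ^ (-α)) =
          1 / (1 - 2 ^ (-α)) * (c * 2 ^ N) ^ α := by
        field_simp
        ring
      linarith
    · push Not at h
      have h1 : 1 ≤ (c * 2 ^ N) ^ α := Real.one_le_rpow h hα.le
      rw [min_eq_left h1]
      exact ih.trans (mul_le_mul_of_nonneg_left (min_le_left _ _) (by positivity))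

open Classical in
theorem core {α : ℝ} (hα : 1 / 2 < α) (z : ℍ) (i : Bool) (n : ℕ) (w B : Sq → ℝ) {D : ℝ}
    (hD : 0 ≤ D) (hw : ∀ J, 0 ≤ w J)
    (hB : ∀ I ∈ all n, ∑ J ∈ dn n I, w J * len n J ≤ B I * len n I)
    (hBD : ∀ I ∈ all n, B I * g z (ctr i n I) ≤ D * g z (ctr i n I) ^ α) :
    ∑ J ∈ all n, w J * g z (ctr i n J) ≤
      (9 / 2 * (8 ^ α * (2 * T α) + 2) + 4 ^ α * (2 * T α) * (1 / (1 - 2 ^ (-α)))) * D := by
  have hy := z.im_pos
  have hα0 : 0 < α := by linarith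
  have hT := T_nonneg α
  have hr : (2 : ℝ) ^ (-α) < 1 := Real.rpow_lt_one_of_one_lt_of_neg (by norm_num) (by linarith)
  have hr0 : 0 < 1 - (2 : ℝ) ^ (-α) := by linarith
  have hself : ∀ J ∈ all n, w J * g z (ctr i n J) ≤ D * g z (ctr i n J) ^ α := by
    intro J hJ
    refine le_trans ?_ (hBD J hJ)
    apply mul_le_mul_of_nonneg_right _ (g_pos _ _).le
    have h1 : w J * len n J ≤ B J * len n J := by
      refine le_trans ?_ (hB J hJ)
      exact Finset.single_le_sum (f := fun J => w J * len n J)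
        (fun J' _ => mul_nonneg (hw J') (len_pos n J').le) (mem_dn.2 ⟨hJ, below_refl J⟩)
    exact le_of_mul_le_mul_right h1 (len_pos n J)
  -- big squares
  have hbig : ∑ J ∈ (all n).filter (fun J => ¬ len n J ≤ z.im), w J * g z (ctr i n J) ≤
      4 ^ α * (2 * T α) * (1 / (1 - 2 ^ (-α))) * D := by
    have h1 : ∑ J ∈ (all n).filter (fun J => ¬ len n J ≤ z.im), w J * g z (ctr i n J) ≤
        ∑ J ∈ (all n).filter (fun J => ¬ len n J ≤ z.im), D * g z (ctr i n J) ^ α :=
      Finset.sum_le_sum fun J hJ => hself J (Finset.mem_filter.1 hJ).1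
    refine h1.trans ?_
    have h2 : ∑ J ∈ (all n).filter (fun J => ¬ len n J ≤ z.im), D * g z (ctr i n J) ^ α ≤
        ∑ m ∈ (Finset.range (2 * n + 1)).filter (fun m => z.im / 2 ^ n * 2 ^ m < 1),
          ∑ J ∈ (all n).filter (fun J => J.1 = m), D * g z (ctr i n J) ^ α := by
      have h3 : ∀ J ∈ (all n).filter (fun J => ¬ len n J ≤ z.im),
          J.1 ∈ (Finset.range (2 * n + 1)).filter (fun m => z.im / 2 ^ n * 2 ^ m < 1) := by
        intro J hJ
        obtain ⟨hJ1, hJ2⟩ := Finset.mem_filter.1 hJ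
        rw [Finset.mem_filter, Finset.mem_range]
        refine ⟨?_, ?_⟩
        · have := (mem_all.1 hJ1).1
          omega
        · push Not at hJ2
          unfold len at hJ2
          rw [lt_div_iff₀ (by positivity)] at hJ2
          rw [div_mul_eq_mul_div, div_lt_one (by positivity)]
          exact hJ2
      rw [← Finset.sum_fiberwise_of_maps_to h3]
      apply Finset.sum_le_sum
      intro m _
      apply Finset.sum_le_sum_of_subset_of_nonneg
      · intro J hJ
        rw [Finset.mem_filter, Finset.mem_filter] at hJ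
        exact Finset.mem_filter.2 ⟨hJ.1.1, hJ.2⟩
      · intro J _ _
        have := g_pos z (ctr i n J)
        positivity
    refine h2.trans ?_
    have h4 : ∀ m ∈ (Finset.range (2 * n + 1)).filter (fun m => z.im / 2 ^ n * 2 ^ m < 1),
        ∑ J ∈ (all n).filter (fun J => J.1 = m), D * g z (ctr i n J) ^ α ≤
          D * (4 ^ α * (2 * T α)) * (z.im / 2 ^ n * 2 ^ m) ^ α := by
      intro m _
      rw [← Finset.mul_sum, mul_assoc]
      apply mul_le_mul_of_nonneg_left _ hD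
      refine (row_sum hα i n z m).trans (le_of_eq ?_)
      have h5 : 4 * (z.im / (2 ^ n / 2 ^ m)) = 4 * (z.im / 2 ^ n * 2 ^ m) := by
        field_simp
      rw [h5, Real.mul_rpow (by norm_num) (by positivity)]
      ring
    refine (Finset.sum_le_sum h4).trans ?_
    rw [← Finset.mul_sum]
    have h6 := (geo hα0 (show 0 < z.im / 2 ^ n by positivity) (2 * n + 1)).trans
      (mul_le_mul_of_nonneg_left (min_le_left _ _) (by positivity))
    rw [mul_one] at h6
    refine (mul_le_mul_of_nonneg_left h6 (by positivity)).trans (le_of_eq ?_)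
    ring
  -- small squares
  have hsmall : ∑ J ∈ (all n).filter (fun J => len n J ≤ z.im), w J * g z (ctr i n J) ≤
      9 / 2 * (8 ^ α * (2 * T α) + 2) * D := by
    rcases ((all n).filter (fun J => len n J ≤ z.im)).eq_empty_or_nonempty with he | ⟨J0, hJ0⟩
    · rw [he, Finset.sum_empty]
      positivity
    have hex : ∃ m : ℕ, (2 : ℝ) ^ n / 2 ^ m ≤ z.im := ⟨J0.1, (Finset.mem_filter.1 hJ0).2⟩
    obtain ⟨m0, hm1, hm2⟩ : ∃ m0 : ℕ, (2 : ℝ) ^ n / 2 ^ m0 ≤ z.im ∧
        ∀ m < m0, ¬ (2 : ℝ) ^ n / 2 ^ m ≤ z.im :=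
      ⟨Nat.find hex, Nat.find_spec hex, fun m hm => Nat.find_min hex hm⟩
    have hle : ∀ J ∈ (all n).filter (fun J => len n J ≤ z.im), m0 ≤ J.1 := by
      intro J hJ
      by_contra hlt
      push Not at hlt
      exact hm2 _ hlt (Finset.mem_filter.1 hJ).2
    have h1 : ∑ J ∈ (all n).filter (fun J => len n J ≤ z.im), w J * g z (ctr i n J) ≤
        ∑ K ∈ (all n).filter (fun J => J.1 = m0), ∑ J ∈ dn n K, w J * g z (ctr i n J) := by
      have hdis : ∀ K ∈ (all n).filter (fun J => J.1 = m0),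
          ∀ K' ∈ (all n).filter (fun J => J.1 = m0), K ≠ K' → Disjoint (dn n K) (dn n K') := by
        intro K hK K' hK' hne
        rw [Finset.disjoint_left]
        intro J hJ hJ'
        have e1 := (Finset.mem_filter.1 hK).2
        have e2 := (Finset.mem_filter.1 hK').2
        have e3 := Below.chain (mem_dn.1 hJ).2 (mem_dn.1 hJ').2 (by rw [e1, e2])
        exact hne (Below.eq e3 (by rw [e1, e2])).symm
      rw [← Finset.sum_biUnion hdis]
      apply Finset.sum_le_sum_of_subset_of_nonneg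
      · intro J hJ
        obtain ⟨K, hK1, hK2⟩ := exists_anc J (hle J hJ)
        rw [Finset.mem_biUnion]
        have hJa := (Finset.mem_filter.1 hJ).1
        exact ⟨K, Finset.mem_filter.2 ⟨anc_mem hJa hK2, hK1⟩, mem_dn.2 ⟨hJa, hK2⟩⟩
      · intro J _ _
        exact mul_nonneg (hw J) (g_pos _ _).le
    refine h1.trans ?_
    have h2 : ∀ K ∈ (all n).filter (fun J => J.1 = m0),
        ∑ J ∈ dn n K, w J * g z (ctr i n J) ≤ 9 / 2 * D * g z (ctr i n K) ^ α := by
      intro K hK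
      obtain ⟨hKa, hK0⟩ := Finset.mem_filter.1 hK
      have hKl : len n K ≤ z.im := by
        unfold len
        rw [hK0]
        exact hm1
      have hlK := len_pos n K
      have h3 : ∀ J ∈ dn n K, w J * g z (ctr i n J) ≤
          9 / 2 * g z (ctr i n K) / len n K * (w J * len n J) := by
        intro J hJ
        have h4 := g_dn_le i (mem_dn.1 hJ).2 hKl
        refine (mul_le_mul_of_nonneg_left h4 (hw J)).trans (le_of_eq ?_)
        field_simp
      refine (Finset.sum_le_sum h3).trans ?_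
      rw [← Finset.mul_sum]
      have hg := g_pos z (ctr i n K)
      refine (mul_le_mul_of_nonneg_left (hB K hKa) (by positivity)).trans ?_
      have h5 : 9 / 2 * g z (ctr i n K) / len n K * (B K * len n K) =
          9 / 2 * (B K * g z (ctr i n K)) := by
        field_simp
      rw [h5, mul_assoc]
      exact mul_le_mul_of_nonneg_left (hBD K hKa) (by norm_num)
    refine (Finset.sum_le_sum h2).trans ?_
    rw [← Finset.mul_sum]
    have h6 : ∑ K ∈ (all n).filter (fun J => J.1 = m0), g z (ctr i n K) ^ α ≤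
        8 ^ α * (2 * T α) + 2 := by
      rcases Nat.eq_zero_or_pos m0 with h0 | h0
      · have h7 : ∀ K ∈ (all n).filter (fun J => J.1 = m0), g z (ctr i n K) ^ α ≤ 1 :=
          fun K _ => Real.rpow_le_one (g_pos _ _).le (g_le_one _ _) hα0.le
        refine (Finset.sum_le_card_nsmul _ _ _ h7).trans ?_
        have h8 : ((all n).filter (fun J => J.1 = m0)).card ≤ 2 := by
          have h9 : (all n).filter (fun J => J.1 = m0) ⊆ {((0 : ℕ), (-1 : ℤ)), ((0 : ℕ), (0 : ℤ))} := by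
            intro J hJ
            obtain ⟨hJa, hJ0⟩ := Finset.mem_filter.1 hJ
            obtain ⟨-, h10, h11⟩ := mem_all.1 hJa
            rw [hJ0, h0, pow_zero] at h10 h11
            rw [Finset.mem_insert, Finset.mem_singleton]
            have h12 : J.2 = -1 ∨ J.2 = 0 := by omega
            rcases h12 with h12 | h12
            · left
              exact Prod.ext (hJ0.trans h0) h12
            · right
              exact Prod.ext (hJ0.trans h0) h12
          exact (Finset.card_le_card h9).trans Finset.card_le_two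
        rw [nsmul_eq_mul, mul_one]
        have h13 : (((all n).filter (fun J => J.1 = m0)).card : ℝ) ≤ 2 := by exact_mod_cast h8
        have : 0 ≤ (8 : ℝ) ^ α * (2 * T α) := by positivity
        linarith
      · refine (row_sum hα i n z m0).trans ?_
        have h7 : z.im / (2 ^ n / 2 ^ m0) ≤ 2 := by
          have h8 := hm2 (m0 - 1) (by omega)
          push Not at h8
          have h9 : (2 : ℝ) ^ m0 = 2 ^ (m0 - 1) * 2 := by
            rw [← pow_succ]
            congr 1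
            omega
          rw [h9, div_le_iff₀ (by positivity)]
          rw [lt_div_iff₀ (by positivity)] at h8
          have h10 : 2 * ((2 : ℝ) ^ n / (2 ^ (m0 - 1) * 2)) = 2 ^ n / 2 ^ (m0 - 1) := by
            field_simp
          rw [h10, le_div_iff₀ (by positivity)]
          exact h8.le
        have h8 : (4 * (z.im / (2 ^ n / 2 ^ m0))) ^ α ≤ 8 ^ α :=
          Real.rpow_le_rpow (by positivity) (by linarith) hα0.le
        have h9 := mul_le_mul_of_nonneg_right h8 (show 0 ≤ 2 * T α by positivity)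
        linarith
    refine (mul_le_mul_of_nonneg_left h6 (by positivity)).trans (le_of_eq ?_)
    ring
  rw [← Finset.sum_filter_add_sum_filter_not (all n) (fun J => len n J ≤ z.im)]
  refine (add_le_add hsmall hbig).trans (le_of_eq ?_)
  ring

end Wpk

/-- (q2) -/
theorem pf_le {i : Bool} {n : ℕ} {μ : Sq → ℕ} {A : ℝ} (hA : 0 ≤ A) (h : Packed n μ A) (z : ℍ) :
    pf i n μ z ≤ 500 * A := by
  have h1 := Wpk.core (α := 1) (by norm_num) z i n (fun J => (μ J : ℝ)) (fun _ => A) hA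
    (fun J => Nat.cast_nonneg _) h (fun I _ => by rw [Real.rpow_one])
  unfold pf
  refine h1.trans (mul_le_mul_of_nonneg_right ?_ hA)
  have h2 := Wpk.T_one
  have h3 := Wpk.T_nonneg 1
  rw [Real.rpow_one, Real.rpow_one, Real.rpow_neg_one]
  norm_num
  linarith

/-- weighted version -/
theorem wpack : ∃ C > 0, ∀ u : ℍ → ℝ, Tame u → ∀ (i : Bool) (n : ℕ) (w : Sq → ℝ) (A : ℝ),
    (∀ J, 0 ≤ w J) → (∀ I ∈ all n, ∑ J ∈ dn n I, w J * len n J ≤
      A * Real.exp (u (ctr i n I) / 20) * len n I) →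
    ∀ z, ∑ J ∈ all n, w J * g z (ctr i n J) ≤ C * A * Real.exp (u z / 20) := by
  have hT := Wpk.T_nonneg (19 / 20)
  have hr : (2 : ℝ) ^ (-(19 / 20 : ℝ)) < 1 :=
    Real.rpow_lt_one_of_one_lt_of_neg (by norm_num) (by norm_num)
  have hr0 : 0 < 1 - (2 : ℝ) ^ (-(19 / 20 : ℝ)) := by linarith
  refine ⟨(9 / 2 * (8 ^ (19 / 20 : ℝ) * (2 * Wpk.T (19 / 20)) + 2) +
    4 ^ (19 / 20 : ℝ) * (2 * Wpk.T (19 / 20)) * (1 / (1 - 2 ^ (-(19 / 20 : ℝ))))) *
    Real.exp (3 / 20), by positivity, ?_⟩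
  intro u hu i n w A hw h z
  have hA : 0 ≤ A := by
    have h0 : ((0 : ℕ), (0 : ℤ)) ∈ all n := mem_all.2 ⟨by simp, by simp, by simp⟩
    have h1 := h _ h0
    have h2 : 0 ≤ ∑ J ∈ dn n ((0 : ℕ), (0 : ℤ)), w J * len n J :=
      Finset.sum_nonneg fun J _ => mul_nonneg (hw J) (len_pos n J).le
    have h3 := h2.trans h1
    have h4 := len_pos n ((0 : ℕ), (0 : ℤ))
    have h5 : 0 ≤ A * (Real.exp (u (ctr i n ((0 : ℕ), (0 : ℤ))) / 20) *
        len n ((0 : ℕ), (0 : ℤ))) := by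
      rw [← mul_assoc]
      exact h3
    exact nonneg_of_mul_nonneg_left h5 (by positivity)
  have h1 := Wpk.core (α := 19 / 20) (by norm_num) z i n w
    (fun I => A * Real.exp (u (ctr i n I) / 20)) (D := A * Real.exp (3 / 20) * Real.exp (u z / 20))
    (by positivity) hw h ?_
  · refine h1.trans (le_of_eq ?_)
    ring
  · intro I _
    have hg := g_pos z (ctr i n I)
    have h2 := hu.lip (ctr i n I) z
    rw [g_comm] at h2
    have h3 : Real.exp (u (ctr i n I) / 20) ≤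
        Real.exp (3 / 20) * Real.exp (u z / 20) * (1 / g z (ctr i n I)) ^ (1 / 20 : ℝ) := by
      rw [Real.rpow_def_of_pos (by positivity), ← Real.exp_add, ← Real.exp_add]
      apply Real.exp_le_exp.2
      linarith
    have h4 : (1 / g z (ctr i n I)) ^ (1 / 20 : ℝ) * g z (ctr i n I) =
        g z (ctr i n I) ^ (19 / 20 : ℝ) := by
      rw [one_div (g z (ctr i n I)), ← Real.rpow_neg_one, ← Real.rpow_mul hg.le]
      conv_lhs => rw [← Real.rpow_one (g z (ctr i n I))]
      rw [Real.rpow_one, ← Real.rpow_add_one hg.ne']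
      norm_num
    calc A * Real.exp (u (ctr i n I) / 20) * g z (ctr i n I) ≤
        A * (Real.exp (3 / 20) * Real.exp (u z / 20) * (1 / g z (ctr i n I)) ^ (1 / 20 : ℝ)) *
          g z (ctr i n I) := by
          apply mul_le_mul_of_nonneg_right _ hg.le
          exact mul_le_mul_of_nonneg_left h3 hA
      _ = A * Real.exp (3 / 20) * Real.exp (u z / 20) *
          ((1 / g z (ctr i n I)) ^ (1 / 20 : ℝ) * g z (ctr i n I)) := by ring
      _ = _ := by rw [h4]

end

end Pool.Agent.Helper65.HP
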